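import Pool.Graph.R_pool_sql_team_seeded_b3bd081e.H313R3.GK.H

/-!
Determinants of nearly lower triangular matrices; inverse transforms with and without poles.
-/

open Complex MeasureTheory Filter Topology Set

set_option linter.unusedSectionVars false

namespace Pool.Agent.H480.G

open H313.GK
open H313.TK (Ist int_exp_abs)

noncomputable section

theorem perm_eq_one {n : ℕ} (τ : Equiv.Perm (Fin n)) (h : ∀ i, i ≤ τ i) : τ = 1 := by
  have hs : ∑ i, (τ i).val = ∑ i : Fin n, i.val := Equiv.sum_comp τ (fun i : Fin n => i.val)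
  have h2 : ∀ i ∈ (Finset.univ : Finset (Fin n)), i.val = (τ i).val :=
    (Finset.sum_eq_sum_iff_of_le (fun i _ => (show i.val ≤ (τ i).val from h i))).1 hs.symm
  ext i
  exact (h2 i (Finset.mem_univ i)).symm

theorem det_low {n : ℕ} (R : Matrix (Fin n) (Fin n) ℂ) (c e M : ℝ) (hc : 0 < c) (he : 0 ≤ e) (hM : 1 ≤ M)
    (h1 : ∀ i, c ≤ ‖R i i‖) (h2 : ∀ i j, i < j → ‖R i j‖ ≤ e) (h3 : ∀ i j, ‖R i j‖ ≤ M)
    (h4 : (n.factorial : ℝ) * (e * M ^ n) < c ^ n) : R.det ≠ 0 := by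
  classical
  intro h0
  rw [Matrix.det_apply, ← Finset.add_sum_erase _ _ (Finset.mem_univ (1 : Equiv.Perm (Fin n)))] at h0
  have e1 : c ^ n ≤ ‖(Equiv.Perm.sign (1 : Equiv.Perm (Fin n))) • ∏ i, R ((1 : Equiv.Perm (Fin n)) i) i‖ := by
    simp only [Equiv.Perm.sign_one, one_smul, Equiv.Perm.coe_one, id_eq, norm_prod]
    calc c ^ n = ∏ _i : Fin n, c := by simp
      _ ≤ _ := Finset.prod_le_prod (fun _ _ => hc.le) fun i _ => h1 i
  have e2 : ‖∑ τ ∈ Finset.univ.erase (1 : Equiv.Perm (Fin n)), (Equiv.Perm.sign τ) • ∏ i, R (τ i) i‖ ≤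
      (n.factorial : ℝ) * (e * M ^ n) := by
    refine (norm_sum_le _ _).trans ?_
    have hb : ∀ τ ∈ Finset.univ.erase (1 : Equiv.Perm (Fin n)), ‖(Equiv.Perm.sign τ) • ∏ i, R (τ i) i‖ ≤ e * M ^ n := by
      intro τ hτ
      have hτ1 : τ ≠ 1 := Finset.ne_of_mem_erase hτ
      have hex : ∃ i, τ i < i := by
        by_contra hcon
        push Not at hcon
        exact hτ1 (perm_eq_one τ hcon)
      obtain ⟨i0, hi0⟩ := hex
      have hs : ‖(Equiv.Perm.sign τ) • ∏ i, R (τ i) i‖ = ‖∏ i, R (τ i) i‖ := by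
        rcases Int.units_eq_one_or (Equiv.Perm.sign τ) with h | h <;> simp [h]
      rw [hs, norm_prod, ← Finset.mul_prod_erase _ _ (Finset.mem_univ i0)]
      have hp : ∏ i ∈ Finset.univ.erase i0, ‖R (τ i) i‖ ≤ M ^ n := by
        calc ∏ i ∈ Finset.univ.erase i0, ‖R (τ i) i‖ ≤ ∏ _i ∈ Finset.univ.erase i0, M :=
              Finset.prod_le_prod (fun _ _ => norm_nonneg _) fun i _ => h3 _ _
          _ = M ^ (Finset.univ.erase i0 : Finset (Fin n)).card := by rw [Finset.prod_const]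
          _ ≤ M ^ n := by
              refine pow_le_pow_right₀ hM ?_
              refine (Finset.card_le_univ _).trans ?_
              rw [Fintype.card_fin]
      exact mul_le_mul (h2 _ _ hi0) hp (Finset.prod_nonneg fun _ _ => norm_nonneg _) he
    refine (Finset.sum_le_sum hb).trans ?_
    rw [Finset.sum_const, nsmul_eq_mul]
    refine mul_le_mul_of_nonneg_right ?_ (by positivity)
    have : (Finset.univ.erase (1 : Equiv.Perm (Fin n))).card ≤ n.factorial := by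
      refine (Finset.card_le_univ _).trans ?_
      rw [Fintype.card_perm, Fintype.card_fin]
    exact_mod_cast this
  have e3 : (Equiv.Perm.sign (1 : Equiv.Perm (Fin n))) • ∏ i, R ((1 : Equiv.Perm (Fin n)) i) i =
      -∑ τ ∈ Finset.univ.erase (1 : Equiv.Perm (Fin n)), (Equiv.Perm.sign τ) • ∏ i, R (τ i) i :=
    eq_neg_of_add_eq_zero_left h0
  rw [e3, norm_neg] at e1
  linarith

/-- analytic and `O(1 / (1 + t²))` in the closed strip -/
structure SB (Φ : ℂ → ℂ) (a b : ℝ) : Prop where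
  diff : ∀ s : ℂ, a ≤ s.re → s.re ≤ b → DifferentiableAt ℂ Φ s
  bd : ∃ C : ℝ, 0 ≤ C ∧ ∀ s : ℂ, a ≤ s.re → s.re ≤ b → ‖Φ s‖ ≤ C * (1 + s.im ^ 2)⁻¹

/-- analytic and bounded in the closed strip -/
structure BD (χ : ℂ → ℂ) (a b : ℝ) : Prop where
  diff : ∀ s : ℂ, a ≤ s.re → s.re ≤ b → DifferentiableAt ℂ χ s
  bd : ∃ C : ℝ, 0 ≤ C ∧ ∀ s : ℂ, a ≤ s.re → s.re ≤ b → ‖χ s‖ ≤ C

variable {Φ χ χ' : ℂ → ℂ} {a b a' b' : ℝ}

theorem SB.mul (h : SB Φ a b) (h' : BD χ a b) : SB (fun s => Φ s * χ s) a b := by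
  refine ⟨fun s h1 h2 => (h.diff s h1 h2).mul (h'.diff s h1 h2), ?_⟩
  obtain ⟨C, hC, hb⟩ := h.bd
  obtain ⟨D, hD, hd⟩ := h'.bd
  refine ⟨C * D, by positivity, fun s h1 h2 => ?_⟩
  rw [norm_mul]
  calc ‖Φ s‖ * ‖χ s‖ ≤ (C * (1 + s.im ^ 2)⁻¹) * D := mul_le_mul (hb s h1 h2) (hd s h1 h2) (norm_nonneg _) (by positivity)
    _ = _ := by ring

theorem BD.mul (h : BD χ a b) (h' : BD χ' a b) : BD (fun s => χ s * χ' s) a b := by
  refine ⟨fun s h1 h2 => (h.diff s h1 h2).mul (h'.diff s h1 h2), ?_⟩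
  obtain ⟨C, hC, hb⟩ := h.bd
  obtain ⟨D, hD, hd⟩ := h'.bd
  refine ⟨C * D, by positivity, fun s h1 h2 => ?_⟩
  rw [norm_mul]
  exact mul_le_mul (hb s h1 h2) (hd s h1 h2) (norm_nonneg _) hC

theorem BD.one : BD (fun _ => 1) a b :=
  ⟨fun _ _ _ => differentiableAt_const _, 1, zero_le_one, fun _ _ _ => by simp⟩

theorem BD.prod {ι : Type*} (S : Finset ι) {f : ι → ℂ → ℂ} (h : ∀ i ∈ S, BD (f i) a b) :
    BD (fun s => ∏ i ∈ S, f i s) a b := by
  classical
  induction S using Finset.induction_on with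
  | empty => simpa using BD.one
  | insert i S hi ih =>
    simp_rw [Finset.prod_insert hi]
    exact (h i (Finset.mem_insert_self _ _)).mul (ih fun j hj => h j (Finset.mem_insert_of_mem hj))

theorem SB.mono (h : SB Φ a b) (ha : a ≤ a') (hb : b' ≤ b) : SB Φ a' b' := by
  obtain ⟨C, hC, h2⟩ := h.bd
  exact ⟨fun s h1 h2 => h.diff s (ha.trans h1) (h2.trans hb), C, hC, fun s h3 h4 => h2 s (ha.trans h3) (h4.trans hb)⟩

theorem BD.mono (h : BD χ a b) (ha : a ≤ a') (hb : b' ≤ b) : BD χ a' b' := by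
  obtain ⟨C, hC, h2⟩ := h.bd
  exact ⟨fun s h1 h2 => h.diff s (ha.trans h1) (h2.trans hb), C, hC, fun s h3 h4 => h2 s (ha.trans h3) (h4.trans hb)⟩

theorem SB.lb (h : SB Φ a b) : ∃ C : ℝ, ∀ σ : ℝ, a ≤ σ → σ ≤ b → LB Φ σ C := by
  obtain ⟨C, hC, hb⟩ := h.bd
  refine ⟨C, fun σ h1 h2 => ⟨hC, ?_, fun τ => ?_⟩⟩
  · rw [continuous_iff_continuousAt]
    intro τ
    exact ContinuousAt.comp (f := vl σ) (h.diff (vl σ τ) (by simpa using h1) (by simpa using h2)).continuousAt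
      (vl_cont σ).continuousAt
  · have := hb (vl σ τ) (by simpa using h1) (by simpa using h2)
    simpa using this

/-- bound after moving the line -/
theorem SB.inv_bd (h : SB Φ a b) (hab : a ≤ b) : ∃ C : ℝ, 0 ≤ C ∧ ∀ v : ℝ, ‖Inv Φ b v‖ ≤ C * Real.exp (a * v) := by
  obtain ⟨C, hC⟩ := h.lb
  obtain ⟨C', hC', hb⟩ := h.bd
  refine ⟨C, (hC a le_rfl hab).nn, fun v => ?_⟩
  rw [← inv_shift hab h.diff hb v]
  exact (hC a le_rfl hab).inv_le v

/-- lower bound from one simple pole -/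
theorem SB.pole (h : SB Φ a b) {ρ : ℂ} (h1 : a < ρ.re) (h2 : ρ.re < b) (h0 : Φ ρ ≠ 0) :
    ∃ c : ℝ, 0 < c ∧ ∀ᶠ t : ℝ in atTop, c * Real.exp (ρ.re * t) ≤ ‖Inv (fun s => Φ s / (s - ρ)) b t‖ := by
  obtain ⟨Cg, lb⟩ := h.lb
  obtain ⟨C0, hC0, hgb⟩ := h.bd
  have hLc := lb b (by linarith) le_rfl
  have hCg : 0 ≤ Cg := hLc.nn
  have hEC : EC b (Inv Φ b) := ⟨hLc.inv_cont, Cg, hCg, fun v => hLc.inv_le v⟩
  have hEσ : ∃ C : ℝ, 0 ≤ C ∧ ∀ v : ℝ, ‖Inv Φ b v‖ ≤ C * Real.exp (a * v) := h.inv_bd (by linarith)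
  have hLρ := lb ρ.re h1.le h2.le
  have hsame : ∀ v : ℝ, Inv Φ b v = Inv Φ ρ.re v := fun v =>
    (inv_shift (a := ρ.re) (b := b) h2.le (fun s k1 k2 => h.diff s (h1.le.trans k1) k2)
      (fun s k1 k2 => hgb s (h1.le.trans k1) k2) v).symm
  have hJ : ∫ v : ℝ, cexp (-ρ * v) * Inv Φ b v = Φ ρ := by
    have hi : Integrable (fun v : ℝ => Inv Φ ρ.re v * cexp (-(ρ.re * v : ℝ))) := by
      obtain ⟨C, hC, hb2⟩ := hEσ
      obtain ⟨C', hC', hb3⟩ := hEC.bd
      set δ : ℝ := min (ρ.re - a) (b - ρ.re) with hδ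
      have hδ0 : 0 < δ := lt_min (by linarith) (by linarith)
      refine ((int_exp_abs δ hδ0).const_mul (C + C')).mono' ?_ (ae_of_all _ fun v => ?_)
      · exact (hLρ.inv_cont.mul (by fun_prop)).aestronglyMeasurable
      · rw [norm_mul, Complex.norm_exp, ← hsame v]
        have e0 : (-((ρ.re * v : ℝ) : ℂ)).re = -(ρ.re * v) := by simp
        rw [e0]
        rcases le_total 0 v with hv | hv
        · rw [abs_of_nonneg hv]
          calc ‖Inv Φ b v‖ * Real.exp (-(ρ.re * v)) ≤ (C * Real.exp (a * v)) * Real.exp (-(ρ.re * v)) :=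
                mul_le_mul_of_nonneg_right (hb2 v) (Real.exp_pos _).le
            _ = C * Real.exp (-((ρ.re - a) * v)) := by
                rw [mul_assoc, ← Real.exp_add]
                congr 2
                ring
            _ ≤ (C + C') * Real.exp (-(δ * v)) := by
                refine mul_le_mul (by linarith) (Real.exp_le_exp.2 ?_) (Real.exp_pos _).le (by positivity)
                have := mul_le_mul_of_nonneg_right (min_le_left (ρ.re - a) (b - ρ.re)) hv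
                linarith
        · rw [abs_of_nonpos hv]
          calc ‖Inv Φ b v‖ * Real.exp (-(ρ.re * v)) ≤ (C' * Real.exp (b * v)) * Real.exp (-(ρ.re * v)) :=
                mul_le_mul_of_nonneg_right (hb3 v) (Real.exp_pos _).le
            _ = C' * Real.exp ((b - ρ.re) * v) := by
                rw [mul_assoc, ← Real.exp_add]
                congr 2
                ring
            _ ≤ (C + C') * Real.exp (-(δ * -v)) := by
                refine mul_le_mul (by linarith) (Real.exp_le_exp.2 ?_) (Real.exp_pos _).le (by positivity)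
                have := mul_le_mul_of_nonneg_right (min_le_right (ρ.re - a) (b - ρ.re)) (neg_nonneg.2 hv)
                linarith
    have k1 := inv_trans hLρ hi ρ.im
    rw [← eq_vl ρ] at k1
    rw [← k1]
    exact integral_congr_ae (ae_of_all _ fun v => by simp only; rw [hsame v])
  obtain ⟨c', hc', hlow⟩ := iter_low hEC h2 h1 hEσ (Φ ρ) hJ h0 1 le_rfl
  refine ⟨c', hc', ?_⟩
  filter_upwards [hlow] with t ht
  rw [(iter_inv hLc h2 1).2] at ht
  simpa using ht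

end

end Pool.Agent.H480.G
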