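import Mathlib

/-!
Exponential polynomials as matrix coefficients of one-parameter groups.
-/

open Complex MeasureTheory Filter Topology Set
open scoped Matrix

set_option linter.unusedSectionVars false

namespace Pool.Agent.H480.G

noncomputable section

theorem exp_growth {𝔸 : Type*} [NormedRing 𝔸] [NormedAlgebra ℂ 𝔸] [CompleteSpace 𝔸] (x : 𝔸) :
    ‖NormedSpace.exp x‖ ≤ (‖(1:𝔸)‖ + 1) * Real.exp ‖x‖ := by
  have h0 := NormedSpace.exp_series_hasSum_exp' (𝕂 := ℂ) x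
  have h2 := NormedSpace.expSeries_div_hasSum_exp (𝔸 := ℝ) ‖x‖
  rw [← Real.exp_eq_exp_ℝ] at h2
  have h3 := h2.mul_left (‖(1:𝔸)‖ + 1)
  rw [← h0.tsum_eq]
  refine tsum_of_norm_bounded h3 fun n => ?_
  rw [norm_smul, norm_inv, Complex.norm_natCast]
  have h4 : ‖x ^ n‖ ≤ (‖(1:𝔸)‖ + 1) * ‖x‖ ^ n := by
    rcases Nat.eq_zero_or_pos n with h | h
    · subst h
      simp
    · refine (norm_pow_le' x h).trans ?_
      have : 0 ≤ ‖x‖ ^ n := by positivity
      nlinarith [norm_nonneg (1:𝔸)]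
  rw [inv_mul_eq_div, mul_div_assoc', div_le_div_iff_of_pos_right (by positivity)]
  exact h4

theorem exp_semi {𝔸 : Type*} [NormedRing 𝔸] [NormedAlgebra ℂ 𝔸] [CompleteSpace 𝔸] (x : 𝔸) (u v : ℂ) :
    NormedSpace.exp ((u + v) • x) = NormedSpace.exp (u • x) * NormedSpace.exp (v • x) := by
  rw [add_smul]
  have hc : Commute (u • x) (v • x) := ((Commute.refl x).smul_left u).smul_right v
  refine NormedSpace.exp_add_of_commute_of_mem_ball (𝕂 := ℂ) hc ?_ ?_
  · exact (NormedSpace.expSeries_radius_eq_top ℂ 𝔸).symm ▸ edist_lt_top _ _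
  · exact (NormedSpace.expSeries_radius_eq_top ℂ 𝔸).symm ▸ edist_lt_top _ _

variable {n : ℕ}

/-- the algebra of operators -/
abbrev Op (n : ℕ) := (Fin n → ℂ) →L[ℂ] (Fin n → ℂ)

/-- the bidiagonal matrix -/
def Am (ρ : Fin n → ℂ) : Matrix (Fin n) (Fin n) ℂ :=
  Matrix.diagonal ρ + Matrix.of (fun (i j : Fin n) => if (j : ℕ) = i + 1 then (1:ℂ) else 0)

/-- its operator -/
def Tm (ρ : Fin n → ℂ) : Op n := LinearMap.toContinuousLinearMap (Matrix.mulVecLin (Am ρ))

theorem Tm_apply (ρ w : Fin n → ℂ) : Tm ρ w = Am ρ *ᵥ w := rfl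

/-- the last unit vector -/
def ev (n : ℕ) : Fin n → ℂ := fun i => if (i : ℕ) + 1 = n then 1 else 0

/-- one-parameter group -/
def gp (ρ : Fin n → ℂ) (u : ℝ) : Op n := NormedSpace.exp ((u : ℂ) • Tm ρ)

/-- linear functional -/
def ell (a w : Fin n → ℂ) : Op n →L[ℂ] ℂ :=
  (∑ i, a i • ContinuousLinearMap.proj (R := ℂ) (φ := fun _ : Fin n => ℂ) i) ∘L (ContinuousLinearMap.apply ℂ (Fin n → ℂ) w)

theorem ell_apply (a w : Fin n → ℂ) (M : Op n) : ell a w M = ∑ i, a i * M w i := by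
  unfold ell
  simp [ContinuousLinearMap.sum_apply]

/-- exponential polynomials -/
def Ex (ρ a : Fin n → ℂ) (u : ℝ) : ℂ := ell a (ev n) (gp ρ u)

variable (ρ a : Fin n → ℂ)

theorem gp_add (u v : ℝ) : gp ρ (u + v) = gp ρ u * gp ρ v := by
  unfold gp
  rw [Complex.ofReal_add]
  exact exp_semi (𝔸 := Op n) (Tm ρ) (u : ℂ) (v : ℂ)

theorem gp_cont : Continuous (gp ρ) := by
  have h : Continuous fun u : ℝ => (u : ℂ) • Tm ρ := by fun_prop
  rw [continuous_iff_continuousAt]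
  intro u
  have h1 := (hasDerivAt_exp_smul_const (𝕂 := ℂ) (Tm ρ) (u : ℂ)).continuousAt
  exact ContinuousAt.comp (f := fun u : ℝ => (u : ℂ)) (g := fun z : ℂ => NormedSpace.exp (z • Tm ρ)) h1
    Complex.continuous_ofReal.continuousAt

/-- unit vectors -/
def uv (j : Fin n) : Fin n → ℂ := Pi.single j 1

theorem Ex_sep (u v : ℝ) :
    Ex ρ a (u + v) = ∑ j, ell a (uv j) (gp ρ u) * (gp ρ v (ev n) j) := by
  unfold Ex
  rw [gp_add, ell_apply]
  have h1 : (gp ρ u * gp ρ v) (ev n) = ∑ j, (gp ρ v (ev n) j) • gp ρ u (uv j) := by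
    show gp ρ u (gp ρ v (ev n)) = _
    have h2 : gp ρ v (ev n) = ∑ j, (gp ρ v (ev n) j) • (uv j : Fin n → ℂ) := by
      funext i
      rw [Finset.sum_apply]
      simp [uv, Pi.single_apply]
    conv_lhs => rw [h2]
    rw [map_sum]
    simp only [map_smul]
  rw [h1]
  simp only [Finset.sum_apply, Pi.smul_apply, smul_eq_mul, ell_apply, Finset.mul_sum, Finset.sum_mul]
  rw [Finset.sum_comm]
  refine Finset.sum_congr rfl fun j _ => Finset.sum_congr rfl fun i _ => ?_
  ring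

theorem left_cont (w : Fin n → ℂ) : Continuous fun u : ℝ => ell a w (gp ρ u) :=
  (ell a w).continuous.comp (gp_cont ρ)

theorem right_cont (j : Fin n) : Continuous fun u : ℝ => gp ρ u (ev n) j := by
  have h1 : Continuous fun u : ℝ => gp ρ u (ev n) := (ContinuousLinearMap.apply ℂ (Fin n → ℂ) (ev n)).continuous.comp (gp_cont ρ)
  exact (continuous_apply j).comp h1

theorem ell_growth (w : Fin n → ℂ) : ∃ C : ℝ, 0 ≤ C ∧ ∀ u : ℝ, 0 ≤ u →
    ‖ell a w (gp ρ u)‖ ≤ C * Real.exp (‖Tm ρ‖ * u) := by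
  refine ⟨‖ell a w‖ * (‖(1 : Op n)‖ + 1), by positivity, fun u hu => ?_⟩
  have h1 : ‖ell a w (gp ρ u)‖ ≤ ‖ell a w‖ * ‖gp ρ u‖ := (ell a w).le_opNorm _
  have h2 := exp_growth ((u : ℂ) • Tm ρ)
  rw [norm_smul, Complex.norm_real, Real.norm_eq_abs, abs_of_nonneg hu] at h2
  calc _ ≤ ‖ell a w‖ * ‖gp ρ u‖ := h1
    _ ≤ ‖ell a w‖ * ((‖(1 : Op n)‖ + 1) * Real.exp (u * ‖Tm ρ‖)) :=
        mul_le_mul_of_nonneg_left h2 (by positivity)
    _ = _ := by rw [mul_comm u]; ring

theorem Ex_growth : ∃ C : ℝ, 0 ≤ C ∧ ∀ u : ℝ, 0 ≤ u → ‖Ex ρ a u‖ ≤ C * Real.exp (‖Tm ρ‖ * u) :=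
  ell_growth ρ a (ev n)

theorem Ex_cont : Continuous (Ex ρ a) := left_cont ρ a (ev n)

/-- resolvent vector -/
def wv (ρ : Fin n → ℂ) (s : ℂ) : Fin n → ℂ := fun k => 1 / ∏ i ∈ Finset.Ici k, (s - ρ i)

theorem wv_eq (s : ℂ) (hs : ∀ k, s - ρ k ≠ 0) : Am ρ *ᵥ wv ρ s = s • wv ρ s - ev n := by
  funext k
  unfold Am
  rw [Matrix.add_mulVec, Pi.add_apply, Matrix.mulVec_diagonal, Pi.sub_apply, Pi.smul_apply, smul_eq_mul]
  have h1 : ((Matrix.of fun (i j : Fin n) => if (j : ℕ) = i + 1 then (1:ℂ) else 0) *ᵥ wv ρ s) k =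
      ∑ j : Fin n, (if (j : ℕ) = k + 1 then wv ρ s j else 0) := by
    simp only [Matrix.mulVec, dotProduct, Matrix.of_apply]
    refine Finset.sum_congr rfl fun j _ => ?_
    split_ifs <;> simp
  rw [h1]
  unfold ev
  have hk := hs k
  by_cases hkn : (k : ℕ) + 1 = n
  · rw [if_pos hkn, Finset.sum_eq_zero]
    · have e1 : Finset.Ici k = {k} := by
        ext i
        rw [Finset.mem_Ici, Finset.mem_singleton, Fin.le_def, Fin.ext_iff]
        have := i.2
        omega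
      unfold wv
      rw [e1, Finset.prod_singleton]
      field_simp
      ring
    · intro j _
      rw [if_neg]
      have := j.2
      omega
  · rw [if_neg hkn]
    have hlt : (k : ℕ) + 1 < n := by
      have := k.2
      omega
    set k' : Fin n := ⟨k + 1, hlt⟩ with hk'
    rw [Finset.sum_eq_single k']
    · rw [if_pos rfl]
      have e1 : Finset.Ici k = insert k (Finset.Ici k') := by
        ext i
        rw [Finset.mem_Ici, Finset.mem_insert, Finset.mem_Ici, Fin.le_def, Fin.ext_iff, Fin.le_def]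
        have : (k' : ℕ) = k + 1 := rfl
        omega
      have e2 : k ∉ Finset.Ici k' := by
        rw [Finset.mem_Ici, Fin.le_def]
        have : (k' : ℕ) = k + 1 := rfl
        omega
      have e3 : ∏ i ∈ Finset.Ici k', (s - ρ i) ≠ 0 := Finset.prod_ne_zero_iff.2 fun i _ => hs i
      unfold wv
      rw [e1, Finset.prod_insert e2]
      field_simp
      ring
    · intro j _ hj
      rw [if_neg]
      intro h
      apply hj
      rw [Fin.ext_iff]
      exact h
    · intro h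
      exact absurd (Finset.mem_univ _) h

/-- Laplace transform -/
theorem Ex_lap (s : ℂ) (hs : ∀ k, s - ρ k ≠ 0) (hs2 : ‖Tm ρ‖ < s.re) :
    IntegrableOn (fun u : ℝ => Ex ρ a u * cexp (-s * u)) (Ioi 0) ∧
    ∫ u in Ioi (0:ℝ), Ex ρ a u * cexp (-s * u) = ∑ k, a k * (1 / ∏ i ∈ Finset.Ici k, (s - ρ i)) := by
  set w := wv ρ s with hw
  have hder : ∀ u : ℝ, HasDerivAt (fun u : ℝ => ell a w (gp ρ u) * cexp (-s * u))
      (-(Ex ρ a u * cexp (-s * u))) u := by
    intro u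
    have h1 := hasDerivAt_exp_smul_const (𝕂 := ℂ) (Tm ρ) (u : ℂ)
    have h2 : HasDerivAt (fun z : ℂ => ell a w (NormedSpace.exp (z • Tm ρ)))
        (ell a w (NormedSpace.exp ((u : ℂ) • Tm ρ) * Tm ρ)) (u : ℂ) :=
      ((ell a w).hasFDerivAt (x := NormedSpace.exp ((u : ℂ) • Tm ρ))).comp_hasDerivAt _ h1
    have h2' := h2.comp_ofReal
    have h3 : HasDerivAt (fun u : ℝ => cexp (-s * u)) (cexp (-s * u) * (-s)) u := by
      have h4 : HasDerivAt (fun u : ℝ => -s * (u : ℂ)) (-s) u := by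
        simpa using (((hasDerivAt_id u).ofReal_comp).const_mul (-s))
      exact h4.cexp
    refine (h2'.mul h3).congr_deriv ?_
    have h5 : ell a w (NormedSpace.exp ((u : ℂ) • Tm ρ) * Tm ρ) = s * ell a w (gp ρ u) - Ex ρ a u := by
      unfold Ex
      rw [ell_apply, ell_apply, ell_apply]
      have h6 : (NormedSpace.exp ((u : ℂ) • Tm ρ) * Tm ρ) w = s • gp ρ u w - gp ρ u (ev n) := by
        show gp ρ u (Tm ρ w) = _
        rw [Tm_apply, hw, wv_eq ρ s hs, map_sub, map_smul]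
      rw [h6, Finset.mul_sum, ← Finset.sum_sub_distrib]
      refine Finset.sum_congr rfl fun i _ => ?_
      rw [Pi.sub_apply, Pi.smul_apply, smul_eq_mul]
      ring
    rw [h5]
    show (s * ell a w (gp ρ u) - Ex ρ a u) * cexp (-s * u) + ell a w (gp ρ u) * (cexp (-s * u) * (-s)) = _
    ring
  have hb : 0 < s.re - ‖Tm ρ‖ := by linarith
  have hnorm : ∀ u : ℝ, ‖cexp (-s * u)‖ = Real.exp (-(s.re * u)) := by
    intro u
    rw [Complex.norm_exp]
    congr 1
    simp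
  obtain ⟨C, hC, hEx⟩ := Ex_growth ρ a
  obtain ⟨C', hC', hell⟩ := ell_growth ρ a w
  have hint0 : IntegrableOn (fun u : ℝ => Ex ρ a u * cexp (-s * u)) (Ioi 0) := by
    have h6 : IntegrableOn (fun u : ℝ => C * Real.exp (-(s.re - ‖Tm ρ‖) * u)) (Ioi 0) :=
      (integrableOn_exp_mul_Ioi (by linarith) 0).const_mul C
    refine Integrable.mono' h6 ?_ ?_
    · have := Ex_cont ρ a
      exact (Continuous.aestronglyMeasurable (by fun_prop))
    · refine (ae_restrict_iff' measurableSet_Ioi).2 (ae_of_all _ fun u hu => ?_)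
      rw [norm_mul, hnorm]
      calc ‖Ex ρ a u‖ * Real.exp (-(s.re * u)) ≤ (C * Real.exp (‖Tm ρ‖ * u)) * Real.exp (-(s.re * u)) :=
            mul_le_mul_of_nonneg_right (hEx u (le_of_lt hu)) (Real.exp_pos _).le
        _ = C * Real.exp (-(s.re - ‖Tm ρ‖) * u) := by
            rw [mul_assoc, ← Real.exp_add]
            congr 2
            ring
  have hlim : Tendsto (fun u : ℝ => ell a w (gp ρ u) * cexp (-s * u)) atTop (𝓝 0) := by
    have h7 : Tendsto (fun u : ℝ => C' * Real.exp (-((s.re - ‖Tm ρ‖) * u))) atTop (𝓝 (C' * 0)) := by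
      refine Tendsto.const_mul _ (Real.tendsto_exp_neg_atTop_nhds_zero.comp ?_)
      exact tendsto_id.const_mul_atTop hb
    rw [mul_zero] at h7
    refine squeeze_zero_norm' ?_ h7
    filter_upwards [eventually_ge_atTop (0:ℝ)] with u hu
    rw [norm_mul, hnorm]
    calc _ ≤ (C' * Real.exp (‖Tm ρ‖ * u)) * Real.exp (-(s.re * u)) :=
          mul_le_mul_of_nonneg_right (hell u hu) (Real.exp_pos _).le
      _ = _ := by
          rw [mul_assoc, ← Real.exp_add]
          congr 2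
          ring
  have hI := integral_Ioi_of_hasDerivAt_of_tendsto' (a := (0:ℝ)) (fun u _ => hder u) hint0.neg hlim
  rw [integral_neg] at hI
  have h8 : ell a w (gp ρ 0) * cexp (-s * ((0:ℝ) : ℂ)) = ∑ k, a k * w k := by
    have h9 : gp ρ 0 = 1 := by
      have h10 : ((0:ℝ) : ℂ) • Tm ρ = 0 := by
        rw [Complex.ofReal_zero]
        exact zero_smul ℂ (Tm ρ)
      unfold gp
      rw [h10]
      exact NormedSpace.exp_zero
    rw [h9, Complex.ofReal_zero, mul_zero, Complex.exp_zero, mul_one, ell_apply]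
    rfl
  rw [h8, zero_sub] at hI
  exact ⟨hint0, neg_injective hI⟩

end

end Pool.Agent.H480.G
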