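import Pool.Agent.H480.G9
import Pool.Agent.H480.G10

/-!
Partial fractions, and the remainder after removing finitely many zeros.
-/

open Complex MeasureTheory Filter Topology Set
open scoped ComplexConjugate

set_option linter.unusedSectionVars false

namespace Pool.Agent.H480.G

open H313.GK
open H313.TK (Ist int_exp_abs)

noncomputable section

theorem prod_Ici {n : ℕ} (f : Fin n → ℂ) (k : Fin n) : ∏ i ∈ Finset.Ici k, f i = ∏ i, if k ≤ i then f i else 1 := by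
  rw [← Finset.prod_filter]
  congr 1
  ext i
  simp

/-- Newton's form of the partial fractions -/
theorem newton {U : Set ℂ} (hU : IsOpen U) : ∀ (n : ℕ) (ρ : Fin n → ℂ) (_ : ∀ k, ρ k ∈ U) (h : ℂ → ℂ)
    (_ : DifferentiableOn ℂ h U), ∃ a : Fin n → ℂ, ∃ G : ℂ → ℂ, DifferentiableOn ℂ G U ∧
      ∀ s ∈ U, (∀ k, s - ρ k ≠ 0) →
        h s / (∏ k, (s - ρ k)) = ∑ k, a k * (1 / ∏ i ∈ Finset.Ici k, (s - ρ i)) + G s := by
  intro n
  induction n with
  | zero =>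
    intro ρ _ h hh
    refine ⟨fun _ => 0, h, hh, fun s hs _ => ?_⟩
    simp
  | succ n ih =>
    intro ρ hρ h hh
    have h1 : DifferentiableOn ℂ (dslope h (ρ 0)) U :=
      (Complex.differentiableOn_dslope (hU.mem_nhds (hρ 0))).2 hh
    obtain ⟨a', G, hG, hform⟩ := ih (fun k => ρ k.succ) (fun k => hρ _) (dslope h (ρ 0)) h1
    refine ⟨Fin.cons (h (ρ 0)) a', G, hG, fun s hs hne => ?_⟩
    have h2 := hform s hs fun k => hne _
    rw [Fin.prod_univ_succ, Fin.sum_univ_succ]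
    have h3 := sub_smul_dslope h (ρ 0) s
    rw [smul_eq_mul] at h3
    have hP : ∏ k : Fin n, (s - ρ k.succ) ≠ 0 := Finset.prod_ne_zero_iff.2 fun k _ => hne _
    have h0 := hne 0
    have e1 : ∏ i ∈ Finset.Ici (0 : Fin (n + 1)), (s - ρ i) = (s - ρ 0) * ∏ k : Fin n, (s - ρ k.succ) := by
      rw [prod_Ici, Fin.prod_univ_succ]
      simp
    have e2 : ∀ k : Fin n, ∏ i ∈ Finset.Ici k.succ, (s - ρ i) = ∏ i ∈ Finset.Ici k, (s - ρ i.succ) := by
      intro k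
      rw [prod_Ici, prod_Ici, Fin.prod_univ_succ]
      rw [if_neg (by simp)]
      rw [one_mul]
      refine Finset.prod_congr rfl fun i _ => ?_
      simp only [Fin.succ_le_succ_iff]
    simp only [Fin.cons_zero, Fin.cons_succ]
    rw [e1]
    simp_rw [e2]
    rw [add_assoc, ← h2]
    have e3 : h s = h (ρ 0) + (s - ρ 0) * dslope h (ρ 0) s := by rw [h3]; ring
    rw [e3]
    field_simp

variable {m : ℕ} {θ N : ℝ} {μ : Fin m → ℂ} {α : Fin m → ℕ → ℂ} {ε : ℂ} {Λ : ℂ → ℂ}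

/-- at most `r` zeros, with multiplicity, to the right of `δ` -/
def AtMost (Λ : ℂ → ℂ) (δ : ℝ) (r : ℕ) : Prop :=
  ∀ S : Finset ℂ, (∀ ρ ∈ S, δ < ρ.re) → ∑ ρ ∈ S, analyticOrderAt Λ ρ ≤ r

/-- factorization at finitely many zeros -/
theorem fin_factor (hm : 1 ≤ m) (hθ : 0 ≤ θ) (d : SD θ N μ α ε Λ) {δ : ℝ} {r : ℕ} (h : AtMost Λ δ r) :
    ∃ n : ℕ, n ≤ r ∧ ∃ ρ : Fin n → ℂ, ∃ Ψ : ℂ → ℂ, Differentiable ℂ Ψ ∧ (∀ k, δ < (ρ k).re) ∧
      (∀ s, (∏ k, (s - ρ k)) * Ψ s = Λ s) ∧ ∀ s : ℂ, δ < s.re → Ψ s ≠ 0 := by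
  classical
  have hm0 : (0:ℝ) < m := by exact_mod_cast hm
  have hb : (0:ℝ) < 2 / m := by positivity
  set Z : Set ℂ := {ρ | δ < ρ.re ∧ Λ ρ = 0} with hZ
  have hone : ∀ ρ, Λ ρ = 0 → (1 : ℕ∞) ≤ analyticOrderAt Λ ρ := by
    intro ρ hρ
    rw [ENat.one_le_iff_ne_zero]
    intro h0
    rw [(d.entire.analyticAt ρ).analyticOrderAt_eq_zero] at h0
    exact h0 hρ
  have hfin : Z.Finite := by
    by_contra hinf
    obtain ⟨S, hSZ, hcard⟩ := Set.Infinite.exists_subset_card_eq hinf (r + 1)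
    have h1 := h S fun ρ hρ => (hSZ hρ).1
    have h2 : ((r + 1 : ℕ) : ℕ∞) ≤ ∑ ρ ∈ S, analyticOrderAt Λ ρ := by
      rw [← hcard]
      calc ((S.card : ℕ) : ℕ∞) = ∑ _ρ ∈ S, (1 : ℕ∞) := by simp
        _ ≤ _ := Finset.sum_le_sum fun ρ hρ => hone ρ (hSZ hρ).2
    have h3 := h2.trans h1
    have h4 : r + 1 ≤ r := by exact_mod_cast h3
    omega
  set S : Finset ℂ := hfin.toFinset with hS
  have hSm : ∀ ρ, ρ ∈ S ↔ δ < ρ.re ∧ Λ ρ = 0 := fun ρ => by rw [hS, Set.Finite.mem_toFinset]; rfl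
  have hle := h S fun ρ hρ => ((hSm ρ).1 hρ).1
  have hnt : ∀ ρ ∈ S, analyticOrderAt Λ ρ ≠ ⊤ := by
    intro ρ hρ htop
    have h1 : analyticOrderAt Λ ρ ≤ ∑ ρ ∈ S, analyticOrderAt Λ ρ :=
      Finset.single_le_sum (f := fun ρ => analyticOrderAt Λ ρ) (fun _ _ => bot_le) hρ
    rw [htop] at h1
    have h2 := (h1.trans hle)
    exact absurd (top_le_iff.1 h2) (ENat.coe_ne_top r)
  set mm : ℂ → ℕ := fun ρ => (analyticOrderAt Λ ρ).toNat with hmm
  have hmc : ∀ ρ ∈ S, (mm ρ : ℕ∞) = analyticOrderAt Λ ρ := fun ρ hρ => ENat.coe_toNat (hnt ρ hρ)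
  obtain ⟨Ψ, hΨ, hf⟩ := factor hb (d.kp hm hθ) S mm fun ρ hρ => (hmc ρ hρ).le
  obtain ⟨L, hL1, hL2, hL3⟩ := exists_list S mm
  refine ⟨L.length, ?_, fun k => L[k.1], Ψ, hΨ.diff, fun k => ((hSm _).1 (hL2 _ (List.getElem_mem _))).1, fun s => ?_,
    fun s hs => ?_⟩
  · rw [hL1]
    have h1 : ((∑ ρ ∈ S, mm ρ : ℕ) : ℕ∞) ≤ r := by
      rw [Nat.cast_sum, Finset.sum_congr rfl hmc]
      exact hle
    exact_mod_cast h1
  · have e1 : ∏ k : Fin L.length, (s - L[k.1]) = (L.map (fun x => s - x)).prod :=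
      Fin.prod_univ_fun_getElem L (fun x => s - x)
    rw [e1, hL3]
    exact hf s
  · have hpd : Differentiable ℂ (fun s : ℂ => ∏ ρ ∈ S, (s - ρ) ^ mm ρ) := by fun_prop
    intro h0
    by_cases hsS : s ∈ S
    · -- order comparison
      have e2 : Λ = (fun s : ℂ => ∏ ρ ∈ S, (s - ρ) ^ mm ρ) * Ψ := by
        funext s
        exact (hf s).symm
      have e3 : analyticOrderAt Λ s = analyticOrderAt (fun s : ℂ => ∏ ρ ∈ S, (s - ρ) ^ mm ρ) s + analyticOrderAt Ψ s := by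
        conv_lhs => rw [e2]
        exact analyticOrderAt_mul (hpd.analyticAt s) (hΨ.diff.analyticAt s)
      have e4 : (mm s : ℕ∞) ≤ analyticOrderAt (fun s : ℂ => ∏ ρ ∈ S, (s - ρ) ^ mm ρ) s := by
        rw [natCast_le_analyticOrderAt (hpd.analyticAt s)]
        refine ⟨fun z => ∏ ρ ∈ S.erase s, (z - ρ) ^ mm ρ, ?_, Eventually.of_forall fun z => ?_⟩
        · have : Differentiable ℂ (fun z : ℂ => ∏ ρ ∈ S.erase s, (z - ρ) ^ mm ρ) := by fun_prop
          exact this.analyticAt s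
        · rw [smul_eq_mul, Finset.mul_prod_erase S (fun ρ => (z - ρ) ^ mm ρ) hsS]
      have e5 : (1 : ℕ∞) ≤ analyticOrderAt Ψ s := by
        rw [ENat.one_le_iff_ne_zero]
        intro h00
        rw [(hΨ.diff.analyticAt s).analyticOrderAt_eq_zero] at h00
        exact h00 h0
      have e6 : (mm s : ℕ∞) + 1 ≤ analyticOrderAt Λ s := by
        rw [e3]
        exact add_le_add e4 e5
      rw [← hmc s hsS] at e6
      have : mm s + 1 ≤ mm s := by exact_mod_cast e6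
      omega
    · apply hsS
      rw [hSm]
      exact ⟨hs, by rw [← hf s, h0, mul_zero]⟩

/-- the remainder `G`: partial fractions of the transform of `M_π(e^u)` -/
theorem exists_G (hm : 1 ≤ m) (hθ : 0 ≤ θ) (d : SD θ N μ α ε Λ) {δ : ℝ} (hδ : 1 / 2 ≤ δ) {r : ℕ} (h : AtMost Λ δ r) :
    ∃ n : ℕ, n ≤ r ∧ ∃ ρ a : Fin n → ℂ, ∃ G : ℂ → ℂ, DifferentiableOn ℂ G {s | δ < s.re} ∧ (∀ k, δ < (ρ k).re) ∧
      (∀ s : ℂ, δ < s.re → (∀ k, s - ρ k ≠ 0) →
        (Lf μ Λ s)⁻¹ / s = ∑ k, a k * (1 / ∏ i ∈ Finset.Ici k, (s - ρ i)) + G s) ∧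
      ∀ s : ℂ, δ < s.re → (∀ k, s - ρ k ≠ 0) → Λ s ≠ 0 := by
  obtain ⟨n, hn, ρ, Ψ, hΨ, hρ, hprod, hne⟩ := fin_factor hm hθ d h
  have hU : IsOpen {s : ℂ | δ < s.re} := isOpen_lt continuous_const Complex.continuous_re
  have hgam : ∀ s : ℂ, δ < s.re → ∀ j, 0 < (s - μ j).re := by
    intro s hs j
    have := d.re_le j
    rw [Complex.sub_re]
    linarith
  have hgd : ∀ s : ℂ, δ < s.re → DifferentiableAt ℂ (fun s => ∏ j, Gammaℝ (s - μ j)) s := by
    intro s hs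
    refine DifferentiableAt.fun_finsetProd fun j _ => ?_
    have hg := Gammaℝ_ne_zero_of_re_pos (hgam s hs j)
    have h5 := (differentiable_Gammaℝ_inv (s - μ j)).inv (inv_ne_zero hg)
    have h6 : DifferentiableAt ℂ Gammaℝ (s - μ j) := by
      refine h5.congr_of_eventuallyEq (Eventually.of_forall fun z => ?_)
      simp
    exact DifferentiableAt.comp (g := Gammaℝ) (f := fun z : ℂ => z - μ j) s h6 (by fun_prop)
  set hh : ℂ → ℂ := fun s => (∏ j, Gammaℝ (s - μ j)) / (s * Ψ s) with hhd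
  have hs0 : ∀ s : ℂ, δ < s.re → s ≠ 0 := by
    intro s hs h0
    rw [h0, Complex.zero_re] at hs
    linarith
  have hhD : DifferentiableOn ℂ hh {s | δ < s.re} := by
    intro s hs
    refine (DifferentiableAt.div (hgd s hs) ((differentiableAt_id).mul (hΨ s)) ?_).differentiableWithinAt
    exact mul_ne_zero (hs0 s hs) (hne s hs)
  obtain ⟨a, G, hG, hform⟩ := newton hU n ρ hρ hh hhD
  refine ⟨n, hn, ρ, a, G, hG, hρ, fun s hs hk => ?_, fun s hs hk => ?_⟩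
  · rw [← hform s hs hk, hhd]
    simp only
    unfold Lf
    rw [← hprod s]
    have e1 : ∏ k, (s - ρ k) ≠ 0 := Finset.prod_ne_zero_iff.2 fun k _ => hk k
    have e2 := hne s hs
    have e3 := hs0 s hs
    have e4 : ∏ j, (Gammaℝ (s - μ j))⁻¹ = (∏ j, Gammaℝ (s - μ j))⁻¹ := Finset.prod_inv_distrib _
    have e5 : ∏ j, Gammaℝ (s - μ j) ≠ 0 :=
      Finset.prod_ne_zero_iff.2 fun j _ => Gammaℝ_ne_zero_of_re_pos (hgam s hs j)
    rw [e4]
    field_simp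
  · rw [← hprod s]
    exact mul_ne_zero (Finset.prod_ne_zero_iff.2 fun k _ => hk k) (hne s hs)

/-- bound for the remainder -/
theorem G_bound (hθ : 0 ≤ θ) (d : SD θ N μ α ε Λ) {δ σ c : ℝ} (hδ : 1 / 2 ≤ δ) (hσ : δ < σ) (hσc : σ ≤ c) {n : ℕ}
    {ρ a : Fin n → ℂ} {G : ℂ → ℂ} (hG : DifferentiableOn ℂ G {s | δ < s.re})
    (hform : ∀ s : ℂ, δ < s.re → (∀ k, s - ρ k ≠ 0) →
      (Lf μ Λ s)⁻¹ / s = ∑ k, a k * (1 / ∏ i ∈ Finset.Ici k, (s - ρ i)) + G s)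
    (hne : ∀ s : ℂ, δ < s.re → (∀ k, s - ρ k ≠ 0) → Λ s ≠ 0) :
    ∃ D : ℝ, 0 ≤ D ∧ ∀ s : ℂ, σ ≤ s.re → s.re ≤ c → ‖G s‖ ≤ D * (1 + |s.im|) ^ (-(3 / 4) : ℝ) := by
  set R0 : ℝ := ∑ k, ‖ρ k‖ with hR0
  have hR0n : 0 ≤ R0 := Finset.sum_nonneg fun _ _ => norm_nonneg _
  have hρR : ∀ k, ‖ρ k‖ ≤ R0 := fun k =>
    Finset.single_le_sum (f := fun k => ‖ρ k‖) (fun _ _ => norm_nonneg _) (Finset.mem_univ k)
  have hbig : ∀ s : ℂ, R0 < |s.im| → ∀ k, s - ρ k ≠ 0 := by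
    intro s hs k h0
    have h1 : s = ρ k := sub_eq_zero.1 h0
    have h2 := (Complex.abs_im_le_norm (ρ k)).trans (hρR k)
    rw [← h1] at h2
    linarith
  obtain ⟨C, hC, T, hT, hTR, hinv⟩ := Lf_inv_bound hθ d hδ hσ (η := 1 / 4) (by norm_num) hR0n
    (fun s hs hsi => hne s hs (hbig s hsi))
  set T1 : ℝ := max T (2 * R0 + 1) with hT1
  have hT1a : T ≤ T1 := le_max_left _ _
  have hT1b : 2 * R0 + 1 ≤ T1 := le_max_right _ _
  -- compact part
  set Q : Set ℂ := Complex.reProdIm (Icc σ c) (Icc (-T1) T1) with hQ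
  have hQc : IsCompact Q := isCompact_Icc.reProdIm isCompact_Icc
  have hcont : ContinuousOn G Q := by
    intro s hs
    rw [hQ, Complex.mem_reProdIm] at hs
    have hs' : s ∈ {s : ℂ | δ < s.re} := by
      show δ < s.re
      linarith [hs.1.1]
    exact ((hG s hs').differentiableAt ((isOpen_lt continuous_const Complex.continuous_re).mem_nhds hs')).continuousAt.continuousWithinAt
  obtain ⟨M0, hM0⟩ := hQc.exists_bound_of_continuousOn hcont
  set W : ℝ := ∑ k, ‖a k‖ with hW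
  have hWn : 0 ≤ W := Finset.sum_nonneg fun _ _ => norm_nonneg _
  refine ⟨|M0| * (1 + T1) ^ (3 / 4 : ℝ) + (2 * C + 2 * W), by positivity, fun s h1 h2 => ?_⟩
  have him := abs_nonneg s.im
  have hx0 : 0 < 1 + |s.im| := by linarith
  have hxp : 0 < (1 + |s.im|) ^ (-(3 / 4) : ℝ) := by positivity
  rcases le_or_gt |s.im| T1 with hs | hs
  · have hsQ : s ∈ Q := by
      rw [hQ, Complex.mem_reProdIm]
      exact ⟨⟨h1, h2⟩, abs_le.1 hs⟩
    have h3 := (hM0 s hsQ).trans (le_abs_self M0)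
    have h4 : 1 ≤ (1 + T1) ^ (3 / 4 : ℝ) * (1 + |s.im|) ^ (-(3 / 4) : ℝ) := by
      have h5 : (1 + |s.im|) ^ (3 / 4 : ℝ) ≤ (1 + T1) ^ (3 / 4 : ℝ) :=
        Real.rpow_le_rpow hx0.le (by linarith) (by norm_num)
      have h6 : (1 + |s.im|) ^ (3 / 4 : ℝ) * (1 + |s.im|) ^ (-(3 / 4) : ℝ) = 1 := by
        rw [← Real.rpow_add hx0]
        norm_num
      calc (1:ℝ) = (1 + |s.im|) ^ (3 / 4 : ℝ) * (1 + |s.im|) ^ (-(3 / 4) : ℝ) := h6.symm
        _ ≤ _ := mul_le_mul_of_nonneg_right h5 hxp.le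
    have h7 : |M0| ≤ |M0| * (1 + T1) ^ (3 / 4 : ℝ) * (1 + |s.im|) ^ (-(3 / 4) : ℝ) := by
      rw [mul_assoc]
      exact le_mul_of_one_le_right (abs_nonneg _) h4
    have h8 : 0 ≤ (2 * C + 2 * W) * (1 + |s.im|) ^ (-(3 / 4) : ℝ) := by positivity
    rw [add_mul]
    linarith
  · have hsR : R0 < |s.im| := by linarith
    have hδs : δ < s.re := by linarith
    have h3 := hform s hδs (hbig s hsR)
    have h4 : G s = (Lf μ Λ s)⁻¹ / s - ∑ k, a k * (1 / ∏ i ∈ Finset.Ici k, (s - ρ i)) := by rw [h3]; ring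
    have hhalf : (1 + |s.im|) / 2 ≤ |s.im| := by linarith
    have h5 : ‖(Lf μ Λ s)⁻¹ / s‖ ≤ 2 * C * (1 + |s.im|) ^ (-(3 / 4) : ℝ) := by
      rw [norm_div]
      have h6 := hinv s h1 (by linarith)
      have h7 : (1 + |s.im|) / 2 ≤ ‖s‖ := hhalf.trans (Complex.abs_im_le_norm s)
      have e1 : (1 + |s.im|) ^ (1 / 4 : ℝ) = (1 + |s.im|) ^ (-(3 / 4) : ℝ) * (1 + |s.im|) := by
        rw [← Real.rpow_add_one hx0.ne']
        norm_num
      calc ‖(Lf μ Λ s)⁻¹‖ / ‖s‖ ≤ (C * (1 + |s.im|) ^ (1 / 4 : ℝ)) / ((1 + |s.im|) / 2) :=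
            div_le_div₀ (by positivity) h6 (by positivity) h7
        _ = _ := by
            rw [e1]
            field_simp
    have h6 : ‖∑ k, a k * (1 / ∏ i ∈ Finset.Ici k, (s - ρ i))‖ ≤ 2 * W * (1 + |s.im|) ^ (-(3 / 4) : ℝ) := by
      have hfac : ∀ k, (1 + |s.im|) / 2 ≤ ‖s - ρ k‖ := by
        intro k
        have e1 := Complex.abs_im_le_norm (s - ρ k)
        rw [Complex.sub_im] at e1
        have e2 := abs_sub_abs_le_abs_sub s.im (ρ k).im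
        have e3 := (Complex.abs_im_le_norm (ρ k)).trans (hρR k)
        linarith
      have hfac1 : ∀ k, 1 ≤ ‖s - ρ k‖ := by
        intro k
        have e1 := Complex.abs_im_le_norm (s - ρ k)
        rw [Complex.sub_im] at e1
        have e2 := abs_sub_abs_le_abs_sub s.im (ρ k).im
        have e3 := (Complex.abs_im_le_norm (ρ k)).trans (hρR k)
        linarith
      have hterm : ∀ k, ‖a k * (1 / ∏ i ∈ Finset.Ici k, (s - ρ i))‖ ≤ ‖a k‖ * (2 * (1 + |s.im|) ^ (-(3 / 4) : ℝ)) := by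
        intro k
        rw [norm_mul, norm_div, norm_one, norm_prod]
        refine mul_le_mul_of_nonneg_left ?_ (norm_nonneg _)
        have hk : k ∈ Finset.Ici k := Finset.mem_Ici.2 le_rfl
        have e4 : (1 + |s.im|) / 2 ≤ ∏ i ∈ Finset.Ici k, ‖s - ρ i‖ := by
          rw [← Finset.mul_prod_erase _ _ hk]
          have e5 : (1:ℝ) ≤ ∏ i ∈ (Finset.Ici k).erase k, ‖s - ρ i‖ := by
            calc (1:ℝ) = ∏ _i ∈ (Finset.Ici k).erase k, (1:ℝ) := by simp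
              _ ≤ _ := Finset.prod_le_prod (fun _ _ => zero_le_one) fun i _ => hfac1 i
          calc (1 + |s.im|) / 2 = (1 + |s.im|) / 2 * 1 := by ring
            _ ≤ _ := mul_le_mul (hfac k) e5 zero_le_one (norm_nonneg _)
        calc 1 / ∏ i ∈ Finset.Ici k, ‖s - ρ i‖ ≤ 1 / ((1 + |s.im|) / 2) :=
              one_div_le_one_div_of_le (by positivity) e4
          _ = 2 * (1 + |s.im|) ^ (-1 : ℝ) := by
              rw [Real.rpow_neg_one]
              field_simp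
          _ ≤ 2 * (1 + |s.im|) ^ (-(3 / 4) : ℝ) := by
              refine mul_le_mul_of_nonneg_left ?_ (by norm_num)
              exact Real.rpow_le_rpow_of_exponent_le (by linarith) (by norm_num)
      calc _ ≤ ∑ k, ‖a k‖ * (2 * (1 + |s.im|) ^ (-(3 / 4) : ℝ)) := (norm_sum_le _ _).trans (Finset.sum_le_sum fun k _ => hterm k)
        _ = _ := by rw [← Finset.sum_mul]; ring
    rw [h4]
    have h7 : 0 ≤ |M0| * (1 + T1) ^ (3 / 4 : ℝ) * (1 + |s.im|) ^ (-(3 / 4) : ℝ) := by positivity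
    refine (norm_sub_le _ _).trans ?_
    rw [add_mul, add_mul]
    linarith

end

end Pool.Agent.H480.G
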