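import Pool.Agent.H480.G6
import Pool.Agent.H480.G11

/-!
The converse: finitely many zeros give small approximate rank.
-/

open Complex MeasureTheory Filter Topology Set
open scoped ComplexConjugate

set_option linter.unusedSectionVars false

namespace Pool.Agent.H480.G

open H313.GK
open H313.TK (Ist int_exp_abs)

noncomputable section

variable {m : ℕ} {θ N : ℝ} {μ : Fin m → ℂ} {α : Fin m → ℕ → ℂ} {ε : ℂ} {Λ : ℂ → ℂ}

/-- the remainder -/
def HR (f : ℕ → ℂ) {n : ℕ} (ρ a : Fin n → ℂ) (u : ℝ) : ℂ :=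
  SM f (Real.exp u) - (if 0 ≤ u then Ex ρ a u else 0)

theorem SM_zero (f : ℕ → ℂ) {u : ℝ} (hu : u < 0) : SM f (Real.exp u) = 0 := by
  have h4 : ⌊Real.exp u⌋₊ = 0 := Nat.floor_eq_zero.2 (by rw [← Real.exp_zero]; exact Real.exp_lt_exp.2 hu)
  simp only [SM]
  rw [h4]
  simp

theorem HR_meas (f : ℕ → ℂ) {n : ℕ} (ρ a : Fin n → ℂ) : Measurable (HR f ρ a) := by
  refine ((SM_meas f).comp Real.measurable_exp).sub ?_
  exact Measurable.ite (measurableSet_Ici (a := (0:ℝ))) (Ex_cont ρ a).measurable measurable_const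

theorem HR_neg (f : ℕ → ℂ) {n : ℕ} (ρ a : Fin n → ℂ) {u : ℝ} (hu : u < 0) : HR f ρ a u = 0 := by
  unfold HR
  rw [SM_zero f hu, if_neg (not_le.2 hu), sub_zero]

theorem HR_bd {f : ℕ → ℂ} {b : ℝ} (hb : 0 ≤ b) (hf : ∀ n : ℕ, n ≠ 0 → ‖f n‖ ≤ (n : ℝ) ^ b) {n : ℕ} (ρ a : Fin n → ℂ) :
    ∃ C1 : ℝ, 0 ≤ C1 ∧ ∀ u : ℝ, ‖HR f ρ a u‖ ≤ C1 * Real.exp (max (b + 1) ‖Tm ρ‖ * u) := by
  obtain ⟨C, hC, hE⟩ := Ex_growth ρ a
  refine ⟨1 + C, by positivity, fun u => ?_⟩
  rcases lt_or_ge u 0 with hu | hu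
  · rw [HR_neg f ρ a hu, norm_zero]
    positivity
  · unfold HR
    rw [if_pos hu]
    refine (norm_sub_le _ _).trans ?_
    rw [add_mul]
    refine add_le_add ((SM_bd hb hf u).trans ?_) ((hE u hu).trans ?_)
    · refine mul_le_mul_of_nonneg_left (Real.exp_le_exp.2 ?_) zero_le_one
      exact mul_le_mul_of_nonneg_right (le_max_left _ _) hu
    · refine mul_le_mul_of_nonneg_left (Real.exp_le_exp.2 ?_) hC
      exact mul_le_mul_of_nonneg_right (le_max_right _ _) hu

theorem HR_ae (f : ℕ → ℂ) {n : ℕ} (ρ a : Fin n → ℂ) : ∀ᵐ u : ℝ, ContinuousAt (HR f ρ a) u := by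
  have hc : (Set.range fun k : ℕ => Real.log k).Countable := Set.countable_range _
  have h0 : volume (Set.range fun k : ℕ => Real.log k) = 0 := hc.measure_zero _
  rw [ae_iff]
  refine measure_mono_null (fun u hu => ?_) h0
  by_contra hcon
  apply hu
  have hne : ∀ k : ℕ, Real.exp u ≠ k := by
    intro k hk
    apply hcon
    refine ⟨k, ?_⟩
    simp only
    rw [← hk, Real.log_exp]
  have hu0 : u ≠ 0 := by
    intro h0
    apply hcon
    refine ⟨1, ?_⟩
    simp [h0]
  unfold HR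
  refine ContinuousAt.sub ?_ ?_
  · set k := ⌊Real.exp u⌋₊ with hk
    have h1 : (k:ℝ) < Real.exp u := lt_of_le_of_ne (Nat.floor_le (Real.exp_pos u).le) (hne k).symm
    have h2 : Real.exp u < k + 1 := Nat.lt_floor_add_one _
    have hev : ∀ᶠ v in 𝓝 u, (k:ℝ) < Real.exp v ∧ Real.exp v < k + 1 := by
      have hexp := Real.continuous_exp.continuousAt (x := u)
      exact (hexp.eventually (lt_mem_nhds h1)).and (hexp.eventually (gt_mem_nhds h2))
    refine ContinuousAt.congr (f := fun _ => SM f (Real.exp u)) continuousAt_const ?_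
    filter_upwards [hev] with v hv
    have h3 : ⌊Real.exp v⌋₊ = k := by
      rw [Nat.floor_eq_iff (Real.exp_pos v).le]
      exact ⟨hv.1.le, hv.2⟩
    simp only [SM]
    rw [h3, ← hk]
  · rcases lt_or_gt_of_ne hu0 with h | h
    · refine ContinuousAt.congr (f := fun _ => (0:ℂ)) continuousAt_const ?_
      filter_upwards [gt_mem_nhds h] with v hv
      rw [if_neg (not_le.2 hv)]
    · refine ContinuousAt.congr (f := Ex ρ a) (Ex_cont ρ a).continuousAt ?_
      filter_upwards [lt_mem_nhds h] with v hv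
      rw [if_pos (le_of_lt hv)]

/-- transform of the remainder -/
theorem HR_trans (hθ : 0 ≤ θ) (d : SD θ N μ α ε Λ) {n : ℕ} (ρ a : Fin n → ℂ) {G : ℂ → ℂ} {s : ℂ}
    (hs : m + θ + 4 ≤ s.re) (hs2 : ‖Tm ρ‖ < s.re) (hne : ∀ k, s - ρ k ≠ 0)
    (hform : (Lf μ Λ s)⁻¹ / s = ∑ k, a k * (1 / ∏ i ∈ Finset.Ici k, (s - ρ i)) + G s) :
    ∫ u : ℝ, HR (muPi α) ρ a u * cexp (-s * u) = G s := by
  have hm0 : (0:ℝ) ≤ m := Nat.cast_nonneg m
  have ha0 : 0 ≤ m + θ := by positivity
  have hf : ∀ n : ℕ, n ≠ 0 → ‖muPi α n‖ ≤ (n : ℝ) ^ (m + θ) := fun n hn => norm_muPi_le α d.norm_le n hn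
  have h1 := trans_F ha0 hf (s := s) (by linarith)
  obtain ⟨l1, l2⟩ := Lf_right hθ d hs
  obtain ⟨e1, e2⟩ := Ex_lap ρ a s hne hs2
  have i1 : Integrable fun u : ℝ => SM (muPi α) (Real.exp u) * cexp (-s * u) := by
    have h2 := F_int (SM_meas (muPi α)) zero_le_one (SM_bd ha0 hf) (fun u hu => SM_zero _ hu)
      (c := s.re) (by linarith)
    refine h2.mono' ?_ (ae_of_all _ fun u => ?_)
    · exact (((SM_meas (muPi α)).comp Real.measurable_exp).mul (by fun_prop)).aestronglyMeasurable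
    · rw [norm_mul, Complex.norm_exp]
      simp
  have e3 : (fun u : ℝ => (if 0 ≤ u then Ex ρ a u else 0) * cexp (-s * u)) =
      (Ici (0:ℝ)).indicator fun u : ℝ => Ex ρ a u * cexp (-s * u) := by
    funext u
    by_cases hu : 0 ≤ u
    · rw [if_pos hu, Set.indicator_of_mem (show u ∈ Ici (0:ℝ) from hu)]
    · rw [if_neg hu, Set.indicator_of_notMem (show u ∉ Ici (0:ℝ) from hu), zero_mul]
  have i2 : Integrable fun u : ℝ => (if 0 ≤ u then Ex ρ a u else 0) * cexp (-s * u) := by
    rw [e3, integrable_indicator_iff measurableSet_Ici]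
    exact (integrableOn_Ici_iff_integrableOn_Ioi (by simp)).2 e1
  have h3 : ∫ u : ℝ, (if 0 ≤ u then Ex ρ a u else 0) * cexp (-s * u) =
      ∑ k, a k * (1 / ∏ i ∈ Finset.Ici k, (s - ρ i)) := by
    rw [e3, integral_indicator measurableSet_Ici, integral_Ici_eq_integral_Ioi, e2]
  have h4 : ∀ u : ℝ, HR (muPi α) ρ a u * cexp (-s * u) = SM (muPi α) (Real.exp u) * cexp (-s * u) -
      (if 0 ≤ u then Ex ρ a u else 0) * cexp (-s * u) := by
    intro u
    unfold HR
    ring
  simp_rw [h4]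
  rw [integral_sub i1 i2, h3]
  have h5 : ∫ u : ℝ, SM (muPi α) (Real.exp u) * cexp (-s * u) = LSeries (muPi α) s / s := h1
  rw [h5]
  have h6 : LSeries (muPi α) s = (Lf μ Λ s)⁻¹ := by rw [l1, inv_inv]
  rw [h6, hform]
  ring

/-- integral over windows -/
theorem win_le {H : ℝ → ℂ} (hHm : Measurable H) {C1 c₁ : ℝ} (hHb : ∀ u, ‖H u‖ ≤ C1 * Real.exp (c₁ * u)) {A : ℝ} (hA : 1 < A)
    (l : ℝ) : ∫ y in Icc 1 A, ‖H (l + Real.log y)‖ ≤ A * ∫ u in Icc l (l + Real.log A), ‖H u‖ := by
  have hA0 : 0 < A := by linarith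
  have hlA : 0 ≤ Real.log A := Real.log_nonneg hA.le
  have hint : ∀ p q : ℝ, IntegrableOn (fun u => ‖H u‖) (Icc p q) := by
    intro p q
    have hcont : ContinuousOn (fun u => C1 * Real.exp (c₁ * u)) (Icc p q) := by fun_prop
    refine (hcont.integrableOn_Icc).mono' hHm.norm.aestronglyMeasurable (ae_of_all _ fun u => ?_)
    rw [norm_norm]
    exact hHb u
  have himg : Real.exp '' Icc 0 (Real.log A) = Icc 1 A := by
    ext t
    constructor
    · rintro ⟨u, hu, rfl⟩
      refine ⟨by rw [← Real.exp_zero]; exact Real.exp_le_exp.2 hu.1, ?_⟩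
      calc Real.exp u ≤ Real.exp (Real.log A) := Real.exp_le_exp.2 hu.2
        _ = A := Real.exp_log hA0
    · intro ht
      have ht0 : 0 < t := lt_of_lt_of_le one_pos ht.1
      exact ⟨Real.log t, ⟨Real.log_nonneg ht.1, Real.log_le_log ht0 ht.2⟩, Real.exp_log ht0⟩
  have h1 : ∫ y in Icc 1 A, ‖H (l + Real.log y)‖ = ∫ u in Icc 0 (Real.log A), Real.exp u * ‖H (l + u)‖ := by
    rw [← himg, integral_image_eq_integral_abs_deriv_smul measurableSet_Icc
      (fun x _ => (Real.hasDerivAt_exp x).hasDerivWithinAt) Real.exp_injective.injOn]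
    refine setIntegral_congr_fun measurableSet_Icc fun u _ => ?_
    rw [Real.log_exp, abs_of_pos (Real.exp_pos _), smul_eq_mul]
  have hint2 : IntegrableOn (fun u => ‖H (l + u)‖) (Icc 0 (Real.log A)) := by
    have hcont : ContinuousOn (fun u => C1 * Real.exp (c₁ * (l + u))) (Icc 0 (Real.log A)) := by fun_prop
    refine (hcont.integrableOn_Icc).mono' (hHm.comp (measurable_const.add measurable_id)).norm.aestronglyMeasurable
      (ae_of_all _ fun u => ?_)
    rw [norm_norm]
    exact hHb _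
  have hint3 : IntegrableOn (fun u => Real.exp u * ‖H (l + u)‖) (Icc 0 (Real.log A)) := by
    have hcont : ContinuousOn (fun u => Real.exp u * (C1 * Real.exp (c₁ * (l + u)))) (Icc 0 (Real.log A)) := by fun_prop
    refine (hcont.integrableOn_Icc).mono'
      (Real.measurable_exp.mul (hHm.comp (measurable_const.add measurable_id)).norm).aestronglyMeasurable
      (ae_of_all _ fun u => ?_)
    rw [norm_mul, norm_norm, Real.norm_eq_abs, abs_of_pos (Real.exp_pos _)]
    exact mul_le_mul_of_nonneg_left (hHb _) (Real.exp_pos _).le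
  have h2 : ∫ u in Icc 0 (Real.log A), ‖H (l + u)‖ = ∫ u in Icc l (l + Real.log A), ‖H u‖ := by
    rw [integral_Icc_eq_integral_Ioc, integral_Icc_eq_integral_Ioc, ← intervalIntegral.integral_of_le hlA,
      ← intervalIntegral.integral_of_le (by linarith), intervalIntegral.integral_comp_add_left (fun u => ‖H u‖) l, add_zero]
  rw [h1, ← h2, ← integral_const_mul]
  refine setIntegral_mono_on hint3 (hint2.const_mul A) measurableSet_Icc fun u hu => ?_
  refine mul_le_mul_of_nonneg_right ?_ (norm_nonneg _)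
  calc Real.exp u ≤ Real.exp (Real.log A) := Real.exp_le_exp.2 hu.2
    _ = A := Real.exp_log hA0

theorem SepS_mono {S : ℝ → ℂ} {A B β X : ℝ} {n r : ℕ} (hn : n ≤ r) (h : SepS S A B n β X) : SepS S A B r β X := by
  obtain ⟨k, rfl⟩ := Nat.exists_eq_add_of_le hn
  obtain ⟨u, v, hu, hv, hle⟩ := h
  refine ⟨Fin.append u fun _ _ => 0, Fin.append v fun _ _ => 0, fun i => ?_, fun i => ?_, ?_⟩
  · refine Fin.addCases (fun i => ?_) (fun i => ?_) i
    · rw [Fin.append_left]; exact hu i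
    · rw [Fin.append_right]; exact integrableOn_zero
  · refine Fin.addCases (fun i => ?_) (fun i => ?_) i
    · rw [Fin.append_left]; exact hv i
    · rw [Fin.append_right]; exact integrableOn_zero
  · refine le_trans (le_of_eq ?_) hle
    congr 1
    funext z
    rw [Fin.sum_univ_add]
    simp only [Fin.append_left, Fin.append_right, mul_zero, Finset.sum_const_zero, add_zero]

/-- the final estimate -/
theorem fin_est {A B σ η C : ℝ} (hA : 1 < A) (hη : 0 < η) (hC : 0 ≤ C) :
    ∀ᶠ X : ℝ in atTop, A * (Real.exp (σ * (Real.log X + Real.log (Real.log X ^ B) + Real.log A)) * (C + Real.log A)) *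
      (Real.log X ^ B) ≤ X ^ (σ + η) := by
  have hA0 : 0 < A := by linarith
  have hlA : 0 ≤ Real.log A := Real.log_nonneg hA.le
  set K : ℝ := A * (A ^ σ * (C + Real.log A)) + 1 with hK
  have hK0 : 0 < K := by positivity
  have h1 := (isLittleO_log_rpow_rpow_atTop (s := η) (B * (σ + 1)) hη).bound (c := K⁻¹) (by positivity)
  filter_upwards [h1, eventually_ge_atTop (Real.exp 1)] with X h2 h3
  have hX0 : 0 < X := (Real.exp_pos 1).trans_le h3
  have hl1 : 1 ≤ Real.log X := by rw [Real.le_log_iff_exp_le hX0]; exact h3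
  have hl0 : 0 < Real.log X := by linarith
  rw [Real.norm_eq_abs, Real.norm_eq_abs, abs_of_nonneg (by positivity), abs_of_nonneg (by positivity)] at h2
  have e1 : Real.exp (σ * (Real.log X + Real.log (Real.log X ^ B) + Real.log A)) =
      X ^ σ * (Real.log X ^ (B * σ)) * A ^ σ := by
    rw [mul_add, mul_add, Real.exp_add, Real.exp_add, Real.rpow_def_of_pos hX0, Real.rpow_def_of_pos hA0,
      Real.rpow_mul hl0.le, Real.rpow_def_of_pos (by positivity) σ]
    ring_nf
  have e2 : Real.log X ^ (B * (σ + 1)) = Real.log X ^ (B * σ) * Real.log X ^ B := by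
    rw [← Real.rpow_add hl0]
    ring_nf
  rw [e1]
  have h4 : Real.log X ^ (B * σ) * Real.log X ^ B ≤ K⁻¹ * X ^ η := by rw [← e2]; exact h2
  calc A * (X ^ σ * (Real.log X ^ (B * σ)) * A ^ σ * (C + Real.log A)) * Real.log X ^ B
      = X ^ σ * (A * (A ^ σ * (C + Real.log A))) * (Real.log X ^ (B * σ) * Real.log X ^ B) := by ring
    _ ≤ X ^ σ * K * (K⁻¹ * X ^ η) := by
        refine mul_le_mul (mul_le_mul_of_nonneg_left (by rw [hK]; linarith) (by positivity)) h4 (by positivity)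
          (by positivity)
    _ = X ^ (σ + η) := by
        rw [Real.rpow_add hX0]
        field_simp

/-- **the converse** -/
theorem SD_rank_up (hm : 1 ≤ m) (hθ : 0 ≤ θ) (d : SD θ N μ α ε Λ) {A B : ℝ} (hA : 1 < A) (hB : 0 < B) {δ : ℝ}
    (hδ : 1 / 2 ≤ δ) {r : ℕ} (h : AtMost Λ δ r) {η : ℝ} (hη : 0 < η) :
    ∀ᶠ X : ℝ in atTop, SepS (SM (muPi α)) A B r (δ + η) X := by
  have hm0 : (0:ℝ) ≤ m := Nat.cast_nonneg m
  have ha0 : 0 ≤ m + θ := by positivity
  have hA0 : 0 < A := by linarith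
  have hlA : 0 ≤ Real.log A := Real.log_nonneg hA.le
  have hf : ∀ n : ℕ, n ≠ 0 → ‖muPi α n‖ ≤ (n : ℝ) ^ (m + θ) := fun n hn => norm_muPi_le α d.norm_le n hn
  obtain ⟨n, hn, ρ, a, G, hG, hρ, hform, hne⟩ := exists_G hm hθ d hδ h
  set σ : ℝ := δ + η / 2 with hσ
  have hσ0 : 0 < σ := by rw [hσ]; linarith
  have hδσ : δ < σ := by rw [hσ]; linarith
  set M : ℝ := max (m + θ + 1) ‖Tm ρ‖ with hM
  have hM1 : m + θ + 1 ≤ M := le_max_left _ _
  have hM2 : ‖Tm ρ‖ ≤ M := le_max_right _ _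
  have hsum0 : 0 ≤ ∑ k, ‖ρ k‖ := Finset.sum_nonneg fun _ _ => norm_nonneg _
  set c : ℝ := M + 4 + (∑ k, ‖ρ k‖) + σ with hc
  have hσc : σ ≤ c := by linarith
  have hρc : ∀ k, (ρ k).re < c := by
    intro k
    have h1 := Complex.re_le_norm (ρ k)
    have h2 := Finset.single_le_sum (f := fun k => ‖ρ k‖) (fun _ _ => norm_nonneg _) (Finset.mem_univ k)
    linarith
  obtain ⟨D, hD, hGb⟩ := G_bound hθ d hδ hδσ hσc hG hform hne
  obtain ⟨C1, hC1, hHb⟩ := HR_bd ha0 hf ρ a
  have hGd : ∀ s : ℂ, σ ≤ s.re → s.re ≤ c → DifferentiableAt ℂ G s := fun s h1 _ =>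
    (hG s (show δ < s.re by linarith)).differentiableAt
      ((isOpen_lt continuous_const Complex.continuous_re).mem_nhds (show δ < s.re by linarith))
  obtain ⟨C, hC, hL2⟩ := l2_bound hσ0 hσc (c₁ := M) (by linarith) (HR_meas (muPi α) ρ a)
    (fun u hu => HR_neg _ ρ a hu) hC1 hHb (HR_ae _ ρ a) hD hGd hGb (fun τ => by
      refine HR_trans hθ d ρ a (by rw [vl_re]; linarith) (by rw [vl_re]; linarith) (line_ne hρc τ)
        (hform _ (by rw [vl_re]; linarith) (line_ne hρc τ)))
  filter_upwards [fin_est (A := A) (B := B) (σ := σ) (η := η / 2) (C := C) hA (by positivity) hC,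
    eventually_ge_atTop (Real.exp 1)] with X hX h3
  have hX0 : 0 < X := (Real.exp_pos 1).trans_le h3
  have hl1 : 1 ≤ Real.log X := by rw [Real.le_log_iff_exp_le hX0]; exact h3
  have hl0 : 0 < Real.log X := by linarith
  set E : ℝ := Real.log X ^ B with hE
  have hE1 : 1 ≤ E := Real.one_le_rpow hl1 hB.le
  refine SepS_mono hn ⟨fun j x => ell a (uv j) (gp ρ (Real.log X + Real.log x)), fun j y => gp ρ (Real.log y) (ev n) j,
    fun j => ?_, fun j => ?_, ?_⟩
  · refine ContinuousOn.integrableOn_Icc ?_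
    refine (left_cont ρ a (uv j)).comp_continuousOn (continuousOn_const.add (Real.continuousOn_log.mono ?_))
    intro x hx
    have : (0:ℝ) < x := lt_of_lt_of_le one_pos hx.1
    exact this.ne'
  · refine ContinuousOn.integrableOn_Icc ?_
    refine (right_cont ρ j).comp_continuousOn (Real.continuousOn_log.mono ?_)
    intro x hx
    have : (0:ℝ) < x := lt_of_lt_of_le one_pos hx.1
    exact this.ne'
  · have hpt : ∀ z ∈ Icc 1 E ×ˢ Icc 1 A, ‖SM (muPi α) (X * z.1 * z.2) -
        ∑ j, ell a (uv j) (gp ρ (Real.log X + Real.log z.1)) * gp ρ (Real.log z.2) (ev n) j‖ =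
        ‖HR (muPi α) ρ a ((Real.log X + Real.log z.1) + Real.log z.2)‖ := by
      intro z hz
      have hz1 : 1 ≤ z.1 := hz.1.1
      have hz2 : 1 ≤ z.2 := hz.2.1
      have hz10 : 0 < z.1 := by linarith
      have hz20 : 0 < z.2 := by linarith
      have hl3 := Real.log_nonneg hz1
      have hl4 := Real.log_nonneg hz2
      unfold HR
      rw [if_pos (by linarith), Ex_sep, Real.exp_add, Real.exp_add, Real.exp_log hX0, Real.exp_log hz10,
        Real.exp_log hz20]
    rw [setIntegral_congr_fun (measurableSet_Icc.prod measurableSet_Icc) hpt]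
    by_cases hI : IntegrableOn (fun z : ℝ × ℝ => ‖HR (muPi α) ρ a ((Real.log X + Real.log z.1) + Real.log z.2)‖)
        (Icc 1 E ×ˢ Icc 1 A) (volume.prod volume)
    · have h5 := setIntegral_prod _ hI
      rw [← Measure.volume_eq_prod] at h5
      rw [h5]
      set W : ℝ := A * (Real.exp (σ * (Real.log X + Real.log E + Real.log A)) * (C + Real.log A)) with hW
      have hinner : ∀ x ∈ Icc 1 E, ‖∫ y in Icc 1 A, ‖HR (muPi α) ρ a ((Real.log X + Real.log x) + Real.log y)‖‖ ≤ W := by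
        intro x hx
        have hx0 : (0:ℝ) < x := lt_of_lt_of_le one_pos hx.1
        rw [Real.norm_eq_abs, abs_of_nonneg (integral_nonneg fun _ => norm_nonneg _)]
        refine (win_le (HR_meas (muPi α) ρ a) hHb hA _).trans ?_
        refine mul_le_mul_of_nonneg_left ?_ hA0.le
        refine (hL2 _ _ hlA).trans ?_
        refine mul_le_mul_of_nonneg_right (Real.exp_le_exp.2 ?_) (by positivity)
        refine mul_le_mul_of_nonneg_left ?_ hσ0.le
        have := Real.log_le_log hx0 hx.2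
        linarith
      have h6 := norm_setIntegral_le_of_norm_le_const (μ := volume) (s := Icc 1 E)
        (f := fun x => ∫ y in Icc 1 A, ‖HR (muPi α) ρ a ((Real.log X + Real.log x) + Real.log y)‖) (C := W)
        (by simp) hinner
      refine (le_abs_self _).trans ?_
      rw [← Real.norm_eq_abs]
      refine h6.trans ?_
      have hW0 : 0 ≤ W := by positivity
      have h7 : volume.real (Icc 1 E) ≤ E := by
        simp only [measureReal_def, Real.volume_Icc]
        rw [ENNReal.toReal_ofReal (by linarith)]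
        linarith
      calc W * volume.real (Icc 1 E) ≤ W * E := mul_le_mul_of_nonneg_left h7 hW0
        _ ≤ X ^ (σ + η / 2) := hX
        _ = X ^ (δ + η) := by rw [hσ]; ring_nf
    · have h5 : ∫ z in Icc 1 E ×ˢ Icc 1 A, ‖HR (muPi α) ρ a ((Real.log X + Real.log z.1) + Real.log z.2)‖ = 0 := by
        rw [Measure.volume_eq_prod]
        exact integral_undef hI
      rw [h5]
      positivity

end

end Pool.Agent.H480.G
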