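import Pool.Agent.H480.G1

/-!
The functions `(e^{hs} - 1)/s`, and the pairing matrix after a triangular change of basis.
-/

open Complex MeasureTheory Filter Topology Set

set_option linter.unusedSectionVars false

namespace Pool.Agent.H480.G

open H313.GK
open H313.TK (Ist int_exp_abs)

noncomputable section

/-- `(e^{hs} - 1)/s` -/
def Eh (h : ℝ) : ℂ → ℂ := dslope (fun s => cexp (s * h)) 0

theorem Eh_diff (h : ℝ) : Differentiable ℂ (Eh h) := by
  have h0 : Differentiable ℂ (fun s : ℂ => cexp (s * h)) := by fun_prop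
  have := (Complex.differentiableOn_dslope (f := fun s : ℂ => cexp (s * h)) (s := univ) (c := 0) Filter.univ_mem).2
    h0.differentiableOn
  exact fun s => (this s (mem_univ s)).differentiableAt Filter.univ_mem

theorem Eh_mul (h : ℝ) (s : ℂ) : s * Eh h s = cexp (s * h) - 1 := by
  have := sub_smul_dslope (fun s : ℂ => cexp (s * h)) 0 s
  simpa [Eh] using this

theorem Eh_ne {h : ℝ} (hh : 0 < h) {s : ℂ} (hs : ‖s‖ * h < 2 * Real.pi) : Eh h s ≠ 0 := by
  by_cases h0 : s = 0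
  · subst h0
    unfold Eh
    rw [dslope_same]
    have hd : HasDerivAt (fun s : ℂ => cexp (s * h)) (h : ℂ) 0 := by
      have h1 : HasDerivAt (fun s : ℂ => s * (h : ℂ)) (h : ℂ) 0 := by
        simpa using (hasDerivAt_id (0:ℂ)).mul_const (h : ℂ)
      have h2 := h1.cexp
      simpa using h2
    rw [hd.deriv]
    exact_mod_cast hh.ne'
  · intro hE
    have h1 := Eh_mul h s
    rw [hE, mul_zero] at h1
    have h2 : cexp (s * h) = 1 := (sub_eq_zero.1 h1.symm)
    rw [Complex.exp_eq_one_iff] at h2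
    obtain ⟨n, hn⟩ := h2
    have h3 : ‖s‖ * h = |(n : ℝ)| * (2 * Real.pi) := by
      have h4 := congrArg norm hn
      rw [norm_mul, Complex.norm_real, Real.norm_eq_abs, abs_of_pos hh, norm_mul, norm_mul, norm_mul, Complex.norm_I,
        mul_one, Complex.norm_real, Complex.norm_ofNat, Real.norm_eq_abs, abs_of_pos Real.pi_pos, Complex.norm_intCast] at h4
      exact h4
    rw [h3] at hs
    have hn0 : n = 0 := by
      by_contra hne
      have : (1:ℝ) ≤ |(n : ℝ)| := by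
        rw [← Int.cast_abs]
        exact_mod_cast Int.one_le_abs hne
      have := Real.pi_pos
      nlinarith
    rw [hn0] at h3
    simp at h3
    rcases h3 with h3 | h3
    · exact h0 h3
    · exact hh.ne' h3

variable {a b c σ : ℝ}

theorem exp_BD (h : ℝ) : BD (fun s : ℂ => cexp (s * h)) a b := by
  refine ⟨fun s _ _ => by fun_prop, Real.exp ((|a| + |b|) * |h|), (Real.exp_pos _).le, fun s h1 h2 => ?_⟩
  rw [Complex.norm_exp]
  refine Real.exp_le_exp.2 ?_
  have h3 : (s * (h : ℂ)).re = s.re * h := by simp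
  rw [h3]
  have h4 : |s.re| ≤ |a| + |b| := by
    rw [abs_le]
    constructor
    · have := neg_abs_le a; have := abs_nonneg b; linarith
    · have := le_abs_self b; have := abs_nonneg a; linarith
  calc s.re * h ≤ |s.re * h| := le_abs_self _
    _ = |s.re| * |h| := abs_mul _ _
    _ ≤ _ := mul_le_mul_of_nonneg_right h4 (abs_nonneg _)

theorem Eh_BD (h : ℝ) (ρ : ℂ) : BD (fun s : ℂ => Eh h (s - ρ)) a b := by
  have hd := Eh_diff h
  obtain ⟨M, hM⟩ := (isCompact_closedBall (0:ℂ) 1).exists_bound_of_continuousOn hd.continuous.continuousOn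
  have hM0 : 0 ≤ M := (norm_nonneg _).trans (hM 0 (Metric.mem_closedBall_self (by norm_num)))
  obtain ⟨C, hC, hb⟩ := (exp_BD (a := a - ρ.re) (b := b - ρ.re) h).bd
  refine ⟨fun s _ _ => ?_, M + (C + 1), by positivity, fun s h1 h2 => ?_⟩
  · exact DifferentiableAt.comp s (g := Eh h) (f := fun s => s - ρ) (hd _) (by fun_prop)
  · rcases le_total ‖s - ρ‖ 1 with h3 | h3
    · have := hM (s - ρ) (by rwa [mem_closedBall_zero_iff])
      linarith
    · have h4 := hb (s - ρ) (by rw [Complex.sub_re]; linarith) (by rw [Complex.sub_re]; linarith)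
      have h5 := congrArg norm (Eh_mul h (s - ρ))
      rw [norm_mul] at h5
      have h6 : ‖cexp ((s - ρ) * h) - 1‖ ≤ C + 1 := by
        refine (norm_sub_le _ _).trans ?_
        rw [norm_one]
        linarith
      have h7 : ‖Eh h (s - ρ)‖ ≤ ‖s - ρ‖ * ‖Eh h (s - ρ)‖ := le_mul_of_one_le_left (norm_nonneg _) h3
      linarith

theorem inv_BD {ρ : ℂ} (h : ρ.re < a) : BD (fun s : ℂ => 1 / (s - ρ)) a b := by
  have hlow : ∀ s : ℂ, a ≤ s.re → a - ρ.re ≤ ‖s - ρ‖ := by
    intro s hs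
    have := Complex.re_le_norm (s - ρ)
    rw [Complex.sub_re] at this
    linarith
  have hpos : 0 < a - ρ.re := by linarith
  refine ⟨fun s h1 _ => ?_, 1 / (a - ρ.re), by positivity, fun s h1 _ => ?_⟩
  · have hne : s - ρ ≠ 0 := norm_pos_iff.1 (hpos.trans_le (hlow s h1))
    exact (differentiableAt_const _).div (by fun_prop) hne
  · rw [norm_div, norm_one]
    exact one_div_le_one_div_of_le hpos (hlow s h1)

theorem BD.sub_const {χ : ℂ → ℂ} (h : BD χ a b) (w : ℂ) : BD (fun s => χ s - w) a b := by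
  obtain ⟨C, hC, hb⟩ := h.bd
  refine ⟨fun s h1 h2 => (h.diff s h1 h2).sub_const w, C + ‖w‖, by positivity, fun s h1 h2 => ?_⟩
  exact (norm_sub_le _ _).trans (add_le_add (hb s h1 h2) le_rfl)

theorem BD.const_mul {χ : ℂ → ℂ} (h : BD χ a b) (w : ℂ) : BD (fun s => w * χ s) a b := by
  obtain ⟨C, hC, hb⟩ := h.bd
  refine ⟨fun s h1 h2 => (h.diff s h1 h2).const_mul w, ‖w‖ * C, by positivity, fun s h1 h2 => ?_⟩
  rw [norm_mul]
  exact mul_le_mul_of_nonneg_left (hb s h1 h2) (norm_nonneg _)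

theorem Inv_congr {Φ Ψ : ℂ → ℂ} (h : ∀ τ : ℝ, Φ (vl c τ) = Ψ (vl c τ)) (t : ℝ) : Inv Φ c t = Inv Ψ c t := by
  unfold H313.GK.Inv
  congr 1
  exact integral_congr_ae (ae_of_all _ fun τ => by simp only; rw [h τ])

/-- `(e^{sh} - e^{ρh})/(s - ρ)` -/
def ek (h : ℝ) (ρ s : ℂ) : ℂ := cexp (ρ * h) * Eh h (s - ρ)

theorem ek_mul (h : ℝ) (ρ s : ℂ) : (s - ρ) * ek h ρ s = cexp (s * h) - cexp (ρ * h) := by
  unfold ek
  rw [mul_left_comm, Eh_mul, mul_sub, mul_one, ← Complex.exp_add]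
  congr 2
  ring

theorem ek_BD (h : ℝ) (ρ : ℂ) : BD (fun s : ℂ => ek h ρ s) a b := (Eh_BD h ρ).const_mul _

theorem ek_ne {h : ℝ} (hh : 0 < h) {ρ s : ℂ} (hs : ‖s - ρ‖ * h < 2 * Real.pi) : ek h ρ s ≠ 0 :=
  mul_ne_zero (Complex.exp_ne_zero _) (Eh_ne hh hs)

variable {n : ℕ} {ρ : Fin n → ℂ} {g : ℂ → ℂ} {h : ℝ}

/-- the transform of the entry `(i, j)` -/
def Sij (h : ℝ) (ρ : Fin n → ℂ) (g : ℂ → ℂ) (i j : Fin n) (s : ℂ) : ℂ :=
  g s / (∏ k ∈ Finset.Iic i, (s - ρ k)) * Eh h s * ∏ k ∈ Finset.Iio j, (cexp (s * h) - cexp (ρ k * h))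

theorem line_ne (hc : ∀ k, (ρ k).re < c) (τ : ℝ) (k : Fin n) : vl c τ - ρ k ≠ 0 := by
  intro h0
  have := congrArg Complex.re h0
  rw [Complex.sub_re, vl_re, Complex.zero_re] at this
  linarith [hc k]

theorem Sij_upper (hc : ∀ k, (ρ k).re < c) (hσ : σ ≤ c) (hg : SB g σ c) (i j : Fin n) (hij : i < j) :
    ∃ C : ℝ, 0 ≤ C ∧ ∀ t : ℝ, ‖Inv (Sij h ρ g i j) c t‖ ≤ C * Real.exp (σ * t) := by
  set U : ℂ → ℂ := fun s => g s * ((fun s => Eh h (s - 0)) s * ((∏ k ∈ Finset.Iic i, ek h (ρ k) s) *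
    ∏ k ∈ Finset.Ioo i j, (cexp (s * h) - cexp (ρ k * h)))) with hU
  have hSB : SB U σ c := hg.mul ((Eh_BD h 0).mul ((BD.prod _ fun k _ => ek_BD h (ρ k)).mul
    (BD.prod _ fun k _ => (exp_BD h).sub_const _)))
  obtain ⟨C, hC, hb⟩ := hSB.inv_bd hσ
  refine ⟨C, hC, fun t => ?_⟩
  rw [Inv_congr (Ψ := U)]
  · exact hb t
  · intro τ
    have hne := line_ne hc τ
    set s := vl c τ
    have e1 : Finset.Iio j = Finset.Iic i ∪ Finset.Ioo i j := by
      ext k
      simp only [Finset.mem_Iio, Finset.mem_union, Finset.mem_Iic, Finset.mem_Ioo]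
      constructor
      · intro hk
        rcases le_or_gt k i with h1 | h1
        · exact Or.inl h1
        · exact Or.inr ⟨h1, hk⟩
      · rintro (h1 | h1)
        · exact lt_of_le_of_lt h1 hij
        · exact h1.2
    have e2 : Disjoint (Finset.Iic i) (Finset.Ioo i j) := by
      rw [Finset.disjoint_left]
      intro k h1 h2
      rw [Finset.mem_Iic] at h1
      rw [Finset.mem_Ioo] at h2
      exact absurd h2.1 (not_lt.2 h1)
    have e3 : ∏ k ∈ Finset.Iic i, (cexp (s * h) - cexp (ρ k * h)) =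
        (∏ k ∈ Finset.Iic i, (s - ρ k)) * ∏ k ∈ Finset.Iic i, ek h (ρ k) s := by
      rw [← Finset.prod_mul_distrib]
      exact Finset.prod_congr rfl fun k _ => (ek_mul h (ρ k) s).symm
    have e4 : (∏ k ∈ Finset.Iic i, (s - ρ k)) ≠ 0 := Finset.prod_ne_zero_iff.2 fun k _ => hne k
    unfold Sij
    rw [e1, Finset.prod_union e2, e3, hU]
    simp only [sub_zero]
    field_simp

theorem Sij_diag (hc : ∀ k, (ρ k).re < c) (hσ : ∀ k, σ < (ρ k).re) (hg : SB g σ c) (hh : 0 < h) (j : Fin n)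
    (h0 : ‖ρ j‖ * h < 2 * Real.pi) (h1 : ∀ k, ‖ρ j - ρ k‖ * h < 2 * Real.pi) (hg0 : g (ρ j) ≠ 0) :
    ∃ c' : ℝ, 0 < c' ∧ ∀ᶠ t : ℝ in atTop, c' * Real.exp ((ρ j).re * t) ≤ ‖Inv (Sij h ρ g j j) c t‖ := by
  set U : ℂ → ℂ := fun s => g s * ((fun s => Eh h (s - 0)) s * (∏ k ∈ Finset.Iio j, ek h (ρ k) s)) with hU
  have hSB : SB U σ c := hg.mul ((Eh_BD h 0).mul (BD.prod _ fun k _ => ek_BD h (ρ k)))
  have hU0 : U (ρ j) ≠ 0 := by
    refine mul_ne_zero hg0 (mul_ne_zero (Eh_ne hh (by simpa using h0)) (Finset.prod_ne_zero_iff.2 fun k _ => ?_))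
    exact ek_ne hh (h1 k)
  obtain ⟨c', hc', hev⟩ := hSB.pole (hσ j) (hc j) hU0
  refine ⟨c', hc', ?_⟩
  filter_upwards [hev] with t ht
  refine ht.trans (le_of_eq ?_)
  congr 1
  refine Inv_congr (fun τ => ?_) t
  have hne := line_ne hc τ
  set s := vl c τ
  have e1 : Finset.Iic j = insert j (Finset.Iio j) := by
    ext k
    simp only [Finset.mem_Iic, Finset.mem_insert, Finset.mem_Iio]
    exact le_iff_eq_or_lt
  have e3 : ∏ k ∈ Finset.Iio j, (cexp (s * h) - cexp (ρ k * h)) =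
      (∏ k ∈ Finset.Iio j, (s - ρ k)) * ∏ k ∈ Finset.Iio j, ek h (ρ k) s := by
    rw [← Finset.prod_mul_distrib]
    exact Finset.prod_congr rfl fun k _ => (ek_mul h (ρ k) s).symm
  have e4 : (∏ k ∈ Finset.Iio j, (s - ρ k)) ≠ 0 := Finset.prod_ne_zero_iff.2 fun k _ => hne k
  have e5 := hne j
  unfold Sij
  rw [e1, Finset.prod_insert (by simp), e3, hU]
  simp only [sub_zero]
  field_simp

theorem Sij_lower (hc : ∀ k, (ρ k).re < c) {γ : ℝ} (hγ : γ ≤ c) (hσγ : σ ≤ γ) (hg : SB g σ c) (i j : Fin n)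
    (hji : j ≤ i) (hρ : ∀ k, j ≤ k → (ρ k).re < γ) :
    ∃ C : ℝ, 0 ≤ C ∧ ∀ t : ℝ, ‖Inv (Sij h ρ g i j) c t‖ ≤ C * Real.exp (γ * t) := by
  set U : ℂ → ℂ := fun s => g s * ((fun s => Eh h (s - 0)) s * ((∏ k ∈ Finset.Iio j, ek h (ρ k) s) *
    ∏ k ∈ Finset.Icc j i, 1 / (s - ρ k))) with hU
  have hSB : SB U γ c := (hg.mono hσγ le_rfl).mul ((Eh_BD h 0).mul ((BD.prod _ fun k _ => ek_BD h (ρ k)).mul
    (BD.prod _ fun k hk => inv_BD (hρ k (Finset.mem_Icc.1 hk).1))))
  obtain ⟨C, hC, hb⟩ := hSB.inv_bd hγ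
  refine ⟨C, hC, fun t => ?_⟩
  rw [Inv_congr (Ψ := U)]
  · exact hb t
  · intro τ
    have hne := line_ne hc τ
    set s := vl c τ
    have e1 : Finset.Iic i = Finset.Iio j ∪ Finset.Icc j i := by
      ext k
      simp only [Finset.mem_Iio, Finset.mem_union, Finset.mem_Iic, Finset.mem_Icc]
      constructor
      · intro hk
        rcases lt_or_ge k j with h1 | h1
        · exact Or.inl h1
        · exact Or.inr ⟨h1, hk⟩
      · rintro (h1 | h1)
        · exact (h1.le).trans hji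
        · exact h1.2
    have e2 : Disjoint (Finset.Iio j) (Finset.Icc j i) := by
      rw [Finset.disjoint_left]
      intro k h1 h2
      rw [Finset.mem_Iio] at h1
      rw [Finset.mem_Icc] at h2
      exact absurd h1 (not_lt.2 h2.1)
    have e3 : ∏ k ∈ Finset.Iio j, (cexp (s * h) - cexp (ρ k * h)) =
        (∏ k ∈ Finset.Iio j, (s - ρ k)) * ∏ k ∈ Finset.Iio j, ek h (ρ k) s := by
      rw [← Finset.prod_mul_distrib]
      exact Finset.prod_congr rfl fun k _ => (ek_mul h (ρ k) s).symm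
    have e4 : (∏ k ∈ Finset.Iio j, (s - ρ k)) ≠ 0 := Finset.prod_ne_zero_iff.2 fun k _ => hne k
    have e5 : (∏ k ∈ Finset.Icc j i, (s - ρ k)) ≠ 0 := Finset.prod_ne_zero_iff.2 fun k _ => hne k
    unfold Sij
    rw [e1, Finset.prod_union e2, e3, hU]
    simp only [sub_zero, Finset.prod_div_distrib, Finset.prod_const_one]
    field_simp

/-- integral of an inverse transform over an interval -/
theorem inv_int {Φ : ℂ → ℂ} {B : ℝ} (hΦ : LB Φ c B) {p q : ℝ} (hpq : p ≤ q) (t : ℝ) :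
    ∫ v in p..q, Inv Φ c (t + v) = Inv (fun s => Φ s * ∫ v in p..q, cexp (s * v)) c t := by
  rw [intervalIntegral.integral_of_le hpq]
  unfold H313.GK.Inv
  rw [integral_const_mul]
  congr 1
  set G : ℝ → ℝ → ℂ := fun v τ => Φ (vl c τ) * cexp (vl c τ * ((t + v : ℝ) : ℂ)) with hG
  have hprod : Integrable (Function.uncurry G) ((volume.restrict (Ioc p q)).prod volume) := by
    have h0 : IntegrableOn (fun v : ℝ => Real.exp (c * (t + v))) (Ioc p q) := by
      refine (Continuous.integrableOn_Icc (by fun_prop)).mono_set Ioc_subset_Icc_self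
    have h1 := Integrable.mul_prod (μ := volume.restrict (Ioc p q)) (ν := volume) h0 hΦ.int.norm
    refine h1.mono' ?_ (ae_of_all _ fun x => ?_)
    · have hc := hΦ.cont.measurable
      have hv := (vl_cont c).measurable
      have h2 : Measurable (Function.uncurry G) := by
        simp only [hG, Function.uncurry_def]
        exact (hc.comp measurable_snd).mul (Complex.measurable_exp.comp ((hv.comp measurable_snd).mul
          (Complex.measurable_ofReal.comp (measurable_const.add measurable_fst))))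
      exact h2.aestronglyMeasurable
    · simp only [hG, Function.uncurry_def]
      rw [norm_mul, norm_exp_vl, mul_comm]
  have hswap := integral_integral_swap hprod
  simp only [hG] at hswap
  rw [hswap]
  refine integral_congr_ae (ae_of_all _ fun τ => ?_)
  simp only
  rw [intervalIntegral.integral_of_le hpq, mul_assoc, ← integral_mul_const, ← integral_const_mul]
  refine integral_congr_ae (ae_of_all _ fun v => ?_)
  simp only
  rw [← Complex.exp_add]
  congr 2
  push_cast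
  ring

theorem exp_int (h : ℝ) (r : ℕ) (s : ℂ) (hs : s ≠ 0) :
    ∫ v in (r * h)..((r + 1) * h), cexp (s * v) = cexp (s * h) ^ r * Eh h s := by
  rw [integral_exp_mul_complex hs]
  have h1 := Eh_mul h s
  have h2 : Eh h s = (cexp (s * h) - 1) / s := by
    rw [← h1]
    field_simp
  have h3 : cexp (s * ((r * h : ℝ) : ℂ)) = cexp (s * h) ^ r := by
    rw [← Complex.exp_nat_mul]
    congr 1
    push_cast
    ring
  have h4 : cexp (s * (((r + 1) * h : ℝ) : ℂ)) = cexp (s * h) ^ r * cexp (s * h) := by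
    rw [← h3, ← Complex.exp_add]
    congr 1
    push_cast
    ring
  rw [h2, h3, h4]
  ring

/-- the polynomials of the change of basis -/
def Qp (h : ℝ) (ρ : Fin n → ℂ) (j : Fin n) : Polynomial ℂ :=
  ∏ k ∈ Finset.Iio j, (Polynomial.X - Polynomial.C (cexp (ρ k * h)))

theorem Qp_deg (h : ℝ) (ρ : Fin n → ℂ) (j : Fin n) : (Qp h ρ j).natDegree < n := by
  unfold Qp
  rw [Polynomial.natDegree_prod_of_monic _ _ fun k _ => Polynomial.monic_X_sub_C _]
  simp only [Polynomial.natDegree_X_sub_C, Finset.sum_const, smul_eq_mul, mul_one, Fin.card_Iio]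
  exact j.2

/-- the natural pairing matrix -/
def Mt (h : ℝ) (ρ : Fin n → ℂ) (g : ℂ → ℂ) (c t : ℝ) (i : Fin n) (r : ℕ) : ℂ :=
  ∫ v in (r * h)..((r + 1) * h), Inv (fun s => g s / (∏ k ∈ Finset.Iic i, (s - ρ k))) c (t + v)

theorem LB.smulr {Φ χ : ℂ → ℂ} {B : ℝ} (h : LB Φ c B) (h' : BD χ c c) : ∃ B', LB (fun s => Φ s * χ s) c B' := by
  obtain ⟨D, hD, hd⟩ := h'.bd
  refine ⟨B * D, mul_nonneg h.nn hD, ?_, fun τ => ?_⟩
  · refine h.cont.mul ?_
    rw [continuous_iff_continuousAt]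
    intro τ
    exact ContinuousAt.comp (f := vl c) (h'.diff (vl c τ) (by simp) (by simp)).continuousAt (vl_cont c).continuousAt
  · rw [norm_mul]
    have h1 := h.bd τ
    have h2 := hd (vl c τ) (by simp) (by simp)
    have h3 := h.nn
    calc ‖Φ (vl c τ)‖ * ‖χ (vl c τ)‖ ≤ (B * (1 + τ ^ 2)⁻¹) * D := mul_le_mul h1 h2 (norm_nonneg _) (by positivity)
      _ = _ := by ring

theorem Inv_sum {ι : Type*} (S : Finset ι) {Φ : ι → ℂ → ℂ} (h : ∀ i ∈ S, ∃ B, LB (Φ i) c B) (t : ℝ) :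
    Inv (fun s => ∑ i ∈ S, Φ i s) c t = ∑ i ∈ S, Inv (Φ i) c t := by
  unfold H313.GK.Inv
  rw [← Finset.mul_sum, ← integral_finsetSum]
  · congr 1
    refine integral_congr_ae (ae_of_all _ fun τ => ?_)
    simp only
    rw [Finset.sum_mul]
  · intro i hi
    obtain ⟨B, hB⟩ := h i hi
    exact hB.int_exp t

theorem Inv_cmul (w : ℂ) (Φ : ℂ → ℂ) (t : ℝ) : Inv (fun s => w * Φ s) c t = w * Inv Φ c t := by
  unfold H313.GK.Inv
  simp_rw [mul_assoc w]
  rw [integral_const_mul]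
  ring

/-- the change of basis -/
theorem Mt_sum (hc : ∀ k, (ρ k).re < c) (hc0 : 0 < c) (hh : 0 < h) (hσ : σ ≤ c) (hg : SB g σ c) (i j : Fin n) (t : ℝ) :
    ∑ r ∈ Finset.range n, (Qp h ρ j).coeff r * Mt h ρ g c t i r = Inv (Sij h ρ g i j) c t := by
  obtain ⟨B, hB⟩ := hg.lb
  have hB1 := hB c hσ le_rfl
  have hinv : BD (fun s => ∏ k ∈ Finset.Iic i, 1 / (s - ρ k)) c c := BD.prod _ fun k _ => inv_BD (hc k)
  obtain ⟨B2, hB2⟩ := LB.smulr hB1 hinv
  have hB3 : LB (fun s => g s / (∏ k ∈ Finset.Iic i, (s - ρ k))) c B2 := by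
    have e : (fun s => g s / (∏ k ∈ Finset.Iic i, (s - ρ k))) = fun s => g s * ∏ k ∈ Finset.Iic i, 1 / (s - ρ k) := by
      funext s
      rw [Finset.prod_div_distrib, Finset.prod_const_one]
      ring
    rw [e]
    exact hB2
  set Φ : ℂ → ℂ := fun s => g s / (∏ k ∈ Finset.Iic i, (s - ρ k)) with hΦ
  have hM : ∀ r : ℕ, Mt h ρ g c t i r = Inv (fun s => Φ s * (cexp (s * h) ^ r * Eh h (s - 0))) c t := by
    intro r
    unfold Mt
    rw [inv_int hB3 (by nlinarith)]
    refine Inv_congr (fun τ => ?_) t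
    have hne : vl c τ ≠ 0 := by
      intro h0
      have := congrArg Complex.re h0
      rw [vl_re, Complex.zero_re] at this
      linarith
    rw [exp_int h r _ hne, sub_zero]
  have hBD : ∀ r : ℕ, BD (fun s : ℂ => cexp (s * h) ^ r * Eh h (s - 0)) c c := by
    intro r
    refine BD.mul ?_ (Eh_BD h 0)
    have := BD.prod (a := c) (b := c) (Finset.range r) (f := fun _ s => cexp (s * h)) fun _ _ => exp_BD h
    simpa using this
  simp_rw [hM, ← Inv_cmul]
  rw [← Inv_sum]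
  · refine Inv_congr (fun τ => ?_) t
    set s := vl c τ
    unfold Sij
    have e1 : ∏ k ∈ Finset.Iio j, (cexp (s * h) - cexp (ρ k * h)) = (Qp h ρ j).eval (cexp (s * h)) := by
      unfold Qp
      rw [Polynomial.eval_prod]
      refine Finset.prod_congr rfl fun k _ => ?_
      simp
    rw [e1, Polynomial.eval_eq_sum_range' (Qp_deg h ρ j), Finset.mul_sum]
    refine Finset.sum_congr rfl fun r _ => ?_
    rw [sub_zero]
    ring
  · intro r _
    obtain ⟨B4, hB4⟩ := LB.smulr hB3 ((hBD r).const_mul ((Qp h ρ j).coeff r))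
    refine ⟨B4, ?_⟩
    have e : (fun s => (Qp h ρ j).coeff r * (Φ s * (cexp (s * h) ^ r * Eh h (s - 0)))) =
        fun s => Φ s * ((Qp h ρ j).coeff r * (cexp (s * h) ^ r * Eh h (s - 0))) := by
      funext s
      ring
    rw [e]
    exact hB4

end

end Pool.Agent.H480.G
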