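import Pool.Agent.H480.G2

/-!
Truncation of convolutions with rapidly decreasing kernels, and pairings in the original variables.
-/

open Complex MeasureTheory Filter Topology Set

set_option linter.unusedSectionVars false

namespace Pool.Agent.H480.G

open H313.GK
open H313.TK (Ist int_exp_abs)

noncomputable section

/-- substitution `x = e^u` -/
theorem chg (G : ℝ → ℂ) (p q : ℝ) :
    ∫ x in Icc (Real.exp p) (Real.exp q), G (Real.log x) * ((x⁻¹ : ℝ) : ℂ) = ∫ u in Icc p q, G u := by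
  have himg : Real.exp '' Icc p q = Icc (Real.exp p) (Real.exp q) := by
    ext t
    constructor
    · rintro ⟨u, hu, rfl⟩
      exact ⟨Real.exp_le_exp.2 hu.1, Real.exp_le_exp.2 hu.2⟩
    · intro ht
      have ht0 : 0 < t := lt_of_lt_of_le (Real.exp_pos p) ht.1
      exact ⟨Real.log t, ⟨by rw [Real.le_log_iff_exp_le ht0]; exact ht.1, by
        rw [Real.log_le_iff_le_exp ht0]; exact ht.2⟩, Real.exp_log ht0⟩
  rw [← himg, integral_image_eq_integral_abs_deriv_smul measurableSet_Icc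
    (fun x _ => (Real.hasDerivAt_exp x).hasDerivWithinAt) Real.exp_injective.injOn]
  refine setIntegral_congr_fun measurableSet_Icc fun u _ => ?_
  rw [Real.log_exp, abs_of_pos (Real.exp_pos _), Complex.real_smul, mul_left_comm, ← Complex.ofReal_mul,
    mul_inv_cancel₀ (Real.exp_pos u).ne', Complex.ofReal_one, mul_one]

/-- truncation -/
theorem trunc {b B c₁ a : ℝ} (hb : 0 < b) (hB0 : 0 < B) (hB : 2 < b * B) {F k : ℝ → ℂ} (hFm : Measurable F)
    (hkc : Continuous k)
    (hFb : ∃ C : ℝ, 0 ≤ C ∧ ∀ u : ℝ, ‖F u‖ ≤ C * Real.exp (c₁ * u))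
    (hkb : ∃ κ : ℝ, 0 < κ ∧ ∃ C : ℝ, 0 ≤ C ∧ ∀ v : ℝ, ‖k v‖ ≤ C * Real.exp (-(κ * Real.exp (b * |v|)))) :
    ∀ᶠ l : ℝ in atTop, ∀ v ∈ Icc 0 a,
      ‖(∫ u : ℝ, F (l + v + u) * k (B / 2 * Real.log l - u)) -
        ∫ u in Icc 0 (B * Real.log l), F (l + v + u) * k (B / 2 * Real.log l - u)‖ ≤ 1 := by
  obtain ⟨C1, hC1, hF1⟩ := hFb
  obtain ⟨κ, hκ, C2, hC2, hk2⟩ := hkb
  obtain ⟨C5, hC5, h5⟩ := dexp |c₁| (κ / 2) b (by positivity) hb
  set D : ℝ := ∫ x : ℝ, Real.exp (-(1 * |x|)) with hD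
  have hD0 : 0 ≤ D := integral_nonneg fun x => (Real.exp_pos _).le
  set p : ℝ := b * B / 2 with hp
  have hp1 : 0 < p - 1 := by rw [hp]; linarith
  have hK : ∀ᶠ l : ℝ in atTop, C1 * C2 * C5 * Real.exp (|c₁| * a) * D * Real.exp (-l) < 1 := by
    have h1 : Tendsto (fun l : ℝ => C1 * C2 * C5 * Real.exp (|c₁| * a) * D * Real.exp (-l)) atTop
        (𝓝 (C1 * C2 * C5 * Real.exp (|c₁| * a) * D * 0)) :=
      Tendsto.const_mul _ Real.tendsto_exp_neg_atTop_nhds_zero
    rw [mul_zero] at h1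
    exact h1.eventually (gt_mem_nhds (by positivity))
  filter_upwards [hK, (tendsto_rpow_atTop hp1).eventually_ge_atTop (2 / κ * (|c₁| * (1 + B / 2) + 1)),
    eventually_ge_atTop (1:ℝ)] with l e2 e3 e4
  intro v hv
  have hl0 : 0 < l := by linarith
  have hlog := Real.log_nonneg e4
  set al : ℝ := B / 2 * Real.log l with hal
  have hal0 : 0 ≤ al := by positivity
  have hal2 : B * Real.log l = al + al := by rw [hal]; ring
  have hall : al ≤ B / 2 * l := by
    have : Real.log l ≤ l := (Real.log_le_sub_one_of_pos hl0).trans (by linarith)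
    exact mul_le_mul_of_nonneg_left this (by positivity)
  -- common bound for `F`
  have hFv : ∀ u : ℝ, ‖F (l + v + u)‖ ≤ C1 * (Real.exp (|c₁| * (l + a + al)) * Real.exp (|c₁| * |al - u|)) := by
    intro u
    refine (hF1 _).trans (mul_le_mul_of_nonneg_left ?_ hC1)
    rw [← Real.exp_add]
    refine Real.exp_le_exp.2 ?_
    have e5 : c₁ * (l + v + u) ≤ |c₁| * |l + v + u| := by
      rw [← abs_mul]
      exact le_abs_self _
    have e6 : |l + v + u| ≤ (l + a + al) + |al - u| := by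
      have e7 : l + v + u = (l + v + al) - (al - u) := by ring
      rw [e7]
      refine (abs_sub _ _).trans (add_le_add ?_ le_rfl)
      rw [abs_of_nonneg (by linarith [hv.1])]
      linarith [hv.2]
    have e8 := mul_le_mul_of_nonneg_left e6 (abs_nonneg c₁)
    linarith
  set E0 : ℝ := C1 * C2 * C5 * Real.exp (|c₁| * (l + a + al)) with hE0
  have hE0n : 0 ≤ E0 := by positivity
  have hint0 : ∀ K : ℝ, Integrable (fun u : ℝ => K * Real.exp (-(1 * |al - u|))) := fun K =>
    ((int_exp_abs 1 one_pos).comp_sub_left al).const_mul K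
  have hmeas : AEStronglyMeasurable (fun u : ℝ => F (l + v + u) * k (al - u)) volume := by
    have h1 : Measurable fun u : ℝ => F (l + v + u) := hFm.comp (measurable_const.add measurable_id)
    have h2 : Measurable fun u : ℝ => k (al - u) := (hkc.comp (continuous_const.sub continuous_id)).measurable
    exact (h1.mul h2).aestronglyMeasurable
  have hpt : ∀ u : ℝ, ‖F (l + v + u) * k (al - u)‖ ≤ E0 * Real.exp (-(1 * |al - u|)) := by
    intro u
    rw [norm_mul]
    have h8 : Real.exp (-(κ * Real.exp (b * |al - u|))) ≤ Real.exp (-(κ / 2 * Real.exp (b * |al - u|))) := by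
      refine Real.exp_le_exp.2 ?_
      have := Real.exp_pos (b * |al - u|)
      nlinarith
    calc ‖F (l + v + u)‖ * ‖k (al - u)‖ ≤ (C1 * (Real.exp (|c₁| * (l + a + al)) * Real.exp (|c₁| * |al - u|))) *
          (C2 * Real.exp (-(κ / 2 * Real.exp (b * |al - u|)))) :=
          mul_le_mul (hFv u) ((hk2 _).trans (mul_le_mul_of_nonneg_left h8 hC2)) (norm_nonneg _) (by positivity)
      _ = C1 * C2 * Real.exp (|c₁| * (l + a + al)) *
          (Real.exp (|c₁| * |al - u|) * Real.exp (-(κ / 2 * Real.exp (b * |al - u|)))) := by ring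
      _ ≤ C1 * C2 * Real.exp (|c₁| * (l + a + al)) * (C5 * Real.exp (-(1 * |al - u|))) :=
          mul_le_mul_of_nonneg_left (h5 _) (by positivity)
      _ = _ := by rw [hE0]; ring
  have hI : Integrable (fun u : ℝ => F (l + v + u) * k (al - u)) := (hint0 E0).mono' hmeas (ae_of_all _ hpt)
  have hsplit := integral_add_compl (μ := volume) (measurableSet_Icc (a := (0:ℝ)) (b := B * Real.log l)) hI
  rw [← hsplit, add_sub_cancel_left]
  set E1 : ℝ := C1 * C2 * C5 * Real.exp (|c₁| * (l + a + al) - κ / 2 * Real.exp (b * al)) with hE1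
  have hE1n : 0 ≤ E1 := by positivity
  have hpt2 : ∀ u ∈ (Icc 0 (B * Real.log l))ᶜ, ‖F (l + v + u) * k (al - u)‖ ≤ E1 * Real.exp (-(1 * |al - u|)) := by
    intro u hu
    have hau : al ≤ |al - u| := by
      by_contra hcon
      push Not at hcon
      rw [abs_lt] at hcon
      exact hu ⟨by linarith [hcon.2], by rw [hal2]; linarith [hcon.1]⟩
    rw [norm_mul]
    have h8 : Real.exp (-(κ * Real.exp (b * |al - u|))) ≤ Real.exp (-(κ / 2 * Real.exp (b * al))) *
        Real.exp (-(κ / 2 * Real.exp (b * |al - u|))) := by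
      rw [← Real.exp_add]
      refine Real.exp_le_exp.2 ?_
      have h9 : Real.exp (b * al) ≤ Real.exp (b * |al - u|) := Real.exp_le_exp.2 (mul_le_mul_of_nonneg_left hau hb.le)
      nlinarith
    calc ‖F (l + v + u)‖ * ‖k (al - u)‖ ≤ (C1 * (Real.exp (|c₁| * (l + a + al)) * Real.exp (|c₁| * |al - u|))) *
          (C2 * (Real.exp (-(κ / 2 * Real.exp (b * al))) * Real.exp (-(κ / 2 * Real.exp (b * |al - u|))))) :=
          mul_le_mul (hFv u) ((hk2 _).trans (mul_le_mul_of_nonneg_left h8 hC2)) (norm_nonneg _) (by positivity)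
      _ = C1 * C2 * (Real.exp (|c₁| * (l + a + al)) * Real.exp (-(κ / 2 * Real.exp (b * al)))) *
          (Real.exp (|c₁| * |al - u|) * Real.exp (-(κ / 2 * Real.exp (b * |al - u|)))) := by ring
      _ ≤ C1 * C2 * (Real.exp (|c₁| * (l + a + al)) * Real.exp (-(κ / 2 * Real.exp (b * al)))) *
          (C5 * Real.exp (-(1 * |al - u|))) :=
          mul_le_mul_of_nonneg_left (h5 _) (by positivity)
      _ = _ := by
          rw [hE1, sub_eq_add_neg (|c₁| * (l + a + al)), Real.exp_add]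
          ring
  have h6 : ‖∫ u in (Icc 0 (B * Real.log l))ᶜ, F (l + v + u) * k (al - u)‖ ≤ E1 * D := by
    have h7 : ∫ u in (Icc 0 (B * Real.log l))ᶜ, E1 * Real.exp (-(1 * |al - u|)) ≤
        ∫ u : ℝ, E1 * Real.exp (-(1 * |al - u|)) :=
      setIntegral_le_integral (hint0 E1) (ae_of_all _ fun u => by positivity)
    refine ((norm_integral_le_of_norm_le (hint0 E1).integrableOn ?_).trans h7).trans (le_of_eq ?_)
    · exact (ae_restrict_iff' measurableSet_Icc.compl).2 (ae_of_all _ hpt2)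
    · rw [integral_const_mul, integral_sub_left_eq_self (fun x => Real.exp (-(1 * |x|))) volume al]
  refine h6.trans (le_trans ?_ e2.le)
  have hexp : Real.exp (b * al) = l ^ p := by
    rw [Real.rpow_def_of_pos hl0, hal, hp]
    congr 1
    ring
  have hlp : l ^ p = l * l ^ (p - 1) := by
    rw [Real.rpow_sub_one hl0.ne']
    field_simp
  have h8 : |c₁| * (l + a + al) - κ / 2 * Real.exp (b * al) ≤ |c₁| * a + -l := by
    rw [hexp, hlp]
    have h9 : |c₁| * (l + al) ≤ |c₁| * ((1 + B / 2) * l) := mul_le_mul_of_nonneg_left (by linarith) (abs_nonneg _)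
    have h10 : κ / 2 * (l * (2 / κ * (|c₁| * (1 + B / 2) + 1))) ≤ κ / 2 * (l * l ^ (p - 1)) :=
      mul_le_mul_of_nonneg_left (mul_le_mul_of_nonneg_left e3 hl0.le) (by positivity)
    have h11 : κ / 2 * (l * (2 / κ * (|c₁| * (1 + B / 2) + 1))) = l * (|c₁| * (1 + B / 2) + 1) := by
      field_simp
    nlinarith
  have h9 := Real.exp_le_exp.2 h8
  rw [Real.exp_add] at h9
  calc E1 * D ≤ C1 * C2 * C5 * (Real.exp (|c₁| * a) * Real.exp (-l)) * D := by
        rw [hE1]
        exact mul_le_mul_of_nonneg_right (mul_le_mul_of_nonneg_left h9 (by positivity)) hD0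
    _ = _ := by ring

/-- the truncated pairing -/
def TT (S k : ℝ → ℂ) (X E c₀ p q : ℝ) : ℂ :=
  ∫ v in Icc p q, ∫ u in Icc 0 (Real.log E), S (Real.exp (Real.log X + v + u)) * k (c₀ - u)

theorem TT_eq (S k : ℝ → ℂ) {X E : ℝ} (hX : 0 < X) (hE : 1 ≤ E) (c₀ p q : ℝ) :
    TT S k X E c₀ p q = ∫ y in Icc (Real.exp p) (Real.exp q), (∫ x in Icc 1 E, S (X * x * y) *
      (k (c₀ - Real.log x) * ((x⁻¹ : ℝ) : ℂ))) * ((y⁻¹ : ℝ) : ℂ) := by
  unfold TT
  rw [← chg]
  refine setIntegral_congr_fun measurableSet_Icc fun y hy => ?_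
  have hy0 : 0 < y := lt_of_lt_of_le (Real.exp_pos p) hy.1
  congr 1
  have h1 := chg (fun u => S (Real.exp (Real.log X + Real.log y + u)) * k (c₀ - u)) 0 (Real.log E)
  rw [Real.exp_zero, Real.exp_log (by linarith)] at h1
  rw [← h1]
  refine setIntegral_congr_fun measurableSet_Icc fun x hx => ?_
  have hx0 : 0 < x := by linarith [hx.1]
  rw [Real.exp_add, Real.exp_add, Real.exp_log hX, Real.exp_log hx0, Real.exp_log hy0, mul_assoc]
  congr 2
  ring

/-- approximation of the truncated pairing by a product -/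
theorem TT_approx {S k : ℝ → ℂ} (hS : Measurable S) {C1 c₁ : ℝ} (hC1 : 0 ≤ C1)
    (hSb : ∀ u : ℝ, ‖S (Real.exp u)‖ ≤ C1 * Real.exp (c₁ * u)) (hk : Continuous k) {Kb : ℝ} (hKb : ∀ v, ‖k v‖ ≤ Kb)
    {X E A : ℝ} (hX : 1 ≤ X) (hE : 1 ≤ E) (hA : 1 ≤ A) (c₀ p q : ℝ) (hp : 0 ≤ p) (hq : q ≤ Real.log A) {r : ℕ}
    (u v : Fin r → ℝ → ℂ) (hu : ∀ i, IntegrableOn (u i) (Icc 1 E)) (hv : ∀ i, IntegrableOn (v i) (Icc 1 A)) :
    ‖TT S k X E c₀ p q - ∑ i, (∫ x in Icc 1 E, u i x * (k (c₀ - Real.log x) * ((x⁻¹ : ℝ) : ℂ))) *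
      ∫ y in Icc (Real.exp p) (Real.exp q), v i y * ((y⁻¹ : ℝ) : ℂ)‖ ≤
      Kb * ∫ z in Icc 1 E ×ˢ Icc 1 A, ‖S (X * z.1 * z.2) - ∑ i, u i z.1 * v i z.2‖ := by
  have hKb0 : 0 ≤ Kb := (norm_nonneg _).trans (hKb 0)
  have hX0 : 0 < X := by linarith
  set φ : ℝ → ℂ := fun x => k (c₀ - Real.log x) * ((x⁻¹ : ℝ) : ℂ) with hφ
  set J : Set ℝ := Icc (Real.exp p) (Real.exp q) with hJ
  set χ : ℝ → ℂ := fun y => J.indicator (fun y => ((y⁻¹ : ℝ) : ℂ)) y with hχ
  have hφm : Measurable φ := by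
    have h1 := hk.measurable
    have h2 := Real.measurable_log
    exact (h1.comp (measurable_const.sub h2)).mul (Complex.measurable_ofReal.comp measurable_inv)
  have hχm : Measurable χ := (Complex.measurable_ofReal.comp measurable_inv).indicator measurableSet_Icc
  have hφb : ∀ x ∈ Icc 1 E, ‖φ x‖ ≤ Kb := by
    intro x hx
    rw [hφ]
    simp only
    rw [norm_mul, Complex.norm_real, Real.norm_eq_abs, abs_of_nonneg (inv_nonneg.2 (by linarith [hx.1]))]
    have h1 : x⁻¹ ≤ 1 := inv_le_one_of_one_le₀ hx.1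
    have h2 : 0 ≤ x⁻¹ := inv_nonneg.2 (by linarith [hx.1])
    calc _ ≤ Kb * 1 := mul_le_mul (hKb _) h1 h2 hKb0
      _ = _ := mul_one _
  have hJ1 : ∀ y ∈ J, 1 ≤ y := fun y hy => (Real.one_le_exp hp).trans hy.1
  have hχb : ∀ y, ‖χ y‖ ≤ 1 := by
    intro y
    rw [hχ]
    simp only
    by_cases hy : y ∈ J
    · rw [indicator_of_mem hy, Complex.norm_real, Real.norm_eq_abs,
        abs_of_nonneg (inv_nonneg.2 (by linarith [hJ1 y hy]))]
      exact inv_le_one_of_one_le₀ (hJ1 y hy)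
    · rw [indicator_of_notMem hy, norm_zero]
      exact zero_le_one
  have hJA : J ⊆ Icc 1 A := by
    intro y hy
    refine ⟨hJ1 y hy, hy.2.trans ?_⟩
    rwa [← Real.le_log_iff_exp_le (by linarith)]
  set μx : Measure ℝ := volume.restrict (Icc 1 E) with hμx
  set μy : Measure ℝ := volume.restrict (Icc 1 A) with hμy
  have hμ : (volume : Measure (ℝ × ℝ)).restrict (Icc 1 E ×ˢ Icc 1 A) = μx.prod μy := by
    rw [hμx, hμy, Measure.prod_restrict, Measure.volume_eq_prod]
  -- integrability of the kernel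
  have hSm : Measurable fun z : ℝ × ℝ => S (X * z.1 * z.2) :=
    hS.comp ((measurable_const.mul measurable_fst).mul measurable_snd)
  have hSbd : ∀ z ∈ Icc (1:ℝ) E ×ˢ Icc (1:ℝ) A, ‖S (X * z.1 * z.2)‖ ≤ C1 * Real.exp (|c₁| * Real.log (X * E * A)) := by
    rintro ⟨x, y⟩ ⟨hx, hy⟩
    simp only at hx hy ⊢
    have hx0 : 0 < x := by linarith [hx.1]
    have hy0 : 0 < y := by linarith [hy.1]
    have hpos : 0 < X * x * y := by positivity
    have h1 := hSb (Real.log (X * x * y))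
    rw [Real.exp_log hpos] at h1
    refine h1.trans (mul_le_mul_of_nonneg_left (Real.exp_le_exp.2 ?_) hC1)
    have h2 : 1 ≤ X * x * y := by
      have : 1 ≤ X * x := by nlinarith [hx.1]
      nlinarith [hy.1]
    have h3 : 0 ≤ Real.log (X * x * y) := Real.log_nonneg h2
    have h4 : Real.log (X * x * y) ≤ Real.log (X * E * A) := by
      refine Real.log_le_log hpos ?_
      have : X * x ≤ X * E := mul_le_mul_of_nonneg_left hx.2 hX0.le
      exact mul_le_mul this hy.2 hy0.le (by positivity)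
    calc c₁ * Real.log (X * x * y) ≤ |c₁| * Real.log (X * x * y) := mul_le_mul_of_nonneg_right (le_abs_self _) h3
      _ ≤ _ := mul_le_mul_of_nonneg_left h4 (abs_nonneg _)
  have hSi : Integrable (fun z : ℝ × ℝ => S (X * z.1 * z.2)) (μx.prod μy) := by
    rw [← hμ]
    refine Measure.integrableOn_of_bounded (M := C1 * Real.exp (|c₁| * Real.log (X * E * A))) ?_
      hSm.aestronglyMeasurable ?_
    · rw [Measure.volume_eq_prod, Measure.prod_prod]
      simp [ENNReal.mul_eq_top]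
    · exact (ae_restrict_iff' (measurableSet_Icc.prod measurableSet_Icc)).2 (ae_of_all _ hSbd)
  have hφχb : ∀ᵐ z : ℝ × ℝ ∂(μx.prod μy), ‖φ z.1 * χ z.2‖ ≤ Kb := by
    rw [← hμ]
    refine (ae_restrict_iff' (measurableSet_Icc.prod measurableSet_Icc)).2 (ae_of_all _ fun z hz => ?_)
    rw [norm_mul]
    calc _ ≤ Kb * 1 := mul_le_mul (hφb _ hz.1) (hχb _) (norm_nonneg _) hKb0
      _ = _ := mul_one _
  have hφχm : AEStronglyMeasurable (fun z : ℝ × ℝ => φ z.1 * χ z.2) (μx.prod μy) :=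
    ((hφm.comp measurable_fst).mul (hχm.comp measurable_snd)).aestronglyMeasurable
  have hS1 : Integrable (fun z : ℝ × ℝ => S (X * z.1 * z.2) * (φ z.1 * χ z.2)) (μx.prod μy) :=
    hSi.mul_bdd hφχm hφχb
  have hφb' : ∀ᵐ x ∂μx, ‖φ x‖ ≤ Kb := (ae_restrict_iff' measurableSet_Icc).2 (ae_of_all _ hφb)
  have hui : ∀ i, Integrable (fun x => u i x * φ x) μx := fun i =>
    (hu i).mul_bdd hφm.aestronglyMeasurable hφb'
  have hvi : ∀ i, Integrable (fun y => v i y * χ y) μy := fun i =>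
    (hv i).mul_bdd hχm.aestronglyMeasurable (ae_of_all _ hχb)
  have huv : ∀ i, Integrable (fun z : ℝ × ℝ => (u i z.1 * φ z.1) * (v i z.2 * χ z.2)) (μx.prod μy) := fun i =>
    (hui i).mul_prod (hvi i)
  have huv0 : ∀ i, Integrable (fun z : ℝ × ℝ => u i z.1 * v i z.2) (μx.prod μy) := fun i =>
    Integrable.mul_prod (hu i) (hv i)
  -- first expression
  have e1 : TT S k X E c₀ p q = ∫ z : ℝ × ℝ, S (X * z.1 * z.2) * (φ z.1 * χ z.2) ∂(μx.prod μy) := by
    rw [TT_eq S k hX0 hE, integral_prod_symm _ hS1]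
    have e2 : ∫ y in J, (∫ x in Icc 1 E, S (X * x * y) * (k (c₀ - Real.log x) * ((x⁻¹ : ℝ) : ℂ))) * ((y⁻¹ : ℝ) : ℂ) =
        ∫ y in Icc 1 A, J.indicator (fun y => (∫ x in Icc 1 E, S (X * x * y) *
          (k (c₀ - Real.log x) * ((x⁻¹ : ℝ) : ℂ))) * ((y⁻¹ : ℝ) : ℂ)) y := by
      rw [setIntegral_indicator measurableSet_Icc, inter_eq_self_of_subset_right hJA]
    rw [e2]
    refine integral_congr_ae (ae_of_all _ fun y => ?_)
    simp only
    by_cases hy : y ∈ J
    · rw [indicator_of_mem hy, ← integral_mul_const]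
      refine integral_congr_ae (ae_of_all _ fun x => ?_)
      simp only [hφ, hχ]
      rw [indicator_of_mem hy]
      ring
    · rw [indicator_of_notMem hy]
      have : ∀ x, S (X * x * y) * (φ x * χ y) = 0 := by
        intro x
        rw [hχ]
        simp only
        rw [indicator_of_notMem hy, mul_zero, mul_zero]
      simp_rw [this]
      simp
  have e3 : ∀ i, (∫ x in Icc 1 E, u i x * (k (c₀ - Real.log x) * ((x⁻¹ : ℝ) : ℂ))) *
      ∫ y in J, v i y * ((y⁻¹ : ℝ) : ℂ) = ∫ z : ℝ × ℝ, (u i z.1 * φ z.1) * (v i z.2 * χ z.2) ∂(μx.prod μy) := by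
    intro i
    rw [integral_prod_mul (μ := μx) (ν := μy) (fun x => u i x * φ x) (fun y => v i y * χ y)]
    congr 1
    have e4 : ∀ y, v i y * χ y = J.indicator (fun y => v i y * ((y⁻¹ : ℝ) : ℂ)) y := by
      intro y
      rw [hχ]
      simp only
      by_cases hy : y ∈ J
      · rw [indicator_of_mem hy, indicator_of_mem hy]
      · rw [indicator_of_notMem hy, indicator_of_notMem hy, mul_zero]
    simp_rw [e4]
    rw [hμy, setIntegral_indicator measurableSet_Icc, inter_eq_self_of_subset_right hJA]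
  rw [e1, Finset.sum_congr rfl fun i _ => e3 i, ← integral_finsetSum _ fun i _ => huv i,
    ← integral_sub hS1 (integrable_finsetSum _ fun i _ => huv i), hμ, ← integral_const_mul]
  have hdi : Integrable (fun z : ℝ × ℝ => S (X * z.1 * z.2) - ∑ i, u i z.1 * v i z.2) (μx.prod μy) :=
    hSi.sub (integrable_finsetSum _ fun i _ => huv0 i)
  refine norm_integral_le_of_norm_le (hdi.norm.const_mul Kb) ?_
  filter_upwards [hφχb] with z hz
  have e5 : S (X * z.1 * z.2) * (φ z.1 * χ z.2) - ∑ i, u i z.1 * φ z.1 * (v i z.2 * χ z.2) =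
      (φ z.1 * χ z.2) * (S (X * z.1 * z.2) - ∑ i, u i z.1 * v i z.2) := by
    rw [mul_sub, Finset.mul_sum]
    congr 1
    · ring
    · exact Finset.sum_congr rfl fun i _ => by ring
  rw [e5, norm_mul]
  exact mul_le_mul_of_nonneg_right hz (norm_nonneg _)

end

end Pool.Agent.H480.G
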