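import Pool.Agent.H480.G3

/-!
Lower bound for the approximate rank.
-/

open Complex MeasureTheory Filter Topology Set

set_option linter.unusedSectionVars false

namespace Pool.Agent.H480.G

open H313.GK
open H313.TK (Ist int_exp_abs)

noncomputable section

/-- `S (X x y)` is within `X ^ β` in the mean over `1 ≤ x ≤ (log X)^B`, `1 ≤ y ≤ A` of a sum of `r`
products -/
def SepS (S : ℝ → ℂ) (A B : ℝ) (r : ℕ) (β X : ℝ) : Prop :=
  ∃ u v : Fin r → ℝ → ℂ, (∀ i, IntegrableOn (u i) (Icc 1 (Real.log X ^ B))) ∧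
    (∀ i, IntegrableOn (v i) (Icc 1 A)) ∧
    ∫ z in Icc 1 (Real.log X ^ B) ×ˢ Icc 1 A, ‖S (X * z.1 * z.2) - ∑ i, u i z.1 * v i z.2‖ ≤ X ^ β

theorem unif {n : ℕ} (p : Fin n → Fin n → ℝ → Prop) (mono : ∀ i j C C', C ≤ C' → p i j C → p i j C')
    (h : ∀ i j, ∃ C : ℝ, 0 ≤ C ∧ p i j C) : ∃ C : ℝ, 0 ≤ C ∧ ∀ i j, p i j C := by
  choose C hC hp using h
  refine ⟨∑ i, ∑ j, C i j, Finset.sum_nonneg fun i _ => Finset.sum_nonneg fun j _ => hC i j, fun i j => ?_⟩
  refine mono i j _ _ ?_ (hp i j)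
  refine (Finset.single_le_sum (f := fun j => C i j) (fun j _ => hC i j) (Finset.mem_univ j)).trans ?_
  exact Finset.single_le_sum (f := fun i => ∑ j, C i j) (fun i _ => Finset.sum_nonneg fun j _ => hC i j)
    (Finset.mem_univ i)

theorem unif1 {n : ℕ} (p : Fin n → ℝ → Prop) (mono : ∀ i C C', 0 < C → C ≤ C' → p i C' → p i C)
    (h : ∀ i, ∃ C : ℝ, 0 < C ∧ p i C) : ∃ C : ℝ, 0 < C ∧ ∀ i, p i C := by
  rcases isEmpty_or_nonempty (Fin n) with he | he
  · exact ⟨1, one_pos, fun i => he.elim i⟩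
  · choose C hC hp using h
    have hne : (Finset.univ : Finset (Fin n)).Nonempty := Finset.univ_nonempty
    refine ⟨Finset.univ.inf' hne C, ?_, fun i => ?_⟩
    · rw [Finset.lt_inf'_iff]
      exact fun i _ => hC i
    · refine mono i _ _ ?_ (Finset.inf'_le _ (Finset.mem_univ i)) (hp i)
      rw [Finset.lt_inf'_iff]
      exact fun i _ => hC i

theorem det_prod_zero {I : Type*} [Fintype I] [DecidableEq I] {r : ℕ} (hr : r < Fintype.card I)
    (P : Matrix I (Fin r) ℂ) (Q : Matrix (Fin r) I ℂ) : (P * Q).det = 0 := by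
  by_contra h
  have h1 : IsUnit (P * Q) := (Matrix.isUnit_iff_isUnit_det _).2 (isUnit_iff_ne_zero.2 h)
  have h2 := Matrix.rank_of_isUnit _ h1
  have h3 := Matrix.rank_mul_le_left P Q
  have h4 := P.rank_le_card_width
  rw [Fintype.card_fin] at h4
  omega

/-- comparison of the pairing with the truncated one -/
theorem Mt_TT {S k : ℝ → ℂ} (hS : Measurable S) {C1 c₁ : ℝ} (hC1 : 0 ≤ C1)
    (hSb : ∀ u : ℝ, ‖S (Real.exp u)‖ ≤ C1 * Real.exp (c₁ * u)) (hk : Continuous k) {Kb : ℝ} (hKb : ∀ v, ‖k v‖ ≤ Kb)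
    {B l p q a : ℝ} (hl : 1 ≤ l) (hB0 : 0 < B) (hpq : p ≤ q) (hp : 0 ≤ p) (hq : q ≤ a) {f : ℝ → ℂ} (hf : Continuous f)
    (hfe : ∀ v, f (l + B / 2 * Real.log l + v) = ∫ u : ℝ, S (Real.exp (l + v + u)) * k (B / 2 * Real.log l - u))
    (htr : ∀ v ∈ Icc 0 a,
      ‖(∫ u : ℝ, S (Real.exp (l + v + u)) * k (B / 2 * Real.log l - u)) -
        ∫ u in Icc 0 (B * Real.log l), S (Real.exp (l + v + u)) * k (B / 2 * Real.log l - u)‖ ≤ 1) :
    ‖(∫ v in p..q, f (l + B / 2 * Real.log l + v)) -
      TT S k (Real.exp l) (l ^ B) (B / 2 * Real.log l) p q‖ ≤ q - p := by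
  have hl0 : 0 < l := by linarith
  rw [intervalIntegral.integral_of_le hpq, ← integral_Icc_eq_integral_Ioc]
  unfold TT
  rw [Real.log_exp, Real.log_rpow hl0]
  have i1 : IntegrableOn (fun v => f (l + B / 2 * Real.log l + v)) (Icc p q) :=
    (Continuous.integrableOn_Icc (hf.comp (by fun_prop)))
  have i2 : IntegrableOn (fun v => ∫ u in Icc 0 (B * Real.log l), S (Real.exp (l + v + u)) *
      k (B / 2 * Real.log l - u)) (Icc p q) := by
    have hm : Measurable fun z : ℝ × ℝ => S (Real.exp (l + z.1 + z.2)) * k (B / 2 * Real.log l - z.2) := by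
      have h1 : Measurable fun z : ℝ × ℝ => S (Real.exp (l + z.1 + z.2)) :=
        hS.comp (Real.measurable_exp.comp ((measurable_const.add measurable_fst).add measurable_snd))
      have h2 : Measurable fun z : ℝ × ℝ => k (B / 2 * Real.log l - z.2) :=
        hk.measurable.comp (measurable_const.sub measurable_snd)
      exact h1.mul h2
    have hm2 : StronglyMeasurable fun v : ℝ => ∫ u in Icc 0 (B * Real.log l), S (Real.exp (l + v + u)) *
        k (B / 2 * Real.log l - u) :=
      hm.stronglyMeasurable.integral_prod_right (ν := volume.restrict (Icc 0 (B * Real.log l)))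
    have hlog := Real.log_nonneg hl
    refine Measure.integrableOn_of_bounded (M := C1 * Real.exp (|c₁| * (l + q + B * Real.log l)) * Kb * (B * Real.log l)) ?_
      hm2.aestronglyMeasurable ?_
    · simp
    · refine (ae_restrict_iff' measurableSet_Icc).2 (ae_of_all _ fun v hv => ?_)
      have hKb0 : 0 ≤ Kb := (norm_nonneg _).trans (hKb 0)
      have h3 := norm_setIntegral_le_of_norm_le_const (μ := volume) (s := Icc 0 (B * Real.log l))
        (f := fun u => S (Real.exp (l + v + u)) * k (B / 2 * Real.log l - u))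
        (C := C1 * Real.exp (|c₁| * (l + q + B * Real.log l)) * Kb) (by simp) (fun u hu => by
          rw [norm_mul]
          refine mul_le_mul ((hSb _).trans (mul_le_mul_of_nonneg_left (Real.exp_le_exp.2 ?_) hC1)) (hKb _)
            (norm_nonneg _) (by positivity)
          have e1 : 0 ≤ l + v + u := by linarith [hv.1, hu.1]
          calc c₁ * (l + v + u) ≤ |c₁| * (l + v + u) := mul_le_mul_of_nonneg_right (le_abs_self _) e1
            _ ≤ _ := mul_le_mul_of_nonneg_left (by linarith [hv.2, hu.2]) (abs_nonneg _))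
      refine h3.trans (le_of_eq ?_)
      simp only [measureReal_def, Real.volume_Icc, sub_zero]
      rw [ENNReal.toReal_ofReal (by positivity)]
  rw [← integral_sub i1 i2]
  have h4 := norm_setIntegral_le_of_norm_le_const (μ := volume) (s := Icc p q)
    (f := fun v => f (l + B / 2 * Real.log l + v) - ∫ u in Icc 0 (B * Real.log l), S (Real.exp (l + v + u)) *
      k (B / 2 * Real.log l - u)) (C := 1) (by simp) (fun v hv => by
        rw [hfe v]
        exact htr v ⟨hp.trans hv.1, hv.2.trans hq⟩)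
  refine h4.trans (le_of_eq ?_)
  simp only [measureReal_def, Real.volume_Icc, one_mul]
  rw [ENNReal.toReal_ofReal (by linarith)]

end

end Pool.Agent.H480.G
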