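import Pool.Agent.H480.G4

/-!
Lower bound for the approximate rank, conclusion.
-/

open Complex MeasureTheory Filter Topology Set

set_option linter.unusedSectionVars false

namespace Pool.Agent.H480.G

open H313.GK
open H313.TK (Ist int_exp_abs)

noncomputable section

variable {b B c c₁ β σ C1 A h : ℝ} {n : ℕ} {ρ : Fin n → ℂ} {g Φn : ℂ → ℂ} {S : ℝ → ℂ}

theorem gi_lb (hc : ∀ k, (ρ k).re < c) (hσ : σ ≤ c) (hg : SB g σ c) (i : Fin n) :
    ∃ B2, LB (fun s => g s / (∏ k ∈ Finset.Iic i, (s - ρ k))) c B2 := by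
  obtain ⟨B, hB⟩ := hg.lb
  have hB1 := hB c hσ le_rfl
  have hinv : BD (fun s => ∏ k ∈ Finset.Iic i, 1 / (s - ρ k)) c c := BD.prod _ fun k _ => inv_BD (hc k)
  obtain ⟨B2, hB2⟩ := LB.smulr hB1 hinv
  refine ⟨B2, ?_⟩
  have e : (fun s => g s / (∏ k ∈ Finset.Iic i, (s - ρ k))) = fun s => g s * ∏ k ∈ Finset.Iic i, 1 / (s - ρ k) := by
    funext s
    rw [Finset.prod_div_distrib, Finset.prod_const_one]
    ring
  rw [e]
  exact hB2

/-- the kernels -/
def Ki (Φn : ℂ → ℂ) (ρ : Fin n → ℂ) (c : ℝ) (i : Fin n) : ℝ → ℂ :=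
  H313.GK.Inv (fun s => (∏ k ∈ Finset.Ioi i, (s - ρ k)) * Φn s) c

theorem Ki_KP (hb : 0 < b) (hΦ : KP b Φn) (i : Fin n) : KP b (fun s => (∏ k ∈ Finset.Ioi i, (s - ρ k)) * Φn s) :=
  hΦ.mul_prod hb _ _

theorem Ki_cont (hb : 0 < b) (hΦ : KP b Φn) (i : Fin n) : Continuous (Ki Φn ρ c i) := by
  obtain ⟨A, hA, hl⟩ := (Ki_KP (ρ := ρ) hb hΦ i).lb
  exact (hl c).inv_cont

theorem Ki_decay (hb : 0 < b) (hΦ : KP b Φn) (i : Fin n) :
    ∃ κ : ℝ, 0 < κ ∧ ∃ C : ℝ, 0 ≤ C ∧ ∀ v : ℝ, ‖Ki Φn ρ c i v‖ ≤ C * Real.exp (-(κ * Real.exp (b * |v|))) :=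
  (Ki_KP hb hΦ i).decay hb c

theorem Ki_bdd (hb : 0 < b) (hΦ : KP b Φn) (i : Fin n) : ∃ C : ℝ, 0 ≤ C ∧ ∀ v : ℝ, ‖Ki Φn ρ c i v‖ ≤ C := by
  obtain ⟨κ, hκ, C, hC, h⟩ := Ki_decay (ρ := ρ) (c := c) hb hΦ i
  refine ⟨C, hC, fun v => (h v).trans ?_⟩
  refine mul_le_of_le_one_right hC (Real.exp_le_one_iff.2 ?_)
  have := Real.exp_pos (b * |v|)
  nlinarith

theorem F_int (hS : Measurable S) (hC1 : 0 ≤ C1) (hSb : ∀ u, ‖S (Real.exp u)‖ ≤ C1 * Real.exp (c₁ * u))
    (hS0 : ∀ u < 0, S (Real.exp u) = 0) (hc1 : c₁ < c) :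
    Integrable (fun u : ℝ => ‖S (Real.exp u)‖ * Real.exp (-(c * u))) := by
  have hdc : 0 < c - c₁ := by linarith
  have hFm : Measurable fun u => S (Real.exp u) := hS.comp Real.measurable_exp
  refine ((int_exp_abs (c - c₁) hdc).const_mul C1).mono' ?_ (ae_of_all _ fun u => ?_)
  · exact (hFm.norm.mul (by fun_prop)).aestronglyMeasurable
  · rw [Real.norm_eq_abs, abs_of_nonneg (by positivity)]
    rcases lt_or_ge u 0 with hu | hu
    · rw [hS0 u hu, norm_zero, zero_mul]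
      positivity
    · rw [abs_of_nonneg hu]
      calc ‖S (Real.exp u)‖ * Real.exp (-(c * u)) ≤ (C1 * Real.exp (c₁ * u)) * Real.exp (-(c * u)) :=
            mul_le_mul_of_nonneg_right (hSb u) (Real.exp_pos _).le
        _ = C1 * (Real.exp (c₁ * u) * Real.exp (-(c * u))) := by ring
        _ = C1 * Real.exp (-((c - c₁) * u)) := by
            rw [← Real.exp_add]
            congr 2
            ring

theorem Ki_conv (hb : 0 < b) (hΦ : KP b Φn) (hS : Measurable S) (hC1 : 0 ≤ C1)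
    (hSb : ∀ u, ‖S (Real.exp u)‖ ≤ C1 * Real.exp (c₁ * u)) (hS0 : ∀ u < 0, S (Real.exp u) = 0) (hc1 : c₁ < c)
    (hρc : ∀ k, (ρ k).re < c)
    (hgeq : ∀ τ : ℝ, ((∏ k, (vl c τ - ρ k)) * Φn (vl c τ)) * (∫ u : ℝ, S (Real.exp u) * cexp (-vl c τ * u)) = g (vl c τ))
    (i : Fin n) (t : ℝ) :
    ∫ u : ℝ, S (Real.exp u) * Ki Φn ρ c i (t - u) =
      H313.GK.Inv (fun s => g s / (∏ k ∈ Finset.Iic i, (s - ρ k))) c t := by
  obtain ⟨A, hA, hl⟩ := (Ki_KP (ρ := ρ) hb hΦ i).lb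
  unfold Ki
  rw [conv (F := fun u => S (Real.exp u)) (hl c) (hS.comp Real.measurable_exp) (F_int hS hC1 hSb hS0 hc1) t]
  refine Inv_congr (fun τ => ?_) t
  have hne := line_ne hρc τ
  rw [eq_div_iff (Finset.prod_ne_zero_iff.2 fun k _ => hne k), ← hgeq τ]
  have e1 : (Finset.univ : Finset (Fin n)) = Finset.Iic i ∪ Finset.Ioi i := by
    ext k
    simp only [Finset.mem_univ, Finset.mem_union, Finset.mem_Iic, Finset.mem_Ioi, true_iff]
    exact le_or_gt k i
  have e2 : Disjoint (Finset.Iic i) (Finset.Ioi i) := by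
    rw [Finset.disjoint_left]
    intro k h1 h2
    rw [Finset.mem_Iic] at h1
    rw [Finset.mem_Ioi] at h2
    exact absurd h2 (not_lt.2 h1)
  rw [e1, Finset.prod_union e2]
  ring

theorem rank_low (hb : 0 < b) (hB0 : 0 < B) (hB : 2 < b * B) (hA : 1 < A)
    (hanti : ∀ i j, i ≤ j → (ρ j).re ≤ (ρ i).re) (hΦ : KP b Φn)
    (hS : Measurable S) (hC1 : 0 ≤ C1) (hSb : ∀ u, ‖S (Real.exp u)‖ ≤ C1 * Real.exp (c₁ * u))
    (hS0 : ∀ u < 0, S (Real.exp u) = 0) (hc1 : c₁ < c) (hc0 : 0 < c) (hρc : ∀ k, (ρ k).re < c) (hβ : 0 < β)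
    (hβρ : ∀ k, β < (ρ k).re) (hβc : β ≤ c) (hg : SB g β c) (hg0 : ∀ k, g (ρ k) ≠ 0)
    (hgeq : ∀ τ : ℝ, ((∏ k, (vl c τ - ρ k)) * Φn (vl c τ)) * (∫ u : ℝ, S (Real.exp u) * cexp (-vl c τ * u)) = g (vl c τ))
    {r : ℕ} (hr : r < n) : ¬ ∃ᶠ X : ℝ in atTop, SepS S A B r β X := by
  intro hfreq
  have hn0 : 0 < n := by omega
  have hn1 : (1:ℝ) ≤ n := by exact_mod_cast hn0
  have hlA : 0 < Real.log A := Real.log_pos hA
  -- the step `h`
  set R0 : ℝ := (∑ k, ‖ρ k‖) * 2 + 1 with hR0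
  have hsum0 : 0 ≤ ∑ k, ‖ρ k‖ := Finset.sum_nonneg fun _ _ => norm_nonneg _
  have hR0p : 0 < R0 := by rw [hR0]; linarith
  have hρR : ∀ k, ‖ρ k‖ ≤ ∑ k, ‖ρ k‖ := fun k =>
    Finset.single_le_sum (f := fun k => ‖ρ k‖) (fun _ _ => norm_nonneg _) (Finset.mem_univ k)
  obtain ⟨h, hh, hhA, hhR⟩ : ∃ h : ℝ, 0 < h ∧ n * h ≤ Real.log A ∧ R0 * h < 2 * Real.pi := by
    have hpi := Real.pi_pos
    refine ⟨min (Real.log A / n) (Real.pi / R0), lt_min (by positivity) (by positivity), ?_, ?_⟩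
    · calc n * min (Real.log A / n) (Real.pi / R0) ≤ n * (Real.log A / n) :=
            mul_le_mul_of_nonneg_left (min_le_left _ _) (by linarith)
        _ = _ := by field_simp
    · calc R0 * min (Real.log A / n) (Real.pi / R0) ≤ R0 * (Real.pi / R0) :=
            mul_le_mul_of_nonneg_left (min_le_right _ _) hR0p.le
        _ = Real.pi := by field_simp
        _ < _ := by linarith
  have hd1 : ∀ j, ‖ρ j‖ * h < 2 * Real.pi := fun j =>
    lt_of_le_of_lt (mul_le_mul_of_nonneg_right (by linarith [hρR j]) hh.le) hhR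
  have hd2 : ∀ j k, ‖ρ j - ρ k‖ * h < 2 * Real.pi := fun j k =>
    lt_of_le_of_lt (mul_le_mul_of_nonneg_right ((norm_sub_le _ _).trans (by linarith [hρR j, hρR k])) hh.le) hhR
  -- constants
  obtain ⟨κ, hκ, hκρ⟩ : ∃ κ : ℝ, 0 < κ ∧ ∀ k, β + κ ≤ (ρ k).re :=
    unif1 (fun k C => β + C ≤ (ρ k).re) (fun i C C' _ h1 h2 => by linarith) fun k =>
      ⟨(ρ k).re - β, by linarith [hβρ k], by linarith⟩
  obtain ⟨ε0, hε0, hε0c⟩ : ∃ ε0 : ℝ, 0 < ε0 ∧ ∀ k, (ρ k).re + ε0 ≤ c :=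
    unif1 (fun k C => (ρ k).re + C ≤ c) (fun i C C' _ h1 h2 => by linarith) fun k =>
      ⟨c - (ρ k).re, by linarith [hρc k], by linarith⟩
  obtain ⟨ε, hε, hεc, hεn⟩ : ∃ ε : ℝ, 0 < ε ∧ (∀ k, (ρ k).re + ε ≤ c) ∧ n * ε ≤ κ / 2 := by
    refine ⟨min ε0 (κ / 2 / n), lt_min hε0 (by positivity), fun k => ?_, ?_⟩
    · have := min_le_left ε0 (κ / 2 / n)
      linarith [hε0c k]
    · calc n * min ε0 (κ / 2 / n) ≤ n * (κ / 2 / n) := mul_le_mul_of_nonneg_left (min_le_right _ _) (by linarith)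
        _ = _ := by field_simp
  obtain ⟨CU, hCU, hU⟩ := unif (fun i j C => i < j → ∀ t : ℝ, ‖H313.GK.Inv (Sij h ρ g i j) c t‖ ≤ C * Real.exp (β * t))
    (fun i j C C' h1 h2 h3 t => (h2 h3 t).trans (mul_le_mul_of_nonneg_right h1 (Real.exp_pos _).le))
    (fun i j => by
      by_cases hij : i < j
      · obtain ⟨C, hC, hb⟩ := Sij_upper (h := h) hρc hβc hg i j hij
        exact ⟨C, hC, fun _ => hb⟩
      · exact ⟨0, le_rfl, fun h' => absurd h' hij⟩)
  obtain ⟨CL, hCL, hL⟩ := unif (fun i j C => j ≤ i → ∀ t : ℝ,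
      ‖H313.GK.Inv (Sij h ρ g i j) c t‖ ≤ C * Real.exp (((ρ j).re + ε) * t))
    (fun i j C C' h1 h2 h3 t => (h2 h3 t).trans (mul_le_mul_of_nonneg_right h1 (Real.exp_pos _).le))
    (fun i j => by
      by_cases hij : j ≤ i
      · obtain ⟨C, hC, hb⟩ := Sij_lower (h := h) (γ := (ρ j).re + ε) hρc (hεc j) (by linarith [hβρ j]) hg i j hij
          (fun k hk => by linarith [hanti j k hk])
        exact ⟨C, hC, fun _ => hb⟩
      · exact ⟨0, le_rfl, fun h' => absurd h' hij⟩)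
  obtain ⟨c', hc', hD⟩ := unif1 (fun j C => ∀ᶠ t : ℝ in atTop, C * Real.exp ((ρ j).re * t) ≤
      ‖H313.GK.Inv (Sij h ρ g j j) c t‖)
    (fun j C C' _ h1 h2 => h2.mono fun t ht => (mul_le_mul_of_nonneg_right h1 (Real.exp_pos _).le).trans ht)
    (fun j => Sij_diag hρc hβρ hg hh j (hd1 j) (fun k => hd2 j k) (hg0 j))
  obtain ⟨Kb, hKb, hK⟩ := unif (fun i _ C => ∀ v : ℝ, ‖Ki Φn ρ c i v‖ ≤ C)
    (fun i j C C' h1 h2 v => (h2 v).trans h1) (fun i _ => Ki_bdd hb hΦ i)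
  set W : ℝ := ∑ j, ∑ q ∈ Finset.range n, ‖(Qp h ρ j).coeff q‖ with hW
  have hWn : 0 ≤ W := Finset.sum_nonneg fun j _ => Finset.sum_nonneg fun q _ => norm_nonneg _
  have hWj : ∀ j, ∑ q ∈ Finset.range n, ‖(Qp h ρ j).coeff q‖ ≤ W := fun j =>
    Finset.single_le_sum (f := fun j => ∑ q ∈ Finset.range n, ‖(Qp h ρ j).coeff q‖)
      (fun j _ => Finset.sum_nonneg fun q _ => norm_nonneg _) (Finset.mem_univ j)
  set D : ℝ := W * (h + Kb) with hDdef
  have hD0 : 0 ≤ D := by positivity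
  set CC : ℝ := CU + CL + D + 1 with hCC
  have hCC1 : 1 ≤ CC := by rw [hCC]; linarith
  -- eventual statements in `l`
  have hT : Tendsto (fun l : ℝ => l + B / 2 * Real.log l) atTop atTop := by
    refine tendsto_atTop_mono' atTop ?_ tendsto_id
    filter_upwards [eventually_ge_atTop (1:ℝ)] with l hl
    have := Real.log_nonneg hl
    show l ≤ _
    have : 0 ≤ B / 2 * Real.log l := by positivity
    linarith
  have htr : ∀ᶠ l : ℝ in atTop, ∀ i : Fin n, ∀ v ∈ Icc 0 (Real.log A),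
      ‖(∫ u : ℝ, S (Real.exp (l + v + u)) * Ki Φn ρ c i (B / 2 * Real.log l - u)) -
        ∫ u in Icc 0 (B * Real.log l), S (Real.exp (l + v + u)) * Ki Φn ρ c i (B / 2 * Real.log l - u)‖ ≤ 1 := by
    rw [eventually_all]
    intro i
    exact trunc (F := fun u => S (Real.exp u)) (k := Ki Φn ρ c i) hb hB0 hB (hS.comp Real.measurable_exp)
      (Ki_cont hb hΦ i) ⟨C1, hC1, hSb⟩ (Ki_decay hb hΦ i)
  have hdiag : ∀ᶠ t : ℝ in atTop, ∀ j, c' * Real.exp ((ρ j).re * t) ≤ ‖H313.GK.Inv (Sij h ρ g j j) c t‖ := by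
    rw [eventually_all]
    exact hD
  have hexp0 : ∀ K x : ℝ, 0 < x → Tendsto (fun t : ℝ => K * Real.exp (-(x * t))) atTop (𝓝 0) := by
    intro K x hx
    have h1 : Tendsto (fun t : ℝ => K * Real.exp (-(x * t))) atTop (𝓝 (K * 0)) := by
      refine Tendsto.const_mul _ (Real.tendsto_exp_neg_atTop_nhds_zero.comp ?_)
      exact tendsto_id.const_mul_atTop hx
    rwa [mul_zero] at h1
  have hE1 : ∀ᶠ t : ℝ in atTop, D * Real.exp (-(κ * t)) ≤ c' / 2 :=
    (hexp0 D κ hκ).eventually (ge_mem_nhds (by positivity))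
  have hE2 : ∀ᶠ t : ℝ in atTop, ((n.factorial : ℝ) * CC ^ (n + 1)) * Real.exp (-(κ / 2 * t)) < (c' / 2) ^ n :=
    (hexp0 _ (κ / 2) (by positivity)).eventually (gt_mem_nhds (by positivity))
  -- a suitable `X`
  obtain ⟨X, hsep, hX1, htrX, hTX⟩ := (hfreq.and_eventually ((eventually_ge_atTop (Real.exp 1)).and
    ((Real.tendsto_log_atTop.eventually htr).and
      ((hT.comp Real.tendsto_log_atTop).eventually (hdiag.and (hE1.and hE2)))))).exists
  obtain ⟨hdg, hd3, hd4⟩ := hTX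
  set l : ℝ := Real.log X with hl
  have hX0 : 0 < X := (Real.exp_pos 1).trans_le hX1
  have hl1 : 1 ≤ l := by rw [hl, Real.le_log_iff_exp_le hX0]; exact hX1
  have hl0 : 0 < l := by linarith
  have hXl : Real.exp l = X := Real.exp_log hX0
  have hXone : 1 ≤ X := by rw [← hXl]; exact Real.one_le_exp hl0.le
  simp only [Function.comp_apply, ← hl] at hdg hd3 hd4
  set t : ℝ := l + B / 2 * Real.log l with ht
  have hlt : l ≤ t := by
    have := Real.log_nonneg hl1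
    have : 0 ≤ B / 2 * Real.log l := by positivity
    linarith
  have ht0 : 0 ≤ t := by linarith
  obtain ⟨u, v, hu, hv, hint⟩ := hsep
  have hE : 1 ≤ l ^ B := Real.one_le_rpow hl1 hB0.le
  set P : Matrix (Fin n) (Fin r) ℂ := fun i k =>
    ∫ x in Icc 1 (l ^ B), u k x * (Ki Φn ρ c i (B / 2 * Real.log l - Real.log x) * ((x⁻¹ : ℝ) : ℂ)) with hP
  set bq : Fin r → ℕ → ℂ := fun k q =>
    ∫ y in Icc (Real.exp (q * h)) (Real.exp ((q + 1) * h)), v k y * ((y⁻¹ : ℝ) : ℂ) with hbq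
  set Q : Matrix (Fin r) (Fin n) ℂ := fun k j => ∑ q ∈ Finset.range n, (Qp h ρ j).coeff q * bq k q with hQ
  have hXβ : X ^ β ≤ Real.exp (β * t) := by
    rw [Real.rpow_def_of_pos hX0, ← hl]
    exact Real.exp_le_exp.2 (by nlinarith)
  have hXβ1 : 1 ≤ X ^ β := Real.one_le_rpow hXone hβ.le
  -- entries
  have hent : ∀ i j, ‖H313.GK.Inv (Sij h ρ g i j) c t - (P * Q) i j‖ ≤ D * Real.exp (β * t) := by
    intro i j
    have hq : ∀ q ∈ Finset.range n, ‖Mt h ρ g c t i q - ∑ k, P i k * bq k q‖ ≤ (h + Kb) * Real.exp (β * t) := by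
      intro q hq
      rw [Finset.mem_range] at hq
      have hqA : ((q : ℝ) + 1) * h ≤ Real.log A := by
        refine le_trans (mul_le_mul_of_nonneg_right ?_ hh.le) hhA
        exact_mod_cast hq
      have hq0 : 0 ≤ (q : ℝ) * h := by positivity
      obtain ⟨B2, hB2⟩ := gi_lb hρc hβc hg i
      have k1 := Mt_TT (f := H313.GK.Inv (fun s => g s / (∏ k ∈ Finset.Iic i, (s - ρ k))) c) hS hC1 hSb
        (Ki_cont (ρ := ρ) (c := c) hb hΦ i) (hK i i) hl1 hB0
        (by nlinarith : (q:ℝ) * h ≤ ((q:ℝ) + 1) * h) hq0 hqA hB2.inv_cont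
        (fun w => by
          rw [← Ki_conv hb hΦ hS hC1 hSb hS0 hc1 hρc hgeq i,
            ← integral_add_left_eq_self (fun u => S (Real.exp u) * Ki Φn ρ c i (l + B / 2 * Real.log l + w - u)) (l + w)]
          refine integral_congr_ae (ae_of_all _ fun u => ?_)
          simp only
          congr 2
          ring) (htrX i)
      have k2 := TT_approx hS hC1 hSb (Ki_cont (ρ := ρ) (c := c) hb hΦ i) (hK i i) hXone hE hA.le
        (B / 2 * Real.log l) (q * h) (((q:ℝ) + 1) * h) hq0 hqA u v hu hv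
      have k3 : Kb * (∫ z in Icc 1 (l ^ B) ×ˢ Icc 1 A, ‖S (X * z.1 * z.2) - ∑ i, u i z.1 * v i z.2‖) ≤ Kb * X ^ β :=
        mul_le_mul_of_nonneg_left hint hKb
      rw [hXl] at k1
      have e1 : Mt h ρ g c t i q = ∫ w in (q * h)..((q + 1) * h),
          H313.GK.Inv (fun s => g s / (∏ k ∈ Finset.Iic i, (s - ρ k))) c (l + B / 2 * Real.log l + w) := rfl
      rw [← e1] at k1
      have k4 : ‖Mt h ρ g c t i q - ∑ k, P i k * bq k q‖ ≤ ((q:ℝ) + 1) * h - q * h + Kb * X ^ β := by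
        refine (norm_sub_le_norm_sub_add_norm_sub _ (TT S (Ki Φn ρ c i) X (l ^ B) (B / 2 * Real.log l) (q * h)
          (((q:ℝ) + 1) * h)) _).trans (add_le_add k1 (k2.trans k3))
      refine k4.trans ?_
      have k5 : ((q:ℝ) + 1) * h - q * h = h := by ring
      rw [k5, add_mul]
      refine add_le_add ?_ (mul_le_mul_of_nonneg_left hXβ hKb)
      exact le_mul_of_one_le_right hh.le (hXβ1.trans hXβ)
    rw [← Mt_sum hρc hc0 hh hβc hg i j t, Matrix.mul_apply]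
    have e2 : ∑ q ∈ Finset.range n, (Qp h ρ j).coeff q * Mt h ρ g c t i q - ∑ k, P i k * Q k j =
        ∑ q ∈ Finset.range n, (Qp h ρ j).coeff q * (Mt h ρ g c t i q - ∑ k, P i k * bq k q) := by
      simp only [hQ, Finset.mul_sum]
      rw [Finset.sum_comm, ← Finset.sum_sub_distrib]
      refine Finset.sum_congr rfl fun q _ => ?_
      rw [mul_sub, Finset.mul_sum]
      congr 1
      exact Finset.sum_congr rfl fun k _ => by ring
    rw [e2]
    calc _ ≤ ∑ q ∈ Finset.range n, ‖(Qp h ρ j).coeff q‖ * ((h + Kb) * Real.exp (β * t)) := by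
          refine (norm_sum_le _ _).trans (Finset.sum_le_sum fun q hq' => ?_)
          rw [norm_mul]
          exact mul_le_mul_of_nonneg_left (hq q hq') (norm_nonneg _)
      _ = (∑ q ∈ Finset.range n, ‖(Qp h ρ j).coeff q‖) * ((h + Kb) * Real.exp (β * t)) := by rw [Finset.sum_mul]
      _ ≤ W * ((h + Kb) * Real.exp (β * t)) := mul_le_mul_of_nonneg_right (hWj j) (by positivity)
      _ = _ := by rw [hDdef]; ring
  -- the scaled matrix
  set R : Matrix (Fin n) (Fin n) ℂ := Matrix.of fun i j => ((Real.exp (-((ρ j).re * t)) : ℝ) : ℂ) * (P * Q) i j with hR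
  have hRdet : R.det = 0 := by
    have hz : (P * Q).det = 0 := det_prod_zero (by rw [Fintype.card_fin]; exact hr) P Q
    rw [hR, Matrix.det_mul_row, hz, mul_zero]
  have hRn : ∀ i j, ‖R i j‖ = Real.exp (-((ρ j).re * t)) * ‖(P * Q) i j‖ := by
    intro i j
    simp only [hR, Matrix.of_apply]
    rw [norm_mul, Complex.norm_real, Real.norm_eq_abs, abs_of_pos (Real.exp_pos _)]
  have hpq : ∀ i j, ‖(P * Q) i j‖ ≤ ‖H313.GK.Inv (Sij h ρ g i j) c t‖ + D * Real.exp (β * t) := by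
    intro i j
    have h1 := norm_sub_le (H313.GK.Inv (Sij h ρ g i j) c t) (H313.GK.Inv (Sij h ρ g i j) c t - (P * Q) i j)
    rw [sub_sub_cancel] at h1
    linarith [hent i j]
  have hsm : ∀ j, Real.exp (-((ρ j).re * t)) * Real.exp (β * t) ≤ Real.exp (-(κ * t)) := by
    intro j
    rw [← Real.exp_add]
    refine Real.exp_le_exp.2 ?_
    have := mul_le_mul_of_nonneg_right (hκρ j) ht0
    linarith
  have hup : ∀ i j, i < j → ‖R i j‖ ≤ CC * Real.exp (-(κ * t)) := by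
    intro i j hij
    rw [hRn]
    calc Real.exp (-((ρ j).re * t)) * ‖(P * Q) i j‖ ≤ Real.exp (-((ρ j).re * t)) *
          (CU * Real.exp (β * t) + D * Real.exp (β * t)) :=
          mul_le_mul_of_nonneg_left ((hpq i j).trans (add_le_add (hU i j hij t) le_rfl)) (Real.exp_pos _).le
      _ = (CU + D) * (Real.exp (-((ρ j).re * t)) * Real.exp (β * t)) := by ring
      _ ≤ (CU + D) * Real.exp (-(κ * t)) := mul_le_mul_of_nonneg_left (hsm j) (by positivity)
      _ ≤ CC * Real.exp (-(κ * t)) := mul_le_mul_of_nonneg_right (by rw [hCC]; linarith) (Real.exp_pos _).le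
  have hε1 : 1 ≤ Real.exp (ε * t) := Real.one_le_exp (by positivity)
  have hκ1 : Real.exp (-(κ * t)) ≤ 1 := Real.exp_le_one_iff.2 (by nlinarith)
  have hall : ∀ i j, ‖R i j‖ ≤ CC * Real.exp (ε * t) := by
    intro i j
    rcases lt_or_ge i j with hij | hij
    · refine (hup i j hij).trans (mul_le_mul_of_nonneg_left (hκ1.trans hε1) (by linarith))
    · rw [hRn]
      calc Real.exp (-((ρ j).re * t)) * ‖(P * Q) i j‖ ≤ Real.exp (-((ρ j).re * t)) *
            (CL * Real.exp (((ρ j).re + ε) * t) + D * Real.exp (β * t)) :=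
            mul_le_mul_of_nonneg_left ((hpq i j).trans (add_le_add (hL i j hij t) le_rfl)) (Real.exp_pos _).le
        _ = CL * (Real.exp (-((ρ j).re * t)) * Real.exp (((ρ j).re + ε) * t)) +
            D * (Real.exp (-((ρ j).re * t)) * Real.exp (β * t)) := by ring
        _ = CL * Real.exp (ε * t) + D * (Real.exp (-((ρ j).re * t)) * Real.exp (β * t)) := by
            rw [← Real.exp_add]
            congr 3
            ring
        _ ≤ CL * Real.exp (ε * t) + D * Real.exp (ε * t) := by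
            refine add_le_add le_rfl (mul_le_mul_of_nonneg_left ?_ hD0)
            exact ((hsm j).trans hκ1).trans hε1
        _ = (CL + D) * Real.exp (ε * t) := by ring
        _ ≤ CC * Real.exp (ε * t) := mul_le_mul_of_nonneg_right (by rw [hCC]; linarith) (Real.exp_pos _).le
  have hdiagR : ∀ j, c' / 2 ≤ ‖R j j‖ := by
    intro j
    rw [hRn]
    have h1 : ‖H313.GK.Inv (Sij h ρ g j j) c t‖ - D * Real.exp (β * t) ≤ ‖(P * Q) j j‖ := by
      have h2 := norm_add_le ((P * Q) j j) (H313.GK.Inv (Sij h ρ g j j) c t - (P * Q) j j)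
      rw [add_sub_cancel] at h2
      linarith [hent j j]
    have h3 := hdg j
    calc c' / 2 ≤ c' - D * Real.exp (-(κ * t)) := by linarith
      _ ≤ c' - D * (Real.exp (-((ρ j).re * t)) * Real.exp (β * t)) := by
          have := mul_le_mul_of_nonneg_left (hsm j) hD0
          linarith
      _ = Real.exp (-((ρ j).re * t)) * (c' * Real.exp ((ρ j).re * t) - D * Real.exp (β * t)) := by
          have h4 : Real.exp (-((ρ j).re * t)) * Real.exp ((ρ j).re * t) = 1 := by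
            rw [← Real.exp_add, neg_add_cancel, Real.exp_zero]
          rw [mul_sub, mul_left_comm _ c', h4]
          ring
      _ ≤ _ := mul_le_mul_of_nonneg_left (by linarith) (Real.exp_pos _).le
  refine det_low R (c' / 2) (CC * Real.exp (-(κ * t))) (CC * Real.exp (ε * t)) (by positivity) (by positivity)
    (by nlinarith) hdiagR hup hall ?_ hRdet
  refine lt_of_le_of_lt ?_ hd4
  have e3 : CC * Real.exp (-(κ * t)) * (CC * Real.exp (ε * t)) ^ n =
      CC ^ (n + 1) * (Real.exp (-(κ * t)) * Real.exp (n * (ε * t))) := by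
    rw [mul_pow, ← Real.exp_nat_mul]
    ring
  rw [e3, ← Real.exp_add, ← mul_assoc]
  refine mul_le_mul_of_nonneg_left (Real.exp_le_exp.2 ?_) (by positivity)
  have := mul_le_mul_of_nonneg_right hεn ht0
  nlinarith

end

end Pool.Agent.H480.G
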