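import Pool.Agent.H480.G5

/-!
Enumeration of zeros; the lower bound for standard L-functions.
-/

open Complex MeasureTheory Filter Topology Set
open scoped ComplexConjugate

set_option linter.unusedSectionVars false

namespace Pool.Agent.H480.G

open H313.GK
open H313.TK (Ist int_exp_abs)

noncomputable section

theorem factor {b : ℝ} (hb : 0 < b) {Φ : ℂ → ℂ} (hΦ : KP b Φ) (S : Finset ℂ) (m : ℂ → ℕ)
    (hm : ∀ ρ ∈ S, (m ρ : ℕ∞) ≤ analyticOrderAt Φ ρ) :
    ∃ Ψ, KP b Ψ ∧ ∀ s, (∏ ρ ∈ S, (s - ρ) ^ m ρ) * Ψ s = Φ s := by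
  classical
  induction S using Finset.induction_on with
  | empty => exact ⟨Φ, hΦ, fun s => by simp⟩
  | insert a S ha ih =>
    obtain ⟨Ψ, hΨ, hf⟩ := ih fun ρ hρ => hm ρ (Finset.mem_insert_of_mem hρ)
    have hpd : Differentiable ℂ (fun s : ℂ => ∏ ρ ∈ S, (s - ρ) ^ m ρ) := by fun_prop
    have e1 : analyticOrderAt Φ a = analyticOrderAt Ψ a := by
      have e2 : Φ = (fun s : ℂ => ∏ ρ ∈ S, (s - ρ) ^ m ρ) * Ψ := by
        funext s
        exact (hf s).symm
      rw [e2, analyticOrderAt_mul (hpd.analyticAt a) (hΨ.diff.analyticAt a)]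
      have h0 : analyticOrderAt (fun s : ℂ => ∏ ρ ∈ S, (s - ρ) ^ m ρ) a = 0 := by
        rw [(hpd.analyticAt a).analyticOrderAt_eq_zero]
        refine Finset.prod_ne_zero_iff.2 fun ρ hρ => pow_ne_zero _ (sub_ne_zero.2 ?_)
        rintro rfl
        exact ha hρ
      rw [h0, zero_add]
    have h1 := hm a (Finset.mem_insert_self _ _)
    rw [e1] at h1
    obtain ⟨h2, h3⟩ := dv_KP hb hΨ a (m a) h1 (m a) le_rfl
    refine ⟨_, h2, fun s => ?_⟩
    rw [Finset.prod_insert ha, mul_comm ((s - a) ^ m a), mul_assoc, h3]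
    exact hf s

theorem KP_list {b : ℝ} (hb : 0 < b) {Ψ : ℂ → ℂ} (hΨ : KP b Ψ) (L : List ℂ) :
    KP b (fun s => (L.map (fun x => s - x)).prod * Ψ s) := by
  induction L with
  | nil => simpa using hΨ
  | cons a L ih =>
    have := ih.mul_lin hb a
    simp only [List.map_cons, List.prod_cons]
    simpa only [mul_assoc] using this

theorem exists_list (S : Finset ℂ) (m : ℂ → ℕ) : ∃ L : List ℂ, L.length = ∑ ρ ∈ S, m ρ ∧ (∀ x ∈ L, x ∈ S) ∧
    ∀ s : ℂ, (L.map (fun x => s - x)).prod = ∏ ρ ∈ S, (s - ρ) ^ m ρ := by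
  classical
  induction S using Finset.induction_on with
  | empty => exact ⟨[], by simp, by simp, by simp⟩
  | insert a S ha ih =>
    obtain ⟨L, h1, h2, h3⟩ := ih
    refine ⟨List.replicate (m a) a ++ L, ?_, ?_, ?_⟩
    · rw [List.length_append, List.length_replicate, h1, Finset.sum_insert ha]
    · intro x hx
      rw [List.mem_append] at hx
      rcases hx with hx | hx
      · rw [List.eq_of_mem_replicate hx]
        exact Finset.mem_insert_self _ _
      · exact Finset.mem_insert_of_mem (h2 x hx)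
    · intro s
      rw [List.map_append, List.prod_append, h3, Finset.prod_insert ha]
      simp

/-- a list of zeros, sorted -/
theorem enum {b : ℝ} (hb : 0 < b) {Φ : ℂ → ℂ} (hΦ : KP b Φ) (S : Finset ℂ) (n : ℕ)
    (hn : (n : ℕ∞) ≤ ∑ ρ ∈ S, analyticOrderAt Φ ρ) :
    ∃ ρ : Fin n → ℂ, ∃ Φn : ℂ → ℂ, KP b Φn ∧ (∀ i j, i ≤ j → (ρ j).re ≤ (ρ i).re) ∧ (∀ k, ρ k ∈ S) ∧
      ∀ s, (∏ k, (s - ρ k)) * Φn s = Φ s := by
  classical
  set m : ℂ → ℕ := fun ρ => (min (analyticOrderAt Φ ρ) n).toNat with hm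
  have hmc : ∀ ρ, (m ρ : ℕ∞) = min (analyticOrderAt Φ ρ) n := by
    intro ρ
    rw [hm]
    simp only
    rw [ENat.coe_toNat]
    exact ne_top_of_le_ne_top (ENat.coe_ne_top n) (min_le_right _ _)
  have hsum : n ≤ ∑ ρ ∈ S, m ρ := by
    by_contra hcon
    push Not at hcon
    have hlt : ∀ ρ ∈ S, m ρ < n := fun ρ hρ =>
      lt_of_le_of_lt (Finset.single_le_sum (f := m) (fun _ _ => Nat.zero_le _) hρ) hcon
    have heq : ∀ ρ ∈ S, (m ρ : ℕ∞) = analyticOrderAt Φ ρ := by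
      intro ρ hρ
      rw [hmc]
      refine min_eq_left ?_
      by_contra h'
      push Not at h'
      have h5 := hmc ρ
      rw [min_eq_right h'.le] at h5
      have h6 : m ρ = n := by exact_mod_cast h5
      exact absurd h6 (hlt ρ hρ).ne
    rw [← Finset.sum_congr rfl heq, ← Nat.cast_sum] at hn
    have : n ≤ ∑ ρ ∈ S, m ρ := by exact_mod_cast hn
    omega
  obtain ⟨Ψ, hΨ, hf⟩ := factor hb hΦ S m fun ρ _ => by rw [hmc]; exact min_le_left _ _
  obtain ⟨L, hL1, hL2, hL3⟩ := exists_list S m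
  have hlen : (L.take n).length = n := by
    rw [List.length_take, hL1]
    exact min_eq_left hsum
  set ρ0 : Fin n → ℂ := fun k => (L.take n)[k.1]'(by rw [hlen]; exact k.2) with hρ0
  set τ := Tuple.sort (fun k => -(ρ0 k).re) with hτ
  have hmono := Tuple.monotone_sort (fun k => -(ρ0 k).re)
  refine ⟨fun k => ρ0 (τ k), fun s => ((L.drop n).map (fun x => s - x)).prod * Ψ s, KP_list hb hΨ _, ?_, ?_, ?_⟩
  · intro i j hij
    have := hmono hij
    simp only [Function.comp_apply] at this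
    have h2 : -(ρ0 (τ i)).re ≤ -(ρ0 (τ j)).re := this
    linarith
  · intro k
    refine hL2 _ (List.mem_of_mem_take (i := n) ?_)
    exact List.getElem_mem _
  · intro s
    have e1 : ∏ k, (s - ρ0 (τ k)) = ((L.take n).map (fun x => s - x)).prod := by
      rw [Equiv.prod_comp τ (fun k => s - ρ0 k), ← Fin.prod_univ_fun_getElem]
      refine Fintype.prod_equiv (finCongr hlen.symm) _ _ fun k => ?_
      rfl
    rw [e1, ← mul_assoc, ← List.prod_append, ← List.map_append, List.take_append_drop, hL3]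
    exact hf s

variable {m : ℕ} {θ N : ℝ} {μ : Fin m → ℂ} {α : Fin m → ℕ → ℂ} {ε : ℂ} {Λ : ℂ → ℂ}

/-- the product of `∏ (s - μ_j) Λ(s)` with the transform of the summatory function -/
def gS (μ : Fin m → ℂ) (s : ℂ) : ℂ := (∏ j, (((2 * Real.pi : ℝ) : ℂ) * Gammaℝ (s - μ j + 2))) / s

theorem gS_data (hm : 1 ≤ m) (d : SD θ N μ α ε Λ) {β c : ℝ} (hβ : 0 < β) (hβc : β ≤ c) :
    SB (gS μ) β c ∧ ∀ s : ℂ, 0 < s.re → gS μ s ≠ 0 := by
  have hzne : ∀ s : ℂ, 0 < s.re → ∀ j, 3 / 2 ≤ (s - μ j + 2).re := by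
    intro s hs j
    have := d.re_le j
    simp
    linarith
  have hz1 : ∀ s : ℂ, ∀ j, (s - μ j + 2).re = s.re - (μ j - 2).re := by
    intro s j
    simp
    ring
  have hgne : ∀ s : ℂ, 0 < s.re → ∀ j, Gammaℝ (s - μ j + 2) ≠ 0 := fun s hs j =>
    Gammaℝ_ne_zero_of_re_pos (by have := hzne s hs j; linarith)
  refine ⟨⟨fun s h1 h2 => ?_, ?_⟩, fun s hs => ?_⟩
  · have hs0 : 0 < s.re := by linarith
    have hsne : s ≠ 0 := by
      rintro rfl
      simp at hs0
    unfold gS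
    refine DifferentiableAt.div ?_ differentiableAt_id hsne
    refine DifferentiableAt.fun_finsetProd fun j _ => ?_
    refine DifferentiableAt.const_mul ?_ _
    have h5 := (differentiable_Gammaℝ_inv (s - μ j + 2)).inv (inv_ne_zero (hgne s hs0 j))
    have h6 : DifferentiableAt ℂ Gammaℝ (s - μ j + 2) := by
      refine h5.congr_of_eventuallyEq (Eventually.of_forall fun z => ?_)
      simp
    exact DifferentiableAt.comp (g := Gammaℝ) (f := fun z : ℂ => z - μ j + 2) s h6 (by fun_prop)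
  · set Y : Fin m → ℝ := fun j => (c + 2 + |(μ j).re|) / 2 + 2 with hY
    set D : Fin m → ℝ := fun j => (2 * Real.pi) * ((6 * (1 + |(μ j - 2).im|)) ^ 2 * (Y j) ^ (Y j)) with hD
    have hc0 : 0 < c := by linarith
    have hDn : ∀ j, 0 ≤ D j := by
      intro j
      have h6 : 0 ≤ Y j := by
        simp only [hY]
        have := abs_nonneg (μ j).re
        linarith
      have h7 := Real.rpow_nonneg h6 (Y j)
      have h8 := abs_nonneg (μ j - 2).im
      simp only [hD]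
      positivity
    refine ⟨(∏ j, D j) / β, div_nonneg (Finset.prod_nonneg fun j _ => hDn j) hβ.le, fun s h1 h2 => ?_⟩
    have hs0 : 0 < s.re := by linarith
    have him := abs_nonneg s.im
    have hfac : ∀ j, ‖((2 * Real.pi : ℝ) : ℂ) * Gammaℝ (s - μ j + 2)‖ * (1 + |s.im|) ^ 2 ≤ D j := by
      intro j
      have e : s - μ j + 2 = s - (μ j - 2) := by ring
      have h3 := gR' s (μ j - 2) (by have := hzne s hs0 j; rw [hz1] at this; linarith) 2 (by norm_num)
      rw [e, norm_mul, Complex.norm_real, Real.norm_eq_abs, abs_of_pos (by positivity), mul_assoc]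
      refine mul_le_mul_of_nonneg_left (h3.trans ?_) (by positivity)
      refine mul_le_mul_of_nonneg_left ?_ (by positivity)
      have h4 : (s.re - (μ j - 2).re) / 2 + (2:ℕ) ≤ Y j := by
        simp only [hY, Complex.sub_re]
        have := neg_abs_le (μ j).re
        norm_num
        linarith
      have h5 : 1 ≤ (s.re - (μ j - 2).re) / 2 + (2:ℕ) := by
        have h6 := hzne s hs0 j
        rw [hz1] at h6
        have h7 : ((2:ℕ):ℝ) = 2 := by norm_num
        rw [h7]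
        linarith
      calc ((s.re - (μ j - 2).re) / 2 + (2:ℕ)) ^ ((s.re - (μ j - 2).re) / 2 + (2:ℕ)) ≤
            (Y j) ^ ((s.re - (μ j - 2).re) / 2 + (2:ℕ)) := Real.rpow_le_rpow (by linarith) h4 (by linarith)
        _ ≤ (Y j) ^ (Y j) := Real.rpow_le_rpow_of_exponent_le (by linarith) h4
    have hprod : (∏ j, ‖((2 * Real.pi : ℝ) : ℂ) * Gammaℝ (s - μ j + 2)‖) * (1 + |s.im|) ^ 2 ≤ ∏ j, D j := by
      calc (∏ j, ‖((2 * Real.pi : ℝ) : ℂ) * Gammaℝ (s - μ j + 2)‖) * (1 + |s.im|) ^ 2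
          ≤ (∏ j, ‖((2 * Real.pi : ℝ) : ℂ) * Gammaℝ (s - μ j + 2)‖) * ∏ j : Fin m, (1 + |s.im|) ^ 2 := by
            refine mul_le_mul_of_nonneg_left ?_ (Finset.prod_nonneg fun j _ => norm_nonneg _)
            rw [Finset.prod_const, Finset.card_univ, Fintype.card_fin, ← pow_mul]
            exact pow_le_pow_right₀ (by linarith) (by omega)
        _ = ∏ j, (‖((2 * Real.pi : ℝ) : ℂ) * Gammaℝ (s - μ j + 2)‖ * (1 + |s.im|) ^ 2) := by
            rw [Finset.prod_mul_distrib]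
        _ ≤ _ := Finset.prod_le_prod (fun j _ => by positivity) fun j _ => hfac j
    have hns : β ≤ ‖s‖ := h1.trans (Complex.re_le_norm s)
    rw [← div_eq_mul_inv, le_div_iff₀ (by positivity)]
    unfold gS
    rw [norm_div, norm_prod, div_mul_eq_mul_div]
    refine div_le_div₀ (Finset.prod_nonneg fun j _ => hDn j) ?_ hβ hns
    refine le_trans (mul_le_mul_of_nonneg_left (sq_le_two s.im) ?_) hprod
    exact Finset.prod_nonneg fun j _ => norm_nonneg _
  · have hsne : s ≠ 0 := by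
      rintro rfl
      simp at hs
    unfold gS
    refine div_ne_zero (Finset.prod_ne_zero_iff.2 fun j _ => mul_ne_zero ?_ (hgne s hs j)) hsne
    exact_mod_cast (by positivity : (2 * Real.pi) ≠ 0)

theorem gS_eq (hm : 1 ≤ m) (hθ : 0 ≤ θ) (d : SD θ N μ α ε Λ) {s : ℂ} (hs : m + θ + 4 ≤ s.re) :
    ((∏ j, (s - μ j)) * Λ s) * (∫ u : ℝ, SM (muPi α) (Real.exp u) * cexp (-s * u)) = gS μ s := by
  have hm0 : (0:ℝ) < m := by exact_mod_cast hm
  have ha0 : 0 ≤ m + θ := by positivity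
  have hf : ∀ n : ℕ, n ≠ 0 → ‖muPi α n‖ ≤ (n : ℝ) ^ (m + θ) := fun n hn => norm_muPi_le α d.norm_le n hn
  have hs0 : 0 < s.re := by linarith
  have h1 := trans_F ha0 hf (s := s) (by linarith)
  obtain ⟨hne, he, _⟩ := euler_inv α d.norm_le (s := s) (by linarith)
  have h2 : ∫ u : ℝ, SM (muPi α) (Real.exp u) * cexp (-s * u) = LSeries (muPi α) s / s := h1
  rw [h2]
  unfold gS
  rw [d.euler s (by linarith), he]
  have h3 : ∀ j, ((2 * Real.pi : ℝ) : ℂ) * Gammaℝ (s - μ j + 2) = (s - μ j) * Gammaℝ (s - μ j) := by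
    intro j
    have hz : s - μ j ≠ 0 := by
      intro h0
      have := congrArg Complex.re h0
      simp at this
      have := d.re_le j
      linarith
    rw [Gammaℝ_add_two hz]
    have hpi : (Real.pi : ℂ) ≠ 0 := by exact_mod_cast Real.pi_ne_zero
    push_cast
    field_simp
  rw [Finset.prod_congr rfl fun j _ => h3 j, Finset.prod_mul_distrib]
  field_simp

/-- **lower bound for the approximate rank** -/
theorem SD_rank_low (hm : 1 ≤ m) (hθ : 0 ≤ θ) (d : SD θ N μ α ε Λ) {A B : ℝ} (hA : 1 < A) (hB : m < B) {δ : ℝ}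
    (hδ : 0 < δ) (S : Finset ℂ) (hS : ∀ ρ ∈ S, δ < ρ.re) (r : ℕ)
    (hr : ∀ η : ℝ, 0 < η → ∃ᶠ X : ℝ in atTop, SepS (SM (muPi α)) A B r (δ + η) X) :
    ∑ ρ ∈ S, analyticOrderAt Λ ρ ≤ r := by
  by_contra hcon
  push Not at hcon
  have hm0 : (0:ℝ) < m := by exact_mod_cast hm
  have hB0 : 0 < B := by linarith
  have hb : (0:ℝ) < 2 / m := by positivity
  have hbB : 2 < 2 / m * B := by
    rw [div_mul_eq_mul_div, lt_div_iff₀ hm0]
    linarith
  set Φ : ℂ → ℂ := fun s => (∏ j, (s - μ j)) * Λ s with hΦ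
  have hKP : KP (2 / m) Φ := (d.kp hm hθ).mul_prod hb Finset.univ μ
  have hord : ∀ ρ, analyticOrderAt Λ ρ ≤ analyticOrderAt Φ ρ := by
    intro ρ
    have h1 : AnalyticAt ℂ (fun s : ℂ => ∏ j, (s - μ j)) ρ := by
      have : Differentiable ℂ (fun s : ℂ => ∏ j, (s - μ j)) := by fun_prop
      exact this.analyticAt ρ
    have h2 := analyticOrderAt_mul h1 (d.entire.analyticAt ρ)
    have h3 : Φ = (fun s : ℂ => ∏ j, (s - μ j)) * Λ := rfl
    rw [h3, h2]
    exact le_add_self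
  have hn : ((r + 1 : ℕ) : ℕ∞) ≤ ∑ ρ ∈ S, analyticOrderAt Φ ρ := by
    have h1 : (r : ℕ∞) < ∑ ρ ∈ S, analyticOrderAt Φ ρ := lt_of_lt_of_le hcon (Finset.sum_le_sum fun ρ _ => hord ρ)
    have h2 := Order.add_one_le_of_lt h1
    exact_mod_cast h2
  obtain ⟨ρ, Φn, hΦn, hanti, hmem, hprod⟩ := enum hb hKP S (r + 1) hn
  obtain ⟨η, hη, hηρ⟩ : ∃ η : ℝ, 0 < η ∧ ∀ k, δ + η < (ρ k).re := by
    obtain ⟨η, hη, h2⟩ := unif1 (fun k C => δ + C ≤ (ρ k).re) (fun i C C' _ h1 h2 => by linarith) fun k =>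
      ⟨(ρ k).re - δ, by linarith [hS _ (hmem k)], by linarith⟩
    exact ⟨η / 2, by positivity, fun k => by linarith [h2 k]⟩
  have hsum0 : 0 ≤ ∑ k, ‖ρ k‖ := Finset.sum_nonneg fun _ _ => norm_nonneg _
  set c : ℝ := m + θ + 4 + (∑ k, ‖ρ k‖) + (δ + η) with hc
  have hρc : ∀ k, (ρ k).re < c := by
    intro k
    have h1 := Complex.re_le_norm (ρ k)
    have h2 := Finset.single_le_sum (f := fun k => ‖ρ k‖) (fun _ _ => norm_nonneg _) (Finset.mem_univ k)
    linarith
  obtain ⟨g1, g2⟩ := gS_data hm d (β := δ + η) (c := c) (by positivity) (by linarith)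
  have hf : ∀ n : ℕ, n ≠ 0 → ‖muPi α n‖ ≤ (n : ℝ) ^ (m + θ) := fun n hn => norm_muPi_le α d.norm_le n hn
  refine rank_low (A := A) (c₁ := m + θ + 1) (β := δ + η) (c := c) hb hB0 hbB hA hanti hΦn (SM_meas (muPi α))
    zero_le_one (SM_bd (by positivity) hf) (fun u hu => ?_) (by linarith) (by linarith) hρc (by linarith) hηρ
    (by linarith) g1 (fun k => g2 _ (by linarith [hηρ k])) (fun τ => ?_) (Nat.lt_succ_self r) (hr η hη)
  · have h4 : ⌊Real.exp u⌋₊ = 0 := Nat.floor_eq_zero.2 (by rw [← Real.exp_zero]; exact Real.exp_lt_exp.2 hu)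
    simp only [SM]
    rw [h4]
    simp
  · rw [hprod]
    exact gS_eq hm hθ d (by rw [vl_re]; linarith)

end

end Pool.Agent.H480.G
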