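import Pool.Agent.H480.G6

/-!
Polynomial growth of standard L-functions in vertical strips.
-/

open Complex MeasureTheory Filter Topology Set
open scoped ComplexConjugate

set_option linter.unusedSectionVars false

namespace Pool.Agent.H480.G

open H313.GK

noncomputable section

theorem norm_sin_le (z : ℂ) : ‖Complex.sin z‖ ≤ Real.exp |z.im| := by
  unfold Complex.sin
  rw [norm_div, norm_mul, Complex.norm_I, mul_one, Complex.norm_ofNat]
  have h1 : ‖cexp (-z * I)‖ ≤ Real.exp |z.im| := by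
    rw [Complex.norm_exp]
    refine Real.exp_le_exp.2 ?_
    have : (-z * I).re = z.im := by simp
    rw [this]
    exact le_abs_self _
  have h2 : ‖cexp (z * I)‖ ≤ Real.exp |z.im| := by
    rw [Complex.norm_exp]
    refine Real.exp_le_exp.2 ?_
    have : (z * I).re = -z.im := by simp
    rw [this]
    exact neg_le_abs _
  have h3 := norm_sub_le (cexp (-z * I)) (cexp (z * I))
  linarith

/-- bound for `1/Γ` away from the real axis -/
theorem gamma_inv_le (R : ℝ) : ∃ C : ℝ, 0 ≤ C ∧ ∀ z : ℂ, |z.re| ≤ R → 1 ≤ |z.im| →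
    ‖(Complex.Gamma z)⁻¹‖ ≤ C * Real.exp (Real.pi * |z.im|) := by
  set k : ℕ := ⌈R⌉₊ with hk
  have hkR : R ≤ k := Nat.le_ceil R
  set Y : ℝ := |R| + k + 1 with hY
  have hY1 : 1 ≤ Y := by
    have : (0:ℝ) ≤ k := Nat.cast_nonneg k
    have := abs_nonneg R
    linarith
  have hpi := Real.pi_pos
  refine ⟨Y ^ Y, by positivity, fun z hz him => ?_⟩
  -- shifting to the left
  have hshift : ∀ j : ℕ, ‖(Complex.Gamma z)⁻¹‖ ≤ ‖(Complex.Gamma (z - j))⁻¹‖ := by
    intro j
    induction j with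
    | zero => simp
    | succ j ih =>
      refine ih.trans ?_
      set w : ℂ := z - ((j + 1 : ℕ) : ℂ) with hw
      have hwim : w.im = z.im := by rw [hw]; simp
      have hw1 : 1 ≤ ‖w‖ := him.trans (by rw [← hwim]; exact Complex.abs_im_le_norm w)
      have hw0 : w ≠ 0 := norm_pos_iff.1 (by linarith)
      have e1 : z - (j : ℂ) = w + 1 := by
        rw [hw]
        push_cast
        ring
      rw [e1, Complex.Gamma_add_one w hw0, mul_inv, norm_mul, norm_inv]
      exact mul_le_of_le_one_left (norm_nonneg _) (inv_le_one_of_one_le₀ hw1)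
  refine (hshift k).trans ?_
  set w : ℂ := z - (k : ℂ) with hw
  have hwim : w.im = z.im := by rw [hw]; simp
  have hwre : w.re = z.re - k := by rw [hw]; simp
  have hzR := abs_le.1 hz
  have hwre0 : w.re ≤ 0 := by rw [hwre]; linarith [hzR.2]
  have hsin : Complex.sin (Real.pi * w) ≠ 0 := by
    intro h
    rw [Complex.sin_eq_zero_iff] at h
    obtain ⟨n, hn⟩ := h
    have h2 := congrArg Complex.im hn
    have h3 : ((Real.pi : ℂ) * w).im = Real.pi * w.im := by simp
    have h4 : ((n : ℂ) * (Real.pi : ℂ)).im = 0 := by simp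
    rw [h3, h4] at h2
    have h5 := (mul_eq_zero.1 h2).resolve_left hpi.ne'
    rw [hwim] at h5
    rw [h5] at him
    norm_num at him
  have hrefl := Complex.Gamma_mul_Gamma_one_sub w
  have hG : Complex.Gamma w ≠ 0 := by
    intro h
    rw [h, zero_mul] at hrefl
    have : (Real.pi : ℂ) / Complex.sin (Real.pi * w) ≠ 0 := div_ne_zero (by exact_mod_cast hpi.ne') hsin
    exact this hrefl.symm
  have e2 : (Complex.Gamma w)⁻¹ = Complex.Gamma (1 - w) * Complex.sin (Real.pi * w) / Real.pi := by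
    have hpc : (Real.pi : ℂ) ≠ 0 := by exact_mod_cast hpi.ne'
    rw [eq_div_iff hsin] at hrefl
    rw [inv_eq_iff_eq_inv, inv_div, eq_div_iff]
    · rw [← mul_assoc]
      exact hrefl
    · intro h
      rw [mul_assoc, h, mul_zero] at hrefl
      exact hpc hrefl.symm
  rw [e2, norm_div, norm_mul, Complex.norm_real, Real.norm_eq_abs, abs_of_pos hpi]
  have h3 : ‖Complex.Gamma (1 - w)‖ ≤ Y ^ Y := by
    have h4 : (1 - w).re = 1 - w.re := by simp
    have h5 : 1 ≤ 1 - w.re := by linarith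
    have h6 : 1 - w.re ≤ Y := by
      rw [hwre, hY]
      have := le_abs_self R
      linarith [hzR.1]
    refine (norm_gamma_le (by rw [h4]; linarith)).trans ?_
    rw [h4]
    refine (gamma_le_pow h5).trans ?_
    calc (1 - w.re) ^ (1 - w.re) ≤ Y ^ (1 - w.re) := Real.rpow_le_rpow (by linarith) h6 (by linarith)
      _ ≤ Y ^ Y := Real.rpow_le_rpow_of_exponent_le hY1 h6
  have h7 : ‖Complex.sin (Real.pi * w)‖ ≤ Real.exp (Real.pi * |z.im|) := by
    refine (norm_sin_le _).trans (le_of_eq ?_)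
    congr 1
    have : ((Real.pi : ℂ) * w).im = Real.pi * w.im := by simp
    rw [this, abs_mul, abs_of_pos hpi, hwim]
  have h8 : ‖Complex.Gamma (1 - w)‖ * ‖Complex.sin (Real.pi * w)‖ ≤ Y ^ Y * Real.exp (Real.pi * |z.im|) :=
    mul_le_mul h3 h7 (norm_nonneg _) (by positivity)
  calc _ ≤ ‖Complex.Gamma (1 - w)‖ * ‖Complex.sin (Real.pi * w)‖ :=
        div_le_self (by positivity) (by linarith [Real.pi_gt_three])
    _ ≤ _ := h8

theorem gammaR_inv_le (R : ℝ) : ∃ C : ℝ, 0 ≤ C ∧ ∀ z : ℂ, |z.re| ≤ R → 2 ≤ |z.im| →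
    ‖(Gammaℝ z)⁻¹‖ ≤ C * Real.exp (Real.pi * |z.im|) := by
  obtain ⟨C, hC, hb⟩ := gamma_inv_le R
  have hpi := Real.pi_pos
  refine ⟨Real.pi ^ R * C, by positivity, fun z hz him => ?_⟩
  have h0 : (z / 2).re = z.re / 2 := by simp
  have h0' : (z / 2).im = z.im / 2 := by simp
  have hR := (abs_nonneg _).trans hz
  have h1 := hb (z / 2) (by rw [h0, abs_div, abs_two]; linarith [abs_nonneg z.re]) (by rw [h0', abs_div, abs_two]; linarith)
  rw [h0', abs_div, abs_two] at h1
  rw [Gammaℝ_def, mul_inv, norm_mul]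
  have h2 : ‖((Real.pi : ℂ) ^ (-z / 2))⁻¹‖ ≤ Real.pi ^ R := by
    rw [norm_inv, Complex.norm_cpow_eq_rpow_re_of_pos hpi, ← Real.rpow_neg hpi.le]
    refine Real.rpow_le_rpow_of_exponent_le (by linarith [Real.pi_gt_three]) ?_
    have : (-z / 2).re = -z.re / 2 := by simp
    rw [this]
    have := le_abs_self z.re
    linarith [abs_nonneg z.re]
  have h3 : Real.exp (Real.pi * (|z.im| / 2)) ≤ Real.exp (Real.pi * |z.im|) := by
    refine Real.exp_le_exp.2 (mul_le_mul_of_nonneg_left ?_ hpi.le)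
    linarith
  calc _ ≤ Real.pi ^ R * (C * Real.exp (Real.pi * (|z.im| / 2))) := mul_le_mul h2 h1 (norm_nonneg _) (by positivity)
    _ ≤ Real.pi ^ R * (C * Real.exp (Real.pi * |z.im|)) := by gcongr
    _ = _ := by ring

/-- recursion for `1/Γ_ℝ` -/
theorem gammaR_inv_two (z : ℂ) : (Gammaℝ z)⁻¹ = z / (2 * Real.pi) * (Gammaℝ (z + 2))⁻¹ := by
  by_cases hz : z = 0
  · subst hz
    have : Gammaℝ 0 = 0 := by
      rw [Gammaℝ_eq_zero_iff]
      exact ⟨0, by simp⟩
    rw [this]
    simp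
  · rw [Gammaℝ_add_two hz]
    have hpi : (Real.pi : ℂ) ≠ 0 := by exact_mod_cast Real.pi_ne_zero
    by_cases hG : Gammaℝ z = 0
    · rw [hG]; simp
    · field_simp

theorem gammaR_inv_iter (z : ℂ) (k : ℕ) :
    (Gammaℝ z)⁻¹ = (∏ i ∈ Finset.range k, (z + 2 * i) / (2 * Real.pi)) * (Gammaℝ (z + 2 * k))⁻¹ := by
  induction k with
  | zero => simp
  | succ k ih =>
    rw [ih, gammaR_inv_two (z + 2 * k), Finset.prod_range_succ]
    push_cast
    rw [show z + 2 * (k : ℂ) + 2 = z + 2 * ((k : ℂ) + 1) by ring]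
    ring

variable {m : ℕ} {θ N : ℝ} {μ : Fin m → ℂ} {α : Fin m → ℕ → ℂ} {ε : ℂ} {Λ : ℂ → ℂ}

/-- the L-function -/
def Lf (μ : Fin m → ℂ) (Λ : ℂ → ℂ) (s : ℂ) : ℂ := Λ s * ∏ j, (Gammaℝ (s - μ j))⁻¹

theorem Lf_diff (d : SD θ N μ α ε Λ) : Differentiable ℂ (Lf μ Λ) := by
  unfold Lf
  refine d.entire.mul ?_
  have : ∀ j, Differentiable ℂ fun s => (Gammaℝ (s - μ j))⁻¹ := fun j =>
    differentiable_Gammaℝ_inv.comp (differentiable_id.sub_const (μ j))
  exact Differentiable.fun_finsetProd fun j _ => this j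

theorem Lf_right (hθ : 0 ≤ θ) (d : SD θ N μ α ε Λ) {s : ℂ} (hs : m + θ + 4 ≤ s.re) :
    Lf μ Λ s = (LSeries (muPi α) s)⁻¹ ∧ LSeries (muPi α) s ≠ 0 := by
  have hm0 : (0:ℝ) ≤ m := Nat.cast_nonneg m
  obtain ⟨h1, h2, h3⟩ := euler_inv α d.norm_le (s := s) hs
  refine ⟨?_, h1⟩
  unfold Lf
  rw [d.euler s (by linarith), h2, mul_comm (∏ j, Gammaℝ (s - μ j)), mul_assoc, ← Finset.prod_mul_distrib]
  have : ∀ j, Gammaℝ (s - μ j) * (Gammaℝ (s - μ j))⁻¹ = 1 := by
    intro j
    refine mul_inv_cancel₀ (Gammaℝ_ne_zero_of_re_pos ?_)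
    have := d.re_le j
    rw [Complex.sub_re]
    linarith
  rw [Finset.prod_congr rfl fun j _ => this j]
  simp

theorem Lf_le_two (hθ : 0 ≤ θ) (d : SD θ N μ α ε Λ) {s : ℂ} (hs : m + θ + 4 ≤ s.re) : ‖Lf μ Λ s‖ ≤ 2 := by
  rw [(Lf_right hθ d hs).1]
  exact (euler_inv α d.norm_le (s := s) hs).2.2

theorem Lf_inv_le_two (hθ : 0 ≤ θ) (d : SD θ N μ α ε Λ) {s : ℂ} (hs : m + θ + 4 ≤ s.re) : ‖(Lf μ Λ s)⁻¹‖ ≤ 2 := by
  rw [(Lf_right hθ d hs).1, inv_inv]
  have h1 := mu_close α d.norm_le hs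
  have h2 : ‖LSeries (muPi α) s‖ ≤ ‖LSeries (muPi α) s - 1‖ + ‖(1:ℂ)‖ := by
    have := norm_add_le (LSeries (muPi α) s - 1) 1
    rwa [sub_add_cancel] at this
  rw [norm_one] at h2
  linarith

/-- polynomial growth -/
theorem Lf_growth (hθ : 0 ≤ θ) (d : SD θ N μ α ε Λ) :
    ∃ C : ℝ, 0 < C ∧ ∃ K : ℕ, ∀ s : ℂ, 1 / 2 ≤ s.re → ‖Lf μ Λ s‖ ≤ C * (1 + |s.im|) ^ K := by
  have hm0 : (0:ℝ) ≤ m := Nat.cast_nonneg m
  have hpi := Real.pi_pos
  have hN0 : 0 < N := by linarith [d.one_le]
  set k : ℕ := ⌈(m:ℝ) + θ + 4⌉₊ with hk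
  have hkm : (m:ℝ) + θ + 4 ≤ k := Nat.le_ceil _
  set a : ℝ := 1 / 2 - k with ha
  set b : ℝ := 1 / 2 + k with hb
  have hab : a < b := by rw [ha, hb]; linarith
  set w : ℝ := k + 1 with hw
  set M0 : ℝ := ∑ j, ‖μ j‖ with hM0
  have hM0n : 0 ≤ M0 := Finset.sum_nonneg fun _ _ => norm_nonneg _
  have hμM : ∀ j, ‖μ j‖ ≤ M0 := fun j => Finset.single_le_sum (f := fun j => ‖μ j‖) (fun _ _ => norm_nonneg _) (Finset.mem_univ j)
  -- the left line
  set P : ℝ := 4 * k + M0 + 2 with hP
  have hP1 : 1 ≤ P := by rw [hP]; linarith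
  have hleft : ∀ s : ℂ, s.re = a → ‖Lf μ Λ s‖ ≤ N ^ (k : ℝ) * 2 * (P * (1 + |s.im|)) ^ (m * k) := by
    intro s hs
    have him := abs_nonneg s.im
    set s' : ℂ := s + 2 * k with hs'
    have hs're : s'.re = b := by
      rw [hs', Complex.add_re, hs, ha, hb]
      simp
      ring
    have e0 : 1 - conj s = s' - ((2 * s.im : ℝ) : ℂ) * I * 0 + 0 := by
      apply Complex.ext
      · rw [Complex.sub_re, Complex.conj_re, hs]
        simp
        rw [hs're, ha, hb]
        ring
      · simp [hs']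
    have e1 : 1 - conj s = s' := by rw [e0]; ring
    have e2 : ‖Λ s‖ = N ^ (k : ℝ) * ‖Λ s'‖ := by
      conv_lhs => rw [d.fe s]
      rw [norm_mul, norm_mul, d.norm_eq, one_mul, Complex.norm_conj, Complex.norm_cpow_eq_rpow_re_of_pos hN0, e1]
      congr 2
      rw [Complex.sub_re, hs, ha]
      simp
    have e3 : ∀ j, ‖(Gammaℝ (s - μ j))⁻¹‖ ≤ (P * (1 + |s.im|)) ^ k * ‖(Gammaℝ (s' - μ j))⁻¹‖ := by
      intro j
      rw [gammaR_inv_iter (s - μ j) k, norm_mul, show s - μ j + 2 * (k : ℂ) = s' - μ j by rw [hs']; ring, norm_prod]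
      refine mul_le_mul_of_nonneg_right ?_ (norm_nonneg _)
      calc ∏ i ∈ Finset.range k, ‖(s - μ j + 2 * (i : ℂ)) / (2 * Real.pi)‖ ≤
            ∏ _i ∈ Finset.range k, (P * (1 + |s.im|)) := by
            refine Finset.prod_le_prod (fun _ _ => norm_nonneg _) fun i hi => ?_
            rw [Finset.mem_range] at hi
            have hik : (i : ℝ) ≤ k := by exact_mod_cast hi.le
            rw [norm_div]
            have h5 : (1:ℝ) ≤ ‖(2 * (Real.pi : ℂ))‖ := by
              rw [norm_mul, Complex.norm_real, Real.norm_eq_abs, abs_of_pos hpi, Complex.norm_ofNat]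
              linarith [Real.pi_gt_three]
            refine (div_le_self (norm_nonneg _) h5).trans ?_
            have h6 : ‖s‖ ≤ k + 1 / 2 + |s.im| := by
              refine (Complex.norm_le_abs_re_add_abs_im s).trans (add_le_add ?_ le_rfl)
              rw [hs, ha, abs_le]
              constructor <;> linarith [(Nat.cast_nonneg k : (0:ℝ) ≤ k)]
            have h7 : ‖s - μ j + 2 * (i : ℂ)‖ ≤ ‖s‖ + ‖μ j‖ + 2 * i := by
              refine (norm_add_le _ _).trans (add_le_add (norm_sub_le _ _) ?_)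
              rw [norm_mul, Complex.norm_natCast, Complex.norm_ofNat]
            have h8 := hμM j
            calc ‖s - μ j + 2 * (i : ℂ)‖ ≤ (k + 1 / 2 + |s.im|) + M0 + 2 * k := by linarith
              _ ≤ P * (1 + |s.im|) := by
                rw [hP]
                nlinarith [(Nat.cast_nonneg k : (0:ℝ) ≤ k), mul_nonneg (Nat.cast_nonneg k : (0:ℝ) ≤ k) him, mul_nonneg hM0n him]
        _ = _ := by rw [Finset.prod_const, Finset.card_range]
    have e4 : ∏ j, ‖(Gammaℝ (s - μ j))⁻¹‖ ≤ (P * (1 + |s.im|)) ^ (m * k) * ∏ j, ‖(Gammaℝ (s' - μ j))⁻¹‖ := by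
      calc ∏ j, ‖(Gammaℝ (s - μ j))⁻¹‖ ≤ ∏ j, ((P * (1 + |s.im|)) ^ k * ‖(Gammaℝ (s' - μ j))⁻¹‖) :=
            Finset.prod_le_prod (fun _ _ => norm_nonneg _) fun j _ => e3 j
        _ = _ := by
            rw [Finset.prod_mul_distrib, Finset.prod_const, Finset.card_univ, Fintype.card_fin, ← pow_mul, mul_comm k m]
    have e5 := Lf_le_two hθ d (s := s') (by rw [hs're, hb]; linarith)
    unfold Lf at e5 ⊢
    rw [norm_mul, norm_prod] at e5 ⊢
    rw [e2]
    have hp0 : 0 ≤ (P * (1 + |s.im|)) ^ (m * k) := by positivity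
    have hNk : 0 ≤ N ^ (k:ℝ) := by positivity
    calc N ^ (k : ℝ) * ‖Λ s'‖ * ∏ j, ‖(Gammaℝ (s - μ j))⁻¹‖
        ≤ N ^ (k : ℝ) * ‖Λ s'‖ * ((P * (1 + |s.im|)) ^ (m * k) * ∏ j, ‖(Gammaℝ (s' - μ j))⁻¹‖) :=
          mul_le_mul_of_nonneg_left e4 (by positivity)
      _ = N ^ (k : ℝ) * (‖Λ s'‖ * ∏ j, ‖(Gammaℝ (s' - μ j))⁻¹‖) * (P * (1 + |s.im|)) ^ (m * k) := by ring
      _ ≤ N ^ (k : ℝ) * 2 * (P * (1 + |s.im|)) ^ (m * k) := by
          refine mul_le_mul_of_nonneg_right (mul_le_mul_of_nonneg_left e5 hNk) hp0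
  -- comparison
  have hlow1 : ∀ s : ℂ, a ≤ s.re → 1 ≤ ‖s + w‖ := by
    intro s hs
    have h1 := Complex.re_le_norm (s + w)
    rw [Complex.add_re, Complex.ofReal_re] at h1
    rw [ha] at hs
    rw [hw] at h1 ⊢
    linarith
  have hlow2 : ∀ s : ℂ, a ≤ s.re → 1 + |s.im| ≤ 2 * ‖s + w‖ := by
    intro s hs
    have h1 := hlow1 s hs
    have h2 := Complex.abs_im_le_norm (s + w)
    rw [Complex.add_im, Complex.ofReal_im, add_zero] at h2
    linarith
  have hup2 : ∀ s : ℂ, a ≤ s.re → s.re ≤ b → ‖s + w‖ ≤ (3 * w) * (1 + |s.im|) := by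
    intro s h1 h2
    have h3 := Complex.norm_le_abs_re_add_abs_im (s + w)
    rw [Complex.add_im, Complex.ofReal_im, add_zero, Complex.add_re, Complex.ofReal_re] at h3
    have h4 : |s.re + w| ≤ 3 * w := by
      rw [abs_le, hw]
      rw [ha] at h1
      rw [hb] at h2
      constructor <;> linarith [(Nat.cast_nonneg k : (0:ℝ) ≤ k)]
    have h5 : (1:ℝ) ≤ w := by rw [hw]; linarith [(Nat.cast_nonneg k : (0:ℝ) ≤ k)]
    nlinarith [abs_nonneg s.im]
  set f : ℂ → ℂ := fun s => Lf μ Λ s / (s + w) ^ (m * k) with hf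
  set C : ℝ := N ^ (k:ℝ) * 2 * (2 * P) ^ (m * k) + 2 with hC
  have hC0 : 0 < C := by rw [hC]; positivity
  have hdl := Lf_diff d
  have key : ∀ s : ℂ, a ≤ s.re → s.re ≤ b → ‖f s‖ ≤ C := by
    intro s h1 h2
    refine PhragmenLindelof.vertical_strip (f := f) (a := a) (b := b) (C := C) ?_ ?_ (fun z hz => ?_) (fun z hz => ?_) h1 h2
    · refine DifferentiableOn.diffContOnCl ?_
      intro z hz
      have hz' : a ≤ z.re := by
        have : closure (re ⁻¹' Ioo a b) ⊆ re ⁻¹' Icc a b := by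
          refine closure_minimal (preimage_mono Ioo_subset_Icc_self) (isClosed_Icc.preimage Complex.continuous_re)
        exact (this hz).1
      have hne : (z + w : ℂ) ≠ 0 := norm_pos_iff.1 (by linarith [hlow1 z hz'])
      have h5 : DifferentiableAt ℂ (fun s : ℂ => (s + w) ^ (m * k)) z := by fun_prop
      exact ((hdl z).div h5 (pow_ne_zero _ hne)).differentiableWithinAt
    · have hL : 0 < b - a := by linarith
      set c : ℝ := 1 / (b - a) with hc
      have hc0 : 0 < c := by positivity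
      obtain ⟨M1, hM1⟩ := d.growth a b
      choose G hG hGb using fun j : Fin m => gammaR_inv_le (|a| + |b| + ‖μ j‖)
      set E : ℝ := |M1| + 1 + m * Real.pi * (1 + M0) with hE
      refine ⟨c, ?_, E * (1 + 1 / c), ?_⟩
      · rw [hc, div_lt_div_iff_of_pos_right hL]
        linarith [Real.pi_gt_three]
      · refine Asymptotics.IsBigO.of_bound (∏ j, G j) ?_
        have hev : ∀ᶠ z : ℂ in comap (_root_.abs ∘ im) atTop, 2 + M0 ≤ |z.im| := by
          have := tendsto_comap (f := (_root_.abs ∘ im : ℂ → ℝ)) (x := atTop)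
          exact this.eventually (eventually_ge_atTop (2 + M0))
        refine Filter.eventually_inf_principal.mpr ?_
        filter_upwards [hev] with z hzim hz
        have hz1 : a ≤ z.re := le_of_lt hz.1
        have hz2 : z.re ≤ b := le_of_lt hz.2
        have him := abs_nonneg z.im
        rw [Real.norm_eq_abs, abs_of_pos (Real.exp_pos _)]
        simp only [hf]
        unfold Lf
        rw [norm_div, norm_pow, norm_mul, norm_prod]
        have h3 : ‖Λ z‖ ≤ Real.exp (|M1| * (1 + |z.im|)) := (hM1 z hz1 hz2).trans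
          (Real.exp_le_exp.2 (mul_le_mul_of_nonneg_right (le_abs_self _) (by linarith)))
        have h4 : ∏ j, ‖(Gammaℝ (z - μ j))⁻¹‖ ≤ ∏ j, (G j * Real.exp (Real.pi * (1 + M0) * (1 + |z.im|))) := by
          refine Finset.prod_le_prod (fun _ _ => norm_nonneg _) fun j _ => ?_
          have h5 : |(z - μ j).re| ≤ |a| + |b| + ‖μ j‖ := by
            rw [Complex.sub_re]
            refine (abs_sub _ _).trans (add_le_add ?_ (Complex.abs_re_le_norm _))
            rw [abs_le]
            have := neg_abs_le a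
            have := le_abs_self b
            constructor
            · linarith [abs_nonneg b]
            · linarith [abs_nonneg a]
          have h6 : |(z - μ j).im| ≤ (1 + M0) * (1 + |z.im|) := by
            rw [Complex.sub_im]
            have h7 := Complex.abs_im_le_norm (μ j)
            have h8 := hμM j
            have h9 := abs_sub z.im (μ j).im
            nlinarith [mul_nonneg hM0n him]
          have h6' : 2 ≤ |(z - μ j).im| := by
            rw [Complex.sub_im]
            have h7 := Complex.abs_im_le_norm (μ j)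
            have h8 := hμM j
            have h9 := abs_sub_abs_le_abs_sub z.im (μ j).im
            linarith
          refine (hGb j (z - μ j) h5 h6').trans (mul_le_mul_of_nonneg_left (Real.exp_le_exp.2 ?_) (hG j))
          rw [mul_assoc]
          exact mul_le_mul_of_nonneg_left h6 hpi.le
        rw [Finset.prod_mul_distrib, Finset.prod_const, Finset.card_univ, Fintype.card_fin, ← Real.exp_nat_mul] at h4
        have hGp : 0 ≤ ∏ j, G j := Finset.prod_nonneg fun j _ => hG j
        have h8 : 1 + |z.im| ≤ (1 + 1 / c) * Real.exp (c * |z.im|) := by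
          have h9 := Real.add_one_le_exp (c * |z.im|)
          have h10 : (1 + 1 / c) * (c * |z.im| + 1) = 1 + |z.im| + (c * |z.im| + 1 / c) := by
            field_simp
            ring
          have h11 : 0 ≤ c * |z.im| + 1 / c := by positivity
          have h12 : (1 + 1 / c) * (c * |z.im| + 1) ≤ (1 + 1 / c) * Real.exp (c * |z.im|) :=
            mul_le_mul_of_nonneg_left h9 (by positivity)
          linarith
        have hE0 : 0 ≤ E := by rw [hE]; positivity
        calc ‖Λ z‖ * (∏ j, ‖(Gammaℝ (z - μ j))⁻¹‖) / ‖z + w‖ ^ (m * k)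
            ≤ ‖Λ z‖ * (∏ j, ‖(Gammaℝ (z - μ j))⁻¹‖) := by
              refine div_le_self ?_ (one_le_pow₀ (hlow1 z hz1))
              exact mul_nonneg (norm_nonneg _) (Finset.prod_nonneg fun _ _ => norm_nonneg _)
          _ ≤ Real.exp (|M1| * (1 + |z.im|)) * ((∏ j, G j) * Real.exp (m * (Real.pi * (1 + M0) * (1 + |z.im|)))) :=
              mul_le_mul h3 h4 (Finset.prod_nonneg fun _ _ => norm_nonneg _) (Real.exp_pos _).le
          _ = (∏ j, G j) * (Real.exp (|M1| * (1 + |z.im|)) * Real.exp (m * (Real.pi * (1 + M0) * (1 + |z.im|)))) := by ring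
          _ ≤ (∏ j, G j) * Real.exp (E * (1 + 1 / c) * Real.exp (c * |z.im|)) := by
              refine mul_le_mul_of_nonneg_left ?_ hGp
              rw [← Real.exp_add]
              refine Real.exp_le_exp.2 ?_
              calc |M1| * (1 + |z.im|) + m * (Real.pi * (1 + M0) * (1 + |z.im|)) ≤ E * (1 + |z.im|) := by
                    rw [hE]
                    nlinarith
                _ ≤ E * ((1 + 1 / c) * Real.exp (c * |z.im|)) := mul_le_mul_of_nonneg_left h8 hE0
                _ = _ := by ring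
    · -- left line
      have hza : a ≤ z.re := hz.ge
      simp only [hf]
      rw [norm_div, norm_pow]
      have h1 := hlow1 z hza
      rw [div_le_iff₀ (by positivity)]
      refine (hleft z hz).trans ?_
      have h2 := hlow2 z hza
      have him := abs_nonneg z.im
      have h3 : (P * (1 + |z.im|)) ^ (m * k) ≤ (2 * P) ^ (m * k) * ‖z + w‖ ^ (m * k) := by
        rw [← mul_pow]
        refine pow_le_pow_left₀ (by positivity) ?_ _
        nlinarith
      have hNk : 0 ≤ N ^ (k:ℝ) := by positivity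
      calc N ^ (k:ℝ) * 2 * (P * (1 + |z.im|)) ^ (m * k) ≤ N ^ (k:ℝ) * 2 * ((2 * P) ^ (m * k) * ‖z + w‖ ^ (m * k)) :=
            mul_le_mul_of_nonneg_left h3 (by positivity)
        _ = N ^ (k:ℝ) * 2 * (2 * P) ^ (m * k) * ‖z + w‖ ^ (m * k) := by ring
        _ ≤ C * ‖z + w‖ ^ (m * k) := by
            refine mul_le_mul_of_nonneg_right ?_ (by positivity)
            rw [hC]
            linarith
    · -- right line
      simp only [hf]
      have hza : a ≤ z.re := by rw [hz]; exact hab.le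
      rw [norm_div, norm_pow]
      have h1 := hlow1 z hza
      refine (div_le_self (norm_nonneg _) (one_le_pow₀ h1)).trans ?_
      refine (Lf_le_two hθ d (by rw [hz, hb]; linarith)).trans ?_
      rw [hC]
      have hNk : 0 ≤ N ^ (k:ℝ) * 2 * (2 * P) ^ (m * k) := by positivity
      linarith
  have hw3 : 0 ≤ 3 * w := by rw [hw]; linarith [(Nat.cast_nonneg k : (0:ℝ) ≤ k)]
  refine ⟨C * (3 * w) ^ (m * k) + 2, by positivity, m * k, fun s hs => ?_⟩
  have him := abs_nonneg s.im
  have hp1 : 1 ≤ (1 + |s.im|) ^ (m * k) := one_le_pow₀ (by linarith)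
  rcases le_total s.re b with h1 | h1
  · have hsa : a ≤ s.re := by rw [ha]; linarith [(Nat.cast_nonneg k : (0:ℝ) ≤ k)]
    have h2 := key s hsa h1
    simp only [hf] at h2
    rw [norm_div, norm_pow, div_le_iff₀ (by have := hlow1 s hsa; positivity)] at h2
    refine h2.trans ?_
    have h3 : ‖s + w‖ ^ (m * k) ≤ ((3 * w) * (1 + |s.im|)) ^ (m * k) :=
      pow_le_pow_left₀ (norm_nonneg _) (hup2 s hsa h1) _
    calc C * ‖s + w‖ ^ (m * k) ≤ C * ((3 * w) * (1 + |s.im|)) ^ (m * k) := mul_le_mul_of_nonneg_left h3 hC0.le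
      _ = C * (3 * w) ^ (m * k) * (1 + |s.im|) ^ (m * k) := by rw [mul_pow]; ring
      _ ≤ _ := mul_le_mul_of_nonneg_right (by linarith) (by positivity)
  · refine (Lf_le_two hθ d (by rw [hb] at h1; linarith)).trans ?_
    have h4 : 0 ≤ C * (3 * w) ^ (m * k) := by positivity
    nlinarith

end

end Pool.Agent.H480.G
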