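import Pool.Agent.H480.G7
import Pool.Graph.R_seed8.H295R2.L

/-!
Littlewood's bound for `1/L` to the right of all but finitely many zeros.
-/

open Complex MeasureTheory Filter Topology Set Metric
open scoped ComplexConjugate

set_option linter.unusedSectionVars false

namespace Pool.Agent.H480.G

open H313.GK

noncomputable section

/-- **Littlewood's argument** -/
theorem lw_bound {R r r0 K ε : ℝ} (h0 : 0 < r0) (h0R : r0 < R) (hr : 0 < r) (hrR : r < R) (hε : 0 < ε) (hK : 1 ≤ K) :
    ∃ C : ℝ, 0 ≤ C ∧ ∀ f : ℂ → ℂ, ∀ A : ℝ, 1 ≤ A → DifferentiableOn ℂ f (ball 0 R) →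
      (∀ z ∈ ball (0:ℂ) R, f z ≠ 0) → (∀ z ∈ ball (0:ℂ) R, ‖f z‖ ≤ Real.exp A) →
      (∀ z ∈ ball (0:ℂ) r0, ‖f z‖ ≤ K ∧ ‖(f z)⁻¹‖ ≤ K) → ∀ z : ℂ, ‖z‖ ≤ r → ‖(f z)⁻¹‖ ≤ Real.exp (C + ε * A) := by
  set R' : ℝ := (R + max r r0) / 2 with hR'
  have hmr : max r r0 < R := max_lt hrR h0R
  have hRR' : R' < R := by rw [hR']; linarith
  have hrR' : r < R' := by
    have := le_max_left r r0
    rw [hR']
    linarith
  have hr0R' : r0 < R' := by
    have := le_max_right r r0
    rw [hR']
    linarith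
  have hR0 : 0 < R := by linarith
  have hR'0 : 0 < R' := by linarith
  have hlogK : 0 ≤ Real.log K := Real.log_nonneg hK
  set r1 : ℝ := r0 / 2 with hr1
  have hr10 : 0 < r1 := by positivity
  set C1 : ℝ := 2 * (Real.log K + 1) * r1 / (r0 - r1) + (Real.log K + 4) * (r0 + r1) / (r0 - r1) with hC1
  have hd0 : 0 < r0 - r1 := by rw [hr1]; linarith
  have hC1pos : 0 < C1 := by positivity
  have hdR : 0 < R - R' := by linarith
  set C2 : ℝ := 2 * R' / (R - R') + (Real.log K + 4) * (R + R') / (R - R') with hC2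
  have hC2pos : 0 < C2 := by positivity
  have hratio : r / R' < 1 := by rw [div_lt_one hR'0]; exact hrR'
  have hratio0 : 0 ≤ r / R' := by positivity
  obtain ⟨N, hN⟩ := exists_pow_lt_of_lt_one (div_pos hε hC2pos) hratio
  have hN' : C2 * (r / R') ^ N ≤ ε := by
    have := (lt_div_iff₀ hC2pos).mp hN
    linarith
  set C3 : ℝ := C1 * (r / r1) ^ N with hC3
  have hC3pos : 0 ≤ C3 := by positivity
  refine ⟨C1 + C3, by positivity, ?_⟩
  intro L0 A hA hfd hfne hfA hfK z hz
  obtain ⟨L, hLd, hLexp, hL0⟩ := H295R2.exists_log_ball hR0 hfd hfne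
  have hLre : ∀ z ∈ ball (0:ℂ) R, (L z).re = Real.log ‖L0 z‖ := by
    intro z hz'
    rw [← hLexp z hz', Complex.norm_exp, Real.log_exp]
  have hL00 : ‖L 0‖ ≤ Real.log K + 4 := by
    rw [hL0]
    have h1 := hfK 0 (mem_ball_self h0)
    exact H295R2.norm_log_le hK h1.1 h1.2 (hfne 0 (mem_ball_self hR0))
  have hupper : MapsTo L (ball 0 R) {z | z.re ≤ A} := by
    intro w hw
    change (L w).re ≤ A
    rw [hLre w hw]
    have := Real.log_le_log (norm_pos_iff.2 (hfne w hw)) (hfA w hw)
    rwa [Real.log_exp] at this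
  have hBC : ∀ z : ℂ, ‖z‖ ≤ R' → ‖L z‖ ≤ C2 * A := by
    intro z hz'
    have hzR : z ∈ ball (0:ℂ) R := by rw [mem_ball_zero_iff]; linarith
    have h1 := Complex.borelCaratheodory (by linarith : 0 < A) hLd hupper hR0 hzR
    refine h1.trans ?_
    have hd2 : R - R' ≤ R - ‖z‖ := by linarith
    have e1 : 2 * A * ‖z‖ / (R - ‖z‖) ≤ 2 * A * R' / (R - R') := by
      have : 0 ≤ 2 * A * R' := by positivity
      gcongr
    have e2 : ‖L 0‖ * (R + ‖z‖) / (R - ‖z‖) ≤ (Real.log K + 4) * (R + R') / (R - R') := by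
      gcongr
    have e3 : 0 ≤ (Real.log K + 4) * (R + R') / (R - R') := by positivity
    calc _ ≤ 2 * A * R' / (R - R') + (Real.log K + 4) * (R + R') / (R - R') := add_le_add e1 e2
      _ ≤ C2 * A := by
        rw [hC2]
        have e4 : 2 * A * R' / (R - R') = (2 * R' / (R - R')) * A := by ring
        rw [e4]
        generalize (Real.log K + 4) * (R + R') / (R - R') = q at e3 ⊢
        generalize 2 * R' / (R - R') = p
        nlinarith
  have hsmall : ∀ z : ℂ, ‖z‖ ≤ r1 → ‖L z‖ ≤ C1 := by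
    intro z hz'
    have hsub : ball (0:ℂ) r0 ⊆ ball (0:ℂ) R := ball_subset_ball h0R.le
    have hup2 : MapsTo L (ball 0 r0) {z | z.re ≤ Real.log K + 1} := by
      intro w hw
      change (L w).re ≤ _
      rw [hLre w (hsub hw)]
      have := Real.log_le_log (norm_pos_iff.mpr (hfne w (hsub hw))) (hfK w hw).1
      linarith
    have hzR : z ∈ ball (0:ℂ) r0 := by rw [mem_ball_zero_iff]; linarith
    have h1 := Complex.borelCaratheodory (by linarith : 0 < Real.log K + 1) (hLd.mono hsub) hup2 h0 hzR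
    refine h1.trans ?_
    have hd2 : r0 - r1 ≤ r0 - ‖z‖ := by linarith
    rw [hC1]
    refine add_le_add ?_ ?_
    · gcongr
    · gcongr
  have hLz : ‖L z‖ ≤ C1 + C3 + ε * A := by
    have hεA : 0 ≤ ε * A := by positivity
    rcases le_or_gt ‖z‖ r1 with h | hz1
    · have := hsmall z h
      linarith
    · set U : Set ℂ := ball 0 R' ∩ (closedBall (0:ℂ) r1)ᶜ with hU
      set B : ℝ := C2 * A with hB
      have hBpos : 0 < B := by positivity
      have hclos : closure U ⊆ closedBall 0 R' ∩ (ball (0:ℂ) r1)ᶜ := by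
        refine closure_minimal ?_ (isClosed_closedBall.inter isOpen_ball.isClosed_compl)
        rintro w ⟨hw1, hw2⟩
        refine ⟨ball_subset_closedBall hw1, fun hw3 => hw2 (ball_subset_closedBall hw3)⟩
      have hdiff : DiffContOnCl ℂ (fun w => L w / w ^ N) U := by
        refine DifferentiableOn.diffContOnCl ?_
        refine DifferentiableOn.mono (s := closure U) ?_ (subset_refl _)
        intro w hw
        obtain ⟨hw1, hw2⟩ := hclos hw
        rw [mem_closedBall_zero_iff] at hw1
        rw [mem_compl_iff, mem_ball_zero_iff, not_lt] at hw2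
        have hw0 : w ≠ 0 := by
          intro h
          rw [h, norm_zero] at hw2
          linarith
        have hwR : w ∈ ball (0:ℂ) R := by rw [mem_ball_zero_iff]; linarith
        refine DifferentiableAt.differentiableWithinAt ?_
        refine DifferentiableAt.div (hLd.differentiableAt (isOpen_ball.mem_nhds hwR)) (by fun_prop)
          (pow_ne_zero _ hw0)
      have hfront : ∀ w ∈ frontier U, ‖L w / w ^ N‖ ≤ C1 / r1 ^ N + B / R' ^ N := by
        intro w hw
        have h1 : w ∈ frontier (ball (0:ℂ) R') ∪ frontier ((closedBall (0:ℂ) r1)ᶜ) := by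
          rcases frontier_inter_subset _ _ hw with h | h
          · exact Or.inl h.1
          · exact Or.inr h.2
        have hp1 : 0 < C1 / r1 ^ N := by positivity
        have hp2 : 0 < B / R' ^ N := by positivity
        rcases h1 with h1 | h1
        · rw [frontier_ball _ hR'0.ne'] at h1
          rw [mem_sphere_zero_iff_norm] at h1
          rw [norm_div, norm_pow, h1]
          have := hBC w h1.le
          calc ‖L w‖ / R' ^ N ≤ B / R' ^ N := by gcongr
            _ ≤ _ := by linarith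
        · rw [frontier_compl, frontier_closedBall _ hr10.ne'] at h1
          rw [mem_sphere_zero_iff_norm] at h1
          rw [norm_div, norm_pow, h1]
          have := hsmall w h1.le
          calc ‖L w‖ / r1 ^ N ≤ C1 / r1 ^ N := by gcongr
            _ ≤ _ := by linarith
      have hzU : z ∈ U := by
        refine ⟨?_, ?_⟩
        · rw [mem_ball_zero_iff]; linarith
        · rw [mem_compl_iff, mem_closedBall_zero_iff, not_le]; exact hz1
      have hbdd : Bornology.IsBounded U := isBounded_ball.subset inter_subset_left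
      have h1 := Complex.norm_le_of_forall_mem_frontier_norm_le hbdd hdiff hfront (subset_closure hzU)
      rw [norm_div, norm_pow] at h1
      have hzpos : 0 < ‖z‖ ^ N := pow_pos (by linarith) _
      rw [div_le_iff₀ hzpos] at h1
      have h2 : ‖z‖ ^ N ≤ r ^ N := pow_le_pow_left₀ (norm_nonneg _) hz N
      have h3 : ‖L z‖ ≤ C3 + ε * A := by
        calc ‖L z‖ ≤ (C1 / r1 ^ N + B / R' ^ N) * ‖z‖ ^ N := h1
          _ ≤ (C1 / r1 ^ N + B / R' ^ N) * r ^ N := by gcongr
          _ = C3 + (C2 * (r / R') ^ N) * A := by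
            rw [hC3, hB, div_pow r r1, div_pow r R']
            generalize r1 ^ N = b
            generalize r ^ N = a
            ring
          _ ≤ _ := by gcongr
      linarith
  have hzR : z ∈ ball (0:ℂ) R := by rw [mem_ball_zero_iff]; linarith
  rw [← hLexp z hzR, ← Complex.exp_neg, Complex.norm_exp]
  refine Real.exp_le_exp.2 ?_
  have := (Complex.abs_re_le_norm (-L z))
  rw [norm_neg] at this
  have := le_abs_self (-L z).re
  linarith

variable {m : ℕ} {θ N : ℝ} {μ : Fin m → ℂ} {α : Fin m → ℕ → ℂ} {ε : ℂ} {Λ : ℂ → ℂ}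

theorem gprod_ne (d : SD θ N μ α ε Λ) {s : ℂ} (hs : 1 / 2 < s.re) : ∏ j, (Gammaℝ (s - μ j))⁻¹ ≠ 0 := by
  refine Finset.prod_ne_zero_iff.2 fun j _ => inv_ne_zero (Gammaℝ_ne_zero_of_re_pos ?_)
  have := d.re_le j
  rw [Complex.sub_re]
  linarith

/-- `1/L` is `O(|t|^ε)` to the right of all but finitely many zeros -/
theorem Lf_inv_bound (hθ : 0 ≤ θ) (d : SD θ N μ α ε Λ) {δ σ T0 η : ℝ} (hδ : 1 / 2 ≤ δ) (hσ : δ < σ) (hη : 0 < η)
    (hT0 : 0 ≤ T0) (hz : ∀ s : ℂ, δ < s.re → T0 < |s.im| → Λ s ≠ 0) :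
    ∃ C : ℝ, 0 < C ∧ ∃ T : ℝ, 0 < T ∧ T0 < T ∧ ∀ s : ℂ, σ ≤ s.re → T ≤ |s.im| →
      ‖(Lf μ Λ s)⁻¹‖ ≤ C * (1 + |s.im|) ^ η := by
  have hm0 : (0:ℝ) ≤ m := Nat.cast_nonneg m
  obtain ⟨C0, hC0, K, hK⟩ := Lf_growth hθ d
  set c0 : ℝ := m + θ + 5 + σ with hc0
  set R : ℝ := c0 - (δ + σ) / 2 with hR
  set r : ℝ := c0 - σ with hr
  have hrp : 0 < r := by rw [hr, hc0]; linarith
  have hrR : r < R := by rw [hr, hR]; linarith
  have h1R : 1 < R := by rw [hR, hc0]; linarith
  set η' : ℝ := η / (K + 1) with hη'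
  have hK0 : (0:ℝ) ≤ K := Nat.cast_nonneg K
  have hη'0 : 0 < η' := by positivity
  obtain ⟨C1, hC1, hlw⟩ := lw_bound (R := R) (r := r) (r0 := 1) (K := 2) (ε := η') one_pos h1R hrp hrR hη'0 one_le_two
  set A0 : ℝ := |Real.log C0| + 1 + K * Real.log (1 + R) with hA0
  have hlR : 0 ≤ Real.log (1 + R) := Real.log_nonneg (by linarith)
  have hA01 : 1 ≤ A0 := by
    have := abs_nonneg (Real.log C0)
    have : 0 ≤ K * Real.log (1 + R) := by positivity
    linarith
  refine ⟨Real.exp (C1 + η' * A0) + 2, by positivity, T0 + R + 1, by linarith, by linarith, fun s hs ht => ?_⟩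
  have hrp1 : 1 ≤ (1 + |s.im|) ^ η := Real.one_le_rpow (by linarith [abs_nonneg s.im]) hη.le
  rcases le_total c0 s.re with hc | hc
  · refine (Lf_inv_le_two hθ d (by linarith)).trans ?_
    have := Real.exp_pos (C1 + η' * A0)
    nlinarith
  · set t : ℝ := s.im with htd
    set cc : ℂ := vl c0 t with hcc
    set f : ℂ → ℂ := fun z => Lf μ Λ (cc + z) with hf
    have hre : ∀ z : ℂ, (cc + z).re = c0 + z.re := fun z => by rw [Complex.add_re, hcc, vl_re]
    have him : ∀ z : ℂ, (cc + z).im = t + z.im := fun z => by rw [Complex.add_im, hcc, vl_im]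
    have hgeo : ∀ z ∈ ball (0:ℂ) R, (δ + σ) / 2 < (cc + z).re ∧ T0 < |(cc + z).im| ∧ |(cc + z).im| ≤ |t| + R := by
      intro z hz'
      rw [mem_ball_zero_iff] at hz'
      have h1 := abs_lt.1 (lt_of_le_of_lt (Complex.abs_re_le_norm z) hz')
      have h2 := (Complex.abs_im_le_norm z).trans hz'.le
      rw [hre, him]
      refine ⟨by rw [hR] at h1; linarith [h1.1], ?_, ?_⟩
      · have := abs_sub_abs_le_abs_sub t (-z.im)
        rw [abs_neg, sub_neg_eq_add] at this
        linarith
      · have := abs_add_le t z.im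
        linarith
    have hA : 1 ≤ A0 + K * Real.log (1 + |t|) := by
      have : 0 ≤ K * Real.log (1 + |t|) := mul_nonneg hK0 (Real.log_nonneg (by linarith [abs_nonneg t]))
      linarith
    have key := hlw f (A0 + K * Real.log (1 + |t|)) hA ?_ ?_ ?_ ?_ ((s.re - c0 : ℝ) : ℂ) ?_
    · have e1 : f ((s.re - c0 : ℝ) : ℂ) = Lf μ Λ s := by
        simp only [hf]
        congr 1
        apply Complex.ext
        · rw [hre, Complex.ofReal_re]; ring
        · rw [him, Complex.ofReal_im, add_zero]
      rw [e1] at key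
      refine key.trans ?_
      have ht0 := abs_nonneg t
      have e2 : Real.exp (C1 + η' * (A0 + K * Real.log (1 + |t|))) = Real.exp (C1 + η' * A0) * (1 + |t|) ^ (η' * K) := by
        rw [Real.rpow_def_of_pos (by linarith), ← Real.exp_add]
        congr 1
        ring
      rw [e2]
      have e3 : (1 + |t|) ^ (η' * K) ≤ (1 + |t|) ^ η := by
        refine Real.rpow_le_rpow_of_exponent_le (by linarith) ?_
        rw [hη', div_mul_eq_mul_div, div_le_iff₀ (by positivity)]
        nlinarith
      have e4 := Real.exp_pos (C1 + η' * A0)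
      have e5 : 0 ≤ (1 + |t|) ^ η := by positivity
      nlinarith [mul_le_mul_of_nonneg_left e3 e4.le]
    · have h1 : Differentiable ℂ f := (Lf_diff d).comp (differentiable_id.const_add cc)
      exact h1.differentiableOn
    · intro z hz'
      obtain ⟨g1, g2, _⟩ := hgeo z hz'
      simp only [hf]
      unfold Lf
      exact mul_ne_zero (hz _ (by linarith) g2) (gprod_ne d (by linarith))
    · intro z hz'
      obtain ⟨g1, _, g3⟩ := hgeo z hz'
      have h1 := hK (cc + z) (by linarith)
      refine h1.trans ?_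
      have h2 : (1 + |(cc + z).im|) ≤ (1 + R) * (1 + |t|) := by
        have := abs_nonneg t
        nlinarith
      have h3 : C0 * (1 + |(cc + z).im|) ^ K ≤ C0 * ((1 + R) * (1 + |t|)) ^ K :=
        mul_le_mul_of_nonneg_left (pow_le_pow_left₀ (by positivity) h2 _) hC0.le
      refine h3.trans ?_
      have hp : 0 < C0 * ((1 + R) * (1 + |t|)) ^ K := by
        have := abs_nonneg t
        positivity
      rw [← Real.exp_log hp]
      refine Real.exp_le_exp.2 ?_
      have ht0 := abs_nonneg t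
      rw [Real.log_mul hC0.ne' (by positivity), Real.log_pow, Real.log_mul (by linarith) (by linarith)]
      have := le_abs_self (Real.log C0)
      rw [hA0]
      nlinarith
    · intro z hz'
      rw [mem_ball_zero_iff] at hz'
      have h1 := abs_lt.1 (lt_of_le_of_lt (Complex.abs_re_le_norm z) hz')
      have h2 : m + θ + 4 ≤ (cc + z).re := by
        rw [hre, hc0]
        linarith [h1.1]
      exact ⟨Lf_le_two hθ d h2, Lf_inv_le_two hθ d h2⟩
    · rw [Complex.norm_real, Real.norm_eq_abs, abs_of_nonpos (by linarith)]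
      rw [hr]
      linarith

end

end Pool.Agent.H480.G
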