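import Pool.Agent.H480.G8
import Pool.Graph.R_seed8.Helper625.Planch

/-!
Mean square bounds from the transform on a vertical line further to the left.
-/

open Complex MeasureTheory Filter Topology Set
open scoped FourierTransform

set_option linter.unusedSectionVars false

namespace Pool.Agent.H480.G

open H313.GK
open H313.TK (Ist int_exp_abs)

noncomputable section

/-- Gaussian multiplier -/
def KG (h : ℝ) (s : ℂ) : ℂ := cexp (((h ^ 2 / 2 : ℝ) : ℂ) * s ^ 2)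

theorem KG_norm (h : ℝ) (s : ℂ) : ‖KG h s‖ = Real.exp (h ^ 2 / 2 * (s.re ^ 2 - s.im ^ 2)) := by
  unfold KG
  rw [Complex.norm_exp, Complex.re_ofReal_mul]
  congr 2
  rw [sq, Complex.mul_re]
  ring

theorem KG_diff (h : ℝ) : Differentiable ℂ (KG h) := by
  unfold KG
  fun_prop

/-- decay of the multiplier -/
theorem KG_le {h : ℝ} (hh : 0 < h) (hh1 : h ≤ 1) {c : ℝ} (s : ℂ) (hs : |s.re| ≤ c) :
    ‖KG h s‖ ≤ Real.exp (c ^ 2) * (2 / h ^ 2) * (1 + s.im ^ 2)⁻¹ := by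
  rw [KG_norm]
  have h1 : s.re ^ 2 ≤ c ^ 2 := by
    rw [← sq_abs]
    exact pow_le_pow_left₀ (abs_nonneg _) hs 2
  have hh2 : h ^ 2 ≤ 1 := by nlinarith
  have hh0 : 0 < h ^ 2 := by positivity
  have h2 : Real.exp (h ^ 2 / 2 * (s.re ^ 2 - s.im ^ 2)) ≤ Real.exp (c ^ 2) * Real.exp (-(h ^ 2 / 2 * s.im ^ 2)) := by
    rw [← Real.exp_add]
    refine Real.exp_le_exp.2 ?_
    nlinarith [sq_nonneg s.re]
  have h3 : Real.exp (-(h ^ 2 / 2 * s.im ^ 2)) ≤ (2 / h ^ 2) * (1 + s.im ^ 2)⁻¹ := by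
    rw [Real.exp_neg]
    have h4 : h ^ 2 / 2 * (1 + s.im ^ 2) ≤ Real.exp (h ^ 2 / 2 * s.im ^ 2) := by
      have := Real.add_one_le_exp (h ^ 2 / 2 * s.im ^ 2)
      nlinarith
    calc (Real.exp (h ^ 2 / 2 * s.im ^ 2))⁻¹ ≤ (h ^ 2 / 2 * (1 + s.im ^ 2))⁻¹ :=
          inv_anti₀ (by positivity) h4
      _ = _ := by field_simp
  calc _ ≤ _ := h2
    _ ≤ Real.exp (c ^ 2) * ((2 / h ^ 2) * (1 + s.im ^ 2)⁻¹) := mul_le_mul_of_nonneg_left h3 (Real.exp_pos _).le
    _ = _ := by ring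

theorem KG_le_one {h : ℝ} (hh : 0 < h) (hh1 : h ≤ 1) {c : ℝ} (s : ℂ) (hs : |s.re| ≤ c) :
    ‖KG h s‖ ≤ Real.exp (c ^ 2) := by
  rw [KG_norm]
  refine Real.exp_le_exp.2 ?_
  have h1 : s.re ^ 2 ≤ c ^ 2 := by
    rw [← sq_abs]
    exact pow_le_pow_left₀ (abs_nonneg _) hs 2
  have hh2 : h ^ 2 ≤ 1 := by nlinarith
  have hh0 : 0 < h ^ 2 := by positivity
  nlinarith [sq_nonneg s.re, sq_nonneg s.im]

theorem KG_lb {h : ℝ} (hh : 0 < h) (hh1 : h ≤ 1) (c : ℝ) : LB (KG h) c (Real.exp (|c| ^ 2) * (2 / h ^ 2)) := by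
  refine ⟨by positivity, (KG_diff h).continuous.comp (vl_cont c), fun τ => ?_⟩
  have := KG_le hh hh1 (c := |c|) (vl c τ) (by simp)
  simpa using this

/-- the kernel is Gaussian -/
theorem KG_inv {h : ℝ} (hh : 0 < h) (c v : ℝ) :
    H313.GK.Inv (KG h) c v = (((Real.sqrt (2 * Real.pi) * h)⁻¹ * Real.exp (-(v ^ 2 / (2 * h ^ 2))) : ℝ) : ℂ) := by
  have hpi := Real.pi_pos
  unfold H313.GK.Inv KG
  have e1 : ∀ τ : ℝ, cexp (((h ^ 2 / 2 : ℝ) : ℂ) * (vl c τ) ^ 2) * cexp (vl c τ * v) =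
      cexp (((-(h ^ 2 / 2) : ℝ) : ℂ) * (τ : ℂ) ^ 2 + (I * ((h ^ 2 * c + v : ℝ) : ℂ)) * τ +
        ((h ^ 2 * c ^ 2 / 2 + c * v : ℝ) : ℂ)) := by
    intro τ
    rw [← Complex.exp_add]
    congr 1
    unfold vl
    have hI : (I : ℂ) ^ 2 = -1 := Complex.I_sq
    push_cast
    linear_combination (((h : ℂ) ^ 2 / 2) * (τ : ℂ) ^ 2) * hI
  simp_rw [e1]
  rw [integral_cexp_quadratic (by rw [Complex.ofReal_re]; have : 0 < h ^ 2 / 2 := by positivity
                                  linarith)]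
  have e2 : ((Real.pi : ℂ) / -((-(h ^ 2 / 2) : ℝ) : ℂ)) ^ (1 / 2 : ℂ) = ((Real.sqrt (2 * Real.pi) / h : ℝ) : ℂ) := by
    have e3 : ((Real.pi : ℂ) / -((-(h ^ 2 / 2) : ℝ) : ℂ)) = ((2 * Real.pi / h ^ 2 : ℝ) : ℂ) := by
      push_cast
      field_simp
    rw [e3, show (1 / 2 : ℂ) = ((1 / 2 : ℝ) : ℂ) by push_cast; ring, ← Complex.ofReal_cpow (by positivity),
      ← Real.sqrt_eq_rpow, Real.sqrt_div (by positivity), Real.sqrt_sq hh.le]
  rw [e2]
  have e4 : ((h ^ 2 * c ^ 2 / 2 + c * v : ℝ) : ℂ) - (I * ((h ^ 2 * c + v : ℝ) : ℂ)) ^ 2 / (4 * ((-(h ^ 2 / 2) : ℝ) : ℂ)) =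
      ((-(v ^ 2 / (2 * h ^ 2)) : ℝ) : ℂ) := by
    have hhc : (h : ℂ) ≠ 0 := by exact_mod_cast hh.ne'
    rw [mul_pow, Complex.I_sq]
    push_cast
    field_simp
    ring
  rw [e4, ← Complex.ofReal_exp, ← Complex.ofReal_mul, ← Complex.ofReal_mul]
  congr 1
  have h5 : Real.sqrt (2 * Real.pi) * Real.sqrt (2 * Real.pi) = 2 * Real.pi := Real.mul_self_sqrt (by positivity)
  have h6 : 0 < Real.sqrt (2 * Real.pi) := Real.sqrt_pos.2 (by positivity)
  have h7 : 1 / (2 * Real.pi) * (Real.sqrt (2 * Real.pi) / h) = (Real.sqrt (2 * Real.pi) * h)⁻¹ := by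
    generalize Real.sqrt (2 * Real.pi) = q at h5 h6
    rw [← h5]
    field_simp
  rw [← mul_assoc, h7]

/-- the standard Gaussian density -/
def gau (w : ℝ) : ℝ := (Real.sqrt (2 * Real.pi))⁻¹ * Real.exp (-(w ^ 2 / 2))

theorem gau_int : ∫ w : ℝ, gau w = 1 := by
  unfold gau
  rw [integral_const_mul]
  have h1 := integral_gaussian (1 / 2)
  have h2 : ∀ w : ℝ, Real.exp (-(w ^ 2 / 2)) = Real.exp (-(1 / 2) * w ^ 2) := fun w => by congr 1; ring
  simp_rw [h2]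
  rw [h1]
  have h3 : Real.pi / (1 / 2) = 2 * Real.pi := by ring
  rw [h3, inv_mul_cancel₀]
  exact (Real.sqrt_pos.2 (by have := Real.pi_pos; positivity)).ne'

theorem gau_dom (a : ℝ) : Integrable (fun w : ℝ => Real.exp (a * |w|) * gau w) := by
  have hpi := Real.pi_pos
  have h1 : Integrable (fun w : ℝ => Real.exp (a ^ 2) * ((Real.sqrt (2 * Real.pi))⁻¹ * Real.exp (-(1 / 4) * w ^ 2))) :=
    ((integrable_exp_neg_mul_sq (by norm_num : (0:ℝ) < 1 / 4)).const_mul _).const_mul _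
  refine h1.mono' ?_ (ae_of_all _ fun w => ?_)
  · refine Continuous.aestronglyMeasurable ?_
    unfold gau
    fun_prop
  · unfold gau
    rw [Real.norm_eq_abs, abs_of_nonneg (by positivity)]
    calc Real.exp (a * |w|) * ((Real.sqrt (2 * Real.pi))⁻¹ * Real.exp (-(w ^ 2 / 2)))
        = (Real.sqrt (2 * Real.pi))⁻¹ * (Real.exp (a * |w|) * Real.exp (-(w ^ 2 / 2))) := by ring
      _ ≤ (Real.sqrt (2 * Real.pi))⁻¹ * (Real.exp (a ^ 2) * Real.exp (-(1 / 4) * w ^ 2)) := by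
          refine mul_le_mul_of_nonneg_left ?_ (by positivity)
          rw [← Real.exp_add, ← Real.exp_add]
          refine Real.exp_le_exp.2 ?_
          have := sq_abs w
          nlinarith [sq_nonneg (a - |w| / 2)]
      _ = _ := by ring

variable {σ c c₁ C1 D : ℝ} {H : ℝ → ℂ} {G : ℂ → ℂ}

/-- smoothed function -/
def Hs (H : ℝ → ℂ) (h t : ℝ) : ℂ := ∫ w : ℝ, H (t - h * w) * ((gau w : ℝ) : ℂ)

theorem H_int (hHm : Measurable H) (hH0 : ∀ u < 0, H u = 0) (hC1 : 0 ≤ C1) (hHb : ∀ u, ‖H u‖ ≤ C1 * Real.exp (c₁ * u))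
    (hc1 : c₁ < c) : Integrable (fun u : ℝ => ‖H u‖ * Real.exp (-(c * u))) := by
  have hdc : 0 < c - c₁ := by linarith
  refine ((int_exp_abs (c - c₁) hdc).const_mul C1).mono' ?_ (ae_of_all _ fun u => ?_)
  · exact (hHm.norm.mul (by fun_prop)).aestronglyMeasurable
  · rw [Real.norm_eq_abs, abs_of_nonneg (by positivity)]
    rcases lt_or_ge u 0 with hu | hu
    · rw [hH0 u hu, norm_zero, zero_mul]
      positivity
    · rw [abs_of_nonneg hu]
      calc ‖H u‖ * Real.exp (-(c * u)) ≤ (C1 * Real.exp (c₁ * u)) * Real.exp (-(c * u)) :=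
            mul_le_mul_of_nonneg_right (hHb u) (Real.exp_pos _).le
        _ = C1 * (Real.exp (c₁ * u) * Real.exp (-(c * u))) := by ring
        _ = C1 * Real.exp (-((c - c₁) * u)) := by
            rw [← Real.exp_add]
            congr 2
            ring

theorem Hs_eq (hHm : Measurable H) (hH0 : ∀ u < 0, H u = 0) (hC1 : 0 ≤ C1) (hHb : ∀ u, ‖H u‖ ≤ C1 * Real.exp (c₁ * u))
    (hc1 : c₁ < c) (hG : ∀ τ : ℝ, ∫ u : ℝ, H u * cexp (-vl c τ * u) = G (vl c τ)) {h : ℝ} (hh : 0 < h) (hh1 : h ≤ 1)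
    (t : ℝ) : Hs H h t = H313.GK.Inv (fun s => KG h s * G s) c t := by
  have hpi := Real.pi_pos
  have h1 := conv (KG_lb hh hh1 c) hHm (H_int hHm hH0 hC1 hHb hc1) t
  rw [show H313.GK.Inv (fun s => KG h s * G s) c t = H313.GK.Inv (fun s => KG h s * ∫ u : ℝ, H u * cexp (-s * u)) c t from
    Inv_congr (fun τ => by rw [hG]) t, ← h1]
  have h2 := integral_sub_left_eq_self (fun u : ℝ => H u * H313.GK.Inv (KG h) c (t - u)) volume t
  rw [← h2]
  have h3 := Measure.integral_comp_mul_left (fun v : ℝ => H (t - v) * H313.GK.Inv (KG h) c (t - (t - v))) h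
  rw [abs_inv, abs_of_pos hh, Complex.real_smul] at h3
  have h4 : ∫ v : ℝ, H (t - v) * H313.GK.Inv (KG h) c (t - (t - v)) =
      (h : ℂ) * ∫ w : ℝ, H (t - h * w) * H313.GK.Inv (KG h) c (t - (t - h * w)) := by
    rw [h3, ← mul_assoc, ← Complex.ofReal_mul, mul_inv_cancel₀ hh.ne', Complex.ofReal_one, one_mul]
  rw [h4, ← integral_const_mul]
  unfold Hs
  refine integral_congr_ae (ae_of_all _ fun w => ?_)
  simp only
  rw [KG_inv hh, mul_left_comm, ← Complex.ofReal_mul]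
  congr 2
  unfold gau
  have h5 : 0 < Real.sqrt (2 * Real.pi) := Real.sqrt_pos.2 (by positivity)
  have h6 : (t - (t - h * w)) ^ 2 / (2 * h ^ 2) = w ^ 2 / 2 := by
    field_simp
    ring
  rw [h6, mul_inv]
  field_simp

theorem plan {Ψ : ℂ → ℂ} {B : ℝ} (hΨ : LB Ψ σ B) :
    Integrable (fun v : ℝ => ‖H313.GK.Inv Ψ σ v‖ ^ 2 * Real.exp (-(2 * σ * v))) ∧
    ∫ v : ℝ, ‖H313.GK.Inv Ψ σ v‖ ^ 2 * Real.exp (-(2 * σ * v)) = (1 / (2 * Real.pi)) * ∫ τ : ℝ, ‖Ψ (vl σ τ)‖ ^ 2 := by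
  have hpi := Real.pi_pos
  have hm2 : MemLp (fun τ : ℝ => Ψ (vl σ τ)) 2 := by
    rw [memLp_two_iff_integrable_sq_norm hΨ.int.aestronglyMeasurable]
    refine (integrable_inv_one_add_sq.const_mul (B ^ 2)).mono' (hΨ.int.aestronglyMeasurable.norm.pow 2)
      (ae_of_all _ fun τ => ?_)
    rw [norm_pow, norm_norm]
    have h1 : (1 + τ ^ 2)⁻¹ ≤ 1 := inv_le_one_of_one_le₀ (by nlinarith [sq_nonneg τ])
    have h2 : 0 < (1 + τ ^ 2)⁻¹ := by positivity
    calc ‖Ψ (vl σ τ)‖ ^ 2 ≤ (B * (1 + τ ^ 2)⁻¹) ^ 2 := pow_le_pow_left₀ (norm_nonneg _) (hΨ.bd τ) 2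
      _ = B ^ 2 * ((1 + τ ^ 2)⁻¹ * (1 + τ ^ 2)⁻¹) := by ring
      _ ≤ B ^ 2 * (1 + τ ^ 2)⁻¹ := mul_le_mul_of_nonneg_left (mul_le_of_le_one_left h2.le h1) (by positivity)
  obtain ⟨h1, h2⟩ := Pool.Agent.Helper625.Planch.plancherel _ hΨ.int hm2
  set f : ℝ → ℝ := fun v => ‖H313.GK.Inv Ψ σ v‖ ^ 2 * Real.exp (-(2 * σ * v)) with hf
  have e1 : ∀ w : ℝ, ‖𝓕 (fun τ : ℝ => Ψ (vl σ τ)) w‖ ^ 2 = (2 * Real.pi) ^ 2 * f (-(2 * Real.pi) * w) := by
    intro w
    have e5 : ‖𝓕 (fun τ : ℝ => Ψ (vl σ τ)) w‖ = (2 * Real.pi) * (‖H313.GK.Inv Ψ σ (-(2 * Real.pi) * w)‖ *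
        Real.exp (-(σ * (-(2 * Real.pi) * w)))) := by
      rw [inv_four hΨ, norm_mul, norm_mul, Complex.norm_real, Real.norm_eq_abs,
        abs_of_pos (by positivity : (0:ℝ) < 2 * Real.pi), Complex.norm_exp]
      rw [← Complex.ofReal_neg, Complex.ofReal_re]
    have e6 : Real.exp (-(σ * (-(2 * Real.pi) * w))) ^ 2 = Real.exp (-(2 * σ * (-(2 * Real.pi) * w))) := by
      rw [← Real.exp_nat_mul]
      congr 1
      push_cast
      ring
    rw [e5]
    simp only [hf]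
    rw [← e6]
    ring
  have hne : -(2 * Real.pi) ≠ 0 := by
    have : (0:ℝ) < 2 * Real.pi := by positivity
    linarith
  have hi1 : Integrable (fun w : ℝ => (2 * Real.pi) ^ 2 * f (-(2 * Real.pi) * w)) := by
    have h3 := (memLp_two_iff_integrable_sq_norm h1.aestronglyMeasurable).mp h1
    exact h3.congr (ae_of_all _ e1)
  have hi2 : Integrable (fun w : ℝ => f (-(2 * Real.pi) * w)) := by
    have := hi1.const_mul ((2 * Real.pi) ^ 2)⁻¹
    refine this.congr (ae_of_all _ fun w => ?_)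
    simp only
    rw [← mul_assoc, inv_mul_cancel₀ (by positivity), one_mul]
  have hi3 : Integrable f := (integrable_comp_mul_left_iff f hne).1 hi2
  refine ⟨hi3, ?_⟩
  rw [integral_congr_ae (ae_of_all _ e1), integral_const_mul, Measure.integral_comp_mul_left f, abs_inv, abs_neg,
    abs_of_pos (by positivity), smul_eq_mul] at h2
  rw [← h2]
  field_simp

/-- **mean bound from the transform to the left** -/
theorem l2_bound (hσ : 0 < σ) (hσc : σ ≤ c) (hc1 : c₁ < c) (hHm : Measurable H) (hH0 : ∀ u < 0, H u = 0)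
    (hC1 : 0 ≤ C1) (hHb : ∀ u, ‖H u‖ ≤ C1 * Real.exp (c₁ * u)) (hHc : ∀ᵐ t : ℝ, ContinuousAt H t) (hD : 0 ≤ D)
    (hGd : ∀ s : ℂ, σ ≤ s.re → s.re ≤ c → DifferentiableAt ℂ G s)
    (hGb : ∀ s : ℂ, σ ≤ s.re → s.re ≤ c → ‖G s‖ ≤ D * (1 + |s.im|) ^ (-(3 / 4) : ℝ))
    (hG : ∀ τ : ℝ, ∫ u : ℝ, H u * cexp (-vl c τ * u) = G (vl c τ)) :
    ∃ C : ℝ, 0 ≤ C ∧ ∀ l L : ℝ, 0 ≤ L → ∫ u in Icc l (l + L), ‖H u‖ ≤ Real.exp (σ * (l + L)) * (C + L) := by
  have hpi := Real.pi_pos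
  have hc0 : 0 < c := by linarith
  -- the constant
  have hGi : Integrable (fun τ : ℝ => D ^ 2 * (1 + ‖τ‖) ^ (-(3 / 2) : ℝ)) :=
    (integrable_one_add_norm (E := ℝ) (μ := volume) (r := 3 / 2) (by simp; norm_num)).const_mul _
  set I0 : ℝ := ∫ τ : ℝ, D ^ 2 * (1 + ‖τ‖) ^ (-(3 / 2) : ℝ) with hI0
  have hI0n : 0 ≤ I0 := integral_nonneg fun τ => by positivity
  set C : ℝ := (1 / (2 * Real.pi)) * (Real.exp (c ^ 2) ^ 2 * I0) with hC
  have hCn : 0 ≤ C := by positivity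
  have hone : ∀ s : ℂ, (1 + |s.im|) ^ (-(3 / 4) : ℝ) ≤ 1 := fun s =>
    Real.rpow_le_one_of_one_le_of_nonpos (by linarith [abs_nonneg s.im]) (by norm_num)
  have hGD : ∀ s : ℂ, σ ≤ s.re → s.re ≤ c → ‖G s‖ ≤ D := fun s h1 h2 =>
    (hGb s h1 h2).trans (mul_le_of_le_one_right hD (hone s))
  -- smoothed functions
  have hsm : ∀ h : ℝ, 0 < h → h ≤ 1 → Continuous (Hs H h) ∧
      ∀ l L : ℝ, 0 ≤ L → ∫ u in Icc l (l + L), ‖Hs H h u‖ ≤ Real.exp (σ * (l + L)) * (C + L) := by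
    intro h hh hh1
    set Ψ : ℂ → ℂ := fun s => KG h s * G s with hΨ
    set B : ℝ := Real.exp (c ^ 2) * (2 / h ^ 2) * D with hB
    have hΨd : ∀ s : ℂ, σ ≤ s.re → s.re ≤ c → DifferentiableAt ℂ Ψ s := fun s h1 h2 =>
      (KG_diff h s).mul (hGd s h1 h2)
    have hre : ∀ s : ℂ, σ ≤ s.re → s.re ≤ c → |s.re| ≤ c := fun s h1 h2 => by
      rw [abs_of_nonneg (by linarith)]; exact h2
    have hΨb : ∀ s : ℂ, σ ≤ s.re → s.re ≤ c → ‖Ψ s‖ ≤ B * (1 + s.im ^ 2)⁻¹ := by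
      intro s h1 h2
      simp only [hΨ]
      rw [norm_mul]
      calc ‖KG h s‖ * ‖G s‖ ≤ (Real.exp (c ^ 2) * (2 / h ^ 2) * (1 + s.im ^ 2)⁻¹) * D :=
            mul_le_mul (KG_le hh hh1 s (hre s h1 h2)) (hGD s h1 h2) (norm_nonneg _) (by positivity)
        _ = _ := by rw [hB]; ring
    have hSB : SB Ψ σ c := ⟨hΨd, B, by positivity, hΨb⟩
    obtain ⟨B1, hlb⟩ := hSB.lb
    have hLσ := hlb σ le_rfl hσc
    have hLc := hlb c hσc le_rfl
    have heq : ∀ t, Hs H h t = H313.GK.Inv Ψ σ t := fun t => by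
      rw [Hs_eq hHm hH0 hC1 hHb hc1 hG hh hh1 t, inv_shift hσc hΨd hΨb t]
    have hfun : Hs H h = H313.GK.Inv Ψ σ := funext heq
    have hcont : Continuous (Hs H h) := by rw [hfun]; exact hLσ.inv_cont
    refine ⟨hcont, fun l L hL => ?_⟩
    obtain ⟨p1, p2⟩ := plan hLσ
    have hsq : ∫ τ : ℝ, ‖Ψ (vl σ τ)‖ ^ 2 ≤ Real.exp (c ^ 2) ^ 2 * I0 := by
      rw [hI0, ← integral_const_mul]
      refine integral_mono_of_nonneg (ae_of_all _ fun τ => by positivity) (hGi.const_mul _) (ae_of_all _ fun τ => ?_)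
      simp only [hΨ]
      rw [norm_mul, mul_pow]
      have h1 := KG_le_one hh hh1 (c := c) (vl σ τ) (hre _ (by simp) (by simpa using hσc))
      have h2 := hGb (vl σ τ) (by simp) (by simpa using hσc)
      rw [vl_im] at h2
      have h3 : ‖G (vl σ τ)‖ ^ 2 ≤ D ^ 2 * (1 + ‖τ‖) ^ (-(3 / 2) : ℝ) := by
        calc ‖G (vl σ τ)‖ ^ 2 ≤ (D * (1 + |τ|) ^ (-(3 / 4) : ℝ)) ^ 2 := pow_le_pow_left₀ (norm_nonneg _) h2 2
          _ = _ := by
              rw [mul_pow, ← Real.rpow_natCast ((1 + |τ|) ^ (-(3 / 4) : ℝ)), ← Real.rpow_mul (by positivity),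
                Real.norm_eq_abs]
              norm_num
      exact mul_le_mul (pow_le_pow_left₀ (norm_nonneg _) h1 2) h3 (by positivity) (by positivity)
    have htot : ∫ v : ℝ, ‖H313.GK.Inv Ψ σ v‖ ^ 2 * Real.exp (-(2 * σ * v)) ≤ C := by
      rw [p2, hC]
      exact mul_le_mul_of_nonneg_left hsq (by positivity)
    set M : ℝ := Real.exp (σ * (l + L)) with hM
    have hM0 : 0 < M := Real.exp_pos _
    have hpt : ∀ u ∈ Icc l (l + L), ‖Hs H h u‖ ≤ M * (‖H313.GK.Inv Ψ σ u‖ ^ 2 * Real.exp (-(2 * σ * u))) + M := by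
      intro u hu
      rw [heq u]
      set x : ℝ := ‖H313.GK.Inv Ψ σ u‖ with hx
      have hx0 : 0 ≤ x := norm_nonneg _
      have h1 : 1 ≤ M ^ 2 * Real.exp (-(2 * σ * u)) := by
        rw [hM, ← Real.exp_nat_mul, ← Real.exp_add]
        refine Real.one_le_exp ?_
        push_cast
        nlinarith [hu.2]
      have h2 : x ≤ x ^ 2 / M + M := by
        rw [div_add' _ _ _ hM0.ne', le_div_iff₀ hM0]
        nlinarith [sq_nonneg (x - M), mul_nonneg hx0 hM0.le]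
      have h3 : x ^ 2 / M ≤ M * (x ^ 2 * Real.exp (-(2 * σ * u))) := by
        rw [div_le_iff₀ hM0]
        have h4 : x ^ 2 * 1 ≤ x ^ 2 * (M ^ 2 * Real.exp (-(2 * σ * u))) := mul_le_mul_of_nonneg_left h1 (by positivity)
        nlinarith
      linarith
    have hi1 : IntegrableOn (fun u => M * (‖H313.GK.Inv Ψ σ u‖ ^ 2 * Real.exp (-(2 * σ * u))) + M) (Icc l (l + L)) :=
      (p1.const_mul M).integrableOn.add (integrableOn_const (by simp))
    calc ∫ u in Icc l (l + L), ‖Hs H h u‖ ≤ ∫ u in Icc l (l + L), (M * (‖H313.GK.Inv Ψ σ u‖ ^ 2 *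
          Real.exp (-(2 * σ * u))) + M) :=
          setIntegral_mono_on hcont.norm.integrableOn_Icc hi1 measurableSet_Icc hpt
      _ = M * (∫ u in Icc l (l + L), ‖H313.GK.Inv Ψ σ u‖ ^ 2 * Real.exp (-(2 * σ * u))) + L * M := by
          rw [integral_add (p1.const_mul M).integrableOn (integrableOn_const (by simp)), integral_const_mul,
            setIntegral_const]
          simp only [measureReal_def, Real.volume_Icc, smul_eq_mul]
          rw [ENNReal.toReal_ofReal (by linarith)]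
          congr 2
          ring
      _ ≤ M * C + L * M := by
          refine add_le_add (mul_le_mul_of_nonneg_left ?_ hM0.le) le_rfl
          refine le_trans (setIntegral_le_integral p1 (ae_of_all _ fun v => ?_)) htot
          show (0:ℝ) ≤ _
          positivity
      _ = _ := by ring
  refine ⟨C, hCn, fun l L hL => ?_⟩
  -- the limit
  set hn : ℕ → ℝ := fun n => 1 / ((n : ℝ) + 1) with hhn
  have hn0 : ∀ n, 0 < hn n := fun n => by simp only [hhn]; positivity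
  have hn1 : ∀ n, hn n ≤ 1 := fun n => by
    simp only [hhn]
    rw [div_le_one (by positivity)]
    linarith [(Nat.cast_nonneg n : (0:ℝ) ≤ n)]
  have hnt : Tendsto hn atTop (𝓝 0) := tendsto_one_div_add_atTop_nhds_zero_nat
  have hdomint := gau_dom |c₁|
  have hbH : ∀ (h t w : ℝ), 0 < h → h ≤ 1 → ‖H (t - h * w) * ((gau w : ℝ) : ℂ)‖ ≤
      C1 * Real.exp (|c₁| * |t|) * (Real.exp (|c₁| * |w|) * gau w) := by
    intro h t w hh hh1
    have hg0 : 0 ≤ gau w := by unfold gau; positivity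
    rw [norm_mul, Complex.norm_real, Real.norm_eq_abs, abs_of_nonneg hg0]
    have h1 : ‖H (t - h * w)‖ ≤ C1 * Real.exp (|c₁| * |t|) * Real.exp (|c₁| * |w|) := by
      refine (hHb _).trans ?_
      rw [mul_assoc, ← Real.exp_add]
      refine mul_le_mul_of_nonneg_left (Real.exp_le_exp.2 ?_) hC1
      calc c₁ * (t - h * w) ≤ |c₁| * |t - h * w| := by rw [← abs_mul]; exact le_abs_self _
        _ ≤ |c₁| * (|t| + |w|) := by
            refine mul_le_mul_of_nonneg_left ?_ (abs_nonneg _)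
            refine (abs_sub _ _).trans (add_le_add le_rfl ?_)
            rw [abs_mul, abs_of_pos hh]
            exact mul_le_of_le_one_left (abs_nonneg _) hh1
        _ = _ := by ring
    calc _ ≤ (C1 * Real.exp (|c₁| * |t|) * Real.exp (|c₁| * |w|)) * gau w := mul_le_mul_of_nonneg_right h1 hg0
      _ = _ := by ring
  have hmeas : ∀ (h t : ℝ), AEStronglyMeasurable (fun w : ℝ => H (t - h * w) * ((gau w : ℝ) : ℂ)) volume := by
    intro h t
    have h1 : Measurable fun w : ℝ => H (t - h * w) := hHm.comp (by fun_prop)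
    have h2 : Measurable fun w : ℝ => ((gau w : ℝ) : ℂ) := by
      unfold gau
      fun_prop
    exact (h1.mul h2).aestronglyMeasurable
  have hlim : ∀ t, ContinuousAt H t → Tendsto (fun n => Hs H (hn n) t) atTop (𝓝 (H t)) := by
    intro t ht
    have e1 : H t = ∫ w : ℝ, H t * ((gau w : ℝ) : ℂ) := by
      rw [integral_const_mul, integral_complex_ofReal, gau_int]
      simp
    rw [e1]
    unfold Hs
    refine tendsto_integral_of_dominated_convergence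
      (fun w => C1 * Real.exp (|c₁| * |t|) * (Real.exp (|c₁| * |w|) * gau w)) (fun n => hmeas _ _)
      (hdomint.const_mul _) (fun n => ae_of_all _ fun w => hbH _ _ _ (hn0 n) (hn1 n)) (ae_of_all _ fun w => ?_)
    refine Tendsto.mul_const _ ?_
    have h2 : Tendsto (fun n => t - hn n * w) atTop (𝓝 t) := by
      have := (hnt.mul_const w).const_sub t
      simpa using this
    exact ht.tendsto.comp h2
  have hI1 : 0 ≤ ∫ w : ℝ, Real.exp (|c₁| * |w|) * gau w := integral_nonneg fun w => by unfold gau; positivity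
  have hbd : ∀ n, ∀ t ∈ Icc l (l + L), ‖‖Hs H (hn n) t‖‖ ≤
      C1 * Real.exp (|c₁| * (|l| + |l + L|)) * ∫ w : ℝ, Real.exp (|c₁| * |w|) * gau w := by
    intro n t ht
    rw [norm_norm]
    unfold Hs
    refine (norm_integral_le_of_norm_le (hdomint.const_mul _) (ae_of_all _ fun w => hbH _ t w (hn0 n) (hn1 n))).trans ?_
    rw [integral_const_mul]
    refine mul_le_mul_of_nonneg_right (mul_le_mul_of_nonneg_left (Real.exp_le_exp.2 ?_) hC1) hI1
    refine mul_le_mul_of_nonneg_left ?_ (abs_nonneg _)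
    rw [abs_le]
    have := neg_abs_le l
    have := le_abs_self (l + L)
    constructor
    · linarith [abs_nonneg (l + L), ht.1]
    · linarith [abs_nonneg l, ht.2]
  have hconv : Tendsto (fun n => ∫ u in Icc l (l + L), ‖Hs H (hn n) u‖) atTop (𝓝 (∫ u in Icc l (l + L), ‖H u‖)) := by
    refine tendsto_integral_of_dominated_convergence
      (fun _ => C1 * Real.exp (|c₁| * (|l| + |l + L|)) * ∫ w : ℝ, Real.exp (|c₁| * |w|) * gau w)
      (fun n => ((hsm _ (hn0 n) (hn1 n)).1.norm).aestronglyMeasurable) (integrableOn_const (by simp)) (fun n => ?_) ?_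
    · exact (ae_restrict_iff' measurableSet_Icc).2 (ae_of_all _ (hbd n))
    · exact (ae_restrict_of_ae hHc).mono fun t ht => (hlim t ht).norm
  exact le_of_tendsto' hconv fun n => (hsm _ (hn0 n) (hn1 n)).2 l L hL

end

end Pool.Agent.H480.G
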