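import Mathlib

/-!
Discrete rigidity: approximate linear recurrences, with coefficients that depend on the place, come from one
recurrence.
-/

open Polynomial Filter Topology Set MeasureTheory

set_option linter.unusedSectionVars false

namespace Pool.Agent.H480.K

noncomputable section

/-- `∑ c_i X^(r-i)` -/
def pc {r : ℕ} (c : Fin (r + 1) → ℂ) : ℂ[X] := ∑ i, C (c i) * X ^ (r - (i : ℕ))

theorem pc_coeff {r : ℕ} (c : Fin (r + 1) → ℂ) (k : ℕ) :
    (pc c).coeff k = ∑ i : Fin (r + 1), if k = r - (i : ℕ) then c i else 0 := by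
  unfold pc
  rw [finsetSum_coeff]
  refine Finset.sum_congr rfl fun i _ => ?_
  rw [coeff_C_mul_X_pow]

theorem pc_coeff_rev {r : ℕ} (c : Fin (r + 1) → ℂ) (i : Fin (r + 1)) : (pc c).coeff (r - (i : ℕ)) = c i := by
  rw [pc_coeff, Finset.sum_eq_single i]
  · rw [if_pos rfl]
  · intro j _ hj
    rw [if_neg]
    intro h
    apply hj
    ext
    have h1 := i.2
    have h2 := j.2
    omega
  · intro h
    exact absurd (Finset.mem_univ _) h

theorem pc_deg {r : ℕ} (c : Fin (r + 1) → ℂ) : (pc c).natDegree ≤ r := by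
  unfold pc
  refine natDegree_sum_le_of_forall_le _ _ fun i _ => ?_
  exact (natDegree_C_mul_X_pow_le _ _).trans (Nat.sub_le _ _)

theorem pc_mahler {r : ℕ} (c : Fin (r + 1) → ℂ) (hc : ∑ i, ‖c i‖ = 1) :
    (((r + 1) * 2 ^ r : ℕ) : ℝ)⁻¹ ≤ (pc c).mahlerMeasure := by
  have h1 : ∀ i : Fin (r + 1), ‖c i‖ ≤ 2 ^ r * (pc c).mahlerMeasure := by
    intro i
    rw [← pc_coeff_rev c i]
    refine (norm_coeff_le_choose_mul_mahlerMeasure _ _).trans ?_
    refine mul_le_mul_of_nonneg_right ?_ (mahlerMeasure_nonneg _)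
    have h2 : (pc c).natDegree.choose (r - (i : ℕ)) ≤ 2 ^ r :=
      (Nat.choose_le_two_pow _ _).trans (Nat.pow_le_pow_right (by norm_num) (pc_deg c))
    exact_mod_cast h2
  have h2 : (1:ℝ) ≤ ((r + 1) * 2 ^ r : ℕ) * (pc c).mahlerMeasure := by
    rw [← hc]
    calc ∑ i, ‖c i‖ ≤ ∑ _i : Fin (r + 1), 2 ^ r * (pc c).mahlerMeasure := Finset.sum_le_sum fun i _ => h1 i
      _ = _ := by
        rw [Finset.sum_const, Finset.card_univ, Fintype.card_fin, nsmul_eq_mul]
        push_cast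
        ring
  have h3 : (0:ℝ) < ((r + 1) * 2 ^ r : ℕ) := by positivity
  rw [inv_eq_one_div, div_le_iff₀ h3]
  linarith

/-- lower bound away from the moduli of the roots -/
theorem pc_low {r : ℕ} (c : Fin (r + 1) → ℂ) (hc : ∑ i, ‖c i‖ = 1) {ρ ρ₂ δ : ℝ} (hδ : 0 < δ) (hδρ : δ ≤ ρ₂)
    (hρ : ρ ≤ ρ₂) (hr : ∀ w ∈ (pc c).roots, δ ≤ |ρ - ‖w‖|) (z : ℂ) (hz : ‖z‖ = ρ) :
    (((r + 1) * 2 ^ r : ℕ) : ℝ)⁻¹ * (δ / (1 + 2 * ρ₂)) ^ r ≤ ‖(pc c).eval z‖ := by
  have hρ2 : 0 < ρ₂ := by linarith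
  have hb0 : 0 < δ / (1 + 2 * ρ₂) := by positivity
  have hb1 : δ / (1 + 2 * ρ₂) ≤ 1 := by
    rw [div_le_one (by positivity)]
    linarith
  have hev := (IsAlgClosed.splits (pc c)).eval_eq_prod_roots z
  have hfac : ∀ w ∈ (pc c).roots, δ / (1 + 2 * ρ₂) * max 1 ‖w‖ ≤ ‖z - w‖ := by
    intro w hw
    have h1 := hr w hw
    have h2 : |ρ - ‖w‖| ≤ ‖z - w‖ := by
      rw [← hz]
      exact abs_norm_sub_norm_le z w
    have hw0 := norm_nonneg w
    rcases le_or_gt ‖w‖ (2 * ρ₂) with h3 | h3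
    · have h4 : max 1 ‖w‖ ≤ 1 + 2 * ρ₂ := max_le (by linarith) (by linarith)
      calc δ / (1 + 2 * ρ₂) * max 1 ‖w‖ ≤ δ / (1 + 2 * ρ₂) * (1 + 2 * ρ₂) :=
            mul_le_mul_of_nonneg_left h4 hb0.le
        _ = δ := by field_simp
        _ ≤ _ := h1.trans h2
    · have h4 : ‖w‖ - ρ ≤ ‖z - w‖ := by
        rw [← hz]
        have := norm_sub_norm_le w z
        rw [norm_sub_rev] at this
        exact this
      have h5 : δ / (1 + 2 * ρ₂) ≤ 1 / 2 := by
        rw [div_le_div_iff₀ (by positivity) (by norm_num)]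
        linarith
      rcases le_total 1 ‖w‖ with h6 | h6
      · rw [max_eq_right h6]
        nlinarith
      · rw [max_eq_left h6, mul_one]
        have : δ / (1 + 2 * ρ₂) ≤ δ := div_le_self hδ.le (by linarith)
        linarith
  have hprod : ∀ s : Multiset ℂ, (∀ w ∈ s, δ / (1 + 2 * ρ₂) * max 1 ‖w‖ ≤ ‖z - w‖) →
      (δ / (1 + 2 * ρ₂)) ^ (Multiset.card s) * (s.map fun a => max 1 ‖a‖).prod ≤ ‖(s.map fun x => z - x).prod‖ := by
    intro s
    induction s using Multiset.induction_on with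
    | empty => intro _; simp
    | cons a s ih =>
      intro hs
      rw [Multiset.card_cons, Multiset.map_cons, Multiset.map_cons, Multiset.prod_cons, Multiset.prod_cons, norm_mul,
        pow_succ]
      have h1 := hs a (Multiset.mem_cons_self a s)
      have h2 := ih fun w hw => hs w (Multiset.mem_cons_of_mem hw)
      have hnn : ∀ t : Multiset ℂ, 0 ≤ (t.map fun a => max 1 ‖a‖).prod := by
        intro t
        refine Multiset.prod_nonneg fun x hx => ?_
        obtain ⟨y, _, rfl⟩ := Multiset.mem_map.1 hx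
        exact le_trans zero_le_one (le_max_left _ _)
      calc (δ / (1 + 2 * ρ₂)) ^ (Multiset.card s) * (δ / (1 + 2 * ρ₂)) * (max 1 ‖a‖ * (s.map fun a => max 1 ‖a‖).prod)
          = (δ / (1 + 2 * ρ₂) * max 1 ‖a‖) * ((δ / (1 + 2 * ρ₂)) ^ (Multiset.card s) * (s.map fun a => max 1 ‖a‖).prod) := by
            ring
        _ ≤ _ := mul_le_mul h1 h2 (mul_nonneg (by positivity) (hnn s)) (norm_nonneg _)
  have h1 := hprod _ hfac
  have h2 := pc_mahler c hc
  rw [mahlerMeasure_eq_leadingCoeff_mul_prod_roots] at h2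
  have hcard : Multiset.card (pc c).roots ≤ r := (card_roots' _).trans (pc_deg c)
  have h3 : (δ / (1 + 2 * ρ₂)) ^ r ≤ (δ / (1 + 2 * ρ₂)) ^ (Multiset.card (pc c).roots) :=
    pow_le_pow_of_le_one hb0.le hb1 hcard
  rw [hev, norm_mul]
  calc (((r + 1) * 2 ^ r : ℕ) : ℝ)⁻¹ * (δ / (1 + 2 * ρ₂)) ^ r
      ≤ (‖(pc c).leadingCoeff‖ * ((pc c).roots.map fun a => max 1 ‖a‖).prod) *
          (δ / (1 + 2 * ρ₂)) ^ (Multiset.card (pc c).roots) := mul_le_mul h2 h3 (by positivity)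
            ((by positivity : (0:ℝ) ≤ (((r + 1) * 2 ^ r : ℕ) : ℝ)⁻¹).trans h2)
    _ = ‖(pc c).leadingCoeff‖ * ((δ / (1 + 2 * ρ₂)) ^ (Multiset.card (pc c).roots) *
          ((pc c).roots.map fun a => max 1 ‖a‖).prod) := by ring
    _ ≤ _ := mul_le_mul_of_nonneg_left h1 (norm_nonneg _)

/-- a good radius -/
theorem good_radius {r : ℕ} (c : ℕ → Fin (r + 1) → ℂ) {ρ₁ ρ₂ : ℝ} (hρ : ρ₁ < ρ₂) {D lam : ℝ} (hD : 0 < D)
    (hlam : 0 < lam) (hlam1 : lam < 1) (hDs : 2 * r * (D * (1 - lam)⁻¹) < ρ₂ - ρ₁) :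
    ∃ ρ ∈ Icc ρ₁ ρ₂, ∀ n, ∀ w ∈ (pc (c n)).roots, D * lam ^ n ≤ |ρ - ‖w‖| := by
  classical
  set E : ℕ → Set ℝ := fun n => ⋃ w ∈ (pc (c n)).roots.toFinset, Metric.ball ‖w‖ (D * lam ^ n) with hE
  have hEm : ∀ n, volume (E n) ≤ ENNReal.ofReal (2 * r * (D * lam ^ n)) := by
    intro n
    refine (measure_biUnion_finset_le _ _).trans ?_
    simp_rw [Real.volume_ball]
    rw [Finset.sum_const, nsmul_eq_mul]
    have h1 : ((pc (c n)).roots.toFinset.card : ENNReal) ≤ ENNReal.ofReal r := by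
      rw [ENNReal.ofReal_natCast]
      exact_mod_cast (Multiset.toFinset_card_le _).trans ((card_roots' _).trans (pc_deg _))
    refine (mul_le_mul_left h1 _).trans ?_
    rw [← ENNReal.ofReal_mul (by positivity)]
    refine ENNReal.ofReal_le_ofReal ?_
    ring_nf
    exact le_rfl
  have hsum : ∑' n, ENNReal.ofReal (2 * r * (D * lam ^ n)) = ENNReal.ofReal (2 * r * (D * (1 - lam)⁻¹)) := by
    rw [← ENNReal.ofReal_tsum_of_nonneg (fun n => by positivity)]
    · congr 1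
      rw [tsum_mul_left, tsum_mul_left, tsum_geometric_of_lt_one hlam.le hlam1]
    · exact ((summable_geometric_of_lt_one hlam.le hlam1).mul_left _).mul_left _
  have hU : volume (⋃ n, E n) < volume (Icc ρ₁ ρ₂) := by
    refine (measure_iUnion_le _).trans_lt ?_
    refine (ENNReal.tsum_le_tsum hEm).trans_lt ?_
    rw [hsum, Real.volume_Icc]
    exact (ENNReal.ofReal_lt_ofReal_iff (by linarith)).2 hDs
  have hex : ∃ ρ ∈ Icc ρ₁ ρ₂, ρ ∉ ⋃ n, E n := by
    by_contra hcon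
    push Not at hcon
    exact absurd (measure_mono (fun x hx => hcon x hx)) (not_le.2 hU)
  obtain ⟨ρ, h1, h2⟩ := hex
  refine ⟨ρ, h1, fun n w hw => ?_⟩
  by_contra h3
  push Not at h3
  apply h2
  refine mem_iUnion.2 ⟨n, ?_⟩
  simp only [hE, mem_iUnion]
  refine ⟨w, by rw [Multiset.mem_toFinset]; exact hw, ?_⟩
  rw [Metric.mem_ball, Real.dist_eq]
  exact h3

theorem iter_deriv (T : ℂ[X]) (k : ℕ) : iteratedDeriv k (fun z => T.eval z) 0 = k.factorial * T.coeff k := by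
  have h : ∀ k : ℕ, iteratedDeriv k (fun z => T.eval z) = fun z => (derivative^[k] T).eval z := by
    intro k
    induction k with
    | zero => simp
    | succ k ih =>
      rw [iteratedDeriv_succ, ih]
      funext z
      rw [Polynomial.deriv, Function.iterate_succ_apply']
  rw [h]
  simp only
  rw [← coeff_zero_eq_eval_zero, coeff_iterate_derivative, zero_add, nsmul_eq_mul, Nat.descFactorial_self]

theorem coeff_le (T : ℂ[X]) {ρ M : ℝ} (hρ : 0 < ρ) (hM : ∀ z : ℂ, ‖z‖ = ρ → ‖T.eval z‖ ≤ M) (k : ℕ) :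
    ‖T.coeff k‖ ≤ M / ρ ^ k := by
  have h1 := Complex.norm_iteratedDeriv_le_of_forall_mem_sphere_norm_le (f := fun z => T.eval z) (c := 0) (R := ρ) (C := M)
    k hρ (T.differentiable.diffContOnCl) (fun z hz => hM z (by simpa using hz))
  rw [iter_deriv, norm_mul] at h1
  have hk : (0:ℝ) < k.factorial := by exact_mod_cast Nat.factorial_pos k
  have h2 : ‖((k.factorial : ℕ) : ℂ)‖ = k.factorial := by simp
  rw [h2, mul_div_assoc] at h1
  exact le_of_mul_le_mul_left h1 hk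

end

end Pool.Agent.H480.K
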