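import Pool.Agent.H480.K9

/-!
Bounds for the moments of zeta and the Lindelöf hypothesis.
-/

open Complex MeasureTheory Filter Topology Set

set_option linter.unusedSectionVars false

namespace Pool.Agent.H480.K

open Pool.Agent.Y853.PZ (strip Small Lindelof small_of_lindelof lindelof_of_small zeta_two_bd)

noncomputable section

/-- the mean value of `|ζ(1/2 + it)| ^ (2k)` over `[0, T]` -/
def mom (k : ℕ) (T : ℝ) : ℝ := T⁻¹ * ∫ t in (0:ℝ)..T, ‖riemannZeta (1 / 2 + t * I)‖ ^ (2 * k)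

theorem half_ne (u : ℝ) : (1 / 2 + (u:ℂ) * I) ≠ 1 := by
  intro h
  have := congrArg Complex.re h
  norm_num at this

theorem half_cont : Continuous fun t : ℝ => ‖riemannZeta (1 / 2 + t * I)‖ := by
  refine continuous_norm.comp ?_
  rw [continuous_iff_continuousAt]
  intro t
  have h2 := (differentiableAt_riemannZeta (half_ne t)).continuousAt
  have h3 : ContinuousAt (fun t : ℝ => (1 / 2 + (t:ℂ) * I)) t := by fun_prop
  exact ContinuousAt.comp (g := riemannZeta) h2 h3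

theorem half_hasDeriv (u : ℝ) : HasDerivAt (fun t : ℝ => riemannZeta (1 / 2 + (t:ℂ) * I))
    (deriv riemannZeta (1 / 2 + u * I) * I) u := by
  have h1 := (differentiableAt_riemannZeta (half_ne u)).hasDerivAt
  have h2 : HasDerivAt (fun t : ℝ => (1 / 2 + (t:ℂ) * I)) I u := by
    have h3 : HasDerivAt (fun t : ℝ => (t:ℂ)) 1 u := Complex.ofRealCLM.hasDerivAt
    simpa using (h3.mul_const I).const_add (1 / 2 : ℂ)
  exact HasDerivAt.comp u h1 h2

theorem deriv_bd {T u : ℝ} (hT : 0 ≤ T) (h1 : T ≤ u) (h2 : u ≤ T + 1) :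
    ‖deriv riemannZeta (1 / 2 + u * I)‖ ≤ 36 * (T + 3) := by
  have hb : ∀ z : ℂ, ‖z - (1 / 2 + u * I)‖ ≤ 1 / 4 → 1 / 4 ≤ z.re ∧ z.re ≤ 3 / 4 ∧ |z.im| ≤ T + 2 := by
    intro z hz
    have h3 := (Complex.abs_re_le_norm (z - (1 / 2 + u * I))).trans hz
    have h4 := (Complex.abs_im_le_norm (z - (1 / 2 + u * I))).trans hz
    rw [Complex.sub_re] at h3
    rw [Complex.sub_im] at h4
    norm_num at h3 h4
    rw [abs_le] at h3 h4
    refine ⟨by linarith, by linarith, ?_⟩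
    rw [abs_le]
    constructor <;> linarith
  have hne : ∀ z : ℂ, ‖z - (1 / 2 + u * I)‖ ≤ 1 / 4 → z ≠ 1 := by
    rintro z hz rfl
    have := (hb 1 hz).2.1
    norm_num at this
  have h5 : ‖deriv riemannZeta (1 / 2 + u * I)‖ ≤ (9 * (T + 3)) / (1 / 4) := by
    refine Complex.norm_deriv_le_of_forall_mem_sphere_norm_le (by norm_num) ?_ ?_
    · refine DifferentiableOn.diffContOnCl ?_
      intro z hz
      have hz' : z ∈ Metric.closedBall (1 / 2 + u * I : ℂ) (1 / 4) := Metric.closure_ball_subset_closedBall hz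
      rw [Metric.mem_closedBall, dist_eq_norm] at hz'
      exact (differentiableAt_riemannZeta (hne z hz')).differentiableWithinAt
    · intro z hz
      rw [mem_sphere_iff_norm] at hz
      obtain ⟨h6, h7, h8⟩ := hb z hz.le
      refine (H388LH.zeta_growth' h6 h7).trans ?_
      nlinarith
  refine h5.trans (le_of_eq ?_)
  ring

theorem half_lip {T t : ℝ} (hT : 0 ≤ T) (h1 : T ≤ t) (h2 : t ≤ T + 1) :
    ‖riemannZeta (1 / 2 + t * I) - riemannZeta (1 / 2 + T * I)‖ ≤ 36 * (T + 3) * (t - T) := by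
  have h3 := Convex.norm_image_sub_le_of_norm_hasDerivWithin_le (s := Icc T (T + 1))
    (f := fun t : ℝ => riemannZeta (1 / 2 + (t:ℂ) * I)) (f' := fun u : ℝ => deriv riemannZeta (1 / 2 + u * I) * I)
    (C := 36 * (T + 3)) (x := T) (y := t)
    (fun u _ => (half_hasDeriv u).hasDerivWithinAt) (fun u hu => by
      rw [norm_mul, Complex.norm_I, mul_one]
      exact deriv_bd hT hu.1 hu.2) (convex_Icc _ _) ⟨le_rfl, by linarith⟩ ⟨h1, h2⟩
  rwa [Real.norm_of_nonneg (by linarith : 0 ≤ t - T)] at h3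

theorem int_ii (k : ℕ) (a b : ℝ) : IntervalIntegrable (fun t : ℝ => ‖riemannZeta (1 / 2 + t * I)‖ ^ (2 * k)) volume a b :=
  (half_cont.pow _).intervalIntegrable _ _

/-- one large value makes the moments large -/
theorem value_le (k : ℕ) {T B : ℝ} (hT : 0 ≤ T)
    (hB : ∫ t in (0:ℝ)..(T + 1), ‖riemannZeta (1 / 2 + t * I)‖ ^ (2 * k) ≤ B) :
    (‖riemannZeta (1 / 2 + T * I)‖ / 2) ^ (2 * k + 1) ≤ 36 * (T + 3) * B := by
  set v : ℝ := ‖riemannZeta (1 / 2 + T * I)‖ with hv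
  have hv0 : 0 ≤ v := norm_nonneg _
  have hL : 0 < 36 * (T + 3) := by positivity
  set δ : ℝ := v / 2 / (36 * (T + 3)) with hδ
  have hδ0 : 0 ≤ δ := by positivity
  have hδ1 : δ ≤ 1 := by
    rw [hδ, div_le_one hL]
    have h1 : v ≤ 9 * (1 + T) := by
      have h2 := H388LH.zeta_growth' (s := 1 / 2 + T * I) (by norm_num) (by norm_num)
      have h3 : (1 / 2 + (T:ℂ) * I).im = T := by simp
      rw [h3, abs_of_nonneg hT] at h2
      exact h2
    linarith
  have h1 : δ * (v / 2) ^ (2 * k) ≤ ∫ t in T..(T + δ), ‖riemannZeta (1 / 2 + t * I)‖ ^ (2 * k) := by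
    have h2 : ∫ t in T..(T + δ), (v / 2) ^ (2 * k) = δ * (v / 2) ^ (2 * k) := by
      rw [intervalIntegral.integral_const, smul_eq_mul]
      ring
    rw [← h2]
    refine intervalIntegral.integral_mono_on (by linarith) intervalIntegrable_const (int_ii k _ _) ?_
    intro t ht
    refine pow_le_pow_left₀ (by positivity) ?_ _
    have h3 := half_lip hT ht.1 (by linarith [ht.2])
    have h4 : 36 * (T + 3) * (t - T) ≤ v / 2 := by
      calc 36 * (T + 3) * (t - T) ≤ 36 * (T + 3) * δ := mul_le_mul_of_nonneg_left (by linarith [ht.2]) hL.le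
        _ = v / 2 := by rw [hδ]; field_simp
    have h5 := norm_sub_norm_le (riemannZeta (1 / 2 + T * I)) (riemannZeta (1 / 2 + t * I))
    rw [norm_sub_rev] at h5
    linarith
  have h2 : ∫ t in T..(T + δ), ‖riemannZeta (1 / 2 + t * I)‖ ^ (2 * k) ≤
      ∫ t in (0:ℝ)..(T + 1), ‖riemannZeta (1 / 2 + t * I)‖ ^ (2 * k) := by
    refine intervalIntegral.integral_mono_interval hT (by linarith) (by linarith) ?_ (int_ii k _ _)
    exact ae_of_all _ fun t => by positivity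
  have h3 := (h1.trans h2).trans hB
  calc (v / 2) ^ (2 * k + 1) = 36 * (T + 3) * (δ * (v / 2) ^ (2 * k)) := by
        rw [hδ, pow_succ]
        field_simp
    _ ≤ 36 * (T + 3) * B := mul_le_mul_of_nonneg_left h3 hL.le

/-- **bounds for the moments of arbitrarily high order give the Lindelöf hypothesis** -/
theorem lindelof_of_mom (H : ∀ k₀ : ℕ, ∃ k ≥ k₀, ∃ C : ℝ, ∀ᶠ T : ℝ in atTop, mom k T ≤ C * T) : Lindelof := by
  intro ε hε
  obtain ⟨k₀, hk₀⟩ := exists_nat_gt (3 / ε)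
  obtain ⟨k, hk, C, hC⟩ := H (k₀ + 1)
  have hk1 : 3 / ε < k := by
    have : (k₀ : ℝ) ≤ k := by
      have : k₀ ≤ k := by omega
      exact_mod_cast this
    linarith
  obtain ⟨T₀, hT₀⟩ := eventually_atTop.1 hC
  set T₁ : ℝ := max T₀ 1 with hT₁
  set C₁ : ℝ := max C 1 with hC₁
  have hC1 : 1 ≤ C₁ := le_max_right _ _
  -- large heights
  set p : ℝ := ((2 * k + 1 : ℕ) : ℝ)⁻¹ with hp
  have hn0 : (0:ℝ) < ((2 * k + 1 : ℕ) : ℝ) := by positivity
  have hp0 : 0 < p := by positivity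
  have hpε : 3 * p ≤ ε := by
    rw [hp, ← div_eq_mul_inv, div_le_iff₀ hn0]
    rw [div_lt_iff₀ hε] at hk1
    push_cast
    nlinarith
  have hlarge : ∀ T : ℝ, T₁ ≤ T → ‖riemannZeta (1 / 2 + T * I)‖ ≤ 2 * (108 * C₁) ^ p * 3 ^ ε * (1 + T) ^ ε := by
    intro T hT
    have hT1 : 1 ≤ T := (le_max_right _ _).trans hT
    have h1 : mom k (T + 1) ≤ C₁ * (T + 1) := by
      refine (hT₀ (T + 1) (by linarith [le_max_left T₀ 1])).trans ?_
      exact mul_le_mul_of_nonneg_right (le_max_left _ _) (by linarith)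
    have h2 : ∫ t in (0:ℝ)..(T + 1), ‖riemannZeta (1 / 2 + t * I)‖ ^ (2 * k) ≤ C₁ * (T + 1) ^ 2 := by
      unfold mom at h1
      rw [inv_mul_le_iff₀ (by linarith)] at h1
      refine h1.trans (le_of_eq ?_)
      ring
    have h3 := value_le k (by linarith : 0 ≤ T) h2
    have h4 : 36 * (T + 3) * (C₁ * (T + 1) ^ 2) ≤ 108 * C₁ * (T + 1) ^ 3 := by
      have h5 : T + 3 ≤ 3 * (T + 1) := by linarith
      calc 36 * (T + 3) * (C₁ * (T + 1) ^ 2) ≤ 36 * (3 * (T + 1)) * (C₁ * (T + 1) ^ 2) := by gcongr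
        _ = _ := by ring
    have h5 := h3.trans h4
    have h6 : ‖riemannZeta (1 / 2 + T * I)‖ / 2 ≤ (108 * C₁ * (T + 1) ^ 3) ^ p := by
      have h7 : ‖riemannZeta (1 / 2 + T * I)‖ / 2 = ((‖riemannZeta (1 / 2 + T * I)‖ / 2) ^ (2 * k + 1)) ^ p := by
        rw [hp, Real.pow_rpow_inv_natCast (by positivity) (Nat.succ_ne_zero _)]
      rw [h7]
      exact Real.rpow_le_rpow (by positivity) h5 hp0.le
    have h7 : (108 * C₁ * (T + 1) ^ 3) ^ p ≤ (108 * C₁) ^ p * (1 + T) ^ ε := by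
      rw [Real.mul_rpow (by positivity) (by positivity)]
      refine mul_le_mul_of_nonneg_left ?_ (by positivity)
      rw [← Real.rpow_natCast (T + 1) 3, ← Real.rpow_mul (by linarith), add_comm T 1]
      refine Real.rpow_le_rpow_of_exponent_le (by linarith) ?_
      push_cast
      exact hpε
    have h8 : 1 ≤ (3:ℝ) ^ ε := Real.one_le_rpow (by norm_num) hε.le
    have h9 : 0 ≤ 2 * (108 * C₁) ^ p * (1 + T) ^ ε := by positivity
    calc ‖riemannZeta (1 / 2 + T * I)‖ ≤ 2 * (108 * C₁) ^ p * (1 + T) ^ ε := by linarith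
      _ ≤ 2 * (108 * C₁) ^ p * (1 + T) ^ ε * 3 ^ ε := by nlinarith
      _ = _ := by ring
  -- small heights
  set D : ℝ := max (2 * (108 * C₁) ^ p * 3 ^ ε) (9 * (1 + T₁)) with hD
  have hD0 : 0 ≤ D := le_max_of_le_left (by positivity)
  have hpos : ∀ T : ℝ, 0 ≤ T → ‖riemannZeta (1 / 2 + T * I)‖ ≤ D * (1 + T) ^ ε := by
    intro T hT
    have h0 : 0 ≤ (1 + T) ^ ε := by positivity
    rcases le_total T₁ T with h1 | h1
    · exact (hlarge T h1).trans (mul_le_mul_of_nonneg_right (le_max_left _ _) h0)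
    · have h2 := H388LH.zeta_growth' (s := 1 / 2 + T * I) (by norm_num) (by norm_num)
      have h3 : (1 / 2 + (T:ℂ) * I).im = T := by simp
      rw [h3, abs_of_nonneg hT] at h2
      have h4 : 1 ≤ (1 + T) ^ ε := Real.one_le_rpow (by linarith) hε.le
      calc ‖riemannZeta (1 / 2 + T * I)‖ ≤ 9 * (1 + T) := h2
        _ ≤ D := (by linarith : 9 * (1 + T) ≤ 9 * (1 + T₁)).trans (le_max_right _ _)
        _ ≤ D * (1 + T) ^ ε := by nlinarith
  refine ⟨D, fun t => ?_⟩
  rcases le_total 0 t with ht | ht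
  · rw [abs_of_nonneg ht]
    exact hpos t ht
  · have h1 := hpos (-t) (by linarith)
    rw [abs_of_nonpos ht]
    have h2 : (1 / 2 + ((-t : ℝ) : ℂ) * I) = starRingEnd ℂ (1 / 2 + (t:ℂ) * I) := by
      simp only [map_add, map_mul, map_div₀, map_one, map_ofNat, Complex.conj_ofReal, Complex.conj_I]
      push_cast
      ring
    rw [h2, riemannZeta_conj, RCLike.norm_conj] at h1
    exact h1

/-- the converse -/
theorem mom_of_lindelof (h : Lindelof) (k : ℕ) {ε : ℝ} (hε : 0 < ε) : ∃ C : ℝ, ∀ T : ℝ, 1 ≤ T → mom k T ≤ C * T ^ ε := by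
  obtain ⟨C, hC⟩ := h (ε / (2 * k + 1)) (by positivity)
  have hC0 : 0 ≤ C := by
    have h1 := (norm_nonneg _).trans (hC 0)
    have h2 : (0 : ℝ) < (1 + |(0 : ℝ)|) ^ (ε / (2 * k + 1)) := by positivity
    nlinarith
  refine ⟨C ^ (2 * k) * 2 ^ ε, fun T hT => ?_⟩
  have hT0 : 0 < T := by linarith
  unfold mom
  rw [inv_mul_le_iff₀ hT0]
  have h1 : ∀ t ∈ Icc 0 T, ‖riemannZeta (1 / 2 + t * I)‖ ^ (2 * k) ≤ C ^ (2 * k) * 2 ^ ε * T ^ ε := by
    intro t ht
    have h2 := hC t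
    rw [abs_of_nonneg ht.1] at h2
    have ht1 : 0 ≤ 1 + t := by linarith [ht.1]
    calc ‖riemannZeta (1 / 2 + t * I)‖ ^ (2 * k) ≤ (C * (1 + t) ^ (ε / (2 * k + 1))) ^ (2 * k) :=
          pow_le_pow_left₀ (norm_nonneg _) h2 _
      _ = C ^ (2 * k) * (1 + t) ^ (ε / (2 * k + 1) * (2 * k : ℕ)) := by
          rw [mul_pow, ← Real.rpow_natCast ((1 + t) ^ (ε / (2 * k + 1))), ← Real.rpow_mul ht1]
      _ ≤ C ^ (2 * k) * (2 * T) ^ ε := by
          refine mul_le_mul_of_nonneg_left ?_ (by positivity)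
          have h3 : ε / (2 * k + 1) * (2 * k : ℕ) ≤ ε := by
            rw [div_mul_eq_mul_div, div_le_iff₀ (by positivity)]
            push_cast
            nlinarith
          calc (1 + t) ^ (ε / (2 * k + 1) * (2 * k : ℕ)) ≤ (1 + t) ^ ε :=
                Real.rpow_le_rpow_of_exponent_le (by linarith [ht.1]) h3
            _ ≤ (2 * T) ^ ε := Real.rpow_le_rpow ht1 (by linarith [ht.2]) hε.le
      _ = _ := by rw [Real.mul_rpow (by norm_num) hT0.le]; ring
  calc ∫ t in (0:ℝ)..T, ‖riemannZeta (1 / 2 + t * I)‖ ^ (2 * k) ≤ ∫ t in (0:ℝ)..T, C ^ (2 * k) * 2 ^ ε * T ^ ε :=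
        intervalIntegral.integral_mono_on hT0.le (int_ii k _ _) intervalIntegrable_const h1
    _ = _ := by rw [intervalIntegral.integral_const, smul_eq_mul, sub_zero]

end

end Pool.Agent.H480.K
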