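import Pool.Agent.H480.K1

/-!
Discrete rigidity: approximate linear recurrences, with coefficients that depend on the place, come from one
recurrence.
-/

open Polynomial Filter Topology Set MeasureTheory
open scoped PowerSeries

set_option linter.unusedSectionVars false

namespace Pool.Agent.H480.K

noncomputable section

variable {r : ℕ}

/-- coefficients of `(∑ c_i X^(r-i)) (∑ b_n X^n)` -/
def ec (c : Fin (r + 1) → ℂ) (b : ℕ → ℂ) (k : ℕ) : ℂ :=
  ∑ x ∈ Finset.HasAntidiagonal.antidiagonal k, (pc c).coeff x.1 * b x.2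

theorem ec_ps (c : Fin (r + 1) → ℂ) (b : ℕ → ℂ) (k : ℕ) :
    ec c b k = PowerSeries.coeff k ((pc c : ℂ⟦X⟧) * PowerSeries.mk b) := by
  rw [PowerSeries.coeff_mul]
  unfold ec
  simp

theorem ec_rec (c : Fin (r + 1) → ℂ) (b : ℕ → ℂ) (m : ℕ) : ec c b (m + r) = ∑ i, c i * b (m + i) := by
  unfold ec
  simp_rw [pc_coeff, Finset.sum_mul]
  rw [Finset.sum_comm]
  refine Finset.sum_congr rfl fun i _ => ?_
  have hi := i.2
  rw [Finset.sum_eq_single (r - (i : ℕ), m + (i : ℕ))]
  · simp
  · rintro ⟨p, q⟩ hx hne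
    rw [Finset.HasAntidiagonal.mem_antidiagonal] at hx
    simp only at hx ⊢
    rw [if_neg, zero_mul]
    intro h
    apply hne
    rw [h] at hx ⊢
    congr 1
    omega
  · intro h
    exfalso
    apply h
    rw [Finset.HasAntidiagonal.mem_antidiagonal]
    simp only
    omega

/-- truncation -/
def Tn (c : Fin (r + 1) → ℂ) (b : ℕ → ℂ) (n : ℕ) : ℂ[X] := ∑ k ∈ Finset.range (n + r), C (ec c b k) * X ^ k

theorem Tn_coeff (c : Fin (r + 1) → ℂ) (b : ℕ → ℂ) (n k : ℕ) :
    (Tn c b n).coeff k = if k < n + r then ec c b k else 0 := by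
  unfold Tn
  rw [finsetSum_coeff]
  simp_rw [coeff_C_mul_X_pow]
  rw [Finset.sum_ite_eq (Finset.range (n + r)) k]
  simp

theorem Tn_deg (c : Fin (r + 1) → ℂ) (b : ℕ → ℂ) (n : ℕ) : (Tn c b n).natDegree ≤ n + r := by
  unfold Tn
  refine natDegree_sum_le_of_forall_le _ _ fun k hk => ?_
  exact (natDegree_C_mul_X_pow_le _ _).trans (Finset.mem_range.1 hk).le

/-- the cross difference -/
def Nn (c c' : Fin (r + 1) → ℂ) (b : ℕ → ℂ) (n : ℕ) : ℂ[X] := Tn c' b (n + 1) * pc c - Tn c b n * pc c'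

theorem Nn_coeff (c c' : Fin (r + 1) → ℂ) (b : ℕ → ℂ) (n k : ℕ) :
    (Nn c c' b n).coeff k =
      (∑ x ∈ Finset.HasAntidiagonal.antidiagonal k, (if x.1 < n + r then 0 else ec c b x.1) * (pc c').coeff x.2) -
      ∑ x ∈ Finset.HasAntidiagonal.antidiagonal k, (if x.1 < n + 1 + r then 0 else ec c' b x.1) * (pc c).coeff x.2 := by
  have hfull : ∑ x ∈ Finset.HasAntidiagonal.antidiagonal k, ec c' b x.1 * (pc c).coeff x.2 =
      ∑ x ∈ Finset.HasAntidiagonal.antidiagonal k, ec c b x.1 * (pc c').coeff x.2 := by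
    have h1 : ∑ x ∈ Finset.HasAntidiagonal.antidiagonal k, ec c' b x.1 * (pc c).coeff x.2 =
        PowerSeries.coeff k (((pc c' : ℂ⟦X⟧) * PowerSeries.mk b) * (pc c : ℂ⟦X⟧)) := by
      rw [PowerSeries.coeff_mul]
      refine Finset.sum_congr rfl fun x _ => ?_
      rw [ec_ps, Polynomial.coeff_coe]
    have h2 : ∑ x ∈ Finset.HasAntidiagonal.antidiagonal k, ec c b x.1 * (pc c').coeff x.2 =
        PowerSeries.coeff k (((pc c : ℂ⟦X⟧) * PowerSeries.mk b) * (pc c' : ℂ⟦X⟧)) := by
      rw [PowerSeries.coeff_mul]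
      refine Finset.sum_congr rfl fun x _ => ?_
      rw [ec_ps, Polynomial.coeff_coe]
    rw [h1, h2]
    congr 1
    ring
  unfold Nn
  rw [coeff_sub, coeff_mul, coeff_mul]
  simp_rw [Tn_coeff]
  have e1 : ∀ x ∈ Finset.HasAntidiagonal.antidiagonal k, (if x.1 < n + 1 + r then ec c' b x.1 else 0) * (pc c).coeff x.2 =
      ec c' b x.1 * (pc c).coeff x.2 - (if x.1 < n + 1 + r then 0 else ec c' b x.1) * (pc c).coeff x.2 := by
    intro x _
    split_ifs <;> ring
  have e2 : ∀ x ∈ Finset.HasAntidiagonal.antidiagonal k, (if x.1 < n + r then ec c b x.1 else 0) * (pc c').coeff x.2 =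
      ec c b x.1 * (pc c').coeff x.2 - (if x.1 < n + r then 0 else ec c b x.1) * (pc c').coeff x.2 := by
    intro x _
    split_ifs <;> ring
  rw [Finset.sum_congr rfl e1, Finset.sum_congr rfl e2, Finset.sum_sub_distrib, Finset.sum_sub_distrib, hfull]
  ring

theorem pc_l1 (c : Fin (r + 1) → ℂ) (S : Finset ℕ) : ∑ j ∈ S, ‖(pc c).coeff j‖ ≤ ∑ i, ‖c i‖ := by
  calc ∑ j ∈ S, ‖(pc c).coeff j‖ ≤ ∑ j ∈ S, ∑ i : Fin (r + 1), (if j = r - (i : ℕ) then ‖c i‖ else 0) := by
        refine Finset.sum_le_sum fun j _ => ?_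
        rw [pc_coeff]
        refine (norm_sum_le _ _).trans (Finset.sum_le_sum fun i _ => ?_)
        split_ifs <;> simp
    _ = ∑ i : Fin (r + 1), ∑ j ∈ S, (if j = r - (i : ℕ) then ‖c i‖ else 0) := Finset.sum_comm
    _ ≤ ∑ i, ‖c i‖ := by
        refine Finset.sum_le_sum fun i _ => ?_
        rw [Finset.sum_ite_eq']
        split_ifs
        · exact le_rfl
        · exact norm_nonneg _

theorem anti_bound {f : ℕ → ℂ} {g : ℕ → ℂ} {e : ℝ} (he : 0 ≤ e) {k : ℕ} (hf : ∀ i, i ≤ k → ‖f i‖ ≤ e)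
    (hg : ∀ S : Finset ℕ, ∑ j ∈ S, ‖g j‖ ≤ 1) : ‖∑ x ∈ Finset.HasAntidiagonal.antidiagonal k, f x.1 * g x.2‖ ≤ e := by
  calc ‖∑ x ∈ Finset.HasAntidiagonal.antidiagonal k, f x.1 * g x.2‖ ≤ ∑ x ∈ Finset.HasAntidiagonal.antidiagonal k, e * ‖g x.2‖ := by
        refine (norm_sum_le _ _).trans (Finset.sum_le_sum fun x hx => ?_)
        rw [norm_mul]
        refine mul_le_mul_of_nonneg_right (hf _ ?_) (norm_nonneg _)
        rw [Finset.HasAntidiagonal.mem_antidiagonal] at hx
        omega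
    _ = e * ∑ x ∈ Finset.HasAntidiagonal.antidiagonal k, ‖g x.2‖ := by rw [Finset.mul_sum]
    _ = e * ∑ j ∈ (Finset.HasAntidiagonal.antidiagonal k).image Prod.snd, ‖g j‖ := by
        rw [Finset.sum_image]
        rintro ⟨a, b⟩ hx ⟨a', b'⟩ hy h
        simp only [Finset.mem_coe, Finset.HasAntidiagonal.mem_antidiagonal] at hx hy h
        subst h
        congr 1
        omega
    _ ≤ e * 1 := mul_le_mul_of_nonneg_left (hg _) he
    _ = e := mul_one e

theorem Nn_bound {c c' : Fin (r + 1) → ℂ} (hc : ∑ i, ‖c i‖ = 1) (hc' : ∑ i, ‖c' i‖ = 1) {b : ℕ → ℂ} {n : ℕ}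
    {e e' : ℝ} (he : 0 ≤ e) (he' : 0 ≤ e') (h : ∀ m, n ≤ m → m ≤ n + r → ‖∑ i, c i * b (m + i)‖ ≤ e)
    (h' : ∀ m, n + 1 ≤ m → m ≤ n + 1 + r → ‖∑ i, c' i * b (m + i)‖ ≤ e') {ρ : ℝ} (hρ : 0 < ρ) {z : ℂ} (hz : ‖z‖ = ρ) :
    ‖(Nn c c' b n).eval z‖ ≤ (r + 1) * (e + e') * (ρ ^ n * max 1 ρ ^ (2 * r)) := by
  have hdeg : (Nn c c' b n).natDegree < n + 2 * r + 1 := by
    have h1 : (Tn c' b (n + 1) * pc c).natDegree ≤ n + 2 * r + 1 := by
      have := natDegree_mul_le (p := Tn c' b (n + 1)) (q := pc c)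
      have h2 := Tn_deg c' b (n + 1)
      have h3 := pc_deg c
      omega
    by_contra hcon
    push Not at hcon
    -- the coefficients vanish beyond `n + 2 r`
    have hz : ∀ k, n + 2 * r < k → (Nn c c' b n).coeff k = 0 := by
      intro k hk
      unfold Nn
      rw [coeff_sub, coeff_mul, coeff_mul]
      have z1 : ∀ x ∈ Finset.HasAntidiagonal.antidiagonal k, (Tn c' b (n + 1)).coeff x.1 * (pc c).coeff x.2 = 0 := by
        intro x hx
        rw [Finset.HasAntidiagonal.mem_antidiagonal] at hx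
        rcases lt_or_ge r x.2 with h4 | h4
        · rw [coeff_eq_zero_of_natDegree_lt ((pc_deg c).trans_lt h4), mul_zero]
        · rw [Tn_coeff, if_neg (by omega), zero_mul]
      have z2 : ∀ x ∈ Finset.HasAntidiagonal.antidiagonal k, (Tn c b n).coeff x.1 * (pc c').coeff x.2 = 0 := by
        intro x hx
        rw [Finset.HasAntidiagonal.mem_antidiagonal] at hx
        rcases lt_or_ge r x.2 with h4 | h4
        · rw [coeff_eq_zero_of_natDegree_lt ((pc_deg c').trans_lt h4), mul_zero]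
        · rw [Tn_coeff, if_neg (by omega), zero_mul]
      rw [Finset.sum_eq_zero z1, Finset.sum_eq_zero z2, sub_zero]
    have hlc : (Nn c c' b n).leadingCoeff = 0 := hz _ (by omega)
    rw [leadingCoeff_eq_zero] at hlc
    rw [hlc] at hcon
    simp at hcon
  rw [eval_eq_sum_range' hdeg]
  have hG : 1 ≤ max 1 ρ := le_max_left _ _
  have hcoef : ∀ k ∈ Finset.range (n + 2 * r + 1), ‖(Nn c c' b n).coeff k * z ^ k‖ ≤
      if k < n + r then 0 else (e + e') * (ρ ^ n * max 1 ρ ^ (2 * r)) := by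
    intro k hk
    rw [Finset.mem_range] at hk
    rw [norm_mul, norm_pow, hz]
    split_ifs with h1
    · rw [Nn_coeff, Finset.sum_eq_zero, Finset.sum_eq_zero]
      · simp
      · intro x hx
        rw [Finset.HasAntidiagonal.mem_antidiagonal] at hx
        rw [if_pos (by omega), zero_mul]
      · intro x hx
        rw [Finset.HasAntidiagonal.mem_antidiagonal] at hx
        rw [if_pos (by omega), zero_mul]
    · have h2 : ‖(Nn c c' b n).coeff k‖ ≤ e + e' := by
        rw [Nn_coeff]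
        refine (norm_sub_le _ _).trans (add_le_add ?_ ?_)
        · refine anti_bound (f := fun i => if i < n + r then 0 else ec c b i) (g := fun j => (pc c').coeff j) he
            (fun i hi => ?_) (fun S => (pc_l1 c' S).trans hc'.le)
          split_ifs with h3
          · simpa using he
          · have h4 : i = (i - r) + r := by omega
            rw [h4, ec_rec]
            exact h _ (by omega) (by omega)
        · refine anti_bound (f := fun i => if i < n + 1 + r then 0 else ec c' b i) (g := fun j => (pc c).coeff j) he'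
            (fun i hi => ?_) (fun S => (pc_l1 c S).trans hc.le)
          split_ifs with h3
          · simpa using he'
          · have h4 : i = (i - r) + r := by omega
            rw [h4, ec_rec]
            exact h' _ (by omega) (by omega)
      have h3 : ρ ^ k ≤ ρ ^ n * max 1 ρ ^ (2 * r) := by
        have h4 : ρ ^ k = ρ ^ n * ρ ^ (k - n) := by
          rw [← pow_add]
          congr 1
          omega
        rw [h4]
        refine mul_le_mul_of_nonneg_left ?_ (by positivity)
        calc ρ ^ (k - n) ≤ max 1 ρ ^ (k - n) := pow_le_pow_left₀ hρ.le (le_max_right _ _) _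
          _ ≤ max 1 ρ ^ (2 * r) := pow_le_pow_right₀ hG (by omega)
      exact mul_le_mul h2 h3 (by positivity) (by positivity)
  refine (norm_sum_le _ _).trans ((Finset.sum_le_sum hcoef).trans ?_)
  rw [Finset.sum_ite, Finset.sum_const_zero, zero_add, Finset.sum_const, nsmul_eq_mul]
  have hcard : ((Finset.filter (fun x => ¬x < n + r) (Finset.range (n + 2 * r + 1))).card : ℝ) ≤ r + 1 := by
    have h5 : Finset.filter (fun x => ¬x < n + r) (Finset.range (n + 2 * r + 1)) ⊆ Finset.Ico (n + r) (n + 2 * r + 1) := by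
      intro x hx
      rw [Finset.mem_filter, Finset.mem_range] at hx
      rw [Finset.mem_Ico]
      omega
    have h6 := Finset.card_le_card h5
    rw [Nat.card_Ico] at h6
    have h7 : n + 2 * r + 1 - (n + r) = r + 1 := by omega
    rw [h7] at h6
    exact_mod_cast h6
  rw [mul_assoc]
  refine mul_le_mul_of_nonneg_right hcard (by positivity)

end

end Pool.Agent.H480.K
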