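import Pool.Agent.H480.K2

/-!
Discrete rigidity, main statement.
-/

open Polynomial Filter Topology Set MeasureTheory

set_option linter.unusedSectionVars false

namespace Pool.Agent.H480.K

noncomputable section

variable {r : ℕ}

theorem pc_eval_le {c : Fin (r + 1) → ℂ} (hc : ∑ i, ‖c i‖ = 1) {ρ : ℝ} (hρ : 0 < ρ) {z : ℂ} (hz : ‖z‖ = ρ) :
    ‖(pc c).eval z‖ ≤ max 1 ρ ^ r := by
  unfold pc
  rw [eval_finsetSum]
  refine (norm_sum_le _ _).trans ?_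
  calc ∑ i : Fin (r + 1), ‖(C (c i) * X ^ (r - (i : ℕ)) : ℂ[X]).eval z‖ ≤ ∑ i, ‖c i‖ * max 1 ρ ^ r := by
        refine Finset.sum_le_sum fun i _ => ?_
        rw [eval_mul, eval_C, eval_pow, eval_X, norm_mul, norm_pow, hz]
        refine mul_le_mul_of_nonneg_left ?_ (norm_nonneg _)
        calc ρ ^ (r - (i : ℕ)) ≤ max 1 ρ ^ (r - (i : ℕ)) := pow_le_pow_left₀ hρ.le (le_max_right _ _) _
          _ ≤ max 1 ρ ^ r := pow_le_pow_right₀ (le_max_left _ _) (Nat.sub_le _ _)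
    _ = max 1 ρ ^ r := by rw [← Finset.sum_mul, hc, one_mul]

theorem ec_bound {c : Fin (r + 1) → ℂ} (hc : ∑ i, ‖c i‖ = 1) {b : ℕ → ℂ} {C0 R : ℝ} (hR : 0 ≤ R) (hC : 0 ≤ C0)
    (hb : ∀ n, ‖b n‖ ≤ C0 * R ^ n) (k : ℕ) : ‖ec c b k‖ ≤ C0 * max 1 R ^ k := by
  unfold ec
  have h := anti_bound (f := b) (g := fun j => (pc c).coeff j) (e := C0 * max 1 R ^ k) (k := k) (by positivity)
    (fun i hi => (hb i).trans ?_) (fun S => (pc_l1 c S).trans hc.le)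
  · refine le_trans (le_of_eq ?_) h
    congr 1
    rw [← Finset.Nat.sum_antidiagonal_swap]
    refine Finset.sum_congr rfl fun x _ => ?_
    simp only [Prod.fst_swap, Prod.snd_swap]
    ring
  · refine mul_le_mul_of_nonneg_left ?_ hC
    calc R ^ i ≤ max 1 R ^ i := pow_le_pow_left₀ hR (le_max_right _ _) _
      _ ≤ max 1 R ^ k := pow_le_pow_right₀ (le_max_left _ _) hi

/-- bound for all the truncations -/
theorem Tn_bound {θ θ' R C0 : ℝ} (hθ : 0 < θ) (hθ' : θ < θ') (hR : 0 ≤ R) (hC : 0 ≤ C0) (n₀ : ℕ)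
    (BB : Set (ℕ → ℂ)) (hb : ∀ b ∈ BB, ∀ n, ‖b n‖ ≤ C0 * R ^ n) (c : ℕ → Fin (r + 1) → ℂ)
    (hc : ∀ n, ∑ i, ‖c n i‖ = 1)
    (hrec : ∀ n, ∀ b ∈ BB, ∀ m, n₀ + n ≤ m → m ≤ n₀ + n + r → ‖∑ i, c n i * b (m + i)‖ ≤ C0 * θ ^ (n₀ + n)) :
    ∃ ρ : ℝ, 0 < ρ ∧ 1 / ρ ≤ θ' ∧ ∃ M : ℝ, 0 ≤ M ∧ ∀ n, ∀ b ∈ BB, ∀ z : ℂ, ‖z‖ = ρ →
      ‖(Tn (c n) b (n₀ + n)).eval z‖ ≤ M := by
  have hθ0' : 0 < θ' := hθ.trans hθ'
  set ρ₁ : ℝ := 1 / θ' with hρ₁
  set ρ₂ : ℝ := (1 / θ' + 1 / θ) / 2 with hρ₂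
  have h12 : 1 / θ' < 1 / θ := one_div_lt_one_div_of_lt hθ hθ'
  have hρ12 : ρ₁ < ρ₂ := by rw [hρ₁, hρ₂]; linarith
  have hρ₁0 : 0 < ρ₁ := by rw [hρ₁]; positivity
  have hρ₂0 : 0 < ρ₂ := hρ₁0.trans hρ12
  set τ : ℝ := ρ₂ * θ with hτ
  have hτ0 : 0 < τ := by positivity
  have hτ1 : τ < 1 := by
    have : ρ₂ < 1 / θ := by rw [hρ₂]; linarith
    rw [hτ]
    calc ρ₂ * θ < 1 / θ * θ := mul_lt_mul_of_pos_right this hθ
      _ = 1 := by field_simp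
  set lam : ℝ := τ ^ (1 / (4 * (r + 1)) : ℝ) with hlam
  have hr1 : (0:ℝ) < r + 1 := by positivity
  have hlam0 : 0 < lam := Real.rpow_pos_of_pos hτ0 _
  have hlam1 : lam < 1 := Real.rpow_lt_one hτ0.le hτ1 (by positivity)
  have hlamp : lam ^ (2 * (r + 1)) = Real.sqrt τ := by
    rw [hlam, ← Real.rpow_natCast, ← Real.rpow_mul hτ0.le, Real.sqrt_eq_rpow]
    congr 1
    push_cast
    field_simp
    norm_num
  set s : ℝ := Real.sqrt τ with hs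
  have hs0 : 0 < s := Real.sqrt_pos.2 hτ0
  have hs1 : s < 1 := by rw [hs]; exact (Real.sqrt_lt' one_pos).2 (by simpa using hτ1)
  have hss : s * s = τ := Real.mul_self_sqrt hτ0.le
  set D : ℝ := min ρ₂ ((ρ₂ - ρ₁) * (1 - lam) / (4 * (r + 1))) with hD
  have hρd : 0 < ρ₂ - ρ₁ := by linarith
  have hld : 0 < 1 - lam := by linarith
  have hD0 : 0 < D := lt_min hρ₂0 (by positivity)
  have hDs : 2 * r * (D * (1 - lam)⁻¹) < ρ₂ - ρ₁ := by
    have h1 : D ≤ (ρ₂ - ρ₁) * (1 - lam) / (4 * (r + 1)) := min_le_right _ _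
    calc 2 * r * (D * (1 - lam)⁻¹) ≤ 2 * r * (((ρ₂ - ρ₁) * (1 - lam) / (4 * (r + 1))) * (1 - lam)⁻¹) := by gcongr
      _ = (ρ₂ - ρ₁) * (r / (2 * (r + 1))) := by field_simp; ring
      _ < (ρ₂ - ρ₁) * 1 := by
          refine mul_lt_mul_of_pos_left ?_ hρd
          rw [div_lt_one (by positivity)]
          have : (0:ℝ) ≤ r := by positivity
          linarith
      _ = ρ₂ - ρ₁ := mul_one _
  obtain ⟨ρ, hρ, hgood⟩ := good_radius c hρ12 hD0 hlam0 hlam1 hDs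
  have hρ0 : 0 < ρ := hρ₁0.trans_le hρ.1
  have hρθ : ρ * θ ≤ τ := mul_le_mul_of_nonneg_right hρ.2 hθ.le
  -- lower bound
  set κ : ℝ := (((r + 1) * 2 ^ r : ℕ) : ℝ)⁻¹ * (D / (1 + 2 * ρ₂)) ^ r with hκ
  have hκ0 : 0 < κ := by positivity
  have hlow : ∀ n, ∀ z : ℂ, ‖z‖ = ρ → κ * (lam ^ n) ^ r ≤ ‖(pc (c n)).eval z‖ := by
    intro n z hz
    have hln : lam ^ n ≤ 1 := pow_le_one₀ hlam0.le hlam1.le
    have h1 := pc_low (c n) (hc n) (ρ := ρ) (ρ₂ := ρ₂) (δ := D * lam ^ n) (by positivity)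
      ((mul_le_of_le_one_right hD0.le hln).trans (min_le_left _ _)) hρ.2 (hgood n) z hz
    refine le_trans (le_of_eq ?_) h1
    rw [hκ, mul_div_right_comm, mul_pow]
    ring
  have hlow0 : ∀ n, 0 < κ * (lam ^ n) ^ r := fun n => by positivity
  have hne : ∀ n, ∀ z : ℂ, ‖z‖ = ρ → (pc (c n)).eval z ≠ 0 := by
    intro n z hz h0
    have := hlow n z hz
    rw [h0, norm_zero] at this
    exact absurd this (not_le.2 (hlow0 n))
  set G : ℝ := max 1 ρ with hG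
  have hG1 : 1 ≤ G := le_max_left _ _
  set K : ℝ := (r + 1) * (C0 * (1 + θ)) * (θ ^ n₀ * ρ ^ n₀ * G ^ (2 * r)) / (κ * κ * lam ^ r) with hK
  have hK0 : 0 ≤ K := by positivity
  have hstep : ∀ n, ∀ b ∈ BB, ∀ z : ℂ, ‖z‖ = ρ →
      ‖(Tn (c (n + 1)) b (n₀ + (n + 1))).eval z / (pc (c (n + 1))).eval z -
        (Tn (c n) b (n₀ + n)).eval z / (pc (c n)).eval z‖ ≤ K * s ^ n := by
    intro n b hbB z hz
    have hN := Nn_bound (hc n) (hc (n + 1)) (b := b) (n := n₀ + n) (e := C0 * θ ^ (n₀ + n))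
      (e' := C0 * θ ^ (n₀ + (n + 1))) (by positivity) (by positivity) (hrec n b hbB)
      (fun m h1 h2 => hrec (n + 1) b hbB m (by omega) (by omega)) hρ0 hz
    have h1 := hne n z hz
    have h2 := hne (n + 1) z hz
    have heq : (Tn (c (n + 1)) b (n₀ + (n + 1))).eval z / (pc (c (n + 1))).eval z -
        (Tn (c n) b (n₀ + n)).eval z / (pc (c n)).eval z =
        (Nn (c n) (c (n + 1)) b (n₀ + n)).eval z / ((pc (c n)).eval z * (pc (c (n + 1))).eval z) := by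
      unfold Nn
      rw [eval_sub, eval_mul, eval_mul, ← add_assoc]
      field_simp
    rw [heq, norm_div, norm_mul]
    have hl1 := hlow n z hz
    have hl2 := hlow (n + 1) z hz
    have hden : κ * (lam ^ n) ^ r * (κ * (lam ^ (n + 1)) ^ r) ≤ ‖(pc (c n)).eval z‖ * ‖(pc (c (n + 1))).eval z‖ :=
      mul_le_mul hl1 hl2 (hlow0 _).le (norm_nonneg _)
    have hden0 : 0 < κ * (lam ^ n) ^ r * (κ * (lam ^ (n + 1)) ^ r) := mul_pos (hlow0 _) (hlow0 _)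
    refine (div_le_div₀ (by positivity) hN hden0 hden).trans ?_
    have e1 : (r + 1) * (C0 * θ ^ (n₀ + n) + C0 * θ ^ (n₀ + (n + 1))) * (ρ ^ (n₀ + n) * max 1 ρ ^ (2 * r)) =
        ((r + 1) * (C0 * (1 + θ)) * (θ ^ n₀ * ρ ^ n₀ * G ^ (2 * r))) * (ρ * θ) ^ n := by
      rw [pow_add, pow_add, pow_add, mul_pow, pow_succ]
      ring
    have e2 : κ * (lam ^ n) ^ r * (κ * (lam ^ (n + 1)) ^ r) = (κ * κ * lam ^ r) * (lam ^ (2 * r)) ^ n := by
      rw [← pow_mul, ← pow_mul, ← pow_mul, show 2 * r * n = n * r + n * r by ring, pow_add,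
        show (n + 1) * r = r + n * r by ring, pow_add]
      ring
    rw [e1, e2, mul_div_mul_comm, ← hK, ← div_pow]
    refine mul_le_mul_of_nonneg_left (pow_le_pow_left₀ (by positivity) ?_ n) hK0
    -- ratio
    have h3 : s ≤ lam ^ (2 * r) := by
      rw [← hlamp]
      exact pow_le_pow_of_le_one hlam0.le hlam1.le (by omega)
    rw [div_le_iff₀ (by positivity)]
    calc ρ * θ ≤ τ := hρθ
      _ = s * s := hss.symm
      _ ≤ s * lam ^ (2 * r) := mul_le_mul_of_nonneg_left h3 hs0.le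
  -- start
  set M0 : ℝ := ∑ k ∈ Finset.range (n₀ + r), C0 * max 1 R ^ k * ρ ^ k with hM0
  have hM00 : 0 ≤ M0 := Finset.sum_nonneg fun k _ => by positivity
  have hstart : ∀ b ∈ BB, ∀ z : ℂ, ‖z‖ = ρ →
      ‖(Tn (c 0) b (n₀ + 0)).eval z / (pc (c 0)).eval z‖ ≤ M0 / (κ * (lam ^ 0) ^ r) := by
    intro b hbB z hz
    rw [norm_div]
    refine div_le_div₀ hM00 ?_ (hlow0 0) (hlow 0 z hz)
    unfold Tn
    rw [eval_finsetSum]
    refine (norm_sum_le _ _).trans (Finset.sum_le_sum fun k _ => ?_)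
    rw [eval_mul, eval_C, eval_pow, eval_X, norm_mul, norm_pow, hz]
    exact mul_le_mul_of_nonneg_right (ec_bound (hc 0) hR hC (hb b hbB) k) (by positivity)
  set M1 : ℝ := M0 / (κ * (lam ^ 0) ^ r) + K * (1 - s)⁻¹ with hM1
  have h1s : 0 < 1 - s := by linarith
  have hM10 : 0 ≤ M1 := by
    have := (hlow0 0).le
    positivity
  have hall : ∀ n, ∀ b ∈ BB, ∀ z : ℂ, ‖z‖ = ρ → ‖(Tn (c n) b (n₀ + n)).eval z / (pc (c n)).eval z‖ ≤ M1 := by
    intro n b hbB z hz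
    have h1 : ‖(Tn (c n) b (n₀ + n)).eval z / (pc (c n)).eval z‖ ≤
        M0 / (κ * (lam ^ 0) ^ r) + K * ∑ j ∈ Finset.range n, s ^ j := by
      induction n with
      | zero =>
        simp only [Finset.range_zero, Finset.sum_empty, mul_zero, add_zero]
        exact hstart b hbB z hz
      | succ n ih =>
        rw [Finset.sum_range_succ, mul_add]
        have h2 := hstep n b hbB z hz
        have h3 := norm_sub_norm_le ((Tn (c (n + 1)) b (n₀ + (n + 1))).eval z / (pc (c (n + 1))).eval z)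
          ((Tn (c n) b (n₀ + n)).eval z / (pc (c n)).eval z)
        linarith
    refine h1.trans (add_le_add_right (mul_le_mul_of_nonneg_left ?_ hK0) _)
    rw [← tsum_geometric_of_lt_one hs0.le hs1]
    exact (summable_geometric_of_lt_one hs0.le hs1).sum_le_tsum _ fun j _ => by positivity
  refine ⟨ρ, hρ0, ?_, M1 * G ^ r, by positivity, fun n b hbB z hz => ?_⟩
  · rw [div_le_iff₀ hρ0]
    have h1 := hρ.1
    rw [hρ₁, div_le_iff₀ hθ0'] at h1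
    linarith
  · have h1 := hall n b hbB z hz
    have h2 := hne n z hz
    have h3 : (Tn (c n) b (n₀ + n)).eval z = (Tn (c n) b (n₀ + n)).eval z / (pc (c n)).eval z * (pc (c n)).eval z := by
      field_simp
    rw [h3, norm_mul]
    exact mul_le_mul h1 (pc_eval_le (hc n) hρ0 hz) (norm_nonneg _) hM10

/-- **discrete rigidity** -/
theorem rigidity {θ θ' R C0 : ℝ} (hθ : 0 < θ) (hθ' : θ < θ') (hR : 0 ≤ R) (hC : 0 ≤ C0) (n₀ : ℕ)
    (BB : Set (ℕ → ℂ)) (hb : ∀ b ∈ BB, ∀ n, ‖b n‖ ≤ C0 * R ^ n)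
    (hrec : ∀ n, n₀ ≤ n → ∃ c : Fin (r + 1) → ℂ, ∑ i, ‖c i‖ = 1 ∧
      ∀ b ∈ BB, ∀ m, n ≤ m → m ≤ n + r → ‖∑ i, c i * b (m + i)‖ ≤ C0 * θ ^ n) :
    ∃ q : Fin (r + 1) → ℂ, ∑ i, ‖q i‖ = 1 ∧ ∃ M : ℝ, 0 ≤ M ∧ ∀ b ∈ BB, ∀ m, ‖∑ i, q i * b (m + i)‖ ≤ M * θ' ^ m := by
  have h1 : ∀ n, ∃ c : Fin (r + 1) → ℂ, ∑ i, ‖c i‖ = 1 ∧
      ∀ b ∈ BB, ∀ m, n₀ + n ≤ m → m ≤ n₀ + n + r → ‖∑ i, c i * b (m + i)‖ ≤ C0 * θ ^ (n₀ + n) :=
    fun n => hrec (n₀ + n) (Nat.le_add_right _ _)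
  choose c hc hcr using h1
  obtain ⟨ρ, hρ, hρθ, M, hM, hT⟩ := Tn_bound hθ hθ' hR hC n₀ BB hb c hc hcr
  have hθ0' : 0 < θ' := hθ.trans hθ'
  -- compactness
  have hcomp : IsCompact {v : Fin (r + 1) → ℂ | ∑ i, ‖v i‖ = 1} := by
    refine Metric.isCompact_of_isClosed_isBounded ?_ ?_
    · exact isClosed_eq (by fun_prop) continuous_const
    · refine (Metric.isBounded_closedBall (x := (0 : Fin (r + 1) → ℂ)) (r := 1)).subset fun v hv => ?_
      rw [mem_closedBall_zero_iff, pi_norm_le_iff_of_nonneg zero_le_one]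
      intro i
      have hv' : ∑ i, ‖v i‖ = 1 := hv
      rw [← hv']
      exact Finset.single_le_sum (f := fun i => ‖v i‖) (fun _ _ => norm_nonneg _) (Finset.mem_univ i)
  obtain ⟨q, hq, φ, hφ, hlim⟩ := hcomp.tendsto_subseq (x := c) hc
  refine ⟨q, hq, M / ρ ^ r, by positivity, fun b hbB m => ?_⟩
  have h2 : Tendsto (fun k => ‖∑ i, c (φ k) i * b (m + i)‖) atTop (𝓝 ‖∑ i, q i * b (m + i)‖) := by
    refine Tendsto.norm (tendsto_finsetSum _ fun i _ => Tendsto.mul_const _ ?_)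
    exact (tendsto_pi_nhds.1 hlim) i
  have h3 : ∀ᶠ k in atTop, ‖∑ i, c (φ k) i * b (m + i)‖ ≤ M / ρ ^ (m + r) := by
    filter_upwards [eventually_gt_atTop m] with k hk
    have h4 := coeff_le (Tn (c (φ k)) b (n₀ + φ k)) hρ (hT (φ k) b hbB) (m + r)
    have h5 : m < n₀ + φ k := by
      have := hφ.id_le k
      simp only [id] at this
      omega
    rw [Tn_coeff, if_pos (by omega), ec_rec] at h4
    exact h4
  have h4 := le_of_tendsto h2 h3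
  refine h4.trans ?_
  rw [pow_add, mul_comm (ρ ^ m), ← div_div, div_eq_mul_one_div (M / ρ ^ r)]
  refine mul_le_mul_of_nonneg_left ?_ (by positivity)
  rw [← one_div_pow]
  exact pow_le_pow_left₀ (by positivity) hρθ m

end

end Pool.Agent.H480.K
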