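import Pool.Agent.H480.K3

/-!
From a separable approximation at one scale to a local recurrence at this scale.
-/

open Filter Topology Set MeasureTheory

set_option linter.unusedSectionVars false

namespace Pool.Agent.H480.K

noncomputable section

variable {r : ℕ}

/-- logarithmic form of the approximation property -/
def LNear (f : ℝ → ℂ) (a a' : ℝ) (r : ℕ) (ε t : ℝ) : Prop :=
  ∃ (U V : Fin r → ℝ → ℂ) (Φ : ℝ → ℝ), (∀ j, IntegrableOn (V j) (Icc 0 a')) ∧ IntegrableOn Φ (Icc 0 a) ∧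
    ∫ x in Icc 0 a, Φ x ≤ ε ∧
    ∀ x ∈ Icc 0 a, ∫ w in Icc 0 a', ‖f (t + x + w) - ∑ j, U j x * V j w‖ ≤ Φ x

theorem pick {Φ : ℝ → ℝ} {a h ε : ℝ} (hΦ : IntegrableOn Φ (Icc 0 a)) (h0 : ∀ x ∈ Icc 0 a, 0 ≤ Φ x)
    (hε : ∫ x in Icc 0 a, Φ x ≤ ε) (hh : 0 < h) (hra : (r + 1) * h ≤ a) :
    ∃ x ∈ Icc 0 h, ∑ i : Fin (r + 1), Φ (x + (i : ℕ) * h) ≤ ε / h := by
  have hint : ∀ k < r + 1, IntervalIntegrable Φ volume ((k : ℕ) * h) (((k + 1 : ℕ) : ℝ) * h) := by
    intro k hk
    have hk' : ((k : ℝ) + 1) ≤ r + 1 := by exact_mod_cast hk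
    rw [intervalIntegrable_iff_integrableOn_Icc_of_le (by push_cast; nlinarith)]
    refine hΦ.mono_set (Icc_subset_Icc (by positivity) ?_)
    push_cast
    nlinarith
  have hsh : ∀ k < r + 1, IntervalIntegrable (fun x => Φ (x + (k : ℕ) * h)) volume 0 h := by
    intro k hk
    have := (hint k hk).comp_add_right ((k : ℝ) * h)
    convert this using 1
    · ring
    · push_cast; ring
  have hsum : ∫ x in (0:ℝ)..h, ∑ i : Fin (r + 1), Φ (x + (i : ℕ) * h) ≤ ε := by
    rw [intervalIntegral.integral_finset_sum (ι := Fin (r + 1)) (fun i _ => hsh i i.2)]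
    rw [Fin.sum_univ_eq_sum_range (fun i => ∫ x in (0:ℝ)..h, Φ (x + (i : ℕ) * h)) (r + 1)]
    have e1 : ∀ k ∈ Finset.range (r + 1), ∫ x in (0:ℝ)..h, Φ (x + (k : ℕ) * h) =
        ∫ x in ((k : ℕ) : ℝ) * h..((k + 1 : ℕ) : ℝ) * h, Φ x := by
      intro k _
      rw [intervalIntegral.integral_comp_add_right (fun x => Φ x)]
      congr 1
      · ring
      · push_cast; ring
    rw [Finset.sum_congr rfl e1, intervalIntegral.sum_integral_adjacent_intervals hint]
    push_cast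
    rw [zero_mul, intervalIntegral.integral_of_le (by positivity), ← integral_Icc_eq_integral_Ioc]
    refine le_trans ?_ hε
    refine setIntegral_mono_set hΦ ?_ (Eventually.of_forall (Icc_subset_Icc_right hra))
    exact (ae_restrict_iff' measurableSet_Icc).2 (Eventually.of_forall h0)
  by_contra hcon
  push Not at hcon
  have hI : IntegrableOn (fun x => ∑ i : Fin (r + 1), Φ (x + (i : ℕ) * h)) (Icc 0 h) := by
    refine integrable_finsetSum _ fun i _ => ?_
    have := hsh i i.2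
    rwa [intervalIntegrable_iff_integrableOn_Icc_of_le hh.le] at this
  rw [intervalIntegral.integral_of_le hh.le, ← integral_Icc_eq_integral_Ioc] at hsum
  have hvol : volume (Icc (0:ℝ) h) = ENNReal.ofReal h := by simp
  obtain ⟨x, hx, hx2⟩ := exists_le_setAverage (μ := volume) (s := Icc (0:ℝ) h)
    (f := fun x => ∑ i : Fin (r + 1), Φ (x + (i : ℕ) * h)) (by rw [hvol]; simpa using hh)
    (by rw [hvol]; exact ENNReal.ofReal_ne_top) hI
  have h1 := hcon x hx
  rw [setAverage_eq, Measure.real, hvol, ENNReal.toReal_ofReal hh.le, smul_eq_mul] at hx2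
  have h2 : h⁻¹ * (∫ x in Icc (0:ℝ) h, ∑ i : Fin (r + 1), Φ (x + (i : ℕ) * h)) ≤ h⁻¹ * ε :=
    mul_le_mul_of_nonneg_left hsum (by positivity)
  have h3 : h⁻¹ * ε = ε / h := by rw [div_eq_mul_inv, mul_comm]
  linarith

theorem lin_dep (w : Fin (r + 1) → Fin r → ℂ) :
    ∃ c : Fin (r + 1) → ℂ, ∑ i, ‖c i‖ = 1 ∧ ∀ j, ∑ i, c i * w i j = 0 := by
  have h1 : ¬ LinearIndependent ℂ w := by
    intro h
    have := h.fintype_card_le_finrank
    simp at this
  rw [Fintype.not_linearIndependent_iff] at h1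
  obtain ⟨g, hg, i0, hi0⟩ := h1
  have hpos : 0 < ∑ i, ‖g i‖ := Finset.sum_pos' (fun i _ => norm_nonneg _) ⟨i0, Finset.mem_univ _, norm_pos_iff.2 hi0⟩
  refine ⟨fun i => g i / ((∑ i, ‖g i‖ : ℝ) : ℂ), ?_, fun j => ?_⟩
  · simp only [norm_div, Complex.norm_real, Real.norm_of_nonneg hpos.le]
    rw [← Finset.sum_div, div_self hpos.ne']
  · have h2 := congrFun hg j
    simp only [Finset.sum_apply, Pi.smul_apply, smul_eq_mul, Pi.zero_apply] at h2
    have h3 : ∑ i, g i / ((∑ i, ‖g i‖ : ℝ) : ℂ) * w i j = (∑ i, g i * w i j) / ((∑ i, ‖g i‖ : ℝ) : ℂ) := by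
      rw [Finset.sum_div]
      exact Finset.sum_congr rfl fun i _ => by ring
    rw [h3, h2, zero_div]

/-- local integrability of a measurable function with exponential growth -/
theorem loc_int {f : ℝ → ℂ} (hfm : Measurable f) {C c₁ : ℝ} (hf : ∀ u, 0 ≤ u → ‖f u‖ ≤ C * Real.exp (c₁ * u))
    (b x y : ℝ) (hb : 0 ≤ b + x) : IntegrableOn (fun w => f (b + w)) (Icc x y) := by
  refine Measure.integrableOn_of_bounded (M := |C| * Real.exp (|c₁| * (b + y))) (by simp) ?_ ?_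
  · exact (hfm.comp (measurable_const_add b)).aestronglyMeasurable
  · refine (ae_restrict_iff' measurableSet_Icc).2 (Eventually.of_forall fun w hw => ?_)
    have h0 : 0 ≤ b + w := by linarith [hw.1]
    refine (hf _ h0).trans ?_
    refine mul_le_mul (le_abs_self _) (Real.exp_le_exp.2 ?_) (Real.exp_pos _).le (abs_nonneg _)
    calc c₁ * (b + w) ≤ |c₁| * (b + w) := mul_le_mul_of_nonneg_right (le_abs_self _) h0
      _ ≤ |c₁| * (b + y) := mul_le_mul_of_nonneg_left (by linarith [hw.2]) (abs_nonneg _)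

/-- one scale: from the separable approximation to a recurrence of length `r` -/
theorem step {f : ℝ → ℂ} (hfm : Measurable f) {C c₁ : ℝ} (hf : ∀ u, 0 ≤ u → ‖f u‖ ≤ C * Real.exp (c₁ * u))
    {a a' ε t h : ℝ} (hh : 0 < h) (hra : (r + 2) * h ≤ a) (hra' : (r + 2) * h ≤ a') (ht : 0 ≤ t)
    (H : LNear f a a' r ε t) :
    ∃ c : Fin (r + 1) → ℂ, ∑ i, ‖c i‖ = 1 ∧ ∀ k : ℕ, k ≤ r →
      ∫ v in Icc 0 h, ‖∑ i, c i * f (t + h + k * h + (i : ℕ) * h + v)‖ ≤ ε / h := by
  obtain ⟨U, V, Φ, hV, hΦ, hε, hb⟩ := H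
  have h0 : ∀ x ∈ Icc 0 a, 0 ≤ Φ x := fun x hx => (integral_nonneg fun w => norm_nonneg _).trans (hb x hx)
  obtain ⟨x, hx, hx2⟩ := pick (r := r) hΦ h0 hε hh (by nlinarith)
  obtain ⟨c, hc1, hc2⟩ := lin_dep fun i j => U j (x + (i : ℕ) * h)
  refine ⟨c, hc1, fun k hk => ?_⟩
  have hi : ∀ i : Fin (r + 1), ((i : ℕ) : ℝ) ≤ r := fun i => by exact_mod_cast Nat.lt_succ_iff.1 i.2
  have hmem : ∀ i : Fin (r + 1), x + (i : ℕ) * h ∈ Icc 0 a := by
    intro i
    have h1 : ((i : ℕ) : ℝ) * h ≤ r * h := mul_le_mul_of_nonneg_right (hi i) hh.le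
    have h2 : 0 ≤ ((i : ℕ) : ℝ) * h := by positivity
    exact ⟨by linarith [hx.1], by linarith [hx.2]⟩
  have hIi : ∀ i : Fin (r + 1), IntegrableOn (fun w => f (t + (x + (i : ℕ) * h) + w) -
      ∑ j, U j (x + (i : ℕ) * h) * V j w) (Icc 0 a') := by
    intro i
    refine Integrable.sub (loc_int hfm hf _ _ _ (by linarith [(hmem i).1])) ?_
    exact integrable_finsetSum _ fun j _ => (hV j).const_mul _
  -- bound on the whole window
  have hwin : ∫ w in Icc 0 a', ‖∑ i, c i * f (t + (x + (i : ℕ) * h) + w)‖ ≤ ε / h := by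
    have e1 : ∀ w, ∑ i, c i * f (t + (x + (i : ℕ) * h) + w) =
        ∑ i, c i * (f (t + (x + (i : ℕ) * h) + w) - ∑ j, U j (x + (i : ℕ) * h) * V j w) := by
      intro w
      simp only [mul_sub, Finset.sum_sub_distrib]
      have : ∑ i, c i * ∑ j, U j (x + (i : ℕ) * h) * V j w = 0 := by
        simp only [Finset.mul_sum]
        rw [Finset.sum_comm]
        refine Finset.sum_eq_zero fun j _ => ?_
        have h2 := hc2 j
        calc ∑ i, c i * (U j (x + (i : ℕ) * h) * V j w) = (∑ i, c i * U j (x + (i : ℕ) * h)) * V j w := by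
              rw [Finset.sum_mul]
              exact Finset.sum_congr rfl fun i _ => by ring
          _ = 0 := by rw [h2, zero_mul]
      rw [this, sub_zero]
    simp only [e1]
    have hc : ∀ i, ‖c i‖ ≤ 1 := fun i => by
      rw [← hc1]
      exact Finset.single_le_sum (f := fun i => ‖c i‖) (fun i _ => norm_nonneg _) (Finset.mem_univ i)
    calc ∫ w in Icc 0 a', ‖∑ i, c i * (f (t + (x + (i : ℕ) * h) + w) - ∑ j, U j (x + (i : ℕ) * h) * V j w)‖
        ≤ ∫ w in Icc 0 a', ∑ i : Fin (r + 1), ‖f (t + (x + (i : ℕ) * h) + w) - ∑ j, U j (x + (i : ℕ) * h) * V j w‖ := by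
          refine integral_mono ?_ ?_ fun w => ?_
          · exact (integrable_finsetSum _ fun i _ => (hIi i).const_mul _).norm
          · exact integrable_finsetSum _ fun i _ => (hIi i).norm
          · refine (norm_sum_le _ _).trans (Finset.sum_le_sum fun i _ => ?_)
            rw [norm_mul]
            exact mul_le_of_le_one_left (norm_nonneg _) (hc i)
      _ = ∑ i : Fin (r + 1), ∫ w in Icc 0 a', ‖f (t + (x + (i : ℕ) * h) + w) - ∑ j, U j (x + (i : ℕ) * h) * V j w‖ :=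
          integral_finsetSum _ fun i _ => (hIi i).norm
      _ ≤ ∑ i : Fin (r + 1), Φ (x + (i : ℕ) * h) := Finset.sum_le_sum fun i _ => hb _ (hmem i)
      _ ≤ ε / h := hx2
  -- restrict to a subwindow
  set g : ℝ → ℝ := fun w => ‖∑ i, c i * f (t + (x + (i : ℕ) * h) + w)‖ with hg
  have hgI : IntegrableOn g (Icc 0 a') := by
    refine Integrable.norm (integrable_finsetSum _ fun i _ => Integrable.const_mul ?_ _)
    exact loc_int hfm hf _ _ _ (by linarith [(hmem i).1])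
  have hkr : (k : ℝ) ≤ r := by exact_mod_cast hk
  have hkh : (k : ℝ) * h ≤ r * h := mul_le_mul_of_nonneg_right hkr hh.le
  have hkh0 : 0 ≤ (k : ℝ) * h := by positivity
  have hsub : Icc (h + k * h - x) (h + k * h - x + h) ⊆ Icc 0 a' :=
    Icc_subset_Icc (by linarith [hx.2]) (by nlinarith [hx.1])
  have e2 : ∫ v in Icc 0 h, ‖∑ i, c i * f (t + h + k * h + (i : ℕ) * h + v)‖ =
      ∫ w in Icc (h + k * h - x) (h + k * h - x + h), g w := by
    rw [integral_Icc_eq_integral_Ioc, integral_Icc_eq_integral_Ioc, ← intervalIntegral.integral_of_le hh.le,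
      ← intervalIntegral.integral_of_le (by linarith)]
    have h4 := intervalIntegral.integral_comp_add_left g (h + k * h - x) (a := 0) (b := h)
    rw [add_zero] at h4
    rw [← h4]
    refine intervalIntegral.integral_congr fun v _ => ?_
    simp only [hg]
    congr 1
    refine Finset.sum_congr rfl fun i _ => ?_
    congr 2
    ring
  rw [e2]
  refine le_trans ?_ hwin
  exact setIntegral_mono_set hgI (Eventually.of_forall fun w => norm_nonneg _) (Eventually.of_forall hsub)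

/-- the recurrence at all scales -/
theorem all_scales {f : ℝ → ℂ} (hfm : Measurable f) {C c₁ : ℝ} (hC : 0 ≤ C)
    (hf : ∀ u, 0 ≤ u → ‖f u‖ ≤ C * Real.exp (c₁ * u))
    {a a' β β' h : ℝ} (hh : 0 < h) (hra : (r + 2) * h ≤ a) (hra' : (r + 2) * h ≤ a') (hβ : β < β')
    (H : ∀ᶠ t : ℝ in atTop, LNear f a a' r (Real.exp (β * t)) t) :
    ∃ q : Fin (r + 1) → ℂ, ∑ i, ‖q i‖ = 1 ∧ ∃ M : ℝ, 0 ≤ M ∧ ∀ m : ℕ,
      ∫ v in Icc 0 h, ‖∑ i, q i * f ((m + (i : ℕ)) * h + v)‖ ≤ M * Real.exp (β' * h * m) := by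
  obtain ⟨t₀, ht₀⟩ := eventually_atTop.1 H
  set c₂ : ℝ := |c₁| with hc₂
  have hf2 : ∀ u, 0 ≤ u → ‖f u‖ ≤ C * Real.exp (c₂ * u) := fun u hu => (hf u hu).trans
    (mul_le_mul_of_nonneg_left (Real.exp_le_exp.2 (mul_le_mul_of_nonneg_right (le_abs_self _) hu)) hC)
  obtain ⟨n₀, hn₀⟩ := exists_nat_gt ((max t₀ 0) / h + 1)
  have hn₀1 : max t₀ 0 ≤ ((n₀ : ℝ) - 1) * h := by
    have : (max t₀ 0) / h ≤ (n₀ : ℝ) - 1 := by linarith
    rwa [div_le_iff₀ hh] at this
  set C0 : ℝ := max (h * C * Real.exp (c₂ * h)) (Real.exp (-(β * h)) / h) with hC0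
  have hC00 : 0 ≤ C0 := le_max_of_le_right (by positivity)
  set BB : Set (ℕ → ℂ) := {b | ∃ φ : ℝ → ℂ, Measurable φ ∧ (∀ v, ‖φ v‖ ≤ 1) ∧
    ∀ n : ℕ, b n = ∫ v in Icc 0 h, f (n * h + v) * φ v} with hBB
  have hfi : ∀ x : ℝ, 0 ≤ x → IntegrableOn (fun v => f (x + v)) (Icc 0 h) := fun x hx =>
    loc_int hfm hf _ _ _ (by linarith)
  have hfφ : ∀ x : ℝ, 0 ≤ x → ∀ φ : ℝ → ℂ, Measurable φ → (∀ v, ‖φ v‖ ≤ 1) →
      IntegrableOn (fun v => f (x + v) * φ v) (Icc 0 h) := fun x hx φ hφ hφ1 =>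
    (hfi x hx).mul_bdd (c := 1) hφ.aestronglyMeasurable (Eventually.of_forall hφ1)
  have hb : ∀ b ∈ BB, ∀ n : ℕ, ‖b n‖ ≤ C0 * Real.exp (c₂ * h) ^ n := by
    rintro b ⟨φ, hφ, hφ1, hbφ⟩ n
    rw [hbφ]
    have h1 : ‖∫ v in Icc 0 h, f (n * h + v) * φ v‖ ≤ C * Real.exp (c₂ * ((n + 1) * h)) * (volume (Icc (0:ℝ) h)).toReal := by
      refine norm_setIntegral_le_of_norm_le_const (by simp) fun v hv => ?_
      rw [norm_mul]
      have h2 : 0 ≤ (n : ℝ) * h + v := by have := hv.1; positivity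
      calc ‖f (n * h + v)‖ * ‖φ v‖ ≤ ‖f (n * h + v)‖ := mul_le_of_le_one_right (norm_nonneg _) (hφ1 v)
        _ ≤ C * Real.exp (c₂ * (n * h + v)) := hf2 _ h2
        _ ≤ _ := by
            refine mul_le_mul_of_nonneg_left (Real.exp_le_exp.2 ?_) hC
            refine mul_le_mul_of_nonneg_left ?_ (abs_nonneg _)
            linarith [hv.2]
    refine h1.trans ?_
    have h3 : (volume (Icc (0:ℝ) h)).toReal = h := by simp [hh.le]
    rw [h3]
    have h4 : C * Real.exp (c₂ * ((n + 1) * h)) * h = h * C * Real.exp (c₂ * h) * Real.exp (c₂ * h) ^ n := by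
      rw [← Real.exp_nat_mul]
      have : Real.exp (c₂ * ((n + 1) * h)) = Real.exp (c₂ * h) * Real.exp (n * (c₂ * h)) := by
        rw [← Real.exp_add]; congr 1; ring
      rw [this]; ring
    rw [h4]
    exact mul_le_mul_of_nonneg_right (le_max_left _ _) (by positivity)
  have hrec : ∀ n ≥ n₀, ∃ c : Fin (r + 1) → ℂ, ∑ i, ‖c i‖ = 1 ∧ ∀ b ∈ BB, ∀ m : ℕ, n ≤ m → m ≤ n + r →
      ‖∑ i, c i * b (m + i)‖ ≤ C0 * Real.exp (β * h) ^ n := by
    intro n hn
    have hn' : (n₀ : ℝ) ≤ n := by exact_mod_cast hn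
    have htn : max t₀ 0 ≤ ((n : ℝ) - 1) * h := hn₀1.trans (mul_le_mul_of_nonneg_right (by linarith) hh.le)
    have htn0 : 0 ≤ ((n : ℝ) - 1) * h := (le_max_right _ _).trans htn
    obtain ⟨c, hc1, hc2⟩ := step hfm hf hh hra hra' htn0 (ht₀ _ ((le_max_left _ _).trans htn))
    refine ⟨c, hc1, ?_⟩
    rintro b ⟨φ, hφ, hφ1, hbφ⟩ m hm1 hm2
    obtain ⟨k, rfl⟩ := Nat.exists_eq_add_of_le hm1
    have hk : k ≤ r := by omega
    have h1 := hc2 k hk
    have e1 : ∀ i : Fin (r + 1), ∀ v : ℝ, ((n : ℝ) - 1) * h + h + k * h + (i : ℕ) * h + v =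
        ((n + k + (i : ℕ) : ℕ) : ℝ) * h + v := by
      intro i v; push_cast; ring
    simp only [e1] at h1
    have hII : ∀ i : Fin (r + 1), IntegrableOn (fun v => c i * (f (((n + k + (i : ℕ) : ℕ) : ℝ) * h + v) * φ v)) (Icc 0 h) :=
      fun i => (hfφ _ (by positivity) φ hφ hφ1).const_mul _
    have e2 : ∑ i, c i * b (n + k + i) = ∫ v in Icc 0 h, (∑ i, c i * f (((n + k + (i : ℕ) : ℕ) : ℝ) * h + v)) * φ v := by
      calc ∑ i, c i * b (n + k + i) = ∑ i : Fin (r + 1), ∫ v in Icc 0 h, c i * (f (((n + k + (i : ℕ) : ℕ) : ℝ) * h + v) * φ v) := by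
            refine Finset.sum_congr rfl fun i _ => ?_
            rw [hbφ, integral_const_mul]
        _ = ∫ v in Icc 0 h, ∑ i : Fin (r + 1), c i * (f (((n + k + (i : ℕ) : ℕ) : ℝ) * h + v) * φ v) :=
            (integral_finsetSum _ fun i _ => hII i).symm
        _ = _ := by
            refine integral_congr_ae (Eventually.of_forall fun v => ?_)
            simp only
            rw [Finset.sum_mul]
            exact Finset.sum_congr rfl fun i _ => by ring
    rw [e2]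
    have h5 : IntegrableOn (fun v => ‖∑ i, c i * f (((n + k + (i : ℕ) : ℕ) : ℝ) * h + v)‖) (Icc 0 h) :=
      (integrable_finsetSum _ fun i _ => (hfi _ (by positivity)).const_mul _).norm
    calc ‖∫ v in Icc 0 h, (∑ i, c i * f (((n + k + (i : ℕ) : ℕ) : ℝ) * h + v)) * φ v‖
        ≤ ∫ v in Icc 0 h, ‖(∑ i, c i * f (((n + k + (i : ℕ) : ℕ) : ℝ) * h + v)) * φ v‖ := norm_integral_le_integral_norm _
      _ ≤ ∫ v in Icc 0 h, ‖∑ i, c i * f (((n + k + (i : ℕ) : ℕ) : ℝ) * h + v)‖ := by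
          refine integral_mono_of_nonneg (Eventually.of_forall fun v => norm_nonneg _) h5 (Eventually.of_forall fun v => ?_)
          simp only [norm_mul]
          exact mul_le_of_le_one_right (norm_nonneg _) (hφ1 v)
      _ ≤ Real.exp (β * (((n : ℝ) - 1) * h)) / h := h1
      _ = Real.exp (-(β * h)) / h * Real.exp (β * h) ^ n := by
          rw [← Real.exp_nat_mul, div_mul_eq_mul_div, ← Real.exp_add]
          congr 2; ring
      _ ≤ _ := mul_le_mul_of_nonneg_right (le_max_right _ _) (by positivity)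
  have hθ : Real.exp (β * h) < Real.exp (β' * h) := Real.exp_lt_exp.2 (mul_lt_mul_of_pos_right hβ hh)
  obtain ⟨q, hq, M, hM0, hM⟩ := rigidity (r := r) (Real.exp_pos _) hθ (Real.exp_pos (c₂ * h)).le hC00 n₀ BB hb hrec
  refine ⟨q, hq, M, hM0, fun m => ?_⟩
  set g : ℝ → ℂ := fun v => ∑ i, q i * f ((m + (i : ℕ)) * h + v) with hg
  have hgm : Measurable g := by
    refine Finset.measurable_fun_sum _ fun i _ => ?_
    exact (hfm.comp (measurable_const_add _)).const_mul _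
  set φ : ℝ → ℂ := fun v => (starRingEnd ℂ) (g v) / ((‖g v‖ : ℝ) : ℂ) with hφ
  have hφm : Measurable φ := by
    refine Measurable.div ?_ ?_
    · exact Complex.continuous_conj.measurable.comp hgm
    · exact Complex.measurable_ofReal.comp hgm.norm
  have hφ1 : ∀ v, ‖φ v‖ ≤ 1 := by
    intro v
    simp only [hφ, norm_div, RCLike.norm_conj, Complex.norm_real, norm_norm]
    exact div_self_le_one _
  have hgφ : ∀ v, g v * φ v = ((‖g v‖ : ℝ) : ℂ) := by
    intro v
    simp only [hφ]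
    rcases eq_or_ne (g v) 0 with h0 | h0
    · simp [h0]
    · have h1 : ((‖g v‖ : ℝ) : ℂ) ≠ 0 := by
        rw [Ne, Complex.ofReal_eq_zero, norm_eq_zero]; exact h0
      rw [mul_div_assoc', Complex.mul_conj, Complex.normSq_eq_norm_sq, div_eq_iff h1]
      push_cast; ring
  have hmem : (fun n : ℕ => ∫ v in Icc 0 h, f (n * h + v) * φ v) ∈ BB := ⟨φ, hφm, hφ1, fun n => rfl⟩
  have h6 := hM _ hmem m
  have e3 : ∑ i : Fin (r + 1), q i * ∫ v in Icc 0 h, f (((m + (i : ℕ) : ℕ) : ℝ) * h + v) * φ v = ∫ v in Icc 0 h, ((‖g v‖ : ℝ) : ℂ) := by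
    calc ∑ i : Fin (r + 1), q i * ∫ v in Icc 0 h, f (((m + (i : ℕ) : ℕ) : ℝ) * h + v) * φ v
        = ∑ i : Fin (r + 1), ∫ v in Icc 0 h, q i * (f (((m + (i : ℕ) : ℕ) : ℝ) * h + v) * φ v) := by
          refine Finset.sum_congr rfl fun i _ => ?_
          rw [integral_const_mul]
      _ = ∫ v in Icc 0 h, ∑ i : Fin (r + 1), q i * (f (((m + (i : ℕ) : ℕ) : ℝ) * h + v) * φ v) :=
          (integral_finsetSum _ fun i _ => (hfφ _ (by positivity) φ hφm hφ1).const_mul _).symm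
      _ = _ := by
          refine integral_congr_ae (Eventually.of_forall fun v => ?_)
          simp only
          rw [← hgφ, hg]
          simp only
          rw [Finset.sum_mul]
          refine Finset.sum_congr rfl fun i _ => ?_
          push_cast
          ring
  rw [e3, integral_complex_ofReal, Complex.norm_real, Real.norm_of_nonneg (integral_nonneg fun v => norm_nonneg _)] at h6
  rw [← Real.exp_nat_mul] at h6
  have h7 : (m : ℝ) * (β' * h) = β' * h * m := by ring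
  rw [h7] at h6
  exact h6

end

end Pool.Agent.H480.K
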