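import Pool.Agent.H480.K4

/-!
Laplace transform of a function with a recurrence at all scales.
-/

open Filter Topology Set MeasureTheory Complex

set_option linter.unusedSectionVars false

namespace Pool.Agent.H480.K

noncomputable section

variable {r : ℕ}

/-- two sided Laplace transform -/
def Lap (f : ℝ → ℂ) (s : ℂ) : ℂ := ∫ u : ℝ, f u * cexp (-s * u)

theorem lap_norm (f : ℝ → ℂ) (s : ℂ) (u : ℝ) : ‖f u * cexp (-s * u)‖ = ‖f u‖ * Real.exp (-(s.re * u)) := by
  rw [norm_mul, Complex.norm_exp]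
  simp

theorem lap_int {H : ℝ → ℂ} (hHm : Measurable H) {s : ℂ} (hI : Integrable fun u : ℝ => ‖H u‖ * Real.exp (-(s.re * u))) :
    Integrable fun u : ℝ => H u * cexp (-s * u) := by
  refine hI.mono' (hHm.mul (by fun_prop)).aestronglyMeasurable (ae_of_all _ fun u => ?_)
  rw [lap_norm]

theorem lap_diff {H : ℝ → ℂ} (hHm : Measurable H) {β' : ℝ}
    (hI : ∀ σ : ℝ, β' < σ → Integrable fun u : ℝ => ‖H u‖ * Real.exp (-(σ * u))) {s : ℂ} (hs : β' < s.re) :
    DifferentiableAt ℂ (Lap H) s := by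
  set δ : ℝ := (s.re - β') / 3 with hδ
  have hδ0 : 0 < δ := by rw [hδ]; linarith
  have key : ∀ (w : ℂ) (u : ℝ), w ∈ Metric.ball s δ → ‖H u * (cexp (-w * u) * (-(u : ℂ)))‖ ≤
      (1 / δ) * (‖H u‖ * Real.exp (-((s.re - 2 * δ) * u)) + ‖H u‖ * Real.exp (-((s.re + 2 * δ) * u))) := by
    intro w u hw
    have h1 : |w.re - s.re| < δ := by
      have := Complex.abs_re_le_norm (w - s)
      rw [Complex.sub_re] at this
      rw [Metric.mem_ball, dist_eq_norm] at hw
      linarith
    rw [norm_mul, norm_mul, Complex.norm_exp, norm_neg, Complex.norm_real, Real.norm_eq_abs, ← mul_add,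
      mul_left_comm (1 / δ)]
    refine mul_le_mul_of_nonneg_left ?_ (norm_nonneg (H u))
    have h2 : (-w * (u : ℂ)).re = -(w.re * u) := by simp
    rw [h2]
    have h3 : δ * |u| ≤ Real.exp (δ * |u|) := by
      have := Real.add_one_le_exp (δ * |u|); linarith
    have h4 : |u| ≤ (1 / δ) * Real.exp (δ * |u|) := by
      rw [one_div, ← div_eq_inv_mul, le_div_iff₀ hδ0]; linarith
    have h5 : -(w.re * u) ≤ -(s.re * u) + δ * |u| := by
      have h6 : -((w.re - s.re) * u) ≤ |w.re - s.re| * |u| := by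
        rw [← abs_mul]; exact neg_le_abs _
      have h7 : |w.re - s.re| * |u| ≤ δ * |u| := mul_le_mul_of_nonneg_right h1.le (abs_nonneg _)
      linarith
    calc Real.exp (-(w.re * u)) * |u| ≤ Real.exp (-(s.re * u) + δ * |u|) * ((1 / δ) * Real.exp (δ * |u|)) :=
          mul_le_mul (Real.exp_le_exp.2 h5) h4 (abs_nonneg _) (Real.exp_pos _).le
      _ = (1 / δ) * Real.exp (-(s.re * u) + 2 * δ * |u|) := by
          rw [mul_left_comm, ← Real.exp_add]
          congr 2; ring
      _ ≤ (1 / δ) * (Real.exp (-((s.re - 2 * δ) * u)) + Real.exp (-((s.re + 2 * δ) * u))) := by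
          refine mul_le_mul_of_nonneg_left ?_ (by positivity)
          rcases le_total 0 u with hu | hu
          · rw [abs_of_nonneg hu]
            have : -(s.re * u) + 2 * δ * u = -((s.re - 2 * δ) * u) := by ring
            rw [this]
            linarith [Real.exp_pos (-((s.re + 2 * δ) * u))]
          · rw [abs_of_nonpos hu]
            have : -(s.re * u) + 2 * δ * -u = -((s.re + 2 * δ) * u) := by ring
            rw [this]
            linarith [Real.exp_pos (-((s.re - 2 * δ) * u))]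
  have hmeas : ∀ w : ℂ, AEStronglyMeasurable (fun u : ℝ => H u * cexp (-w * u)) volume := fun w =>
    (hHm.mul (by fun_prop)).aestronglyMeasurable
  have hd := hasDerivAt_integral_of_dominated_loc_of_deriv_le (𝕜 := ℂ) (μ := volume)
    (F := fun (w : ℂ) (u : ℝ) => H u * cexp (-w * u)) (F' := fun (w : ℂ) (u : ℝ) => H u * (cexp (-w * u) * (-(u : ℂ))))
    (x₀ := s) (s := Metric.ball s δ)
    (bound := fun u => (1 / δ) * (‖H u‖ * Real.exp (-((s.re - 2 * δ) * u)) + ‖H u‖ * Real.exp (-((s.re + 2 * δ) * u))))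
    (Metric.ball_mem_nhds s hδ0) (Eventually.of_forall fun w => hmeas w) (lap_int hHm (hI _ hs))
    ((hHm.mul (by fun_prop)).aestronglyMeasurable) (ae_of_all _ fun u w hw => key w u hw)
    (((hI _ (by rw [hδ]; linarith)).add (hI _ (by linarith))).const_mul _)
    (ae_of_all _ fun u w _ => by
      have h1 : HasDerivAt (fun w : ℂ => -w * (u : ℂ)) (-(u : ℂ)) w := by
        simpa using (hasDerivAt_id w).neg.mul_const (u : ℂ)
      exact (h1.cexp).const_mul (H u))
  exact hd.2.differentiableAt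

theorem lap_bdd {H : ℝ → ℂ} {β' : ℝ}
    (hI : ∀ σ : ℝ, β' < σ → Integrable fun u : ℝ => ‖H u‖ * Real.exp (-(σ * u))) {σ₀ c : ℝ} (hσ₀ : β' < σ₀) (hc : σ₀ ≤ c) :
    ∃ K : ℝ, 0 ≤ K ∧ ∀ s : ℂ, σ₀ ≤ s.re → s.re ≤ c → ‖Lap H s‖ ≤ K := by
  refine ⟨∫ u : ℝ, (‖H u‖ * Real.exp (-(σ₀ * u)) + ‖H u‖ * Real.exp (-(c * u))),
    integral_nonneg fun u => by positivity, fun s h1 h2 => ?_⟩
  refine norm_integral_le_of_norm_le ((hI _ hσ₀).add (hI _ (by linarith))) (ae_of_all _ fun u => ?_)
  rw [lap_norm, ← mul_add]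
  refine mul_le_mul_of_nonneg_left ?_ (norm_nonneg _)
  rcases le_total 0 u with hu | hu
  · have : Real.exp (-(s.re * u)) ≤ Real.exp (-(σ₀ * u)) := Real.exp_le_exp.2 (by nlinarith)
    linarith [Real.exp_pos (-(c * u))]
  · have : Real.exp (-(s.re * u)) ≤ Real.exp (-(c * u)) := Real.exp_le_exp.2 (by nlinarith)
    linarith [Real.exp_pos (-(σ₀ * u))]

theorem lap_shift {f : ℝ → ℂ} (b : ℝ) (s : ℂ) : Lap (fun u => f (u + b)) s = cexp (s * b) * Lap f s := by
  unfold Lap
  rw [← integral_const_mul]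
  have h := integral_add_right_eq_self (μ := volume) (fun u : ℝ => f u * cexp (-s * (u - b))) b
  have e1 : ∀ u : ℝ, f (u + b) * cexp (-s * u) = f (u + b) * cexp (-s * ((u + b : ℝ) - b)) := by
    intro u; push_cast; ring_nf
  simp_rw [e1]
  rw [h]
  refine integral_congr_ae (ae_of_all _ fun u => ?_)
  simp only
  have : -s * ((u : ℂ) - b) = s * b + -s * u := by ring
  rw [this, Complex.exp_add]
  ring

/-- windows to weighted integrability -/
theorem win_int {H : ℝ → ℂ} (hHm : Measurable H) {b C c h M β' : ℝ} (hh : 0 < h) (hb : 0 ≤ b) (hC : 0 ≤ C)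
    (hH0 : ∀ u, u < -b → H u = 0) (hHb : ∀ u, ‖H u‖ ≤ C * Real.exp (c * |u|)) (hM : 0 ≤ M)
    (hw : ∀ m : ℕ, ∫ v in Icc 0 h, ‖H (m * h + v)‖ ≤ M * Real.exp (β' * h * m)) {σ : ℝ} (hσ : β' < σ) :
    Integrable fun u : ℝ => ‖H u‖ * Real.exp (-(σ * u)) := by
  set g : ℝ → ℝ := fun u => ‖H u‖ * Real.exp (-(σ * u)) with hg
  have hgm : Measurable g := hHm.norm.mul (by fun_prop)
  have hloc : ∀ x y : ℝ, IntegrableOn g (Icc x y) := by
    intro x y
    have hcont : ContinuousOn (fun u => C * Real.exp (c * |u|) * Real.exp (-(σ * u))) (Icc x y) := by fun_prop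
    refine (hcont.integrableOn_Icc).mono' hgm.aestronglyMeasurable (ae_of_all _ fun u => ?_)
    rw [hg, Real.norm_eq_abs, abs_of_nonneg (by positivity)]
    exact mul_le_mul_of_nonneg_right (hHb u) (Real.exp_pos _).le
  -- negative part
  have h1 : IntegrableOn g (Iio 0) := by
    have h2 : IntegrableOn g (Iio 0 ∩ Icc (-b) 0) := (hloc _ _).mono_set inter_subset_right
    have h3 : IntegrableOn g (Iio (-b)) := by
      refine IntegrableOn.congr_fun (f := fun _ => (0:ℝ)) integrableOn_zero (fun u hu => ?_) measurableSet_Iio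
      simp only [hg]
      rw [hH0 u hu]; simp
    refine (h2.union h3).mono_set fun u hu => ?_
    rcases lt_or_ge u (-b) with h4 | h4
    · exact Or.inr h4
    · exact Or.inl ⟨hu, h4, (le_of_lt hu)⟩
  -- positive part
  have h2 : IntegrableOn g (Ici 0) := by
    have hcov : (⋃ m : ℕ, Ico ((m:ℝ) * h) ((m:ℝ) * h + h)) = Ici 0 := by
      ext u
      simp only [mem_iUnion, mem_Ico, mem_Ici]
      constructor
      · rintro ⟨m, hm, _⟩
        exact le_trans (by positivity) hm
      · intro hu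
        refine ⟨⌊u / h⌋₊, ?_, ?_⟩
        · have := Nat.floor_le (div_nonneg hu hh.le)
          rwa [le_div_iff₀ hh] at this
        · have := Nat.lt_floor_add_one (u / h)
          rw [div_lt_iff₀ hh] at this
          linarith
    rw [← hcov]
    refine integrableOn_iUnion_of_summable_integral_norm
      (fun m => (hloc _ _).mono_set Ico_subset_Icc_self) ?_
    have hwin : ∀ m : ℕ, ∫ u in Ico ((m:ℝ) * h) ((m:ℝ) * h + h), ‖g u‖ ≤
        (M * Real.exp (|σ| * h)) * Real.exp (-((σ - β') * h)) ^ m := by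
      intro m
      have e1 : ∫ u in Ico ((m:ℝ) * h) ((m:ℝ) * h + h), ‖g u‖ = ∫ v in Icc 0 h, ‖g (m * h + v)‖ := by
        rw [integral_Ico_eq_integral_Ioo, ← integral_Ioc_eq_integral_Ioo, integral_Icc_eq_integral_Ioc,
          ← intervalIntegral.integral_of_le hh.le, ← intervalIntegral.integral_of_le (by linarith)]
        have h4 := intervalIntegral.integral_comp_add_left (fun u => ‖g u‖) ((m:ℝ) * h) (a := 0) (b := h)
        rw [add_zero] at h4
        exact h4.symm
      rw [e1]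
      have hHloc : IntegrableOn (fun v => ‖H (m * h + v)‖) (Icc 0 h) := by
        have hcont : ContinuousOn (fun v => C * Real.exp (c * |m * h + v|)) (Icc 0 h) := by fun_prop
        refine (hcont.integrableOn_Icc).mono' (hHm.comp (measurable_const_add _)).norm.aestronglyMeasurable
          (ae_of_all _ fun u => ?_)
        rw [norm_norm]
        exact hHb _
      have hpt : ∀ v ∈ Icc 0 h, ‖g (m * h + v)‖ ≤ Real.exp (-(σ * (m * h)) + |σ| * h) * ‖H (m * h + v)‖ := by
        intro v hv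
        simp only [hg]
        rw [Real.norm_eq_abs, abs_of_nonneg (by positivity), mul_comm]
        refine mul_le_mul_of_nonneg_right (Real.exp_le_exp.2 ?_) (norm_nonneg (H (m * h + v)))
        have h5 : -(σ * v) ≤ |σ| * h := by
          calc -(σ * v) ≤ |σ * v| := neg_le_abs _
            _ = |σ| * v := by rw [abs_mul, abs_of_nonneg hv.1]
            _ ≤ |σ| * h := mul_le_mul_of_nonneg_left hv.2 (abs_nonneg _)
        linarith
      calc ∫ v in Icc 0 h, ‖g (m * h + v)‖ ≤ ∫ v in Icc 0 h, Real.exp (-(σ * (m * h)) + |σ| * h) * ‖H (m * h + v)‖ := by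
            refine integral_mono_of_nonneg (ae_of_all _ fun v => norm_nonneg _) (hHloc.const_mul _) ?_
            exact (ae_restrict_iff' measurableSet_Icc).2 (ae_of_all _ hpt)
        _ = Real.exp (-(σ * (m * h)) + |σ| * h) * ∫ v in Icc 0 h, ‖H (m * h + v)‖ := integral_const_mul _ _
        _ ≤ Real.exp (-(σ * (m * h)) + |σ| * h) * (M * Real.exp (β' * h * m)) :=
            mul_le_mul_of_nonneg_left (hw m) (Real.exp_pos _).le
        _ = _ := by
            rw [← Real.exp_nat_mul]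
            have : Real.exp (-(σ * (m * h)) + |σ| * h) * (M * Real.exp (β' * h * m)) =
                M * (Real.exp (-(σ * (m * h)) + |σ| * h) * Real.exp (β' * h * m)) := by ring
            rw [this, mul_assoc M, ← Real.exp_add, ← Real.exp_add]
            congr 2; ring
    refine Summable.of_nonneg_of_le (fun m => integral_nonneg fun u => norm_nonneg _) hwin ?_
    refine (summable_geometric_of_lt_one (Real.exp_pos _).le ?_).mul_left _
    rw [Real.exp_lt_one_iff]
    have : 0 < (σ - β') * h := mul_pos (by linarith) hh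
    linarith
  have h3 := h1.union h2
  rwa [Iio_union_Ici, integrableOn_univ] at h3

/-- the function `∑ q_i f (u + i h)` -/
def Hq (f : ℝ → ℂ) (q : Fin (r + 1) → ℂ) (h : ℝ) (u : ℝ) : ℂ := ∑ i, q i * f (u + (i : ℕ) * h)

/-- the exponential polynomial `∑ q_i e^{i h s}` -/
def Pq (q : Fin (r + 1) → ℂ) (h : ℝ) (s : ℂ) : ℂ := ∑ i : Fin (r + 1), q i * cexp (s * (((i : ℕ) * h : ℝ) : ℂ))

theorem Pq_diff (q : Fin (r + 1) → ℂ) (h : ℝ) : Differentiable ℂ (Pq q h) := by
  unfold Pq; fun_prop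

theorem lap_Hq {f : ℝ → ℂ} (hfm : Measurable f) (q : Fin (r + 1) → ℂ) (h : ℝ) {s : ℂ}
    (hI : Integrable fun u : ℝ => ‖f u‖ * Real.exp (-(s.re * u))) : Lap (Hq f q h) s = Pq q h s * Lap f s := by
  have hi : ∀ i : Fin (r + 1), Integrable fun u : ℝ => q i * f (u + (i : ℕ) * h) * cexp (-s * u) := by
    intro i
    have h1 := ((lap_int hfm hI).comp_add_right (((i : ℕ) : ℝ) * h)).const_mul (q i * cexp (s * (((i : ℕ) * h : ℝ) : ℂ)))
    refine h1.congr (ae_of_all _ fun u => ?_)
    simp only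
    have : cexp (-s * ((u + (i : ℕ) * h : ℝ) : ℂ)) * cexp (s * (((i : ℕ) * h : ℝ) : ℂ)) = cexp (-s * u) := by
      rw [← Complex.exp_add]; congr 1; push_cast; ring
    rw [← this]; ring
  unfold Hq Lap Pq
  simp only [Finset.sum_mul]
  rw [integral_finsetSum _ fun i _ => hi i]
  refine Finset.sum_congr rfl fun i _ => ?_
  have h1 := lap_shift (f := f) (((i : ℕ) : ℝ) * h) s
  unfold Lap at h1
  rw [mul_assoc (q i), ← h1, ← integral_const_mul]
  refine integral_congr_ae (ae_of_all _ fun u => ?_)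
  simp only
  ring

theorem f_int {f : ℝ → ℂ} (hfm : Measurable f) (hf0 : ∀ u, u < 0 → f u = 0) {C c₁ : ℝ} (hC : 0 ≤ C)
    (hf : ∀ u, 0 ≤ u → ‖f u‖ ≤ C * Real.exp (c₁ * u)) {c : ℝ} (hc : c₁ < c) :
    Integrable fun u : ℝ => ‖f u‖ * Real.exp (-(c * u)) := by
  refine win_int (b := 0) (C := C) (c := |c₁|) (h := 1) (M := C * Real.exp |c₁|) (β' := c₁) hfm one_pos le_rfl hC
    (fun u hu => hf0 u (by linarith)) (fun u => ?_) (by positivity) (fun m => ?_) hc
  · rcases lt_or_ge u 0 with hu | hu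
    · rw [hf0 u hu, norm_zero]; positivity
    · refine (hf u hu).trans (mul_le_mul_of_nonneg_left (Real.exp_le_exp.2 ?_) hC)
      rw [abs_of_nonneg hu]
      exact mul_le_mul_of_nonneg_right (le_abs_self _) hu
  · have h1 : ‖∫ v in Icc (0:ℝ) 1, ‖f (m * 1 + v)‖‖ ≤ (C * Real.exp |c₁| * Real.exp (c₁ * 1 * m)) * volume.real (Icc (0:ℝ) 1) := by
      refine norm_setIntegral_le_of_norm_le_const (by simp) fun v hv => ?_
      rw [norm_norm]
      have h2 : (0:ℝ) ≤ m * 1 + v := by have := hv.1; positivity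
      refine (hf _ h2).trans ?_
      rw [mul_assoc, ← Real.exp_add]
      refine mul_le_mul_of_nonneg_left (Real.exp_le_exp.2 ?_) hC
      have h3 : c₁ * v ≤ |c₁| := by
        calc c₁ * v ≤ |c₁| * v := mul_le_mul_of_nonneg_right (le_abs_self _) hv.1
          _ ≤ |c₁| * 1 := mul_le_mul_of_nonneg_left hv.2 (abs_nonneg _)
          _ = |c₁| := mul_one _
      linarith
    have h4 : volume.real (Icc (0:ℝ) 1) = 1 := by simp [measureReal_def]
    rw [h4] at h1
    refine (le_abs_self _).trans (h1.trans (le_of_eq (mul_one _)))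

/-- **main theorem on transforms** -/
theorem transform {f : ℝ → ℂ} (hfm : Measurable f) (hf0 : ∀ u, u < 0 → f u = 0) {C c₁ : ℝ} (hC : 0 ≤ C)
    (hf : ∀ u, 0 ≤ u → ‖f u‖ ≤ C * Real.exp (c₁ * u))
    {a a' β β' h : ℝ} (hh : 0 < h) (hra : (r + 2) * h ≤ a) (hra' : (r + 2) * h ≤ a') (hβ : β < β')
    (H : ∀ᶠ t : ℝ in atTop, LNear f a a' r (Real.exp (β * t)) t) :
    ∃ q : Fin (r + 1) → ℂ, ∑ i, ‖q i‖ = 1 ∧
      (∀ σ : ℝ, β' < σ → Integrable fun u : ℝ => ‖Hq f q h u‖ * Real.exp (-(σ * u))) ∧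
      (∀ s : ℂ, β' < s.re → DifferentiableAt ℂ (Lap (Hq f q h)) s) ∧
      (∀ s : ℂ, c₁ < s.re → Lap (Hq f q h) s = Pq q h s * Lap f s) ∧
      ∀ σ₀ c : ℝ, β' < σ₀ → σ₀ ≤ c → ∃ K : ℝ, 0 ≤ K ∧ ∀ s : ℂ, σ₀ ≤ s.re → s.re ≤ c → ‖Lap (Hq f q h) s‖ ≤ K := by
  obtain ⟨q, hq, M, hM0, hM⟩ := all_scales hfm hC hf hh hra hra' hβ H
  have hHm : Measurable (Hq f q h) := by
    unfold Hq
    refine Finset.measurable_fun_sum _ fun i _ => ?_
    exact (hfm.comp (measurable_add_const _)).const_mul _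
  have hfall : ∀ u, ‖f u‖ ≤ C * Real.exp (|c₁| * |u|) := by
    intro u
    rcases lt_or_ge u 0 with hu | hu
    · rw [hf0 u hu, norm_zero]; positivity
    · refine (hf u hu).trans (mul_le_mul_of_nonneg_left (Real.exp_le_exp.2 ?_) hC)
      rw [abs_of_nonneg hu]
      exact mul_le_mul_of_nonneg_right (le_abs_self _) hu
  have hqle : ∀ i, ‖q i‖ ≤ 1 := fun i => by
    rw [← hq]
    exact Finset.single_le_sum (f := fun i => ‖q i‖) (fun i _ => norm_nonneg _) (Finset.mem_univ i)
  have hHb : ∀ u, ‖Hq f q h u‖ ≤ (C * Real.exp (|c₁| * (r * h))) * Real.exp (|c₁| * |u|) := by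
    intro u
    unfold Hq
    refine (norm_sum_le _ _).trans ?_
    calc ∑ i : Fin (r + 1), ‖q i * f (u + (i : ℕ) * h)‖ ≤ ∑ i : Fin (r + 1), ‖q i‖ * ((C * Real.exp (|c₁| * (r * h))) * Real.exp (|c₁| * |u|)) := by
          refine Finset.sum_le_sum fun i _ => ?_
          rw [norm_mul]
          refine mul_le_mul_of_nonneg_left ((hfall _).trans ?_) (norm_nonneg _)
          rw [mul_assoc, ← Real.exp_add]
          refine mul_le_mul_of_nonneg_left (Real.exp_le_exp.2 ?_) hC
          rw [← mul_add]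
          refine mul_le_mul_of_nonneg_left ?_ (abs_nonneg _)
          have h1 : ((i : ℕ) : ℝ) ≤ r := by exact_mod_cast Nat.lt_succ_iff.1 i.2
          have h2 : ((i : ℕ) : ℝ) * h ≤ r * h := mul_le_mul_of_nonneg_right h1 hh.le
          have h3 : 0 ≤ ((i : ℕ) : ℝ) * h := by positivity
          calc |u + (i : ℕ) * h| ≤ |u| + |((i : ℕ) : ℝ) * h| := abs_add_le _ _
            _ = |u| + ((i : ℕ) : ℝ) * h := by rw [abs_of_nonneg h3]
            _ ≤ r * h + |u| := by linarith
      _ = _ := by rw [← Finset.sum_mul, hq, one_mul]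
  have hHint : ∀ σ : ℝ, β' < σ → Integrable fun u : ℝ => ‖Hq f q h u‖ * Real.exp (-(σ * u)) := by
    intro σ hσ
    refine win_int (b := r * h) (C := C * Real.exp (|c₁| * (r * h))) (c := |c₁|) (h := h) (M := M) (β' := β') hHm hh
      (by positivity) (by positivity) (fun u hu => ?_) hHb hM0 (fun m => ?_) hσ
    · unfold Hq
      refine Finset.sum_eq_zero fun i _ => ?_
      have h1 : ((i : ℕ) : ℝ) ≤ r := by exact_mod_cast Nat.lt_succ_iff.1 i.2
      have h2 : ((i : ℕ) : ℝ) * h ≤ r * h := mul_le_mul_of_nonneg_right h1 hh.le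
      rw [hf0 _ (by linarith), mul_zero]
    · refine le_trans (le_of_eq ?_) (hM m)
      refine integral_congr_ae (ae_of_all _ fun v => ?_)
      simp only [Hq]
      congr 1
      refine Finset.sum_congr rfl fun i _ => ?_
      congr 2
      ring
  refine ⟨q, hq, hHint, fun s hs => lap_diff hHm hHint hs, fun s hs => lap_Hq hfm q h (f_int hfm hf0 hC hf hs),
    fun σ₀ c h1 h2 => lap_bdd hHint h1 h2⟩

end

end Pool.Agent.H480.K
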