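import Pool.Agent.H480.K5

/-!
Separable approximations in multiplicative variables and in logarithmic variables.
-/

open Filter Topology Set MeasureTheory Complex

set_option linter.unusedSectionVars false

namespace Pool.Agent.H480.K

noncomputable section

/-- on `[1, A] × [1, A']` the function `S (X x y)` is within `X ^ β` in the mean of a sum of `r` products
`u_i (x) v_i (y)` -/
def Near (S : ℝ → ℂ) (A A' : ℝ) (r : ℕ) (β X : ℝ) : Prop :=
  ∃ u v : Fin r → ℝ → ℂ, (∀ i, IntegrableOn (u i) (Icc 1 A)) ∧ (∀ i, IntegrableOn (v i) (Icc 1 A')) ∧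
    ∫ z in Icc 1 A ×ˢ Icc 1 A', ‖S (X * z.1 * z.2) - ∑ i, u i z.1 * v i z.2‖ ≤ X ^ β

theorem exp_image {A : ℝ} (hA : 1 ≤ A) : Real.exp '' Icc 0 (Real.log A) = Icc 1 A := by
  have hA0 : 0 < A := by linarith
  ext t
  constructor
  · rintro ⟨u, hu, rfl⟩
    refine ⟨by rw [← Real.exp_zero]; exact Real.exp_le_exp.2 hu.1, ?_⟩
    calc Real.exp u ≤ Real.exp (Real.log A) := Real.exp_le_exp.2 hu.2
      _ = A := Real.exp_log hA0
  · intro ht
    have ht0 : 0 < t := lt_of_lt_of_le one_pos ht.1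
    exact ⟨Real.log t, ⟨Real.log_nonneg ht.1, Real.log_le_log ht0 ht.2⟩, Real.exp_log ht0⟩

theorem cv_int {E : Type*} [NormedAddCommGroup E] [NormedSpace ℝ E] {g : ℝ → E} {A : ℝ} (hA : 1 ≤ A)
    (hg : IntegrableOn g (Icc 1 A)) : IntegrableOn (fun x => g (Real.exp x)) (Icc 0 (Real.log A)) := by
  rw [← exp_image hA, integrableOn_image_iff_integrableOn_abs_deriv_smul measurableSet_Icc
    (fun x _ => (Real.hasDerivAt_exp x).hasDerivWithinAt) Real.exp_injective.injOn] at hg
  have h1 : IntegrableOn (fun x => Real.exp (-x) • (|Real.exp x| • g (Real.exp x))) (Icc 0 (Real.log A)) := by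
    refine Integrable.mono hg ?_ ?_
    · exact (Continuous.aestronglyMeasurable (by fun_prop)).smul hg.aestronglyMeasurable
    · refine (ae_restrict_iff' measurableSet_Icc).2 (ae_of_all _ fun x hx => ?_)
      rw [norm_smul, Real.norm_eq_abs, abs_of_pos (Real.exp_pos _)]
      refine mul_le_of_le_one_left (norm_nonneg _) ?_
      rw [Real.exp_le_one_iff]
      linarith [hx.1]
  refine h1.congr (ae_of_all _ fun x => ?_)
  simp only
  rw [smul_smul, abs_of_pos (Real.exp_pos _), ← Real.exp_add]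
  simp

theorem cv_le {g : ℝ → ℝ} {A : ℝ} (hA : 1 ≤ A)
    (hg : IntegrableOn g (Icc 1 A)) (h0 : ∀ x ∈ Icc 1 A, 0 ≤ g x) :
    ∫ x in Icc 0 (Real.log A), g (Real.exp x) ≤ ∫ x in Icc 1 A, g x := by
  have h1 := cv_int hA hg
  have hA0 : 0 < A := by linarith
  have h2 : ∫ y in Icc 1 A, g y = ∫ u in Icc 0 (Real.log A), |Real.exp u| • g (Real.exp u) := by
    rw [← exp_image hA, integral_image_eq_integral_abs_deriv_smul measurableSet_Icc
      (fun x _ => (Real.hasDerivAt_exp x).hasDerivWithinAt) Real.exp_injective.injOn]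
  rw [h2]
  have h3 : IntegrableOn (fun u => |Real.exp u| • g (Real.exp u)) (Icc 0 (Real.log A)) := by
    rwa [← exp_image hA, integrableOn_image_iff_integrableOn_abs_deriv_smul measurableSet_Icc
      (fun x _ => (Real.hasDerivAt_exp x).hasDerivWithinAt) Real.exp_injective.injOn] at hg
  refine setIntegral_mono_on h1 h3 measurableSet_Icc fun x hx => ?_
  have hmem : Real.exp x ∈ Icc 1 A := by
    rw [← exp_image hA]; exact mem_image_of_mem _ hx
  rw [smul_eq_mul, abs_of_pos (Real.exp_pos _)]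
  refine le_mul_of_one_le_left (h0 _ hmem) ?_
  exact Real.one_le_exp hx.1

theorem near_log {S : ℝ → ℂ} (hSm : Measurable S) {C c₁ : ℝ} (hS : ∀ u, 0 ≤ u → ‖S (Real.exp u)‖ ≤ C * Real.exp (c₁ * u))
    {A A' : ℝ} (hA : 1 ≤ A) (hA' : 1 ≤ A') {r : ℕ} {β t : ℝ} (ht : 0 ≤ t) (h : Near S A A' r β (Real.exp t)) :
    LNear (fun u => S (Real.exp u)) (Real.log A) (Real.log A') r (Real.exp (β * t)) t := by
  obtain ⟨u, v, hu, hv, hle⟩ := h
  have hA0 : 0 < A := by linarith
  have hA0' : 0 < A' := by linarith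
  set X : ℝ := Real.exp t with hX
  have hX1 : 1 ≤ X := Real.one_le_exp ht
  have hX0 : 0 < X := Real.exp_pos t
  set B : ℝ := |C| * Real.exp (|c₁| * (t + Real.log A + Real.log A')) with hB
  have hSB : ∀ x ∈ Icc 1 A, ∀ y ∈ Icc 1 A', ‖S (X * x * y)‖ ≤ B := by
    intro x hx y hy
    have hx0 : 0 < x := lt_of_lt_of_le one_pos hx.1
    have hy0 : 0 < y := lt_of_lt_of_le one_pos hy.1
    have e1 : X * x * y = Real.exp (t + Real.log x + Real.log y) := by
      rw [Real.exp_add, Real.exp_add, Real.exp_log hx0, Real.exp_log hy0]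
    have h1 := Real.log_nonneg hx.1
    have h2 := Real.log_nonneg hy.1
    have h3 := Real.log_le_log hx0 hx.2
    have h4 := Real.log_le_log hy0 hy.2
    rw [e1]
    refine (hS _ (by linarith)).trans ?_
    refine mul_le_mul (le_abs_self _) (Real.exp_le_exp.2 ?_) (Real.exp_pos _).le (abs_nonneg _)
    calc c₁ * (t + Real.log x + Real.log y) ≤ |c₁| * (t + Real.log x + Real.log y) :=
          mul_le_mul_of_nonneg_right (le_abs_self _) (by linarith)
      _ ≤ _ := mul_le_mul_of_nonneg_left (by linarith) (abs_nonneg _)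
  -- integrability on the product
  set κ : ℝ × ℝ → ℝ := fun z => ‖S (X * z.1 * z.2) - ∑ i, u i z.1 * v i z.2‖ with hκ
  have hint : Integrable κ ((volume.restrict (Icc 1 A)).prod (volume.restrict (Icc 1 A'))) := by
    refine Integrable.norm (Integrable.sub ?_ (integrable_finsetSum _ fun i _ => (hu i).mul_prod (hv i)))
    rw [Measure.prod_restrict]
    refine Measure.integrableOn_of_bounded (M := B) ?_ ?_ ?_
    · rw [Measure.prod_prod]
      simp
      exact ENNReal.mul_ne_top ENNReal.ofReal_ne_top ENNReal.ofReal_ne_top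
    · exact (hSm.comp (by fun_prop)).aestronglyMeasurable
    · refine (ae_restrict_iff' (measurableSet_Icc.prod measurableSet_Icc)).2 (ae_of_all _ fun z hz => ?_)
      exact hSB _ hz.1 _ hz.2
  have hyint : ∀ x ∈ Icc 1 A, IntegrableOn (fun y => κ (x, y)) (Icc 1 A') := by
    intro x hx
    have hI2 : IntegrableOn (fun y => ∑ i, u i x * v i y) (Icc 1 A') :=
      integrable_finsetSum _ fun i _ => (hv i).const_mul _
    refine Integrable.norm (Integrable.sub ?_ hI2)
    refine Measure.integrableOn_of_bounded (M := B) (by simp) ?_ ?_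
    · exact (hSm.comp (by fun_prop)).aestronglyMeasurable
    · exact (ae_restrict_iff' measurableSet_Icc).2 (ae_of_all _ fun y hy => hSB _ hx _ hy)
  have hΦint : IntegrableOn (fun x => ∫ y in Icc 1 A', κ (x, y)) (Icc 1 A) := hint.integral_prod_left
  have hfub : ∫ x in Icc 1 A, ∫ y in Icc 1 A', κ (x, y) ≤ X ^ β := by
    refine le_trans (le_of_eq ?_) hle
    rw [Measure.volume_eq_prod, ← Measure.prod_restrict, integral_prod _ hint]
  refine ⟨fun j x => u j (Real.exp x), fun j y => v j (Real.exp y), fun x => ∫ y in Icc 1 A', κ (Real.exp x, y),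
    fun j => cv_int hA' (hv j), cv_int hA hΦint, ?_, fun x hx => ?_⟩
  · refine (cv_le hA hΦint fun x _ => integral_nonneg fun y => norm_nonneg _).trans (hfub.trans (le_of_eq ?_))
    rw [hX, ← Real.exp_mul, mul_comm]
  · have hmem : Real.exp x ∈ Icc 1 A := by
      rw [← exp_image hA]; exact mem_image_of_mem _ hx
    have h5 := cv_le hA' (hyint _ hmem) fun y _ => norm_nonneg _
    refine le_trans (le_of_eq ?_) h5
    refine integral_congr_ae (ae_of_all _ fun w => ?_)
    simp only [hκ]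
    rw [Real.exp_add, Real.exp_add]

theorem near_log_ev {S : ℝ → ℂ} (hSm : Measurable S) {C c₁ : ℝ} (hS : ∀ u, 0 ≤ u → ‖S (Real.exp u)‖ ≤ C * Real.exp (c₁ * u))
    {A A' : ℝ} (hA : 1 ≤ A) (hA' : 1 ≤ A') {r : ℕ} {β : ℝ} (h : ∀ᶠ X : ℝ in atTop, Near S A A' r β X) :
    ∀ᶠ t : ℝ in atTop, LNear (fun u => S (Real.exp u)) (Real.log A) (Real.log A') r (Real.exp (β * t)) t := by
  filter_upwards [Real.tendsto_exp_atTop.eventually h, eventually_ge_atTop 0] with t h1 h2
  exact near_log hSm hS hA hA' h2 h1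

end

end Pool.Agent.H480.K
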