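import Pool.Agent.H480.K6
import Pool.Agent.H480.G12

/-!
From analytic continuation with bounds to separable approximations.
-/

open Complex MeasureTheory Filter Topology Set
open scoped ComplexConjugate

set_option linter.unusedSectionVars false

namespace Pool.Agent.H480.K

open Pool.Agent.H480.G
open H313.GK
open H313.TK (Ist int_exp_abs)

noncomputable section

/-- transform of the remainder -/
theorem rem_trans {f : ℕ → ℂ} {b : ℝ} (hb : 0 ≤ b) (hf : ∀ n : ℕ, n ≠ 0 → ‖f n‖ ≤ (n : ℝ) ^ b) {n : ℕ}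
    (ρ a : Fin n → ℂ) {G : ℂ → ℂ} {s : ℂ}
    (hs : b + 1 < s.re) (hs2 : ‖Tm ρ‖ < s.re) (hne : ∀ k, s - ρ k ≠ 0)
    (hform : LSeries f s / s = ∑ k, a k * (1 / ∏ i ∈ Finset.Ici k, (s - ρ i)) + G s) :
    ∫ u : ℝ, HR f ρ a u * cexp (-s * u) = G s := by
  have h1 := trans_F hb hf (s := s) hs
  obtain ⟨e1, e2⟩ := Ex_lap ρ a s hne hs2
  have i1 : Integrable fun u : ℝ => SM f (Real.exp u) * cexp (-s * u) := by
    have h2 := F_int (SM_meas f) zero_le_one (SM_bd hb hf) (fun u hu => SM_zero _ hu)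
      (c := s.re) hs
    refine h2.mono' ?_ (ae_of_all _ fun u => ?_)
    · exact (((SM_meas f).comp Real.measurable_exp).mul (by fun_prop)).aestronglyMeasurable
    · rw [norm_mul, Complex.norm_exp]
      simp
  have e3 : (fun u : ℝ => (if 0 ≤ u then Ex ρ a u else 0) * cexp (-s * u)) =
      (Ici (0:ℝ)).indicator fun u : ℝ => Ex ρ a u * cexp (-s * u) := by
    funext u
    by_cases hu : 0 ≤ u
    · rw [if_pos hu, Set.indicator_of_mem (show u ∈ Ici (0:ℝ) from hu)]
    · rw [if_neg hu, Set.indicator_of_notMem (show u ∉ Ici (0:ℝ) from hu), zero_mul]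
  have i2 : Integrable fun u : ℝ => (if 0 ≤ u then Ex ρ a u else 0) * cexp (-s * u) := by
    rw [e3, integrable_indicator_iff measurableSet_Ici]
    exact (integrableOn_Ici_iff_integrableOn_Ioi (by simp)).2 e1
  have h3 : ∫ u : ℝ, (if 0 ≤ u then Ex ρ a u else 0) * cexp (-s * u) =
      ∑ k, a k * (1 / ∏ i ∈ Finset.Ici k, (s - ρ i)) := by
    rw [e3, integral_indicator measurableSet_Ici, integral_Ici_eq_integral_Ioi, e2]
  have h4 : ∀ u : ℝ, HR f ρ a u * cexp (-s * u) = SM f (Real.exp u) * cexp (-s * u) -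
      (if 0 ≤ u then Ex ρ a u else 0) * cexp (-s * u) := by
    intro u
    unfold HR
    ring
  simp_rw [h4]
  rw [integral_sub i1 i2, h3]
  have h5 : ∫ u : ℝ, SM f (Real.exp u) * cexp (-s * u) = LSeries f s / s := h1
  rw [h5, hform]
  ring

/-- bound for the remainder of the partial fractions -/
theorem rem_bound {δ σ c : ℝ} (hσ : δ < σ) {n : ℕ}
    {ρ a : Fin n → ℂ} {F G : ℂ → ℂ} (hG : DifferentiableOn ℂ G {s | δ < s.re})
    (hform : ∀ s : ℂ, δ < s.re → (∀ k, s - ρ k ≠ 0) →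
      F s = ∑ k, a k * (1 / ∏ i ∈ Finset.Ici k, (s - ρ i)) + G s)
    {C T : ℝ} (hC : 0 ≤ C) (hF : ∀ s : ℂ, σ ≤ s.re → s.re ≤ c → T ≤ |s.im| → ‖F s‖ ≤ C * (1 + |s.im|) ^ (-(3 / 4) : ℝ)) :
    ∃ D : ℝ, 0 ≤ D ∧ ∀ s : ℂ, σ ≤ s.re → s.re ≤ c → ‖G s‖ ≤ D * (1 + |s.im|) ^ (-(3 / 4) : ℝ) := by
  set R0 : ℝ := ∑ k, ‖ρ k‖ with hR0
  have hR0n : 0 ≤ R0 := Finset.sum_nonneg fun _ _ => norm_nonneg _
  have hρR : ∀ k, ‖ρ k‖ ≤ R0 := fun k =>
    Finset.single_le_sum (f := fun k => ‖ρ k‖) (fun _ _ => norm_nonneg _) (Finset.mem_univ k)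
  have hbig : ∀ s : ℂ, R0 < |s.im| → ∀ k, s - ρ k ≠ 0 := by
    intro s hs k h0
    have h1 : s = ρ k := sub_eq_zero.1 h0
    have h2 := (Complex.abs_im_le_norm (ρ k)).trans (hρR k)
    rw [← h1] at h2
    linarith
  set T1 : ℝ := max T (2 * R0 + 1) with hT1
  have hT1a : T ≤ T1 := le_max_left _ _
  have hT1b : 2 * R0 + 1 ≤ T1 := le_max_right _ _
  -- compact part
  set Q : Set ℂ := Complex.reProdIm (Icc σ c) (Icc (-T1) T1) with hQ
  have hQc : IsCompact Q := isCompact_Icc.reProdIm isCompact_Icc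
  have hcont : ContinuousOn G Q := by
    intro s hs
    rw [hQ, Complex.mem_reProdIm] at hs
    have hs' : s ∈ {s : ℂ | δ < s.re} := by
      show δ < s.re
      linarith [hs.1.1]
    exact ((hG s hs').differentiableAt ((isOpen_lt continuous_const Complex.continuous_re).mem_nhds hs')).continuousAt.continuousWithinAt
  obtain ⟨M0, hM0⟩ := hQc.exists_bound_of_continuousOn hcont
  set W : ℝ := ∑ k, ‖a k‖ with hW
  have hWn : 0 ≤ W := Finset.sum_nonneg fun _ _ => norm_nonneg _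
  refine ⟨|M0| * (1 + T1) ^ (3 / 4 : ℝ) + (C + 2 * W), by positivity, fun s h1 h2 => ?_⟩
  have him := abs_nonneg s.im
  have hx0 : 0 < 1 + |s.im| := by linarith
  have hxp : 0 < (1 + |s.im|) ^ (-(3 / 4) : ℝ) := by positivity
  rcases le_or_gt |s.im| T1 with hs | hs
  · have hsQ : s ∈ Q := by
      rw [hQ, Complex.mem_reProdIm]
      exact ⟨⟨h1, h2⟩, abs_le.1 hs⟩
    have h3 := (hM0 s hsQ).trans (le_abs_self M0)
    have h4 : 1 ≤ (1 + T1) ^ (3 / 4 : ℝ) * (1 + |s.im|) ^ (-(3 / 4) : ℝ) := by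
      have h5 : (1 + |s.im|) ^ (3 / 4 : ℝ) ≤ (1 + T1) ^ (3 / 4 : ℝ) :=
        Real.rpow_le_rpow hx0.le (by linarith) (by norm_num)
      have h6 : (1 + |s.im|) ^ (3 / 4 : ℝ) * (1 + |s.im|) ^ (-(3 / 4) : ℝ) = 1 := by
        rw [← Real.rpow_add hx0]
        norm_num
      calc (1:ℝ) = (1 + |s.im|) ^ (3 / 4 : ℝ) * (1 + |s.im|) ^ (-(3 / 4) : ℝ) := h6.symm
        _ ≤ _ := mul_le_mul_of_nonneg_right h5 hxp.le
    have h7 : |M0| ≤ |M0| * (1 + T1) ^ (3 / 4 : ℝ) * (1 + |s.im|) ^ (-(3 / 4) : ℝ) := by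
      rw [mul_assoc]
      exact le_mul_of_one_le_right (abs_nonneg _) h4
    have h8 : 0 ≤ (C + 2 * W) * (1 + |s.im|) ^ (-(3 / 4) : ℝ) := by positivity
    rw [add_mul]
    linarith
  · have hsR : R0 < |s.im| := by linarith
    have hδs : δ < s.re := by linarith
    have h3 := hform s hδs (hbig s hsR)
    have h4 : G s = F s - ∑ k, a k * (1 / ∏ i ∈ Finset.Ici k, (s - ρ i)) := by rw [h3]; ring
    have h5 : ‖F s‖ ≤ C * (1 + |s.im|) ^ (-(3 / 4) : ℝ) := hF s h1 h2 (by linarith)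
    have h6 : ‖∑ k, a k * (1 / ∏ i ∈ Finset.Ici k, (s - ρ i))‖ ≤ 2 * W * (1 + |s.im|) ^ (-(3 / 4) : ℝ) := by
      have hfac : ∀ k, (1 + |s.im|) / 2 ≤ ‖s - ρ k‖ := by
        intro k
        have e1 := Complex.abs_im_le_norm (s - ρ k)
        rw [Complex.sub_im] at e1
        have e2 := abs_sub_abs_le_abs_sub s.im (ρ k).im
        have e3 := (Complex.abs_im_le_norm (ρ k)).trans (hρR k)
        linarith
      have hfac1 : ∀ k, 1 ≤ ‖s - ρ k‖ := by
        intro k
        have e1 := Complex.abs_im_le_norm (s - ρ k)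
        rw [Complex.sub_im] at e1
        have e2 := abs_sub_abs_le_abs_sub s.im (ρ k).im
        have e3 := (Complex.abs_im_le_norm (ρ k)).trans (hρR k)
        linarith
      have hterm : ∀ k, ‖a k * (1 / ∏ i ∈ Finset.Ici k, (s - ρ i))‖ ≤ ‖a k‖ * (2 * (1 + |s.im|) ^ (-(3 / 4) : ℝ)) := by
        intro k
        rw [norm_mul, norm_div, norm_one, norm_prod]
        refine mul_le_mul_of_nonneg_left ?_ (norm_nonneg _)
        have hk : k ∈ Finset.Ici k := Finset.mem_Ici.2 le_rfl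
        have e4 : (1 + |s.im|) / 2 ≤ ∏ i ∈ Finset.Ici k, ‖s - ρ i‖ := by
          rw [← Finset.mul_prod_erase _ _ hk]
          have e5 : (1:ℝ) ≤ ∏ i ∈ (Finset.Ici k).erase k, ‖s - ρ i‖ := by
            calc (1:ℝ) = ∏ _i ∈ (Finset.Ici k).erase k, (1:ℝ) := by simp
              _ ≤ _ := Finset.prod_le_prod (fun _ _ => zero_le_one) fun i _ => hfac1 i
          calc (1 + |s.im|) / 2 = (1 + |s.im|) / 2 * 1 := by ring
            _ ≤ _ := mul_le_mul (hfac k) e5 zero_le_one (norm_nonneg _)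
        calc 1 / ∏ i ∈ Finset.Ici k, ‖s - ρ i‖ ≤ 1 / ((1 + |s.im|) / 2) :=
              one_div_le_one_div_of_le (by positivity) e4
          _ = 2 * (1 + |s.im|) ^ (-1 : ℝ) := by
              rw [Real.rpow_neg_one]
              field_simp
          _ ≤ 2 * (1 + |s.im|) ^ (-(3 / 4) : ℝ) := by
              refine mul_le_mul_of_nonneg_left ?_ (by norm_num)
              exact Real.rpow_le_rpow_of_exponent_le (by linarith) (by norm_num)
      calc _ ≤ ∑ k, ‖a k‖ * (2 * (1 + |s.im|) ^ (-(3 / 4) : ℝ)) := (norm_sum_le _ _).trans (Finset.sum_le_sum fun k _ => hterm k)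
        _ = _ := by rw [← Finset.sum_mul]; ring
    rw [h4]
    have h7 : 0 ≤ |M0| * (1 + T1) ^ (3 / 4 : ℝ) * (1 + |s.im|) ^ (-(3 / 4) : ℝ) := by positivity
    refine (norm_sub_le _ _).trans ?_
    rw [add_mul, add_mul]
    linarith

theorem Near_mono {S : ℝ → ℂ} {A A' β X : ℝ} {n r : ℕ} (hn : n ≤ r) (h : Near S A A' n β X) : Near S A A' r β X := by
  obtain ⟨k, rfl⟩ := Nat.exists_eq_add_of_le hn
  obtain ⟨u, v, hu, hv, hle⟩ := h
  refine ⟨Fin.append u fun _ _ => 0, Fin.append v fun _ _ => 0, fun i => ?_, fun i => ?_, ?_⟩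
  · refine Fin.addCases (fun i => ?_) (fun i => ?_) i
    · rw [Fin.append_left]; exact hu i
    · rw [Fin.append_right]; exact integrableOn_zero
  · refine Fin.addCases (fun i => ?_) (fun i => ?_) i
    · rw [Fin.append_left]; exact hv i
    · rw [Fin.append_right]; exact integrableOn_zero
  · refine le_trans (le_of_eq ?_) hle
    congr 1
    funext z
    rw [Fin.sum_univ_add]
    simp only [Fin.append_left, Fin.append_right, mul_zero, Finset.sum_const_zero, add_zero]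

theorem near_up {f : ℕ → ℂ} {b : ℝ} (hb : 0 ≤ b) (hf : ∀ n : ℕ, n ≠ 0 → ‖f n‖ ≤ (n : ℝ) ^ b)
    {δ : ℝ} (hδ : 0 ≤ δ) {n : ℕ} (ρ : Fin n → ℂ) (hρ : ∀ k, δ < (ρ k).re) {g : ℂ → ℂ}
    (hg : DifferentiableOn ℂ g {s | δ < s.re}) {c₀ : ℝ}
    (hform : ∀ s : ℂ, c₀ ≤ s.re → LSeries f s / s = g s / ∏ k, (s - ρ k))
    (hbd : ∀ σ c : ℝ, δ < σ → σ ≤ c → ∃ C T : ℝ, 0 ≤ C ∧ ∀ s : ℂ, σ ≤ s.re → s.re ≤ c → T ≤ |s.im| →
      ‖g s / ∏ k, (s - ρ k)‖ ≤ C * (1 + |s.im|) ^ (-(3 / 4) : ℝ))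
    {A A' : ℝ} (hA : 1 < A) (hA' : 1 < A') {η : ℝ} (hη : 0 < η) :
    ∀ᶠ X : ℝ in atTop, Near (SM f) A A' n (δ + η) X := by
  have hA0 : 0 < A := by linarith
  have hA0' : 0 < A' := by linarith
  have hlA : 0 ≤ Real.log A' := Real.log_nonneg hA'.le
  obtain ⟨a, G, hG, hnew⟩ := newton (isOpen_lt continuous_const Complex.continuous_re) n ρ hρ g hg
  set σ : ℝ := δ + η / 2 with hσ
  have hσ0 : 0 < σ := by rw [hσ]; linarith
  have hδσ : δ < σ := by rw [hσ]; linarith
  set M : ℝ := max (b + 1) ‖Tm ρ‖ with hM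
  have hM1 : b + 1 ≤ M := le_max_left _ _
  have hM2 : ‖Tm ρ‖ ≤ M := le_max_right _ _
  have hsum0 : 0 ≤ ∑ k, ‖ρ k‖ := Finset.sum_nonneg fun _ _ => norm_nonneg _
  set c : ℝ := M + 4 + (∑ k, ‖ρ k‖) + σ + |c₀| with hc
  have habs := abs_nonneg c₀
  have hσc : σ ≤ c := by linarith
  have hcc₀ : c₀ ≤ c := by have := le_abs_self c₀; linarith
  have hρc : ∀ k, (ρ k).re < c := by
    intro k
    have h1 := Complex.re_le_norm (ρ k)
    have h2 := Finset.single_le_sum (f := fun k => ‖ρ k‖) (fun _ _ => norm_nonneg _) (Finset.mem_univ k)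
    linarith
  obtain ⟨C2, T, hC2, hC2b⟩ := hbd σ c hδσ hσc
  obtain ⟨D, hD, hGb⟩ := rem_bound (F := fun s => g s / ∏ k, (s - ρ k)) hδσ hG (fun s hs hne => hnew s hs hne) hC2 hC2b
  obtain ⟨C1, hC1, hHb⟩ := HR_bd hb hf ρ a
  have hGd : ∀ s : ℂ, σ ≤ s.re → s.re ≤ c → DifferentiableAt ℂ G s := fun s h1 _ =>
    (hG s (show δ < s.re by linarith)).differentiableAt
      ((isOpen_lt continuous_const Complex.continuous_re).mem_nhds (show δ < s.re by linarith))
  obtain ⟨C, hC, hL2⟩ := l2_bound hσ0 hσc (c₁ := M) (by linarith) (HR_meas f ρ a)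
    (fun u hu => HR_neg _ ρ a hu) hC1 hHb (HR_ae _ ρ a) hD hGd hGb (fun τ => by
      refine rem_trans hb hf ρ a (by rw [vl_re]; linarith) (by rw [vl_re]; linarith) (line_ne hρc τ) ?_
      rw [hform _ (by rw [vl_re]; exact hcc₀)]
      exact hnew _ (show δ < (vl c τ).re by rw [vl_re]; linarith) (line_ne hρc τ))
  set K : ℝ := A' * (Real.exp (σ * (Real.log A + Real.log A')) * (C + Real.log A')) * A with hK
  have hK0 : 0 ≤ K := by positivity
  filter_upwards [(tendsto_rpow_atTop (y := η / 2) (by positivity)).eventually_ge_atTop K,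
    eventually_ge_atTop 1] with X hX h3
  have hX0 : 0 < X := by linarith
  have hl0 : 0 ≤ Real.log X := Real.log_nonneg h3
  refine ⟨fun j x => ell a (uv j) (gp ρ (Real.log X + Real.log x)), fun j y => gp ρ (Real.log y) (ev n) j,
    fun j => ?_, fun j => ?_, ?_⟩
  · refine ContinuousOn.integrableOn_Icc ?_
    refine (left_cont ρ a (uv j)).comp_continuousOn (continuousOn_const.add (Real.continuousOn_log.mono ?_))
    intro x hx
    have : (0:ℝ) < x := lt_of_lt_of_le one_pos hx.1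
    exact this.ne'
  · refine ContinuousOn.integrableOn_Icc ?_
    refine (right_cont ρ j).comp_continuousOn (Real.continuousOn_log.mono ?_)
    intro x hx
    have : (0:ℝ) < x := lt_of_lt_of_le one_pos hx.1
    exact this.ne'
  · have hpt : ∀ z ∈ Icc 1 A ×ˢ Icc 1 A', ‖SM f (X * z.1 * z.2) -
        ∑ j, ell a (uv j) (gp ρ (Real.log X + Real.log z.1)) * gp ρ (Real.log z.2) (ev n) j‖ =
        ‖HR f ρ a ((Real.log X + Real.log z.1) + Real.log z.2)‖ := by
      intro z hz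
      have hz1 : 1 ≤ z.1 := hz.1.1
      have hz2 : 1 ≤ z.2 := hz.2.1
      have hz10 : 0 < z.1 := by linarith
      have hz20 : 0 < z.2 := by linarith
      have hl3 := Real.log_nonneg hz1
      have hl4 := Real.log_nonneg hz2
      unfold HR
      rw [if_pos (by linarith), Ex_sep, Real.exp_add, Real.exp_add, Real.exp_log hX0, Real.exp_log hz10,
        Real.exp_log hz20]
    rw [setIntegral_congr_fun (measurableSet_Icc.prod measurableSet_Icc) hpt]
    by_cases hI : IntegrableOn (fun z : ℝ × ℝ => ‖HR f ρ a ((Real.log X + Real.log z.1) + Real.log z.2)‖)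
        (Icc 1 A ×ˢ Icc 1 A') (volume.prod volume)
    · have h5 := setIntegral_prod _ hI
      rw [← Measure.volume_eq_prod] at h5
      rw [h5]
      set W : ℝ := A' * (Real.exp (σ * (Real.log X + Real.log A + Real.log A')) * (C + Real.log A')) with hW
      have hinner : ∀ x ∈ Icc 1 A, ‖∫ y in Icc 1 A', ‖HR f ρ a ((Real.log X + Real.log x) + Real.log y)‖‖ ≤ W := by
        intro x hx
        have hx0 : (0:ℝ) < x := lt_of_lt_of_le one_pos hx.1
        rw [Real.norm_eq_abs, abs_of_nonneg (integral_nonneg fun _ => norm_nonneg _)]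
        refine (win_le (HR_meas f ρ a) hHb hA' _).trans ?_
        refine mul_le_mul_of_nonneg_left ?_ hA0'.le
        refine (hL2 _ _ hlA).trans ?_
        refine mul_le_mul_of_nonneg_right (Real.exp_le_exp.2 ?_) (by positivity)
        refine mul_le_mul_of_nonneg_left ?_ hσ0.le
        have := Real.log_le_log hx0 hx.2
        linarith
      have h6 := norm_setIntegral_le_of_norm_le_const (μ := volume) (s := Icc 1 A)
        (f := fun x => ∫ y in Icc 1 A', ‖HR f ρ a ((Real.log X + Real.log x) + Real.log y)‖) (C := W)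
        (by simp) hinner
      refine (le_abs_self _).trans ?_
      rw [← Real.norm_eq_abs]
      refine h6.trans ?_
      have hW0 : 0 ≤ W := by positivity
      have h7 : volume.real (Icc 1 A) ≤ A := by
        simp only [measureReal_def, Real.volume_Icc]
        rw [ENNReal.toReal_ofReal (by linarith)]
        linarith
      have hWK : W * A = K * X ^ σ := by
        rw [hW, hK, Real.rpow_def_of_pos hX0]
        have : Real.exp (σ * (Real.log X + Real.log A + Real.log A')) =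
            Real.exp (σ * (Real.log A + Real.log A')) * Real.exp (Real.log X * σ) := by
          rw [← Real.exp_add]; congr 1; ring
        rw [this]
        ring
      calc W * volume.real (Icc 1 A) ≤ W * A := mul_le_mul_of_nonneg_left h7 hW0
        _ = K * X ^ σ := hWK
        _ ≤ X ^ (η / 2) * X ^ σ := mul_le_mul_of_nonneg_right hX (by positivity)
        _ = X ^ (δ + η) := by rw [← Real.rpow_add hX0, hσ]; ring_nf
    · have h5 : ∫ z in Icc 1 A ×ˢ Icc 1 A', ‖HR f ρ a ((Real.log X + Real.log z.1) + Real.log z.2)‖ = 0 := by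
        rw [Measure.volume_eq_prod]
        exact integral_undef hI
      rw [h5]
      positivity

end

end Pool.Agent.H480.K
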