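import Pool.Agent.H480.K7

/-!
From separable approximations at all scales to a bound on a vertical line.
-/

open Complex MeasureTheory Filter Topology Set Polynomial
open scoped ComplexConjugate

set_option linter.unusedSectionVars false

namespace Pool.Agent.H480.K

open Pool.Agent.H480.G
open H313.GK
open H313.TK (Ist int_exp_abs)

noncomputable section

variable {r : ℕ}

/-- the polynomial with coefficients `q` -/
def qp (q : Fin (r + 1) → ℂ) : ℂ[X] := ∑ i : Fin (r + 1), C (q i) * X ^ (i : ℕ)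

theorem qp_eval (q : Fin (r + 1) → ℂ) (z : ℂ) : (qp q).eval z = ∑ i : Fin (r + 1), q i * z ^ (i : ℕ) := by
  unfold qp
  rw [eval_finsetSum]
  simp

theorem qp_ne {q : Fin (r + 1) → ℂ} (hq : ∑ i, ‖q i‖ = 1) : qp q ≠ 0 := by
  intro h
  have hc : ∀ j : Fin (r + 1), (qp q).coeff (j : ℕ) = q j := by
    intro j
    unfold qp
    rw [finset_sum_coeff]
    simp only [coeff_C_mul, coeff_X_pow]
    rw [Finset.sum_eq_single j]
    · simp
    · intro i _ hij
      rw [if_neg (fun h => hij (Fin.ext h.symm)), mul_zero]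
    · simp
  have h0 : ∀ j, q j = 0 := fun j => by rw [← hc j, h, coeff_zero]
  simp [h0] at hq

theorem Pq_eq (q : Fin (r + 1) → ℂ) (h : ℝ) (s : ℂ) : Pq q h s = (qp q).eval (cexp (s * h)) := by
  rw [qp_eval]
  unfold Pq
  refine Finset.sum_congr rfl fun i _ => ?_
  rw [← Complex.exp_nat_mul]
  congr 2
  push_cast
  ring

/-- a vertical line on which the exponential polynomial is bounded from below -/
theorem good_line {q : Fin (r + 1) → ℂ} (hq : ∑ i, ‖q i‖ = 1) {h : ℝ} (hh : 0 < h) {x y : ℝ} (hxy : x < y) :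
    ∃ σ ∈ Ioo x y, ∃ c : ℝ, 0 < c ∧ ∀ s : ℂ, s.re = σ → c ≤ ‖Pq q h s‖ := by
  have hfin : ((fun z : ℂ => Real.log ‖z‖ / h) '' {z | z ∈ (qp q).roots}).Finite := by
    refine Set.Finite.image _ ?_
    have : {z | z ∈ (qp q).roots} = ((qp q).roots.toFinset : Set ℂ) := by ext z; simp
    rw [this]
    exact Finset.finite_toSet _
  obtain ⟨σ, hσ, hσ2⟩ := (Set.Ioo_infinite hxy).exists_notMem_finite hfin
  refine ⟨σ, hσ, ?_⟩
  have hne : ∀ z ∈ Metric.sphere (0:ℂ) (Real.exp (σ * h)), (qp q).eval z ≠ 0 := by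
    intro z hz h0
    apply hσ2
    refine ⟨z, ?_, ?_⟩
    · show z ∈ (qp q).roots
      rw [mem_roots (qp_ne hq)]
      exact h0
    · have : ‖z‖ = Real.exp (σ * h) := by simpa using hz
      simp only
      rw [this, Real.log_exp]
      field_simp
  have hcomp : IsCompact (Metric.sphere (0:ℂ) (Real.exp (σ * h))) := isCompact_sphere _ _
  have hnon : (Metric.sphere (0:ℂ) (Real.exp (σ * h))).Nonempty :=
    ⟨((Real.exp (σ * h) : ℝ) : ℂ), by
      rw [mem_sphere_zero_iff_norm, Complex.norm_real, Real.norm_eq_abs, abs_of_pos (Real.exp_pos _)]⟩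
  obtain ⟨z0, hz0, hmin⟩ := hcomp.exists_isMinOn hnon (f := fun z => ‖(qp q).eval z‖)
    (by fun_prop)
  refine ⟨‖(qp q).eval z0‖, norm_pos_iff.2 (hne z0 hz0), fun s hs => ?_⟩
  rw [Pq_eq]
  refine hmin ?_
  rw [mem_sphere_zero_iff_norm, Complex.norm_exp]
  simp [hs]

/-- **a bound on a line** -/
theorem line_bound {f : ℕ → ℂ} {b : ℝ} (hb : 0 ≤ b) (hf : ∀ n : ℕ, n ≠ 0 → ‖f n‖ ≤ (n : ℝ) ^ b)
    {A A' : ℝ} (hA : 1 < A) (hA' : 1 < A') {β β' β'' : ℝ} (h1 : β < β') (h2 : β' < β'')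
    (H : ∀ᶠ X : ℝ in atTop, Near (SM f) A A' r β X)
    {p Φ : ℂ → ℂ} (hp : ∀ s : ℂ, β' < s.re → DifferentiableAt ℂ p s)
    (hΦ : ∀ s : ℂ, β' < s.re → DifferentiableAt ℂ Φ s) {c₀ : ℝ}
    (hrel : ∀ s : ℂ, c₀ ≤ s.re → p s * (LSeries f s / s) = Φ s) :
    ∃ σ ∈ Ioo β' β'', ∃ K : ℝ, 0 ≤ K ∧ ∀ s : ℂ, s.re = σ → ‖Φ s‖ ≤ K * ‖p s‖ := by
  have hlA := Real.log_pos hA
  have hlA' := Real.log_pos hA'
  set h : ℝ := min (Real.log A) (Real.log A') / (r + 2) with hh
  have hh0 : 0 < h := by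
    rw [hh]
    exact div_pos (lt_min hlA hlA') (by positivity)
  have hrh : (r + 2) * h = min (Real.log A) (Real.log A') := by
    rw [hh]; field_simp
  have hSb : ∀ u : ℝ, 0 ≤ u → ‖SM f (Real.exp u)‖ ≤ 1 * Real.exp ((b + 1) * u) := fun u _ => SM_bd hb hf u
  have hfm : Measurable fun u : ℝ => SM f (Real.exp u) := (SM_meas f).comp Real.measurable_exp
  have hL := near_log_ev (SM_meas f) hSb hA.le hA'.le H
  obtain ⟨q, hq, -, hdiff, hform, hbdd⟩ := transform hfm (fun u hu => SM_zero f hu) zero_le_one hSb hh0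
    (hrh.le.trans (min_le_left _ _)) (hrh.le.trans (min_le_right _ _)) h1 hL
  set G : ℂ → ℂ := Lap (Hq (fun u => SM f (Real.exp u)) q h) with hG
  -- the identity in the half plane
  have hid : ∀ s : ℂ, β' < s.re → p s * G s = Pq q h s * Φ s := by
    set U : Set ℂ := {s : ℂ | β' < s.re} with hU
    have hUo : IsOpen U := isOpen_lt continuous_const Complex.continuous_re
    have hUc : IsPreconnected U := (convex_halfSpace_re_gt β').isPreconnected
    have hL1 : AnalyticOnNhd ℂ (fun s => p s * G s) U :=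
      (DifferentiableOn.analyticOnNhd (fun s hs => ((hp s hs).mul (hdiff s hs)).differentiableWithinAt) hUo)
    have hR1 : AnalyticOnNhd ℂ (fun s => Pq q h s * Φ s) U :=
      (DifferentiableOn.analyticOnNhd (fun s hs => ((Pq_diff q h s).mul (hΦ s hs)).differentiableWithinAt) hUo)
    set x₀ : ℝ := max (max (b + 1) c₀) β' + 1 with hx₀
    have hx1 : b + 1 ≤ max (max (b + 1) c₀) β' := (le_max_left _ _).trans (le_max_left _ _)
    have hx2 : c₀ ≤ max (max (b + 1) c₀) β' := (le_max_right _ _).trans (le_max_left _ _)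
    have hx3 : β' ≤ max (max (b + 1) c₀) β' := le_max_right _ _
    have hmem : ((x₀ : ℝ) : ℂ) ∈ U := by
      show β' < ((x₀ : ℝ) : ℂ).re
      rw [Complex.ofReal_re]; linarith
    have hev : (fun s => p s * G s) =ᶠ[𝓝 ((x₀ : ℝ) : ℂ)] fun s => Pq q h s * Φ s := by
      have ho : IsOpen {s : ℂ | max (max (b + 1) c₀) β' < s.re} := isOpen_lt continuous_const Complex.continuous_re
      filter_upwards [ho.mem_nhds (show max (max (b + 1) c₀) β' < ((x₀ : ℝ) : ℂ).re by rw [Complex.ofReal_re]; linarith)] with s hs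
      have hs' : max (max (b + 1) c₀) β' < s.re := hs
      have e1 := hform s (by linarith)
      have e2 : Lap (fun u => SM f (Real.exp u)) s = LSeries f s / s := trans_F hb hf (s := s) (by linarith)
      have e3 := hrel s (by linarith)
      rw [e1, e2, ← e3]
      ring
    intro s hs
    exact hL1.eqOn_of_preconnected_of_eventuallyEq hR1 hUc hmem hev hs
  obtain ⟨σ, hσ, c, hc, hlow⟩ := good_line hq hh0 h2
  obtain ⟨K, hK, hKb⟩ := hbdd σ σ hσ.1 le_rfl
  refine ⟨σ, hσ, K / c, by positivity, fun s hs => ?_⟩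
  have e1 := hid s (by rw [hs]; exact hσ.1)
  have e2 := congrArg norm e1
  rw [norm_mul, norm_mul] at e2
  have e3 := hlow s hs
  have e4 := hKb s hs.ge hs.le
  have e5 : c * ‖Φ s‖ ≤ K * ‖p s‖ := by
    calc c * ‖Φ s‖ ≤ ‖Pq q h s‖ * ‖Φ s‖ := mul_le_mul_of_nonneg_right e3 (norm_nonneg _)
      _ = ‖p s‖ * ‖G s‖ := e2.symm
      _ ≤ ‖p s‖ * K := mul_le_mul_of_nonneg_left e4 (norm_nonneg _)
      _ = _ := by ring
  rw [div_mul_eq_mul_div, le_div_iff₀ hc]
  linarith

end

end Pool.Agent.H480.K
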