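import Pool.Agent.H480.K8
import Pool.Graph.R_pool_sql_team_seeded_1acbe0a2.Y853.PZ.Strip

/-!
The powers of the zeta function.
-/

open Complex MeasureTheory Filter Topology Set
open scoped ArithmeticFunction.zeta

set_option linter.unusedSectionVars false

namespace Pool.Agent.H480.K

open Pool.Agent.H480.G
open H313.GK
open Pool.Agent.Y853.PZ (strip Small Lindelof small_of_lindelof lindelof_of_small zeta_two_bd)

noncomputable section

/-- the `k`-fold divisor function: the coefficients of `ζ(s)^k` -/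
def dk (k n : ℕ) : ℂ := (((ζ ^ k : ArithmeticFunction ℕ) n : ℕ) : ℂ)

theorem dk_le_nat (k : ℕ) : ∀ n : ℕ, n ≠ 0 → (ζ ^ k : ArithmeticFunction ℕ) n ≤ n ^ k := by
  induction k with
  | zero =>
    intro n hn
    rw [pow_zero, pow_zero, ArithmeticFunction.one_apply]
    split_ifs <;> simp
  | succ k ih =>
    intro n hn
    rw [pow_succ, ArithmeticFunction.mul_zeta_apply]
    calc ∑ i ∈ n.divisors, (ζ ^ k : ArithmeticFunction ℕ) i ≤ ∑ i ∈ n.divisors, n ^ k := by
          refine Finset.sum_le_sum fun i hi => ?_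
          have h1 := Nat.pos_of_mem_divisors hi
          exact (ih i h1.ne').trans (Nat.pow_le_pow_left (Nat.divisor_le hi) k)
      _ = n.divisors.card * n ^ k := by rw [Finset.sum_const, smul_eq_mul]
      _ ≤ n * n ^ k := Nat.mul_le_mul_right _ (Nat.card_divisors_le_self n)
      _ = n ^ (k + 1) := by ring

theorem dk_le (k n : ℕ) (hn : n ≠ 0) : ‖dk k n‖ ≤ (n : ℝ) ^ (k : ℝ) := by
  unfold dk
  rw [Complex.norm_natCast, Real.rpow_natCast]
  exact_mod_cast dk_le_nat k n hn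

theorem dk_series (k : ℕ) {s : ℂ} (hs : 1 < s.re) : LSeriesSummable (dk k) s ∧ LSeries (dk k) s = riemannZeta s ^ k := by
  have key : ∀ k : ℕ, LSeriesSummable (fun n => ((ζ : ArithmeticFunction ℂ) ^ k : ArithmeticFunction ℂ) n) s ∧
      LSeries (fun n => ((ζ : ArithmeticFunction ℂ) ^ k : ArithmeticFunction ℂ) n) s = riemannZeta s ^ k := by
    intro k
    have hz : LSeriesSummable (fun n => (ζ : ArithmeticFunction ℂ) n) s := by
      exact ArithmeticFunction.LSeriesSummable_zeta_iff.2 hs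
    have hz2 : LSeries (fun n => (ζ : ArithmeticFunction ℂ) n) s = riemannZeta s := by
      rw [← ArithmeticFunction.LSeries_zeta_eq_riemannZeta hs]
      rfl
    induction k with
    | zero =>
      simp only [pow_zero]
      have e1 : (fun n => (1 : ArithmeticFunction ℂ) n) = LSeries.delta := by
        funext n
        rw [ArithmeticFunction.one_apply]
        unfold LSeries.delta
        split_ifs <;> rfl
      rw [e1]
      refine ⟨?_, by rw [LSeries_delta]; rfl⟩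
      unfold LSeriesSummable
      have e2 : LSeries.term LSeries.delta s = fun n => if n = 1 then 1 else 0 := by
        funext n
        rw [LSeries.term_delta]
      rw [e2]
      exact (hasSum_ite_eq 1 (1:ℂ)).summable
    | succ k ih =>
      rw [pow_succ]
      refine ⟨ArithmeticFunction.LSeriesSummable_mul ih.1 hz, ?_⟩
      rw [ArithmeticFunction.LSeries_mul' ih.1 hz, ih.2, hz2]
      ring
  have e2 : ∀ k : ℕ, ∀ n : ℕ, dk k n = ((ζ : ArithmeticFunction ℂ) ^ k : ArithmeticFunction ℂ) n := by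
    intro k
    have e3 : (((ζ ^ k : ArithmeticFunction ℕ)) : ArithmeticFunction ℂ) = (ζ : ArithmeticFunction ℂ) ^ k := by
      induction k with
      | zero => rw [pow_zero, pow_zero, ArithmeticFunction.natCoe_one]
      | succ k ih => rw [pow_succ, pow_succ, ArithmeticFunction.natCoe_mul, ih]
    intro n
    rw [← e3]
    rfl
  have e4 : dk k = fun n => ((ζ : ArithmeticFunction ℂ) ^ k : ArithmeticFunction ℂ) n := funext (e2 k)
  rw [e4]
  exact key k

/-- finite rank of the `k`-fold divisor function gives a bound on a line -/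
theorem zeta_line {k : ℕ} {r : ℕ} {A A' : ℝ} (hA : 1 < A) (hA' : 1 < A') {β β' β'' : ℝ} (h0 : 0 ≤ β')
    (h1 : β < β') (h2 : β' < β'') (h3 : β'' ≤ 2) (H : ∀ᶠ X : ℝ in atTop, Near (SM (dk k)) A A' r β X) :
    ∃ σ ∈ Ioo β' β'', ∃ K : ℝ, 0 ≤ K ∧ ∀ t : ℝ, 1 ≤ |t| → ‖riemannZeta (σ + t * I)‖ ^ k ≤ K * |t| := by
  obtain ⟨σ, hσ, K, hK, hb⟩ := line_bound (b := (k : ℝ)) (Nat.cast_nonneg k) (dk_le k) hA hA' h1 h2 H
    (p := fun s => (s - 1) ^ k) (Φ := fun s => riemannZeta₁ s ^ k / s)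
    (fun s _ => by fun_prop) (fun s hs => by
      have hs0 : s ≠ 0 := by
        rintro rfl
        simp at hs
        linarith
      exact (((differentiable_riemannZeta₁ s).pow k).div differentiableAt_id hs0)) (c₀ := 2) (fun s hs => by
      have hs1 : s ≠ 1 := by
        rintro rfl
        simp at hs
      rw [(dk_series k (by linarith)).2, riemannZeta_eq_inv_sub_mul hs1, mul_pow, mul_div_assoc', ← mul_assoc, ← mul_pow,
        mul_inv_cancel₀ (sub_ne_zero.2 hs1), one_pow, one_mul])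
  refine ⟨σ, hσ, 3 * K, by positivity, fun t ht => ?_⟩
  set s : ℂ := σ + t * I with hs
  have hre : s.re = σ := by simp [hs]
  have him : s.im = t := by simp [hs]
  have ht0 : t ≠ 0 := by
    rintro rfl
    simp at ht
    linarith
  have hs1 : s ≠ 1 := by
    intro h
    have := congrArg Complex.im h
    rw [him] at this
    simp at this
    exact ht0 this
  have hs0 : s ≠ 0 := by
    intro h
    have := congrArg Complex.im h
    rw [him] at this
    simp at this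
    exact ht0 this
  have hσ0 : 0 ≤ σ := h0.trans hσ.1.le
  have h4 := hb s hre
  have e1 : riemannZeta₁ s = (s - 1) * riemannZeta s := by
    rw [riemannZeta_eq_inv_sub_mul hs1, ← mul_assoc, mul_inv_cancel₀ (sub_ne_zero.2 hs1), one_mul]
  rw [e1, mul_pow, norm_div, norm_mul, norm_pow, norm_pow] at h4
  have h5 : 0 < ‖s - 1‖ ^ k := pow_pos (norm_pos_iff.2 (sub_ne_zero.2 hs1)) k
  have h6 : 0 < ‖s‖ := norm_pos_iff.2 hs0
  rw [div_le_iff₀ h6] at h4
  have h7 : ‖riemannZeta s‖ ^ k ≤ K * ‖s‖ := by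
    have h8 : ‖s - 1‖ ^ k * ‖riemannZeta s‖ ^ k ≤ ‖s - 1‖ ^ k * (K * ‖s‖) := by
      refine h4.trans (le_of_eq ?_)
      ring
    exact le_of_mul_le_mul_left h8 h5
  have h9 : ‖s‖ ≤ 3 * |t| := by
    have h10 := Complex.norm_le_abs_re_add_abs_im s
    rw [hre, him, abs_of_nonneg hσ0] at h10
    have := hσ.2
    linarith
  calc ‖riemannZeta s‖ ^ k ≤ K * ‖s‖ := h7
    _ ≤ K * (3 * |t|) := mul_le_mul_of_nonneg_left h9 hK
    _ = _ := by ring

/-- **finite approximate rank of the divisor functions makes zeta small** -/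
theorem small_of_rank {A A' θ : ℝ} (hA : 1 < A) (hA' : 1 < A') (hθ0 : 0 ≤ θ)
    (H : ∀ η : ℝ, 0 < η → ∀ k₀ : ℕ, ∃ k ≥ k₀, ∃ r : ℕ, ∀ᶠ X : ℝ in atTop, Near (SM (dk k)) A A' r (θ + η) X) :
    Small θ := by
  intro σ₁ hσ₁ ε hε
  -- reduce to `σ₁ ≤ 2`
  rcases le_or_gt 2 σ₁ with h2 | h2
  · obtain ⟨B, hB1, hB⟩ := zeta_two_bd
    refine ⟨B, fun t ht => ?_⟩
    have h3 := hB (σ₁ + t * I) (by simpa using h2)
    have h5 : 1 ≤ |t| ^ ε := Real.one_le_rpow ht hε.le
    nlinarith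
  set η : ℝ := (σ₁ - θ) / 3 with hη
  have hη0 : 0 < η := by rw [hη]; linarith
  obtain ⟨k₀, hk₀⟩ := exists_nat_gt (1 / ε)
  obtain ⟨k, hk, r, hX⟩ := H η hη0 (k₀ + 1)
  have hk1 : (1:ℝ) ≤ k := by
    have : 1 ≤ k := by omega
    exact_mod_cast this
  have hk2 : 1 / ε < k := by
    have : (k₀ : ℝ) ≤ k := by
      have : k₀ ≤ k := by omega
      exact_mod_cast this
    linarith
  have hkε : 1 / (k : ℝ) ≤ ε := by
    rw [div_lt_iff₀ hε] at hk2
    rw [div_le_iff₀ (by linarith)]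
    linarith
  obtain ⟨σ, hσ, K, hK, hb⟩ := zeta_line hA hA' (β' := θ + 2 * η) (β'' := θ + 3 * η) (by linarith) (by linarith) (by linarith)
    (by rw [hη]; linarith) hX
  have hσle : σ ≤ σ₁ := by have := hσ.2; rw [hη] at this; linarith
  obtain ⟨C', hC', h1⟩ := strip (σ := σ) (ε := ε) (C := K ^ (1 / (k:ℝ))) (by have := hσ.1; linarith) (by linarith) hε.le
    (fun t ht => by
      have h4 := hb t ht
      have ht0 : 0 < |t| := by linarith
      have h5 : ‖riemannZeta (σ + t * I)‖ = (‖riemannZeta (σ + t * I)‖ ^ k) ^ (1 / (k:ℝ)) := by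
        rw [← Real.rpow_natCast, ← Real.rpow_mul (norm_nonneg _)]
        rw [mul_one_div_cancel (by positivity), Real.rpow_one]
      rw [h5]
      calc (‖riemannZeta (σ + t * I)‖ ^ k) ^ (1 / (k:ℝ)) ≤ (K * |t|) ^ (1 / (k:ℝ)) :=
            Real.rpow_le_rpow (by positivity) h4 (by positivity)
        _ = K ^ (1 / (k:ℝ)) * |t| ^ (1 / (k:ℝ)) := Real.mul_rpow hK ht0.le
        _ ≤ K ^ (1 / (k:ℝ)) * |t| ^ ε := by
            refine mul_le_mul_of_nonneg_left ?_ (by positivity)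
            exact Real.rpow_le_rpow_of_exponent_le ht hkε)
  refine ⟨C', fun t ht => ?_⟩
  have := h1 (σ₁ + t * I) (by simpa using hσle) (by simpa using h2.le) (by simpa using ht)
  simpa using this

/-- growth in a strip from growth on all lines -/
theorem strip_of_small {θ : ℝ} (hθ0 : 0 ≤ θ) (h : Small θ) {σ : ℝ} (hσ : θ < σ) {ε : ℝ} (hε : 0 < ε) :
    ∃ C : ℝ, 0 ≤ C ∧ ∀ z : ℂ, σ ≤ z.re → 1 ≤ |z.im| → ‖riemannZeta z‖ ≤ C * |z.im| ^ ε := by
  obtain ⟨B, hB1, hB⟩ := zeta_two_bd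
  have hbig : ∀ z : ℂ, 2 ≤ z.re → 1 ≤ |z.im| → ‖riemannZeta z‖ ≤ B * |z.im| ^ ε := by
    intro z hz hz1
    have h5 : 1 ≤ |z.im| ^ ε := Real.one_le_rpow hz1 hε.le
    have := hB z hz
    nlinarith
  rcases le_or_gt 2 σ with h2 | h2
  · exact ⟨B, by linarith, fun z hz hz1 => hbig z (h2.trans hz) hz1⟩
  obtain ⟨C, hC⟩ := h σ hσ ε hε
  obtain ⟨C', hC', h1⟩ := strip (by linarith) h2 hε.le hC
  refine ⟨max B C', le_max_of_le_right hC', fun z hz hz1 => ?_⟩
  have h6 : 0 ≤ |z.im| ^ ε := by positivity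
  rcases le_or_gt z.re 2 with h3 | h3
  · exact (h1 z hz h3 hz1).trans (mul_le_mul_of_nonneg_right (le_max_right _ _) h6)
  · exact (hbig z h3.le hz1).trans (mul_le_mul_of_nonneg_right (le_max_left _ _) h6)

/-- **the converse** -/
theorem rank_of_small {A A' θ : ℝ} (hA : 1 < A) (hA' : 1 < A') (hθ0 : 0 ≤ θ) (hθ1 : θ < 1) (h : Small θ) (k : ℕ)
    {η : ℝ} (hη : 0 < η) : ∀ᶠ X : ℝ in atTop, Near (SM (dk k)) A A' k (θ + η) X := by
  refine near_up (b := (k : ℝ)) (Nat.cast_nonneg k) (dk_le k) hθ0 (n := k) (fun _ => 1)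
    (fun _ => by simpa using hθ1) (g := fun s => riemannZeta₁ s ^ k / s) ?_ (c₀ := 2) ?_ ?_ hA hA' hη
  · intro s hs
    have hs0 : s ≠ 0 := by
      rintro rfl
      simp at hs
      linarith
    exact (((differentiable_riemannZeta₁ s).pow k).div differentiableAt_id hs0).differentiableWithinAt
  · intro s hs
    have hs1 : s ≠ 1 := by
      rintro rfl
      simp at hs
    rw [(dk_series k (by linarith)).2, Finset.prod_const, Finset.card_univ, Fintype.card_fin,
      riemannZeta_eq_inv_sub_mul hs1, mul_pow]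
    have : (s - 1) ^ k ≠ 0 := pow_ne_zero _ (sub_ne_zero.2 hs1)
    rw [inv_pow]
    field_simp
  · intro σ c hσ hσc
    obtain ⟨C, hC, hb⟩ := strip_of_small hθ0 h hσ (ε := 1 / (4 * ((k:ℝ) + 1))) (by positivity)
    refine ⟨2 * C ^ k, 1, by positivity, fun s hs1 hs2 hs3 => ?_⟩
    have ht0 : 0 < |s.im| := by linarith
    have hs1' : s ≠ 1 := by
      rintro rfl
      simp at hs3
      linarith
    have e1 : riemannZeta₁ s = (s - 1) * riemannZeta s := by
      rw [riemannZeta_eq_inv_sub_mul hs1', ← mul_assoc, mul_inv_cancel₀ (sub_ne_zero.2 hs1'), one_mul]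
    have e2 : riemannZeta₁ s ^ k / s / ∏ _k : Fin k, (s - 1) = riemannZeta s ^ k / s := by
      rw [Finset.prod_const, Finset.card_univ, Fintype.card_fin, e1, mul_pow]
      have : (s - 1) ^ k ≠ 0 := pow_ne_zero _ (sub_ne_zero.2 hs1')
      field_simp
    rw [e2, norm_div, norm_pow]
    have h1 := hb s hs1 hs3
    have h2 : ‖riemannZeta s‖ ^ k ≤ C ^ k * |s.im| ^ (1 / 4 : ℝ) := by
      calc ‖riemannZeta s‖ ^ k ≤ (C * |s.im| ^ (1 / (4 * ((k:ℝ) + 1)))) ^ k := pow_le_pow_left₀ (norm_nonneg _) h1 k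
        _ = C ^ k * |s.im| ^ ((1 / (4 * ((k:ℝ) + 1))) * k) := by
            rw [mul_pow, ← Real.rpow_natCast (|s.im| ^ (1 / (4 * ((k:ℝ) + 1)))), ← Real.rpow_mul ht0.le]
        _ ≤ C ^ k * |s.im| ^ (1 / 4 : ℝ) := by
            refine mul_le_mul_of_nonneg_left ?_ (by positivity)
            refine Real.rpow_le_rpow_of_exponent_le hs3 ?_
            rw [one_div_mul_eq_div, div_le_div_iff₀ (by positivity) (by norm_num)]
            nlinarith
    have h3 : |s.im| ≤ ‖s‖ := Complex.abs_im_le_norm s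
    have h4 : ‖riemannZeta s‖ ^ k / ‖s‖ ≤ C ^ k * |s.im| ^ (-(3 / 4) : ℝ) := by
      calc ‖riemannZeta s‖ ^ k / ‖s‖ ≤ (C ^ k * |s.im| ^ (1 / 4 : ℝ)) / |s.im| :=
            div_le_div₀ (by positivity) h2 ht0 h3
        _ = _ := by
            rw [show (1 / 4 : ℝ) = -(3 / 4) + 1 by norm_num, Real.rpow_add_one ht0.ne']
            field_simp
    have h5 : |s.im| ^ (-(3 / 4) : ℝ) ≤ 2 * (1 + |s.im|) ^ (-(3 / 4) : ℝ) := by
      have h6 : (2 * |s.im|) ^ (-(3 / 4) : ℝ) ≤ (1 + |s.im|) ^ (-(3 / 4) : ℝ) :=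
        Real.rpow_le_rpow_of_nonpos (by linarith) (by linarith) (by norm_num)
      rw [Real.mul_rpow (by norm_num) ht0.le] at h6
      have h7 : (1 / 2 : ℝ) ≤ (2:ℝ) ^ (-(3 / 4) : ℝ) := by
        calc (1 / 2 : ℝ) = (2:ℝ) ^ (-1 : ℝ) := by rw [Real.rpow_neg_one]; norm_num
          _ ≤ _ := Real.rpow_le_rpow_of_exponent_le (by norm_num) (by norm_num)
      have h8 : 0 < |s.im| ^ (-(3 / 4) : ℝ) := by positivity
      nlinarith
    calc ‖riemannZeta s‖ ^ k / ‖s‖ ≤ C ^ k * |s.im| ^ (-(3 / 4) : ℝ) := h4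
      _ ≤ C ^ k * (2 * (1 + |s.im|) ^ (-(3 / 4) : ℝ)) := mul_le_mul_of_nonneg_left h5 (by positivity)
      _ = _ := by ring

theorem small_tfae {A A' : ℝ} (hA : 1 < A) (hA' : 1 < A') {θ : ℝ} (hθ0 : 0 ≤ θ) (hθ1 : θ < 1) : List.TFAE
    [Small θ,
     ∀ k : ℕ, ∀ η : ℝ, 0 < η → ∀ᶠ X : ℝ in atTop, Near (SM (dk k)) A A' k (θ + η) X,
     ∀ η : ℝ, 0 < η → ∀ k₀ : ℕ, ∃ k ≥ k₀, ∃ r : ℕ, ∀ᶠ X : ℝ in atTop, Near (SM (dk k)) A A' r (θ + η) X] := by
  tfae_have 1 → 2 := fun h k η hη => rank_of_small hA hA' hθ0 hθ1 h k hη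
  tfae_have 2 → 3 := fun h η hη k₀ => ⟨k₀, le_rfl, k₀, h k₀ η hη⟩
  tfae_have 3 → 1 := fun h => small_of_rank hA hA' hθ0 h
  tfae_finish

end

end Pool.Agent.H480.K
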