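import Pool.Agent.H480.K8

/-!
Transforms of functions which are not supported on the half line.
-/

open Filter Topology Set MeasureTheory Complex

set_option linter.unusedSectionVars false

namespace Pool.Agent.H480.K

noncomputable section

variable {r : ℕ}

/-- weighted integrability from a bound by two exponentials -/
theorem two_exp {f : ℝ → ℂ} (hfm : Measurable f) {C c₁ c₂ σ : ℝ}
    (h1 : ∀ u, 0 ≤ u → ‖f u‖ ≤ C * Real.exp (c₁ * u)) (h2 : ∀ u, u ≤ 0 → ‖f u‖ ≤ C * Real.exp (c₂ * u))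
    (hσ1 : c₁ < σ) (hσ2 : σ < c₂) : Integrable fun u : ℝ => ‖f u‖ * Real.exp (-(σ * u)) := by
  have hC : 0 ≤ C := by
    have := (norm_nonneg _).trans (h1 0 le_rfl)
    simpa using this
  have hgm : Measurable fun u : ℝ => ‖f u‖ * Real.exp (-(σ * u)) := hfm.norm.mul (by fun_prop)
  rw [← integrableOn_univ, ← Iic_union_Ioi (a := (0:ℝ))]
  refine IntegrableOn.union ?_ ?_
  · have h3 : IntegrableOn (fun u : ℝ => C * Real.exp ((c₂ - σ) * u)) (Iic 0) :=
      (integrableOn_exp_mul_Iic (by linarith) 0).const_mul C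
    refine h3.mono' hgm.aestronglyMeasurable ((ae_restrict_iff' measurableSet_Iic).2 (ae_of_all _ fun u hu => ?_))
    rw [Real.norm_eq_abs, abs_of_nonneg (by positivity)]
    calc ‖f u‖ * Real.exp (-(σ * u)) ≤ C * Real.exp (c₂ * u) * Real.exp (-(σ * u)) :=
          mul_le_mul_of_nonneg_right (h2 u hu) (Real.exp_pos _).le
      _ = _ := by rw [mul_assoc, ← Real.exp_add]; congr 2; ring
  · have h3 : IntegrableOn (fun u : ℝ => C * Real.exp (-(σ - c₁) * u)) (Ioi 0) :=
      (exp_neg_integrableOn_Ioi 0 (by linarith)).const_mul C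
    refine h3.mono' hgm.aestronglyMeasurable ((ae_restrict_iff' measurableSet_Ioi).2 (ae_of_all _ fun u hu => ?_))
    rw [Real.norm_eq_abs, abs_of_nonneg (by positivity)]
    calc ‖f u‖ * Real.exp (-(σ * u)) ≤ C * Real.exp (c₁ * u) * Real.exp (-(σ * u)) :=
          mul_le_mul_of_nonneg_right (h1 u (le_of_lt hu)) (Real.exp_pos _).le
      _ = _ := by rw [mul_assoc, ← Real.exp_add]; congr 2; ring

/-- windows to weighted integrability, two sided -/
theorem win_int2 {H : ℝ → ℂ} (hHm : Measurable H) {C c h M β' σ : ℝ} (hh : 0 < h)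
    (hHb : ∀ u, 0 ≤ u → ‖H u‖ ≤ C * Real.exp (c * u)) (hM : 0 ≤ M)
    (hw : ∀ m : ℕ, ∫ v in Icc 0 h, ‖H (m * h + v)‖ ≤ M * Real.exp (β' * h * m)) (hσ : β' < σ)
    (hneg : IntegrableOn (fun u : ℝ => ‖H u‖ * Real.exp (-(σ * u))) (Iic 0)) :
    Integrable fun u : ℝ => ‖H u‖ * Real.exp (-(σ * u)) := by
  have hC : 0 ≤ C := by
    have := (norm_nonneg _).trans (hHb 0 le_rfl)
    simpa using this
  -- truncate to the half line and use the one sided theorem
  set H' : ℝ → ℂ := fun u => if 0 ≤ u then H u else 0 with hH'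
  have hH'm : Measurable H' := Measurable.ite measurableSet_Ici hHm measurable_const
  have h1 := win_int (H := H') (b := 0) (C := C) (c := |c|) (h := h) (M := M) (β' := β') hH'm hh le_rfl hC
    (fun u hu => by simp only [hH']; rw [if_neg (by linarith)])
    (fun u => by
      simp only [hH']
      split_ifs with hu
      · refine (hHb u hu).trans (mul_le_mul_of_nonneg_left (Real.exp_le_exp.2 ?_) hC)
        rw [abs_of_nonneg hu]
        exact mul_le_mul_of_nonneg_right (le_abs_self _) hu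
      · rw [norm_zero]; positivity) hM
    (fun m => by
      refine le_trans (le_of_eq ?_) (hw m)
      refine setIntegral_congr_fun measurableSet_Icc fun v hv => ?_
      simp only [hH']
      have : (0:ℝ) ≤ m * h + v := by have := hv.1; positivity
      rw [if_pos this]) hσ
  rw [← integrableOn_univ, ← Iic_union_Ioi (a := (0:ℝ))]
  refine hneg.union ?_
  refine (h1.integrableOn (s := Ioi 0)).congr_fun (fun u hu => ?_) measurableSet_Ioi
  simp only [hH']
  rw [if_pos (le_of_lt hu)]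

/-- transform theorem for two sided functions -/
theorem transform2 {f : ℝ → ℂ} (hfm : Measurable f) {c₁ : ℝ}
    (hf : ∀ κ : ℝ, c₁ ≤ κ → ∃ C : ℝ, 0 ≤ C ∧ ∀ u, ‖f u‖ ≤ C * Real.exp (κ * u))
    {a a' β β' h : ℝ} (hh : 0 < h) (hra : (r + 2) * h ≤ a) (hra' : (r + 2) * h ≤ a') (hβ : β < β')
    (H : ∀ᶠ t : ℝ in atTop, LNear f a a' r (Real.exp (β * t)) t) :
    ∃ q : Fin (r + 1) → ℂ, ∑ i, ‖q i‖ = 1 ∧
      (∀ s : ℂ, β' < s.re → DifferentiableAt ℂ (Lap (Hq f q h)) s) ∧
      (∀ s : ℂ, c₁ < s.re → Lap (Hq f q h) s = Pq q h s * Lap f s) ∧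
      ∀ σ₀ c : ℝ, β' < σ₀ → σ₀ ≤ c → ∃ K : ℝ, 0 ≤ K ∧ ∀ s : ℂ, σ₀ ≤ s.re → s.re ≤ c → ‖Lap (Hq f q h) s‖ ≤ K := by
  obtain ⟨C, hC, hfC⟩ := hf c₁ le_rfl
  obtain ⟨q, hq, M, hM0, hM⟩ := all_scales hfm hC (fun u _ => hfC u) hh hra hra' hβ H
  have hHm : Measurable (Hq f q h) := by
    unfold Hq
    refine Finset.measurable_fun_sum _ fun i _ => ?_
    exact (hfm.comp (measurable_add_const _)).const_mul _
  have hHb : ∀ κ : ℝ, c₁ ≤ κ → ∃ C : ℝ, 0 ≤ C ∧ ∀ u, ‖Hq f q h u‖ ≤ C * Real.exp (κ * u) := by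
    intro κ hκ
    obtain ⟨C, hC, hfC⟩ := hf κ hκ
    refine ⟨C * Real.exp (|κ| * (r * h)), by positivity, fun u => ?_⟩
    unfold Hq
    refine (norm_sum_le _ _).trans ?_
    calc ∑ i : Fin (r + 1), ‖q i * f (u + (i : ℕ) * h)‖ ≤ ∑ i : Fin (r + 1), ‖q i‖ * ((C * Real.exp (|κ| * (r * h))) * Real.exp (κ * u)) := by
          refine Finset.sum_le_sum fun i _ => ?_
          rw [norm_mul]
          refine mul_le_mul_of_nonneg_left ((hfC _).trans ?_) (norm_nonneg _)
          rw [mul_assoc, ← Real.exp_add]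
          refine mul_le_mul_of_nonneg_left (Real.exp_le_exp.2 ?_) hC
          have h1 : ((i : ℕ) : ℝ) ≤ r := by exact_mod_cast Nat.lt_succ_iff.1 i.2
          have h2 : ((i : ℕ) : ℝ) * h ≤ r * h := mul_le_mul_of_nonneg_right h1 hh.le
          have h3 : 0 ≤ ((i : ℕ) : ℝ) * h := by positivity
          have h4 : κ * (((i : ℕ) : ℝ) * h) ≤ |κ| * (r * h) := by
            calc κ * (((i : ℕ) : ℝ) * h) ≤ |κ| * (((i : ℕ) : ℝ) * h) := mul_le_mul_of_nonneg_right (le_abs_self _) h3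
              _ ≤ _ := mul_le_mul_of_nonneg_left h2 (abs_nonneg _)
          linarith
      _ = _ := by rw [← Finset.sum_mul, hq, one_mul]
  have hfint : ∀ σ : ℝ, c₁ < σ → Integrable fun u : ℝ => ‖f u‖ * Real.exp (-(σ * u)) := by
    intro σ hσ
    obtain ⟨C1, hC1, hf1⟩ := hf c₁ le_rfl
    obtain ⟨C2, hC2, hf2⟩ := hf (σ + 1) (by linarith)
    refine two_exp (C := max C1 C2) (c₁ := c₁) (c₂ := σ + 1) hfm (fun u _ => ?_) (fun u _ => ?_) hσ (by linarith)
    · exact (hf1 u).trans (mul_le_mul_of_nonneg_right (le_max_left _ _) (Real.exp_pos _).le)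
    · exact (hf2 u).trans (mul_le_mul_of_nonneg_right (le_max_right _ _) (Real.exp_pos _).le)
  have hHint : ∀ σ : ℝ, β' < σ → Integrable fun u : ℝ => ‖Hq f q h u‖ * Real.exp (-(σ * u)) := by
    intro σ hσ
    obtain ⟨C1, hC1, hf1⟩ := hHb c₁ le_rfl
    refine win_int2 (C := C1) (c := c₁) (h := h) (M := M) (β' := β') hHm hh (fun u _ => hf1 u) hM0 (fun m => ?_) hσ ?_
    · refine le_trans (le_of_eq ?_) (hM m)
      refine integral_congr_ae (ae_of_all _ fun v => ?_)
      simp only [Hq]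
      congr 1
      refine Finset.sum_congr rfl fun i _ => ?_
      congr 2
      ring
    · obtain ⟨C2, hC2, hf2⟩ := hHb (max c₁ (σ + 1)) (le_max_left _ _)
      have h3 : IntegrableOn (fun u : ℝ => C2 * Real.exp ((max c₁ (σ + 1) - σ) * u)) (Iic 0) :=
        (integrableOn_exp_mul_Iic (by have := le_max_right c₁ (σ + 1); linarith) 0).const_mul C2
      refine h3.mono' (hHm.norm.mul (by fun_prop)).aestronglyMeasurable (ae_of_all _ fun u => ?_)
      rw [Real.norm_eq_abs, abs_of_nonneg (by positivity)]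
      calc ‖Hq f q h u‖ * Real.exp (-(σ * u)) ≤ C2 * Real.exp (max c₁ (σ + 1) * u) * Real.exp (-(σ * u)) :=
            mul_le_mul_of_nonneg_right (hf2 u) (Real.exp_pos _).le
        _ = _ := by rw [mul_assoc, ← Real.exp_add]; congr 2; ring
  exact ⟨q, hq, fun s hs => lap_diff hHm hHint hs, fun s hs => lap_Hq hfm q h (hfint _ hs),
    fun σ₀ c h1 h2 => lap_bdd hHint h1 h2⟩

end

end Pool.Agent.H480.K
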