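import Pool.Agent.H480.M1
import Pool.Agent.H480.G6

/-!
Meromorphic continuation with at most `r` poles from exponential polynomials with arbitrarily small steps.
-/

open Filter Topology Set MeasureTheory Complex Polynomial

set_option linter.unusedSectionVars false

namespace Pool.Agent.H480.K

open Pool.Agent.H480.G (exists_list)

noncomputable section

variable {r : ℕ}

theorem ord_poly {P : ℂ[X]} (hP : P ≠ 0) (a : ℂ) :
    meromorphicOrderAt (fun z => P.eval z) a = (((P.rootMultiplicity a : ℕ) : ℤ) : WithTop ℤ) := by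
  obtain ⟨R, hR1, hR2⟩ := Polynomial.exists_eq_pow_rootMultiplicity_mul_and_not_dvd P hP a
  rw [meromorphicOrderAt_eq_int_iff (P.differentiable.analyticAt a).meromorphicAt]
  refine ⟨fun z => R.eval z, R.differentiable.analyticAt a, fun h => hR2 (Polynomial.dvd_iff_isRoot.2 h), Eventually.of_forall fun z => ?_⟩
  conv_lhs => rw [hR1]
  rw [eval_mul, eval_pow, eval_sub, eval_X, eval_C, zpow_natCast, smul_eq_mul]

theorem Pq_an (q : Fin (r + 1) → ℂ) (h : ℝ) (s : ℂ) : AnalyticAt ℂ (Pq q h) s := (Pq_diff q h).analyticAt s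

theorem ord_Pq {q : Fin (r + 1) → ℂ} (hq : ∑ i, ‖q i‖ = 1) {h : ℝ} (hh : 0 < h) (s : ℂ) :
    meromorphicOrderAt (Pq q h) s = ((((qp q).rootMultiplicity (cexp (s * h)) : ℕ) : ℤ) : WithTop ℤ) := by
  have e1 : Pq q h = (fun z => (qp q).eval z) ∘ fun s : ℂ => cexp (s * h) := by
    funext s
    exact Pq_eq q h s
  rw [e1, meromorphicOrderAt_comp_of_deriv_ne_zero (by fun_prop) ?_, ord_poly (qp_ne hq)]
  have hd : HasDerivAt (fun s : ℂ => cexp (s * h)) (cexp (s * h) * (1 * h)) s :=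
    ((hasDerivAt_id s).mul_const (h : ℂ)).cexp
  rw [hd.deriv]
  refine mul_ne_zero (Complex.exp_ne_zero _) ?_
  rw [one_mul]
  exact_mod_cast hh.ne'

theorem Pq_ev {q : Fin (r + 1) → ℂ} (hq : ∑ i, ‖q i‖ = 1) {h : ℝ} (hh : 0 < h) (s : ℂ) :
    ∀ᶠ w in 𝓝[≠] s, Pq q h w ≠ 0 := by
  rw [← meromorphicOrderAt_ne_top_iff_eventually_ne_zero (Pq_an q h s).meromorphicAt, ord_Pq hq hh]
  exact WithTop.coe_ne_top

theorem qp_deg (q : Fin (r + 1) → ℂ) : (qp q).natDegree ≤ r := by
  unfold qp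
  refine natDegree_sum_le_of_forall_le _ _ fun i _ => ?_
  exact (natDegree_C_mul_X_pow_le _ _).trans (Nat.lt_succ_iff.1 i.2)

/-- `G` continues `P(e^{hs}) Φ` -/
def Ct (δ c₀ : ℝ) (Φ : ℂ → ℂ) (q : Fin (r + 1) → ℂ) (h : ℝ) (G : ℂ → ℂ) : Prop :=
  (∀ s : ℂ, δ < s.re → DifferentiableAt ℂ G s) ∧ ∀ s : ℂ, c₀ < s.re → G s = Pq q h s * Φ s

theorem half_an {δ : ℝ} {G : ℂ → ℂ} (h : ∀ s : ℂ, δ < s.re → DifferentiableAt ℂ G s) : AnalyticOnNhd ℂ G {s | δ < s.re} :=
  DifferentiableOn.analyticOnNhd (fun s hs => (h s hs).differentiableWithinAt) (isOpen_lt continuous_const Complex.continuous_re)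

theorem half_id {δ c₀ : ℝ} {F G : ℂ → ℂ} (hF : ∀ s : ℂ, δ < s.re → DifferentiableAt ℂ F s)
    (hG : ∀ s : ℂ, δ < s.re → DifferentiableAt ℂ G s) (h : ∀ s : ℂ, c₀ < s.re → F s = G s) {s : ℂ} (hs : δ < s.re) :
    F s = G s := by
  set x₀ : ℝ := max c₀ δ + 1 with hx₀
  have h1 : c₀ ≤ max c₀ δ := le_max_left _ _
  have h2 : δ ≤ max c₀ δ := le_max_right _ _
  have hmem : ((x₀ : ℝ) : ℂ) ∈ {s : ℂ | δ < s.re} := by
    show δ < ((x₀ : ℝ) : ℂ).re
    rw [Complex.ofReal_re]; linarith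
  have hev : F =ᶠ[𝓝 ((x₀ : ℝ) : ℂ)] G := by
    have ho : IsOpen {s : ℂ | c₀ < s.re} := isOpen_lt continuous_const Complex.continuous_re
    filter_upwards [ho.mem_nhds (show c₀ < ((x₀ : ℝ) : ℂ).re by rw [Complex.ofReal_re]; linarith)] with s hs
    exact h s hs
  exact (half_an hF).eqOn_of_preconnected_of_eventuallyEq (half_an hG) (convex_halfSpace_re_gt δ).isPreconnected hmem hev hs

theorem Ct.cross {δ δ' c₀ : ℝ} {Φ : ℂ → ℂ} {r' : ℕ} {q : Fin (r + 1) → ℂ} {q' : Fin (r' + 1) → ℂ} {h h' : ℝ} {G G' : ℂ → ℂ}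
    (h1 : Ct δ c₀ Φ q h G) (h2 : Ct δ' c₀ Φ q' h' G') {s : ℂ} (hs : δ < s.re) (hs' : δ' < s.re) :
    G s * Pq q' h' s = G' s * Pq q h s := by
  refine half_id (δ := max δ δ') (c₀ := c₀) (F := fun s => G s * Pq q' h' s) (G := fun s => G' s * Pq q h s)
    (fun s hs => (h1.1 s ((le_max_left _ _).trans_lt hs)).mul (Pq_diff q' h' s))
    (fun s hs => (h2.1 s ((le_max_right _ _).trans_lt hs)).mul (Pq_diff q h s)) (fun s hs => ?_) (max_lt hs hs')
  show G s * Pq q' h' s = G' s * Pq q h s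
  rw [h1.2 s hs, h2.2 s hs]
  ring

theorem sum_count_le {α : Type*} [DecidableEq α] (m : Multiset α) (A : Finset α) : ∑ a ∈ A, m.count a ≤ Multiset.card m := by
  have h1 : ∑ a ∈ A ∪ m.toFinset, m.count a = Multiset.card m :=
    Multiset.sum_count_eq_card fun a ha => Finset.mem_union_right _ (Multiset.mem_toFinset.2 ha)
  rw [← h1]
  exact Finset.sum_le_sum_of_subset Finset.subset_union_left

/-- **continuation with at most `r` poles** -/
theorem finite_poles {δ : ℕ → ℝ} (hδ : Antitone δ) {c₀ : ℝ} (hδc : ∀ n, δ n < c₀) {Φ : ℂ → ℂ}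
    (hΦ : ∀ s : ℂ, c₀ < s.re → DifferentiableAt ℂ Φ s)
    (hn : ∀ n, ∃ h₀ : ℝ, 0 < h₀ ∧ ∀ h : ℝ, 0 < h → h ≤ h₀ → ∃ q : Fin (r + 1) → ℂ, ∑ i, ‖q i‖ = 1 ∧
      ∃ G : ℂ → ℂ, Ct (δ n) c₀ Φ q h G) :
    ∃ (ρ : Fin r → ℂ) (g : ℂ → ℂ), (∀ j, ∃ n, δ n < (ρ j).re) ∧
      (∀ s : ℂ, (∃ n, δ n < s.re) → DifferentiableAt ℂ g s) ∧ ∀ s : ℂ, c₀ < s.re → g s = (∏ j, (s - ρ j)) * Φ s := by
  classical
  choose h₀ hh₀ hcont using hn
  choose q hq G hG using fun n => hcont n (h₀ n) (hh₀ n) le_rfl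
  set U : Set ℂ := {s | ∃ n, δ n < s.re} with hU
  set M : ℂ → ℂ := fun s => if hs : ∃ n, δ n < s.re then G (Nat.find hs) s / Pq (q (Nat.find hs)) (h₀ (Nat.find hs)) s else 0 with hM
  -- local form
  have hloc : ∀ (n : ℕ) (s : ℂ), δ n < s.re → M =ᶠ[𝓝[≠] s] fun w => G n w / Pq (q n) (h₀ n) w := by
    intro n s hs
    have h1 : ∀ᶠ w in 𝓝[≠] s, δ n < w.re :=
      mem_nhdsWithin_of_mem_nhds ((isOpen_lt continuous_const Complex.continuous_re).mem_nhds hs)
    have h2 : ∀ᶠ w in 𝓝[≠] s, ∀ k ∈ Finset.range (n + 1), Pq (q k) (h₀ k) w ≠ 0 :=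
      (Finset.eventually_all _).2 fun k _ => Pq_ev (hq k) (hh₀ k) s
    filter_upwards [h1, h2] with w hw1 hw2
    have hex : ∃ n, δ n < w.re := ⟨n, hw1⟩
    simp only [hM]
    rw [dif_pos hex]
    have h3 := Nat.find_spec hex
    have h4 : Nat.find hex ≤ n := Nat.find_min' hex hw1
    have h5 := hw2 _ (Finset.mem_range.2 (Nat.lt_succ_of_le h4))
    have h6 := hw2 n (Finset.mem_range.2 (Nat.lt_succ_self n))
    rw [div_eq_div_iff h5 h6]
    exact (hG _).cross (hG n) h3 hw1
  have hMm : MeromorphicOn M U := by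
    rintro s ⟨n, hs⟩
    refine MeromorphicAt.congr ?_ (hloc n s hs).symm
    exact (half_an (hG n).1 s hs).meromorphicAt.div (Pq_an _ _ s).meromorphicAt
  -- the order of the pole
  set d : ℂ → ℕ := fun s => (-(meromorphicOrderAt M s).untop₀).toNat with hd
  have hsum : ∀ T : Finset ℂ, (∀ s ∈ T, s ∈ U) → ∑ s ∈ T, d s ≤ r := by
    intro T hT
    obtain ⟨n, hn⟩ : ∃ n, ∀ s ∈ T, δ n < s.re := by
      have gen : ∀ T' : Finset ℂ, (∀ s ∈ T', s ∈ U) → ∃ n, ∀ s ∈ T', δ n < s.re := by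
        intro T'
        induction T' using Finset.induction_on with
        | empty => intro _; exact ⟨0, by simp⟩
        | insert s T' _ ih =>
          intro h'
          obtain ⟨n1, hn1⟩ := ih fun s hs => h' s (Finset.mem_insert_of_mem hs)
          obtain ⟨n2, hn2⟩ := h' s (Finset.mem_insert_self _ _)
          refine ⟨max n1 n2, fun s' hs' => ?_⟩
          rcases Finset.mem_insert.1 hs' with rfl | h1
          · exact (hδ (le_max_right _ _)).trans_lt hn2
          · exact (hδ (le_max_left _ _)).trans_lt (hn1 s' h1)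
      exact gen T hT
    set R : ℝ := ∑ s ∈ T, |s.im| with hR
    have hR0 : 0 ≤ R := Finset.sum_nonneg fun _ _ => abs_nonneg _
    have hRs : ∀ s ∈ T, |s.im| ≤ R := fun s hs => Finset.single_le_sum (f := fun s : ℂ => |s.im|) (fun _ _ => abs_nonneg _) hs
    set h : ℝ := min (h₀ n) (1 / (R + 1)) with hh
    have hh1 : 0 < h := lt_min (hh₀ n) (by positivity)
    obtain ⟨p, hp, F, hF⟩ := hcont n h hh1 (min_le_left _ _)
    have hinj : ∀ s ∈ T, ∀ w ∈ T, cexp (s * h) = cexp (w * h) → s = w := by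
      intro s hs w hw hsw
      rw [Complex.exp_eq_exp_iff_exists_int] at hsw
      obtain ⟨k, hk⟩ := hsw
      have h1 : s.im * h = w.im * h + k * (2 * Real.pi) := by
        have := congrArg Complex.im hk
        simpa using this
      have h2 : |(s.im - w.im) * h| < 2 := by
        rw [abs_mul, abs_of_pos hh1]
        have h3 : |s.im - w.im| ≤ R + R := (abs_sub _ _).trans (add_le_add (hRs s hs) (hRs w hw))
        have h4 : h ≤ 1 / (R + 1) := min_le_right _ _
        calc |s.im - w.im| * h ≤ (R + R) * (1 / (R + 1)) := mul_le_mul h3 h4 hh1.le (by positivity)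
          _ = 2 * R / (R + 1) := by ring
          _ < 2 := by rw [div_lt_iff₀ (by positivity)]; linarith
      have h3 : (s.im - w.im) * h = k * (2 * Real.pi) := by linarith
      have hk0 : k = 0 := by
        by_contra hk0
        have h4 : (1:ℝ) ≤ |(k:ℝ)| := by
          rw [← Int.cast_abs]
          exact_mod_cast Int.one_le_abs hk0
        rw [h3, abs_mul, abs_of_pos (by positivity : (0:ℝ) < 2 * Real.pi)] at h2
        have := Real.pi_gt_three
        nlinarith
      rw [hk0] at hk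
      have hhc : (h : ℂ) ≠ 0 := by exact_mod_cast hh1.ne'
      have h5 : s * h = w * h := by simpa using hk
      exact mul_right_cancel₀ hhc h5
    have hle : ∀ s ∈ T, d s ≤ (qp p).rootMultiplicity (cexp (s * h)) := by
      intro s hs
      have hsn := hn s hs
      have h1 : F =ᶠ[𝓝[≠] s] Pq p h * M := by
        have h2 : ∀ᶠ w in 𝓝[≠] s, δ n < w.re :=
          mem_nhdsWithin_of_mem_nhds ((isOpen_lt continuous_const Complex.continuous_re).mem_nhds hsn)
        filter_upwards [hloc n s hsn, h2, Pq_ev (hq n) (hh₀ n) s] with w hw1 hw2 hw3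
        rw [Pi.mul_apply, hw1, mul_div_assoc', eq_div_iff hw3]
        have := hF.cross (hG n) hw2 hw2
        rw [this]
        ring
      have h2 := meromorphicOrderAt_congr h1
      rw [meromorphicOrderAt_mul (Pq_an p h s).meromorphicAt (hMm s ⟨n, hsn⟩), ord_Pq hp hh1] at h2
      have h3 := (half_an hF.1 s hsn).meromorphicOrderAt_nonneg
      rw [h2] at h3
      simp only [hd]
      cases hc : meromorphicOrderAt M s with
      | top => simp
      | coe k =>
        rw [hc] at h3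
        have h4 : (0:ℤ) ≤ (((qp p).rootMultiplicity (cexp (s * h)) : ℕ) : ℤ) + k := by
          exact_mod_cast h3
        rw [WithTop.untop₀_coe]
        omega
    calc ∑ s ∈ T, d s ≤ ∑ s ∈ T, (qp p).rootMultiplicity (cexp (s * h)) := Finset.sum_le_sum hle
      _ = ∑ a ∈ T.image fun s => cexp (s * h), (qp p).roots.count a := by
          rw [Finset.sum_image fun s hs w hw hsw => hinj s hs w hw hsw]
          simp only [count_roots]
      _ ≤ Multiset.card (qp p).roots := sum_count_le _ _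
      _ ≤ (qp p).natDegree := card_roots' _
      _ ≤ r := qp_deg p
  -- finitely many poles
  have hfin : {s ∈ U | d s ≠ 0}.Finite := by
    by_contra hinf
    obtain ⟨t, ht, hcard⟩ := Set.Infinite.exists_subset_card_eq hinf (r + 1)
    have h1 := hsum t fun s hs => (ht hs).1
    have h2 : t.card ≤ ∑ s ∈ t, d s := by
      rw [Finset.card_eq_sum_ones]
      exact Finset.sum_le_sum fun s hs => Nat.one_le_iff_ne_zero.2 (ht hs).2
    omega
  set P : Finset ℂ := hfin.toFinset with hP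
  have hPmem : ∀ s, s ∈ P ↔ s ∈ U ∧ d s ≠ 0 := fun s => by rw [hP, Set.Finite.mem_toFinset]; rfl
  have hPsum : ∑ s ∈ P, d s ≤ r := hsum P fun s hs => ((hPmem s).1 hs).1
  obtain ⟨L, hL1, hL2, hL3⟩ := exists_list P d
  set c₁ : ℂ := ((c₀ + 1 : ℝ) : ℂ) with hc₁
  set L' : List ℂ := L ++ List.replicate (r - L.length) c₁ with hL'
  have hlen : L'.length = r := by
    rw [hL', List.length_append, List.length_replicate, hL1]
    omega
  set ρ : Fin r → ℂ := fun j => L'.get (Fin.cast hlen.symm j) with hρ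
  have hprod : ∀ s : ℂ, ∏ j, (s - ρ j) = (∏ x ∈ P, (s - x) ^ d x) * (s - c₁) ^ (r - L.length) := by
    intro s
    have h1 : ∏ j, (s - ρ j) = (L'.map fun x => s - x).prod := by
      have h2 : ∏ j : Fin r, (s - ρ j) = ∏ j : Fin L'.length, (s - L'.get j) := by
        refine Fintype.prod_equiv (finCongr hlen.symm) _ _ fun j => ?_
        rfl
      rw [h2, ← List.prod_ofFn]
      congr 1
      apply List.ext_get
      · simp
      · intro k h1 h2
        simp
    rw [h1, hL', List.map_append, List.prod_append, hL3]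
    simp
  have hρU : ∀ j, ∃ n, δ n < (ρ j).re := by
    intro j
    have h1 : ρ j ∈ L' := List.get_mem _ _
    rw [hL', List.mem_append] at h1
    rcases h1 with h1 | h1
    · exact ((hPmem _).1 (hL2 _ h1)).1
    · rw [List.eq_of_mem_replicate h1, hc₁]
      refine ⟨0, ?_⟩
      rw [Complex.ofReal_re]
      have := hδc 0
      linarith
  set p : ℂ → ℂ := fun s => ∏ j, (s - ρ j) with hp
  have hpd : Differentiable ℂ p := by simp only [hp]; fun_prop
  have hfm : MeromorphicOn (p * M) U := fun s hs => (hpd.analyticAt s).meromorphicAt.mul (hMm s hs)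
  -- the orders of `p M` are nonnegative
  have hord : ∀ s ∈ U, 0 ≤ meromorphicOrderAt (p * M) s := by
    intro s hs
    rw [meromorphicOrderAt_mul (hpd.analyticAt s).meromorphicAt (hMm s hs)]
    have h1 : ((d s : ℤ) : WithTop ℤ) ≤ meromorphicOrderAt p s := by
      rw [(hpd.analyticAt s).meromorphicOrderAt_eq]
      by_cases hsP : s ∈ P
      · have h2 : ((d s : ℕ) : ℕ∞) ≤ analyticOrderAt p s := by
          rw [natCast_le_analyticOrderAt (hpd.analyticAt s)]
          refine ⟨fun w => (∏ x ∈ P.erase s, (w - x) ^ d x) * (w - c₁) ^ (r - L.length), by fun_prop, Eventually.of_forall fun w => ?_⟩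
          simp only [hp]
          rw [hprod, smul_eq_mul, ← mul_assoc, Finset.mul_prod_erase P (fun x => (w - x) ^ d x) hsP]
        cases hc : analyticOrderAt p s with
        | top => simp
        | coe k =>
          rw [hc] at h2
          have h3 : d s ≤ k := by exact_mod_cast h2
          show ((d s : ℤ) : WithTop ℤ) ≤ ((k : ℤ) : WithTop ℤ)
          exact_mod_cast h3
      · have h2 : d s = 0 := by
          by_contra h3
          exact hsP ((hPmem s).2 ⟨hs, h3⟩)
        rw [h2, ← (hpd.analyticAt s).meromorphicOrderAt_eq]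
        exact (hpd.analyticAt s).meromorphicOrderAt_nonneg
    have h2 : ((-(d s : ℤ) : ℤ) : WithTop ℤ) ≤ meromorphicOrderAt M s := by
      simp only [hd]
      cases hc : meromorphicOrderAt M s with
      | top => exact le_top
      | coe k =>
        rw [WithTop.untop₀_coe]
        have h6 : -((-k).toNat : ℤ) ≤ k := by omega
        exact_mod_cast h6
    calc (0 : WithTop ℤ) = ((d s : ℤ) : WithTop ℤ) + ((-(d s : ℤ) : ℤ) : WithTop ℤ) := by
          rw [← WithTop.coe_add]; simp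
      _ ≤ _ := add_le_add h1 h2
  set g : ℂ → ℂ := toMeromorphicNFOn (p * M) U with hg
  have hgan : ∀ s ∈ U, AnalyticAt ℂ g s := by
    intro s hs
    have h1 := meromorphicNFOn_toMeromorphicNFOn (p * M) U hs
    rw [← h1.meromorphicOrderAt_nonneg_iff_analyticAt, meromorphicOrderAt_toMeromorphicNFOn hfm hs]
    exact hord s hs
  refine ⟨ρ, g, hρU, fun s hs => (hgan s hs).differentiableAt, fun s hs => ?_⟩
  have hsU : s ∈ U := ⟨0, (hδc 0).trans hs⟩
  have h1 : g =ᶠ[𝓝[≠] s] fun w => p w * Φ w := by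
    have h2 : ∀ᶠ w in 𝓝[≠] s, c₀ < w.re :=
      mem_nhdsWithin_of_mem_nhds ((isOpen_lt continuous_const Complex.continuous_re).mem_nhds hs)
    filter_upwards [hfm.toMeromorphicNFOn_eq_self_on_nhdsNE hsU, hloc 0 s ((hδc 0).trans hs), h2, Pq_ev (hq 0) (hh₀ 0) s] with w hw1 hw2 hw3 hw4
    rw [hg, hw1, Pi.mul_apply, hw2, (hG 0).2 w hw3]
    field_simp
  have h2 : Tendsto g (𝓝[≠] s) (𝓝 (g s)) := (hgan s hsU).continuousAt.tendsto.mono_left nhdsWithin_le_nhds
  have h3 : Tendsto (fun w => p w * Φ w) (𝓝[≠] s) (𝓝 (p s * Φ s)) :=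
    ((hpd s).continuousAt.mul (hΦ s hs).continuousAt).tendsto.mono_left nhdsWithin_le_nhds
  exact tendsto_nhds_unique (h2.congr' h1) h3

end

end Pool.Agent.H480.K
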