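import Pool.Agent.H480.M2

/-!
Growth of a quotient by an exponential polynomial.
-/

open Filter Topology Set MeasureTheory Complex Polynomial

set_option linter.unusedSectionVars false

namespace Pool.Agent.H480.K

noncomputable section

variable {r : ℕ}

/-- horizontal lines on which the exponential polynomial is bounded from below -/
theorem good_rows {q : Fin (r + 1) → ℂ} (hq : ∑ i, ‖q i‖ = 1) {h : ℝ} (hh : 0 < h) (x y : ℝ) :
    ∃ θ ∈ Ioo (0:ℝ) 1, ∃ c : ℝ, 0 < c ∧ ∀ (s : ℂ) (k : ℤ), s.im * h = θ + 2 * Real.pi * k → x ≤ s.re → s.re ≤ y →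
      c ≤ ‖Pq q h s‖ := by
  have hfin : (Complex.arg '' {z | z ∈ (qp q).roots}).Finite := by
    refine Set.Finite.image _ ?_
    have : {z | z ∈ (qp q).roots} = ((qp q).roots.toFinset : Set ℂ) := by ext z; simp
    rw [this]
    exact Finset.finite_toSet _
  obtain ⟨θ, hθ, hθ2⟩ := (Set.Ioo_infinite (zero_lt_one (α := ℝ))).exists_notMem_finite hfin
  have hpi := Real.pi_gt_three
  have hne : ∀ v : ℝ, (qp q).eval (cexp ((v : ℂ) + θ * I)) ≠ 0 := by
    intro v h0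
    apply hθ2
    refine ⟨cexp ((v : ℂ) + θ * I), ?_, ?_⟩
    · show _ ∈ (qp q).roots
      rw [mem_roots (qp_ne hq)]
      exact h0
    · rw [← Complex.log_im, Complex.log_exp]
      · simp
      · simp; linarith [hθ.1]
      · simp; linarith [hθ.2]
  rcases lt_or_ge y x with hyx | hxy
  · exact ⟨θ, hθ, 1, one_pos, fun s k _ h1 h2 => absurd (h1.trans h2) (not_le.2 hyx)⟩
  have hcomp : IsCompact (Icc (x * h) (y * h)) := isCompact_Icc
  have hnon : (Icc (x * h) (y * h)).Nonempty := ⟨x * h, le_rfl, mul_le_mul_of_nonneg_right hxy hh.le⟩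
  obtain ⟨v0, hv0, hmin⟩ := hcomp.exists_isMinOn hnon (f := fun v : ℝ => ‖(qp q).eval (cexp ((v : ℂ) + θ * I))‖)
    (by
      refine Continuous.continuousOn ?_
      exact ((qp q).continuous.comp (by fun_prop)).norm)
  refine ⟨θ, hθ, ‖(qp q).eval (cexp ((v0 : ℂ) + θ * I))‖, norm_pos_iff.2 (hne v0), fun s k hs h1 h2 => ?_⟩
  have e1 : cexp (s * h) = cexp (((s.re * h : ℝ) : ℂ) + θ * I) := by
    rw [Complex.exp_eq_exp_iff_exists_int]
    refine ⟨k, ?_⟩
    apply Complex.ext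
    · simp
    · simp
      linarith
  rw [Pq_eq, e1]
  exact hmin ⟨mul_le_mul_of_nonneg_right h1 hh.le, mul_le_mul_of_nonneg_right h2 hh.le⟩

/-- **growth by the maximum principle on rectangles** -/
theorem rect_bound {q : Fin (r + 1) → ℂ} (hq : ∑ i, ‖q i‖ = 1) {h : ℝ} (hh : 0 < h) {β' : ℝ} {G g p : ℂ → ℂ}
    (hGb : ∀ σ₀ c : ℝ, β' < σ₀ → σ₀ ≤ c → ∃ K : ℝ, 0 ≤ K ∧ ∀ s : ℂ, σ₀ ≤ s.re → s.re ≤ c → ‖G s‖ ≤ K)
    (hg : ∀ s : ℂ, β' < s.re → DifferentiableAt ℂ g s)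
    (hid : ∀ s : ℂ, β' < s.re → p s * G s = Pq q h s * g s) {m : ℕ} {R : ℝ} (hR : 0 ≤ R)
    (hp : ∀ s : ℂ, ‖p s‖ ≤ (‖s‖ + R) ^ m) {σ₀ c : ℝ} (h1 : β' < σ₀) (h2 : σ₀ ≤ c) :
    ∃ K : ℝ, 0 ≤ K ∧ ∀ s : ℂ, σ₀ ≤ s.re → s.re ≤ c → ‖g s‖ ≤ K * (1 + |s.im|) ^ m := by
  have hpi := Real.pi_pos
  obtain ⟨σ₁, hσ₁, c₁, hc₁, hl1⟩ := good_line hq hh h1
  obtain ⟨σ₂, hσ₂, c₂, hc₂, hl2⟩ := good_line hq hh (lt_add_one c)
  obtain ⟨θ, hθ, c₃, hc₃, hl3⟩ := good_rows hq hh σ₁ σ₂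
  obtain ⟨K, hK, hKb⟩ := hGb σ₁ σ₂ hσ₁.1 (by linarith [hσ₁.2, hσ₂.1])
  have hσ12 : σ₁ < σ₂ := by linarith [hσ₁.2, hσ₂.1]
  set κ : ℝ := min (min c₁ c₂) c₃ with hκ
  have hκ0 : 0 < κ := lt_min (lt_min hc₁ hc₂) hc₃
  set W : ℝ := |σ₁| + |σ₂| + 2 * Real.pi / h + R + 1 with hW
  have hW1 : 1 ≤ W := by
    have : 0 < 2 * Real.pi / h := by positivity
    rw [hW]; linarith [abs_nonneg σ₁, abs_nonneg σ₂]
  refine ⟨W ^ m * K / κ, by positivity, fun s hs1 hs2 => ?_⟩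
  set k : ℤ := ⌊(s.im * h - θ) / (2 * Real.pi)⌋ with hk
  set τ : ℝ := (θ + 2 * Real.pi * k) / h with hτ
  have hk1 : (k : ℝ) * (2 * Real.pi) ≤ s.im * h - θ := by
    have := Int.floor_le ((s.im * h - θ) / (2 * Real.pi))
    rw [← hk] at this
    rwa [le_div_iff₀ (by positivity)] at this
  have hk2 : s.im * h - θ < ((k : ℝ) + 1) * (2 * Real.pi) := by
    have := Int.lt_floor_add_one ((s.im * h - θ) / (2 * Real.pi))
    rw [← hk] at this
    rwa [div_lt_iff₀ (by positivity)] at this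
  have hτh : τ * h = θ + 2 * Real.pi * k := by rw [hτ]; field_simp
  set τ' : ℝ := τ + 2 * Real.pi / h with hτ'
  have hτh' : τ' * h = θ + 2 * Real.pi * ((k + 1 : ℤ) : ℝ) := by
    rw [hτ', add_mul, hτh]
    push_cast
    field_simp
    ring
  have hsτ : τ ≤ s.im := by
    rw [hτ, div_le_iff₀ hh]; linarith
  have hsτ' : s.im ≤ τ' := by
    have : s.im * h ≤ τ' * h := by rw [hτh']; push_cast; linarith
    exact le_of_mul_le_mul_right this hh
  have hττ' : τ < τ' := by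
    rw [hτ']
    have : 0 < 2 * Real.pi / h := by positivity
    linarith
  set U : Set ℂ := Ioo σ₁ σ₂ ×ℂ Ioo τ τ' with hU
  have hcl : closure U = Icc σ₁ σ₂ ×ℂ Icc τ τ' := by
    rw [hU, closure_reProdIm, closure_Ioo hσ12.ne, closure_Ioo hττ'.ne]
  have hbdd : Bornology.IsBounded U :=
    (Metric.isBounded_Ioo _ _).reProdIm (Metric.isBounded_Ioo _ _)
  have hdiff : DiffContOnCl ℂ g U := by
    refine DifferentiableOn.diffContOnCl ?_
    rw [hcl]
    intro z hz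
    exact (hg z (hσ₁.1.trans_le hz.1.1)).differentiableWithinAt
  have hmem : s ∈ closure U := by
    rw [hcl]
    exact ⟨⟨by linarith [hσ₁.2], by linarith [hσ₂.1]⟩, hsτ, hsτ'⟩
  have hfr : ∀ z ∈ frontier U, ‖g z‖ ≤ W ^ m * K / κ * (1 + |s.im|) ^ m := by
    intro z hz
    have hzcl : z ∈ closure U := frontier_subset_closure hz
    rw [hcl] at hzcl
    obtain ⟨⟨z1, z2⟩, z3, z4⟩ := hzcl
    have hlow : κ ≤ ‖Pq q h z‖ := by
      rw [hU, frontier_reProdIm, closure_Ioo hσ12.ne, frontier_Ioo hσ12, frontier_Ioo hττ', closure_Ioo hττ'.ne] at hz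
      rcases hz with ⟨h3, h4⟩ | ⟨h3, h4⟩
      · rcases h4 with h4 | h4
        · exact (min_le_right _ _).trans (hl3 z k (by rw [show z.im = τ from h4]; exact hτh) z1 z2)
        · exact (min_le_right _ _).trans (hl3 z (k + 1) (by rw [show z.im = τ' from h4]; exact hτh') z1 z2)
      · rcases h3 with h3 | h3
        · exact ((min_le_left _ _).trans (min_le_left _ _)).trans (hl1 z h3)
        · exact ((min_le_left _ _).trans (min_le_right _ _)).trans (hl2 z h3)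
    have hb := hid z (hσ₁.1.trans_le z1)
    have e1 := congrArg norm hb
    rw [norm_mul, norm_mul] at e1
    have e2 := hKb z z1 z2
    have e3 := hp z
    have e4 : ‖z‖ + R ≤ W * (1 + |s.im|) := by
      have f1 : ‖z‖ ≤ |z.re| + |z.im| := Complex.norm_le_abs_re_add_abs_im z
      have f2 : |z.re| ≤ |σ₁| + |σ₂| := by
        rw [abs_le]
        constructor
        · linarith [neg_abs_le σ₁, abs_nonneg σ₂]
        · linarith [le_abs_self σ₂, abs_nonneg σ₁]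
      have f3 : |z.im| ≤ |s.im| + 2 * Real.pi / h := by
        have f4 : |z.im - s.im| ≤ 2 * Real.pi / h := by
          rw [abs_le]
          constructor <;> linarith
        have f5 := abs_sub_abs_le_abs_sub z.im s.im
        linarith
      have f6 : 0 ≤ |s.im| := abs_nonneg _
      have f7 : W + |s.im| ≤ W * (1 + |s.im|) := by nlinarith
      refine le_trans ?_ f7
      rw [hW]
      linarith
    have e5 : (‖z‖ + R) ^ m ≤ W ^ m * (1 + |s.im|) ^ m := by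
      rw [← mul_pow]
      exact pow_le_pow_left₀ (by positivity) e4 m
    rw [div_mul_eq_mul_div, le_div_iff₀ hκ0]
    calc ‖g z‖ * κ ≤ ‖g z‖ * ‖Pq q h z‖ := mul_le_mul_of_nonneg_left hlow (norm_nonneg _)
      _ = ‖p z‖ * ‖G z‖ := by rw [e1]; ring
      _ ≤ (W ^ m * (1 + |s.im|) ^ m) * K := mul_le_mul (e3.trans e5) e2 (norm_nonneg _) (by positivity)
      _ = _ := by ring
  exact Complex.norm_le_of_forall_mem_frontier_norm_le hbdd hdiff hfr hmem

end

end Pool.Agent.H480.K
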