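import Pool.Agent.H480.M3

/-!
Gaussian smoothed sums.
-/

open Filter Topology Set MeasureTheory Complex

set_option linter.unusedSectionVars false

namespace Pool.Agent.H480.K

noncomputable section

/-- the Gaussian weight -/
def gk (lam w : ℝ) : ℝ := Real.exp (-w ^ 2 / (2 * lam))

/-- the smoothed sum at `x` -/
def VV (a : ℕ → ℂ) (lam x : ℝ) : ℂ := ∑' n : ℕ, if n = 0 then 0 else a n * (gk lam (Real.log (x / n)) : ℂ)

/-- one term -/
def tV (a : ℕ → ℂ) (lam : ℝ) (n : ℕ) (u : ℝ) : ℂ := if n = 0 then 0 else a n * (gk lam (u - Real.log n) : ℂ)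

/-- the smoothed sum at `e^u` -/
def fV (a : ℕ → ℂ) (lam u : ℝ) : ℂ := ∑' n : ℕ, tV a lam n u

theorem VV_eq (a : ℕ → ℂ) (lam : ℝ) {x : ℝ} (hx : x ≠ 0) : VV a lam x = fV a lam (Real.log x) := by
  unfold VV fV tV
  refine tsum_congr fun n => ?_
  split_ifs with h
  · rfl
  · rw [Real.log_div hx (by exact_mod_cast h)]

theorem VV_exp (a : ℕ → ℂ) (lam u : ℝ) : VV a lam (Real.exp u) = fV a lam u := by
  rw [VV_eq a lam (Real.exp_pos u).ne', Real.log_exp]

theorem gk_pos (lam w : ℝ) : 0 < gk lam w := Real.exp_pos _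

theorem gk_le {lam : ℝ} (hl : 0 < lam) (κ w : ℝ) : gk lam w ≤ Real.exp (lam * κ ^ 2 / 2) * Real.exp (κ * w) := by
  unfold gk
  rw [← Real.exp_add]
  refine Real.exp_le_exp.2 ?_
  rw [div_le_iff₀ (by positivity)]
  nlinarith [sq_nonneg (w + lam * κ)]

variable {a : ℕ → ℂ} {b B lam : ℝ}

theorem tV_le (hB : 0 ≤ B) (ha : ∀ n : ℕ, n ≠ 0 → ‖a n‖ ≤ B * (n : ℝ) ^ b) (hl : 0 < lam) (κ : ℝ) (n : ℕ) (u : ℝ) :
    ‖tV a lam n u‖ ≤ (B * Real.exp (lam * κ ^ 2 / 2)) * (n : ℝ) ^ (b - κ) * Real.exp (κ * u) := by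
  unfold tV
  split_ifs with h
  · rw [norm_zero]
    positivity
  · have hn : (0:ℝ) < n := by exact_mod_cast Nat.pos_of_ne_zero h
    rw [norm_mul, Complex.norm_real, Real.norm_eq_abs, abs_of_pos (gk_pos _ _)]
    calc ‖a n‖ * gk lam (u - Real.log n) ≤ (B * (n:ℝ) ^ b) * (Real.exp (lam * κ ^ 2 / 2) * Real.exp (κ * (u - Real.log n))) :=
          mul_le_mul (ha n h) (gk_le hl κ _) (gk_pos _ _).le (by positivity)
      _ = _ := by
          rw [Real.rpow_sub hn, Real.rpow_def_of_pos hn κ, mul_sub, Real.exp_sub, mul_comm κ (Real.log n)]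
          field_simp

theorem pw_sum {κ : ℝ} (hκ : b + 1 < κ) : Summable fun n : ℕ => (n : ℝ) ^ (b - κ) :=
  Real.summable_nat_rpow.2 (by linarith)

theorem tV_cont (n : ℕ) : Continuous (tV a lam n) := by
  unfold tV
  split_ifs with h
  · exact continuous_const
  · unfold gk
    fun_prop

theorem fV_bd (hB : 0 ≤ B) (ha : ∀ n : ℕ, n ≠ 0 → ‖a n‖ ≤ B * (n : ℝ) ^ b) (hl : 0 < lam) {κ : ℝ} (hκ : b + 1 < κ) :
    ∃ C : ℝ, 0 ≤ C ∧ ∀ u, ‖fV a lam u‖ ≤ C * Real.exp (κ * u) := by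
  refine ⟨(B * Real.exp (lam * κ ^ 2 / 2)) * ∑' n : ℕ, (n : ℝ) ^ (b - κ), ?_, fun u => ?_⟩
  · exact mul_nonneg (by positivity) (tsum_nonneg fun n => by positivity)
  · unfold fV
    have hs := ((pw_sum hκ).mul_left (B * Real.exp (lam * κ ^ 2 / 2))).mul_right (Real.exp (κ * u))
    refine (tsum_of_norm_bounded hs.hasSum fun n => tV_le hB ha hl κ n u).trans (le_of_eq ?_)
    rw [tsum_mul_right, tsum_mul_left]

theorem fV_cont (hB : 0 ≤ B) (ha : ∀ n : ℕ, n ≠ 0 → ‖a n‖ ≤ B * (n : ℝ) ^ b) (hl : 0 < lam) : Continuous (fV a lam) := by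
  set κ : ℝ := b + 2 with hκ
  have h1 : Continuous fun u : ℝ => ∑' n : ℕ, tV a lam n u * ((Real.exp (-(κ * u)) : ℝ) : ℂ) := by
    refine continuous_tsum (u := fun n : ℕ => (B * Real.exp (lam * κ ^ 2 / 2)) * (n : ℝ) ^ (b - κ))
      (fun n => (tV_cont n).mul (by fun_prop)) ((pw_sum (by linarith)).mul_left _) fun n u => ?_
    rw [norm_mul, Complex.norm_real, Real.norm_eq_abs, abs_of_pos (Real.exp_pos _)]
    calc ‖tV a lam n u‖ * Real.exp (-(κ * u)) ≤ (B * Real.exp (lam * κ ^ 2 / 2)) * (n : ℝ) ^ (b - κ) * Real.exp (κ * u) *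
          Real.exp (-(κ * u)) := mul_le_mul_of_nonneg_right (tV_le hB ha hl κ n u) (Real.exp_pos _).le
      _ = _ := by rw [mul_assoc, ← Real.exp_add]; simp
  have h2 : fV a lam = fun u : ℝ => (∑' n : ℕ, tV a lam n u * ((Real.exp (-(κ * u)) : ℝ) : ℂ)) *
      ((Real.exp (κ * u) : ℝ) : ℂ) := by
    funext u
    rw [tsum_mul_right, mul_assoc, ← Complex.ofReal_mul, ← Real.exp_add]
    simp [fV]
  rw [h2]
  exact h1.mul (by fun_prop)

theorem VV_meas (hB : 0 ≤ B) (ha : ∀ n : ℕ, n ≠ 0 → ‖a n‖ ≤ B * (n : ℝ) ^ b) (hl : 0 < lam) : Measurable (VV a lam) := by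
  have h1 : VV a lam = fun x : ℝ => if x = 0 then VV a lam 0 else fV a lam (Real.log x) := by
    funext x
    split_ifs with h
    · rw [h]
    · exact VV_eq a lam h
  rw [h1]
  exact Measurable.ite (measurableSet_singleton 0) measurable_const ((fV_cont hB ha hl).measurable.comp Real.measurable_log)

/-- the transform of the weight -/
def MM (lam : ℝ) (s : ℂ) : ℂ := (Real.sqrt (2 * Real.pi * lam) : ℂ) * cexp ((lam / 2 : ℝ) * s ^ 2)

theorem gk_lap (hl : 0 < lam) (s : ℂ) : Integrable (fun w : ℝ => (gk lam w : ℂ) * cexp (-s * w)) ∧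
    ∫ w : ℝ, (gk lam w : ℂ) * cexp (-s * w) = MM lam s := by
  have hpi := Real.pi_pos
  have hlc : (lam : ℂ) ≠ 0 := by exact_mod_cast hl.ne'
  have e1 : ∀ w : ℝ, (gk lam w : ℂ) * cexp (-s * w) = cexp (((-(1 / (2 * lam)) : ℝ) : ℂ) * (w : ℂ) ^ 2 + (-s) * w + 0) := by
    intro w
    unfold gk
    rw [Complex.ofReal_exp, ← Complex.exp_add]
    congr 1
    push_cast
    field_simp
    ring
  have hre : (((-(1 / (2 * lam)) : ℝ) : ℂ)).re < 0 := by
    rw [Complex.ofReal_re]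
    have : 0 < 1 / (2 * lam) := by positivity
    linarith
  simp_rw [e1]
  refine ⟨integrable_cexp_quadratic' hre _ _, ?_⟩
  rw [integral_cexp_quadratic hre]
  unfold MM
  have e2 : ((Real.pi : ℂ) / -((-(1 / (2 * lam)) : ℝ) : ℂ)) ^ (1 / 2 : ℂ) = ((Real.sqrt (2 * Real.pi * lam) : ℝ) : ℂ) := by
    have e3 : ((Real.pi : ℂ) / -((-(1 / (2 * lam)) : ℝ) : ℂ)) = ((2 * Real.pi * lam : ℝ) : ℂ) := by
      push_cast
      field_simp
    rw [e3, show (1 / 2 : ℂ) = ((1 / 2 : ℝ) : ℂ) by push_cast; ring, ← Complex.ofReal_cpow (by positivity),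
      ← Real.sqrt_eq_rpow]
  rw [e2]
  congr 2
  push_cast
  field_simp
  ring

theorem tV_lap (hl : 0 < lam) (n : ℕ) (s : ℂ) : Integrable (fun u : ℝ => tV a lam n u * cexp (-s * u)) ∧
    ∫ u : ℝ, tV a lam n u * cexp (-s * u) = MM lam s * LSeries.term a s n := by
  obtain ⟨h1, h2⟩ := gk_lap hl s
  rcases eq_or_ne n 0 with rfl | hn
  · simp [tV]
  · have hn0 : (0:ℝ) < n := by exact_mod_cast Nat.pos_of_ne_zero hn
    have e1 : ∀ u : ℝ, tV a lam n u * cexp (-s * u) =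
        (a n / (n : ℂ) ^ s) * ((gk lam (u - Real.log n) : ℂ) * cexp (-s * ((u - Real.log n : ℝ) : ℂ))) := by
      intro u
      unfold tV
      rw [if_neg hn]
      have e2 : cexp (-s * u) = cexp (-s * ((u - Real.log n : ℝ) : ℂ)) / (n : ℂ) ^ s := by
        have hnc : (n : ℂ) ≠ 0 := by exact_mod_cast hn
        rw [Complex.cpow_def_of_ne_zero hnc, ← Complex.exp_sub]
        congr 1
        rw [← Complex.natCast_log]
        push_cast
        ring
      rw [e2]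
      ring
    simp_rw [e1]
    refine ⟨(h1.comp_sub_right (Real.log n)).const_mul _, ?_⟩
    rw [integral_const_mul, integral_sub_right_eq_self (fun w : ℝ => (gk lam w : ℂ) * cexp (-s * w)), h2,
      LSeries.term_of_ne_zero hn]
    ring

/-- **the transform of the smoothed sum** -/
theorem fV_lap (hB : 0 ≤ B) (ha : ∀ n : ℕ, n ≠ 0 → ‖a n‖ ≤ B * (n : ℝ) ^ b) (hl : 0 < lam) {s : ℂ} (hs : b + 1 < s.re) :
    Lap (fV a lam) s = MM lam s * LSeries a s := by
  have hsum : Summable fun n : ℕ => ∫ u : ℝ, ‖tV a lam n u * cexp (-s * u)‖ := by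
    set M : ℝ := ∫ w : ℝ, ‖(gk lam w : ℂ) * cexp (-s * w)‖ with hM
    have hM0 : 0 ≤ M := integral_nonneg fun _ => norm_nonneg _
    refine Summable.of_nonneg_of_le (fun n => integral_nonneg fun _ => norm_nonneg _) (fun n => ?_)
      ((pw_sum (b := b) hs).mul_left (B * M))
    rcases eq_or_ne n 0 with rfl | hn
    · simp only [tV, if_true, zero_mul, norm_zero, integral_zero]
      positivity
    · have hn0 : (0:ℝ) < n := by exact_mod_cast Nat.pos_of_ne_zero hn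
      have e1 : ∀ u : ℝ, ‖tV a lam n u * cexp (-s * u)‖ =
          (‖a n‖ * (n : ℝ) ^ (-s.re)) * ‖(gk lam (u - Real.log n) : ℂ) * cexp (-s * ((u - Real.log n : ℝ) : ℂ))‖ := by
        intro u
        unfold tV
        rw [if_neg hn, norm_mul, norm_mul, norm_mul, Complex.norm_exp, Complex.norm_exp]
        have e2 : (-s * (u : ℂ)).re = -s.re * Real.log n + (-s * ((u - Real.log n : ℝ) : ℂ)).re := by
          rw [Complex.re_mul_ofReal, Complex.re_mul_ofReal, Complex.neg_re]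
          ring
        rw [e2, Real.exp_add, Real.rpow_def_of_pos hn0]
        ring_nf
      simp_rw [e1]
      rw [integral_const_mul, integral_sub_right_eq_self (fun w : ℝ => ‖(gk lam w : ℂ) * cexp (-s * w)‖), ← hM]
      calc ‖a n‖ * (n:ℝ) ^ (-s.re) * M ≤ (B * (n:ℝ) ^ b) * (n:ℝ) ^ (-s.re) * M :=
            mul_le_mul_of_nonneg_right (mul_le_mul_of_nonneg_right (ha n hn) (by positivity)) hM0
        _ = _ := by
            rw [sub_eq_add_neg, Real.rpow_add hn0]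
            ring
  have h1 := hasSum_integral_of_summable_integral_norm (fun n => (tV_lap (a := a) hl n s).1) hsum
  unfold Lap
  have e1 : ∀ u : ℝ, fV a lam u * cexp (-s * u) = ∑' n : ℕ, tV a lam n u * cexp (-s * u) := by
    intro u
    rw [tsum_mul_right]
    rfl
  simp_rw [e1]
  rw [← h1.tsum_eq]
  simp_rw [(tV_lap (a := a) hl _ s).2]
  rw [tsum_mul_left]
  rfl

end

end Pool.Agent.H480.K
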