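import Pool.Agent.H480.M4

/-!
From approximate rank to meromorphic continuation.
-/

open Filter Topology Set MeasureTheory Complex

set_option linter.unusedSectionVars false

namespace Pool.Agent.H480.K

noncomputable section

variable {r : ℕ} {a : ℕ → ℂ} {b B lam : ℝ}

theorem seqE {δ : EReal} {c₀ : ℝ} (h : δ < (c₀ : EReal)) : ∃ d : ℕ → ℝ, Antitone d ∧ (∀ n, d n < c₀) ∧
    (∀ n, δ < (d n : EReal)) ∧ ∀ x : ℝ, δ < (x : EReal) → ∃ n, d n < x := by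
  obtain ⟨u, hu1, hu2, hu3⟩ := exists_seq_strictAnti_tendsto' h
  have hb : ∀ n, u n ≠ ⊥ := fun n => (bot_le.trans_lt (hu2 n).1).ne'
  have ht : ∀ n, u n ≠ ⊤ := fun n => ((hu2 n).2.trans_le le_top).ne
  have hc : ∀ n, (((u n).toReal : ℝ) : EReal) = u n := fun n => EReal.coe_toReal (ht n) (hb n)
  refine ⟨fun n => (u n).toReal, fun m n hmn => EReal.toReal_le_toReal (hu1.antitone hmn) (hb n) (ht m), fun n => ?_,
    fun n => ?_, fun x hx => ?_⟩
  · have := (hu2 n).2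
    rw [← hc n] at this
    exact_mod_cast this
  · rw [hc n]
    exact (hu2 n).1
  · obtain ⟨n, hn⟩ := (hu3.eventually (gt_mem_nhds hx)).exists
    refine ⟨n, ?_⟩
    rw [← hc n] at hn
    exact_mod_cast hn

theorem MM_ne (hl : 0 < lam) (s : ℂ) : MM lam s ≠ 0 := by
  unfold MM
  refine mul_ne_zero ?_ (Complex.exp_ne_zero _)
  have : 0 < Real.sqrt (2 * Real.pi * lam) := Real.sqrt_pos.2 (by have := Real.pi_pos; positivity)
  exact_mod_cast this.ne'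

theorem MM_diff (lam : ℝ) : Differentiable ℂ (MM lam) := by
  unfold MM
  fun_prop

theorem MM_norm (lam : ℝ) (s : ℂ) : ‖MM lam s‖ = Real.sqrt (2 * Real.pi * lam) * Real.exp (lam / 2 * (s.re ^ 2 - s.im ^ 2)) := by
  unfold MM
  rw [norm_mul, Complex.norm_real, Real.norm_eq_abs, abs_of_nonneg (Real.sqrt_nonneg _), Complex.norm_exp,
    Complex.re_ofReal_mul]
  congr 3
  rw [sq, Complex.mul_re]
  ring

theorem prod_norm_le (ρ : Fin r → ℂ) (s : ℂ) : ‖∏ j, (s - ρ j)‖ ≤ (‖s‖ + ∑ j, ‖ρ j‖) ^ r := by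
  rw [norm_prod]
  calc ∏ j, ‖s - ρ j‖ ≤ ∏ _j : Fin r, (‖s‖ + ∑ j, ‖ρ j‖) := by
        refine Finset.prod_le_prod (fun _ _ => norm_nonneg _) fun j _ => (norm_sub_le _ _).trans ?_
        have := Finset.single_le_sum (f := fun k => ‖ρ k‖) (fun _ _ => norm_nonneg _) (Finset.mem_univ j)
        linarith
    _ = _ := by simp

theorem poly_le_gauss (r : ℕ) (hl : 0 < lam) : ∃ K : ℝ, 0 ≤ K ∧ ∀ t : ℝ, (1 + |t|) ^ r ≤ K * Real.exp (lam / 2 * t ^ 2) := by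
  refine ⟨r.factorial * Real.exp (1 + 1 / (2 * lam)), by positivity, fun t => ?_⟩
  have h1 := Real.pow_div_factorial_le_exp (1 + |t|) (by positivity) r
  rw [div_le_iff₀ (by positivity)] at h1
  refine h1.trans ?_
  rw [mul_comm (Real.exp _), mul_assoc]
  refine mul_le_mul_of_nonneg_left ?_ (by positivity)
  rw [← Real.exp_add]
  refine Real.exp_le_exp.2 ?_
  have h2 : |t| ≤ 1 / (2 * lam) + lam / 2 * t ^ 2 := by
    rw [← sq_abs t]
    have h3 : 0 ≤ (1 - lam * |t|) ^ 2 / (2 * lam) := by positivity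
    have h4 : (1 - lam * |t|) ^ 2 / (2 * lam) = 1 / (2 * lam) - |t| + lam / 2 * |t| ^ 2 := by
      field_simp
      ring
    linarith
  linarith

/-- growth of order `exp (C t²)` in vertical strips -/
def Gr (δ : EReal) (C : ℝ) (g : ℂ → ℂ) : Prop :=
  ∀ σ₁ σ₂ : ℝ, δ < (σ₁ : EReal) → ∃ K : ℝ, ∀ s : ℂ, σ₁ ≤ s.re → s.re ≤ σ₂ → ‖g s‖ ≤ K * Real.exp (C * s.im ^ 2)

/-- **approximate rank at all scales implies meromorphic continuation** -/
theorem mero_of_rank (hB : 0 ≤ B) (ha : ∀ n : ℕ, n ≠ 0 → ‖a n‖ ≤ B * (n : ℝ) ^ b) (hl : 0 < lam) {A A' : ℝ} (hA : 1 < A)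
    (hA' : 1 < A') {δ : EReal} (hδ : δ < ⊤)
    (H : ∀ β : ℝ, δ < (β : EReal) → ∀ᶠ X : ℝ in atTop, Near (VV a lam) A A' r β X) :
    ∃ (ρ : Fin r → ℂ) (g : ℂ → ℂ) (c₀ : ℝ), (∀ j, δ < ((ρ j).re : EReal)) ∧
      (∀ s : ℂ, δ < (s.re : EReal) → DifferentiableAt ℂ g s) ∧
      (∀ s : ℂ, c₀ < s.re → g s = (∏ j, (s - ρ j)) * LSeries a s) ∧ Gr δ lam g := by
  have hlA := Real.log_pos hA
  have hlA' := Real.log_pos hA'
  obtain ⟨c₀, hc1, hc2⟩ : ∃ c₀ : ℝ, b + 1 < c₀ ∧ δ < (c₀ : EReal) := by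
    obtain ⟨x, hx, -⟩ := EReal.lt_iff_exists_real_btwn.1 hδ
    refine ⟨max x (b + 2), by have := le_max_right x (b + 2); linarith, hx.trans_le ?_⟩
    exact_mod_cast le_max_left x (b + 2)
  obtain ⟨d, hd1, hd2, hd3, hd4⟩ := seqE hc2
  have hfm : Measurable (fV a lam) := (fV_cont hB ha hl).measurable
  have hfb : ∀ κ : ℝ, c₀ ≤ κ → ∃ C : ℝ, 0 ≤ C ∧ ∀ u, ‖fV a lam u‖ ≤ C * Real.exp (κ * u) := fun κ hκ =>
    fV_bd hB ha hl (by linarith)
  set h₁ : ℝ := min (Real.log A) (Real.log A') / (r + 2) with hh₁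
  have hh0 : 0 < h₁ := by
    rw [hh₁]
    exact div_pos (lt_min hlA hlA') (by positivity)
  have hrh : ∀ h : ℝ, h ≤ h₁ → (r + 2) * h ≤ min (Real.log A) (Real.log A') := by
    intro h hh
    have : (r + 2) * h ≤ (r + 2) * h₁ := mul_le_mul_of_nonneg_left hh (by positivity)
    refine this.trans (le_of_eq ?_)
    rw [hh₁]; field_simp
  obtain ⟨C0, hC0, hfC0⟩ := hfb c₀ le_rfl
  have hVe : (fun u => VV a lam (Real.exp u)) = fV a lam := funext fun u => VV_exp a lam u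
  have key : ∀ β β' : ℝ, δ < (β : EReal) → β < β' → ∀ h : ℝ, 0 < h → h ≤ h₁ → ∃ q : Fin (r + 1) → ℂ, ∑ i, ‖q i‖ = 1 ∧
      (∀ s : ℂ, β' < s.re → DifferentiableAt ℂ (Lap (Hq (fV a lam) q h)) s) ∧
      (∀ s : ℂ, c₀ < s.re → Lap (Hq (fV a lam) q h) s = Pq q h s * Lap (fV a lam) s) ∧
      ∀ σ₀ c : ℝ, β' < σ₀ → σ₀ ≤ c → ∃ K : ℝ, 0 ≤ K ∧ ∀ s : ℂ, σ₀ ≤ s.re → s.re ≤ c →
        ‖Lap (Hq (fV a lam) q h) s‖ ≤ K := by
    intro β β' h1 h2 h hh hh'
    have hL := near_log_ev (VV_meas hB ha hl) (C := C0) (c₁ := c₀) (fun u _ => by rw [VV_exp]; exact hfC0 u)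
      hA.le hA'.le (H β h1)
    rw [hVe] at hL
    exact transform2 hfm hfb hh ((hrh h hh').trans (min_le_left _ _)) ((hrh h hh').trans (min_le_right _ _)) h2 hL
  have hΦ : ∀ s : ℂ, c₀ < s.re → Lap (fV a lam) s = MM lam s * LSeries a s := fun s hs => fV_lap hB ha hl (by linarith)
  have hΦd : ∀ s : ℂ, c₀ < s.re → DifferentiableAt ℂ (Lap (fV a lam)) s := by
    intro s hs
    refine lap_diff hfm (β' := c₀) (fun σ hσ => ?_) hs
    obtain ⟨C1, hC1, hf1⟩ := hfb c₀ le_rfl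
    obtain ⟨C2, hC2, hf2⟩ := hfb (σ + 1) (by linarith)
    refine two_exp (C := max C1 C2) (c₁ := c₀) (c₂ := σ + 1) hfm (fun u _ => ?_) (fun u _ => ?_) hσ (by linarith)
    · exact (hf1 u).trans (mul_le_mul_of_nonneg_right (le_max_left _ _) (Real.exp_pos _).le)
    · exact (hf2 u).trans (mul_le_mul_of_nonneg_right (le_max_right _ _) (Real.exp_pos _).le)
  obtain ⟨ρ, g₁, hρ, hg₁, hform⟩ := finite_poles hd1 hd2 hΦd (r := r) (fun n => by
    obtain ⟨β, hβ1, hβ2⟩ := EReal.lt_iff_exists_real_btwn.1 (hd3 n)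
    refine ⟨h₁, hh0, fun h hh hh' => ?_⟩
    obtain ⟨q, hq, e1, e2, -⟩ := key β (d n) hβ1 (by exact_mod_cast hβ2) h hh hh'
    exact ⟨q, hq, _, e1, e2⟩)
  have hg₁d : ∀ s : ℂ, δ < (s.re : EReal) → DifferentiableAt ℂ g₁ s := fun s hs => hg₁ s (hd4 _ hs)
  refine ⟨ρ, fun s => g₁ s / MM lam s, c₀, fun j => ?_, fun s hs => (hg₁d s hs).div (MM_diff lam s) (MM_ne hl s),
    fun s hs => ?_, ?_⟩
  · obtain ⟨n, hn⟩ := hρ j
    exact (hd3 n).trans (by exact_mod_cast hn)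
  · simp only
    rw [hform s hs, hΦ s hs, mul_left_comm, mul_div_cancel_left₀ _ (MM_ne hl s)]
  · intro σ₁ σ₂ hσ₁
    rcases lt_or_ge σ₂ σ₁ with h21 | h12
    · exact ⟨0, fun s h1 h2 => absurd (h1.trans h2) (not_le.2 h21)⟩
    obtain ⟨β, hβ1, hβ2⟩ := EReal.lt_iff_exists_real_btwn.1 hσ₁
    have hβ2' : β < σ₁ := by exact_mod_cast hβ2
    set β' : ℝ := (β + σ₁) / 2 with hβ'
    obtain ⟨q, hq, e1, e2, e3⟩ := key β β' hβ1 (by rw [hβ']; linarith) h₁ hh0 le_rfl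
    set G : ℂ → ℂ := Lap (Hq (fV a lam) q h₁) with hG
    set p : ℂ → ℂ := fun s => ∏ j, (s - ρ j) with hp
    have hpd : Differentiable ℂ p := by simp only [hp]; fun_prop
    have hββ' : β < β' := by rw [hβ']; linarith
    have hg' : ∀ s : ℂ, β' < s.re → DifferentiableAt ℂ g₁ s := fun s hs =>
      hg₁d s (hβ1.trans (by exact_mod_cast hββ'.trans hs))
    have hid : ∀ s : ℂ, β' < s.re → p s * G s = Pq q h₁ s * g₁ s := by
      intro s hs
      refine half_id (δ := β') (c₀ := c₀) (F := fun s => p s * G s) (G := fun s => Pq q h₁ s * g₁ s)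
        (fun s hs => (hpd s).mul (e1 s hs)) (fun s hs => (Pq_diff q h₁ s).mul (hg' s hs)) (fun s hs => ?_) hs
      simp only [hp]
      rw [e2 s hs, hform s hs]
      ring
    obtain ⟨K, hK, hKb⟩ := rect_bound hq hh0 e3 hg' hid (m := r) (R := ∑ j, ‖ρ j‖)
      (Finset.sum_nonneg fun _ _ => norm_nonneg _) (prod_norm_le ρ) (show β' < σ₁ by rw [hβ']; linarith) h12
    obtain ⟨K', hK', hKb'⟩ := poly_le_gauss r hl
    have hsq : 0 < Real.sqrt (2 * Real.pi * lam) := Real.sqrt_pos.2 (by have := Real.pi_pos; positivity)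
    refine ⟨K * K' / Real.sqrt (2 * Real.pi * lam), fun s h1 h2 => ?_⟩
    rw [norm_div, MM_norm, div_le_iff₀ (by positivity)]
    have f1 := hKb s h1 h2
    have f2 := hKb' s.im
    have f3 : 1 ≤ Real.exp (lam / 2 * s.re ^ 2) := Real.one_le_exp (by positivity)
    have f4 : Real.exp (lam / 2 * s.im ^ 2) * Real.exp (lam / 2 * s.re ^ 2) =
        Real.exp (lam * s.im ^ 2) * Real.exp (lam / 2 * (s.re ^ 2 - s.im ^ 2)) := by
      rw [← Real.exp_add, ← Real.exp_add]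
      congr 1
      ring
    calc ‖g₁ s‖ ≤ K * (1 + |s.im|) ^ r := f1
      _ ≤ K * (K' * Real.exp (lam / 2 * s.im ^ 2)) := mul_le_mul_of_nonneg_left f2 hK
      _ ≤ K * (K' * Real.exp (lam / 2 * s.im ^ 2)) * Real.exp (lam / 2 * s.re ^ 2) :=
          le_mul_of_one_le_right (by positivity) f3
      _ = K * K' * (Real.exp (lam / 2 * s.im ^ 2) * Real.exp (lam / 2 * s.re ^ 2)) := by ring
      _ = _ := by
          rw [f4]
          field_simp

end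

end Pool.Agent.H480.K
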