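import Pool.Agent.H480.M5
import Pool.Agent.H480.G12

/-!
The mean bound for functions on the whole line.
-/

open Complex MeasureTheory Filter Topology Set
open scoped FourierTransform

set_option linter.unusedSectionVars false

namespace Pool.Agent.H480.G

open H313.GK
open H313.TK (Ist int_exp_abs)

noncomputable section

variable {σ c c₁ C1 D : ℝ} {H : ℝ → ℂ} {G : ℂ → ℂ}

theorem Hs_eq2 (hHm : Measurable H) (hHI : Integrable (fun u : ℝ => ‖H u‖ * Real.exp (-(c * u)))) (hG : ∀ τ : ℝ, ∫ u : ℝ, H u * cexp (-vl c τ * u) = G (vl c τ)) {h : ℝ} (hh : 0 < h) (hh1 : h ≤ 1)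
    (t : ℝ) : Hs H h t = H313.GK.Inv (fun s => KG h s * G s) c t := by
  have hpi := Real.pi_pos
  have h1 := conv (KG_lb hh hh1 c) hHm hHI t
  rw [show H313.GK.Inv (fun s => KG h s * G s) c t = H313.GK.Inv (fun s => KG h s * ∫ u : ℝ, H u * cexp (-s * u)) c t from
    Inv_congr (fun τ => by rw [hG]) t, ← h1]
  have h2 := integral_sub_left_eq_self (fun u : ℝ => H u * H313.GK.Inv (KG h) c (t - u)) volume t
  rw [← h2]
  have h3 := Measure.integral_comp_mul_left (fun v : ℝ => H (t - v) * H313.GK.Inv (KG h) c (t - (t - v))) h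
  rw [abs_inv, abs_of_pos hh, Complex.real_smul] at h3
  have h4 : ∫ v : ℝ, H (t - v) * H313.GK.Inv (KG h) c (t - (t - v)) =
      (h : ℂ) * ∫ w : ℝ, H (t - h * w) * H313.GK.Inv (KG h) c (t - (t - h * w)) := by
    rw [h3, ← mul_assoc, ← Complex.ofReal_mul, mul_inv_cancel₀ hh.ne', Complex.ofReal_one, one_mul]
  rw [h4, ← integral_const_mul]
  unfold Hs
  refine integral_congr_ae (ae_of_all _ fun w => ?_)
  simp only
  rw [KG_inv hh, mul_left_comm, ← Complex.ofReal_mul]
  congr 2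
  unfold gau
  have h5 : 0 < Real.sqrt (2 * Real.pi) := Real.sqrt_pos.2 (by positivity)
  have h6 : (t - (t - h * w)) ^ 2 / (2 * h ^ 2) = w ^ 2 / 2 := by
    field_simp
    ring
  rw [h6, mul_inv]
  field_simp

/-- **mean bound from the transform to the left** -/
theorem l2_bound2 (hσ : 0 < σ) (hσc : σ ≤ c) (hHm : Measurable H)
    (hHI : Integrable (fun u : ℝ => ‖H u‖ * Real.exp (-(c * u))))
    (hC1 : 0 ≤ C1) (hHb : ∀ u, ‖H u‖ ≤ C1 * Real.exp (c₁ * u)) (hHc : ∀ᵐ t : ℝ, ContinuousAt H t) (hD : 0 ≤ D)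
    (hGd : ∀ s : ℂ, σ ≤ s.re → s.re ≤ c → DifferentiableAt ℂ G s)
    (hGb : ∀ s : ℂ, σ ≤ s.re → s.re ≤ c → ‖G s‖ ≤ D * (1 + |s.im|) ^ (-(3 / 4) : ℝ))
    (hG : ∀ τ : ℝ, ∫ u : ℝ, H u * cexp (-vl c τ * u) = G (vl c τ)) :
    ∃ C : ℝ, 0 ≤ C ∧ ∀ l L : ℝ, 0 ≤ L → ∫ u in Icc l (l + L), ‖H u‖ ≤ Real.exp (σ * (l + L)) * (C + L) := by
  have hpi := Real.pi_pos
  have hc0 : 0 < c := by linarith
  -- the constant
  have hGi : Integrable (fun τ : ℝ => D ^ 2 * (1 + ‖τ‖) ^ (-(3 / 2) : ℝ)) :=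
    (integrable_one_add_norm (E := ℝ) (μ := volume) (r := 3 / 2) (by simp; norm_num)).const_mul _
  set I0 : ℝ := ∫ τ : ℝ, D ^ 2 * (1 + ‖τ‖) ^ (-(3 / 2) : ℝ) with hI0
  have hI0n : 0 ≤ I0 := integral_nonneg fun τ => by positivity
  set C : ℝ := (1 / (2 * Real.pi)) * (Real.exp (c ^ 2) ^ 2 * I0) with hC
  have hCn : 0 ≤ C := by positivity
  have hone : ∀ s : ℂ, (1 + |s.im|) ^ (-(3 / 4) : ℝ) ≤ 1 := fun s =>
    Real.rpow_le_one_of_one_le_of_nonpos (by linarith [abs_nonneg s.im]) (by norm_num)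
  have hGD : ∀ s : ℂ, σ ≤ s.re → s.re ≤ c → ‖G s‖ ≤ D := fun s h1 h2 =>
    (hGb s h1 h2).trans (mul_le_of_le_one_right hD (hone s))
  -- smoothed functions
  have hsm : ∀ h : ℝ, 0 < h → h ≤ 1 → Continuous (Hs H h) ∧
      ∀ l L : ℝ, 0 ≤ L → ∫ u in Icc l (l + L), ‖Hs H h u‖ ≤ Real.exp (σ * (l + L)) * (C + L) := by
    intro h hh hh1
    set Ψ : ℂ → ℂ := fun s => KG h s * G s with hΨ
    set B : ℝ := Real.exp (c ^ 2) * (2 / h ^ 2) * D with hB
    have hΨd : ∀ s : ℂ, σ ≤ s.re → s.re ≤ c → DifferentiableAt ℂ Ψ s := fun s h1 h2 =>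
      (KG_diff h s).mul (hGd s h1 h2)
    have hre : ∀ s : ℂ, σ ≤ s.re → s.re ≤ c → |s.re| ≤ c := fun s h1 h2 => by
      rw [abs_of_nonneg (by linarith)]; exact h2
    have hΨb : ∀ s : ℂ, σ ≤ s.re → s.re ≤ c → ‖Ψ s‖ ≤ B * (1 + s.im ^ 2)⁻¹ := by
      intro s h1 h2
      simp only [hΨ]
      rw [norm_mul]
      calc ‖KG h s‖ * ‖G s‖ ≤ (Real.exp (c ^ 2) * (2 / h ^ 2) * (1 + s.im ^ 2)⁻¹) * D :=
            mul_le_mul (KG_le hh hh1 s (hre s h1 h2)) (hGD s h1 h2) (norm_nonneg _) (by positivity)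
        _ = _ := by rw [hB]; ring
    have hSB : SB Ψ σ c := ⟨hΨd, B, by positivity, hΨb⟩
    obtain ⟨B1, hlb⟩ := hSB.lb
    have hLσ := hlb σ le_rfl hσc
    have hLc := hlb c hσc le_rfl
    have heq : ∀ t, Hs H h t = H313.GK.Inv Ψ σ t := fun t => by
      rw [Hs_eq2 hHm hHI hG hh hh1 t, inv_shift hσc hΨd hΨb t]
    have hfun : Hs H h = H313.GK.Inv Ψ σ := funext heq
    have hcont : Continuous (Hs H h) := by rw [hfun]; exact hLσ.inv_cont
    refine ⟨hcont, fun l L hL => ?_⟩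
    obtain ⟨p1, p2⟩ := plan hLσ
    have hsq : ∫ τ : ℝ, ‖Ψ (vl σ τ)‖ ^ 2 ≤ Real.exp (c ^ 2) ^ 2 * I0 := by
      rw [hI0, ← integral_const_mul]
      refine integral_mono_of_nonneg (ae_of_all _ fun τ => by positivity) (hGi.const_mul _) (ae_of_all _ fun τ => ?_)
      simp only [hΨ]
      rw [norm_mul, mul_pow]
      have h1 := KG_le_one hh hh1 (c := c) (vl σ τ) (hre _ (by simp) (by simpa using hσc))
      have h2 := hGb (vl σ τ) (by simp) (by simpa using hσc)
      rw [vl_im] at h2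
      have h3 : ‖G (vl σ τ)‖ ^ 2 ≤ D ^ 2 * (1 + ‖τ‖) ^ (-(3 / 2) : ℝ) := by
        calc ‖G (vl σ τ)‖ ^ 2 ≤ (D * (1 + |τ|) ^ (-(3 / 4) : ℝ)) ^ 2 := pow_le_pow_left₀ (norm_nonneg _) h2 2
          _ = _ := by
              rw [mul_pow, ← Real.rpow_natCast ((1 + |τ|) ^ (-(3 / 4) : ℝ)), ← Real.rpow_mul (by positivity),
                Real.norm_eq_abs]
              norm_num
      exact mul_le_mul (pow_le_pow_left₀ (norm_nonneg _) h1 2) h3 (by positivity) (by positivity)
    have htot : ∫ v : ℝ, ‖H313.GK.Inv Ψ σ v‖ ^ 2 * Real.exp (-(2 * σ * v)) ≤ C := by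
      rw [p2, hC]
      exact mul_le_mul_of_nonneg_left hsq (by positivity)
    set M : ℝ := Real.exp (σ * (l + L)) with hM
    have hM0 : 0 < M := Real.exp_pos _
    have hpt : ∀ u ∈ Icc l (l + L), ‖Hs H h u‖ ≤ M * (‖H313.GK.Inv Ψ σ u‖ ^ 2 * Real.exp (-(2 * σ * u))) + M := by
      intro u hu
      rw [heq u]
      set x : ℝ := ‖H313.GK.Inv Ψ σ u‖ with hx
      have hx0 : 0 ≤ x := norm_nonneg _
      have h1 : 1 ≤ M ^ 2 * Real.exp (-(2 * σ * u)) := by
        rw [hM, ← Real.exp_nat_mul, ← Real.exp_add]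
        refine Real.one_le_exp ?_
        push_cast
        nlinarith [hu.2]
      have h2 : x ≤ x ^ 2 / M + M := by
        rw [div_add' _ _ _ hM0.ne', le_div_iff₀ hM0]
        nlinarith [sq_nonneg (x - M), mul_nonneg hx0 hM0.le]
      have h3 : x ^ 2 / M ≤ M * (x ^ 2 * Real.exp (-(2 * σ * u))) := by
        rw [div_le_iff₀ hM0]
        have h4 : x ^ 2 * 1 ≤ x ^ 2 * (M ^ 2 * Real.exp (-(2 * σ * u))) := mul_le_mul_of_nonneg_left h1 (by positivity)
        nlinarith
      linarith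
    have hi1 : IntegrableOn (fun u => M * (‖H313.GK.Inv Ψ σ u‖ ^ 2 * Real.exp (-(2 * σ * u))) + M) (Icc l (l + L)) :=
      (p1.const_mul M).integrableOn.add (integrableOn_const (by simp))
    calc ∫ u in Icc l (l + L), ‖Hs H h u‖ ≤ ∫ u in Icc l (l + L), (M * (‖H313.GK.Inv Ψ σ u‖ ^ 2 *
          Real.exp (-(2 * σ * u))) + M) :=
          setIntegral_mono_on hcont.norm.integrableOn_Icc hi1 measurableSet_Icc hpt
      _ = M * (∫ u in Icc l (l + L), ‖H313.GK.Inv Ψ σ u‖ ^ 2 * Real.exp (-(2 * σ * u))) + L * M := by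
          rw [integral_add (p1.const_mul M).integrableOn (integrableOn_const (by simp)), integral_const_mul,
            setIntegral_const]
          simp only [measureReal_def, Real.volume_Icc, smul_eq_mul]
          rw [ENNReal.toReal_ofReal (by linarith)]
          congr 2
          ring
      _ ≤ M * C + L * M := by
          refine add_le_add (mul_le_mul_of_nonneg_left ?_ hM0.le) le_rfl
          refine le_trans (setIntegral_le_integral p1 (ae_of_all _ fun v => ?_)) htot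
          show (0:ℝ) ≤ _
          positivity
      _ = _ := by ring
  refine ⟨C, hCn, fun l L hL => ?_⟩
  -- the limit
  set hn : ℕ → ℝ := fun n => 1 / ((n : ℝ) + 1) with hhn
  have hn0 : ∀ n, 0 < hn n := fun n => by simp only [hhn]; positivity
  have hn1 : ∀ n, hn n ≤ 1 := fun n => by
    simp only [hhn]
    rw [div_le_one (by positivity)]
    linarith [(Nat.cast_nonneg n : (0:ℝ) ≤ n)]
  have hnt : Tendsto hn atTop (𝓝 0) := tendsto_one_div_add_atTop_nhds_zero_nat
  have hdomint := gau_dom |c₁|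
  have hbH : ∀ (h t w : ℝ), 0 < h → h ≤ 1 → ‖H (t - h * w) * ((gau w : ℝ) : ℂ)‖ ≤
      C1 * Real.exp (|c₁| * |t|) * (Real.exp (|c₁| * |w|) * gau w) := by
    intro h t w hh hh1
    have hg0 : 0 ≤ gau w := by unfold gau; positivity
    rw [norm_mul, Complex.norm_real, Real.norm_eq_abs, abs_of_nonneg hg0]
    have h1 : ‖H (t - h * w)‖ ≤ C1 * Real.exp (|c₁| * |t|) * Real.exp (|c₁| * |w|) := by
      refine (hHb _).trans ?_
      rw [mul_assoc, ← Real.exp_add]
      refine mul_le_mul_of_nonneg_left (Real.exp_le_exp.2 ?_) hC1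
      calc c₁ * (t - h * w) ≤ |c₁| * |t - h * w| := by rw [← abs_mul]; exact le_abs_self _
        _ ≤ |c₁| * (|t| + |w|) := by
            refine mul_le_mul_of_nonneg_left ?_ (abs_nonneg _)
            refine (abs_sub _ _).trans (add_le_add le_rfl ?_)
            rw [abs_mul, abs_of_pos hh]
            exact mul_le_of_le_one_left (abs_nonneg _) hh1
        _ = _ := by ring
    calc _ ≤ (C1 * Real.exp (|c₁| * |t|) * Real.exp (|c₁| * |w|)) * gau w := mul_le_mul_of_nonneg_right h1 hg0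
      _ = _ := by ring
  have hmeas : ∀ (h t : ℝ), AEStronglyMeasurable (fun w : ℝ => H (t - h * w) * ((gau w : ℝ) : ℂ)) volume := by
    intro h t
    have h1 : Measurable fun w : ℝ => H (t - h * w) := hHm.comp (by fun_prop)
    have h2 : Measurable fun w : ℝ => ((gau w : ℝ) : ℂ) := by
      unfold gau
      fun_prop
    exact (h1.mul h2).aestronglyMeasurable
  have hlim : ∀ t, ContinuousAt H t → Tendsto (fun n => Hs H (hn n) t) atTop (𝓝 (H t)) := by
    intro t ht
    have e1 : H t = ∫ w : ℝ, H t * ((gau w : ℝ) : ℂ) := by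
      rw [integral_const_mul, integral_complex_ofReal, gau_int]
      simp
    rw [e1]
    unfold Hs
    refine tendsto_integral_of_dominated_convergence
      (fun w => C1 * Real.exp (|c₁| * |t|) * (Real.exp (|c₁| * |w|) * gau w)) (fun n => hmeas _ _)
      (hdomint.const_mul _) (fun n => ae_of_all _ fun w => hbH _ _ _ (hn0 n) (hn1 n)) (ae_of_all _ fun w => ?_)
    refine Tendsto.mul_const _ ?_
    have h2 : Tendsto (fun n => t - hn n * w) atTop (𝓝 t) := by
      have := (hnt.mul_const w).const_sub t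
      simpa using this
    exact ht.tendsto.comp h2
  have hI1 : 0 ≤ ∫ w : ℝ, Real.exp (|c₁| * |w|) * gau w := integral_nonneg fun w => by unfold gau; positivity
  have hbd : ∀ n, ∀ t ∈ Icc l (l + L), ‖‖Hs H (hn n) t‖‖ ≤
      C1 * Real.exp (|c₁| * (|l| + |l + L|)) * ∫ w : ℝ, Real.exp (|c₁| * |w|) * gau w := by
    intro n t ht
    rw [norm_norm]
    unfold Hs
    refine (norm_integral_le_of_norm_le (hdomint.const_mul _) (ae_of_all _ fun w => hbH _ t w (hn0 n) (hn1 n))).trans ?_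
    rw [integral_const_mul]
    refine mul_le_mul_of_nonneg_right (mul_le_mul_of_nonneg_left (Real.exp_le_exp.2 ?_) hC1) hI1
    refine mul_le_mul_of_nonneg_left ?_ (abs_nonneg _)
    rw [abs_le]
    have := neg_abs_le l
    have := le_abs_self (l + L)
    constructor
    · linarith [abs_nonneg (l + L), ht.1]
    · linarith [abs_nonneg l, ht.2]
  have hconv : Tendsto (fun n => ∫ u in Icc l (l + L), ‖Hs H (hn n) u‖) atTop (𝓝 (∫ u in Icc l (l + L), ‖H u‖)) := by
    refine tendsto_integral_of_dominated_convergence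
      (fun _ => C1 * Real.exp (|c₁| * (|l| + |l + L|)) * ∫ w : ℝ, Real.exp (|c₁| * |w|) * gau w)
      (fun n => ((hsm _ (hn0 n) (hn1 n)).1.norm).aestronglyMeasurable) (integrableOn_const (by simp)) (fun n => ?_) ?_
    · exact (ae_restrict_iff' measurableSet_Icc).2 (ae_of_all _ (hbd n))
    · exact (ae_restrict_of_ae hHc).mono fun t ht => (hlim t ht).norm
  exact le_of_tendsto' hconv fun n => (hsm _ (hn0 n) (hn1 n)).2 l L hL


/-- the same on any line -/
theorem l2_shift (hσc : σ ≤ c) (hHm : Measurable H) (hHI : Integrable (fun u : ℝ => ‖H u‖ * Real.exp (-(c * u))))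
    (hC1 : 0 ≤ C1) (hHb : ∀ u, ‖H u‖ ≤ C1 * Real.exp (c₁ * u)) (hHc : ∀ᵐ t : ℝ, ContinuousAt H t) (hD : 0 ≤ D)
    (hGd : ∀ s : ℂ, σ ≤ s.re → s.re ≤ c → DifferentiableAt ℂ G s)
    (hGb : ∀ s : ℂ, σ ≤ s.re → s.re ≤ c → ‖G s‖ ≤ D * (1 + |s.im|) ^ (-(3 / 4) : ℝ))
    (hG : ∀ τ : ℝ, ∫ u : ℝ, H u * cexp (-vl c τ * u) = G (vl c τ)) (L₀ : ℝ) :
    ∃ C : ℝ, 0 ≤ C ∧ ∀ l : ℝ, ∫ u in Icc l (l + L₀), ‖H u‖ ≤ Real.exp (σ * l) * C := by
  rcases lt_or_ge L₀ 0 with hL | hL
  · refine ⟨0, le_rfl, fun l => ?_⟩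
    rw [Icc_eq_empty (by linarith)]
    simp
  set b : ℝ := |σ| + 1 with hb
  have hσb : 0 < σ + b := by
    rw [hb]; linarith [neg_abs_le σ]
  have hb0 : 0 < b := by rw [hb]; positivity
  obtain ⟨C, hC, hCb⟩ := l2_bound2 (σ := σ + b) (c := c + b) (c₁ := c₁ + b) (C1 := C1) (D := D)
    (H := fun u => H u * ((Real.exp (b * u) : ℝ) : ℂ)) (G := fun s => G (s - b)) hσb (by linarith)
    (hHm.mul (by fun_prop)) (by
      refine hHI.congr (ae_of_all _ fun u => ?_)
      simp only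
      rw [norm_mul, Complex.norm_real, Real.norm_eq_abs, abs_of_pos (Real.exp_pos _), mul_assoc, ← Real.exp_add]
      congr 2
      ring) hC1 (fun u => by
      rw [norm_mul, Complex.norm_real, Real.norm_eq_abs, abs_of_pos (Real.exp_pos _)]
      calc ‖H u‖ * Real.exp (b * u) ≤ (C1 * Real.exp (c₁ * u)) * Real.exp (b * u) :=
            mul_le_mul_of_nonneg_right (hHb u) (Real.exp_pos _).le
        _ = _ := by rw [mul_assoc, ← Real.exp_add]; congr 2; ring) (by
      filter_upwards [hHc] with t ht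
      exact ht.mul (by fun_prop)) hD (fun s h1 h2 => by
      refine DifferentiableAt.comp s (g := G) (f := fun s : ℂ => s - b) (hGd _ ?_ ?_) (by fun_prop)
      · rw [Complex.sub_re, Complex.ofReal_re]; linarith
      · rw [Complex.sub_re, Complex.ofReal_re]; linarith) (fun s h1 h2 => by
      have := hGb (s - b) (by rw [Complex.sub_re, Complex.ofReal_re]; linarith)
        (by rw [Complex.sub_re, Complex.ofReal_re]; linarith)
      rwa [Complex.sub_im, Complex.ofReal_im, sub_zero] at this) (fun τ => by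
      have e1 : vl (c + b) τ - b = vl c τ := by
        unfold vl
        push_cast
        ring
      rw [e1, ← hG τ]
      refine integral_congr_ae (ae_of_all _ fun u => ?_)
      simp only
      rw [← e1, Complex.ofReal_exp, mul_assoc, ← Complex.exp_add]
      congr 2
      push_cast
      ring)
  refine ⟨Real.exp ((σ + b) * L₀) * (C + L₀), by positivity, fun l => ?_⟩
  have h1 := hCb l L₀ hL
  have hint : IntegrableOn (fun u => ‖H u‖ * Real.exp (b * u)) (Icc l (l + L₀)) := by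
    have hcont : ContinuousOn (fun u => C1 * Real.exp (c₁ * u) * Real.exp (b * u)) (Icc l (l + L₀)) := by fun_prop
    refine (hcont.integrableOn_Icc).mono' (hHm.norm.mul (by fun_prop)).aestronglyMeasurable (ae_of_all _ fun u => ?_)
    rw [Real.norm_eq_abs, abs_of_nonneg (by positivity)]
    exact mul_le_mul_of_nonneg_right (hHb u) (Real.exp_pos _).le
  have h2 : ∫ u in Icc l (l + L₀), ‖H u‖ ≤ Real.exp (-(b * l)) * ∫ u in Icc l (l + L₀), ‖H u * ((Real.exp (b * u) : ℝ) : ℂ)‖ := by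
    rw [← integral_const_mul]
    have e2 : ∀ u : ℝ, ‖H u * ((Real.exp (b * u) : ℝ) : ℂ)‖ = ‖H u‖ * Real.exp (b * u) := by
      intro u
      rw [norm_mul, Complex.norm_real, Real.norm_eq_abs, abs_of_pos (Real.exp_pos _)]
    simp_rw [e2]
    have hint0 : IntegrableOn (fun u => ‖H u‖) (Icc l (l + L₀)) := by
      have hcont : ContinuousOn (fun u => C1 * Real.exp (c₁ * u)) (Icc l (l + L₀)) := by fun_prop
      refine (hcont.integrableOn_Icc).mono' hHm.norm.aestronglyMeasurable (ae_of_all _ fun u => ?_)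
      rw [norm_norm]
      exact hHb u
    refine setIntegral_mono_on hint0 (hint.const_mul _) measurableSet_Icc fun u hu => ?_
    rw [mul_left_comm, ← Real.exp_add]
    refine le_mul_of_one_le_right (norm_nonneg _) (Real.one_le_exp ?_)
    nlinarith [hu.1]
  refine h2.trans ?_
  calc Real.exp (-(b * l)) * ∫ u in Icc l (l + L₀), ‖H u * ((Real.exp (b * u) : ℝ) : ℂ)‖
      ≤ Real.exp (-(b * l)) * (Real.exp ((σ + b) * (l + L₀)) * (C + L₀)) :=
        mul_le_mul_of_nonneg_left h1 (Real.exp_pos _).le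
    _ = _ := by
        rw [← mul_assoc, ← mul_assoc, ← Real.exp_add, ← Real.exp_add]
        congr 2
        ring

end

end Pool.Agent.H480.G
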