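import Pool.Agent.H480.M6
import Pool.Agent.H480.K7

/-!
From analytic continuation with bounds to separable approximations, for functions on the whole line.
-/

open Complex MeasureTheory Filter Topology Set

set_option linter.unusedSectionVars false

namespace Pool.Agent.H480.K

open Pool.Agent.H480.G
open H313.GK

noncomputable section

/-- the remainder -/
def H2 (f : ℝ → ℂ) {n : ℕ} (ρ a : Fin n → ℂ) (u : ℝ) : ℂ := f u - (if 0 ≤ u then Ex ρ a u else 0)

variable {f : ℝ → ℂ} {n : ℕ}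

theorem H2_meas (hfc : Continuous f) (ρ a : Fin n → ℂ) : Measurable (H2 f ρ a) :=
  hfc.measurable.sub (Measurable.ite (measurableSet_Ici (a := (0:ℝ))) (Ex_cont ρ a).measurable measurable_const)

theorem H2_ae (hfc : Continuous f) (ρ a : Fin n → ℂ) : ∀ᵐ u : ℝ, ContinuousAt (H2 f ρ a) u := by
  have h0 : volume ({0} : Set ℝ) = 0 := by simp
  rw [ae_iff]
  refine measure_mono_null (fun u hu => ?_) h0
  by_contra hu0
  have hu0 : u ≠ 0 := hu0
  apply hu
  unfold H2
  refine hfc.continuousAt.sub ?_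
  rcases lt_or_gt_of_ne hu0 with h | h
  · refine ContinuousAt.congr (f := fun _ => (0:ℂ)) continuousAt_const ?_
    filter_upwards [gt_mem_nhds h] with v hv
    rw [if_neg (not_le.2 hv)]
  · refine ContinuousAt.congr (f := Ex ρ a) (Ex_cont ρ a).continuousAt ?_
    filter_upwards [lt_mem_nhds h] with v hv
    rw [if_pos (le_of_lt hv)]

theorem H2_bd {c₁ : ℝ} (hf : ∀ κ : ℝ, c₁ ≤ κ → ∃ C : ℝ, 0 ≤ C ∧ ∀ u, ‖f u‖ ≤ C * Real.exp (κ * u)) (ρ a : Fin n → ℂ) :
    ∃ C1 : ℝ, 0 ≤ C1 ∧ ∀ u : ℝ, ‖H2 f ρ a u‖ ≤ C1 * Real.exp (max c₁ ‖Tm ρ‖ * u) := by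
  obtain ⟨C, hC, hE⟩ := Ex_growth ρ a
  obtain ⟨C', hC', hf'⟩ := hf (max c₁ ‖Tm ρ‖) (le_max_left _ _)
  refine ⟨C' + C, by positivity, fun u => ?_⟩
  unfold H2
  refine (norm_sub_le _ _).trans ?_
  rw [add_mul]
  refine add_le_add (hf' u) ?_
  split_ifs with hu
  · refine (hE u hu).trans (mul_le_mul_of_nonneg_left (Real.exp_le_exp.2 ?_) hC)
    exact mul_le_mul_of_nonneg_right (le_max_right _ _) hu
  · rw [norm_zero]
    positivity

theorem H2_int (hfc : Continuous f) {c₁ : ℝ} (hf : ∀ κ : ℝ, c₁ ≤ κ → ∃ C : ℝ, 0 ≤ C ∧ ∀ u, ‖f u‖ ≤ C * Real.exp (κ * u))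
    (ρ a : Fin n → ℂ) {c : ℝ} (hc : max c₁ ‖Tm ρ‖ < c) :
    Integrable fun u : ℝ => ‖H2 f ρ a u‖ * Real.exp (-(c * u)) := by
  obtain ⟨C1, hC1, h1⟩ := H2_bd hf ρ a
  obtain ⟨C2, hC2, h2⟩ := hf (c + 1) (by have := le_max_left c₁ ‖Tm ρ‖; linarith)
  refine two_exp (C := max C1 C2) (c₁ := max c₁ ‖Tm ρ‖) (c₂ := c + 1) (H2_meas hfc ρ a) (fun u _ => ?_) (fun u hu => ?_) hc
    (by linarith)
  · exact (h1 u).trans (mul_le_mul_of_nonneg_right (le_max_left _ _) (Real.exp_pos _).le)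
  · rcases eq_or_lt_of_le hu with rfl | hu
    · have := h1 0
      rw [mul_zero] at this ⊢
      exact this.trans (mul_le_mul_of_nonneg_right (le_max_left _ _) (Real.exp_pos _).le)
    · unfold H2
      rw [if_neg (not_le.2 hu), sub_zero]
      exact (h2 u).trans (mul_le_mul_of_nonneg_right (le_max_right _ _) (Real.exp_pos _).le)

theorem H2_trans (hfc : Continuous f) {c₁ : ℝ} (hf : ∀ κ : ℝ, c₁ ≤ κ → ∃ C : ℝ, 0 ≤ C ∧ ∀ u, ‖f u‖ ≤ C * Real.exp (κ * u))
    (ρ a : Fin n → ℂ) {G : ℂ → ℂ} {s : ℂ} (hs : c₁ < s.re) (hs2 : ‖Tm ρ‖ < s.re) (hne : ∀ k, s - ρ k ≠ 0)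
    (hform : Lap f s = ∑ k, a k * (1 / ∏ i ∈ Finset.Ici k, (s - ρ i)) + G s) :
    ∫ u : ℝ, H2 f ρ a u * cexp (-s * u) = G s := by
  obtain ⟨e1, e2⟩ := Ex_lap ρ a s hne hs2
  have i1 : Integrable fun u : ℝ => f u * cexp (-s * u) := by
    refine lap_int hfc.measurable ?_
    obtain ⟨C1, hC1, hf1⟩ := hf c₁ le_rfl
    obtain ⟨C2, hC2, hf2⟩ := hf (s.re + 1) (by linarith)
    refine two_exp (C := max C1 C2) (c₁ := c₁) (c₂ := s.re + 1) hfc.measurable (fun u _ => ?_) (fun u _ => ?_) hs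
      (by linarith)
    · exact (hf1 u).trans (mul_le_mul_of_nonneg_right (le_max_left _ _) (Real.exp_pos _).le)
    · exact (hf2 u).trans (mul_le_mul_of_nonneg_right (le_max_right _ _) (Real.exp_pos _).le)
  have e3 : (fun u : ℝ => (if 0 ≤ u then Ex ρ a u else 0) * cexp (-s * u)) =
      (Ici (0:ℝ)).indicator fun u : ℝ => Ex ρ a u * cexp (-s * u) := by
    funext u
    by_cases hu : 0 ≤ u
    · rw [if_pos hu, Set.indicator_of_mem (show u ∈ Ici (0:ℝ) from hu)]
    · rw [if_neg hu, Set.indicator_of_notMem (show u ∉ Ici (0:ℝ) from hu), zero_mul]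
  have i2 : Integrable fun u : ℝ => (if 0 ≤ u then Ex ρ a u else 0) * cexp (-s * u) := by
    rw [e3, integrable_indicator_iff measurableSet_Ici]
    exact (integrableOn_Ici_iff_integrableOn_Ioi (by simp)).2 e1
  have h3 : ∫ u : ℝ, (if 0 ≤ u then Ex ρ a u else 0) * cexp (-s * u) =
      ∑ k, a k * (1 / ∏ i ∈ Finset.Ici k, (s - ρ i)) := by
    rw [e3, integral_indicator measurableSet_Ici, integral_Ici_eq_integral_Ioi, e2]
  have h4 : ∀ u : ℝ, H2 f ρ a u * cexp (-s * u) = f u * cexp (-s * u) -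
      (if 0 ≤ u then Ex ρ a u else 0) * cexp (-s * u) := by
    intro u
    unfold H2
    ring
  simp_rw [h4]
  rw [integral_sub i1 i2, h3]
  have h5 : ∫ u : ℝ, f u * cexp (-s * u) = Lap f s := rfl
  rw [h5, hform]
  ring

/-- **analytic continuation with bounds implies approximate rank** -/
theorem near_up2 {S : ℝ → ℂ} (hSf : ∀ u, S (Real.exp u) = f u) (hfc : Continuous f) {c₁ : ℝ}
    (hf : ∀ κ : ℝ, c₁ ≤ κ → ∃ C : ℝ, 0 ≤ C ∧ ∀ u, ‖f u‖ ≤ C * Real.exp (κ * u))
    {δ : ℝ} (ρ : Fin n → ℂ) (hρ : ∀ k, δ < (ρ k).re) {g : ℂ → ℂ}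
    (hg : DifferentiableOn ℂ g {s | δ < s.re}) {c₀ : ℝ}
    (hform : ∀ s : ℂ, c₀ ≤ s.re → Lap f s = g s / ∏ k, (s - ρ k))
    (hbd : ∀ σ c : ℝ, δ < σ → σ ≤ c → ∃ C T : ℝ, 0 ≤ C ∧ ∀ s : ℂ, σ ≤ s.re → s.re ≤ c → T ≤ |s.im| →
      ‖g s / ∏ k, (s - ρ k)‖ ≤ C * (1 + |s.im|) ^ (-(3 / 4) : ℝ))
    {A A' : ℝ} (hA : 1 < A) (hA' : 1 < A') {η : ℝ} (hη : 0 < η) :
    ∀ᶠ X : ℝ in atTop, Near S A A' n (δ + η) X := by
  have hA0 : 0 < A := by linarith
  have hA0' : 0 < A' := by linarith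
  have hlA : 0 ≤ Real.log A' := Real.log_nonneg hA'.le
  have hlA2 : 0 ≤ Real.log A := Real.log_nonneg hA.le
  obtain ⟨a, G, hG, hnew⟩ := newton (isOpen_lt continuous_const Complex.continuous_re) n ρ hρ g hg
  set σ : ℝ := δ + η / 2 with hσ
  have hδσ : δ < σ := by rw [hσ]; linarith
  set M : ℝ := max c₁ ‖Tm ρ‖ with hM
  have hM1 : c₁ ≤ M := le_max_left _ _
  have hM2 : ‖Tm ρ‖ ≤ M := le_max_right _ _
  have hM0 : 0 ≤ M := (norm_nonneg _).trans hM2
  have hsum0 : 0 ≤ ∑ k, ‖ρ k‖ := Finset.sum_nonneg fun _ _ => norm_nonneg _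
  set c : ℝ := M + 4 + (∑ k, ‖ρ k‖) + |σ| + |c₀| with hc
  have habs := abs_nonneg c₀
  have habs2 := abs_nonneg σ
  have hσc : σ ≤ c := by have := le_abs_self σ; linarith
  have hcc₀ : c₀ ≤ c := by have := le_abs_self c₀; linarith
  have hδc : δ < c := hδσ.trans_le hσc
  have hρc : ∀ k, (ρ k).re < c := by
    intro k
    have h1 := Complex.re_le_norm (ρ k)
    have h2 := Finset.single_le_sum (f := fun k => ‖ρ k‖) (fun _ _ => norm_nonneg _) (Finset.mem_univ k)
    linarith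
  obtain ⟨C2, T, hC2, hC2b⟩ := hbd σ c hδσ hσc
  obtain ⟨D, hD, hGb⟩ := rem_bound (F := fun s => g s / ∏ k, (s - ρ k)) hδσ hG (fun s hs hne => hnew s hs hne) hC2 hC2b
  obtain ⟨C1, hC1, hHb⟩ := H2_bd hf ρ a
  have hGd : ∀ s : ℂ, σ ≤ s.re → s.re ≤ c → DifferentiableAt ℂ G s := fun s h1 _ =>
    (hG s (show δ < s.re by linarith)).differentiableAt
      ((isOpen_lt continuous_const Complex.continuous_re).mem_nhds (show δ < s.re by linarith))
  obtain ⟨C, hC, hL2⟩ := l2_shift hσc (H2_meas hfc ρ a) (H2_int hfc hf ρ a (show M < c by linarith)) hC1 hHb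
    (H2_ae hfc ρ a) hD hGd hGb (fun τ => by
      refine H2_trans hfc hf ρ a (by rw [vl_re]; linarith) (by rw [vl_re]; linarith) (line_ne hρc τ) ?_
      rw [hform _ (by rw [vl_re]; exact hcc₀)]
      exact hnew _ (show δ < (vl c τ).re by rw [vl_re]; linarith) (line_ne hρc τ)) (Real.log A')
  set K : ℝ := A' * (Real.exp (|σ| * Real.log A) * C) * A with hK
  have hK0 : 0 ≤ K := by positivity
  filter_upwards [(tendsto_rpow_atTop (y := η / 2) (by positivity)).eventually_ge_atTop K,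
    eventually_ge_atTop 1] with X hX h3
  have hX0 : 0 < X := by linarith
  have hl0 : 0 ≤ Real.log X := Real.log_nonneg h3
  refine ⟨fun j x => ell a (uv j) (gp ρ (Real.log X + Real.log x)), fun j y => gp ρ (Real.log y) (ev n) j,
    fun j => ?_, fun j => ?_, ?_⟩
  · refine ContinuousOn.integrableOn_Icc ?_
    refine (left_cont ρ a (uv j)).comp_continuousOn (continuousOn_const.add (Real.continuousOn_log.mono ?_))
    intro x hx
    have : (0:ℝ) < x := lt_of_lt_of_le one_pos hx.1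
    exact this.ne'
  · refine ContinuousOn.integrableOn_Icc ?_
    refine (right_cont ρ j).comp_continuousOn (Real.continuousOn_log.mono ?_)
    intro x hx
    have : (0:ℝ) < x := lt_of_lt_of_le one_pos hx.1
    exact this.ne'
  · have hpt : ∀ z ∈ Icc 1 A ×ˢ Icc 1 A', ‖S (X * z.1 * z.2) -
        ∑ j, ell a (uv j) (gp ρ (Real.log X + Real.log z.1)) * gp ρ (Real.log z.2) (ev n) j‖ =
        ‖H2 f ρ a ((Real.log X + Real.log z.1) + Real.log z.2)‖ := by
      intro z hz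
      have hz1 : 1 ≤ z.1 := hz.1.1
      have hz2 : 1 ≤ z.2 := hz.2.1
      have hz10 : 0 < z.1 := by linarith
      have hz20 : 0 < z.2 := by linarith
      have hl3 := Real.log_nonneg hz1
      have hl4 := Real.log_nonneg hz2
      unfold H2
      rw [if_pos (by linarith), Ex_sep, ← hSf, Real.exp_add, Real.exp_add, Real.exp_log hX0, Real.exp_log hz10,
        Real.exp_log hz20]
    rw [setIntegral_congr_fun (measurableSet_Icc.prod measurableSet_Icc) hpt]
    by_cases hI : IntegrableOn (fun z : ℝ × ℝ => ‖H2 f ρ a ((Real.log X + Real.log z.1) + Real.log z.2)‖)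
        (Icc 1 A ×ˢ Icc 1 A') (volume.prod volume)
    · have h5 := setIntegral_prod _ hI
      rw [← Measure.volume_eq_prod] at h5
      rw [h5]
      set W : ℝ := A' * (Real.exp (σ * Real.log X + |σ| * Real.log A) * C) with hW
      have hinner : ∀ x ∈ Icc 1 A, ‖∫ y in Icc 1 A', ‖H2 f ρ a ((Real.log X + Real.log x) + Real.log y)‖‖ ≤ W := by
        intro x hx
        have hx0 : (0:ℝ) < x := lt_of_lt_of_le one_pos hx.1
        rw [Real.norm_eq_abs, abs_of_nonneg (integral_nonneg fun _ => norm_nonneg _)]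
        refine (win_le (H2_meas hfc ρ a) hHb hA' _).trans ?_
        refine mul_le_mul_of_nonneg_left ?_ hA0'.le
        refine (hL2 _).trans ?_
        refine mul_le_mul_of_nonneg_right (Real.exp_le_exp.2 ?_) hC
        have h6 := Real.log_le_log hx0 hx.2
        have h7 := Real.log_nonneg hx.1
        have h8 : σ * Real.log x ≤ |σ| * Real.log A := by
          calc σ * Real.log x ≤ |σ| * Real.log x := mul_le_mul_of_nonneg_right (le_abs_self _) h7
            _ ≤ _ := mul_le_mul_of_nonneg_left h6 (abs_nonneg _)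
        rw [mul_add]
        linarith
      have h6 := norm_setIntegral_le_of_norm_le_const (μ := volume) (s := Icc 1 A)
        (f := fun x => ∫ y in Icc 1 A', ‖H2 f ρ a ((Real.log X + Real.log x) + Real.log y)‖) (C := W)
        (by simp) hinner
      refine (le_abs_self _).trans ?_
      rw [← Real.norm_eq_abs]
      refine h6.trans ?_
      have hW0 : 0 ≤ W := by positivity
      have h7 : volume.real (Icc 1 A) ≤ A := by
        simp only [measureReal_def, Real.volume_Icc]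
        rw [ENNReal.toReal_ofReal (by linarith)]
        linarith
      have hWK : W * A = K * X ^ σ := by
        rw [hW, hK, Real.rpow_def_of_pos hX0, Real.exp_add, mul_comm σ]
        ring
      calc W * volume.real (Icc 1 A) ≤ W * A := mul_le_mul_of_nonneg_left h7 hW0
        _ = K * X ^ σ := hWK
        _ ≤ X ^ (η / 2) * X ^ σ := mul_le_mul_of_nonneg_right hX (by positivity)
        _ = X ^ (δ + η) := by rw [← Real.rpow_add hX0, hσ]; ring_nf
    · have h5 : ∫ z in Icc 1 A ×ˢ Icc 1 A', ‖H2 f ρ a ((Real.log X + Real.log z.1) + Real.log z.2)‖ = 0 := by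
        rw [Measure.volume_eq_prod]
        exact integral_undef hI
      rw [h5]
      positivity

end

end Pool.Agent.H480.K
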