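import Pool.Agent.H480.M7

/-!
Meromorphic continuation and approximate rank: the equivalence.
-/

open Filter Topology Set MeasureTheory Complex

set_option linter.unusedSectionVars false

namespace Pool.Agent.H480.K

noncomputable section

variable {r : ℕ} {a : ℕ → ℂ} {b B lam : ℝ}

theorem exists_below {δ : EReal} {β : ℝ} (hβ : δ < (β : EReal)) (ρ : Fin r → ℂ) (hρ : ∀ j, δ < ((ρ j).re : EReal)) :
    ∃ δ' : ℝ, δ < (δ' : EReal) ∧ δ' < β ∧ ∀ j, δ' < (ρ j).re := by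
  have h1 : δ < (β : EReal) ⊓ Finset.univ.inf (fun j => ((ρ j).re : EReal)) := by
    rw [lt_inf_iff]
    refine ⟨hβ, ?_⟩
    rw [Finset.lt_inf_iff (hβ.trans (EReal.coe_lt_top _))]
    exact fun j _ => hρ j
  obtain ⟨x, hx1, hx2⟩ := EReal.lt_iff_exists_real_btwn.1 h1
  rw [lt_inf_iff] at hx2
  refine ⟨x, hx1, by exact_mod_cast hx2.1, fun j => ?_⟩
  have h2 := hx2.2.trans_le (Finset.inf_le (Finset.mem_univ j))
  exact_mod_cast h2

theorem prod_ge_one {s : ℂ} (ρ : Fin r → ℂ) (hs : ∑ k, ‖ρ k‖ + 1 ≤ |s.im|) : 1 ≤ ‖∏ k, (s - ρ k)‖ := by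
  rw [norm_prod]
  calc (1:ℝ) = ∏ _k : Fin r, (1:ℝ) := by simp
    _ ≤ _ := Finset.prod_le_prod (fun _ _ => zero_le_one) fun k _ => by
        have e1 := Complex.abs_im_le_norm (s - ρ k)
        rw [Complex.sub_im] at e1
        have e2 := abs_sub_abs_le_abs_sub s.im (ρ k).im
        have e3 := Complex.abs_im_le_norm (ρ k)
        have e4 := Finset.single_le_sum (f := fun k => ‖ρ k‖) (fun _ _ => norm_nonneg _) (Finset.mem_univ k)
        linarith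

/-- **meromorphic continuation implies approximate rank** -/
theorem rank_of_mero (hB : 0 ≤ B) (ha : ∀ n : ℕ, n ≠ 0 → ‖a n‖ ≤ B * (n : ℝ) ^ b) {A A' : ℝ} (hA : 1 < A)
    (hA' : 1 < A') {δ : EReal} {ρ : Fin r → ℂ} {g : ℂ → ℂ} {c₀ C : ℝ} (hl : 0 < lam) (hC : 2 * C < lam)
    (hρ : ∀ j, δ < ((ρ j).re : EReal)) (hg : ∀ s : ℂ, δ < (s.re : EReal) → DifferentiableAt ℂ g s)
    (hform : ∀ s : ℂ, c₀ < s.re → g s = (∏ j, (s - ρ j)) * LSeries a s) (hgr : Gr δ C g) {β : ℝ}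
    (hβ : δ < (β : EReal)) : ∀ᶠ X : ℝ in atTop, Near (VV a lam) A A' r β X := by
  obtain ⟨δ', h1, h2, h3⟩ := exists_below hβ ρ hρ
  have hη : β = δ' + (β - δ') := by ring
  rw [hη]
  refine near_up2 (f := fV a lam) (c₁ := b + 2) (fun u => VV_exp a lam u) (fV_cont hB ha hl)
    (fun κ hκ => fV_bd hB ha hl (by linarith)) (δ := δ') ρ h3 (g := fun s => MM lam s * g s)
    (fun s hs => ((MM_diff lam s).mul (hg s (h1.trans (by exact_mod_cast hs)))).differentiableWithinAt)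
    (c₀ := max (max (b + 1) c₀) (∑ k, ‖ρ k‖) + 1) (fun s hs => ?_) (fun σ c hσ hσc => ?_) hA hA' (by linarith)
  · have e1 : b + 1 ≤ max (max (b + 1) c₀) (∑ k, ‖ρ k‖) := (le_max_left _ _).trans (le_max_left _ _)
    have e2 : c₀ ≤ max (max (b + 1) c₀) (∑ k, ‖ρ k‖) := (le_max_right _ _).trans (le_max_left _ _)
    have e3 : ∑ k, ‖ρ k‖ ≤ max (max (b + 1) c₀) (∑ k, ‖ρ k‖) := le_max_right _ _
    have hne : ∏ k, (s - ρ k) ≠ 0 := by
      refine Finset.prod_ne_zero_iff.2 fun k _ h0 => ?_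
      have e4 : s = ρ k := sub_eq_zero.1 h0
      have e5 := Finset.single_le_sum (f := fun k => ‖ρ k‖) (fun _ _ => norm_nonneg _) (Finset.mem_univ k)
      have e6 := Complex.re_le_norm s
      have e7 : ‖s‖ = ‖ρ k‖ := by rw [e4]
      linarith
    rw [fV_lap hB ha hl (by linarith), hform s (by linarith), eq_div_iff hne]
    ring
  · obtain ⟨K, hK⟩ := hgr σ c (h1.trans (by exact_mod_cast hσ))
    set κ : ℝ := lam / 2 - C with hκ
    have hκ0 : 0 < κ := by rw [hκ]; linarith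
    obtain ⟨K', hK', hKb'⟩ := poly_le_gauss (lam := 2 * κ) 1 (by linarith)
    set M : ℝ := Real.exp (lam / 2 * (|σ| + |c|) ^ 2) with hM
    refine ⟨Real.sqrt (2 * Real.pi * lam) * M * |K| * K', ∑ k, ‖ρ k‖ + 1, by positivity, fun s e1 e2 e3 => ?_⟩
    have f1 := prod_ge_one ρ e3
    have f2 := hK s e1 e2
    have f3 := hKb' s.im
    rw [pow_one] at f3
    have f4 : s.re ^ 2 ≤ (|σ| + |c|) ^ 2 := by
      rw [← sq_abs s.re]
      refine pow_le_pow_left₀ (abs_nonneg _) ?_ 2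
      rw [abs_le]
      constructor
      · linarith [neg_abs_le σ, abs_nonneg c]
      · linarith [le_abs_self c, abs_nonneg σ]
    have hone : 0 < 1 + |s.im| := by positivity
    have f5 : Real.exp (-(κ * s.im ^ 2)) ≤ K' * (1 + |s.im|) ^ (-(3 / 4) : ℝ) := by
      have g1 : Real.exp (-(κ * s.im ^ 2)) * (1 + |s.im|) ≤ K' := by
        calc Real.exp (-(κ * s.im ^ 2)) * (1 + |s.im|) ≤ Real.exp (-(κ * s.im ^ 2)) * (K' * Real.exp (2 * κ / 2 * s.im ^ 2)) :=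
              mul_le_mul_of_nonneg_left f3 (Real.exp_pos _).le
          _ = K' * (Real.exp (-(κ * s.im ^ 2)) * Real.exp (2 * κ / 2 * s.im ^ 2)) := by ring
          _ = K' := by
              rw [← Real.exp_add]
              have : -(κ * s.im ^ 2) + 2 * κ / 2 * s.im ^ 2 = 0 := by ring
              rw [this, Real.exp_zero, mul_one]
      calc Real.exp (-(κ * s.im ^ 2)) ≤ K' / (1 + |s.im|) := by rwa [le_div_iff₀ hone]
        _ = K' * (1 + |s.im|) ^ (-1 : ℝ) := by rw [Real.rpow_neg_one]; rfl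
        _ ≤ K' * (1 + |s.im|) ^ (-(3 / 4) : ℝ) := by
            refine mul_le_mul_of_nonneg_left ?_ hK'
            exact Real.rpow_le_rpow_of_exponent_le (by linarith [abs_nonneg s.im]) (by norm_num)
    rw [norm_div, norm_mul, MM_norm]
    have f6 : Real.exp (lam / 2 * (s.re ^ 2 - s.im ^ 2)) * Real.exp (C * s.im ^ 2) ≤ M * Real.exp (-(κ * s.im ^ 2)) := by
      rw [hM, ← Real.exp_add, ← Real.exp_add]
      refine Real.exp_le_exp.2 ?_
      rw [hκ]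
      nlinarith
    calc Real.sqrt (2 * Real.pi * lam) * Real.exp (lam / 2 * (s.re ^ 2 - s.im ^ 2)) * ‖g s‖ / ‖∏ k, (s - ρ k)‖
        ≤ Real.sqrt (2 * Real.pi * lam) * Real.exp (lam / 2 * (s.re ^ 2 - s.im ^ 2)) * ‖g s‖ :=
          div_le_self (by positivity) f1
      _ ≤ Real.sqrt (2 * Real.pi * lam) * Real.exp (lam / 2 * (s.re ^ 2 - s.im ^ 2)) * (|K| * Real.exp (C * s.im ^ 2)) := by
          refine mul_le_mul_of_nonneg_left (f2.trans ?_) (by positivity)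
          exact mul_le_mul_of_nonneg_right (le_abs_self _) (Real.exp_pos _).le
      _ = Real.sqrt (2 * Real.pi * lam) * |K| * (Real.exp (lam / 2 * (s.re ^ 2 - s.im ^ 2)) * Real.exp (C * s.im ^ 2)) := by ring
      _ ≤ Real.sqrt (2 * Real.pi * lam) * |K| * (M * (K' * (1 + |s.im|) ^ (-(3 / 4) : ℝ))) :=
          mul_le_mul_of_nonneg_left (f6.trans (mul_le_mul_of_nonneg_left f5 (Real.exp_pos _).le)) (by positivity)
      _ = _ := by ring

/-- uniqueness of the continuation, with different denominators -/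
theorem Gr_transfer {δ : EReal} {ρ ρ' : Fin r → ℂ} {g g' : ℂ → ℂ} {c₀ c₀' : ℝ}
    (hg : ∀ s : ℂ, δ < (s.re : EReal) → DifferentiableAt ℂ g s)
    (hform : ∀ s : ℂ, c₀ < s.re → g s = (∏ j, (s - ρ j)) * LSeries a s)
    (hg' : ∀ s : ℂ, δ < (s.re : EReal) → DifferentiableAt ℂ g' s)
    (hform' : ∀ s : ℂ, c₀' < s.re → g' s = (∏ j, (s - ρ' j)) * LSeries a s) (hl : 0 < lam) (hgr : Gr δ lam g') :
    Gr δ (2 * lam) g := by
  intro σ₁ σ₂ hσ₁
  obtain ⟨K, hK⟩ := hgr σ₁ σ₂ hσ₁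
  obtain ⟨x, hx1, hx2⟩ := EReal.lt_iff_exists_real_btwn.1 hσ₁
  have hx2' : x < σ₁ := by exact_mod_cast hx2
  have hid : ∀ s : ℂ, x < s.re → (∏ j, (s - ρ' j)) * g s = (∏ j, (s - ρ j)) * g' s := by
    intro s hs
    refine half_id (δ := x) (c₀ := max c₀ c₀') (F := fun s => (∏ j, (s - ρ' j)) * g s) (G := fun s => (∏ j, (s - ρ j)) * g' s)
      (fun s hs => ?_) (fun s hs => ?_) (fun s hs => ?_) hs
    · exact DifferentiableAt.mul (by fun_prop) (hg s (hx1.trans (by exact_mod_cast hs)))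
    · exact DifferentiableAt.mul (by fun_prop) (hg' s (hx1.trans (by exact_mod_cast hs)))
    · rw [hform s ((le_max_left _ _).trans_lt hs), hform' s ((le_max_right _ _).trans_lt hs)]
      ring
  -- the compact part
  set T : ℝ := ∑ k, ‖ρ' k‖ + 1 with hT
  have hcomp : IsCompact (Icc σ₁ σ₂ ×ℂ Icc (-T) T) := isCompact_Icc.reProdIm isCompact_Icc
  have hcont : ContinuousOn g (Icc σ₁ σ₂ ×ℂ Icc (-T) T) := fun s hs =>
    (hg s (hσ₁.trans_le (by exact_mod_cast hs.1.1))).continuousAt.continuousWithinAt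
  obtain ⟨M, hM⟩ := hcomp.exists_bound_of_continuousOn hcont
  obtain ⟨K', hK', hKb'⟩ := poly_le_gauss (lam := 2 * lam) r (by linarith)
  set W : ℝ := |σ₁| + |σ₂| + ∑ k, ‖ρ k‖ + 1 with hW
  have hs0 : 0 ≤ ∑ k, ‖ρ k‖ := Finset.sum_nonneg fun _ _ => norm_nonneg _
  have hW0 : 1 ≤ W := by rw [hW]; linarith [abs_nonneg σ₁, abs_nonneg σ₂]
  refine ⟨|M| + W ^ r * K' * |K|, fun s h1 h2 => ?_⟩
  have he1 : 1 ≤ Real.exp (2 * lam * s.im ^ 2) := Real.one_le_exp (by positivity)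
  rcases le_total |s.im| T with hs | hs
  · have h3 := hM s ⟨⟨h1, h2⟩, abs_le.1 hs⟩
    calc ‖g s‖ ≤ |M| := h3.trans (le_abs_self _)
      _ ≤ |M| + W ^ r * K' * |K| := by
          have : 0 ≤ W ^ r * K' * |K| := by positivity
          linarith
      _ ≤ _ := le_mul_of_one_le_right (by positivity) he1
  · have h3 := prod_ge_one ρ' hs
    have h4 := hid s (hx2'.trans_le h1)
    have h5 := congrArg norm h4
    rw [norm_mul, norm_mul] at h5
    have h6 : ‖g s‖ ≤ ‖∏ j, (s - ρ' j)‖ * ‖g s‖ := le_mul_of_one_le_left (norm_nonneg _) h3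
    have h7 : ‖s‖ + ∑ k, ‖ρ k‖ ≤ W * (1 + |s.im|) := by
      have f1 := Complex.norm_le_abs_re_add_abs_im s
      have f2 : |s.re| ≤ |σ₁| + |σ₂| := by
        rw [abs_le]
        constructor
        · linarith [neg_abs_le σ₁, abs_nonneg σ₂]
        · linarith [le_abs_self σ₂, abs_nonneg σ₁]
      have f3 : W + |s.im| ≤ W * (1 + |s.im|) := by nlinarith [abs_nonneg s.im]
      linarith
    have h8 : ‖∏ j, (s - ρ j)‖ ≤ W ^ r * (K' * Real.exp (lam * s.im ^ 2)) := by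
      refine (prod_norm_le ρ s).trans ?_
      calc (‖s‖ + ∑ k, ‖ρ k‖) ^ r ≤ (W * (1 + |s.im|)) ^ r := pow_le_pow_left₀ (by positivity) h7 r
        _ = W ^ r * (1 + |s.im|) ^ r := mul_pow _ _ _
        _ ≤ W ^ r * (K' * Real.exp (lam * s.im ^ 2)) := by
            refine mul_le_mul_of_nonneg_left ?_ (by positivity)
            have := hKb' s.im
            rwa [mul_div_cancel_left₀ lam (two_ne_zero)] at this
    have h9 := hK s h1 h2
    have h10 : ‖g' s‖ ≤ |K| * Real.exp (lam * s.im ^ 2) :=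
      h9.trans (mul_le_mul_of_nonneg_right (le_abs_self _) (Real.exp_pos _).le)
    have h11 : Real.exp (lam * s.im ^ 2) * Real.exp (lam * s.im ^ 2) = Real.exp (2 * lam * s.im ^ 2) := by
      rw [← Real.exp_add]; congr 1; ring
    calc ‖g s‖ ≤ ‖∏ j, (s - ρ' j)‖ * ‖g s‖ := h6
      _ = ‖∏ j, (s - ρ j)‖ * ‖g' s‖ := h5
      _ ≤ (W ^ r * (K' * Real.exp (lam * s.im ^ 2))) * (|K| * Real.exp (lam * s.im ^ 2)) :=
          mul_le_mul h8 h10 (norm_nonneg _) (by positivity)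
      _ = W ^ r * K' * |K| * (Real.exp (lam * s.im ^ 2) * Real.exp (lam * s.im ^ 2)) := by ring
      _ = W ^ r * K' * |K| * Real.exp (2 * lam * s.im ^ 2) := by rw [h11]
      _ ≤ _ := mul_le_mul_of_nonneg_right (by linarith [abs_nonneg M]) (Real.exp_pos _).le

theorem Gr_mono {δ : EReal} {C C' : ℝ} {g : ℂ → ℂ} (h : Gr δ C g) (hC : C ≤ C') : Gr δ C' g := by
  intro σ₁ σ₂ hσ
  obtain ⟨K, hK⟩ := h σ₁ σ₂ hσ
  refine ⟨|K|, fun s h1 h2 => (hK s h1 h2).trans ?_⟩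
  calc K * Real.exp (C * s.im ^ 2) ≤ |K| * Real.exp (C * s.im ^ 2) :=
        mul_le_mul_of_nonneg_right (le_abs_self _) (Real.exp_pos _).le
    _ ≤ _ := mul_le_mul_of_nonneg_left (Real.exp_le_exp.2 (mul_le_mul_of_nonneg_right hC (sq_nonneg _))) (abs_nonneg _)

/-- the continuation -/
structure Cont (a : ℕ → ℂ) (δ : EReal) (r : ℕ) (ρ : Fin r → ℂ) (g : ℂ → ℂ) : Prop where
  poles : ∀ j, δ < ((ρ j).re : EReal)
  holo : ∀ s : ℂ, δ < (s.re : EReal) → DifferentiableAt ℂ g s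
  eq : ∃ c : ℝ, ∀ s : ℂ, c < s.re → g s = (∏ j, (s - ρ j)) * LSeries a s

theorem mero_tfae (hB : 0 ≤ B) (ha : ∀ n : ℕ, n ≠ 0 → ‖a n‖ ≤ B * (n : ℝ) ^ b) {A A' : ℝ} (hA : 1 < A)
    (hA' : 1 < A') {δ : EReal} (hδ : δ < ⊤) (r : ℕ) :
    List.TFAE [∃ ρ g, Cont a δ r ρ g ∧ ∃ C : ℝ, Gr δ C g,
      ∃ lam₀ : ℝ, ∀ lam : ℝ, lam₀ < lam → ∀ β : ℝ, δ < (β : EReal) → ∀ᶠ X : ℝ in atTop, Near (VV a lam) A A' r β X,
      ∃ lam : ℝ, 0 < lam ∧ ∀ β : ℝ, δ < (β : EReal) → ∀ᶠ X : ℝ in atTop, Near (VV a lam) A A' r β X] := by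
  tfae_have 1 → 2 := by
    rintro ⟨ρ, g, h, C, hC⟩
    obtain ⟨c, hc⟩ := h.eq
    refine ⟨max 0 (2 * C), fun lam hl β hβ => ?_⟩
    exact rank_of_mero hB ha hA hA' ((le_max_left _ _).trans_lt hl) ((le_max_right _ _).trans_lt hl) h.poles h.holo hc hC hβ
  tfae_have 2 → 3 := by
    rintro ⟨lam₀, h⟩
    refine ⟨max lam₀ 0 + 1, by have := le_max_right lam₀ 0; linarith, h _ ?_⟩
    have := le_max_left lam₀ 0
    linarith
  tfae_have 3 → 1 := by
    rintro ⟨lam, hl, h⟩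
    obtain ⟨ρ, g, c₀, h1, h2, h3, h4⟩ := mero_of_rank hB ha hl hA hA' hδ h
    exact ⟨ρ, g, ⟨h1, h2, c₀, h3⟩, lam, h4⟩
  tfae_finish

theorem mero_iff (hB : 0 ≤ B) (ha : ∀ n : ℕ, n ≠ 0 → ‖a n‖ ≤ B * (n : ℝ) ^ b) {A A' : ℝ} (hA : 1 < A)
    (hA' : 1 < A') {δ : EReal} (hδ : δ < ⊤) (r : ℕ) :
    (∃ ρ g, Cont a δ r ρ g ∧ ∀ ε : ℝ, 0 < ε → Gr δ ε g) ↔
      ∀ lam : ℝ, 0 < lam → ∀ β : ℝ, δ < (β : EReal) → ∀ᶠ X : ℝ in atTop, Near (VV a lam) A A' r β X := by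
  constructor
  · rintro ⟨ρ, g, h, hC⟩ lam hl β hβ
    obtain ⟨c, hc⟩ := h.eq
    exact rank_of_mero hB ha hA hA' hl (C := lam / 3) (by linarith) h.poles h.holo hc (hC _ (by positivity)) hβ
  · intro h
    obtain ⟨ρ, g, c₀, h1, h2, h3, -⟩ := mero_of_rank hB ha one_pos hA hA' hδ (h 1 one_pos)
    refine ⟨ρ, g, ⟨h1, h2, c₀, h3⟩, fun ε hε => ?_⟩
    obtain ⟨ρ', g', c₀', k1, k2, k3, k4⟩ := mero_of_rank hB ha (show 0 < ε / 2 by positivity) hA hA' hδ (h _ (by positivity))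
    have := Gr_transfer h2 h3 k2 k3 (by positivity) k4
    rwa [mul_div_cancel₀ ε two_ne_zero] at this

theorem Near_le {S : ℝ → ℂ} {A A' β β' : ℝ} (h : β ≤ β') (H : ∀ᶠ X : ℝ in atTop, Near S A A' r β X) :
    ∀ᶠ X : ℝ in atTop, Near S A A' r β' X := by
  filter_upwards [H, eventually_ge_atTop 1] with X h1 h2
  obtain ⟨u, v, hu, hv, hle⟩ := h1
  exact ⟨u, v, hu, hv, hle.trans (Real.rpow_le_rpow_of_exponent_le h2 h)⟩

/-- finitely many poles to the right of each vertical line -/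
theorem mero_all (hB : 0 ≤ B) (ha : ∀ n : ℕ, n ≠ 0 → ‖a n‖ ≤ B * (n : ℝ) ^ b) {A A' : ℝ} (hA : 1 < A)
    (hA' : 1 < A') :
    (∃ C : ℝ, ∀ δ : ℝ, ∃ r ρ g, Cont a δ r ρ g ∧ Gr δ C g) ↔
      ∃ lam : ℝ, 0 < lam ∧ ∀ β : ℝ, ∃ r : ℕ, ∀ᶠ X : ℝ in atTop, Near (VV a lam) A A' r β X := by
  constructor
  · rintro ⟨C, h⟩
    refine ⟨max 0 (2 * C) + 1, by have := le_max_left 0 (2 * C); linarith, fun β => ?_⟩
    obtain ⟨r, ρ, g, hc, hg⟩ := h (β - 1)
    obtain ⟨c, hc'⟩ := hc.eq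
    refine ⟨r, rank_of_mero hB ha hA hA' (C := C) ?_ ?_ hc.poles hc.holo hc' hg ?_⟩
    · have := le_max_left 0 (2 * C); linarith
    · have := le_max_right 0 (2 * C); linarith
    · exact_mod_cast sub_one_lt β
  · rintro ⟨lam, hl, h⟩
    refine ⟨lam, fun δ => ?_⟩
    obtain ⟨r, hr⟩ := h δ
    obtain ⟨ρ, g, c₀, h1, h2, h3, h4⟩ := mero_of_rank (r := r) hB ha hl hA hA' (EReal.coe_lt_top δ) (fun β hβ =>
      Near_le (by exact_mod_cast hβ.le) hr)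
    exact ⟨r, ρ, g, ⟨h1, h2, c₀, h3⟩, h4⟩

end

end Pool.Agent.H480.K
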