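import Pool.Agent.H480.M8

/-!
Largest minors of a kernel and approximate rank.
-/

open Filter Topology Set MeasureTheory

set_option linter.unusedSectionVars false

namespace Pool.Agent.H480.K

noncomputable section

variable {α β : Type*} [Nonempty α] [Nonempty β] {K : α → β → ℂ} {B : ℝ}

/-- the minor of the kernel at the points `x`, `y` -/
def mi (K : α → β → ℂ) {k : ℕ} (x : Fin k → α) (y : Fin k → β) : ℂ := Matrix.det (Matrix.of fun i j => K (x i) (y j))

/-- the largest minor -/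
def Mx (K : α → β → ℂ) (k : ℕ) : ℝ := ⨆ p : (Fin k → α) × (Fin k → β), ‖mi K p.1 p.2‖

theorem mi_le (hB : ∀ a b, ‖K a b‖ ≤ B) {k : ℕ} (x : Fin k → α) (y : Fin k → β) : ‖mi K x y‖ ≤ k.factorial * B ^ k := by
  have h := Matrix.det_le (A := Matrix.of fun i j => K (x i) (y j)) (abv := (NormedField.toAbsoluteValue ℂ)) (x := B)
    (fun i j => hB _ _)
  rw [Fintype.card_fin, nsmul_eq_mul] at h
  exact h

theorem Mx_bdd (hB : ∀ a b, ‖K a b‖ ≤ B) (k : ℕ) :
    BddAbove (range fun p : (Fin k → α) × (Fin k → β) => ‖mi K p.1 p.2‖) :=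
  ⟨k.factorial * B ^ k, by rintro _ ⟨p, rfl⟩; exact mi_le hB _ _⟩

theorem le_Mx (hB : ∀ a b, ‖K a b‖ ≤ B) {k : ℕ} (x : Fin k → α) (y : Fin k → β) : ‖mi K x y‖ ≤ Mx K k :=
  le_ciSup (Mx_bdd hB k) (x, y)

theorem Mx_nonneg (k : ℕ) : 0 ≤ Mx K k := Real.iSup_nonneg fun _ => norm_nonneg _

theorem Mx_zero (hB : ∀ a b, ‖K a b‖ ≤ B) : Mx K 0 = 1 := by
  apply le_antisymm
  · refine ciSup_le fun p => ?_
    unfold mi
    rw [Matrix.det_fin_zero, norm_one]
  · have h := le_Mx hB (k := 0) Fin.elim0 Fin.elim0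
    unfold mi at h
    rw [Matrix.det_fin_zero, norm_one] at h
    exact h

/-- the Schur complement -/
theorem schur {k : ℕ} (x : Fin k → α) (y : Fin k → β) (h0 : mi K x y ≠ 0) (a : α) (b : β) :
    mi K (Fin.append x fun _ : Fin 1 => a) (Fin.append y fun _ : Fin 1 => b) =
      mi K x y * (K a b - ∑ j, (∑ i, K a (y i) * (Matrix.of fun i j => K (x i) (y j))⁻¹ i j) * K (x j) b) := by
  set N : Matrix (Fin k) (Fin k) ℂ := Matrix.of fun i j => K (x i) (y j) with hN
  have hdet : IsUnit N.det := isUnit_iff_ne_zero.2 h0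
  let _ : Invertible N := N.invertibleOfIsUnitDet hdet
  have e0 : mi K (Fin.append x fun _ : Fin 1 => a) (Fin.append y fun _ : Fin 1 => b) =
      (Matrix.fromBlocks N (Matrix.of fun i (_ : Fin 1) => K (x i) b) (Matrix.of fun (_ : Fin 1) j => K a (y j))
        (Matrix.of fun (_ : Fin 1) (_ : Fin 1) => K a b)).det := by
    unfold mi
    rw [← Matrix.det_submatrix_equiv_self (finSumFinEquiv (m := k) (n := 1))]
    congr 1
    ext i j
    rcases i with i | i <;> rcases j with j | j <;>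
      simp [hN, Matrix.fromBlocks]
  rw [e0, Matrix.det_fromBlocks₁₁, Matrix.det_fin_one]
  unfold mi
  refine congrArg (N.det * ·) ?_
  rw [Matrix.sub_apply, Matrix.mul_apply]
  simp only [Matrix.of_apply, Matrix.mul_apply, Matrix.invOf_eq_nonsing_inv]

/-- cross approximation -/
theorem cross (hB : ∀ a b, ‖K a b‖ ≤ B) {k : ℕ} (h0 : 0 < Mx K k) :
    ∃ (x : Fin k → α) (y : Fin k → β) (c : Fin k → Fin k → ℂ), ∀ a b,
      ‖K a b - ∑ j, (∑ i, K a (y i) * c i j) * K (x j) b‖ ≤ 2 * (Mx K (k + 1) / Mx K k) := by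
  obtain ⟨⟨x, y⟩, hxy⟩ := exists_lt_of_lt_ciSup (show Mx K k / 2 < Mx K k by linarith)
  have hne : mi K x y ≠ 0 := by
    intro h
    simp only [h, norm_zero] at hxy
    linarith
  refine ⟨x, y, fun i j => (Matrix.of fun i j => K (x i) (y j))⁻¹ i j, fun a b => ?_⟩
  have h1 := schur x y hne a b
  have h2 := le_Mx hB (Fin.append x fun _ : Fin 1 => a) (Fin.append y fun _ : Fin 1 => b)
  rw [h1, norm_mul] at h2
  have h3 : Mx K k / 2 < ‖mi K x y‖ := hxy
  have h4 : 0 ≤ ‖K a b - ∑ j, (∑ i, K a (y i) * (Matrix.of fun i j => K (x i) (y j))⁻¹ i j) * K (x j) b‖ := norm_nonneg _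
  rw [← mul_div_assoc, le_div_iff₀ h0]
  nlinarith [mul_le_mul_of_nonneg_right h3.le h4]

/-- a kernel close to rank `r` has small minors of size `r + 1` -/
theorem minor_small (hB : ∀ a b, ‖K a b‖ ≤ B) {r : ℕ} {ε : ℝ} {u : Fin r → α → ℂ} {v : Fin r → β → ℂ}
    (h : ∀ a b, ‖K a b - ∑ i, u i a * v i b‖ ≤ ε) : Mx K (r + 1) ≤ (r + 1) ^ 2 * ε * Mx K r := by
  refine ciSup_le fun p => ?_
  obtain ⟨x, y⟩ := p
  simp only
  have hε : 0 ≤ ε := (norm_nonneg _).trans (h (x 0) (y 0))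
  obtain ⟨c, hc1, hc2⟩ := lin_dep (fun (i : Fin (r + 1)) (j : Fin r) => u j (x i))
  obtain ⟨i₀, -, hi₀⟩ := Finset.exists_max_image Finset.univ (fun i => ‖c i‖) ⟨0, Finset.mem_univ _⟩
  have hbig : 1 ≤ (r + 1) * ‖c i₀‖ := by
    calc (1:ℝ) = ∑ i, ‖c i‖ := hc1.symm
      _ ≤ ∑ _i : Fin (r + 1), ‖c i₀‖ := Finset.sum_le_sum fun i _ => hi₀ i (Finset.mem_univ _)
      _ = (r + 1) * ‖c i₀‖ := by simp
  set N : Matrix (Fin (r + 1)) (Fin (r + 1)) ℂ := Matrix.of fun i j => K (x i) (y j) with hN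
  have e1 := Matrix.det_updateRow_sum N i₀ c
  have e2 := Matrix.det_succ_row (N.updateRow i₀ (∑ k, (c k) • N k)) i₀
  rw [e1] at e2
  have hrow : ∀ j, ‖(∑ k, (c k) • N k) j‖ ≤ ε := by
    intro j
    rw [Finset.sum_apply]
    have e3 : ∑ k, (c k • N k) j = ∑ k, c k * (K (x k) (y j) - ∑ i, u i (x k) * v i (y j)) := by
      have e4 : ∑ k, c k * ∑ i, u i (x k) * v i (y j) = 0 := by
        calc ∑ k, c k * ∑ i, u i (x k) * v i (y j) = ∑ i, (∑ k, c k * u i (x k)) * v i (y j) := by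
              simp_rw [Finset.mul_sum, Finset.sum_mul]
              rw [Finset.sum_comm]
              exact Finset.sum_congr rfl fun i _ => Finset.sum_congr rfl fun k _ => by ring
          _ = 0 := Finset.sum_eq_zero fun i _ => by rw [hc2 i, zero_mul]
      simp_rw [mul_sub]
      rw [Finset.sum_sub_distrib, e4, sub_zero]
      refine Finset.sum_congr rfl fun k _ => ?_
      rw [Pi.smul_apply, smul_eq_mul]
      rfl
    rw [e3]
    calc _ ≤ ∑ k, ‖c k‖ * ε := (norm_sum_le _ _).trans (Finset.sum_le_sum fun k _ => by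
            rw [norm_mul]; exact mul_le_mul_of_nonneg_left (h _ _) (norm_nonneg _))
      _ = ε := by rw [← Finset.sum_mul, hc1, one_mul]
  have hdet : ‖c i₀‖ * ‖N.det‖ ≤ (r + 1) * (ε * Mx K r) := by
    rw [← norm_mul, ← smul_eq_mul, e2]
    refine (norm_sum_le _ _).trans ?_
    calc _ ≤ ∑ _j : Fin (r + 1), ε * Mx K r := Finset.sum_le_sum fun j _ => by
          rw [norm_mul, norm_mul, norm_pow, norm_neg, norm_one, one_pow, one_mul, Matrix.updateRow_self]
          refine mul_le_mul (hrow j) ?_ (norm_nonneg _) hε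
          have e5 : ((N.updateRow i₀ (∑ k, (c k) • N k)).submatrix i₀.succAbove j.succAbove).det =
              mi K (fun i => x (i₀.succAbove i)) (fun i => y (j.succAbove i)) := by
            unfold mi
            congr 1
            ext a b
            rw [Matrix.submatrix_apply, Matrix.updateRow_ne (Fin.succAbove_ne _ _)]
            rfl
          rw [e5]
          exact le_Mx hB _ _
      _ = (r + 1) * (ε * Mx K r) := by simp
  have hM := Mx_nonneg (K := K) r
  have hd : 0 ≤ ‖N.det‖ := norm_nonneg _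
  have e6 : ‖mi K x y‖ = ‖N.det‖ := rfl
  rw [e6]
  calc ‖N.det‖ ≤ ((r + 1) * ‖c i₀‖) * ‖N.det‖ := le_mul_of_one_le_left hd hbig
    _ = (r + 1) * (‖c i₀‖ * ‖N.det‖) := by ring
    _ ≤ (r + 1) * ((r + 1) * (ε * Mx K r)) := mul_le_mul_of_nonneg_left hdet (by positivity)
    _ = _ := by ring

/-- from minors to approximate rank, with the functions of the cross approximation -/
theorem approx_of_minors (hB : ∀ a b, ‖K a b‖ ≤ B) {r : ℕ} {ε : ℝ} (hε : 0 ≤ ε) (h : Mx K (r + 1) ≤ ε * Mx K r) :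
    ∃ k ≤ r, ∃ (x : Fin k → α) (y : Fin k → β) (c : Fin k → Fin k → ℂ), ∀ a b,
      ‖K a b - ∑ j, (∑ i, K a (y i) * c i j) * K (x j) b‖ ≤ 2 * ε := by
  classical
  rcases (Mx_nonneg (K := K) r).lt_or_eq with h0 | h0
  · obtain ⟨x, y, c, hc⟩ := cross hB h0
    refine ⟨r, le_rfl, x, y, c, fun a b => (hc a b).trans ?_⟩
    refine mul_le_mul_of_nonneg_left ?_ (by norm_num)
    rwa [div_le_iff₀ h0]
  · -- the first vanishing minor
    have hex : ∃ k, Mx K k = 0 := ⟨r, h0.symm⟩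
    set m := Nat.find hex with hm
    have hm0 : Mx K m = 0 := Nat.find_spec hex
    have hmr : m ≤ r := Nat.find_min' hex h0.symm
    have hmpos : m ≠ 0 := by
      intro h1
      rw [h1, Mx_zero hB] at hm0
      exact one_ne_zero hm0
    obtain ⟨k, hk⟩ := Nat.exists_eq_succ_of_ne_zero hmpos
    have hk1 : Mx K k ≠ 0 := Nat.find_min hex (show k < Nat.find hex by omega)
    have hk2 : 0 < Mx K k := lt_of_le_of_ne (Mx_nonneg k) (Ne.symm hk1)
    obtain ⟨x, y, c, hc⟩ := cross hB hk2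
    refine ⟨k, by omega, x, y, c, fun a b => (hc a b).trans ?_⟩
    have : Mx K (k + 1) = 0 := by rw [← hm0, hk]
    rw [this, zero_div, mul_zero]
    linarith

end

end Pool.Agent.H480.K
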