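import Pool.Agent.H480.N1

/-!
Inversion and separability of the difference of two lines.
-/

open Complex MeasureTheory Filter Topology Set

set_option linter.unusedSectionVars false

namespace Pool.Agent.H480.K

open Pool.Agent.H480.G
open H313.GK

noncomputable section

/-- `h(x + y)` is a sum of `n` products -/
def SepF (n : ℕ) (h : ℝ → ℂ) : Prop :=
  ∃ u v : Fin n → ℝ → ℂ, (∀ i, Continuous (v i)) ∧ ∀ x y, h (x + y) = ∑ i, u i x * v i y

theorem line_dist {ρ : ℂ} {c : ℝ} (τ : ℝ) : |c - ρ.re| ≤ ‖vl c τ - ρ‖ := by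
  have := Complex.abs_re_le_norm (vl c τ - ρ)
  simpa using this

theorem line_ne' {ρ : ℂ} {c : ℝ} (hρ : ρ.re ≠ c) (τ : ℝ) : vl c τ - ρ ≠ 0 := by
  intro h0
  have h1 := line_dist (ρ := ρ) (c := c) τ
  rw [h0, norm_zero] at h1
  have h2 : 0 < |c - ρ.re| := abs_pos.2 (sub_ne_zero.2 (Ne.symm hρ))
  linarith

theorem LB_div {Ψ : ℂ → ℂ} {B c : ℝ} (hΨ : LB Ψ c B) {ρ : ℂ} (hρ : ρ.re ≠ c) :
    LB (fun s => Ψ s / (s - ρ)) c (B / |c - ρ.re|) := by
  have h2 : 0 < |c - ρ.re| := abs_pos.2 (sub_ne_zero.2 (Ne.symm hρ))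
  refine ⟨div_nonneg hΨ.nn h2.le, ?_, fun τ => ?_⟩
  · refine hΨ.cont.div ?_ (line_ne' hρ)
    exact (vl_cont c).sub continuous_const
  · rw [norm_div, div_mul_eq_mul_div]
    exact div_le_div₀ (mul_nonneg hΨ.nn (by positivity)) (hΨ.bd τ) h2 (line_dist τ)

/-- integral of an inverse transform against an exponential -/
theorem inv_step {Ψ : ℂ → ℂ} {B c : ℝ} (hΨ : LB Ψ c B) {ρ : ℂ} (hρ : ρ.re ≠ c) {p q : ℝ} (hpq : p ≤ q) :
    ∫ v in p..q, cexp (-ρ * v) * Inv Ψ c v =
      cexp (-ρ * q) * Inv (fun s => Ψ s / (s - ρ)) c q - cexp (-ρ * p) * Inv (fun s => Ψ s / (s - ρ)) c p := by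
  have hL := LB_div hΨ hρ
  have e0 : ∀ v : ℝ, cexp (-ρ * v) * Inv Ψ c v = ((1 / (2 * Real.pi) : ℝ) : ℂ) *
      ∫ τ : ℝ, cexp (-ρ * v) * (Ψ (vl c τ) * cexp (vl c τ * v)) := by
    intro v
    unfold H313.GK.Inv
    rw [integral_const_mul]
    ring
  simp_rw [e0]
  rw [intervalIntegral.integral_const_mul, intervalIntegral.integral_of_le hpq]
  set G : ℝ → ℝ → ℂ := fun v τ => cexp (-ρ * v) * (Ψ (vl c τ) * cexp (vl c τ * v)) with hG
  have hprod : Integrable (Function.uncurry G) ((volume.restrict (Ioc p q)).prod volume) := by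
    have h0 : IntegrableOn (fun v : ℝ => Real.exp (-ρ.re * v) * Real.exp (c * v)) (Ioc p q) := by
      refine (Continuous.integrableOn_Icc (by fun_prop)).mono_set Ioc_subset_Icc_self
    have h1 := Integrable.mul_prod (μ := volume.restrict (Ioc p q)) (ν := volume) h0 hΨ.int.norm
    refine h1.mono' ?_ (ae_of_all _ fun x => ?_)
    · have hc := hΨ.cont.measurable
      have hv := (vl_cont c).measurable
      have h2 : Measurable (Function.uncurry G) := by
        simp only [hG, Function.uncurry_def]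
        exact (by fun_prop : Measurable fun x : ℝ × ℝ => cexp (-ρ * (x.1 : ℂ))).mul
          ((hc.comp measurable_snd).mul (Complex.measurable_exp.comp ((hv.comp measurable_snd).mul
          (Complex.measurable_ofReal.comp measurable_fst))))
      exact h2.aestronglyMeasurable
    · simp only [hG, Function.uncurry_def]
      rw [norm_mul, norm_mul, norm_exp_vl, Complex.norm_exp]
      have e1 : (-ρ * (x.1 : ℂ)).re = -ρ.re * x.1 := by simp
      rw [e1]
      exact le_of_eq (by ring)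
  have hswap := integral_integral_swap hprod
  simp only [hG] at hswap
  rw [hswap]
  have e2 : ∀ τ : ℝ, ∫ v in Ioc p q, cexp (-ρ * v) * (Ψ (vl c τ) * cexp (vl c τ * v)) =
      cexp (-ρ * q) * (Ψ (vl c τ) / (vl c τ - ρ) * cexp (vl c τ * q)) -
      cexp (-ρ * p) * (Ψ (vl c τ) / (vl c τ - ρ) * cexp (vl c τ * p)) := by
    intro τ
    rw [← intervalIntegral.integral_of_le hpq]
    have e3 : ∀ v : ℝ, cexp (-ρ * v) * (Ψ (vl c τ) * cexp (vl c τ * v)) = Ψ (vl c τ) * cexp ((vl c τ - ρ) * v) := by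
      intro v
      rw [mul_left_comm, ← Complex.exp_add]
      congr 2
      ring
    simp_rw [e3]
    rw [intervalIntegral.integral_const_mul, integral_exp_mul_complex (line_ne' hρ τ)]
    have e4 : ∀ v : ℝ, cexp (-ρ * v) * (Ψ (vl c τ) / (vl c τ - ρ) * cexp (vl c τ * v)) =
        Ψ (vl c τ) / (vl c τ - ρ) * cexp ((vl c τ - ρ) * v) := by
      intro v
      rw [mul_left_comm, ← Complex.exp_add]
      congr 2
      ring
    rw [e4, e4]
    ring
  simp_rw [e2]
  rw [integral_sub ((hL.int_exp q).const_mul _) ((hL.int_exp p).const_mul _), integral_const_mul, integral_const_mul]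
  unfold H313.GK.Inv
  ring

/-- one more pole -/
theorem SepF_step {n : ℕ} {h k : ℝ → ℂ} (hh : SepF n h) (hc : Continuous h) {ρ : ℂ}
    (hk : ∀ p q : ℝ, p ≤ q → ∫ v in p..q, cexp (-ρ * v) * h v = cexp (-ρ * q) * k q - cexp (-ρ * p) * k p) :
    SepF (n + 1) k := by
  obtain ⟨u, v, hv, huv⟩ := hh
  have hk' : ∀ p q : ℝ, ∫ v in p..q, cexp (-ρ * v) * h v = cexp (-ρ * q) * k q - cexp (-ρ * p) * k p := by
    intro p q
    rcases le_total p q with hpq | hpq
    · exact hk p q hpq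
    · rw [intervalIntegral.integral_symm, hk q p hpq]
      ring
  refine ⟨Fin.snoc u k, Fin.snoc (fun i y => cexp (ρ * y) * ∫ w in (0:ℝ)..y, cexp (-ρ * w) * v i w) fun y => cexp (ρ * y),
    fun i => ?_, fun x y => ?_⟩
  · refine Fin.lastCases ?_ (fun i => ?_) i
    · rw [Fin.snoc_last]
      fun_prop
    · rw [Fin.snoc_castSucc]
      have h1 : Continuous fun w : ℝ => cexp (-ρ * w) * v i w := (by fun_prop : Continuous fun w : ℝ => cexp (-ρ * w)).mul (hv i)
      have h2 : Continuous fun y : ℝ => ∫ w in (0:ℝ)..y, cexp (-ρ * w) * v i w :=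
        intervalIntegral.continuous_primitive (fun a b => h1.intervalIntegrable a b) 0
      exact (by fun_prop : Continuous fun y : ℝ => cexp (ρ * y)).mul h2
  · rw [Fin.sum_univ_castSucc]
    simp only [Fin.snoc_last, Fin.snoc_castSucc]
    have e1 := hk' x (x + y)
    have e2 : ∫ w in x..(x + y), cexp (-ρ * w) * h w = ∑ i, u i x * (cexp (-ρ * x) * ∫ w in (0:ℝ)..y, cexp (-ρ * w) * v i w) := by
      have e3 : ∫ w in x..(x + y), cexp (-ρ * w) * h w = ∫ w in (0:ℝ)..y, cexp (-ρ * ((w + x : ℝ) : ℂ)) * h (w + x) := by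
        rw [intervalIntegral.integral_comp_add_right (fun w : ℝ => cexp (-ρ * w) * h w), zero_add, add_comm y x]
      rw [e3]
      have e4 : ∀ w : ℝ, cexp (-ρ * ((w + x : ℝ) : ℂ)) * h (w + x) =
          ∑ i, u i x * (cexp (-ρ * x) * (cexp (-ρ * w) * v i w)) := by
        intro w
        rw [add_comm w x, huv, Finset.mul_sum]
        refine Finset.sum_congr rfl fun i _ => ?_
        rw [← mul_assoc (cexp (-ρ * x)), ← Complex.exp_add]
        have : -ρ * ((x + w : ℝ) : ℂ) = -ρ * x + -ρ * w := by push_cast; ring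
        rw [this]
        ring
      simp_rw [e4]
      rw [intervalIntegral.integral_finsetSum]
      · refine Finset.sum_congr rfl fun i _ => ?_
        rw [intervalIntegral.integral_const_mul, intervalIntegral.integral_const_mul]
      · intro i _
        have h1 : Continuous fun w : ℝ => cexp (-ρ * w) * v i w := (by fun_prop : Continuous fun w : ℝ => cexp (-ρ * w)).mul (hv i)
        exact (continuous_const.mul (continuous_const.mul h1)).intervalIntegrable _ _
    rw [e2] at e1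
    have e5 : k (x + y) = cexp (ρ * ((x + y : ℝ) : ℂ)) * (cexp (-ρ * ((x + y : ℝ) : ℂ)) * k (x + y)) := by
      rw [← mul_assoc, ← Complex.exp_add]
      have : ρ * ((x + y : ℝ) : ℂ) + -ρ * ((x + y : ℝ) : ℂ) = 0 := by ring
      rw [this, Complex.exp_zero, one_mul]
    have e6 : cexp (-ρ * ((x + y : ℝ) : ℂ)) * k (x + y) =
        ∑ i, u i x * (cexp (-ρ * x) * ∫ w in (0:ℝ)..y, cexp (-ρ * w) * v i w) + cexp (-ρ * x) * k x := by
      rw [e1]; ring
    have e7 : cexp (ρ * ((x + y : ℝ) : ℂ)) * cexp (-ρ * x) = cexp (ρ * y) := by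
      rw [← Complex.exp_add]
      congr 1
      push_cast
      ring
    rw [e5, e6, mul_add, Finset.mul_sum]
    congr 1
    · refine Finset.sum_congr rfl fun i _ => ?_
      rw [← e7]
      ring
    · rw [← mul_assoc, e7]
      ring

/-- **the difference of two lines is separable** -/
theorem sep_lines {g : ℂ → ℂ} {σ c : ℝ} (hσc : σ ≤ c) (hg : SB g σ c) : ∀ (n : ℕ) (ρ : Fin n → ℂ) (_ : ∀ k, σ < (ρ k).re)
    (_ : ∀ k, (ρ k).re < c), (∃ B, LB (fun s => g s / ∏ k, (s - ρ k)) c B) ∧ (∃ B, LB (fun s => g s / ∏ k, (s - ρ k)) σ B) ∧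
      SepF n fun u => Inv (fun s => g s / ∏ k, (s - ρ k)) c u - Inv (fun s => g s / ∏ k, (s - ρ k)) σ u := by
  intro n
  induction n with
  | zero =>
    intro ρ _ _
    obtain ⟨C, hC⟩ := hg.lb
    obtain ⟨C', -, hb⟩ := hg.bd
    have e1 : (fun s => g s / ∏ k : Fin 0, (s - ρ k)) = g := by
      funext s
      simp
    rw [e1]
    refine ⟨⟨C, hC c hσc le_rfl⟩, ⟨C, hC σ le_rfl hσc⟩, fun i => i.elim0, fun i => i.elim0, fun i => i.elim0, fun x y => ?_⟩
    show H313.GK.Inv g c (x + y) - H313.GK.Inv g σ (x + y) = _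
    rw [inv_shift hσc hg.diff hb, sub_self]
    simp
  | succ n ih =>
    intro ρ h1 h2
    obtain ⟨⟨B1, hB1⟩, ⟨B2, hB2⟩, hS⟩ := ih (fun k => ρ k.castSucc) (fun k => h1 _) (fun k => h2 _)
    set Ψ : ℂ → ℂ := fun s => g s / ∏ k : Fin n, (s - ρ k.castSucc) with hΨ
    have e1 : (fun s => g s / ∏ k : Fin (n + 1), (s - ρ k)) = fun s => Ψ s / (s - ρ (Fin.last n)) := by
      funext s
      rw [Fin.prod_univ_castSucc, hΨ, div_mul_eq_div_div]
    rw [e1]
    have hne1 : (ρ (Fin.last n)).re ≠ c := (h2 _).ne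
    have hne2 : (ρ (Fin.last n)).re ≠ σ := (h1 _).ne'
    refine ⟨⟨_, LB_div hB1 hne1⟩, ⟨_, LB_div hB2 hne2⟩, ?_⟩
    refine SepF_step hS (hB1.inv_cont.sub hB2.inv_cont) (ρ := ρ (Fin.last n)) fun p q hpq => ?_
    have i1 : IntervalIntegrable (fun v : ℝ => cexp (-ρ (Fin.last n) * v) * Inv Ψ c v) volume p q :=
      ((by fun_prop : Continuous fun v : ℝ => cexp (-ρ (Fin.last n) * v)).mul hB1.inv_cont).intervalIntegrable _ _
    have i2 : IntervalIntegrable (fun v : ℝ => cexp (-ρ (Fin.last n) * v) * Inv Ψ σ v) volume p q :=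
      ((by fun_prop : Continuous fun v : ℝ => cexp (-ρ (Fin.last n) * v)).mul hB2.inv_cont).intervalIntegrable _ _
    simp_rw [mul_sub]
    rw [intervalIntegral.integral_sub i1 i2, inv_step hB1 hne1 hpq, inv_step hB2 hne2 hpq]
    ring

variable {a : ℕ → ℂ} {b B lam : ℝ}

theorem MM_inv (hl : 0 < lam) (c w : ℝ) : Inv (MM lam) c w = (gk lam w : ℂ) := by
  have hpi := Real.pi_pos
  have e1 : ∀ s, MM lam s = (Real.sqrt (2 * Real.pi * lam) : ℂ) * KG (Real.sqrt lam) s := by
    intro s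
    unfold MM KG
    rw [Real.sq_sqrt hl.le]
  have e2 : Inv (MM lam) c w = Inv (fun s => (Real.sqrt (2 * Real.pi * lam) : ℂ) * KG (Real.sqrt lam) s) c w :=
    Inv_congr (fun τ => e1 _) w
  rw [e2, Inv_cmul, KG_inv (Real.sqrt_pos.2 hl)]
  unfold gk
  rw [← Complex.ofReal_mul, Real.sq_sqrt hl.le, Real.sqrt_mul (by positivity)]
  have h1 : 0 < Real.sqrt (2 * Real.pi) := Real.sqrt_pos.2 (by positivity)
  have h2 : 0 < Real.sqrt lam := Real.sqrt_pos.2 hl
  congr 1
  rw [neg_div]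
  field_simp

/-- **inversion** -/
theorem fV_inv (hB : 0 ≤ B) (ha : ∀ n : ℕ, n ≠ 0 → ‖a n‖ ≤ B * (n : ℝ) ^ b) (hl : 0 < lam) {c : ℝ} (hc : b + 1 < c) (u : ℝ) :
    fV a lam u = Inv (fun s => MM lam s * LSeries a s) c u := by
  obtain ⟨M, hM, hMb⟩ : ∃ M : ℝ, 0 ≤ M ∧ ∀ τ : ℝ, ‖MM lam (vl c τ)‖ ≤ M * (1 + τ ^ 2)⁻¹ := by
    obtain ⟨K', hK', hKb'⟩ := poly_le_gauss (lam := lam) 2 hl
    refine ⟨Real.sqrt (2 * Real.pi * lam) * Real.exp (lam / 2 * c ^ 2) * K', by positivity, fun τ => ?_⟩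
    have h1 := hKb' τ
    have h2 : 1 + τ ^ 2 ≤ (1 + |τ|) ^ 2 := by nlinarith [abs_nonneg τ, sq_abs τ]
    have h3 : 0 < 1 + τ ^ 2 := by positivity
    rw [MM_norm, vl_re, vl_im, ← div_eq_mul_inv, le_div_iff₀ h3]
    calc Real.sqrt (2 * Real.pi * lam) * Real.exp (lam / 2 * (c ^ 2 - τ ^ 2)) * (1 + τ ^ 2)
        ≤ Real.sqrt (2 * Real.pi * lam) * Real.exp (lam / 2 * (c ^ 2 - τ ^ 2)) * (K' * Real.exp (lam / 2 * τ ^ 2)) :=
          mul_le_mul_of_nonneg_left (h2.trans h1) (by positivity)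
      _ = Real.sqrt (2 * Real.pi * lam) * (Real.exp (lam / 2 * (c ^ 2 - τ ^ 2)) * Real.exp (lam / 2 * τ ^ 2)) * K' := by ring
      _ = Real.sqrt (2 * Real.pi * lam) * Real.exp (lam / 2 * c ^ 2) * K' := by
          rw [← Real.exp_add]
          congr 3
          ring
  have hMM : LB (MM lam) c M := ⟨hM, (MM_diff lam).continuous.comp (vl_cont c), hMb⟩
  -- the terms
  have hF : ∀ n : ℕ, Integrable fun τ : ℝ => LSeries.term a (vl c τ) n * (MM lam (vl c τ) * cexp (vl c τ * u)) := by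
    intro n
    rcases eq_or_ne n 0 with rfl | hn
    · simp [LSeries.term_zero]
    · have e1 : ∀ τ : ℝ, LSeries.term a (vl c τ) n * (MM lam (vl c τ) * cexp (vl c τ * u)) =
          a n * (MM lam (vl c τ) * cexp (vl c τ * ((u - Real.log n : ℝ) : ℂ))) := by
        intro τ
        have hnc : (n : ℂ) ≠ 0 := by exact_mod_cast hn
        rw [LSeries.term_of_ne_zero hn, Complex.cpow_def_of_ne_zero hnc, div_mul_eq_mul_div, div_eq_iff (Complex.exp_ne_zero _),
          mul_assoc, mul_assoc, ← Complex.exp_add]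
        congr 3
        rw [← Complex.natCast_log]
        push_cast
        ring
      simp_rw [e1]
      exact (hMM.int_exp _).const_mul _
  have hFI : ∀ n : ℕ, ((1 / (2 * Real.pi) : ℝ) : ℂ) * ∫ τ : ℝ, LSeries.term a (vl c τ) n * (MM lam (vl c τ) * cexp (vl c τ * u)) =
      tV a lam n u := by
    intro n
    rcases eq_or_ne n 0 with rfl | hn
    · simp [LSeries.term_zero, tV]
    · have e1 : ∀ τ : ℝ, LSeries.term a (vl c τ) n * (MM lam (vl c τ) * cexp (vl c τ * u)) =
          a n * (MM lam (vl c τ) * cexp (vl c τ * ((u - Real.log n : ℝ) : ℂ))) := by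
        intro τ
        have hnc : (n : ℂ) ≠ 0 := by exact_mod_cast hn
        rw [LSeries.term_of_ne_zero hn, Complex.cpow_def_of_ne_zero hnc, div_mul_eq_mul_div, div_eq_iff (Complex.exp_ne_zero _),
          mul_assoc, mul_assoc, ← Complex.exp_add]
        congr 3
        rw [← Complex.natCast_log]
        push_cast
        ring
      simp_rw [e1]
      rw [integral_const_mul]
      have e2 := MM_inv hl c (u - Real.log n)
      unfold H313.GK.Inv at e2
      unfold tV
      rw [if_neg hn, ← e2]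
      ring
  have hsum : Summable fun n : ℕ => ∫ τ : ℝ, ‖LSeries.term a (vl c τ) n * (MM lam (vl c τ) * cexp (vl c τ * u))‖ := by
    set J : ℝ := ∫ τ : ℝ, ‖MM lam (vl c τ) * cexp (vl c τ * u)‖ with hJ
    have hJ0 : 0 ≤ J := integral_nonneg fun _ => norm_nonneg _
    refine Summable.of_nonneg_of_le (fun n => integral_nonneg fun _ => norm_nonneg _) (fun n => ?_)
      ((pw_sum (b := b) hc).mul_left (B * J))
    have hterm : ∀ τ : ℝ, ‖LSeries.term a (vl c τ) n‖ ≤ B * (n : ℝ) ^ (b - c) := by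
      intro τ
      rcases eq_or_ne n 0 with rfl | hn
      · rw [LSeries.term_zero, norm_zero]
        positivity
      · have hn0 : (0:ℝ) < n := by exact_mod_cast Nat.pos_of_ne_zero hn
        rw [LSeries.norm_term_eq, if_neg hn, vl_re, Real.rpow_sub hn0, ← mul_div_assoc]
        exact div_le_div_of_nonneg_right (ha n hn) (by positivity)
    calc ∫ τ : ℝ, ‖LSeries.term a (vl c τ) n * (MM lam (vl c τ) * cexp (vl c τ * u))‖
        ≤ ∫ τ : ℝ, B * (n : ℝ) ^ (b - c) * ‖MM lam (vl c τ) * cexp (vl c τ * u)‖ := by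
          refine integral_mono_of_nonneg (ae_of_all _ fun _ => norm_nonneg _) ((hMM.int_exp u).norm.const_mul _)
            (ae_of_all _ fun τ => ?_)
          simp only
          rw [norm_mul]
          exact mul_le_mul_of_nonneg_right (hterm τ) (norm_nonneg _)
      _ = B * (n : ℝ) ^ (b - c) * J := by rw [integral_const_mul]
      _ = _ := by ring
  have h1 := hasSum_integral_of_summable_integral_norm hF hsum
  unfold H313.GK.Inv
  have e1 : ∀ τ : ℝ, MM lam (vl c τ) * LSeries a (vl c τ) * cexp (vl c τ * u) =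
      ∑' n : ℕ, LSeries.term a (vl c τ) n * (MM lam (vl c τ) * cexp (vl c τ * u)) := by
    intro τ
    rw [tsum_mul_right]
    unfold LSeries
    ring
  simp_rw [e1]
  rw [← h1.tsum_eq, ← tsum_mul_left]
  unfold fV
  exact tsum_congr fun n => (hFI n).symm

end

end Pool.Agent.H480.K
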