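import Pool.Agent.H480.N2

/-!
Hadamard determinants of smoothed sums.
-/

open Complex MeasureTheory Filter Topology Set

set_option linter.unusedSectionVars false

namespace Pool.Agent.H480.K

open Pool.Agent.H480.G
open H313.GK

noncomputable section

variable {r : ℕ} {a : ℕ → ℂ} {b B lam : ℝ}

/-- on `[1, A] × [1, A']` the function `S (X x y)` is within `X ^ β`, everywhere, of a sum of `r` products
`u_i (x) v_i (y)` -/
def NearS (S : ℝ → ℂ) (A A' : ℝ) (r : ℕ) (β X : ℝ) : Prop :=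
  ∃ u v : Fin r → ℝ → ℂ, ∀ x ∈ Icc 1 A, ∀ y ∈ Icc 1 A', ‖S (X * x * y) - ∑ i, u i x * v i y‖ ≤ X ^ β

/-- **meromorphic continuation implies approximate rank in the sup norm** -/
theorem sup_of_mero (hB : 0 ≤ B) (ha : ∀ n : ℕ, n ≠ 0 → ‖a n‖ ≤ B * (n : ℝ) ^ b) {A A' : ℝ} (hA : 1 < A)
    (hA' : 1 < A') {δ : EReal} {ρ : Fin r → ℂ} {g : ℂ → ℂ} {c₀ C : ℝ} (hl : 0 < lam) (hC : 2 * C < lam)
    (hρ : ∀ j, δ < ((ρ j).re : EReal)) (hg : ∀ s : ℂ, δ < (s.re : EReal) → DifferentiableAt ℂ g s)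
    (hform : ∀ s : ℂ, c₀ < s.re → g s = (∏ j, (s - ρ j)) * LSeries a s) (hgr : Gr δ C g) {β : ℝ}
    (hβ : δ < (β : EReal)) : ∀ᶠ X : ℝ in atTop, NearS (VV a lam) A A' r β X := by
  obtain ⟨σ, h1, h2, h3⟩ := exists_below hβ ρ hρ
  have hs0 : 0 ≤ ∑ k, ‖ρ k‖ := Finset.sum_nonneg fun _ _ => norm_nonneg _
  set c : ℝ := max (max (b + 1) c₀) (∑ k, ‖ρ k‖) + |σ| + 1 with hc
  have hm3 : ∑ k, ‖ρ k‖ ≤ max (max (b + 1) c₀) (∑ k, ‖ρ k‖) := le_max_right _ _
  have hm1 : b + 1 ≤ max (max (b + 1) c₀) (∑ k, ‖ρ k‖) := (le_max_left _ _).trans (le_max_left _ _)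
  have hm2 : c₀ ≤ max (max (b + 1) c₀) (∑ k, ‖ρ k‖) := (le_max_right _ _).trans (le_max_left _ _)
  have hab := abs_nonneg σ
  have hσc : σ ≤ c := by have := le_abs_self σ; linarith
  have hbc : b + 1 < c := by linarith
  have hc₀c : c₀ < c := by linarith
  have hρc : ∀ k, (ρ k).re < c := by
    intro k
    have e1 := Complex.re_le_norm (ρ k)
    have e2 := Finset.single_le_sum (f := fun k => ‖ρ k‖) (fun _ _ => norm_nonneg _) (Finset.mem_univ k)
    linarith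
  -- the strip bound
  have hSB : SB (fun s => MM lam s * g s) σ c := by
    refine ⟨fun s e1 _ => ((MM_diff lam s).mul (hg s (h1.trans_le (by exact_mod_cast e1)))), ?_⟩
    obtain ⟨K, hK⟩ := hgr σ c h1
    set κ : ℝ := lam / 2 - C with hκ
    have hκ0 : 0 < κ := by rw [hκ]; linarith
    obtain ⟨K', hK', hKb'⟩ := poly_le_gauss (lam := 2 * κ) 2 (by linarith)
    set M : ℝ := Real.exp (lam / 2 * (|σ| + |c|) ^ 2) with hM
    refine ⟨Real.sqrt (2 * Real.pi * lam) * |K| * (M * K'), by positivity, fun s e1 e2 => ?_⟩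
    have f2 := hK s e1 e2
    have f3 := hKb' s.im
    have f4 : s.re ^ 2 ≤ (|σ| + |c|) ^ 2 := by
      rw [← sq_abs s.re]
      refine pow_le_pow_left₀ (abs_nonneg _) ?_ 2
      rw [abs_le]
      constructor
      · linarith [neg_abs_le σ, abs_nonneg c]
      · linarith [le_abs_self c, abs_nonneg σ]
    have f5 : Real.exp (-(κ * s.im ^ 2)) ≤ K' * (1 + s.im ^ 2)⁻¹ := by
      have g0 : 1 + s.im ^ 2 ≤ (1 + |s.im|) ^ 2 := by nlinarith [abs_nonneg s.im, sq_abs s.im]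
      rw [← div_eq_mul_inv, le_div_iff₀ (by positivity)]
      calc Real.exp (-(κ * s.im ^ 2)) * (1 + s.im ^ 2) ≤ Real.exp (-(κ * s.im ^ 2)) * (K' * Real.exp (2 * κ / 2 * s.im ^ 2)) :=
            mul_le_mul_of_nonneg_left (g0.trans f3) (Real.exp_pos _).le
        _ = K' * (Real.exp (-(κ * s.im ^ 2)) * Real.exp (2 * κ / 2 * s.im ^ 2)) := by ring
        _ = K' := by
            rw [← Real.exp_add]
            have : -(κ * s.im ^ 2) + 2 * κ / 2 * s.im ^ 2 = 0 := by ring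
            rw [this, Real.exp_zero, mul_one]
    have f6 : Real.exp (lam / 2 * (s.re ^ 2 - s.im ^ 2)) * Real.exp (C * s.im ^ 2) ≤ M * Real.exp (-(κ * s.im ^ 2)) := by
      rw [hM, ← Real.exp_add, ← Real.exp_add]
      refine Real.exp_le_exp.2 ?_
      rw [hκ]
      nlinarith
    rw [norm_mul, MM_norm]
    calc Real.sqrt (2 * Real.pi * lam) * Real.exp (lam / 2 * (s.re ^ 2 - s.im ^ 2)) * ‖g s‖
        ≤ Real.sqrt (2 * Real.pi * lam) * Real.exp (lam / 2 * (s.re ^ 2 - s.im ^ 2)) * (|K| * Real.exp (C * s.im ^ 2)) := by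
          refine mul_le_mul_of_nonneg_left (f2.trans ?_) (by positivity)
          exact mul_le_mul_of_nonneg_right (le_abs_self _) (Real.exp_pos _).le
      _ = Real.sqrt (2 * Real.pi * lam) * |K| * (Real.exp (lam / 2 * (s.re ^ 2 - s.im ^ 2)) * Real.exp (C * s.im ^ 2)) := by ring
      _ ≤ Real.sqrt (2 * Real.pi * lam) * |K| * (M * (K' * (1 + s.im ^ 2)⁻¹)) :=
          mul_le_mul_of_nonneg_left (f6.trans (mul_le_mul_of_nonneg_left f5 (Real.exp_pos _).le)) (by positivity)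
      _ = _ := by ring
  obtain ⟨-, ⟨B2, hB2⟩, u, v, -, huv⟩ := sep_lines hσc hSB r ρ h3 hρc
  have hinv : ∀ w : ℝ, fV a lam w = Inv (fun s => MM lam s * g s / ∏ k, (s - ρ k)) c w := by
    intro w
    rw [fV_inv hB ha hl hbc w]
    refine Inv_congr (fun τ => ?_) w
    have hne : ∏ k, (vl c τ - ρ k) ≠ 0 := Finset.prod_ne_zero_iff.2 fun k _ => line_ne' (hρc k).ne τ
    rw [hform _ (by rw [vl_re]; exact hc₀c), eq_div_iff hne]
    ring
  have hB20 := hB2.nn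
  set K0 : ℝ := B2 * Real.exp (|σ| * (Real.log A + Real.log A')) with hK0
  filter_upwards [(tendsto_rpow_atTop (y := β - σ) (by linarith)).eventually_ge_atTop K0,
    eventually_ge_atTop 1] with X hX hX1
  have hX0 : 0 < X := by linarith
  refine ⟨fun i x => u i (Real.log X + Real.log x), fun i y => v i (Real.log y), fun x hx y hy => ?_⟩
  have hx1 : 1 ≤ x := hx.1
  have hy1 : 1 ≤ y := hy.1
  have hx0 : 0 < x := by linarith
  have hy0 : 0 < y := by linarith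
  have hlx := Real.log_nonneg hx1
  have hly := Real.log_nonneg hy1
  have e1 : VV a lam (X * x * y) = fV a lam ((Real.log X + Real.log x) + Real.log y) := by
    rw [← VV_exp, Real.exp_add, Real.exp_add, Real.exp_log hX0, Real.exp_log hx0, Real.exp_log hy0]
  have e2 := huv (Real.log X + Real.log x) (Real.log y)
  rw [← e2, e1, hinv]
  have e3 : ∀ p q : ℂ, p - (p - q) = q := fun p q => by ring
  rw [e3]
  refine (hB2.inv_le _).trans ?_
  have e4 : Real.exp (σ * ((Real.log X + Real.log x) + Real.log y)) ≤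
      X ^ σ * Real.exp (|σ| * (Real.log A + Real.log A')) := by
    rw [Real.rpow_def_of_pos hX0, ← Real.exp_add]
    refine Real.exp_le_exp.2 ?_
    have e5 := Real.log_le_log hx0 hx.2
    have e6 := Real.log_le_log hy0 hy.2
    have e7 : σ * (Real.log x + Real.log y) ≤ |σ| * (Real.log A + Real.log A') := by
      calc σ * (Real.log x + Real.log y) ≤ |σ| * (Real.log x + Real.log y) :=
            mul_le_mul_of_nonneg_right (le_abs_self _) (by linarith)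
        _ ≤ _ := mul_le_mul_of_nonneg_left (by linarith) hab
    nlinarith
  calc B2 * Real.exp (σ * ((Real.log X + Real.log x) + Real.log y))
      ≤ B2 * (X ^ σ * Real.exp (|σ| * (Real.log A + Real.log A'))) := mul_le_mul_of_nonneg_left e4 hB20
    _ = K0 * X ^ σ := by rw [hK0]; ring
    _ ≤ X ^ (β - σ) * X ^ σ := mul_le_mul_of_nonneg_right hX (by positivity)
    _ = X ^ β := by rw [← Real.rpow_add hX0]; congr 1; ring

/-- the kernel on the rectangle -/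
def Kn (V : ℝ → ℂ) (A A' X : ℝ) : Icc (1:ℝ) A → Icc (1:ℝ) A' → ℂ := fun x y => V (X * x * y)

/-- the largest `k × k` determinant -/
def DD (V : ℝ → ℂ) (A A' : ℝ) (k : ℕ) (X : ℝ) : ℝ := Mx (Kn V A A' X) k

theorem Kn_bd (hB : 0 ≤ B) (ha : ∀ n : ℕ, n ≠ 0 → ‖a n‖ ≤ B * (n : ℝ) ^ b) (hl : 0 < lam) {A A' : ℝ} (hA : 1 < A)
    (hA' : 1 < A') : ∃ M κ : ℝ, 0 ≤ M ∧ ∀ X : ℝ, 1 ≤ X → ∀ x y, ‖Kn (VV a lam) A A' X x y‖ ≤ M * X ^ κ := by
  obtain ⟨C, hC, hCb⟩ := fV_bd hB ha hl (κ := |b| + 2) (by have := le_abs_self b; linarith)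
  refine ⟨C * Real.exp ((|b| + 2) * (Real.log A + Real.log A')), |b| + 2, by positivity, fun X hX x y => ?_⟩
  obtain ⟨x, hx⟩ := x
  obtain ⟨y, hy⟩ := y
  have hX0 : 0 < X := by linarith
  have hx1 : 1 ≤ x := hx.1
  have hy1 : 1 ≤ y := hy.1
  have hx0 : 0 < x := by linarith
  have hy0 : 0 < y := by linarith
  have e1 : Kn (VV a lam) A A' X ⟨x, hx⟩ ⟨y, hy⟩ = fV a lam ((Real.log X + Real.log x) + Real.log y) := by
    unfold Kn
    rw [← VV_exp, Real.exp_add, Real.exp_add, Real.exp_log hX0, Real.exp_log hx0, Real.exp_log hy0]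
  rw [e1]
  refine (hCb _).trans ?_
  rw [mul_assoc]
  refine mul_le_mul_of_nonneg_left ?_ hC
  rw [Real.rpow_def_of_pos hX0, ← Real.exp_add]
  refine Real.exp_le_exp.2 ?_
  have e5 := Real.log_le_log hx0 hx.2
  have e6 := Real.log_le_log hy0 hy.2
  have e7 := abs_nonneg b
  nlinarith [mul_le_mul_of_nonneg_left (add_le_add e5 e6) (show 0 ≤ |b| + 2 by linarith)]

/-- sup norm approximations make the quotients of the determinants small -/
theorem quot_of_sup {V : ℝ → ℂ} {A A' : ℝ} (hA : 1 < A) (hA' : 1 < A')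
    (hV : ∀ᶠ X : ℝ in atTop, ∃ M : ℝ, ∀ x y, ‖Kn V A A' X x y‖ ≤ M) {β β' : ℝ} (hβ : β < β')
    (h : ∀ᶠ X : ℝ in atTop, NearS V A A' r β X) :
    ∀ᶠ X : ℝ in atTop, DD V A A' (r + 1) X ≤ X ^ β' * DD V A A' r X := by
  haveI : Nonempty (Icc (1:ℝ) A) := ⟨⟨1, le_rfl, hA.le⟩⟩
  haveI : Nonempty (Icc (1:ℝ) A') := ⟨⟨1, le_rfl, hA'.le⟩⟩
  filter_upwards [hV, h, (tendsto_rpow_atTop (y := β' - β) (by linarith)).eventually_ge_atTop (((r:ℝ) + 1) ^ 2),
    eventually_gt_atTop 0] with X h1 h2 h3 hX0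
  obtain ⟨M, hM⟩ := h1
  obtain ⟨u, v, huv⟩ := h2
  have h4 := minor_small (K := Kn V A A' X) hM (r := r) (ε := X ^ β) (u := fun i x => u i x) (v := fun i y => v i y)
    (fun x y => huv x x.2 y y.2)
  unfold DD
  refine h4.trans (mul_le_mul_of_nonneg_right ?_ (Mx_nonneg r))
  calc ((r:ℝ) + 1) ^ 2 * X ^ β ≤ X ^ (β' - β) * X ^ β := mul_le_mul_of_nonneg_right h3 (by positivity)
    _ = X ^ β' := by rw [← Real.rpow_add hX0]; congr 1; ring

/-- the kernel is near a kernel of rank `k` if the quotient of the determinants is small -/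
theorem near_of_quot {V : ℝ → ℂ} (hVc : ContinuousOn V (Ioi 0)) {A A' : ℝ} (hA : 1 < A) (hA' : 1 < A') {X : ℝ} (hX : 0 < X)
    {M : ℝ} (hM : ∀ x y, ‖Kn V A A' X x y‖ ≤ M) {ε : ℝ} (hε : 0 ≤ ε)
    (h : DD V A A' (r + 1) X ≤ ε * DD V A A' r X) {β' : ℝ} (hβ' : 2 * ε * (A * A') ≤ X ^ β') : Near V A A' r β' X := by
  haveI : Nonempty (Icc (1:ℝ) A) := ⟨⟨1, le_rfl, hA.le⟩⟩
  haveI : Nonempty (Icc (1:ℝ) A') := ⟨⟨1, le_rfl, hA'.le⟩⟩
  obtain ⟨k, hk, x, y, c, hc⟩ := approx_of_minors (K := Kn V A A' X) hM hε h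
  refine Near_mono hk ⟨fun j t => ∑ i, V (X * t * y i) * c i j, fun j t => V (X * x j * t), fun j => ?_, fun j => ?_, ?_⟩
  · refine ContinuousOn.integrableOn_Icc ?_
    refine continuousOn_finsetSum _ fun i _ => ContinuousOn.mul ?_ continuousOn_const
    refine hVc.comp (by fun_prop) fun t ht => ?_
    have h1 : 0 < (y i : ℝ) := lt_of_lt_of_le one_pos (y i).2.1
    have h2 : 0 < t := lt_of_lt_of_le one_pos ht.1
    exact mul_pos (mul_pos hX h2) h1
  · refine ContinuousOn.integrableOn_Icc ?_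
    refine hVc.comp (by fun_prop) fun t ht => ?_
    have h1 : 0 < (x j : ℝ) := lt_of_lt_of_le one_pos (x j).2.1
    have h2 : 0 < t := lt_of_lt_of_le one_pos ht.1
    exact mul_pos (mul_pos hX h1) h2
  · have h5 : ∀ z ∈ Icc 1 A ×ˢ Icc 1 A', ‖‖V (X * z.1 * z.2) - ∑ j, (∑ i, V (X * z.1 * y i) * c i j) * V (X * x j * z.2)‖‖ ≤ 2 * ε := by
      intro z hz
      rw [norm_norm]
      exact hc ⟨z.1, hz.1⟩ ⟨z.2, hz.2⟩
    have h6 := norm_setIntegral_le_of_norm_le_const (μ := (volume : Measure (ℝ × ℝ))) (s := Icc 1 A ×ˢ Icc 1 A')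
      (by rw [Measure.volume_eq_prod, Measure.prod_prod]; simp; exact ENNReal.mul_lt_top ENNReal.ofReal_lt_top ENNReal.ofReal_lt_top) h5
    refine (le_abs_self _).trans ?_
    rw [← Real.norm_eq_abs]
    refine h6.trans (le_trans ?_ hβ')
    refine mul_le_mul_of_nonneg_left ?_ (by positivity)
    rw [measureReal_def, Measure.volume_eq_prod, Measure.prod_prod, Real.volume_Icc, Real.volume_Icc, ENNReal.toReal_mul,
      ENNReal.toReal_ofReal (by linarith), ENNReal.toReal_ofReal (by linarith)]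
    nlinarith

theorem VV_contOn (hB : 0 ≤ B) (ha : ∀ n : ℕ, n ≠ 0 → ‖a n‖ ≤ B * (n : ℝ) ^ b) (hl : 0 < lam) : ContinuousOn (VV a lam) (Ioi 0) := by
  have h1 : ContinuousOn (fun x : ℝ => fV a lam (Real.log x)) (Ioi 0) :=
    (fV_cont hB ha hl).comp_continuousOn (Real.continuousOn_log.mono fun x hx => (ne_of_gt hx : x ≠ 0))
  exact h1.congr fun x hx => VV_eq a lam (ne_of_gt hx)

theorem quot_near (hB : 0 ≤ B) (ha : ∀ n : ℕ, n ≠ 0 → ‖a n‖ ≤ B * (n : ℝ) ^ b) (hl : 0 < lam) {A A' : ℝ} (hA : 1 < A)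
    (hA' : 1 < A') {β β' : ℝ} (hβ : β < β')
    (h : ∀ᶠ X : ℝ in atTop, DD (VV a lam) A A' (r + 1) X ≤ X ^ β * DD (VV a lam) A A' r X) :
    ∀ᶠ X : ℝ in atTop, Near (VV a lam) A A' r β' X := by
  obtain ⟨M, κ, hM, hMb⟩ := Kn_bd hB ha hl hA hA'
  filter_upwards [h, (tendsto_rpow_atTop (y := β' - β) (by linarith)).eventually_ge_atTop (2 * (A * A')),
    eventually_ge_atTop 1] with X h1 h2 h3
  have hX0 : 0 < X := by linarith
  refine near_of_quot (VV_contOn hB ha hl) hA hA' hX0 (hMb X h3) (ε := X ^ β) (by positivity) h1 ?_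
  calc 2 * X ^ β * (A * A') = (2 * (A * A')) * X ^ β := by ring
    _ ≤ X ^ (β' - β) * X ^ β := mul_le_mul_of_nonneg_right h2 (by positivity)
    _ = X ^ β' := by rw [← Real.rpow_add hX0]; congr 1; ring

/-- **Hadamard's theorem for Dirichlet series** -/
theorem hada_tfae (hB : 0 ≤ B) (ha : ∀ n : ℕ, n ≠ 0 → ‖a n‖ ≤ B * (n : ℝ) ^ b) {A A' : ℝ} (hA : 1 < A)
    (hA' : 1 < A') {δ : EReal} (hδ : δ < ⊤) (r : ℕ) :
    List.TFAE [∃ ρ g, Cont a δ r ρ g ∧ ∃ C : ℝ, Gr δ C g,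
      ∃ lam₀ : ℝ, ∀ lam : ℝ, lam₀ < lam → ∀ β : ℝ, δ < (β : EReal) → ∀ᶠ X : ℝ in atTop,
        DD (VV a lam) A A' (r + 1) X ≤ X ^ β * DD (VV a lam) A A' r X,
      ∃ lam : ℝ, 0 < lam ∧ ∀ β : ℝ, δ < (β : EReal) → ∀ᶠ X : ℝ in atTop,
        DD (VV a lam) A A' (r + 1) X ≤ X ^ β * DD (VV a lam) A A' r X] := by
  tfae_have 1 → 2 := by
    rintro ⟨ρ, g, h, C, hC⟩
    obtain ⟨c, hc⟩ := h.eq
    refine ⟨max 0 (2 * C), fun lam hl β hβ => ?_⟩
    have hl0 : 0 < lam := (le_max_left _ _).trans_lt hl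
    obtain ⟨β', hβ1, hβ2⟩ := EReal.lt_iff_exists_real_btwn.1 hβ
    have hβ2' : β' < β := by exact_mod_cast hβ2
    obtain ⟨M, κ, hM, hMb⟩ := Kn_bd hB ha hl0 hA hA'
    refine quot_of_sup hA hA' ?_ hβ2' (sup_of_mero hB ha hA hA' hl0 ((le_max_right _ _).trans_lt hl) h.poles h.holo hc hC hβ1)
    filter_upwards [eventually_ge_atTop 1] with X hX
    exact ⟨_, hMb X hX⟩
  tfae_have 2 → 3 := by
    rintro ⟨lam₀, h⟩
    refine ⟨max lam₀ 0 + 1, by have := le_max_right lam₀ 0; linarith, h _ ?_⟩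
    have := le_max_left lam₀ 0
    linarith
  tfae_have 3 → 1 := by
    rintro ⟨lam, hl, h⟩
    have H := (mero_tfae hB ha hA hA' hδ r).out 0 2
    refine H.2 ⟨lam, hl, fun β hβ => ?_⟩
    obtain ⟨β', hβ1, hβ2⟩ := EReal.lt_iff_exists_real_btwn.1 hβ
    exact quot_near hB ha hl hA hA' (show β' < β by exact_mod_cast hβ2) (h β' hβ1)
  tfae_finish

end

end Pool.Agent.H480.K
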