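import Pool.Agent.H480.N3

/-!
Growth of the determinants and finitely many poles to the right of every line.
-/

open Complex MeasureTheory Filter Topology Set

set_option linter.unusedSectionVars false

namespace Pool.Agent.H480.K

noncomputable section

variable {r : ℕ} {a : ℕ → ℂ} {b B lam : ℝ}

theorem NearS_mono {S : ℝ → ℂ} {A A' β X : ℝ} {n r : ℕ} (hn : n ≤ r) (h : NearS S A A' n β X) : NearS S A A' r β X := by
  obtain ⟨k, rfl⟩ := Nat.exists_eq_add_of_le hn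
  obtain ⟨u, v, hle⟩ := h
  refine ⟨Fin.append u fun _ _ => 0, Fin.append v fun _ _ => 0, fun x hx y hy => ?_⟩
  rw [Fin.sum_univ_add]
  simp only [Fin.append_left, Fin.append_right, mul_zero, Finset.sum_const_zero, add_zero]
  exact hle x hx y hy

theorem DD_zero {V : ℝ → ℂ} {A A' X : ℝ} (hA : 1 < A) (hA' : 1 < A') {M : ℝ} (hM : ∀ x y, ‖Kn V A A' X x y‖ ≤ M) :
    DD V A A' 0 X = 1 := by
  haveI : Nonempty (Icc (1:ℝ) A) := ⟨⟨1, le_rfl, hA.le⟩⟩
  haveI : Nonempty (Icc (1:ℝ) A') := ⟨⟨1, le_rfl, hA'.le⟩⟩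
  exact Mx_zero hM

theorem DD_nonneg {V : ℝ → ℂ} {A A' X : ℝ} (k : ℕ) : 0 ≤ DD V A A' k X := Real.iSup_nonneg fun _ => norm_nonneg _

/-- a small determinant has a small quotient -/
theorem exists_quot {V : ℝ → ℂ} {A A' X β : ℝ} (hX : 0 < X) (h0 : DD V A A' 0 X = 1) (h : DD V A A' (r + 1) X ≤ X ^ (β * (r + 1))) :
    ∃ k ≤ r, DD V A A' (k + 1) X ≤ X ^ β * DD V A A' k X := by
  by_contra hcon
  push Not at hcon
  have h1 : ∀ k ≤ r, X ^ (β * k) ≤ DD V A A' k X := by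
    intro k
    induction k with
    | zero =>
      intro _
      rw [h0]
      simp
    | succ k ih =>
      intro hk
      have e1 := ih (by omega)
      have e2 := hcon k (by omega)
      calc X ^ (β * ((k + 1 : ℕ) : ℝ)) = X ^ β * X ^ (β * k) := by
            rw [← Real.rpow_add hX]; congr 1; push_cast; ring
        _ ≤ X ^ β * DD V A A' k X := mul_le_mul_of_nonneg_left e1 (by positivity)
        _ ≤ _ := e2.le
  have e1 := h1 r le_rfl
  have e2 := hcon r le_rfl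
  have e3 : X ^ (β * (r + 1)) = X ^ β * X ^ (β * r) := by
    rw [← Real.rpow_add hX]; congr 1; ring
  have e4 : X ^ β * X ^ (β * r) ≤ X ^ β * DD V A A' r X := mul_le_mul_of_nonneg_left e1 (by positivity)
  linarith

theorem grow {V : ℝ → ℂ} {A A' : ℝ} (hA : 1 < A) (hA' : 1 < A')
    (hV : ∀ᶠ X : ℝ in atTop, ∃ M : ℝ, ∀ x y, ‖Kn V A A' X x y‖ ≤ M) {β β' : ℝ} (hβ : β < β') {r₀ : ℕ}
    (h : ∀ᶠ X : ℝ in atTop, NearS V A A' r₀ β X) (n : ℕ) :
    ∀ᶠ X : ℝ in atTop, DD V A A' (r₀ + n) X ≤ X ^ (β' * n) * DD V A A' r₀ X := by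
  induction n with
  | zero => exact Eventually.of_forall fun X => by simp
  | succ n ih =>
    have h1 := quot_of_sup hA hA' hV hβ (h.mono fun X hX => NearS_mono (Nat.le_add_right r₀ n) hX)
    filter_upwards [ih, h1, eventually_gt_atTop 0] with X h2 h3 hX
    have e1 : X ^ (β' * ((n + 1 : ℕ) : ℝ)) = X ^ β' * X ^ (β' * n) := by
      rw [← Real.rpow_add hX]; congr 1; push_cast; ring
    rw [e1, mul_assoc]
    exact h3.trans (mul_le_mul_of_nonneg_left h2 (by positivity))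

/-- **Borel's theorem for Dirichlet series** -/
theorem borel_tfae (hB : 0 ≤ B) (ha : ∀ n : ℕ, n ≠ 0 → ‖a n‖ ≤ B * (n : ℝ) ^ b) {A A' : ℝ} (hA : 1 < A)
    (hA' : 1 < A') {δ : EReal} (hδ : δ < ⊤) :
    List.TFAE [∃ C : ℝ, ∀ δ' : ℝ, δ < (δ' : EReal) → ∃ r ρ g, Cont a δ' r ρ g ∧ Gr δ' C g,
      ∃ lam₀ : ℝ, ∀ lam : ℝ, lam₀ < lam → ∀ β : ℝ, δ < (β : EReal) → ∀ᶠ r : ℕ in atTop, ∀ᶠ X : ℝ in atTop,
        DD (VV a lam) A A' r X ≤ X ^ (β * r),
      ∃ lam : ℝ, 0 < lam ∧ ∀ β : ℝ, δ < (β : EReal) → ∃ r : ℕ, r ≠ 0 ∧ ∀ᶠ X : ℝ in atTop,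
        DD (VV a lam) A A' r X ≤ X ^ (β * r)] := by
  tfae_have 1 → 2 := by
    rintro ⟨C, h⟩
    refine ⟨max 0 (2 * C), fun lam hl β hβ => ?_⟩
    have hl0 : 0 < lam := (le_max_left _ _).trans_lt hl
    obtain ⟨δ', hδ1, hδ2⟩ := EReal.lt_iff_exists_real_btwn.1 hβ
    have hδ2' : δ' < β := by exact_mod_cast hδ2
    obtain ⟨r₀, ρ, g, hc, hg⟩ := h δ' hδ1
    obtain ⟨c, hc'⟩ := hc.eq
    set β₁ : ℝ := δ' + (β - δ') / 3 with hβ₁
    set β₂ : ℝ := δ' + 2 * (β - δ') / 3 with hβ₂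
    have k1 : δ' < β₁ := by rw [hβ₁]; linarith
    have k2 : β₁ < β₂ := by rw [hβ₁, hβ₂]; linarith
    have k3 : β₂ < β := by rw [hβ₂]; linarith
    obtain ⟨M, κ, hM, hMb⟩ := Kn_bd hB ha hl0 hA hA'
    have hV : ∀ᶠ X : ℝ in atTop, ∃ M : ℝ, ∀ x y, ‖Kn (VV a lam) A A' X x y‖ ≤ M := by
      filter_upwards [eventually_ge_atTop 1] with X hX
      exact ⟨_, hMb X hX⟩
    have hS := sup_of_mero hB ha hA hA' hl0 ((le_max_right _ _).trans_lt hl) hc.poles hc.holo hc' hg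
      (show (δ' : EReal) < (β₁ : EReal) by exact_mod_cast k1)
    have hgr := grow hA hA' hV k2 hS
    have hbound : ∀ X : ℝ, 1 ≤ X → DD (VV a lam) A A' r₀ X ≤ r₀.factorial * (M * X ^ κ) ^ r₀ := by
      intro X hX
      haveI : Nonempty (Icc (1:ℝ) A) := ⟨⟨1, le_rfl, hA.le⟩⟩
      haveI : Nonempty (Icc (1:ℝ) A') := ⟨⟨1, le_rfl, hA'.le⟩⟩
      exact ciSup_le fun p => mi_le (hMb X hX) _ _
    obtain ⟨n₀, hn₀⟩ := exists_nat_ge ((κ * r₀ + 1 - β * r₀) / (β - β₂))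
    filter_upwards [eventually_ge_atTop (r₀ + n₀)] with r hr
    obtain ⟨n, rfl⟩ := Nat.exists_eq_add_of_le (show r₀ ≤ r by omega)
    have hn : (n₀ : ℝ) ≤ n := by exact_mod_cast (show n₀ ≤ n by omega)
    filter_upwards [hgr n, eventually_ge_atTop 1, eventually_ge_atTop (r₀.factorial * M ^ r₀)] with X h1 h2 h3
    have hX0 : 0 < X := by linarith
    have h4 : κ * r₀ + 1 - β * r₀ ≤ (β - β₂) * n := by
      have h5 : 0 < β - β₂ := by linarith
      have h6 := (div_le_iff₀ h5).1 (hn₀.trans hn)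
      linarith
    calc DD (VV a lam) A A' (r₀ + n) X ≤ X ^ (β₂ * n) * DD (VV a lam) A A' r₀ X := h1
      _ ≤ X ^ (β₂ * n) * (r₀.factorial * (M * X ^ κ) ^ r₀) := mul_le_mul_of_nonneg_left (hbound X h2) (by positivity)
      _ = X ^ (β₂ * n) * ((r₀.factorial * M ^ r₀) * X ^ (κ * r₀)) := by
          rw [mul_pow, ← Real.rpow_natCast (X ^ κ), ← Real.rpow_mul hX0.le]
          ring
      _ ≤ X ^ (β₂ * n) * (X * X ^ (κ * r₀)) := by
          refine mul_le_mul_of_nonneg_left ?_ (by positivity)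
          exact mul_le_mul_of_nonneg_right h3 (by positivity)
      _ = X ^ (β₂ * n + (1 + κ * r₀)) := by
          rw [Real.rpow_add hX0, Real.rpow_add hX0, Real.rpow_one]
      _ ≤ X ^ (β * ((r₀ + n : ℕ) : ℝ)) := by
          refine Real.rpow_le_rpow_of_exponent_le h2 ?_
          push_cast
          linarith
  tfae_have 2 → 3 := by
    rintro ⟨lam₀, h⟩
    refine ⟨max lam₀ 0 + 1, by have := le_max_right lam₀ 0; linarith, fun β hβ => ?_⟩
    obtain ⟨r, h1, h2⟩ := ((h (max lam₀ 0 + 1) (by have := le_max_left lam₀ 0; linarith) β hβ).and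
      (eventually_ge_atTop 1)).exists
    exact ⟨r, by omega, h1⟩
  tfae_have 3 → 1 := by
    rintro ⟨lam, hl, h⟩
    refine ⟨lam, fun δ' hδ' => ?_⟩
    obtain ⟨β, hβ1, hβ2⟩ := EReal.lt_iff_exists_real_btwn.1 hδ'
    have hβ2' : β < δ' := by exact_mod_cast hβ2
    obtain ⟨r, hr0, hr⟩ := h β hβ1
    obtain ⟨r, rfl⟩ := Nat.exists_eq_succ_of_ne_zero hr0
    obtain ⟨M, κ, hM, hMb⟩ := Kn_bd hB ha hl hA hA'
    have hnear : ∀ β' : ℝ, (δ' : EReal) < (β' : EReal) → ∀ᶠ X : ℝ in atTop, Near (VV a lam) A A' r β' X := by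
      intro β' hβ'
      have hβ3 : β < β' := hβ2'.trans (by exact_mod_cast hβ')
      filter_upwards [hr, (tendsto_rpow_atTop (y := β' - β) (by linarith)).eventually_ge_atTop (2 * (A * A')),
        eventually_ge_atTop 1] with X h1 h2 h3
      have hX0 : 0 < X := by linarith
      have h0 : DD (VV a lam) A A' 0 X = 1 := DD_zero hA hA' (hMb X h3)
      obtain ⟨k, hk, hkq⟩ := exists_quot (r := r) hX0 h0 (by push_cast at h1; exact h1)
      refine Near_mono hk (near_of_quot (VV_contOn hB ha hl) hA hA' hX0 (hMb X h3) (ε := X ^ β) (by positivity) hkq ?_)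
      calc 2 * X ^ β * (A * A') = (2 * (A * A')) * X ^ β := by ring
        _ ≤ X ^ (β' - β) * X ^ β := mul_le_mul_of_nonneg_right h2 (by positivity)
        _ = X ^ β' := by rw [← Real.rpow_add hX0]; congr 1; ring
    obtain ⟨ρ, g, c₀, h1, h2, h3, h4⟩ := mero_of_rank hB ha hl hA hA' (EReal.coe_lt_top δ') hnear
    exact ⟨r, ρ, g, ⟨h1, h2, c₀, h3⟩, h4⟩
  tfae_finish

end

end Pool.Agent.H480.K
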