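import Pool.Agent.H480.M8

/-!
Sup norm version: from separable approximations in the sup norm to a global recurrence in the sup norm.
-/

open Filter Topology Set MeasureTheory Complex

set_option linter.unusedSectionVars false

namespace Pool.Agent.H480.K

noncomputable section

variable {r : ℕ}

/-- on `[t, t + a] × [0, a']` the function `f (x + y)` is within `ε` of a sum of `r` products, everywhere -/
def SupN (f : ℝ → ℂ) (a a' : ℝ) (r : ℕ) (ε t : ℝ) : Prop :=
  ∃ U V : Fin r → ℝ → ℂ, ∀ x ∈ Icc 0 a, ∀ y ∈ Icc 0 a', ‖f (t + x + y) - ∑ j, U j x * V j y‖ ≤ ε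

theorem sup_step {f : ℝ → ℂ} {a a' ε t h : ℝ} (hh : 0 < h) (hra : (r + 1) * h ≤ a) (hra' : (r + 1) * h ≤ a')
    (H : SupN f a a' r ε t) :
    ∃ c : Fin (r + 1) → ℂ, ∑ i, ‖c i‖ = 1 ∧ ∀ k : ℕ, k ≤ r → ∀ v ∈ Icc 0 h,
      ‖∑ i, c i * f (t + k * h + (i : ℕ) * h + v)‖ ≤ ε := by
  obtain ⟨U, V, hUV⟩ := H
  obtain ⟨c, hc1, hc2⟩ := lin_dep fun i j => U j ((i : ℕ) * h)
  refine ⟨c, hc1, fun k hk v hv => ?_⟩
  have hi : ∀ i : Fin (r + 1), ((i : ℕ) : ℝ) ≤ r := fun i => by exact_mod_cast Nat.lt_succ_iff.1 i.2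
  have hmem : ∀ i : Fin (r + 1), ((i : ℕ) : ℝ) * h ∈ Icc 0 a := by
    intro i
    have h1 : ((i : ℕ) : ℝ) * h ≤ r * h := mul_le_mul_of_nonneg_right (hi i) hh.le
    exact ⟨by positivity, by linarith⟩
  have hy : (k : ℝ) * h + v ∈ Icc 0 a' := by
    have h1 : (k : ℝ) ≤ r := by exact_mod_cast hk
    have h2 : (k : ℝ) * h ≤ r * h := mul_le_mul_of_nonneg_right h1 hh.le
    exact ⟨by have := hv.1; positivity, by linarith [hv.2]⟩
  have e1 : ∑ i, c i * f (t + k * h + (i : ℕ) * h + v) =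
      ∑ i, c i * (f (t + (i : ℕ) * h + (k * h + v)) - ∑ j, U j ((i : ℕ) * h) * V j (k * h + v)) := by
    simp only [mul_sub, Finset.sum_sub_distrib]
    have : ∑ i, c i * ∑ j, U j ((i : ℕ) * h) * V j (k * h + v) = 0 := by
      simp only [Finset.mul_sum]
      rw [Finset.sum_comm]
      refine Finset.sum_eq_zero fun j _ => ?_
      calc ∑ i, c i * (U j ((i : ℕ) * h) * V j (k * h + v)) = (∑ i, c i * U j ((i : ℕ) * h)) * V j (k * h + v) := by
            rw [Finset.sum_mul]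
            exact Finset.sum_congr rfl fun i _ => by ring
        _ = 0 := by rw [hc2 j, zero_mul]
    rw [this, sub_zero]
    refine Finset.sum_congr rfl fun i _ => ?_
    congr 2
    ring
  rw [e1]
  calc ‖∑ i, c i * (f (t + (i : ℕ) * h + (k * h + v)) - ∑ j, U j ((i : ℕ) * h) * V j (k * h + v))‖
      ≤ ∑ i, ‖c i‖ * ε := by
        refine (norm_sum_le _ _).trans (Finset.sum_le_sum fun i _ => ?_)
        rw [norm_mul]
        exact mul_le_mul_of_nonneg_left (hUV _ (hmem i) _ hy) (norm_nonneg _)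
    _ = ε := by rw [← Finset.sum_mul, hc1, one_mul]

/-- the recurrence at all scales, sup norm -/
theorem sup_scales {f : ℝ → ℂ} {C c₁ : ℝ} (hC : 0 ≤ C) (hf : ∀ u, 0 ≤ u → ‖f u‖ ≤ C * Real.exp (c₁ * u))
    {a a' β β' h : ℝ} (hh : 0 < h) (hra : (r + 1) * h ≤ a) (hra' : (r + 1) * h ≤ a') (hβ : β < β')
    (H : ∀ᶠ t : ℝ in atTop, SupN f a a' r (Real.exp (β * t)) t) :
    ∃ q : Fin (r + 1) → ℂ, ∑ i, ‖q i‖ = 1 ∧ ∃ M : ℝ, 0 ≤ M ∧ ∀ m : ℕ, ∀ v ∈ Icc 0 h,
      ‖∑ i, q i * f ((m + (i : ℕ)) * h + v)‖ ≤ M * Real.exp (β' * h * m) := by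
  obtain ⟨t₀, ht₀⟩ := eventually_atTop.1 H
  set c₂ : ℝ := |c₁| with hc₂
  have hf2 : ∀ u, 0 ≤ u → ‖f u‖ ≤ C * Real.exp (c₂ * u) := fun u hu => (hf u hu).trans
    (mul_le_mul_of_nonneg_left (Real.exp_le_exp.2 (mul_le_mul_of_nonneg_right (le_abs_self _) hu)) hC)
  obtain ⟨n₀, hn₀⟩ := exists_nat_gt ((max t₀ 0) / h)
  have hn₀1 : max t₀ 0 ≤ (n₀ : ℝ) * h := by
    have : (max t₀ 0) / h ≤ (n₀ : ℝ) := by linarith
    rwa [div_le_iff₀ hh] at this
  set C0 : ℝ := max (C * Real.exp (c₂ * h)) 1 with hC0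
  have hC00 : 0 ≤ C0 := le_max_of_le_right zero_le_one
  set BB : Set (ℕ → ℂ) := {b | ∃ v ∈ Icc 0 h, ∀ n : ℕ, b n = f (n * h + v)} with hBB
  have hb : ∀ b ∈ BB, ∀ n : ℕ, ‖b n‖ ≤ C0 * Real.exp (c₂ * h) ^ n := by
    rintro b ⟨v, hv, hbv⟩ n
    rw [hbv]
    have h2 : 0 ≤ (n : ℝ) * h + v := by have := hv.1; positivity
    have h4 : C * Real.exp (c₂ * ((n + 1) * h)) = C * Real.exp (c₂ * h) * Real.exp (c₂ * h) ^ n := by
      rw [← Real.exp_nat_mul]
      have : Real.exp (c₂ * ((n + 1) * h)) = Real.exp (c₂ * h) * Real.exp (n * (c₂ * h)) := by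
        rw [← Real.exp_add]; congr 1; ring
      rw [this]; ring
    calc ‖f (n * h + v)‖ ≤ C * Real.exp (c₂ * (n * h + v)) := hf2 _ h2
      _ ≤ C * Real.exp (c₂ * ((n + 1) * h)) := by
          refine mul_le_mul_of_nonneg_left (Real.exp_le_exp.2 ?_) hC
          refine mul_le_mul_of_nonneg_left ?_ (abs_nonneg _)
          linarith [hv.2]
      _ = C * Real.exp (c₂ * h) * Real.exp (c₂ * h) ^ n := h4
      _ ≤ _ := mul_le_mul_of_nonneg_right (le_max_left _ _) (by positivity)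
  have hrec : ∀ n ≥ n₀, ∃ c : Fin (r + 1) → ℂ, ∑ i, ‖c i‖ = 1 ∧ ∀ b ∈ BB, ∀ m : ℕ, n ≤ m → m ≤ n + r →
      ‖∑ i, c i * b (m + i)‖ ≤ C0 * Real.exp (β * h) ^ n := by
    intro n hn
    have hn' : (n₀ : ℝ) ≤ n := by exact_mod_cast hn
    have htn : max t₀ 0 ≤ (n : ℝ) * h := hn₀1.trans (mul_le_mul_of_nonneg_right hn' hh.le)
    obtain ⟨c, hc1, hc2⟩ := sup_step hh hra hra' (ht₀ _ ((le_max_left _ _).trans htn))
    refine ⟨c, hc1, ?_⟩
    rintro b ⟨v, hv, hbv⟩ m hm1 hm2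
    obtain ⟨k, rfl⟩ := Nat.exists_eq_add_of_le hm1
    have hk : k ≤ r := by omega
    have h1 := hc2 k hk v hv
    have e1 : ∑ i, c i * b (n + k + i) = ∑ i, c i * f ((n : ℝ) * h + k * h + (i : ℕ) * h + v) := by
      refine Finset.sum_congr rfl fun i _ => ?_
      rw [hbv]
      congr 2
      push_cast
      ring
    rw [e1]
    refine h1.trans ?_
    have e2 : Real.exp (β * ((n : ℝ) * h)) = Real.exp (β * h) ^ n := by
      rw [← Real.exp_nat_mul]; congr 1; ring
    rw [e2]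
    exact le_mul_of_one_le_left (by positivity) (le_max_right _ _)
  have hθ : Real.exp (β * h) < Real.exp (β' * h) := Real.exp_lt_exp.2 (mul_lt_mul_of_pos_right hβ hh)
  obtain ⟨q, hq, M, hM0, hM⟩ := rigidity (r := r) (Real.exp_pos _) hθ (Real.exp_pos (c₂ * h)).le hC00 n₀ BB hb hrec
  refine ⟨q, hq, M, hM0, fun m v hv => ?_⟩
  have h6 := hM (fun n => f (n * h + v)) ⟨v, hv, fun n => rfl⟩ m
  have e3 : ∑ i : Fin (r + 1), q i * f (((m + (i : ℕ) : ℕ) : ℝ) * h + v) = ∑ i, q i * f ((m + (i : ℕ)) * h + v) := by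
    refine Finset.sum_congr rfl fun i _ => ?_
    push_cast
    rfl
  rw [e3, ← Real.exp_nat_mul] at h6
  have h7 : (m : ℝ) * (β' * h) = β' * h * m := by ring
  rwa [h7] at h6

/-- the weight -/
def WT (β ε u : ℝ) : ℝ := Real.exp (β * u - ε * |u|)

theorem WT_pos (β ε u : ℝ) : 0 < WT β ε u := Real.exp_pos _

theorem WT_sub {β ε t : ℝ} (hε : 0 ≤ ε) (ht : 0 ≤ t) (u : ℝ) : WT β ε (u - t) ≤ WT β ε u * Real.exp (-((β - ε) * t)) := by
  unfold WT
  rw [← Real.exp_add]
  refine Real.exp_le_exp.2 ?_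
  have h1 : |u| - |t| ≤ |u - t| := abs_sub_abs_le_abs_sub u t
  rw [abs_of_nonneg ht] at h1
  nlinarith

theorem WT_add {β ε t : ℝ} (hε : 0 ≤ ε) (ht : 0 ≤ t) (u : ℝ) : WT β ε (u + t) ≤ WT β ε u * Real.exp ((β + ε) * t) := by
  unfold WT
  rw [← Real.exp_add]
  refine Real.exp_le_exp.2 ?_
  have h1 : |u| - |-t| ≤ |u - (-t)| := abs_sub_abs_le_abs_sub u (-t)
  rw [abs_neg, abs_of_nonneg ht, sub_neg_eq_add] at h1
  nlinarith

/-- measurable, almost everywhere continuous, and bounded by the weight -/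
structure GW (β ε : ℝ) (w : ℝ → ℂ) : Prop where
  meas : Measurable w
  cont : ∀ᵐ u : ℝ, ContinuousAt w u
  bd : ∃ M : ℝ, 0 ≤ M ∧ ∀ u, ‖w u‖ ≤ M * WT β ε u

theorem GW.int {β ε : ℝ} (hε : 0 < ε) {w : ℝ → ℂ} (hw : GW β ε w) : Integrable fun u : ℝ => ‖w u‖ * Real.exp (-(β * u)) := by
  obtain ⟨M, hM, hb⟩ := hw.bd
  refine two_exp (C := M) (c₁ := β - ε) (c₂ := β + ε) hw.meas (fun u hu => ?_) (fun u hu => ?_) (by linarith) (by linarith)
  · refine (hb u).trans (le_of_eq ?_)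
    unfold WT
    rw [abs_of_nonneg hu]
    congr 2
    ring
  · refine (hb u).trans (le_of_eq ?_)
    unfold WT
    rw [abs_of_nonpos hu]
    congr 2
    ring

theorem ae_shift {p : ℝ → Prop} (hp : ∀ᵐ u : ℝ, p u) (t : ℝ) : ∀ᵐ u : ℝ, p (u + t) := by
  have h1 : MeasurePreserving (fun u : ℝ => u + t) volume volume := measurePreserving_add_right volume t
  exact h1.quasiMeasurePreserving.ae hp

/-- a series of shifts -/
theorem shift_sum {β ε : ℝ} {w : ℝ → ℂ} (hw : GW β ε w) {c : ℕ → ℂ} {t : ℕ → ℝ} {κ : ℕ → ℝ} (hκ : Summable κ)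
    (hκ0 : ∀ k, 0 ≤ κ k) (hb : ∀ k u, ‖c k‖ * WT β ε (u + t k) ≤ κ k * WT β ε u) :
    GW β ε (fun u => ∑' k, c k * w (u + t k)) ∧ ∀ u, Summable fun k => c k * w (u + t k) := by
  obtain ⟨M, hM, hwb⟩ := hw.bd
  have hterm : ∀ k u, ‖c k * w (u + t k)‖ ≤ M * WT β ε u * κ k := by
    intro k u
    rw [norm_mul]
    calc ‖c k‖ * ‖w (u + t k)‖ ≤ ‖c k‖ * (M * WT β ε (u + t k)) := mul_le_mul_of_nonneg_left (hwb _) (norm_nonneg _)
      _ = M * (‖c k‖ * WT β ε (u + t k)) := by ring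
      _ ≤ M * (κ k * WT β ε u) := mul_le_mul_of_nonneg_left (hb k u) hM
      _ = _ := by ring
  have hsum : ∀ u, Summable fun k => c k * w (u + t k) := fun u =>
    Summable.of_norm_bounded (hκ.mul_left (M * WT β ε u)) (fun k => hterm k u)
  refine ⟨⟨?_, ?_, ?_⟩, hsum⟩
  · have hp : ∀ n : ℕ, Measurable fun u => ∑ k ∈ Finset.range n, c k * w (u + t k) := fun n =>
      Finset.measurable_fun_sum _ fun k _ => (hw.meas.comp (measurable_add_const _)).const_mul _
    refine measurable_of_tendsto_metrizable hp ?_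
    rw [tendsto_pi_nhds]
    exact fun u => (hsum u).hasSum.tendsto_sum_nat
  · have h1 : ∀ᵐ u : ℝ, ∀ k : ℕ, ContinuousAt w (u + t k) := ae_all_iff.2 fun k => ae_shift hw.cont (t k)
    filter_upwards [h1] with u hu
    -- local bound of the weight
    have hWc : Continuous fun v : ℝ => WT β ε v := by
      unfold WT
      fun_prop
    have hev : ∀ᶠ v in 𝓝 u, WT β ε v < WT β ε u + 1 := hWc.continuousAt.eventually (gt_mem_nhds (by linarith))
    refine tendsto_tsum_of_dominated_convergence (bound := fun k => M * (WT β ε u + 1) * κ k) (hκ.mul_left _)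
      (fun k => ?_) ?_
    · refine Tendsto.const_mul _ ?_
      have h2 : Tendsto (fun v : ℝ => v + t k) (𝓝 u) (𝓝 (u + t k)) := (continuous_add_const _).tendsto u
      exact (hu k).tendsto.comp h2
    · filter_upwards [hev] with v hv k
      refine (hterm k v).trans ?_
      have h3 := hκ0 k
      have h4 : M * WT β ε v ≤ M * (WT β ε u + 1) := mul_le_mul_of_nonneg_left hv.le hM
      exact mul_le_mul_of_nonneg_right h4 h3
  · refine ⟨M * ∑' k, κ k, mul_nonneg hM (tsum_nonneg hκ0), fun u => ?_⟩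
    refine (tsum_of_norm_bounded (hκ.mul_left (M * WT β ε u)).hasSum fun k => hterm k u).trans (le_of_eq ?_)
    rw [tsum_mul_left]
    ring

/-- **inversion of one factor** -/
theorem solve {β ε h : ℝ} (hε : 0 < ε) (hh : 0 < h) {w : ℝ → ℂ} (hw : GW β ε w) {z : ℂ}
    (hz : ‖z‖ < Real.exp ((β - ε) * h) ∨ Real.exp ((β + ε) * h) < ‖z‖) :
    ∃ y : ℝ → ℂ, GW β ε y ∧ ∀ s : ℂ, s.re = β → (cexp (s * h) - z) * Lap y s = Lap w s := by
  -- it suffices to solve the equation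
  have key : (∃ y : ℝ → ℂ, GW β ε y ∧ ∀ u, y (u + h) - z * y u = w u) →
      ∃ y : ℝ → ℂ, GW β ε y ∧ ∀ s : ℂ, s.re = β → (cexp (s * h) - z) * Lap y s = Lap w s := by
    rintro ⟨y, hy, hyw⟩
    refine ⟨y, hy, fun s hs => ?_⟩
    have hI := lap_int hy.meas (s := s) (by rw [hs]; exact hy.int hε)
    have e1 := lap_shift (f := y) h s
    have hI2 : Integrable fun u : ℝ => y (u + h) * cexp (-s * u) := by
      have h2 := (hI.comp_add_right h).const_mul (cexp (s * h))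
      refine h2.congr (ae_of_all _ fun u => ?_)
      beta_reduce
      rw [mul_left_comm, ← Complex.exp_add]
      congr 2
      push_cast
      ring
    have e2 : Lap w s = Lap (fun u => y (u + h)) s - z * Lap y s := by
      unfold Lap
      rw [← integral_const_mul, ← integral_sub hI2 (hI.const_mul z)]
      refine integral_congr_ae (ae_of_all _ fun u => ?_)
      beta_reduce
      rw [← hyw u]
      ring
    rw [e2, e1]
    ring
  apply key
  rcases hz with hz | hz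
  · have hlt : ‖z‖ * Real.exp (-((β - ε) * h)) < 1 := by
      rw [Real.exp_neg, ← div_eq_mul_inv, div_lt_one (Real.exp_pos _)]
      exact hz
    have hx0 : 0 ≤ ‖z‖ * Real.exp (-((β - ε) * h)) := by positivity
    obtain ⟨h1, h2⟩ := shift_sum hw (c := fun k => z ^ k) (t := fun k : ℕ => -((k + 1) * h))
      (κ := fun k => Real.exp (-((β - ε) * h)) * (‖z‖ * Real.exp (-((β - ε) * h))) ^ k)
      ((summable_geometric_of_lt_one hx0 hlt).mul_left _) (fun k => by positivity) (fun k u => by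
        have e1 := WT_sub (β := β) hε.le (t := (k + 1) * h) (by positivity) u
        rw [← sub_eq_add_neg, norm_pow]
        calc ‖z‖ ^ k * WT β ε (u - (k + 1) * h) ≤ ‖z‖ ^ k * (WT β ε u * Real.exp (-((β - ε) * ((k + 1) * h)))) :=
              mul_le_mul_of_nonneg_left e1 (by positivity)
          _ = _ := by
              have e2 : Real.exp (-((β - ε) * ((k + 1) * h))) = Real.exp (-((β - ε) * h)) * Real.exp (-((β - ε) * h)) ^ k := by
                rw [← Real.exp_nat_mul, ← Real.exp_add]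
                congr 1
                ring
              rw [e2, mul_pow]
              ring)
    refine ⟨_, h1, fun u => ?_⟩
    rw [(h2 (u + h)).tsum_eq_zero_add, ← tsum_mul_left]
    have e3 : ∀ k : ℕ, z ^ (k + 1) * w (u + h + -(((k + 1 : ℕ) : ℝ) + 1) * h) = z * (z ^ k * w (u + -((k + 1) * h))) := by
      intro k
      have : u + h + -(((k + 1 : ℕ) : ℝ) + 1) * h = u + -((k + 1) * h) := by push_cast; ring
      rw [this, pow_succ]
      ring
    have e4 : ∑' k : ℕ, z ^ (k + 1) * w (u + h + -((((k + 1 : ℕ) : ℝ) + 1) * h)) = ∑' k : ℕ, z * (z ^ k * w (u + -((k + 1) * h))) := by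
      refine tsum_congr fun k => ?_
      rw [← e3 k]
      congr 2
      ring
    rw [e4]
    have e5 : u + h + -(((0 : ℕ) : ℝ) + 1) * h = u := by push_cast; ring
    have e6 : z ^ 0 * w (u + h + -((((0 : ℕ) : ℝ) + 1) * h)) = w u := by
      rw [pow_zero, one_mul]
      congr 1
      push_cast
      ring
    rw [e6]
    ring
  · have hz0 : 0 < ‖z‖ := (Real.exp_pos _).trans hz
    have hzne : z ≠ 0 := norm_pos_iff.1 hz0
    have hlt : Real.exp ((β + ε) * h) / ‖z‖ < 1 := by rwa [div_lt_one hz0]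
    have hx0 : 0 ≤ Real.exp ((β + ε) * h) / ‖z‖ := by positivity
    obtain ⟨h1, h2⟩ := shift_sum hw (c := fun k => -(z⁻¹ ^ (k + 1))) (t := fun k : ℕ => k * h)
      (κ := fun k => ‖z‖⁻¹ * (Real.exp ((β + ε) * h) / ‖z‖) ^ k)
      ((summable_geometric_of_lt_one hx0 hlt).mul_left _) (fun k => by positivity) (fun k u => by
        have e1 := WT_add (β := β) hε.le (t := k * h) (by positivity) u
        rw [norm_neg, norm_pow, norm_inv]
        calc ‖z‖⁻¹ ^ (k + 1) * WT β ε (u + k * h) ≤ ‖z‖⁻¹ ^ (k + 1) * (WT β ε u * Real.exp ((β + ε) * (k * h))) :=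
              mul_le_mul_of_nonneg_left e1 (by positivity)
          _ = _ := by
              have e2 : Real.exp ((β + ε) * (k * h)) = Real.exp ((β + ε) * h) ^ k := by
                rw [← Real.exp_nat_mul]
                congr 1
                ring
              rw [e2, div_pow, pow_succ, inv_pow]
              field_simp)
    refine ⟨_, h1, fun u => ?_⟩
    rw [(h2 u).tsum_eq_zero_add, mul_add, ← tsum_mul_left]
    have e4 : ∑' k : ℕ, z * (-(z⁻¹ ^ (k + 1 + 1)) * w (u + ((k + 1 : ℕ) : ℝ) * h)) = ∑' k : ℕ, -(z⁻¹ ^ (k + 1)) * w (u + h + k * h) := by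
      refine tsum_congr fun k => ?_
      have : u + ((k + 1 : ℕ) : ℝ) * h = u + h + k * h := by push_cast; ring
      rw [this, pow_succ z⁻¹ (k + 1)]
      field_simp
    rw [e4]
    have e6 : z * (-(z⁻¹ ^ (0 + 1)) * w (u + ((0 : ℕ) : ℝ) * h)) = -w u := by
      rw [zero_add, pow_one]
      push_cast
      rw [zero_mul, add_zero]
      field_simp
    rw [e6]
    ring

end

end Pool.Agent.H480.K
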