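import Pool.Agent.H480.P1

/-!
Sup norm version, second part: from a recurrence in the sup norm to the function itself.
-/

open Complex MeasureTheory Filter Topology Set Polynomial

set_option linter.unusedSectionVars false

namespace Pool.Agent.H480.K

open Pool.Agent.H480.G
open H313.GK (Inv vl inv_shift vl_re vl_im)

noncomputable section

/-- the shift -/
def sh (h : ℝ) : Module.End ℂ (ℝ → ℂ) where
  toFun f := fun u => f (u + h)
  map_add' _ _ := rfl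
  map_smul' _ _ := rfl

theorem sh_pow (h : ℝ) (f : ℝ → ℂ) (i : ℕ) (u : ℝ) : ((sh h) ^ i) f u = f (u + i * h) := by
  induction i generalizing u with
  | zero => simp
  | succ i ih =>
    rw [pow_succ']
    show ((sh h) ^ i) f (u + h) = _
    rw [ih]
    congr 1
    push_cast
    ring

theorem sh_aeval (Q : ℂ[X]) (h : ℝ) (f : ℝ → ℂ) (u : ℝ) :
    (aeval (sh h) Q) f u = ∑ i ∈ Finset.range (Q.natDegree + 1), Q.coeff i * f (u + i * h) := by
  rw [aeval_eq_sum_range, LinearMap.sum_apply, Finset.sum_apply]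
  refine Finset.sum_congr rfl fun i _ => ?_
  rw [LinearMap.smul_apply, Pi.smul_apply, sh_pow, smul_eq_mul]

/-- coefficients -/
def cf (Q : ℂ[X]) : Fin (Q.natDegree + 1) → ℂ := fun i => Q.coeff i

theorem sh_Hq (Q : ℂ[X]) (h : ℝ) (f : ℝ → ℂ) : (aeval (sh h) Q) f = Hq f (cf Q) h := by
  funext u
  rw [sh_aeval, Finset.sum_range]
  rfl

theorem qp_cf (Q : ℂ[X]) : qp (cf Q) = Q := by
  unfold qp cf
  conv_rhs => rw [Q.as_sum_range_C_mul_X_pow]
  rw [Finset.sum_range]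

theorem Pq_cf (Q : ℂ[X]) (h : ℝ) (s : ℂ) : Pq (cf Q) h s = Q.eval (cexp (s * h)) := by
  rw [Pq_eq, qp_cf]

theorem cf_norm {Q : ℂ[X]} (hQ : Q ≠ 0) : ∃ c : ℂ, c ≠ 0 ∧ ∑ i, ‖cf (C c * Q) i‖ = 1 := by
  set N : ℝ := ∑ i ∈ Finset.range (Q.natDegree + 1), ‖Q.coeff i‖ with hN
  have hNpos : 0 < N := by
    have h1 : 0 < ‖Q.coeff Q.natDegree‖ := norm_pos_iff.2 (leadingCoeff_ne_zero.2 hQ)
    refine h1.trans_le (Finset.single_le_sum (f := fun i => ‖Q.coeff i‖) (fun _ _ => norm_nonneg _) ?_)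
    simp
  have hc : ((N⁻¹ : ℝ) : ℂ) ≠ 0 := by exact_mod_cast (inv_pos.2 hNpos).ne'
  refine ⟨((N⁻¹ : ℝ) : ℂ), hc, ?_⟩
  unfold cf
  rw [Fin.sum_univ_eq_sum_range (fun i => ‖(C ((N⁻¹ : ℝ) : ℂ) * Q).coeff i‖), natDegree_C_mul hc]
  simp only [coeff_C_mul, norm_mul, Complex.norm_real, Real.norm_eq_abs, abs_of_pos (inv_pos.2 hNpos)]
  rw [← Finset.mul_sum, ← hN, inv_mul_cancel₀ hNpos.ne']

theorem solve_ms {β ε h : ℝ} (hε : 0 < ε) (hh : 0 < h) (S : Multiset ℂ)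
    (hS : ∀ z ∈ S, ‖z‖ < Real.exp ((β - ε) * h) ∨ Real.exp ((β + ε) * h) < ‖z‖) :
    ∀ w : ℝ → ℂ, GW β ε w → ∃ y : ℝ → ℂ, GW β ε y ∧
      ∀ s : ℂ, s.re = β → (S.map fun z => cexp (s * h) - z).prod * Lap y s = Lap w s := by
  induction S using Multiset.induction_on with
  | empty => intro w hw; exact ⟨w, hw, fun s _ => by simp⟩
  | cons z S ih =>
    intro w hw
    obtain ⟨y1, hy1, h1⟩ := solve hε hh hw (hS z (Multiset.mem_cons_self _ _))
    obtain ⟨y, hy, h2⟩ := ih (fun z' hz' => hS z' (Multiset.mem_cons_of_mem hz')) y1 hy1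
    refine ⟨y, hy, fun s hs => ?_⟩
    rw [Multiset.map_cons, Multiset.prod_cons, mul_assoc, h2 s hs, h1 s hs]

theorem solve_poly {β ε h : ℝ} (hε : 0 < ε) (hh : 0 < h) {Q : ℂ[X]} (hQ : Q ≠ 0)
    (hS : ∀ z ∈ Q.roots, ‖z‖ < Real.exp ((β - ε) * h) ∨ Real.exp ((β + ε) * h) < ‖z‖) {w : ℝ → ℂ} (hw : GW β ε w) :
    ∃ y : ℝ → ℂ, GW β ε y ∧ ∀ s : ℂ, s.re = β → Q.eval (cexp (s * h)) * Lap y s = Lap w s := by
  obtain ⟨y, hy, h1⟩ := solve_ms hε hh Q.roots hS w hw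
  have hl : Q.leadingCoeff ≠ 0 := leadingCoeff_ne_zero.2 hQ
  refine ⟨fun u => Q.leadingCoeff⁻¹ * y u, ⟨hy.meas.const_mul _, ?_, ?_⟩, fun s hs => ?_⟩
  · filter_upwards [hy.cont] with u hu using hu.const_mul _
  · obtain ⟨M, hM, hb⟩ := hy.bd
    refine ⟨‖Q.leadingCoeff⁻¹‖ * M, by positivity, fun u => ?_⟩
    rw [norm_mul, mul_assoc]
    exact mul_le_mul_of_nonneg_left (hb u) (norm_nonneg _)
  · have h2 := h1 s hs
    rw [(IsAlgClosed.splits Q).eval_eq_prod_roots]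
    have h3 : Lap (fun u => Q.leadingCoeff⁻¹ * y u) s = Q.leadingCoeff⁻¹ * Lap y s := by
      unfold Lap
      rw [← integral_const_mul]
      refine integral_congr_ae (ae_of_all _ fun u => ?_)
      beta_reduce
      ring
    rw [h3, ← h2]
    field_simp

theorem pick_line {Q : ℂ[X]} (hQ : Q ≠ 0) {h : ℝ} (hh : 0 < h) {x y : ℝ} (hxy : x < y) :
    ∃ β ε : ℝ, 0 < ε ∧ x ≤ β - ε ∧ β + ε ≤ y ∧
      ∀ z ∈ Q.roots, ‖z‖ < Real.exp ((β - ε) * h) ∨ Real.exp ((β + ε) * h) < ‖z‖ := by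
  have hfin : ((fun z : ℂ => Real.log ‖z‖ / h) '' {z | z ∈ Q.roots}).Finite := by
    refine Set.Finite.image _ ?_
    have : {z | z ∈ Q.roots} = (Q.roots.toFinset : Set ℂ) := by ext z; simp
    rw [this]
    exact Finset.finite_toSet _
  obtain ⟨β, hβ, hβ2⟩ := (Set.Ioo_infinite hxy).exists_notMem_finite hfin
  obtain ⟨ε₀, hε₀, hball⟩ := Metric.mem_nhds_iff.1 (hfin.isClosed.isOpen_compl.mem_nhds hβ2)
  have h1 : 0 < β - x := by linarith [hβ.1]
  have h2 : 0 < y - β := by linarith [hβ.2]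
  set ε : ℝ := min (ε₀ / 2) (min (β - x) (y - β)) with hε
  have e1 : ε ≤ ε₀ / 2 := min_le_left _ _
  have e2 : ε ≤ β - x := (min_le_right _ _).trans (min_le_left _ _)
  have e3 : ε ≤ y - β := (min_le_right _ _).trans (min_le_right _ _)
  have e0 : 0 < ε := lt_min (by linarith) (lt_min h1 h2)
  refine ⟨β, ε, e0, by linarith, by linarith, fun z hz => ?_⟩
  rcases eq_or_ne z 0 with rfl | hz0
  · left
    rw [norm_zero]
    exact Real.exp_pos _
  have hzp : 0 < ‖z‖ := norm_pos_iff.2 hz0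
  set t : ℝ := Real.log ‖z‖ / h with ht
  have hzt : ‖z‖ = Real.exp (t * h) := by
    rw [ht, div_mul_cancel₀ _ hh.ne', Real.exp_log hzp]
  have hnb : ¬ dist t β < ε₀ := fun hd => (hball (Metric.mem_ball.2 hd)) ⟨z, hz, rfl⟩
  rw [Real.dist_eq, not_lt] at hnb
  rw [hzt, Real.exp_lt_exp, Real.exp_lt_exp, mul_lt_mul_iff_left₀ hh, mul_lt_mul_iff_left₀ hh]
  rcases le_abs.1 hnb with h4 | h4
  · right; linarith
  · left; linarith

/-- pointwise limit of the Gaussian smoothing -/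
theorem hs_lim {H : ℝ → ℂ} (hHm : Measurable H) {C1 κ : ℝ} (hC1 : 0 ≤ C1) (hκ : 0 ≤ κ)
    (hb : ∀ u, ‖H u‖ ≤ C1 * Real.exp (κ * |u|)) {t : ℝ} (ht : ContinuousAt H t) :
    Tendsto (fun n : ℕ => Hs H (1 / ((n : ℝ) + 1)) t) atTop (𝓝 (H t)) := by
  set hn : ℕ → ℝ := fun n => 1 / ((n : ℝ) + 1) with hhn
  have hn0 : ∀ n, 0 < hn n := fun n => by simp only [hhn]; positivity
  have hn1 : ∀ n, hn n ≤ 1 := fun n => by
    simp only [hhn]
    rw [div_le_one (by positivity)]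
    linarith [(Nat.cast_nonneg n : (0:ℝ) ≤ n)]
  have hnt : Tendsto hn atTop (𝓝 0) := tendsto_one_div_add_atTop_nhds_zero_nat
  have hdomint := gau_dom κ
  have hbH : ∀ (h t w : ℝ), 0 < h → h ≤ 1 → ‖H (t - h * w) * ((gau w : ℝ) : ℂ)‖ ≤
      C1 * Real.exp (κ * |t|) * (Real.exp (κ * |w|) * gau w) := by
    intro h t w hh hh1
    have hg0 : 0 ≤ gau w := by unfold gau; positivity
    rw [norm_mul, Complex.norm_real, Real.norm_eq_abs, abs_of_nonneg hg0]
    have h1 : ‖H (t - h * w)‖ ≤ C1 * Real.exp (κ * |t|) * Real.exp (κ * |w|) := by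
      refine (hb _).trans ?_
      rw [mul_assoc, ← Real.exp_add]
      refine mul_le_mul_of_nonneg_left (Real.exp_le_exp.2 ?_) hC1
      calc κ * |t - h * w| ≤ κ * (|t| + |w|) := by
            refine mul_le_mul_of_nonneg_left ?_ hκ
            refine (abs_sub _ _).trans (add_le_add le_rfl ?_)
            rw [abs_mul, abs_of_pos hh]
            exact mul_le_of_le_one_left (abs_nonneg _) hh1
        _ = _ := by ring
    calc _ ≤ (C1 * Real.exp (κ * |t|) * Real.exp (κ * |w|)) * gau w := mul_le_mul_of_nonneg_right h1 hg0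
      _ = _ := by ring
  have hmeas : ∀ (h t : ℝ), AEStronglyMeasurable (fun w : ℝ => H (t - h * w) * ((gau w : ℝ) : ℂ)) volume := by
    intro h t
    have h1 : Measurable fun w : ℝ => H (t - h * w) := hHm.comp (by fun_prop)
    have h2 : Measurable fun w : ℝ => ((gau w : ℝ) : ℂ) := by
      unfold gau
      fun_prop
    exact (h1.mul h2).aestronglyMeasurable
  have e1 : H t = ∫ w : ℝ, H t * ((gau w : ℝ) : ℂ) := by
    rw [integral_const_mul, integral_complex_ofReal, gau_int]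
    simp
  rw [e1]
  unfold Hs
  refine tendsto_integral_of_dominated_convergence
    (fun w => C1 * Real.exp (κ * |t|) * (Real.exp (κ * |w|) * gau w)) (fun n => hmeas _ _)
    (hdomint.const_mul _) (fun n => ae_of_all _ fun w => hbH _ _ _ (hn0 n) (hn1 n)) (ae_of_all _ fun w => ?_)
  refine Tendsto.mul_const _ ?_
  have h2 : Tendsto (fun n => t - hn n * w) atTop (𝓝 t) := by
    have := (hnt.mul_const w).const_sub t
    simpa using this
  exact ht.tendsto.comp h2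

end

end Pool.Agent.H480.K
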