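import Pool.Agent.H480.P2

/-!
Sup norm version, third part: the main step.
-/

open Complex MeasureTheory Filter Topology Set Polynomial

set_option linter.unusedSectionVars false

namespace Pool.Agent.H480.K

open Pool.Agent.H480.G
open H313.GK (Inv vl inv_shift vl_re vl_im)

noncomputable section

/-- bounded by an exponential and supported on a half line -/
structure SupB (β' : ℝ) (w : ℝ → ℂ) : Prop where
  meas : Measurable w
  cont : ∀ᵐ u : ℝ, ContinuousAt w u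
  bd : ∃ K B : ℝ, 0 ≤ K ∧ 0 ≤ B ∧ (∀ u, ‖w u‖ ≤ K * Real.exp (β' * u)) ∧ ∀ u, u < -B → w u = 0

theorem SupB.gw {β' β ε : ℝ} {w : ℝ → ℂ} (hw : SupB β' w) (hε : 0 < ε) (h : β' ≤ β - ε) : GW β ε w := by
  obtain ⟨K, B, hK, hB, h1, h2⟩ := hw.bd
  refine ⟨hw.meas, hw.cont, K * Real.exp ((|β'| + |β + ε|) * B), by positivity, fun u => ?_⟩
  rcases lt_or_ge u (-B) with hu | hu
  · rw [h2 u hu, norm_zero]
    have := WT_pos β ε u
    positivity
  refine (h1 u).trans ?_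
  rw [mul_assoc]
  refine mul_le_mul_of_nonneg_left ?_ hK
  unfold WT
  rw [← Real.exp_add]
  refine Real.exp_le_exp.2 ?_
  have hpos : 0 ≤ (|β'| + |β + ε|) * B := by positivity
  rcases le_total 0 u with h3 | h3
  · rw [abs_of_nonneg h3]
    nlinarith
  · rw [abs_of_nonpos h3]
    have e1 : β' * u ≤ |β'| * B := by
      calc β' * u ≤ |β' * u| := le_abs_self _
        _ = |β'| * |u| := abs_mul _ _
        _ ≤ |β'| * B := mul_le_mul_of_nonneg_left (by rw [abs_of_nonpos h3]; linarith) (abs_nonneg _)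
    have e2 : -((β + ε) * u) ≤ |β + ε| * B := by
      calc -((β + ε) * u) ≤ |(β + ε) * u| := neg_le_abs _
        _ = |β + ε| * |u| := abs_mul _ _
        _ ≤ |β + ε| * B := mul_le_mul_of_nonneg_left (by rw [abs_of_nonpos h3]; linarith) (abs_nonneg _)
    linarith

theorem SupB.int {β' σ : ℝ} {w : ℝ → ℂ} (hw : SupB β' w) (h : β' < σ) :
    Integrable fun u : ℝ => ‖w u‖ * Real.exp (-(σ * u)) :=
  (hw.gw (β := σ) (ε := σ - β') (by linarith) (by linarith)).int (by linarith)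

theorem supB_of {H : ℝ → ℂ} (hHm : Measurable H) (hHc : ∀ᵐ u : ℝ, ContinuousAt H u) (hH0 : ∀ u, u < 0 → H u = 0)
    {C₁ c₁ : ℝ} (hC : 0 ≤ C₁) (hHb : ∀ u, 0 ≤ u → ‖H u‖ ≤ C₁ * Real.exp (c₁ * u)) (Q : ℂ[X]) {h : ℝ} (hh : 0 < h)
    {β' M : ℝ} (hM : 0 ≤ M) (hw : ∀ u, 0 ≤ u → ‖(aeval (sh h) Q) H u‖ ≤ M * Real.exp (β' * u)) :
    SupB β' ((aeval (sh h) Q) H) := by
  have hfun : (aeval (sh h) Q) H = fun u => ∑ i ∈ Finset.range (Q.natDegree + 1), Q.coeff i * H (u + i * h) :=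
    funext fun u => sh_aeval Q h H u
  set B : ℝ := Q.natDegree * h with hB
  have hB0 : 0 ≤ B := by positivity
  set S : ℝ := ∑ i ∈ Finset.range (Q.natDegree + 1), ‖Q.coeff i‖ with hS
  have hS0 : 0 ≤ S := Finset.sum_nonneg fun _ _ => norm_nonneg _
  have hi : ∀ i ∈ Finset.range (Q.natDegree + 1), (i : ℝ) * h ≤ B := by
    intro i hi
    have : (i : ℝ) ≤ Q.natDegree := by exact_mod_cast Nat.lt_succ_iff.1 (Finset.mem_range.1 hi)
    exact mul_le_mul_of_nonneg_right this hh.le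
  refine ⟨?_, ?_, max M (S * (C₁ * Real.exp (|c₁| * B)) * Real.exp (|β'| * B)), B, le_max_of_le_left hM, hB0, fun u => ?_, fun u hu => ?_⟩
  · rw [hfun]
    exact Finset.measurable_fun_sum _ fun i _ => (hHm.comp (measurable_add_const _)).const_mul _
  · rw [hfun]
    have h1 : ∀ᵐ u : ℝ, ∀ i : ℕ, ContinuousAt H (u + i * h) := ae_all_iff.2 fun i => ae_shift hHc (i * h)
    filter_upwards [h1] with u hu
    refine tendsto_finset_sum _ fun i _ => Tendsto.const_mul _ ?_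
    have h2 : Tendsto (fun v : ℝ => v + i * h) (𝓝 u) (𝓝 (u + i * h)) := (continuous_add_const _).tendsto u
    exact (hu i).tendsto.comp h2
  · rcases le_or_gt 0 u with h0 | h0
    · exact (hw u h0).trans (mul_le_mul_of_nonneg_right (le_max_left _ _) (Real.exp_pos _).le)
    rcases lt_or_ge u (-B) with h1 | h1
    · rw [sh_aeval, Finset.sum_eq_zero, norm_zero]
      · have : 0 ≤ max M (S * (C₁ * Real.exp (|c₁| * B)) * Real.exp (|β'| * B)) := le_max_of_le_left hM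
        positivity
      · intro i hi'
        rw [hH0 _ (by linarith [hi i hi']), mul_zero]
    · have h2 : ‖(aeval (sh h) Q) H u‖ ≤ S * (C₁ * Real.exp (|c₁| * B)) := by
        rw [sh_aeval, hS, Finset.sum_mul]
        refine (norm_sum_le _ _).trans (Finset.sum_le_sum fun i hi' => ?_)
        rw [norm_mul]
        refine mul_le_mul_of_nonneg_left ?_ (norm_nonneg _)
        rcases lt_or_ge (u + i * h) 0 with h3 | h3
        · rw [hH0 _ h3, norm_zero]; positivity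
        · refine (hHb _ h3).trans (mul_le_mul_of_nonneg_left (Real.exp_le_exp.2 ?_) hC)
          calc c₁ * (u + i * h) ≤ |c₁| * (u + i * h) := mul_le_mul_of_nonneg_right (le_abs_self _) h3
            _ ≤ |c₁| * B := mul_le_mul_of_nonneg_left (by linarith [hi i hi']) (abs_nonneg _)
      have h4 : 1 ≤ Real.exp (|β'| * B) * Real.exp (β' * u) := by
        rw [← Real.exp_add]
        refine Real.one_le_exp ?_
        have : -(β' * u) ≤ |β'| * B := by
          calc -(β' * u) ≤ |β' * u| := neg_le_abs _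
            _ = |β'| * |u| := abs_mul _ _
            _ ≤ |β'| * B := mul_le_mul_of_nonneg_left (by rw [abs_of_neg h0]; linarith) (abs_nonneg _)
        linarith
      have h5 : 0 ≤ S * (C₁ * Real.exp (|c₁| * B)) := by positivity
      calc ‖(aeval (sh h) Q) H u‖ ≤ S * (C₁ * Real.exp (|c₁| * B)) * 1 := by rw [mul_one]; exact h2
        _ ≤ S * (C₁ * Real.exp (|c₁| * B)) * (Real.exp (|β'| * B) * Real.exp (β' * u)) := mul_le_mul_of_nonneg_left h4 h5
        _ = S * (C₁ * Real.exp (|c₁| * B)) * Real.exp (|β'| * B) * Real.exp (β' * u) := by ring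
        _ ≤ _ := mul_le_mul_of_nonneg_right (le_max_right _ _) (Real.exp_pos _).le
  · rw [sh_aeval, Finset.sum_eq_zero]
    intro i hi'
    rw [hH0 _ (by linarith [hi i hi']), mul_zero]

/-- **from a recurrence in the sup norm to the function** -/
theorem sup_back {H : ℝ → ℂ} (hHm : Measurable H) (hHc : ∀ᵐ u : ℝ, ContinuousAt H u) (hH0 : ∀ u, u < 0 → H u = 0)
    {C₁ c₁ : ℝ} (hC : 0 ≤ C₁) (hHb : ∀ u, 0 ≤ u → ‖H u‖ ≤ C₁ * Real.exp (c₁ * u)) {Q : ℂ[X]} (hQ : Q ≠ 0) {h : ℝ} (hh : 0 < h)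
    {β' M : ℝ} (hM : 0 ≤ M) (hw : ∀ u, 0 ≤ u → ‖(aeval (sh h) Q) H u‖ ≤ M * Real.exp (β' * u))
    {G : ℂ → ℂ} (hG : ∀ s : ℂ, β' < s.re → DifferentiableAt ℂ G s) {c₀ : ℝ}
    (hGe : ∀ s : ℂ, c₀ < s.re → Lap H s = G s) {β'' : ℝ} (hβ : β' < β'') :
    ∃ K : ℝ, 0 ≤ K ∧ ∀ᵐ u : ℝ, 0 ≤ u → ‖H u‖ ≤ K * Real.exp (β'' * u) := by
  obtain ⟨c, hc, hq⟩ := cf_norm hQ
  set Q' : ℂ[X] := C c * Q with hQ'
  have hQ'0 : Q' ≠ 0 := mul_ne_zero (C_ne_zero.2 hc) hQ
  set w : ℝ → ℂ := (aeval (sh h) Q') H with hwdef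
  have hww : ∀ u, 0 ≤ u → ‖w u‖ ≤ (‖c‖ * M) * Real.exp (β' * u) := by
    intro u hu
    have e1 : w u = c * (aeval (sh h) Q) H u := by
      rw [hwdef, hQ', map_mul, aeval_C]
      simp [Module.algebraMap_end_apply]
    rw [e1, norm_mul, mul_assoc]
    exact mul_le_mul_of_nonneg_left (hw u hu) (norm_nonneg _)
  have hwB : SupB β' w := supB_of hHm hHc hH0 hC hHb Q' hh (by positivity) hww
  have hHI : ∀ σ : ℝ, c₁ < σ → Integrable fun u : ℝ => ‖H u‖ * Real.exp (-(σ * u)) := fun σ hσ => f_int hHm hH0 hC hHb hσ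
  have hwd : ∀ s : ℂ, β' < s.re → DifferentiableAt ℂ (Lap w) s := fun s hs =>
    lap_diff hwB.meas (fun σ hσ => hwB.int hσ) hs
  have hwb : ∀ σ₀ c : ℝ, β' < σ₀ → σ₀ ≤ c → ∃ K : ℝ, 0 ≤ K ∧ ∀ s : ℂ, σ₀ ≤ s.re → s.re ≤ c → ‖Lap w s‖ ≤ K :=
    fun σ₀ c h1 h2 => lap_bdd (fun σ hσ => hwB.int hσ) h1 h2
  have hlap : ∀ s : ℂ, c₁ < s.re → Lap w s = Pq (cf Q') h s * Lap H s := by
    intro s hs
    rw [hwdef, sh_Hq]
    exact lap_Hq hHm _ h (hHI s.re hs)
  have hid : ∀ s : ℂ, β' < s.re → (1:ℂ) * Lap w s = Pq (cf Q') h s * G s := by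
    intro s hs
    rw [one_mul]
    refine half_id (c₀ := max c₀ c₁) hwd (fun s hs => (Pq_diff _ _ s).mul (hG s hs)) (fun s hs => ?_) hs
    rw [hlap s ((le_max_right _ _).trans_lt hs), hGe s ((le_max_left _ _).trans_lt hs)]
    rfl
  have hGb : ∀ σ₀ c : ℝ, β' < σ₀ → σ₀ ≤ c → ∃ K : ℝ, 0 ≤ K ∧ ∀ s : ℂ, σ₀ ≤ s.re → s.re ≤ c → ‖G s‖ ≤ K := by
    intro σ₀ c h1 h2
    obtain ⟨K, hK, hKb⟩ := rect_bound (q := cf Q') hq hh (p := fun _ => 1) hwb hG hid (m := 0) (R := 0) le_rfl (fun s => by simp) h1 h2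
    exact ⟨K, hK, fun s h3 h4 => by simpa using hKb s h3 h4⟩
  obtain ⟨β, ε, hε, hb1, hb2, hroots⟩ := pick_line hQ'0 hh hβ
  obtain ⟨y, hy, hyw⟩ := solve_poly hε hh hQ'0 hroots (hwB.gw hε hb1)
  have hβ'β : β' < β := by linarith
  have hyG : ∀ s : ℂ, s.re = β → Lap y s = G s := by
    intro s hs
    have hsβ : β' < s.re := by rw [hs]; exact hβ'β
    have h1 := hyw s hs
    have h2 := hid s hsβ
    rw [one_mul, Pq_cf] at h2
    rw [h2] at h1
    have h3 : Q'.eval (cexp (s * h)) ≠ 0 := by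
      intro h0
      have h4 : cexp (s * h) ∈ Q'.roots := (mem_roots hQ'0).2 h0
      have h5 : ‖cexp (s * h)‖ = Real.exp (β * h) := by
        rw [Complex.norm_exp]
        simp [hs]
      rcases hroots _ h4 with h6 | h6
      · rw [h5, Real.exp_lt_exp] at h6
        nlinarith
      · rw [h5, Real.exp_lt_exp] at h6
        nlinarith
    exact mul_left_cancel₀ h3 h1
  set c' : ℝ := max |β| (max c₀ c₁) + 1 with hc'
  have k1 : |β| ≤ max |β| (max c₀ c₁) := le_max_left _ _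
  have k2 : c₀ ≤ max |β| (max c₀ c₁) := (le_max_left _ _).trans (le_max_right _ _)
  have k3 : c₁ ≤ max |β| (max c₀ c₁) := (le_max_right _ _).trans (le_max_right _ _)
  have hβc : β ≤ c' := by have := le_abs_self β; linarith
  obtain ⟨D, hD, hDb⟩ := hGb β c' hβ'β hβc
  have hsm : ∀ h' : ℝ, 0 < h' → h' ≤ 1 → ∀ t, Hs H h' t = Hs y h' t := by
    intro h' hh' hh1 t
    have e1 := Hs_eq2 (c := c') (G := G) hHm (hHI c' (by linarith)) (fun τ => hGe (vl c' τ) (by rw [vl_re]; linarith)) hh' hh1 t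
    have e2 := Hs_eq2 (c := β) (G := G) hy.meas (hy.int hε) (fun τ => hyG (vl β τ) (vl_re _ _)) hh' hh1 t
    rw [e1, e2]
    symm
    refine inv_shift (C := Real.exp (c' ^ 2) * (2 / h' ^ 2) * D) hβc (fun s h1 h2 => (KG_diff h' s).mul (hG s (by linarith))) (fun s h1 h2 => ?_) t
    rw [Pi.mul_apply, norm_mul]
    have hre : |s.re| ≤ c' := by
      rw [abs_le]
      have := neg_abs_le β
      constructor <;> linarith
    calc ‖KG h' s‖ * ‖G s‖ ≤ (Real.exp (c' ^ 2) * (2 / h' ^ 2) * (1 + s.im ^ 2)⁻¹) * D :=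
          mul_le_mul (KG_le hh' hh1 s hre) (hDb s h1 h2) (norm_nonneg _) (by positivity)
      _ = _ := by ring
  obtain ⟨My, hMy, hyb⟩ := hy.bd
  have hHall : ∀ u, ‖H u‖ ≤ C₁ * Real.exp (|c₁| * |u|) := by
    intro u
    rcases lt_or_ge u 0 with hu | hu
    · rw [hH0 u hu, norm_zero]; positivity
    · refine (hHb u hu).trans (mul_le_mul_of_nonneg_left (Real.exp_le_exp.2 ?_) hC)
      rw [abs_of_nonneg hu]
      exact mul_le_mul_of_nonneg_right (le_abs_self _) hu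
  have hyall : ∀ u, ‖y u‖ ≤ My * Real.exp (|β| * |u|) := by
    intro u
    refine (hyb u).trans (mul_le_mul_of_nonneg_left (Real.exp_le_exp.2 ?_) hMy)
    have h1 : β * u ≤ |β| * |u| := by rw [← abs_mul]; exact le_abs_self _
    have h2 : 0 ≤ ε * |u| := by positivity
    linarith
  refine ⟨My, hMy, ?_⟩
  filter_upwards [hHc, hy.cont] with t ht1 ht2 ht0
  have l1 := hs_lim hHm hC (abs_nonneg c₁) hHall ht1
  have l2 := hs_lim hy.meas hMy (abs_nonneg β) hyall ht2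
  have e1 : H t = y t := by
    refine tendsto_nhds_unique l1 ?_
    refine l2.congr fun n => ?_
    refine (hsm _ (by positivity) ?_ t).symm
    rw [div_le_one (by positivity)]
    linarith [(Nat.cast_nonneg n : (0:ℝ) ≤ n)]
  rw [e1]
  refine (hyb t).trans (mul_le_mul_of_nonneg_left (Real.exp_le_exp.2 ?_) hMy)
  rw [abs_of_nonneg ht0]
  nlinarith

end

end Pool.Agent.H480.K
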