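import Pool.Agent.H480.P3

/-!
Sup norm version, fourth part: summatory functions with a known continuation.
-/

open Complex MeasureTheory Filter Topology Set Polynomial

set_option linter.unusedSectionVars false

namespace Pool.Agent.H480.K

open Pool.Agent.H480.G
open H313.GK

noncomputable section

variable {r : ℕ}

theorem gp_pow {n : ℕ} (ρ : Fin n → ℂ) (h : ℝ) (i : ℕ) : gp ρ (i * h) = (gp ρ h) ^ i := by
  induction i with
  | zero =>
    rw [pow_zero]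
    unfold gp
    rw [Nat.cast_zero, zero_mul, Complex.ofReal_zero]
    have h0 : (0:ℂ) • Tm ρ = 0 := zero_smul ℂ (Tm ρ)
    exact (congrArg NormedSpace.exp h0).trans NormedSpace.exp_zero
  | succ i ih =>
    have : ((i + 1 : ℕ) : ℝ) * h = i * h + h := by push_cast; ring
    rw [this, gp_add, ih, pow_succ]

theorem Ex_kill {n : ℕ} (ρ a : Fin n → ℂ) (h : ℝ) : ∃ χ : ℂ[X], χ ≠ 0 ∧ (aeval (sh h) χ) (Ex ρ a) = 0 := by
  have hint : IsIntegral ℂ (gp ρ h) := Algebra.IsIntegral.isIntegral _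
  refine ⟨minpoly ℂ (gp ρ h), minpoly.ne_zero hint, ?_⟩
  set χ := minpoly ℂ (gp ρ h) with hχ
  have h0 : aeval (gp ρ h) χ = 0 := minpoly.aeval _ _
  funext u
  rw [sh_aeval]
  have e1 : ∀ i : ℕ, Ex ρ a (u + i * h) = ell a (ev n) ((gp ρ h) ^ i * gp ρ u) := by
    intro i
    unfold Ex
    rw [add_comm, gp_add, gp_pow]
  have e2 : ∑ i ∈ Finset.range (χ.natDegree + 1), χ.coeff i * Ex ρ a (u + i * h) =
      ell a (ev n) ((aeval (gp ρ h) χ) * gp ρ u) := by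
    rw [aeval_eq_sum_range, Finset.sum_mul, map_sum]
    refine Finset.sum_congr rfl fun i _ => ?_
    rw [e1, smul_mul_assoc, map_smul, smul_eq_mul]
  rw [e2, h0, zero_mul, map_zero]
  rfl

theorem sh_qp (q : Fin (r + 1) → ℂ) (h : ℝ) (f : ℝ → ℂ) : (aeval (sh h) (qp q)) f = Hq f q h := by
  funext u
  unfold qp Hq
  rw [map_sum, LinearMap.sum_apply, Finset.sum_apply]
  refine Finset.sum_congr rfl fun i _ => ?_
  rw [map_mul, map_pow, aeval_X, aeval_C, Module.End.mul_apply, Module.algebraMap_end_apply, Pi.smul_apply, sh_pow,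
    smul_eq_mul]

/-- values on the right only -/
theorem sh_congr (Q : ℂ[X]) {h : ℝ} (hh : 0 ≤ h) {f g : ℝ → ℂ} (hfg : ∀ u, 0 ≤ u → f u = g u) {u : ℝ} (hu : 0 ≤ u) :
    (aeval (sh h) Q) f u = (aeval (sh h) Q) g u := by
  rw [sh_aeval, sh_aeval]
  refine Finset.sum_congr rfl fun i _ => ?_
  rw [hfg _ (by positivity)]

theorem sh_bd (Q : ℂ[X]) {h : ℝ} (hh : 0 ≤ h) {f : ℝ → ℂ} {M β' : ℝ} (hM : 0 ≤ M)
    (hf : ∀ u, 0 ≤ u → ‖f u‖ ≤ M * Real.exp (β' * u)) :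
    ∃ M' : ℝ, 0 ≤ M' ∧ ∀ u, 0 ≤ u → ‖(aeval (sh h) Q) f u‖ ≤ M' * Real.exp (β' * u) := by
  refine ⟨∑ i ∈ Finset.range (Q.natDegree + 1), ‖Q.coeff i‖ * (M * Real.exp (β' * (i * h))),
    Finset.sum_nonneg fun i _ => by positivity, fun u hu => ?_⟩
  rw [sh_aeval, Finset.sum_mul]
  refine (norm_sum_le _ _).trans (Finset.sum_le_sum fun i _ => ?_)
  rw [norm_mul, mul_assoc]
  refine mul_le_mul_of_nonneg_left ((hf _ (by positivity)).trans (le_of_eq ?_)) (norm_nonneg _)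
  rw [mul_assoc, ← Real.exp_add]
  congr 2
  ring

/-- right continuity of the remainder -/
theorem HR_right (f : ℕ → ℂ) {n : ℕ} (ρ a : Fin n → ℂ) {u : ℝ} (hu : 0 ≤ u) :
    Tendsto (HR f ρ a) (𝓝[≥] u) (𝓝 (HR f ρ a u)) := by
  set k := ⌊Real.exp u⌋₊ with hk
  have h1 : (k:ℝ) ≤ Real.exp u := Nat.floor_le (Real.exp_pos u).le
  have h2 : Real.exp u < k + 1 := Nat.lt_floor_add_one _
  have hev : ∀ᶠ v in 𝓝[≥] u, HR f ρ a v = SM f (Real.exp u) - Ex ρ a v := by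
    have h3 : ∀ᶠ v in 𝓝[≥] u, Real.exp v < k + 1 :=
      mem_nhdsWithin_of_mem_nhds ((Real.continuous_exp.continuousAt (x := u)).eventually (gt_mem_nhds h2))
    filter_upwards [h3, self_mem_nhdsWithin] with v hv hv2
    have hv3 : u ≤ v := hv2
    have h4 : ⌊Real.exp v⌋₊ = k := by
      rw [Nat.floor_eq_iff (Real.exp_pos v).le]
      exact ⟨h1.trans (Real.exp_le_exp.2 hv3), hv⟩
    unfold HR
    rw [if_pos (hu.trans hv3)]
    simp only [SM]
    rw [h4, ← hk]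
  have e1 : HR f ρ a u = SM f (Real.exp u) - Ex ρ a u := by
    unfold HR
    rw [if_pos hu]
  rw [e1]
  refine Tendsto.congr' (EventuallyEq.symm hev) ?_
  exact tendsto_const_nhds.sub (((Ex_cont ρ a).tendsto u).mono_left nhdsWithin_le_nhds)

/-- almost everywhere bounds hold everywhere -/
theorem HR_every (f : ℕ → ℂ) {n : ℕ} (ρ a : Fin n → ℂ) {K β : ℝ}
    (h : ∀ᵐ u : ℝ, 0 ≤ u → ‖HR f ρ a u‖ ≤ K * Real.exp (β * u)) {u : ℝ} (hu : 0 ≤ u) :
    ‖HR f ρ a u‖ ≤ K * Real.exp (β * u) := by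
  by_contra hcon
  rw [not_le] at hcon
  have h1 : Tendsto (fun v => ‖HR f ρ a v‖ - K * Real.exp (β * v)) (𝓝[≥] u) (𝓝 (‖HR f ρ a u‖ - K * Real.exp (β * u))) := by
    refine (HR_right f ρ a hu).norm.sub ?_
    have : Continuous fun v : ℝ => K * Real.exp (β * v) := by fun_prop
    exact (this.tendsto u).mono_left nhdsWithin_le_nhds
  have h2 : ∀ᶠ v in 𝓝[≥] u, 0 < ‖HR f ρ a v‖ - K * Real.exp (β * v) := h1.eventually (lt_mem_nhds (by linarith))
  obtain ⟨v₀, hv₀, hv₁⟩ := (mem_nhdsGE_iff_exists_Ico_subset (a := u)).1 h2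
  have h3 : volume (Ico u v₀) = 0 := by
    refine measure_mono_null (fun v hv => ?_) h
    have h4 := hv₁ hv
    have h5 : 0 < ‖HR f ρ a v‖ - K * Real.exp (β * v) := h4
    intro h6
    have h7 := h6 (hu.trans hv.1)
    linarith
  rw [Real.volume_Ico, ENNReal.ofReal_eq_zero] at h3
  have : u < v₀ := hv₀
  linarith

/-- on `[1, A] × [1, A']` the function `S (X x y)` is within `X ^ β`, everywhere, of a sum of `r` products
`u_i (x) v_i (y)` -/
def NearSup (S : ℝ → ℂ) (A A' : ℝ) (r : ℕ) (β X : ℝ) : Prop :=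
  ∃ u v : Fin r → ℝ → ℂ, ∀ x ∈ Icc 1 A, ∀ y ∈ Icc 1 A', ‖S (X * x * y) - ∑ i, u i x * v i y‖ ≤ X ^ β

theorem nearSup_log {S : ℝ → ℂ} {A A' : ℝ} (hA : 0 < A) (hA' : 0 < A') {r : ℕ} {β : ℝ}
    (h : ∀ᶠ X : ℝ in atTop, NearSup S A A' r β X) :
    ∀ᶠ t : ℝ in atTop, SupN (fun u => S (Real.exp u)) (Real.log A) (Real.log A') r (Real.exp (β * t)) t := by
  filter_upwards [Real.tendsto_exp_atTop.eventually h] with t ht
  obtain ⟨u, v, huv⟩ := ht
  refine ⟨fun j x => u j (Real.exp x), fun j y => v j (Real.exp y), fun x hx y hy => ?_⟩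
  have h1 : Real.exp x ∈ Icc 1 A := ⟨Real.one_le_exp hx.1, by rw [← Real.exp_log hA]; exact Real.exp_le_exp.2 hx.2⟩
  have h2 : Real.exp y ∈ Icc 1 A' := ⟨Real.one_le_exp hy.1, by rw [← Real.exp_log hA']; exact Real.exp_le_exp.2 hy.2⟩
  have h3 := huv _ h1 _ h2
  rw [← Real.exp_mul, mul_comm t β] at h3
  beta_reduce
  rw [Real.exp_add, Real.exp_add]
  exact h3

/-- **sup norm theorem for summatory functions with a known continuation** -/
theorem sup_known {f : ℕ → ℂ} {b : ℝ} (hb : 0 ≤ b) (hf : ∀ n : ℕ, n ≠ 0 → ‖f n‖ ≤ (n : ℝ) ^ b)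
    {A A' : ℝ} (hA : 1 < A) (hA' : 1 < A') {β β' β'' : ℝ} (h1 : β < β') (h2 : β' < β'')
    (H : ∀ᶠ X : ℝ in atTop, NearSup (SM f) A A' r β X)
    {n : ℕ} (ρ a : Fin n → ℂ) {G : ℂ → ℂ} (hG : ∀ s : ℂ, β' < s.re → DifferentiableAt ℂ G s) {c₀ : ℝ}
    (hform : ∀ s : ℂ, c₀ < s.re → LSeries f s / s = ∑ k, a k * (1 / ∏ i ∈ Finset.Ici k, (s - ρ i)) + G s) :
    ∃ K : ℝ, 0 ≤ K ∧ ∀ x : ℝ, 1 ≤ x → ‖SM f x - Ex ρ a (Real.log x)‖ ≤ K * x ^ β'' := by
  have hlA := Real.log_pos hA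
  have hlA' := Real.log_pos hA'
  set h : ℝ := min (Real.log A) (Real.log A') / (r + 1) with hh
  have hh0 : 0 < h := by
    rw [hh]
    exact div_pos (lt_min hlA hlA') (by positivity)
  have hrh : (r + 1) * h = min (Real.log A) (Real.log A') := by
    rw [hh]; field_simp
  set F : ℝ → ℂ := fun u => SM f (Real.exp u) with hF
  have hSb : ∀ u : ℝ, 0 ≤ u → ‖F u‖ ≤ 1 * Real.exp ((b + 1) * u) := fun u _ => SM_bd hb hf u
  obtain ⟨q, hq, M, hM, hqM⟩ := sup_scales (f := F) zero_le_one hSb hh0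
    (hrh.le.trans (min_le_left _ _)) (hrh.le.trans (min_le_right _ _)) h1 (nearSup_log (by linarith) (by linarith) H)
  -- the recurrence in the sup norm
  have hrec : ∀ u, 0 ≤ u → ‖(aeval (sh h) (qp q)) F u‖ ≤ (M * Real.exp (|β'| * h)) * Real.exp (β' * u) := by
    intro u hu
    set m : ℕ := ⌊u / h⌋₊ with hm
    have hm1 : (m : ℝ) * h ≤ u := by
      have := Nat.floor_le (div_nonneg hu hh0.le)
      rwa [le_div_iff₀ hh0] at this
    have hm2 : u < (m + 1) * h := by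
      have := Nat.lt_floor_add_one (u / h)
      rwa [div_lt_iff₀ hh0] at this
    set v : ℝ := u - m * h with hv
    have hv0 : v ∈ Icc 0 h := ⟨by rw [hv]; linarith, by rw [hv]; linarith⟩
    have e1 : (aeval (sh h) (qp q)) F u = ∑ i, q i * F ((m + (i : ℕ)) * h + v) := by
      rw [sh_qp]
      unfold Hq
      refine Finset.sum_congr rfl fun i _ => ?_
      congr 2
      rw [hv]; ring
    rw [e1]
    refine (hqM m v hv0).trans ?_
    rw [mul_assoc M, ← Real.exp_add]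
    refine mul_le_mul_of_nonneg_left (Real.exp_le_exp.2 ?_) hM
    have e2 : β' * u = β' * h * m + β' * v := by rw [hv]; ring
    have e3 : -(β' * v) ≤ |β'| * h := by
      calc -(β' * v) ≤ |β' * v| := neg_le_abs _
        _ = |β'| * v := by rw [abs_mul, abs_of_nonneg hv0.1]
        _ ≤ |β'| * h := mul_le_mul_of_nonneg_left hv0.2 (abs_nonneg _)
    rw [e2]
    linarith
  obtain ⟨χ, hχ0, hχ⟩ := Ex_kill ρ a h
  obtain ⟨M', hM', hbd⟩ := sh_bd χ hh0.le (mul_nonneg hM (Real.exp_pos _).le) hrec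
  have hQ : χ * qp q ≠ 0 := mul_ne_zero hχ0 (qp_ne hq)
  have hHRw : ∀ u, 0 ≤ u → ‖(aeval (sh h) (χ * qp q)) (HR f ρ a) u‖ ≤ M' * Real.exp (β' * u) := by
    intro u hu
    have e1 : (aeval (sh h) (χ * qp q)) (HR f ρ a) u = (aeval (sh h) (χ * qp q)) (F - Ex ρ a) u := by
      refine sh_congr _ hh0.le (fun v hv => ?_) hu
      unfold HR
      rw [if_pos hv]
      rfl
    have e2 : (aeval (sh h) (χ * qp q)) (F - Ex ρ a) = (aeval (sh h) χ) ((aeval (sh h) (qp q)) F) := by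
      rw [map_sub]
      have e3 : (aeval (sh h) (χ * qp q)) (Ex ρ a) = 0 := by
        rw [mul_comm, map_mul, Module.End.mul_apply, hχ, map_zero]
      rw [e3, sub_zero, map_mul, Module.End.mul_apply]
    rw [e1, e2]
    exact hbd u hu
  obtain ⟨C1, hC1, hC1b⟩ := HR_bd hb hf ρ a
  have hGe : ∀ s : ℂ, max (max c₀ (b + 1)) (max ‖Tm ρ‖ (∑ k, ‖ρ k‖)) < s.re → Lap (HR f ρ a) s = G s := by
    intro s hs
    have k1 : c₀ < s.re := ((le_max_left _ _).trans (le_max_left _ _)).trans_lt hs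
    have k2 : b + 1 < s.re := ((le_max_right _ _).trans (le_max_left _ _)).trans_lt hs
    have k3 : ‖Tm ρ‖ < s.re := ((le_max_left _ _).trans (le_max_right _ _)).trans_lt hs
    have k4 : ∑ k, ‖ρ k‖ < s.re := ((le_max_right _ _).trans (le_max_right _ _)).trans_lt hs
    refine rem_trans hb hf ρ a k2 k3 (fun k h0 => ?_) (hform s k1)
    have h3 : s = ρ k := sub_eq_zero.1 h0
    have h4 : ‖ρ k‖ ≤ ∑ k, ‖ρ k‖ := Finset.single_le_sum (f := fun k => ‖ρ k‖) (fun _ _ => norm_nonneg _) (Finset.mem_univ k)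
    have h5 := Complex.re_le_norm (ρ k)
    rw [← h3] at h5 h4
    linarith
  obtain ⟨K, hK, hKa⟩ := sup_back (HR_meas f ρ a) (HR_ae f ρ a) (fun u hu => HR_neg f ρ a hu) hC1 (fun u _ => hC1b u)
    hQ hh0 hM' hHRw hG hGe h2
  refine ⟨K, hK, fun x hx => ?_⟩
  have hx0 : 0 < x := by linarith
  have hlx := Real.log_nonneg hx
  have h3 := HR_every f ρ a hKa hlx
  unfold HR at h3
  rw [if_pos hlx, Real.exp_log hx0] at h3
  have e1 : Real.exp (β'' * Real.log x) = x ^ β'' := by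
    rw [Real.rpow_def_of_pos hx0, mul_comm]
  rwa [e1] at h3

end

end Pool.Agent.H480.K
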