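import Pool.Agent.H480.P4
import Mathlib.NumberTheory.ModularForms.LFunction

/-!
Sup norm version, fifth part: holomorphic continuation, and cusp forms.
-/

open Complex MeasureTheory Filter Topology Set Polynomial
open scoped MatrixGroups

set_option linter.unusedSectionVars false

namespace Pool.Agent.H480.K

open Pool.Agent.H480.G
open H313.GK

noncomputable section

theorem Ex_zero (ρ a : Fin 0 → ℂ) (u : ℝ) : Ex ρ a u = 0 := by
  unfold Ex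
  rw [ell_apply]
  simp

theorem SM_smul (c : ℂ) (f : ℕ → ℂ) (x : ℝ) : SM (c • f) x = c * SM f x := by
  simp only [SM, Pi.smul_apply, smul_eq_mul]
  rw [Finset.mul_sum]

theorem NearSup.smul {f : ℕ → ℂ} {A A' : ℝ} {r : ℕ} {β X : ℝ} {c : ℂ} (hc : ‖c‖ ≤ 1) (h : NearSup (SM f) A A' r β X) :
    NearSup (SM (c • f)) A A' r β X := by
  obtain ⟨u, v, huv⟩ := h
  refine ⟨fun i x => c * u i x, v, fun x hx y hy => ?_⟩
  have e1 : SM (c • f) (X * x * y) - ∑ i, c * u i x * v i y = c * (SM f (X * x * y) - ∑ i, u i x * v i y) := by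
    rw [SM_smul, mul_sub, Finset.mul_sum]
    congr 1
    exact Finset.sum_congr rfl fun i _ => by ring
  rw [e1, norm_mul]
  calc ‖c‖ * ‖SM f (X * x * y) - ∑ i, u i x * v i y‖ ≤ 1 * ‖SM f (X * x * y) - ∑ i, u i x * v i y‖ :=
        mul_le_mul_of_nonneg_right hc (norm_nonneg _)
    _ ≤ _ := by rw [one_mul]; exact huv x hx y hy

/-- a bound gives an approximation of rank zero -/
theorem nearSup_of {S : ℝ → ℂ} {K θ ε : ℝ} (hK : 0 ≤ K) (hε : 0 < ε) (hθ : 0 ≤ θ) (h : ∀ x : ℝ, 1 ≤ x → ‖S x‖ ≤ K * x ^ (θ + ε / 2))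
    {A A' : ℝ} (hA : 1 < A) (hA' : 1 < A') (r : ℕ) : ∀ᶠ X : ℝ in atTop, NearSup S A A' r (θ + ε) X := by
  have h1 : Tendsto (fun X : ℝ => X ^ (ε / 2)) atTop atTop := tendsto_rpow_atTop (by linarith)
  filter_upwards [h1.eventually_ge_atTop (K * (A * A') ^ (θ + ε / 2)), eventually_ge_atTop 1] with X hX hX1
  refine ⟨fun _ _ => 0, fun _ _ => 0, fun x hx y hy => ?_⟩
  have hX0 : 0 < X := by linarith
  have hx1 : 1 ≤ x := hx.1
  have hy1 : 1 ≤ y := hy.1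
  have hxy : 1 ≤ X * x * y := by
    have := mul_le_mul hX1 hx1 zero_le_one hX0.le
    have h2 : 1 ≤ X * x := by linarith
    have h3 := mul_le_mul h2 hy1 zero_le_one (by linarith)
    linarith
  simp only [mul_zero, Finset.sum_const_zero, sub_zero]
  have hle : X * x * y ≤ X * (A * A') := by
    rw [mul_assoc]
    refine mul_le_mul_of_nonneg_left ?_ hX0.le
    exact mul_le_mul hx.2 hy.2 (by linarith) (by linarith)
  have hA0 : 0 < A * A' := by nlinarith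
  calc ‖S (X * x * y)‖ ≤ K * (X * x * y) ^ (θ + ε / 2) := h _ hxy
    _ ≤ K * (X * (A * A')) ^ (θ + ε / 2) := mul_le_mul_of_nonneg_left (Real.rpow_le_rpow (by linarith) hle (by linarith)) hK
    _ = (K * (A * A') ^ (θ + ε / 2)) * X ^ (θ + ε / 2) := by
        rw [Real.mul_rpow hX0.le hA0.le]; ring
    _ ≤ X ^ (ε / 2) * X ^ (θ + ε / 2) := mul_le_mul_of_nonneg_right hX (by positivity)
    _ = X ^ (θ + ε) := by
        rw [← Real.rpow_add hX0]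
        congr 1
        ring

/-- **sup norm theorem, holomorphic case** -/
theorem hol_tfae {f : ℕ → ℂ} {C₁ b : ℝ} (hf : ∀ n : ℕ, n ≠ 0 → ‖f n‖ ≤ C₁ * (n : ℝ) ^ b) {δ : ℝ} (hδ : 0 ≤ δ) {Φ : ℂ → ℂ}
    (hΦ : ∀ s : ℂ, δ < s.re → DifferentiableAt ℂ Φ s) {c₀ : ℝ} (hL : ∀ s : ℂ, c₀ < s.re → LSeries f s = Φ s)
    {A A' : ℝ} (hA : 1 < A) (hA' : 1 < A') {θ : ℝ} (hθ : δ ≤ θ) :
    [∀ ε : ℝ, 0 < ε → ∃ K : ℝ, ∀ x : ℝ, 1 ≤ x → ‖SM f x‖ ≤ K * x ^ (θ + ε),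
     ∃ r : ℕ, ∀ ε : ℝ, 0 < ε → ∀ᶠ X : ℝ in atTop, NearSup (SM f) A A' r (θ + ε) X,
     ∀ ε : ℝ, 0 < ε → ∃ r : ℕ, ∀ᶠ X : ℝ in atTop, NearSup (SM f) A A' r (θ + ε) X].TFAE := by
  have hθ0 : 0 ≤ θ := hδ.trans hθ
  tfae_have 1 → 2 := by
    intro h
    refine ⟨0, fun ε hε => ?_⟩
    obtain ⟨K, hK⟩ := h (ε / 2) (by linarith)
    have hK0 : 0 ≤ K := by
      have := (norm_nonneg _).trans (hK 1 le_rfl)
      simpa using this
    exact nearSup_of hK0 hε hθ0 hK hA hA' 0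
  tfae_have 2 → 3 := fun ⟨r, h⟩ ε hε => ⟨r, h ε hε⟩
  tfae_have 3 → 1 := by
    intro h ε hε
    obtain ⟨r, hr⟩ := h (ε / 3) (by linarith)
    set C' : ℝ := max C₁ 1 with hC'
    have hC'1 : 1 ≤ C' := le_max_right _ _
    have hC'0 : 0 < C' := by linarith
    set c : ℂ := ((C'⁻¹ : ℝ) : ℂ) with hc
    have hcn : ‖c‖ = C'⁻¹ := by
      rw [hc, Complex.norm_real, Real.norm_eq_abs, abs_of_pos (inv_pos.2 hC'0)]
    have hc1 : ‖c‖ ≤ 1 := by rw [hcn]; exact inv_le_one_of_one_le₀ hC'1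
    have hf' : ∀ n : ℕ, n ≠ 0 → ‖(c • f) n‖ ≤ (n : ℝ) ^ (max b 0) := by
      intro n hn
      have hn1 : (1:ℝ) ≤ n := by exact_mod_cast Nat.one_le_iff_ne_zero.2 hn
      rw [Pi.smul_apply, smul_eq_mul, norm_mul, hcn]
      have h1 : (n : ℝ) ^ b ≤ (n : ℝ) ^ (max b 0) := Real.rpow_le_rpow_of_exponent_le hn1 (le_max_left _ _)
      have h2 : 0 ≤ (n : ℝ) ^ b := by positivity
      calc C'⁻¹ * ‖f n‖ ≤ C'⁻¹ * (C' * (n : ℝ) ^ b) := by
            refine mul_le_mul_of_nonneg_left ((hf n hn).trans ?_) (inv_pos.2 hC'0).le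
            exact mul_le_mul_of_nonneg_right (le_max_left _ _) h2
        _ = (n : ℝ) ^ b := by field_simp
        _ ≤ _ := h1
    have hG : ∀ s : ℂ, θ + 2 * ε / 3 < s.re → DifferentiableAt ℂ (fun s => c * Φ s / s) s := by
      intro s hs
      have hs0 : s ≠ 0 := by
        intro h0
        rw [h0, Complex.zero_re] at hs
        linarith
      exact ((hΦ s (by linarith)).const_mul c).div differentiableAt_id hs0
    have hform : ∀ s : ℂ, c₀ < s.re → LSeries (c • f) s / s =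
        ∑ k : Fin 0, Fin.elim0 k * (1 / ∏ i ∈ Finset.Ici k, (s - Fin.elim0 i)) + c * Φ s / s := by
      intro s hs
      rw [LSeries_smul, hL s hs]
      simp
    obtain ⟨K, hK, hKb⟩ := sup_known (r := r) (β := θ + ε / 3) (β' := θ + 2 * ε / 3) (β'' := θ + ε) (le_max_right b 0) hf' hA hA'
      (by linarith) (by linarith) (hr.mono fun X hX => hX.smul hc1) (n := 0) (fun k => Fin.elim0 k) (fun k => Fin.elim0 k)
      hG (c₀ := c₀) hform
    refine ⟨C' * K, fun x hx => ?_⟩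
    have h1 := hKb x hx
    rw [Ex_zero, sub_zero, SM_smul, norm_mul, hcn] at h1
    rw [mul_assoc]
    calc ‖SM f x‖ = C' * (C'⁻¹ * ‖SM f x‖) := by field_simp
      _ ≤ _ := mul_le_mul_of_nonneg_left h1 hC'0.le
  tfae_finish

/-- the normalised Fourier coefficients `a_n n ^ (-(k - 1) / 2)` of a form of weight `k` -/
def lam {Γ : Subgroup (GL (Fin 2) ℝ)} {k : ℤ} (f : CuspForm Γ k) (n : ℕ) : ℂ :=
  (UpperHalfPlane.qExpansion Γ.strictWidthInfty f).coeff n / (n : ℂ) ^ (((k : ℂ) - 1) / 2)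

theorem lam_bd {Γ : Subgroup (GL (Fin 2) ℝ)} [Γ.IsArithmetic] {k : ℤ} (f : CuspForm Γ k) :
    ∃ C₁ : ℝ, ∀ n : ℕ, n ≠ 0 → ‖lam f n‖ ≤ C₁ * (n : ℝ) ^ (1 / 2 : ℝ) := by
  have h1 := CuspFormClass.qExpansion_isBigO f
  obtain ⟨C₁, hC₁, h2⟩ := Asymptotics.bound_of_isBigO_nat_atTop h1
  refine ⟨C₁, fun n hn => ?_⟩
  have hn0 : (0:ℝ) < n := by exact_mod_cast Nat.pos_of_ne_zero hn
  have h3 := h2 (x := n) (by positivity)
  unfold lam
  have e1 : ‖(n : ℂ) ^ (((k : ℂ) - 1) / 2)‖ = (n : ℝ) ^ (((k : ℝ) - 1) / 2) := by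
    rw [Complex.norm_natCast_cpow_of_pos (Nat.pos_of_ne_zero hn)]
    congr 1
    simp
  rw [norm_div, e1, div_le_iff₀ (by positivity)]
  refine h3.trans (le_of_eq ?_)
  rw [Real.norm_eq_abs, abs_of_pos (by positivity), mul_assoc, ← Real.rpow_add hn0]
  congr 2
  ring

theorem lam_L {Γ : Subgroup (GL (Fin 2) ℝ)} [Γ.IsArithmetic] {k : ℤ} (hk : 0 < k) (f : CuspForm Γ k) {s : ℂ}
    (hs : 3 / 2 < s.re) : LSeries (lam f) s =
      (Γ.strictWidthInfty : ℂ) ^ (-(s + ((k : ℂ) - 1) / 2)) * ModularForm.L hk f (s + ((k : ℂ) - 1) / 2) := by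
  have hs' : (k : ℝ) / 2 + 1 < (s + ((k : ℂ) - 1) / 2).re := by
    simp
    linarith
  have hS := CuspForm.hasSum_L (Γ := Γ) hk f hs'
  refine Eq.trans ?_ hS.tsum_eq
  unfold LSeries
  refine tsum_congr fun n => ?_
  rcases eq_or_ne n 0 with rfl | hn
  · rw [LSeries.term_zero]
    have h0 : s + ((k : ℂ) - 1) / 2 ≠ 0 := by
      intro h0
      rw [h0, Complex.zero_re] at hs'
      have : (0:ℝ) < k := by exact_mod_cast hk
      linarith
    rw [Nat.cast_zero, Complex.zero_cpow h0, div_zero]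
  · rw [LSeries.term_of_ne_zero hn]
    unfold lam
    have hnc : (n : ℂ) ≠ 0 := by exact_mod_cast hn
    rw [add_comm, Complex.cpow_add _ _ hnc, div_div]

/-- **the main theorem for cusp forms** -/
theorem cusp_tfae {Γ : Subgroup (GL (Fin 2) ℝ)} [Γ.IsArithmetic] {k : ℤ} (hk : 0 < k) (f : CuspForm Γ k)
    {A A' : ℝ} (hA : 1 < A) (hA' : 1 < A') {θ : ℝ} (hθ : 0 ≤ θ) :
    [∀ ε : ℝ, 0 < ε → ∃ K : ℝ, ∀ x : ℝ, 1 ≤ x → ‖SM (lam f) x‖ ≤ K * x ^ (θ + ε),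
     ∃ r : ℕ, ∀ ε : ℝ, 0 < ε → ∀ᶠ X : ℝ in atTop, NearSup (SM (lam f)) A A' r (θ + ε) X,
     ∀ ε : ℝ, 0 < ε → ∃ r : ℕ, ∀ᶠ X : ℝ in atTop, NearSup (SM (lam f)) A A' r (θ + ε) X].TFAE := by
  obtain ⟨C₁, hC₁⟩ := lam_bd f
  have hh : (Γ.strictWidthInfty : ℂ) ≠ 0 := by exact_mod_cast Γ.strictWidthInfty_pos.ne'
  refine hol_tfae hC₁ le_rfl (Φ := fun s => (Γ.strictWidthInfty : ℂ) ^ (-(s + ((k : ℂ) - 1) / 2)) *
    ModularForm.L hk f (s + ((k : ℂ) - 1) / 2)) (fun s _ => ?_) (c₀ := 3 / 2) (fun s hs => lam_L hk f hs) hA hA' hθ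
  refine DifferentiableAt.mul ?_ ?_
  · exact ((differentiableAt_id.add_const _).neg).const_cpow (Or.inl hh)
  · exact (CuspForm.differentiable_L hk f _).comp s (differentiableAt_id.add_const _)

end

end Pool.Agent.H480.K
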