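import Pool.Agent.H480.P5

/-!
Exponential polynomials: explicit form and separability.
-/

open Complex MeasureTheory Filter Topology Set

set_option linter.unusedSectionVars false

namespace Pool.Agent.H480.Q

open Pool.Agent.H480.G

noncomputable section

variable {n : ℕ}

/-- number of later occurrences of the `j`-th exponent -/
def mu (ρ : Fin n → ℂ) (j : Fin n) : ℕ := (Finset.univ.filter fun i => j < i ∧ ρ i = ρ j).card

/-- the basic exponential polynomial -/
def eb (ρ : Fin n → ℂ) (j : Fin n) (u : ℝ) : ℂ := (u : ℂ) ^ mu ρ j * cexp (ρ j * u)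

/-- number of occurrences of `z` from `k` on -/
def cnt (ρ : Fin n → ℂ) (k : ℕ) (z : ℂ) : ℕ := (Finset.univ.filter fun i : Fin n => k ≤ (i : ℕ) ∧ ρ i = z).card

theorem mu_eq (ρ : Fin n → ℂ) (j : Fin n) : mu ρ j = cnt ρ (j + 1) (ρ j) := rfl

theorem cnt_succ_eq (ρ : Fin n → ℂ) (κ : Fin n) : cnt ρ κ (ρ κ) = cnt ρ (κ + 1) (ρ κ) + 1 := by
  classical
  unfold cnt
  have h1 : (Finset.univ.filter fun i : Fin n => (κ : ℕ) ≤ (i : ℕ) ∧ ρ i = ρ κ) =
      insert κ (Finset.univ.filter fun i : Fin n => (κ : ℕ) + 1 ≤ (i : ℕ) ∧ ρ i = ρ κ) := by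
    ext i
    simp only [Finset.mem_filter, Finset.mem_univ, true_and, Finset.mem_insert]
    constructor
    · rintro ⟨h2, h3⟩
      rcases h2.lt_or_eq with h4 | h4
      · exact Or.inr ⟨h4, h3⟩
      · exact Or.inl (Fin.ext h4.symm)
    · rintro (h2 | ⟨h2, h3⟩)
      · rw [h2]; exact ⟨le_rfl, rfl⟩
      · exact ⟨by omega, h3⟩
  rw [h1, Finset.card_insert_of_notMem]
  simp

theorem cnt_succ_ne (ρ : Fin n → ℂ) (κ : Fin n) {z : ℂ} (hz : ρ κ ≠ z) : cnt ρ κ z = cnt ρ (κ + 1) z := by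
  unfold cnt
  congr 1
  ext i
  simp only [Finset.mem_filter, Finset.mem_univ, true_and]
  constructor
  · rintro ⟨h2, h3⟩
    refine ⟨?_, h3⟩
    rcases h2.lt_or_eq with h4 | h4
    · exact h4
    · exfalso
      apply hz
      rw [← h3]
      congr 1
      exact Fin.ext h4
  · rintro ⟨h2, h3⟩
    exact ⟨by omega, h3⟩

theorem avail (ρ : Fin n → ℂ) (z : ℂ) (m : ℕ) : ∀ (d k : ℕ), n ≤ k + d → m < cnt ρ k z →
    ∃ j : Fin n, k ≤ (j : ℕ) ∧ ρ j = z ∧ mu ρ j = m := by
  intro d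
  induction d with
  | zero =>
    intro k hk hm
    exfalso
    have : cnt ρ k z = 0 := by
      unfold cnt
      rw [Finset.card_eq_zero, Finset.filter_eq_empty_iff]
      rintro i - ⟨h1, -⟩
      have := i.2
      omega
    omega
  | succ d ih =>
    intro k hk hm
    rcases Nat.lt_or_ge k n with hkn | hkn
    · set κ : Fin n := ⟨k, hkn⟩ with hκ
      by_cases hz : ρ κ = z
      · have h1 := cnt_succ_eq ρ κ
        rw [hz] at h1
        have h2 : cnt ρ k z = cnt ρ (k + 1) z + 1 := h1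
        rcases Nat.lt_or_ge m (cnt ρ (k + 1) z) with h3 | h3
        · obtain ⟨j, hj1, hj2⟩ := ih (k + 1) (by omega) h3
          exact ⟨j, by omega, hj2⟩
        · refine ⟨κ, le_rfl, hz, ?_⟩
          rw [mu_eq, hz]
          show cnt ρ (k + 1) z = m
          omega
      · have h1 := cnt_succ_ne ρ κ hz
        have h2 : cnt ρ k z = cnt ρ (k + 1) z := h1
        obtain ⟨j, hj1, hj2⟩ := ih (k + 1) (by omega) (by omega)
        exact ⟨j, by omega, hj2⟩
    · exfalso
      have : cnt ρ k z = 0 := by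
        unfold cnt
        rw [Finset.card_eq_zero, Finset.filter_eq_empty_iff]
        rintro i - ⟨h1, -⟩
        have := i.2
        omega
      omega

/-- the space spanned by the basic functions from `k` on -/
def WS (ρ : Fin n → ℂ) (k : ℕ) : Submodule ℂ (ℝ → ℂ) := Submodule.span ℂ {f | ∃ j : Fin n, k ≤ (j : ℕ) ∧ f = eb ρ j}

/-- power times exponential -/
def pe (m : ℕ) (z : ℂ) (u : ℝ) : ℂ := (u : ℂ) ^ m * cexp (z * u)

theorem pe_mem (ρ : Fin n → ℂ) {k m : ℕ} {z : ℂ} (h : m < cnt ρ k z) : pe m z ∈ WS ρ k := by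
  obtain ⟨j, h1, h2, h3⟩ := avail ρ z m n k (by omega) h
  refine Submodule.subset_span ⟨j, h1, ?_⟩
  funext u
  unfold pe eb
  rw [h2, h3]

theorem pe_deriv (m : ℕ) (z : ℂ) (u : ℝ) :
    HasDerivAt (pe (m + 1) z) (z * pe (m + 1) z u + (m + 1) * pe m z u) u := by
  have h1 : HasDerivAt (fun u : ℝ => (u : ℂ) ^ (m + 1)) (((m + 1 : ℕ) : ℂ) * (u : ℂ) ^ m * 1) u := by
    have h0 : HasDerivAt (fun z : ℂ => z ^ (m + 1)) (((m + 1 : ℕ) : ℂ) * (u : ℂ) ^ m) (u : ℂ) := by
      simpa using hasDerivAt_pow (m + 1) (u : ℂ)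
    have h5 := h0.comp_ofReal
    exact h5.congr_deriv (mul_one _).symm
  have h2 : HasDerivAt (fun u : ℝ => cexp (z * u)) (cexp (z * u) * z) u := by
    have h4 : HasDerivAt (fun u : ℝ => z * (u : ℂ)) z u := by
      simpa using (((hasDerivAt_id u).ofReal_comp).const_mul z)
    exact h4.cexp
  refine (h1.mul h2).congr_deriv ?_
  unfold pe
  push_cast
  ring

theorem pe_deriv0 (z : ℂ) (u : ℝ) : HasDerivAt (pe 0 z) (z * pe 0 z u) u := by
  have h2 : HasDerivAt (fun u : ℝ => cexp (z * u)) (cexp (z * u) * z) u := by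
    have h4 : HasDerivAt (fun u : ℝ => z * (u : ℂ)) z u := by
      simpa using (((hasDerivAt_id u).ofReal_comp).const_mul z)
    exact h4.cexp
  have h3 : pe 0 z = fun u : ℝ => cexp (z * u) := by
    funext u
    unfold pe
    rw [pow_zero, one_mul]
  rw [h3]
  exact h2.congr_deriv (mul_comm _ _)

theorem ode_pe (ρ : Fin n → ℂ) (κ : Fin n) {z : ℂ} : ∀ m : ℕ, m < cnt ρ (κ + 1) z →
    ∃ p ∈ WS ρ κ, ∀ u : ℝ, HasDerivAt p (ρ κ * p u + pe m z u) u := by
  by_cases hz : ρ κ = z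
  · intro m hm
    have h1 := cnt_succ_eq ρ κ
    rw [hz] at h1
    refine ⟨((m : ℂ) + 1)⁻¹ • pe (m + 1) z, Submodule.smul_mem _ _ (pe_mem ρ (by omega)), fun u => ?_⟩
    have hne : (m : ℂ) + 1 ≠ 0 := by exact_mod_cast Nat.succ_ne_zero m
    refine ((pe_deriv m z u).const_smul ((m : ℂ) + 1)⁻¹).congr_deriv ?_
    rw [Pi.smul_apply, smul_eq_mul, smul_eq_mul, hz]
    field_simp
  · have hne : z - ρ κ ≠ 0 := sub_ne_zero.2 (Ne.symm hz)
    have hc := cnt_succ_ne ρ κ hz
    intro m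
    induction m with
    | zero =>
      intro hm
      refine ⟨(z - ρ κ)⁻¹ • pe 0 z, Submodule.smul_mem _ _ (pe_mem ρ (by omega)), fun u => ?_⟩
      refine ((pe_deriv0 z u).const_smul (z - ρ κ)⁻¹).congr_deriv ?_
      rw [Pi.smul_apply, smul_eq_mul, smul_eq_mul]
      field_simp
      ring
    | succ m ih =>
      intro hm
      obtain ⟨p, hp, hpd⟩ := ih (by omega)
      refine ⟨(z - ρ κ)⁻¹ • pe (m + 1) z + (-((m : ℂ) + 1) * (z - ρ κ)⁻¹) • p,
        Submodule.add_mem _ (Submodule.smul_mem _ _ (pe_mem ρ (by omega))) (Submodule.smul_mem _ _ hp), fun u => ?_⟩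
      refine (((pe_deriv m z u).const_smul (z - ρ κ)⁻¹).add ((hpd u).const_smul (-((m : ℂ) + 1) * (z - ρ κ)⁻¹))).congr_deriv ?_
      simp only [Pi.add_apply, Pi.smul_apply, smul_eq_mul]
      field_simp
      ring

theorem ode_WS (ρ : Fin n → ℂ) (κ : Fin n) {f : ℝ → ℂ} (hf : f ∈ WS ρ (κ + 1)) :
    ∃ p ∈ WS ρ κ, ∀ u : ℝ, HasDerivAt p (ρ κ * p u + f u) u := by
  unfold WS at hf
  induction hf using Submodule.span_induction with
  | mem f hf =>
    obtain ⟨j, hj, rfl⟩ := hf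
    have h1 : mu ρ j < cnt ρ (κ + 1) (ρ j) := by
      have h2 := cnt_succ_eq ρ j
      have h3 : cnt ρ j (ρ j) ≤ cnt ρ (κ + 1) (ρ j) := by
        unfold cnt
        refine Finset.card_le_card fun i hi => ?_
        simp only [Finset.mem_filter, Finset.mem_univ, true_and] at hi ⊢
        exact ⟨by omega, hi.2⟩
      rw [mu_eq]
      omega
    exact ode_pe ρ κ _ h1
  | zero =>
    refine ⟨0, Submodule.zero_mem _, fun u => ?_⟩
    have h1 : HasDerivAt (0 : ℝ → ℂ) 0 u := hasDerivAt_const u (0:ℂ)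
    exact h1.congr_deriv (by simp)
  | add f g _ _ hf hg =>
    obtain ⟨p, hp, hpd⟩ := hf
    obtain ⟨q, hq, hqd⟩ := hg
    refine ⟨p + q, Submodule.add_mem _ hp hq, fun u => ?_⟩
    refine ((hpd u).add (hqd u)).congr_deriv ?_
    simp only [Pi.add_apply]
    ring
  | smul c f _ hf =>
    obtain ⟨p, hp, hpd⟩ := hf
    refine ⟨c • p, Submodule.smul_mem _ _ hp, fun u => ?_⟩
    refine ((hpd u).const_smul c).congr_deriv ?_
    simp only [Pi.smul_apply, smul_eq_mul]
    ring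

theorem WS_mono (ρ : Fin n → ℂ) {k l : ℕ} (h : k ≤ l) : WS ρ l ≤ WS ρ k := by
  refine Submodule.span_mono ?_
  rintro f ⟨j, hj, rfl⟩
  exact ⟨j, by omega, rfl⟩

/-- all solutions -/
theorem ode_all (ρ : Fin n → ℂ) (κ : Fin n) {f w : ℝ → ℂ} (hf : f ∈ WS ρ (κ + 1))
    (hw : ∀ u : ℝ, HasDerivAt w (ρ κ * w u + f u) u) : w ∈ WS ρ κ := by
  obtain ⟨p, hp, hpd⟩ := ode_WS ρ κ hf
  have h1 : ∀ u : ℝ, HasDerivAt (fun u : ℝ => (w u - p u) * cexp (-ρ κ * u)) 0 u := by
    intro u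
    have h2 : HasDerivAt (fun u : ℝ => cexp (-ρ κ * u)) (cexp (-ρ κ * u) * (-ρ κ)) u := by
      have h4 : HasDerivAt (fun u : ℝ => -ρ κ * (u : ℂ)) (-ρ κ) u := by
        simpa using (((hasDerivAt_id u).ofReal_comp).const_mul (-ρ κ))
      exact h4.cexp
    refine (((hw u).sub (hpd u)).mul h2).congr_deriv ?_
    simp only [Pi.sub_apply]
    ring
  have h2 : ∀ u : ℝ, (w u - p u) * cexp (-ρ κ * u) = (w 0 - p 0) * cexp (-ρ κ * (0:ℝ)) := fun u =>
    is_const_of_deriv_eq_zero (fun u => (h1 u).differentiableAt) (fun u => (h1 u).deriv) u 0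
  have h3 : w = p + (w 0 - p 0) • pe 0 (ρ κ) := by
    funext u
    have h4 := h2 u
    rw [Complex.ofReal_zero, mul_zero, Complex.exp_zero, mul_one] at h4
    have h5 : cexp (-ρ κ * u) * cexp (ρ κ * u) = 1 := by
      rw [← Complex.exp_add]
      have : -ρ κ * (u : ℂ) + ρ κ * u = 0 := by ring
      rw [this, Complex.exp_zero]
    have h6 : w u - p u = (w 0 - p 0) * cexp (ρ κ * u) := by
      rw [← h4, mul_assoc, h5, mul_one]
    rw [Pi.add_apply, Pi.smul_apply, smul_eq_mul]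
    unfold pe
    rw [pow_zero, one_mul, ← h6]
    ring
  rw [h3]
  refine Submodule.add_mem _ hp (Submodule.smul_mem _ _ (pe_mem ρ ?_))
  rw [cnt_succ_eq]
  omega

theorem gp_deriv (ρ : Fin n → ℂ) (k : Fin n) (u : ℝ) :
    HasDerivAt (fun u : ℝ => gp ρ u (ev n) k) ((Am ρ).mulVec (gp ρ u (ev n)) k) u := by
  have h1 := hasDerivAt_exp_smul_const' (𝕂 := ℂ) (Tm ρ) (u : ℂ)
  set L : Op n →L[ℂ] ℂ := (ContinuousLinearMap.proj (R := ℂ) (φ := fun _ : Fin n => ℂ) k) ∘L
    (ContinuousLinearMap.apply ℂ (Fin n → ℂ) (ev n)) with hL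
  have h2 : HasDerivAt (fun z : ℂ => L (NormedSpace.exp (z • Tm ρ))) (L (Tm ρ * NormedSpace.exp ((u : ℂ) • Tm ρ))) (u : ℂ) :=
    (L.hasFDerivAt (x := NormedSpace.exp ((u : ℂ) • Tm ρ))).comp_hasDerivAt _ h1
  exact h2.comp_ofReal

theorem gp_mem (ρ : Fin n → ℂ) : ∀ (d : ℕ) (k : Fin n), n ≤ k + 1 + d → (fun u : ℝ => gp ρ u (ev n) k) ∈ WS ρ k := by
  intro d
  induction d with
  | zero =>
    intro k hk
    refine ode_all ρ k (f := 0) (Submodule.zero_mem _) fun u => ?_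
    refine (gp_deriv ρ k u).congr_deriv ?_
    unfold Am
    rw [Matrix.add_mulVec, Pi.add_apply, Matrix.mulVec_diagonal]
    congr 1
    simp only [Matrix.mulVec, dotProduct, Matrix.of_apply]
    refine Finset.sum_eq_zero fun j _ => ?_
    rw [if_neg, zero_mul]
    have := j.2
    omega
  | succ d ih =>
    intro k hk
    rcases Nat.lt_or_ge (k + 1) n with hkn | hkn
    · set k' : Fin n := ⟨k + 1, hkn⟩ with hk'
      have h1 := ih k' (by show n ≤ k + 1 + 1 + d; omega)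
      refine ode_all ρ k (f := fun u : ℝ => gp ρ u (ev n) k') h1 fun u => ?_
      refine (gp_deriv ρ k u).congr_deriv ?_
      unfold Am
      rw [Matrix.add_mulVec, Pi.add_apply, Matrix.mulVec_diagonal]
      congr 1
      simp only [Matrix.mulVec, dotProduct, Matrix.of_apply]
      rw [Finset.sum_eq_single k']
      · rw [if_pos rfl, one_mul]
      · intro j _ hj
        rw [if_neg, zero_mul]
        intro h
        exact hj (Fin.ext h)
      · intro h
        exact absurd (Finset.mem_univ _) h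
    · refine ode_all ρ k (f := 0) (Submodule.zero_mem _) fun u => ?_
      refine (gp_deriv ρ k u).congr_deriv ?_
      unfold Am
      rw [Matrix.add_mulVec, Pi.add_apply, Matrix.mulVec_diagonal]
      congr 1
      simp only [Matrix.mulVec, dotProduct, Matrix.of_apply]
      refine Finset.sum_eq_zero fun j _ => ?_
      rw [if_neg, zero_mul]
      have := j.2
      omega

/-- **the explicit form of the exponential polynomials** -/
theorem Ex_explicit (ρ a : Fin n → ℂ) : ∃ c : Fin n → ℂ, ∀ u : ℝ, Ex ρ a u = ∑ j, c j * eb ρ j u := by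
  have h1 : Ex ρ a ∈ WS ρ 0 := by
    have h2 : Ex ρ a = ∑ i, a i • fun u : ℝ => gp ρ u (ev n) i := by
      funext u
      unfold Ex
      rw [ell_apply, Finset.sum_apply]
      rfl
    rw [h2]
    exact Submodule.sum_mem _ fun i _ => Submodule.smul_mem _ _ (WS_mono ρ (Nat.zero_le _) (gp_mem ρ n i (by omega)))
  have h3 : WS ρ 0 = Submodule.span ℂ (Set.range (eb ρ)) := by
    unfold WS
    congr 1
    ext f
    constructor
    · rintro ⟨j, -, rfl⟩
      exact ⟨j, rfl⟩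
    · rintro ⟨j, rfl⟩
      exact ⟨j, Nat.zero_le _, rfl⟩
  rw [h3, Submodule.mem_span_range_iff_exists_fun] at h1
  obtain ⟨c, hc⟩ := h1
  refine ⟨c, fun u => ?_⟩
  rw [← hc, Finset.sum_apply]
  rfl

/-- **separability** -/
theorem eb_sep (ρ : Fin n → ℂ) (c : Fin n → ℂ) : ∃ b : Fin n → ℝ → ℂ, ∀ u v : ℝ,
    ∑ j, c j * eb ρ j (u + v) = ∑ j, b j u * eb ρ j v := by
  classical
  have key : ∀ j : Fin n, ∃ b : Fin n → ℝ → ℂ, ∀ u v : ℝ, eb ρ j (u + v) = ∑ i, b i u * eb ρ i v := by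
    intro j
    have hJ : ∀ i : Fin (mu ρ j + 1), ∃ l : Fin n, ρ l = ρ j ∧ mu ρ l = i := by
      intro i
      have h1 : (i : ℕ) < cnt ρ j (ρ j) := by
        rw [cnt_succ_eq]
        exact i.2
      obtain ⟨l, -, h2, h3⟩ := avail ρ (ρ j) i n j (by omega) h1
      exact ⟨l, h2, h3⟩
    choose J hJ1 hJ2 using hJ
    refine ⟨fun l u => ∑ i ∈ Finset.univ.filter fun i => J i = l,
      ((mu ρ j).choose i : ℂ) * (u : ℂ) ^ (mu ρ j - i) * cexp (ρ j * u), fun u v => ?_⟩
    have e1 : ∀ i : Fin (mu ρ j + 1), eb ρ (J i) v = (v : ℂ) ^ (i : ℕ) * cexp (ρ j * v) := by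
      intro i
      unfold eb
      rw [hJ1, hJ2]
    have e2 : eb ρ j (u + v) = ∑ i : Fin (mu ρ j + 1),
        (((mu ρ j).choose i : ℂ) * (u : ℂ) ^ (mu ρ j - i) * cexp (ρ j * u)) * eb ρ (J i) v := by
      unfold eb at e1 ⊢
      rw [Complex.ofReal_add, mul_add, Complex.exp_add, add_comm (u : ℂ) (v : ℂ), add_pow, Finset.sum_mul,
        Finset.sum_range]
      refine Finset.sum_congr rfl fun i _ => ?_
      rw [e1 i]
      ring
    rw [e2]
    simp_rw [Finset.sum_mul]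
    rw [← Finset.sum_fiberwise Finset.univ J]
    refine Finset.sum_congr rfl fun l _ => Finset.sum_congr rfl fun i hi => ?_
    rw [(Finset.mem_filter.1 hi).2]
  choose b hb using key
  refine ⟨fun i u => ∑ j, c j * b j i u, fun u v => ?_⟩
  simp_rw [hb, Finset.mul_sum, Finset.sum_mul]
  rw [Finset.sum_comm]
  exact Finset.sum_congr rfl fun i _ => Finset.sum_congr rfl fun j _ => by ring

theorem eb_cont (ρ : Fin n → ℂ) (j : Fin n) : Continuous (eb ρ j) := by
  unfold eb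
  fun_prop

end

end Pool.Agent.H480.Q
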