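import Pool.Agent.H480.Q1

/-!
Local approximate rank in the sup norm and asymptotic expansions: from rank to the expansion, almost everywhere.
-/

open Complex MeasureTheory Filter Topology Set Polynomial

set_option linter.unusedSectionVars false

namespace Pool.Agent.H480.Q

open Pool.Agent.H480.G
open Pool.Agent.H480.K

noncomputable section

variable {r : ℕ}

/-- the recurrence in the sup norm -/
theorem sup_rec {F : ℝ → ℂ} {C c₁ : ℝ} (hC : 0 ≤ C) (hF : ∀ u, 0 ≤ u → ‖F u‖ ≤ C * Real.exp (c₁ * u))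
    {a a' β β' h : ℝ} (hh : 0 < h) (hra : (r + 1) * h ≤ a) (hra' : (r + 1) * h ≤ a') (hβ : β < β')
    (H : ∀ᶠ t : ℝ in atTop, SupN F a a' r (Real.exp (β * t)) t) :
    ∃ q : Fin (r + 1) → ℂ, ∑ i, ‖q i‖ = 1 ∧ ∃ M : ℝ, 0 ≤ M ∧
      ∀ u, 0 ≤ u → ‖(aeval (sh h) (qp q)) F u‖ ≤ M * Real.exp (β' * u) := by
  obtain ⟨q, hq, M, hM, hqM⟩ := sup_scales hC hF hh hra hra' hβ H
  refine ⟨q, hq, M * Real.exp (|β'| * h), by positivity, fun u hu => ?_⟩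
  set m : ℕ := ⌊u / h⌋₊ with hm
  have hm1 : (m : ℝ) * h ≤ u := by
    have := Nat.floor_le (div_nonneg hu hh.le)
    rwa [le_div_iff₀ hh] at this
  have hm2 : u < (m + 1) * h := by
    have := Nat.lt_floor_add_one (u / h)
    rwa [div_lt_iff₀ hh] at this
  set v : ℝ := u - m * h with hv
  have hv0 : v ∈ Icc 0 h := ⟨by rw [hv]; linarith, by rw [hv]; linarith⟩
  have e1 : (aeval (sh h) (qp q)) F u = ∑ i, q i * F ((m + (i : ℕ)) * h + v) := by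
    rw [sh_qp]
    unfold Hq
    refine Finset.sum_congr rfl fun i _ => ?_
    congr 2
    rw [hv]; ring
  rw [e1]
  refine (hqM m v hv0).trans ?_
  rw [mul_assoc M, ← Real.exp_add]
  refine mul_le_mul_of_nonneg_left (Real.exp_le_exp.2 ?_) hM
  have e2 : β' * u = β' * h * m + β' * v := by rw [hv]; ring
  have e3 : -(β' * v) ≤ |β'| * h := by
    calc -(β' * v) ≤ |β' * v| := neg_le_abs _
      _ = |β'| * v := by rw [abs_mul, abs_of_nonneg hv0.1]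
      _ ≤ |β'| * h := mul_le_mul_of_nonneg_left hv0.2 (abs_nonneg _)
  rw [e2]
  linarith

/-- the remainder -/
def HF (F : ℝ → ℂ) {n : ℕ} (ρ a : Fin n → ℂ) (u : ℝ) : ℂ := F u - (if 0 ≤ u then Ex ρ a u else 0)

variable {F : ℝ → ℂ} {n : ℕ}

theorem HF_meas (hFm : Measurable F) (ρ a : Fin n → ℂ) : Measurable (HF F ρ a) :=
  hFm.sub (Measurable.ite (measurableSet_Ici (a := (0:ℝ))) (Ex_cont ρ a).measurable measurable_const)

theorem HF_ae (hFc : ∀ᵐ u : ℝ, ContinuousAt F u) (ρ a : Fin n → ℂ) : ∀ᵐ u : ℝ, ContinuousAt (HF F ρ a) u := by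
  have h0 : ∀ᵐ u : ℝ, u ≠ 0 := by
    rw [ae_iff]
    simp
  filter_upwards [hFc, h0] with u hu hu0
  unfold HF
  refine hu.sub ?_
  rcases lt_or_gt_of_ne hu0 with h | h
  · refine ContinuousAt.congr (f := fun _ => (0:ℂ)) continuousAt_const ?_
    filter_upwards [gt_mem_nhds h] with v hv
    rw [if_neg (not_le.2 hv)]
  · refine ContinuousAt.congr (f := Ex ρ a) (Ex_cont ρ a).continuousAt ?_
    filter_upwards [lt_mem_nhds h] with v hv
    rw [if_pos (le_of_lt hv)]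

theorem HF_neg (hF0 : ∀ u, u < 0 → F u = 0) (ρ a : Fin n → ℂ) (u : ℝ) (hu : u < 0) : HF F ρ a u = 0 := by
  unfold HF
  rw [hF0 u hu, if_neg (not_le.2 hu), sub_zero]

theorem HF_bd {C c₁ : ℝ} (hC : 0 ≤ C) (hF : ∀ u, 0 ≤ u → ‖F u‖ ≤ C * Real.exp (c₁ * u)) (ρ a : Fin n → ℂ) :
    ∃ C1 : ℝ, 0 ≤ C1 ∧ ∀ u : ℝ, 0 ≤ u → ‖HF F ρ a u‖ ≤ C1 * Real.exp (max c₁ ‖Tm ρ‖ * u) := by
  obtain ⟨C', hC', hE⟩ := Ex_growth ρ a
  refine ⟨C + C', by positivity, fun u hu => ?_⟩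
  unfold HF
  rw [if_pos hu]
  refine (norm_sub_le _ _).trans ?_
  rw [add_mul]
  refine add_le_add ((hF u hu).trans ?_) ((hE u hu).trans ?_)
  · refine mul_le_mul_of_nonneg_left (Real.exp_le_exp.2 ?_) hC
    exact mul_le_mul_of_nonneg_right (le_max_left _ _) hu
  · refine mul_le_mul_of_nonneg_left (Real.exp_le_exp.2 ?_) hC'
    exact mul_le_mul_of_nonneg_right (le_max_right _ _) hu

theorem HF_trans (hFm : Measurable F) (hF0 : ∀ u, u < 0 → F u = 0) {C c₁ : ℝ} (hC : 0 ≤ C)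
    (hF : ∀ u, 0 ≤ u → ‖F u‖ ≤ C * Real.exp (c₁ * u)) (ρ a : Fin n → ℂ) {G : ℂ → ℂ} {s : ℂ} (hs : c₁ < s.re)
    (hs2 : ‖Tm ρ‖ < s.re) (hne : ∀ k, s - ρ k ≠ 0)
    (hform : Lap F s = ∑ k, a k * (1 / ∏ i ∈ Finset.Ici k, (s - ρ i)) + G s) : Lap (HF F ρ a) s = G s := by
  obtain ⟨e1, e2⟩ := Ex_lap ρ a s hne hs2
  have i1 : Integrable fun u : ℝ => F u * cexp (-s * u) := lap_int hFm (f_int hFm hF0 hC hF hs)
  have e3 : (fun u : ℝ => (if 0 ≤ u then Ex ρ a u else 0) * cexp (-s * u)) =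
      (Ici (0:ℝ)).indicator fun u : ℝ => Ex ρ a u * cexp (-s * u) := by
    funext u
    by_cases hu : 0 ≤ u
    · rw [if_pos hu, Set.indicator_of_mem (show u ∈ Ici (0:ℝ) from hu)]
    · rw [if_neg hu, Set.indicator_of_notMem (show u ∉ Ici (0:ℝ) from hu), zero_mul]
  have i2 : Integrable fun u : ℝ => (if 0 ≤ u then Ex ρ a u else 0) * cexp (-s * u) := by
    rw [e3, integrable_indicator_iff measurableSet_Ici]
    exact (integrableOn_Ici_iff_integrableOn_Ioi (by simp)).2 e1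
  have h3 : ∫ u : ℝ, (if 0 ≤ u then Ex ρ a u else 0) * cexp (-s * u) =
      ∑ k, a k * (1 / ∏ i ∈ Finset.Ici k, (s - ρ i)) := by
    rw [e3, integral_indicator measurableSet_Ici, integral_Ici_eq_integral_Ioi, e2]
  have h4 : ∀ u : ℝ, HF F ρ a u * cexp (-s * u) = F u * cexp (-s * u) -
      (if 0 ≤ u then Ex ρ a u else 0) * cexp (-s * u) := by
    intro u
    unfold HF
    ring
  unfold Lap
  simp_rw [h4]
  rw [integral_sub i1 i2, h3]
  have h5 : ∫ u : ℝ, F u * cexp (-s * u) = Lap F s := rfl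
  rw [h5, hform]
  ring

/-- **from local rank to an expansion, almost everywhere** -/
theorem ae_expansion (hFm : Measurable F) (hFc : ∀ᵐ u : ℝ, ContinuousAt F u) (hF0 : ∀ u, u < 0 → F u = 0) {C c₁ : ℝ}
    (hC : 0 ≤ C) (hF : ∀ u, 0 ≤ u → ‖F u‖ ≤ C * Real.exp (c₁ * u)) {a a' : ℝ} (ha : 0 < a) (ha' : 0 < a') {β : ℝ}
    (H : ∀ β' : ℝ, β < β' → ∀ᶠ t : ℝ in atTop, SupN F a a' r (Real.exp (β' * t)) t) :
    ∃ ρ b : Fin r → ℂ, (∀ j, β < (ρ j).re) ∧ (∃ g : ℂ → ℂ, (∀ s : ℂ, β < s.re → DifferentiableAt ℂ g s) ∧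
      ∃ c₀ : ℝ, ∀ s : ℂ, c₀ < s.re → g s = (∏ j, (s - ρ j)) * Lap F s) ∧ ∀ β' : ℝ, β < β' → ∃ K : ℝ, 0 ≤ K ∧
      ∀ᵐ u : ℝ, 0 ≤ u → ‖F u - Ex ρ b u‖ ≤ K * Real.exp (β' * u) := by
  set c₀ : ℝ := max c₁ β + 1 with hc₀
  have hc1 : c₁ < c₀ := by have := le_max_left c₁ β; linarith
  have hc2 : β < c₀ := by have := le_max_right c₁ β; linarith
  obtain ⟨d, hd1, hd2, hd3, hd4⟩ := seqE (δ := (β : EReal)) (c₀ := c₀) (by exact_mod_cast hc2)
  have hd3' : ∀ n, β < d n := fun n => by exact_mod_cast hd3 n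
  have hd4' : ∀ x : ℝ, β < x → ∃ n, d n < x := fun x hx => hd4 x (by exact_mod_cast hx)
  set h₁ : ℝ := min a a' / (r + 1) with hh₁
  have hh0 : 0 < h₁ := by
    rw [hh₁]
    exact div_pos (lt_min ha ha') (by positivity)
  have hrh : ∀ h : ℝ, h ≤ h₁ → (r + 1) * h ≤ min a a' := by
    intro h hh
    have : (r + 1) * h ≤ (r + 1) * h₁ := mul_le_mul_of_nonneg_left hh (by positivity)
    refine this.trans (le_of_eq ?_)
    rw [hh₁]; field_simp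
  have hFI : ∀ σ : ℝ, c₁ < σ → Integrable fun u : ℝ => ‖F u‖ * Real.exp (-(σ * u)) := fun σ hσ => f_int hFm hF0 hC hF hσ
  have key : ∀ β₁ β₂ : ℝ, β < β₁ → β₁ < β₂ → ∀ h : ℝ, 0 < h → h ≤ h₁ → ∃ q : Fin (r + 1) → ℂ, ∑ i, ‖q i‖ = 1 ∧
      ∃ M : ℝ, 0 ≤ M ∧ ∀ u, 0 ≤ u → ‖(aeval (sh h) (qp q)) F u‖ ≤ M * Real.exp (β₂ * u) :=
    fun β₁ β₂ h1 h2 h hh hh' => sup_rec hC hF hh ((hrh h hh').trans (min_le_left _ _))
      ((hrh h hh').trans (min_le_right _ _)) h2 (H β₁ h1)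
  have hΦd : ∀ s : ℂ, c₀ < s.re → DifferentiableAt ℂ (Lap F) s := fun s hs => lap_diff hFm hFI (hc1.trans hs)
  obtain ⟨ρ, g, hρ, hg, hform⟩ := finite_poles hd1 hd2 hΦd (r := r) (fun n => by
    refine ⟨h₁, hh0, fun h hh hh' => ?_⟩
    obtain ⟨q, hq, M, hM, hqM⟩ := key ((β + d n) / 2) (d n) (by linarith [hd3' n]) (by linarith [hd3' n]) h hh hh'
    have hB := supB_of hFm hFc hF0 hC hF (qp q) hh hM hqM
    refine ⟨q, hq, Lap ((aeval (sh h) (qp q)) F), fun s hs => lap_diff hB.meas (fun σ hσ => hB.int hσ) hs, fun s hs => ?_⟩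
    rw [sh_qp]
    exact lap_Hq hFm q h (hFI s.re (hc1.trans hs)))
  have hρ' : ∀ j, β < (ρ j).re := fun j => by
    obtain ⟨n, hn⟩ := hρ j
    exact (hd3' n).trans hn
  have hU : IsOpen {s : ℂ | β < s.re} := isOpen_lt continuous_const Complex.continuous_re
  obtain ⟨b, G, hG, hpf⟩ := newton hU r ρ hρ' g (fun s hs => (hg s (hd4' _ hs)).differentiableWithinAt)
  have hGd : ∀ s : ℂ, β < s.re → DifferentiableAt ℂ G s := fun s hs => (hG s hs).differentiableAt (hU.mem_nhds hs)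
  refine ⟨ρ, b, hρ', ⟨g, fun s hs => hg s (hd4' _ hs), c₀, hform⟩, fun β' hβ' => ?_⟩
  obtain ⟨q, hq, M, hM, hqM⟩ := key ((β + (β + β') / 2) / 2) ((β + β') / 2) (by linarith) (by linarith) h₁ hh0 le_rfl
  obtain ⟨χ, hχ0, hχ⟩ := Ex_kill ρ b h₁
  obtain ⟨M', hM', hbd⟩ := sh_bd χ hh0.le hM hqM
  have hQ : χ * qp q ≠ 0 := mul_ne_zero hχ0 (qp_ne hq)
  have hHw : ∀ u, 0 ≤ u → ‖(aeval (sh h₁) (χ * qp q)) (HF F ρ b) u‖ ≤ M' * Real.exp ((β + β') / 2 * u) := by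
    intro u hu
    have e1 : (aeval (sh h₁) (χ * qp q)) (HF F ρ b) u = (aeval (sh h₁) (χ * qp q)) (F - Ex ρ b) u := by
      refine sh_congr _ hh0.le (fun v hv => ?_) hu
      unfold HF
      rw [if_pos hv]
      rfl
    have e2 : (aeval (sh h₁) (χ * qp q)) (F - Ex ρ b) = (aeval (sh h₁) χ) ((aeval (sh h₁) (qp q)) F) := by
      rw [map_sub]
      have e3 : (aeval (sh h₁) (χ * qp q)) (Ex ρ b) = 0 := by
        rw [mul_comm, map_mul, Module.End.mul_apply, hχ, map_zero]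
      rw [e3, sub_zero, map_mul, Module.End.mul_apply]
    rw [e1, e2]
    exact hbd u hu
  obtain ⟨C1, hC1, hC1b⟩ := HF_bd hC hF ρ b
  have hGe : ∀ s : ℂ, max c₀ (max ‖Tm ρ‖ (∑ k, ‖ρ k‖)) < s.re → Lap (HF F ρ b) s = G s := by
    intro s hs
    have k2 : c₀ < s.re := (le_max_left _ _).trans_lt hs
    have k3 : ‖Tm ρ‖ < s.re := ((le_max_left _ _).trans (le_max_right _ _)).trans_lt hs
    have k4 : ∑ k, ‖ρ k‖ < s.re := ((le_max_right _ _).trans (le_max_right _ _)).trans_lt hs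
    have hne : ∀ k, s - ρ k ≠ 0 := by
      intro k h0
      have h3 : s = ρ k := sub_eq_zero.1 h0
      have h4 : ‖ρ k‖ ≤ ∑ k, ‖ρ k‖ := Finset.single_le_sum (f := fun k => ‖ρ k‖) (fun _ _ => norm_nonneg _) (Finset.mem_univ k)
      have h5 := Complex.re_le_norm (ρ k)
      rw [← h3] at h5 h4
      linarith
    refine HF_trans hFm hF0 hC hF ρ b (hc1.trans k2) k3 hne ?_
    rw [← hpf s (hc2.trans k2) hne, hform s k2]
    have hP : ∏ k, (s - ρ k) ≠ 0 := Finset.prod_ne_zero_iff.2 fun k _ => hne k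
    field_simp
  obtain ⟨K, hK, hKa⟩ := sup_back (HF_meas hFm ρ b) (HF_ae hFc ρ b) (HF_neg hF0 ρ b) hC1 hC1b
    hQ hh0 hM' hHw (fun s hs => hGd s (by linarith)) hGe (β'' := β') (by linarith)
  refine ⟨K, hK, ?_⟩
  filter_upwards [hKa] with u hu hu0
  have h3 := hu hu0
  unfold HF at h3
  rwa [if_pos hu0] at h3

end

end Pool.Agent.H480.Q
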