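import Pool.Agent.H480.Q2

/-!
Local approximate rank in the sup norm and asymptotic expansions: from almost everywhere to everywhere.
-/

open Complex MeasureTheory Filter Topology Set

set_option linter.unusedSectionVars false

namespace Pool.Agent.H480.Q

open Pool.Agent.H480.G
open Pool.Agent.H480.K

noncomputable section

variable {r n : ℕ}

theorem ae_mul {p : ℝ → Prop} (hp : ∀ᵐ u : ℝ, p u) (u₀ : ℝ) {k : ℝ} (hk : k ≠ 0) : ∀ᵐ s : ℝ, p (u₀ + k * s) := by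
  have h1 : ∀ᵐ u : ℝ, p (u₀ + u) := by
    have h2 := ae_shift hp u₀
    filter_upwards [h2] with u hu
    rwa [add_comm]
  rw [ae_iff] at h1 ⊢
  have e1 : {s : ℝ | ¬ p (u₀ + k * s)} = (fun s => k * s) ⁻¹' {u : ℝ | ¬ p (u₀ + u)} := rfl
  rw [e1, Real.volume_preimage_mul_left hk, h1, mul_zero]

theorem fix_point {F E : ℝ → ℂ} {B e : Fin n → ℝ → ℂ} (hE : ∀ u v, E (u + v) = ∑ j, B j u * e j v)
    {a a' ε δ u₀ : ℝ} (ha : 0 < a) (ha' : 0 < a') (hε : 0 ≤ ε) (hδ : 0 ≤ δ)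
    (h : ∀ t : ℝ, u₀ - min a a' ≤ t → t ≤ u₀ → SupN F a a' r ε t)
    (hgood : ∀ᵐ u : ℝ, |u - u₀| ≤ min a a' → ‖F u - E u‖ ≤ δ) : ‖F u₀ - E u₀‖ ≤ (r + n + 1) * (ε + δ) := by
  have hm : 0 < min a a' := lt_min ha ha'
  set m : ℝ := min a a' with hmdef
  set s₀ : ℝ := m / (r + n + 1) with hs₀
  have hs₀p : 0 < s₀ := by rw [hs₀]; positivity
  -- the step
  obtain ⟨s, ⟨hs1, hs2⟩, hs3⟩ : ∃ s : ℝ, s ∈ Ioo 0 s₀ ∧ ∀ k : ℤ, k ≠ 0 → |u₀ + k * s - u₀| ≤ m → ‖F (u₀ + k * s) - E (u₀ + k * s)‖ ≤ δ := by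
    have h1 : ∀ᵐ s : ℝ, ∀ k : ℤ, k ≠ 0 → |u₀ + k * s - u₀| ≤ m → ‖F (u₀ + k * s) - E (u₀ + k * s)‖ ≤ δ := by
      rw [ae_all_iff]
      intro k
      by_cases hk : k = 0
      · exact ae_of_all _ fun s hk' => absurd hk hk'
      · have hk' : (k : ℝ) ≠ 0 := by exact_mod_cast hk
        filter_upwards [ae_mul hgood u₀ hk'] with s hs _ using hs
    have h2 : volume (Ioo (0:ℝ) s₀) ≠ 0 := by
      rw [Real.volume_Ioo, sub_zero]
      exact (ENNReal.ofReal_pos.2 hs₀p).ne'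
    obtain ⟨s, hs1, hs2⟩ := Filter.Frequently.exists (p := fun s => s ∈ Ioo (0:ℝ) s₀ ∧ ∀ k : ℤ, k ≠ 0 →
        |u₀ + k * s - u₀| ≤ m → ‖F (u₀ + k * s) - E (u₀ + k * s)‖ ≤ δ) (f := ae volume) (by
      have h3 : ∃ᵐ s : ℝ, s ∈ Ioo (0:ℝ) s₀ := by
        rw [frequently_ae_mem_iff]
        exact h2
      exact h3.and_eventually h1)
    exact ⟨s, hs1, hs2⟩
  have hNs : ((r + n : ℕ) : ℝ) * s ≤ m := by
    have h1 : ((r + n : ℕ) : ℝ) * s ≤ (r + n + 1) * s₀ := by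
      push_cast
      nlinarith
    refine h1.trans (le_of_eq ?_)
    rw [hs₀]
    field_simp
  have hi : ∀ i : Fin (r + n + 1), ((i : ℕ) : ℝ) ≤ ((r + n : ℕ) : ℝ) := fun i => by
    exact_mod_cast Nat.lt_succ_iff.1 i.2
  have his : ∀ i : Fin (r + n + 1), ((i : ℕ) : ℝ) * s ≤ ((r + n : ℕ) : ℝ) * s := fun i =>
    mul_le_mul_of_nonneg_right (hi i) hs1.le
  set t : ℝ := u₀ - ((r + n : ℕ) : ℝ) * s with ht
  have hts : 0 ≤ ((r + n : ℕ) : ℝ) * s := by positivity
  obtain ⟨U, V, hUV⟩ := h t (by rw [ht]; linarith) (by rw [ht]; linarith)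
  obtain ⟨c, hc1, hc2⟩ := lin_dep (r := r + n) fun i => Fin.append (fun j => U j ((i : ℕ) * s)) (fun j => B j (t + (i : ℕ) * s))
  have hc3 : ∀ j : Fin r, ∑ i, c i * U j ((i : ℕ) * s) = 0 := by
    intro j
    have := hc2 (Fin.castAdd n j)
    simpa only [Fin.append_left] using this
  have hc4 : ∀ j : Fin n, ∑ i, c i * B j (t + (i : ℕ) * s) = 0 := by
    intro j
    have := hc2 (Fin.natAdd r j)
    simpa only [Fin.append_right] using this
  -- a large coefficient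
  obtain ⟨k, hk⟩ : ∃ k : Fin (r + n + 1), 1 ≤ (r + n + 1) * ‖c k‖ := by
    by_contra hcon
    push Not at hcon
    have h1 : ∑ k : Fin (r + n + 1), ((r : ℝ) + n + 1) * ‖c k‖ < ∑ _k : Fin (r + n + 1), (1:ℝ) :=
      Finset.sum_lt_sum_of_nonempty Finset.univ_nonempty fun k _ => hcon k
    rw [← Finset.mul_sum, hc1] at h1
    simp at h1
  set y : ℝ := ((r + n : ℕ) : ℝ) * s - (k : ℕ) * s with hy
  have hks : 0 ≤ ((k : ℕ) : ℝ) * s := by positivity
  have hy0 : y ∈ Icc 0 a' := ⟨by rw [hy]; linarith [his k], by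
    have : m ≤ a' := min_le_right _ _
    rw [hy]; linarith⟩
  have hx0 : ∀ i : Fin (r + n + 1), ((i : ℕ) : ℝ) * s ∈ Icc 0 a := fun i => ⟨by positivity, by
    have : m ≤ a := min_le_left _ _
    linarith [his i]⟩
  have hpt : ∀ i : Fin (r + n + 1), t + (i : ℕ) * s + y = u₀ + (((i : ℕ) : ℤ) - ((k : ℕ) : ℤ) : ℤ) * s := by
    intro i
    rw [ht, hy]
    push_cast
    ring
  have hdiff : ∀ i : Fin (r + n + 1), |u₀ + (((i : ℕ) : ℤ) - ((k : ℕ) : ℤ) : ℤ) * s - u₀| ≤ m := by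
    intro i
    rw [add_sub_cancel_left]
    push_cast
    have h1 := his i
    have h2 := his k
    have h3 : 0 ≤ ((i : ℕ) : ℝ) * s := by positivity
    rw [sub_mul, abs_le]
    constructor <;> linarith
  have htot : ‖∑ i, c i * (F (t + (i : ℕ) * s + y) - E (t + (i : ℕ) * s + y))‖ ≤ ε := by
    have e1 : ∑ i, c i * (F (t + (i : ℕ) * s + y) - E (t + (i : ℕ) * s + y)) =
        ∑ i, c i * (F (t + (i : ℕ) * s + y) - ∑ j, U j ((i : ℕ) * s) * V j y) := by
      simp only [mul_sub, Finset.sum_sub_distrib]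
      congr 1
      have e2 : ∑ i, c i * E (t + (i : ℕ) * s + y) = 0 := by
        simp only [hE, Finset.mul_sum]
        rw [Finset.sum_comm]
        refine Finset.sum_eq_zero fun j _ => ?_
        calc ∑ i, c i * (B j (t + (i : ℕ) * s) * e j y) = (∑ i, c i * B j (t + (i : ℕ) * s)) * e j y := by
              rw [Finset.sum_mul]
              exact Finset.sum_congr rfl fun i _ => by ring
          _ = 0 := by rw [hc4 j, zero_mul]
      have e3 : ∑ i, c i * ∑ j, U j ((i : ℕ) * s) * V j y = 0 := by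
        simp only [Finset.mul_sum]
        rw [Finset.sum_comm]
        refine Finset.sum_eq_zero fun j _ => ?_
        calc ∑ i, c i * (U j ((i : ℕ) * s) * V j y) = (∑ i, c i * U j ((i : ℕ) * s)) * V j y := by
              rw [Finset.sum_mul]
              exact Finset.sum_congr rfl fun i _ => by ring
          _ = 0 := by rw [hc3 j, zero_mul]
      rw [e2, e3]
    rw [e1]
    calc ‖∑ i, c i * (F (t + (i : ℕ) * s + y) - ∑ j, U j ((i : ℕ) * s) * V j y)‖
        ≤ ∑ i, ‖c i‖ * ε := by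
          refine (norm_sum_le _ _).trans (Finset.sum_le_sum fun i _ => ?_)
          rw [norm_mul]
          exact mul_le_mul_of_nonneg_left (hUV _ (hx0 i) _ hy0) (norm_nonneg _)
      _ = ε := by rw [← Finset.sum_mul, hc1, one_mul]
  have hrest : ‖∑ i ∈ Finset.univ.erase k, c i * (F (t + (i : ℕ) * s + y) - E (t + (i : ℕ) * s + y))‖ ≤ δ := by
    calc ‖∑ i ∈ Finset.univ.erase k, c i * (F (t + (i : ℕ) * s + y) - E (t + (i : ℕ) * s + y))‖
        ≤ ∑ i ∈ Finset.univ.erase k, ‖c i‖ * δ := by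
          refine (norm_sum_le _ _).trans (Finset.sum_le_sum fun i hi' => ?_)
          rw [norm_mul]
          refine mul_le_mul_of_nonneg_left ?_ (norm_nonneg _)
          rw [hpt i]
          refine hs3 _ (fun h0 => ?_) (hdiff i)
          have h1 : i = k := Fin.ext (by omega)
          exact (Finset.mem_erase.1 hi').1 h1
      _ ≤ ∑ i, ‖c i‖ * δ := Finset.sum_le_sum_of_subset_of_nonneg (Finset.erase_subset _ _) fun i _ _ => by positivity
      _ = δ := by rw [← Finset.sum_mul, hc1, one_mul]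
  have hk0 : t + (k : ℕ) * s + y = u₀ := by
    rw [ht, hy]; ring
  have e4 : c k * (F u₀ - E u₀) = ∑ i, c i * (F (t + (i : ℕ) * s + y) - E (t + (i : ℕ) * s + y)) -
      ∑ i ∈ Finset.univ.erase k, c i * (F (t + (i : ℕ) * s + y) - E (t + (i : ℕ) * s + y)) := by
    rw [← Finset.add_sum_erase _ _ (Finset.mem_univ k), hk0]
    ring
  have h5 : ‖c k‖ * ‖F u₀ - E u₀‖ ≤ ε + δ := by
    rw [← norm_mul, e4]
    exact (norm_sub_le _ _).trans (add_le_add htot hrest)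
  calc ‖F u₀ - E u₀‖ ≤ ((r + n + 1) * ‖c k‖) * ‖F u₀ - E u₀‖ := le_mul_of_one_le_left (norm_nonneg _) hk
    _ = (r + n + 1) * (‖c k‖ * ‖F u₀ - E u₀‖) := by ring
    _ ≤ _ := mul_le_mul_of_nonneg_left h5 (by positivity)

/-- **from local rank to an expansion** -/
theorem expansion {F : ℝ → ℂ} (hFm : Measurable F) (hFc : ∀ᵐ u : ℝ, ContinuousAt F u) (hF0 : ∀ u, u < 0 → F u = 0) {C c₁ : ℝ}
    (hC : 0 ≤ C) (hF : ∀ u, 0 ≤ u → ‖F u‖ ≤ C * Real.exp (c₁ * u)) {a a' : ℝ} (ha : 0 < a) (ha' : 0 < a') {β : ℝ}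
    (H : ∀ β' : ℝ, β < β' → ∀ᶠ t : ℝ in atTop, SupN F a a' r (Real.exp (β' * t)) t) :
    ∃ ρ c : Fin r → ℂ, (∀ j, β < (ρ j).re) ∧ (∃ g : ℂ → ℂ, (∀ s : ℂ, β < s.re → DifferentiableAt ℂ g s) ∧
      ∃ c₀ : ℝ, ∀ s : ℂ, c₀ < s.re → g s = (∏ j, (s - ρ j)) * Lap F s) ∧ ∀ β' : ℝ, β < β' → ∃ K : ℝ, 0 ≤ K ∧
      ∀ u : ℝ, 0 ≤ u → ‖F u - ∑ j, c j * eb ρ j u‖ ≤ K * Real.exp (β' * u) := by
  obtain ⟨ρ, b, hρ, hg, hexp⟩ := ae_expansion hFm hFc hF0 hC hF ha ha' H
  obtain ⟨c, hc⟩ := Ex_explicit ρ b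
  obtain ⟨B, hB⟩ := eb_sep ρ c
  refine ⟨ρ, c, hρ, hg, fun β' hβ' => ?_⟩
  obtain ⟨K, hK, hKa⟩ := hexp β' hβ'
  obtain ⟨t₀, ht₀⟩ := eventually_atTop.1 (H β' hβ')
  set E : ℝ → ℂ := fun u => ∑ j, c j * eb ρ j u with hE
  have hEc : Continuous E := by
    simp only [hE]
    exact continuous_finsetSum _ fun j _ => (eb_cont ρ j).const_mul _
  have hKa' : ∀ᵐ u : ℝ, 0 ≤ u → ‖F u - E u‖ ≤ K * Real.exp (β' * u) := by
    filter_upwards [hKa] with u hu hu0
    have h1 := hu hu0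
    rwa [hc u] at h1
  set m : ℝ := min a a' with hm
  have hm0 : 0 < m := lt_min ha ha'
  set T : ℝ := max t₀ 0 + m with hT
  have hT1 : t₀ + m ≤ T := by rw [hT]; linarith [le_max_left t₀ 0]
  have hT2 : m ≤ T := by rw [hT]; linarith [le_max_right t₀ 0]
  -- the compact part
  obtain ⟨M₀, hM₀⟩ := (isCompact_Icc (a := (0:ℝ)) (b := T)).exists_bound_of_continuousOn hEc.continuousOn
  set K₁ : ℝ := (C * Real.exp (|c₁| * T) + |M₀|) * Real.exp (|β'| * T) with hK₁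
  set K₂ : ℝ := (r + r + 1) * (1 + K) * Real.exp (|β'| * m) with hK₂
  refine ⟨max K₁ K₂, le_max_of_le_left (by positivity), fun u hu => ?_⟩
  rcases le_or_gt u T with huT | huT
  · have h1 : ‖F u - E u‖ ≤ C * Real.exp (|c₁| * T) + |M₀| := by
      refine (norm_sub_le _ _).trans (add_le_add ((hF u hu).trans ?_) ((hM₀ u ⟨hu, huT⟩).trans (le_abs_self _)))
      refine mul_le_mul_of_nonneg_left (Real.exp_le_exp.2 ?_) hC
      calc c₁ * u ≤ |c₁| * u := mul_le_mul_of_nonneg_right (le_abs_self _) hu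
        _ ≤ |c₁| * T := mul_le_mul_of_nonneg_left huT (abs_nonneg _)
    have h2 : 1 ≤ Real.exp (|β'| * T) * Real.exp (β' * u) := by
      rw [← Real.exp_add]
      refine Real.one_le_exp ?_
      have : -(β' * u) ≤ |β'| * T := by
        calc -(β' * u) ≤ |β' * u| := neg_le_abs _
          _ = |β'| * u := by rw [abs_mul, abs_of_nonneg hu]
          _ ≤ |β'| * T := mul_le_mul_of_nonneg_left huT (abs_nonneg _)
      linarith
    calc ‖F u - E u‖ ≤ (C * Real.exp (|c₁| * T) + |M₀|) * 1 := by rw [mul_one]; exact h1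
      _ ≤ (C * Real.exp (|c₁| * T) + |M₀|) * (Real.exp (|β'| * T) * Real.exp (β' * u)) :=
          mul_le_mul_of_nonneg_left h2 (by positivity)
      _ = K₁ * Real.exp (β' * u) := by rw [hK₁]; ring
      _ ≤ _ := mul_le_mul_of_nonneg_right (le_max_left _ _) (Real.exp_pos _).le
  · have hexpb : ∀ v : ℝ, |v - u| ≤ m → Real.exp (β' * v) ≤ Real.exp (|β'| * m) * Real.exp (β' * u) := by
      intro v hv
      rw [← Real.exp_add]
      refine Real.exp_le_exp.2 ?_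
      have h1 : β' * (v - u) ≤ |β'| * m := by
        calc β' * (v - u) ≤ |β' * (v - u)| := le_abs_self _
          _ = |β'| * |v - u| := abs_mul _ _
          _ ≤ _ := mul_le_mul_of_nonneg_left hv (abs_nonneg _)
      linarith
    have h1 := fix_point (F := F) (E := E) (B := B) (e := eb ρ) (r := r) (a := a) (a' := a')
      (ε := Real.exp (|β'| * m) * Real.exp (β' * u)) (δ := K * (Real.exp (|β'| * m) * Real.exp (β' * u))) (u₀ := u) hB ha ha'
      (by positivity) (by positivity)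
      (fun t h2 h3 => by
        obtain ⟨U, V, hUV⟩ := ht₀ t (by linarith)
        refine ⟨U, V, fun x hx y hy => (hUV x hx y hy).trans (hexpb t ?_)⟩
        rw [abs_le]
        constructor <;> linarith)
      (by
        filter_upwards [hKa'] with v hv hvu
        have h4 : 0 ≤ v := by
          have := (abs_le.1 hvu).1
          linarith
        exact (hv h4).trans (mul_le_mul_of_nonneg_left (hexpb v hvu) hK))
    refine h1.trans ?_
    calc (r + r + 1) * (Real.exp (|β'| * m) * Real.exp (β' * u) + K * (Real.exp (|β'| * m) * Real.exp (β' * u)))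
        = K₂ * Real.exp (β' * u) := by rw [hK₂]; ring
      _ ≤ _ := mul_le_mul_of_nonneg_right (le_max_right _ _) (Real.exp_pos _).le

end

end Pool.Agent.H480.Q
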