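import Pool.Agent.H480.Q3

/-!
Local approximate rank in the sup norm and asymptotic expansions: the equivalence in multiplicative form.
-/

open Complex MeasureTheory Filter Topology Set

set_option linter.unusedSectionVars false

namespace Pool.Agent.H480.Q

open Pool.Agent.H480.G
open Pool.Agent.H480.K

noncomputable section

variable {r : ℕ}

/-- **from an expansion to local rank** -/
theorem near_of_expansion {F : ℝ → ℂ} {ρ c : Fin r → ℂ} {β : ℝ}
    (h : ∀ β' : ℝ, β < β' → ∃ K : ℝ, ∀ u : ℝ, 0 ≤ u → ‖F u - ∑ j, c j * eb ρ j u‖ ≤ K * Real.exp (β' * u))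
    {a a' : ℝ} (ha : 0 ≤ a) (ha' : 0 ≤ a') {β' : ℝ} (hβ : β < β') :
    ∀ᶠ t : ℝ in atTop, SupN F a a' r (Real.exp (β' * t)) t := by
  set β₁ : ℝ := (β + β') / 2 with hβ₁
  have h1 : β < β₁ := by rw [hβ₁]; linarith
  have h2 : β₁ < β' := by rw [hβ₁]; linarith
  obtain ⟨K, hK⟩ := h β₁ h1
  obtain ⟨B, hB⟩ := eb_sep ρ c
  have htend : Tendsto (fun t : ℝ => Real.exp ((β' - β₁) * t)) atTop atTop :=
    Real.tendsto_exp_atTop.comp (tendsto_id.const_mul_atTop (by linarith))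
  filter_upwards [htend.eventually_ge_atTop (|K| * Real.exp (|β₁| * (a + a'))), eventually_ge_atTop (0:ℝ)] with t ht ht0
  refine ⟨fun j x => B j (t + x), fun j y => eb ρ j y, fun x hx y hy => ?_⟩
  have hxy : 0 ≤ x + y := add_nonneg hx.1 hy.1
  have h3 := hK (t + x + y) (by linarith)
  rw [hB (t + x) y] at h3
  refine h3.trans ?_
  have h4 : Real.exp (β₁ * (t + x + y)) ≤ Real.exp (|β₁| * (a + a')) * Real.exp (β₁ * t) := by
    rw [← Real.exp_add]
    refine Real.exp_le_exp.2 ?_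
    have : β₁ * (x + y) ≤ |β₁| * (a + a') := by
      calc β₁ * (x + y) ≤ |β₁| * (x + y) := mul_le_mul_of_nonneg_right (le_abs_self _) hxy
        _ ≤ _ := mul_le_mul_of_nonneg_left (by linarith [hx.2, hy.2]) (abs_nonneg _)
    linarith
  calc K * Real.exp (β₁ * (t + x + y)) ≤ |K| * (Real.exp (|β₁| * (a + a')) * Real.exp (β₁ * t)) :=
        mul_le_mul (le_abs_self _) h4 (Real.exp_pos _).le (abs_nonneg _)
    _ = (|K| * Real.exp (|β₁| * (a + a'))) * Real.exp (β₁ * t) := by ring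
    _ ≤ Real.exp ((β' - β₁) * t) * Real.exp (β₁ * t) := mul_le_mul_of_nonneg_right ht (Real.exp_pos _).le
    _ = Real.exp (β' * t) := by rw [← Real.exp_add]; congr 1; ring

/-- the function in logarithmic scale -/
def FS (S : ℝ → ℂ) (u : ℝ) : ℂ := if 0 ≤ u then S (Real.exp u) else 0

theorem FS_meas {S : ℝ → ℂ} (hS : Measurable S) : Measurable (FS S) :=
  Measurable.ite measurableSet_Ici (hS.comp Real.measurable_exp) measurable_const

theorem FS_neg (S : ℝ → ℂ) (u : ℝ) (hu : u < 0) : FS S u = 0 := if_neg (not_le.2 hu)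

theorem FS_pos (S : ℝ → ℂ) {u : ℝ} (hu : 0 ≤ u) : FS S u = S (Real.exp u) := if_pos hu

theorem FS_cont {S : ℝ → ℂ} (hS : {x : ℝ | ¬ ContinuousAt S x}.Countable) : ∀ᵐ u : ℝ, ContinuousAt (FS S) u := by
  have h1 : (Real.exp ⁻¹' {x : ℝ | ¬ ContinuousAt S x}).Countable :=
    hS.preimage_of_injOn Real.exp_injective.injOn
  have h2 : ({0} ∪ Real.exp ⁻¹' {x : ℝ | ¬ ContinuousAt S x}).Countable := (Set.countable_singleton _).union h1
  rw [ae_iff]
  refine measure_mono_null (fun u hu => ?_) (h2.measure_zero _)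
  by_contra hcon
  simp only [mem_union, mem_singleton_iff, mem_preimage, mem_setOf_eq, not_or, not_not] at hcon
  obtain ⟨hu0, hcu⟩ := hcon
  apply hu
  rcases lt_or_gt_of_ne hu0 with h | h
  · refine ContinuousAt.congr (f := fun _ => (0:ℂ)) continuousAt_const ?_
    filter_upwards [gt_mem_nhds h] with v hv
    rw [FS_neg S v hv]
  · refine ContinuousAt.congr (f := fun v => S (Real.exp v)) ?_ ?_
    · exact ContinuousAt.comp (g := S) hcu Real.continuous_exp.continuousAt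
    · filter_upwards [lt_mem_nhds h] with v hv
      rw [FS_pos S hv.le]

theorem FS_bd {S : ℝ → ℂ} {C κ : ℝ} (hSb : ∀ x : ℝ, 1 ≤ x → ‖S x‖ ≤ C * x ^ κ) (u : ℝ) (hu : 0 ≤ u) :
    ‖FS S u‖ ≤ C * Real.exp (κ * u) := by
  rw [FS_pos S hu]
  refine (hSb _ (Real.one_le_exp hu)).trans (le_of_eq ?_)
  rw [← Real.exp_mul, mul_comm u κ]

theorem supN_of_nearSup {S : ℝ → ℂ} {A A' β t : ℝ} (hA : 0 < A) (hA' : 0 < A') (ht : 0 ≤ t)
    (h : NearSup S A A' r β (Real.exp t)) : SupN (FS S) (Real.log A) (Real.log A') r (Real.exp (β * t)) t := by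
  obtain ⟨u, v, huv⟩ := h
  refine ⟨fun j x => u j (Real.exp x), fun j y => v j (Real.exp y), fun x hx y hy => ?_⟩
  have h1 : Real.exp x ∈ Icc 1 A := ⟨Real.one_le_exp hx.1, by rw [← Real.exp_log hA]; exact Real.exp_le_exp.2 hx.2⟩
  have h2 : Real.exp y ∈ Icc 1 A' := ⟨Real.one_le_exp hy.1, by rw [← Real.exp_log hA']; exact Real.exp_le_exp.2 hy.2⟩
  have h3 := huv _ h1 _ h2
  rw [← Real.exp_mul, mul_comm t β] at h3
  rw [FS_pos S (by linarith [hx.1, hy.1]), Real.exp_add, Real.exp_add]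
  exact h3

theorem nearSup_of_supN {S : ℝ → ℂ} {A A' β t : ℝ} (ht : 0 ≤ t)
    (h : SupN (FS S) (Real.log A) (Real.log A') r (Real.exp (β * t)) t) : NearSup S A A' r β (Real.exp t) := by
  obtain ⟨U, V, hUV⟩ := h
  refine ⟨fun j x => U j (Real.log x), fun j y => V j (Real.log y), fun x hx y hy => ?_⟩
  have hx0 : 0 < x := by linarith [hx.1]
  have hy0 : 0 < y := by linarith [hy.1]
  have h1 : Real.log x ∈ Icc 0 (Real.log A) := ⟨Real.log_nonneg hx.1, Real.log_le_log hx0 hx.2⟩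
  have h2 : Real.log y ∈ Icc 0 (Real.log A') := ⟨Real.log_nonneg hy.1, Real.log_le_log hy0 hy.2⟩
  have h3 := hUV _ h1 _ h2
  rw [FS_pos S (by linarith [h1.1, h2.1]), Real.exp_add, Real.exp_add, Real.exp_log hx0, Real.exp_log hy0] at h3
  rw [← Real.exp_mul, mul_comm t β]
  exact h3

/-- the term `x ^ ρ_j (log x) ^ m_j` -/
def tm (ρ : Fin r → ℂ) (j : Fin r) (x : ℝ) : ℂ := (Real.log x : ℂ) ^ mu ρ j * (x : ℂ) ^ ρ j

theorem tm_exp (ρ : Fin r → ℂ) (j : Fin r) (u : ℝ) : tm ρ j (Real.exp u) = eb ρ j u := by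
  unfold tm eb
  rw [Real.log_exp]
  congr 1
  have hne : ((Real.exp u : ℝ) : ℂ) ≠ 0 := by exact_mod_cast (Real.exp_pos u).ne'
  rw [Complex.cpow_def_of_ne_zero hne, ← Complex.ofReal_log (Real.exp_pos u).le, Real.log_exp, mul_comm]

theorem tm_log (ρ : Fin r → ℂ) (j : Fin r) {x : ℝ} (hx : 0 < x) : tm ρ j x = eb ρ j (Real.log x) := by
  rw [← tm_exp, Real.exp_log hx]

/-- an expansion in multiplicative form is one in logarithmic form -/
theorem exp_iff {S : ℝ → ℂ} {ρ c : Fin r → ℂ} {β' K : ℝ} :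
    (∀ x : ℝ, 1 ≤ x → ‖S x - ∑ j, c j * tm ρ j x‖ ≤ K * x ^ β') ↔
      ∀ u : ℝ, 0 ≤ u → ‖FS S u - ∑ j, c j * eb ρ j u‖ ≤ K * Real.exp (β' * u) := by
  constructor
  · intro h u hu
    have h1 := h _ (Real.one_le_exp hu)
    rw [← Real.exp_mul, mul_comm u β'] at h1
    rw [FS_pos S hu]
    simpa only [tm_exp] using h1
  · intro h x hx
    have hx0 : 0 < x := by linarith
    have hlx := Real.log_nonneg hx
    have h1 := h _ hlx
    rw [FS_pos S hlx, Real.exp_log hx0] at h1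
    have e1 : Real.exp (β' * Real.log x) = x ^ β' := by rw [Real.rpow_def_of_pos hx0, mul_comm]
    rw [e1] at h1
    have e2 : ∑ j, c j * tm ρ j x = ∑ j, c j * eb ρ j (Real.log x) :=
      Finset.sum_congr rfl fun j _ => by rw [tm_log ρ j hx0]
    rw [e2]
    exact h1

theorem rank_log {S : ℝ → ℂ} {A A' : ℝ} (hA : 0 < A) (hA' : 0 < A') {β' : ℝ} :
    (∀ᶠ X : ℝ in atTop, NearSup S A A' r β' X) ↔
      ∀ᶠ t : ℝ in atTop, SupN (FS S) (Real.log A) (Real.log A') r (Real.exp (β' * t)) t := by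
  constructor
  · intro h
    filter_upwards [Real.tendsto_exp_atTop.eventually h, eventually_ge_atTop (0:ℝ)] with t ht ht0
    exact supN_of_nearSup hA hA' ht0 ht
  · intro h
    filter_upwards [Real.tendsto_log_atTop.eventually h, eventually_ge_atTop (1:ℝ)] with X hX hX1
    have h1 := nearSup_of_supN (Real.log_nonneg hX1) hX
    rwa [Real.exp_log (by linarith)] at h1

/-- **local rank and expansions** -/
theorem rank_iff {S : ℝ → ℂ} (hSm : Measurable S) (hSc : {x : ℝ | ¬ ContinuousAt S x}.Countable) {C κ : ℝ} (hC : 0 ≤ C)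
    (hSb : ∀ x : ℝ, 1 ≤ x → ‖S x‖ ≤ C * x ^ κ) {A A' : ℝ} (hA : 1 < A) (hA' : 1 < A') (β : ℝ) :
    (∀ β' : ℝ, β < β' → ∀ᶠ X : ℝ in atTop, NearSup S A A' r β' X) ↔
      ∃ ρ c : Fin r → ℂ, ∀ β' : ℝ, β < β' → ∃ K : ℝ, ∀ x : ℝ, 1 ≤ x →
        ‖S x - ∑ j, c j * tm ρ j x‖ ≤ K * x ^ β' := by
  constructor
  · intro h
    obtain ⟨ρ, c, -, -, h1⟩ := expansion (FS_meas hSm) (FS_cont hSc) (FS_neg S) hC (FS_bd hSb) (Real.log_pos hA)
      (Real.log_pos hA') (β := β) fun β' hβ' => (rank_log (by linarith) (by linarith)).1 (h β' hβ')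
    refine ⟨ρ, c, fun β' hβ' => ?_⟩
    obtain ⟨K, -, hK⟩ := h1 β' hβ'
    exact ⟨K, exp_iff.2 hK⟩
  · rintro ⟨ρ, c, h⟩ β' hβ'
    rw [rank_log (by linarith) (by linarith)]
    refine near_of_expansion (ρ := ρ) (c := c) (β := β) (fun β'' hβ'' => ?_) (Real.log_pos hA).le (Real.log_pos hA').le hβ'
    obtain ⟨K, hK⟩ := h β'' hβ''
    exact ⟨K, exp_iff.1 hK⟩

end

end Pool.Agent.H480.Q
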