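import Pool.Agent.H480.Q4

/-!
The multiplicity of the exponent one, and the polynomial case.
-/

open Complex MeasureTheory Filter Topology Set

set_option linter.unusedSectionVars false

namespace Pool.Agent.H480.Q

open Pool.Agent.H480.G
open Pool.Agent.H480.K

noncomputable section

variable {r : ℕ}

/-- the transform near one -/
theorem lap_lower {f : ℝ → ℝ} (hfm : Measurable f) (hfn : ∀ u, 0 ≤ f u) {c u₀ κ w : ℝ} (hc : 0 < c) (hκ : 0 ≤ κ)
    (hlow : ∀ u, u₀ ≤ u → c * u ^ κ * Real.exp u ≤ f u) (hw0 : u₀ ≤ w) (hw1 : 1 ≤ w)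
    (hI : Integrable fun u : ℝ => ‖((f u : ℝ) : ℂ)‖ * Real.exp (-((1 + 1 / w) * u))) :
    c * Real.exp (-2) * w ^ (κ + 1) ≤ ‖Lap (fun u => (f u : ℂ)) ((1 + 1 / w : ℝ) : ℂ)‖ := by
  have hwp : 0 < w := by linarith
  have hI' : Integrable fun u : ℝ => f u * Real.exp (-((1 + 1 / w) * u)) := by
    refine hI.congr (ae_of_all _ fun u => ?_)
    beta_reduce
    rw [Complex.norm_real, Real.norm_eq_abs, abs_of_nonneg (hfn u)]
  have e1 : Lap (fun u => (f u : ℂ)) ((1 + 1 / w : ℝ) : ℂ) = ((∫ u : ℝ, f u * Real.exp (-((1 + 1 / w) * u)) : ℝ) : ℂ) := by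
    unfold Lap
    rw [← integral_complex_ofReal]
    refine integral_congr_ae (ae_of_all _ fun u => ?_)
    beta_reduce
    push_cast
    congr 2
    ring
  have hnn : ∀ u : ℝ, 0 ≤ f u * Real.exp (-((1 + 1 / w) * u)) := fun u => mul_nonneg (hfn u) (Real.exp_pos _).le
  have h1 : ∫ u in Icc w (2 * w), f u * Real.exp (-((1 + 1 / w) * u)) ≤ ∫ u : ℝ, f u * Real.exp (-((1 + 1 / w) * u)) :=
    setIntegral_le_integral hI' (ae_of_all _ hnn)
  have h2 : ∫ u in Icc w (2 * w), c * w ^ κ * Real.exp (-2) ≤ ∫ u in Icc w (2 * w), f u * Real.exp (-((1 + 1 / w) * u)) := by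
    refine setIntegral_mono_on (integrableOn_const (by simp)) hI'.integrableOn measurableSet_Icc fun u hu => ?_
    have hu0 : 0 < u := by linarith [hu.1]
    have h3 : w ^ κ ≤ u ^ κ := Real.rpow_le_rpow hwp.le hu.1 hκ
    have h4 : Real.exp (-2) ≤ Real.exp u * Real.exp (-((1 + 1 / w) * u)) := by
      rw [← Real.exp_add]
      refine Real.exp_le_exp.2 ?_
      have : 1 / w * u ≤ 2 := by
        rw [one_div_mul_eq_div, div_le_iff₀ hwp]
        exact hu.2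
      linarith
    calc c * w ^ κ * Real.exp (-2) ≤ c * u ^ κ * (Real.exp u * Real.exp (-((1 + 1 / w) * u))) :=
          mul_le_mul (mul_le_mul_of_nonneg_left h3 hc.le) h4 (Real.exp_pos _).le (by positivity)
      _ = (c * u ^ κ * Real.exp u) * Real.exp (-((1 + 1 / w) * u)) := by ring
      _ ≤ _ := mul_le_mul_of_nonneg_right (hlow u (hw0.trans hu.1)) (Real.exp_pos _).le
  have h3 : ∫ u in Icc w (2 * w), c * w ^ κ * Real.exp (-2) = c * Real.exp (-2) * w ^ (κ + 1) := by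
    rw [setIntegral_const, measureReal_def, Real.volume_Icc, ENNReal.toReal_ofReal (by linarith), smul_eq_mul,
      Real.rpow_add_one hwp.ne']
    ring
  rw [e1, Complex.norm_real, Real.norm_eq_abs]
  rw [← h3]
  exact (h2.trans h1).trans (le_abs_self _)

/-- **the multiplicity of the exponent one** -/
theorem mult_one {f : ℝ → ℝ} (hfm : Measurable f) (hf0 : ∀ u, u < 0 → f u = 0) (hfn : ∀ u, 0 ≤ f u)
    (hup : ∀ σ : ℝ, 1 < σ → ∃ C : ℝ, 0 ≤ C ∧ ∀ u, 0 ≤ u → f u ≤ C * Real.exp (σ * u))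
    {c u₀ κ : ℝ} (hc : 0 < c) (hκ : 0 ≤ κ) (hlow : ∀ u, u₀ ≤ u → c * u ^ κ * Real.exp u ≤ f u)
    {β : ℝ} (hβ : β < 1) {ρ : Fin r → ℂ} {g : ℂ → ℂ} (hg : ∀ s : ℂ, β < s.re → DifferentiableAt ℂ g s) {c₀ : ℝ}
    (hform : ∀ s : ℂ, c₀ < s.re → g s = (∏ j, (s - ρ j)) * Lap (fun u => (f u : ℂ)) s) :
    κ + 1 ≤ ((Finset.univ.filter fun j => ρ j = 1).card : ℝ) := by
  classical
  set F : ℝ → ℂ := fun u => (f u : ℂ) with hF
  have hFm : Measurable F := Complex.measurable_ofReal.comp hfm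
  have hF0 : ∀ u, u < 0 → F u = 0 := fun u hu => by simp only [hF]; rw [hf0 u hu, Complex.ofReal_zero]
  have hFn : ∀ u, ‖F u‖ = f u := fun u => by
    simp only [hF]
    rw [Complex.norm_real, Real.norm_eq_abs, abs_of_nonneg (hfn u)]
  have hI : ∀ σ : ℝ, 1 < σ → Integrable fun u : ℝ => ‖F u‖ * Real.exp (-(σ * u)) := by
    intro σ hσ
    obtain ⟨C, hC, hfC⟩ := hup ((1 + σ) / 2) (by linarith)
    exact f_int hFm hF0 hC (c₁ := (1 + σ) / 2) (fun u hu => by rw [hFn]; exact hfC u hu) (by linarith)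
  have hd : ∀ s : ℂ, 1 < s.re → DifferentiableAt ℂ (Lap F) s := fun s hs => lap_diff hFm hI hs
  have hpd : Differentiable ℂ fun s : ℂ => ∏ j, (s - ρ j) := by fun_prop
  have hid : ∀ s : ℂ, 1 < s.re → g s = (∏ j, (s - ρ j)) * Lap F s := fun s hs =>
    half_id (δ := 1) (c₀ := c₀) (F := g) (G := fun s => (∏ j, (s - ρ j)) * Lap F s) (fun s hs => hg s (hβ.trans hs))
      (fun s hs => (hpd s).mul (hd s hs)) hform hs
  set m : ℕ := (Finset.univ.filter fun j => ρ j = 1).card with hm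
  by_contra hcon
  rw [not_le] at hcon
  -- the points
  have hpt : Tendsto (fun w : ℝ => ((1 + 1 / w : ℝ) : ℂ)) atTop (𝓝 1) := by
    have h1 : Tendsto (fun w : ℝ => 1 + 1 / w) atTop (𝓝 (1 + 0)) :=
      tendsto_const_nhds.add (tendsto_const_nhds.div_atTop tendsto_id)
    rw [add_zero] at h1
    have h2 := (Complex.continuous_ofReal.tendsto 1).comp h1
    rw [Complex.ofReal_one] at h2
    exact h2
  -- the other factors
  have hP2 : Tendsto (fun w : ℝ => ‖∏ j ∈ Finset.univ.filter (fun j => ¬ ρ j = 1), (((1 + 1 / w : ℝ) : ℂ) - ρ j)‖) atTop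
      (𝓝 ‖∏ j ∈ Finset.univ.filter (fun j => ¬ ρ j = 1), ((1:ℂ) - ρ j)‖) := by
    have hcont : Continuous fun s : ℂ => ‖∏ j ∈ Finset.univ.filter (fun j => ¬ ρ j = 1), (s - ρ j)‖ := by fun_prop
    exact (hcont.tendsto 1).comp hpt
  set η : ℝ := ‖∏ j ∈ Finset.univ.filter (fun j => ¬ ρ j = 1), ((1:ℂ) - ρ j)‖ with hη
  have hη0 : 0 < η := by
    rw [hη, norm_pos_iff, Finset.prod_ne_zero_iff]
    intro j hj h0
    exact (Finset.mem_filter.1 hj).2 (sub_eq_zero.1 h0).symm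
  have hg1 : Tendsto (fun w : ℝ => ‖g ((1 + 1 / w : ℝ) : ℂ)‖) atTop (𝓝 ‖g 1‖) := by
    have h1 : ContinuousAt g 1 := (hg 1 (by simpa using hβ)).continuousAt
    exact (h1.tendsto.comp hpt).norm
  have hpow : Tendsto (fun w : ℝ => w ^ (κ + 1 - m)) atTop atTop := tendsto_rpow_atTop (by linarith)
  have hbig := hpow.eventually_gt_atTop ((‖g 1‖ + 1) / (η / 2 * (c * Real.exp (-2))))
  obtain ⟨w, h1, h2, h3, h4, h5⟩ := (hbig.and ((hP2.eventually (lt_mem_nhds (half_lt_self hη0))).and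
    ((hg1.eventually (gt_mem_nhds (lt_add_one _))).and ((eventually_ge_atTop u₀).and (eventually_ge_atTop (1:ℝ)))))).exists
  have hwp : 0 < w := by linarith
  have hσ : 1 < 1 + 1 / w := by
    have : 0 < 1 / w := by positivity
    linarith
  have h6 := hid ((1 + 1 / w : ℝ) : ℂ) (by rw [Complex.ofReal_re]; exact hσ)
  have h7 := lap_lower hfm hfn hc hκ hlow h4 h5 (hI _ hσ)
  have h8 : ‖∏ j, (((1 + 1 / w : ℝ) : ℂ) - ρ j)‖ = (1 / w) ^ m *
      ‖∏ j ∈ Finset.univ.filter (fun j => ¬ ρ j = 1), (((1 + 1 / w : ℝ) : ℂ) - ρ j)‖ := by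
    rw [← Finset.prod_filter_mul_prod_filter_not Finset.univ (fun j => ρ j = 1), norm_mul]
    congr 1
    have e1 : ∏ j ∈ Finset.univ.filter (fun j => ρ j = 1), (((1 + 1 / w : ℝ) : ℂ) - ρ j) = ((1 / w : ℝ) : ℂ) ^ m := by
      rw [hm, ← Finset.prod_const]
      refine Finset.prod_congr rfl fun j hj => ?_
      rw [(Finset.mem_filter.1 hj).2]
      push_cast
      ring
    rw [e1, norm_pow, Complex.norm_real, Real.norm_eq_abs, abs_of_pos (by positivity)]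
  have h9 : ‖g ((1 + 1 / w : ℝ) : ℂ)‖ = ((1 / w) ^ m *
      ‖∏ j ∈ Finset.univ.filter (fun j => ¬ ρ j = 1), (((1 + 1 / w : ℝ) : ℂ) - ρ j)‖) * ‖Lap F ((1 + 1 / w : ℝ) : ℂ)‖ := by
    rw [h6, norm_mul, h8]
  have h10 : (η / 2 * (c * Real.exp (-2))) * w ^ (κ + 1 - m) ≤ ‖g ((1 + 1 / w : ℝ) : ℂ)‖ := by
    rw [h9]
    have e2 : w ^ (κ + 1 - m) = (1 / w) ^ m * w ^ (κ + 1) := by
      rw [Real.rpow_sub hwp, Real.rpow_natCast, one_div, inv_pow]
      field_simp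
    rw [e2]
    calc (η / 2 * (c * Real.exp (-2))) * ((1 / w) ^ m * w ^ (κ + 1)) =
        ((1 / w) ^ m * (η / 2)) * (c * Real.exp (-2) * w ^ (κ + 1)) := by ring
      _ ≤ _ := mul_le_mul (mul_le_mul_of_nonneg_left h2.le (by positivity)) h7 (by positivity) (by positivity)
  rw [div_lt_iff₀ (by positivity)] at h1
  linarith

end

end Pool.Agent.H480.Q
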