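import Pool.Agent.H480.Q5

/-!
The polynomial case.
-/

open Complex MeasureTheory Filter Topology Set Polynomial

set_option linter.unusedSectionVars false

namespace Pool.Agent.H480.Q

open Pool.Agent.H480.G
open Pool.Agent.H480.K

noncomputable section

variable {r d : ℕ}

/-- for equal exponents the powers of the logarithm are `n - 1, ..., 1, 0` -/
theorem mu_const (z : ℂ) (j : Fin r) : mu (fun _ => z) j = r - 1 - j := by
  unfold mu
  have h1 : (Finset.univ.filter fun i : Fin r => j < i ∧ z = z) = Finset.Ioi j := by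
    ext i
    simp
  rw [h1, Fin.card_Ioi]

theorem mu_lt (ρ : Fin r → ℂ) (j : Fin r) : mu ρ j < r := by
  unfold mu
  have h1 : (Finset.univ.filter fun i : Fin r => j < i ∧ ρ i = ρ j) ⊆ Finset.univ.erase j := by
    intro i hi
    rw [Finset.mem_filter] at hi
    rw [Finset.mem_erase]
    exact ⟨ne_of_gt hi.2.1, Finset.mem_univ _⟩
  have h2 := Finset.card_le_card h1
  rw [Finset.card_erase_of_mem (Finset.mem_univ _), Finset.card_univ, Fintype.card_fin] at h2
  have := j.2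
  omega

theorem sum_const_one (a : Fin (d + 1) → ℂ) (x : ℝ) (hx : 0 < x) :
    ∑ j, a j * tm (fun _ => (1:ℂ)) j x = x * ∑ j : Fin (d + 1), a j * (Real.log x : ℂ) ^ (d - (j : ℕ)) := by
  rw [Finset.mul_sum]
  refine Finset.sum_congr rfl fun j _ => ?_
  unfold tm
  rw [mu_const, Complex.cpow_one, Nat.add_sub_cancel]
  ring

theorem poly_sum (Q : ℝ[X]) (hQ : Q.natDegree ≤ d) (y : ℝ) :
    ((Q.eval y : ℝ) : ℂ) = ∑ j : Fin (d + 1), ((Q.coeff (d - (j : ℕ)) : ℝ) : ℂ) * (y : ℂ) ^ (d - (j : ℕ)) := by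
  rw [eval_eq_sum_range' (Nat.lt_succ_of_le hQ)]
  push_cast
  rw [← Finset.sum_range_reflect, Finset.sum_range]
  refine Finset.sum_congr rfl fun j _ => ?_
  have : d + 1 - 1 - (j : ℕ) = d - j := by omega
  rw [this]

/-- growth of a polynomial in the logarithm -/
theorem poly_log_le (Q : ℝ[X]) {ε : ℝ} (hε : 0 < ε) : ∃ C : ℝ, 0 ≤ C ∧ ∀ x : ℝ, 1 ≤ x → |Q.eval (Real.log x)| ≤ C * x ^ ε := by
  set n := Q.natDegree with hn
  set δ : ℝ := ε / (n + 1) with hδ
  have hδ0 : 0 < δ := by rw [hδ]; positivity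
  refine ⟨∑ i ∈ Finset.range (n + 1), |Q.coeff i| * (1 + 1 / δ) ^ n, Finset.sum_nonneg fun i _ => by positivity, fun x hx => ?_⟩
  have hx0 : 0 < x := by linarith
  have hl0 := Real.log_nonneg hx
  have h1 : Real.log x ≤ x ^ δ / δ := Real.log_le_rpow_div hx0.le hδ0
  have hxδ : 1 ≤ x ^ δ := Real.one_le_rpow hx hδ0.le
  have h2 : 1 + Real.log x ≤ (1 + 1 / δ) * x ^ δ := by
    have : (1 + 1 / δ) * x ^ δ = x ^ δ + x ^ δ / δ := by ring
    linarith
  have h3 : (1 + Real.log x) ^ n ≤ (1 + 1 / δ) ^ n * x ^ ε := by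
    calc (1 + Real.log x) ^ n ≤ ((1 + 1 / δ) * x ^ δ) ^ n := pow_le_pow_left₀ (by positivity) h2 n
      _ = (1 + 1 / δ) ^ n * x ^ (δ * n) := by rw [mul_pow, ← Real.rpow_natCast (x ^ δ), ← Real.rpow_mul hx0.le]
      _ ≤ _ := by
          refine mul_le_mul_of_nonneg_left (Real.rpow_le_rpow_of_exponent_le hx ?_) (by positivity)
          rw [hδ, div_mul_eq_mul_div, div_le_iff₀ (by positivity)]
          nlinarith
  rw [eval_eq_sum_range, Finset.sum_mul]
  refine (Finset.abs_sum_le_sum_abs _ _).trans (Finset.sum_le_sum fun i hi => ?_)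
  rw [abs_mul, abs_pow, abs_of_nonneg hl0, mul_assoc]
  refine mul_le_mul_of_nonneg_left (le_trans ?_ h3) (abs_nonneg _)
  calc Real.log x ^ i ≤ (1 + Real.log x) ^ i := pow_le_pow_left₀ hl0 (by linarith) i
    _ ≤ _ := pow_le_pow_right₀ (by linarith) (Nat.lt_succ_iff.1 (Finset.mem_range.1 hi))

/-- `S (x) = x Q (log x) + O (x ^ β')` for all `β' > β` -/
def IsPoly (S : ℝ → ℝ) (β : ℝ) (Q : ℝ[X]) : Prop :=
  ∀ β' : ℝ, β < β' → ∃ K : ℝ, ∀ x : ℝ, 1 ≤ x → |S x - x * Q.eval (Real.log x)| ≤ K * x ^ β'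

/-- limit of the quotient by `x (log x) ^ d` -/
theorem IsPoly.tendsto {S : ℝ → ℝ} {β : ℝ} {Q : ℝ[X]} (h : IsPoly S β Q) (hβ : β < 1) {e : ℕ} {L : ℝ}
    (hQ : Tendsto (fun y => Q.eval y / y ^ e) atTop (𝓝 L)) :
    Tendsto (fun x => S x / (x * Real.log x ^ e)) atTop (𝓝 L) := by
  obtain ⟨K, hK⟩ := h ((β + 1) / 2) (by linarith)
  have h1 := hQ.comp Real.tendsto_log_atTop
  have h2 : Tendsto (fun x : ℝ => K * x ^ (-(1 - (β + 1) / 2))) atTop (𝓝 (K * 0)) :=
    (tendsto_rpow_neg_atTop (by linarith)).const_mul K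
  rw [mul_zero] at h2
  have h3 : Tendsto (fun x => S x / (x * Real.log x ^ e) - Q.eval (Real.log x) / Real.log x ^ e) atTop (𝓝 0) := by
    rw [tendsto_zero_iff_abs_tendsto_zero]
    refine squeeze_zero' (Eventually.of_forall fun x => abs_nonneg _) ?_ h2
    filter_upwards [eventually_ge_atTop (Real.exp 1)] with x hx
    have hx1 : 1 ≤ x := (Real.one_le_exp zero_le_one).trans hx
    have hx0 : 0 < x := by linarith
    have hl : 1 ≤ Real.log x := by
      rw [← Real.log_exp 1]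
      exact Real.log_le_log (Real.exp_pos _) hx
    have hle : 1 ≤ Real.log x ^ e := one_le_pow₀ hl
    have e1 : S x / (x * Real.log x ^ e) - Q.eval (Real.log x) / Real.log x ^ e =
        (S x - x * Q.eval (Real.log x)) / (x * Real.log x ^ e) := by
      field_simp
    rw [Function.comp_apply, e1, abs_div, abs_of_pos (by positivity : 0 < x * Real.log x ^ e), div_le_iff₀ (by positivity)]
    have h4 := hK x hx1
    have hKn : 0 ≤ K * x ^ ((β + 1) / 2) := (abs_nonneg _).trans h4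
    have e2 : K * x ^ (-(1 - (β + 1) / 2)) * (x * Real.log x ^ e) = K * x ^ ((β + 1) / 2) * Real.log x ^ e := by
      have : x ^ (-(1 - (β + 1) / 2)) * x = x ^ ((β + 1) / 2) := by
        rw [← Real.rpow_add_one hx0.ne']
        congr 1
        ring
      rw [← this]
      ring
    rw [e2]
    exact h4.trans (le_mul_of_one_le_right hKn hle)
  have h4 := h3.add h1
  rw [zero_add] at h4
  refine h4.congr fun x => ?_
  simp

theorem real_norm {S : ℝ → ℝ} (hSn : ∀ x, 0 ≤ S x) (x : ℝ) : ‖(S x : ℂ)‖ = S x := by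
  rw [Complex.norm_real, Real.norm_eq_abs, abs_of_nonneg (hSn x)]

/-- expansions of nonnegative functions: the exponent one -/
theorem expansion_real {S : ℝ → ℝ} (hSm : Measurable S) (hSc : {x : ℝ | ¬ ContinuousAt (fun x => (S x : ℂ)) x}.Countable)
    (hSn : ∀ x, 0 ≤ S x) {A A' : ℝ} (hA : 1 < A) (hA' : 1 < A') {β : ℝ} (hβ : β < 1)
    (hup : ∀ σ : ℝ, 1 < σ → ∃ K : ℝ, ∀ x : ℝ, 1 ≤ x → S x ≤ K * x ^ σ) {c κ : ℝ} (hc : 0 < c) (hκ : 0 ≤ κ)
    (hlow : ∀ᶠ x : ℝ in atTop, c * (x * Real.log x ^ κ) ≤ S x)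
    (H : ∀ β' : ℝ, β < β' → ∀ᶠ X : ℝ in atTop, NearSup (fun x => (S x : ℂ)) A A' r β' X) :
    ∃ ρ a : Fin r → ℂ, (κ + 1 ≤ ((Finset.univ.filter fun j => ρ j = 1).card : ℝ)) ∧
      ∀ β' : ℝ, β < β' → ∃ K : ℝ, ∀ x : ℝ, 1 ≤ x → ‖(S x : ℂ) - ∑ j, a j * tm ρ j x‖ ≤ K * x ^ β' := by
  classical
  obtain ⟨K₂, hK₂⟩ := hup 2 one_lt_two
  have hK₂0 : 0 ≤ K₂ := by
    have h1 := (hSn 1).trans (hK₂ 1 le_rfl)
    rwa [Real.one_rpow, mul_one] at h1
  have hSb : ∀ x : ℝ, 1 ≤ x → ‖(fun x => (S x : ℂ)) x‖ ≤ K₂ * x ^ (2:ℝ) := fun x hx => by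
    beta_reduce
    rw [real_norm hSn]
    exact hK₂ x hx
  have hSm' : Measurable fun x => (S x : ℂ) := Complex.measurable_ofReal.comp hSm
  obtain ⟨ρ, a, -, ⟨g, hg, c₀, hform⟩, h1⟩ := expansion (FS_meas hSm') (FS_cont hSc) (FS_neg _) hK₂0 (FS_bd hSb)
    (Real.log_pos hA) (Real.log_pos hA') (β := β) fun β' hβ' => (rank_log (by linarith) (by linarith)).1 (H β' hβ')
  refine ⟨ρ, a, ?_, fun β' hβ' => ?_⟩
  · set f : ℝ → ℝ := fun u => if 0 ≤ u then S (Real.exp u) else 0 with hf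
    have hfF : FS (fun x => (S x : ℂ)) = fun u => (f u : ℂ) := by
      funext u
      unfold FS
      simp only [hf]
      split_ifs <;> simp
    rw [hfF] at hform
    obtain ⟨x₀, hx₀⟩ := eventually_atTop.1 hlow
    refine mult_one (f := f) (c := c) (u₀ := max (Real.log (max x₀ 1)) 0) (κ := κ)
      (Measurable.ite measurableSet_Ici (hSm.comp Real.measurable_exp) measurable_const)
      (fun u hu => if_neg (not_le.2 hu)) (fun u => ?_) (fun σ hσ => ?_) hc hκ (fun u hu => ?_) hβ hg hform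
    · simp only [hf]
      split_ifs
      · exact hSn _
      · exact le_rfl
    · obtain ⟨K, hK⟩ := hup σ hσ
      refine ⟨max K 0, le_max_right _ _, fun u hu => ?_⟩
      simp only [hf]
      rw [if_pos hu]
      refine (hK _ (Real.one_le_exp hu)).trans ?_
      rw [← Real.exp_mul, mul_comm u σ]
      exact mul_le_mul_of_nonneg_right (le_max_left _ _) (Real.exp_pos _).le
    · have hu0 : 0 ≤ u := (le_max_right _ _).trans hu
      have h2 : Real.log (max x₀ 1) ≤ u := (le_max_left _ _).trans hu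
      have h3 : x₀ ≤ Real.exp u := by
        have h4 : max x₀ 1 ≤ Real.exp u := by
          rw [← Real.exp_log (lt_max_of_lt_right one_pos : (0:ℝ) < max x₀ 1)]
          exact Real.exp_le_exp.2 h2
        exact (le_max_left _ _).trans h4
      have h4 := hx₀ _ h3
      rw [Real.log_exp] at h4
      simp only [hf]
      rw [if_pos hu0]
      refine le_trans (le_of_eq ?_) h4
      ring
  · obtain ⟨K, -, hK⟩ := h1 β' hβ'
    exact ⟨K, exp_iff.2 hK⟩

/-- **the polynomial case** -/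
theorem poly_iff {S : ℝ → ℝ} (hSm : Measurable S) (hSc : {x : ℝ | ¬ ContinuousAt (fun x => (S x : ℂ)) x}.Countable)
    (hSn : ∀ x, 0 ≤ S x) {A A' : ℝ} (hA : 1 < A) (hA' : 1 < A') {β : ℝ} (hβ : β < 1) (d : ℕ) :
    (∃ Q : ℝ[X], Q.degree = d ∧ IsPoly S β Q) ↔
      ((∀ σ : ℝ, 1 < σ → ∃ K : ℝ, ∀ x : ℝ, 1 ≤ x → S x ≤ K * x ^ σ) ∧
        (∃ c : ℝ, 0 < c ∧ ∀ᶠ x : ℝ in atTop, c * (x * Real.log x ^ d) ≤ S x) ∧
        ∀ β' : ℝ, β < β' → ∀ᶠ X : ℝ in atTop, NearSup (fun x => (S x : ℂ)) A A' (d + 1) β' X) := by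
  have hSm' : Measurable fun x => (S x : ℂ) := Complex.measurable_ofReal.comp hSm
  constructor
  · rintro ⟨Q, hQd, hQ⟩
    have hQn : Q.natDegree = d := natDegree_eq_of_degree_eq_some hQd
    have hQ0 : Q ≠ 0 := by
      rintro rfl
      rw [degree_zero] at hQd
      exact absurd hQd (by simp)
    have hup : ∀ σ : ℝ, 1 < σ → ∃ K : ℝ, ∀ x : ℝ, 1 ≤ x → S x ≤ K * x ^ σ := by
      intro σ hσ
      obtain ⟨K, hK⟩ := hQ ((β + 1) / 2) (by linarith)
      obtain ⟨C, hC, hQC⟩ := poly_log_le Q (ε := σ - 1) (by linarith)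
      refine ⟨C + |K|, fun x hx => ?_⟩
      have hx0 : 0 < x := by linarith
      have h1 := hK x hx
      have h2 := hQC x hx
      have h3 : x * Q.eval (Real.log x) ≤ C * x ^ σ := by
        calc x * Q.eval (Real.log x) ≤ x * (C * x ^ (σ - 1)) := mul_le_mul_of_nonneg_left ((le_abs_self _).trans h2) hx0.le
          _ = C * (x ^ (σ - 1) * x) := by ring
          _ = _ := by rw [← Real.rpow_add_one hx0.ne']; congr 2; ring
      have h4 : K * x ^ ((β + 1) / 2) ≤ |K| * x ^ σ :=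
        mul_le_mul (le_abs_self _) (Real.rpow_le_rpow_of_exponent_le hx (by linarith)) (by positivity) (abs_nonneg _)
      have h5 := (abs_le.1 h1).2
      linarith
    refine ⟨hup, ?_, ?_⟩
    · have h1 := div_tendsto_leadingCoeff_div_of_degree_eq Q (X ^ d : ℝ[X]) (by rw [degree_X_pow, hQd])
      rw [leadingCoeff_X_pow, div_one] at h1
      have h2 : Tendsto (fun y => Q.eval y / y ^ d) atTop (𝓝 Q.leadingCoeff) := by
        refine h1.congr fun y => ?_
        rw [eval_pow, eval_X]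
      have h3 := hQ.tendsto hβ h2
      have hl0 : 0 ≤ Q.leadingCoeff := by
        refine ge_of_tendsto h3 ?_
        filter_upwards [eventually_ge_atTop (1:ℝ)] with x hx
        have := Real.log_nonneg hx
        exact div_nonneg (hSn x) (by positivity)
      have hl1 : 0 < Q.leadingCoeff := lt_of_le_of_ne hl0 (Ne.symm (leadingCoeff_ne_zero.2 hQ0))
      refine ⟨Q.leadingCoeff / 2, by positivity, ?_⟩
      filter_upwards [h3.eventually (lt_mem_nhds (half_lt_self hl1)), eventually_gt_atTop (1:ℝ)] with x hx hx1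
      have h4 := Real.log_pos hx1
      have h5 : 0 < x * Real.log x ^ d := by positivity
      rw [lt_div_iff₀ h5] at hx
      exact hx.le
    · obtain ⟨K₂, hK₂⟩ := hup 2 one_lt_two
      have hK₂0 : 0 ≤ K₂ := by
        have h1 := (hSn 1).trans (hK₂ 1 le_rfl)
        rwa [Real.one_rpow, mul_one] at h1
      refine (rank_iff hSm' hSc (κ := 2) hK₂0 (fun x hx => by rw [real_norm hSn]; exact hK₂ x hx) hA hA' β).2
        ⟨fun _ => 1, fun j => ((Q.coeff (d - (j : ℕ)) : ℝ) : ℂ), fun β' hβ' => ?_⟩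
      obtain ⟨K, hK⟩ := hQ β' hβ'
      refine ⟨K, fun x hx => ?_⟩
      have hx0 : 0 < x := by linarith
      rw [sum_const_one _ x hx0, ← poly_sum Q hQn.le]
      have e1 : (S x : ℂ) - x * ((Q.eval (Real.log x) : ℝ) : ℂ) = ((S x - x * Q.eval (Real.log x) : ℝ) : ℂ) := by push_cast; ring
      rw [e1, Complex.norm_real, Real.norm_eq_abs]
      exact hK x hx
  · rintro ⟨hup, ⟨c, hc, hlow⟩, H⟩
    have hlow' : ∀ᶠ x : ℝ in atTop, c * (x * Real.log x ^ (d : ℝ)) ≤ S x := by
      filter_upwards [hlow] with x hx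
      rwa [Real.rpow_natCast]
    obtain ⟨ρ, a, hcard, h1⟩ := expansion_real hSm hSc hSn hA hA' hβ hup hc (Nat.cast_nonneg d) hlow' H
    have hρ : ρ = fun _ => 1 := by
      have h2 : d + 1 ≤ (Finset.univ.filter fun j => ρ j = 1).card := by exact_mod_cast hcard
      have h3 : (Finset.univ.filter fun j => ρ j = 1) = Finset.univ := by
        apply Finset.eq_univ_of_card
        have h4 := Finset.card_le_univ (Finset.univ.filter fun j => ρ j = 1)
        rw [Fintype.card_fin] at h4 ⊢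
        omega
      funext j
      have h5 : j ∈ Finset.univ.filter fun j => ρ j = 1 := by rw [h3]; exact Finset.mem_univ j
      exact (Finset.mem_filter.1 h5).2
    set Q : ℝ[X] := ∑ j : Fin (d + 1), C (a j).re * X ^ (d - (j : ℕ)) with hQdef
    have hQn : Q.natDegree ≤ d := by
      rw [hQdef]
      refine natDegree_sum_le_of_forall_le _ _ fun j _ => ?_
      exact (natDegree_C_mul_X_pow_le _ _).trans (Nat.sub_le _ _)
    have hQ : IsPoly S β Q := by
      intro β' hβ'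
      obtain ⟨K, hK⟩ := h1 β' hβ'
      refine ⟨K, fun x hx => ?_⟩
      have hx0 : 0 < x := by linarith
      have h2 := hK x hx
      rw [hρ, sum_const_one _ x hx0] at h2
      have h3 := (Complex.abs_re_le_norm _).trans h2
      have e1 : ((S x : ℂ) - x * ∑ j : Fin (d + 1), a j * (Real.log x : ℂ) ^ (d - (j : ℕ))).re =
          S x - x * Q.eval (Real.log x) := by
        rw [hQdef, eval_finsetSum, Complex.sub_re, Complex.ofReal_re, Complex.re_ofReal_mul, Complex.re_sum]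
        congr 2
        refine Finset.sum_congr rfl fun j _ => ?_
        rw [eval_mul, eval_C, eval_pow, eval_X, ← Complex.ofReal_pow, mul_comm (a j), Complex.re_ofReal_mul, mul_comm]
      rwa [e1] at h3
    refine ⟨Q, ?_, hQ⟩
    by_contra hne
    have hlt : Q.degree < (X ^ d : ℝ[X]).degree := by
      rw [degree_X_pow]
      exact lt_of_le_of_ne (natDegree_le_iff_degree_le.1 hQn) hne
    have h2 := div_tendsto_zero_of_degree_lt Q (X ^ d : ℝ[X]) hlt
    have h3 : Tendsto (fun y => Q.eval y / y ^ d) atTop (𝓝 0) := by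
      refine h2.congr fun y => ?_
      rw [eval_pow, eval_X]
    have h4 := hQ.tendsto hβ h3
    obtain ⟨x, hx1, hx2, hx3⟩ := ((h4.eventually (gt_mem_nhds hc)).and (hlow.and (eventually_gt_atTop (1:ℝ)))).exists
    have h5 := Real.log_pos hx3
    have h6 : 0 < x * Real.log x ^ d := by positivity
    rw [div_lt_iff₀ h6] at hx1
    linarith

end

end Pool.Agent.H480.Q
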