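import Pool.Agent.H480.Q6
import Pool.Graph.R_seed8.H353R2.Z1
import Pool.Graph.R_pool_sql_team_seeded_1acbe0a2.Y753.Rob2
import Pool.Graph.R_seed8.TH806.LK.Fin

/-!
The moments of zeta.
-/

open Complex MeasureTheory Filter Topology Set Polynomial

set_option linter.unusedSectionVars false

namespace Pool.Agent.H480.Q

noncomputable section

/-- bound on the critical line -/
theorem zeta_le (t : ℝ) : ‖riemannZeta (1 / 2 + t * I)‖ ≤ 6 * (2 + |t|) ^ 2 := by
  set v : ℂ := 1 / 2 + t * I with hv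
  have hre : v.re = 1 / 2 := by rw [hv]; simp
  have him : v.im = t := by rw [hv]; simp
  have hv1 : v ≠ 1 := by
    intro h
    rw [h] at hre
    norm_num at hre
  have h1 := H353.FF_bound (1 / 2) (by norm_num) v (by rw [hre])
  have h2 : H353.FF v = (v - 1) * riemannZeta v := ZU.J_g2b.FF_ne hv1
  rw [h2, norm_mul] at h1
  have h3 : 1 / 2 ≤ ‖v - 1‖ := by
    have h4 := Complex.abs_re_le_norm (v - 1)
    rw [Complex.sub_re, hre, Complex.one_re] at h4
    norm_num at h4
    linarith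
  have h4 : ‖v‖ ≤ 1 / 2 + |t| := by
    have h5 := Complex.norm_le_abs_re_add_abs_im v
    rw [hre, him] at h5
    norm_num at h5
    linarith
  have h5 : (1 + ‖v‖) ^ 2 ≤ (2 + |t|) ^ 2 := by
    have := norm_nonneg v
    exact pow_le_pow_left₀ (by positivity) (by linarith) 2
  have h6 := norm_nonneg (riemannZeta v)
  have h7 : 1 / 2 * ‖riemannZeta v‖ ≤ ‖v - 1‖ * ‖riemannZeta v‖ := mul_le_mul_of_nonneg_right h3 h6
  norm_num at h1
  linarith

theorem zeta_cont : Continuous fun t : ℝ => ‖riemannZeta (1 / 2 + t * I)‖ := by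
  refine continuous_norm.comp ?_
  rw [continuous_iff_continuousAt]
  intro t
  have h1 : (1 / 2 + (t:ℂ) * I) ≠ 1 := by
    intro h
    have := congrArg Complex.re h
    norm_num at this
  have h2 := (differentiableAt_riemannZeta h1).continuousAt
  have h3 : ContinuousAt (fun t : ℝ => (1 / 2 + (t:ℂ) * I)) t := by fun_prop
  exact ContinuousAt.comp (g := riemannZeta) h2 h3

/-- the moment of order `2 k` -/
def Mk (k T : ℝ) : ℝ := ∫ t in Icc 0 T, ‖riemannZeta (1 / 2 + t * I)‖ ^ (2 * k)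

theorem zp_cont {k : ℝ} (hk : 0 < k) : Continuous fun t : ℝ => ‖riemannZeta (1 / 2 + t * I)‖ ^ (2 * k) :=
  zeta_cont.rpow_const fun _ => Or.inr (by positivity)

theorem Mk_nonneg (k T : ℝ) : 0 ≤ Mk k T := integral_nonneg fun t => by positivity

theorem Mk_mono {k : ℝ} (hk : 0 < k) : Monotone (Mk k) := by
  intro a b hab
  unfold Mk
  refine setIntegral_mono_set (zp_cont hk).integrableOn_Icc (ae_of_all _ fun t => by positivity) ?_
  exact (Icc_subset_Icc_right hab).eventuallyLE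

theorem Mk_le {k : ℝ} (hk : 0 < k) {T : ℝ} (hT : 1 ≤ T) : Mk k T ≤ 54 ^ (2 * k) * T ^ (4 * k + 1) := by
  have hT0 : 0 < T := by linarith
  have h1 : ∀ t ∈ Icc 0 T, ‖riemannZeta (1 / 2 + t * I)‖ ^ (2 * k) ≤ (54 * T ^ 2) ^ (2 * k) := by
    intro t ht
    refine Real.rpow_le_rpow (norm_nonneg _) ((zeta_le t).trans ?_) (by positivity)
    rw [abs_of_nonneg ht.1]
    have h2 : (2 + t) ^ 2 ≤ (3 * T) ^ 2 := pow_le_pow_left₀ (by linarith [ht.1]) (by linarith [ht.2]) 2
    nlinarith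
  have h2 : Mk k T ≤ ∫ _t in Icc 0 T, (54 * T ^ 2) ^ (2 * k) :=
    setIntegral_mono_on (zp_cont hk).integrableOn_Icc (integrableOn_const (by simp)) measurableSet_Icc h1
  refine h2.trans (le_of_eq ?_)
  rw [setIntegral_const, measureReal_def, Real.volume_Icc, ENNReal.toReal_ofReal (by linarith), smul_eq_mul,
    Real.mul_rpow (by norm_num) (by positivity), ← Real.rpow_natCast T 2, ← Real.rpow_mul hT0.le,
    Real.rpow_add_one hT0.ne']
  push_cast
  ring_nf

theorem Mk_lower {k : ℝ} (hk : 0 < k) : ∃ c : ℝ, 0 < c ∧ ∀ᶠ T : ℝ in atTop, c * (T * Real.log T ^ (k ^ 2)) ≤ Mk k T := by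
  obtain ⟨c, hc, h⟩ := Pool.Agent.Y753.Rob.robust0 Pool.Agent.TH806.LK.a_MAIN k 0 hk le_rfl
  refine ⟨c, hc, ?_⟩
  filter_upwards [h, eventually_gt_atTop (1:ℝ)] with T hT hT1
  have h1 := hT (Icc 0 T) measurableSet_Icc Subset.rfl (by
    have hl := Real.log_pos hT1
    rw [diff_self, measureReal_empty]
    positivity)
  rw [← mul_assoc]
  exact h1

/-- growth of a polynomial in the logarithm on the whole half line -/
theorem poly_log_le' (Q : ℝ[X]) : ∃ C : ℝ, 0 ≤ C ∧ ∀ t : ℝ, 0 < t →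
    |Q.eval (Real.log t)| ≤ C * (t ^ (-(1 / 2) : ℝ) + t ^ (1 / 2 : ℝ)) := by
  obtain ⟨C₁, hC₁, h1⟩ := poly_log_le Q (ε := 1 / 2) (by norm_num)
  obtain ⟨C₂, hC₂, h2⟩ := poly_log_le (Q.comp (-X)) (ε := 1 / 2) (by norm_num)
  refine ⟨C₁ + C₂, by positivity, fun t ht => ?_⟩
  have p1 : 0 < t ^ (1 / 2 : ℝ) := by positivity
  have p2 : 0 < t ^ (-(1 / 2) : ℝ) := by positivity
  rcases le_or_gt 1 t with h | h
  · have h3 := h1 t h
    have h4 : 0 ≤ C₂ * (t ^ (-(1 / 2) : ℝ) + t ^ (1 / 2 : ℝ)) := by positivity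
    have h5 : 0 ≤ C₁ * t ^ (-(1 / 2) : ℝ) := by positivity
    linarith
  · have hti : 1 ≤ t⁻¹ := (one_le_inv₀ ht).2 h.le
    have h3 := h2 t⁻¹ hti
    rw [eval_comp, eval_neg, eval_X, Real.log_inv, neg_neg, Real.inv_rpow ht.le, ← Real.rpow_neg ht.le] at h3
    have h4 : 0 ≤ C₁ * (t ^ (-(1 / 2) : ℝ) + t ^ (1 / 2 : ℝ)) := by positivity
    have h5 : 0 ≤ C₂ * t ^ (1 / 2 : ℝ) := by positivity
    linarith

theorem poly_log_int (Q : ℝ[X]) {T : ℝ} (hT : 0 < T) : IntervalIntegrable (fun t => Q.eval (Real.log t)) volume 0 T := by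
  obtain ⟨C, hC, h⟩ := poly_log_le' Q
  have h1 : IntervalIntegrable (fun t : ℝ => C * (t ^ (-(1 / 2) : ℝ) + t ^ (1 / 2 : ℝ))) volume 0 T :=
    ((intervalIntegral.intervalIntegrable_rpow' (by norm_num)).add
      (intervalIntegral.intervalIntegrable_rpow' (by norm_num))).const_mul C
  have hm : Measurable fun t : ℝ => Q.eval (Real.log t) := Q.continuous.measurable.comp Real.measurable_log
  refine h1.mono_fun hm.aestronglyMeasurable ?_
  rw [uIoc_of_le hT.le]
  refine (ae_restrict_iff' measurableSet_Ioc).2 (ae_of_all _ fun t ht => ?_)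
  have ht0 : 0 < t := ht.1
  beta_reduce
  rw [Real.norm_eq_abs, Real.norm_eq_abs, abs_of_nonneg (by positivity : 0 ≤ C * (t ^ (-(1 / 2) : ℝ) + t ^ (1 / 2 : ℝ)))]
  exact h t ht0

/-- the antiderivative -/
theorem poly_log_ftc (Q : ℝ[X]) {T : ℝ} (hT : 0 < T) :
    ∫ t in (0:ℝ)..T, (Q + derivative Q).eval (Real.log t) = T * Q.eval (Real.log T) := by
  have hder : ∀ x ∈ Ioo 0 T, HasDerivAt (fun t : ℝ => t * Q.eval (Real.log t)) ((Q + derivative Q).eval (Real.log x)) x := by
    intro x hx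
    have hx0 : x ≠ 0 := hx.1.ne'
    have h1 : HasDerivAt (fun t : ℝ => Q.eval (Real.log t)) ((derivative Q).eval (Real.log x) * x⁻¹) x :=
      (Q.hasDerivAt (Real.log x)).comp x (Real.hasDerivAt_log hx0)
    refine ((hasDerivAt_id x).mul h1).congr_deriv ?_
    rw [eval_add]
    simp only [id]
    field_simp
  have hcont : ContinuousOn (fun t : ℝ => t * Q.eval (Real.log t)) (Icc 0 T) := by
    intro x hx
    rcases eq_or_lt_of_le hx.1 with h | h
    · subst h
      obtain ⟨C, hC, hb⟩ := poly_log_le' Q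
      have h1 : Tendsto (fun t : ℝ => C * (|t| ^ (1 / 2 : ℝ) + |t| ^ (3 / 2 : ℝ))) (𝓝[Icc 0 T] 0) (𝓝 0) := by
        have hc : Continuous fun t : ℝ => C * (|t| ^ (1 / 2 : ℝ) + |t| ^ (3 / 2 : ℝ)) := by
          refine continuous_const.mul ((continuous_abs.rpow_const fun _ => Or.inr (by norm_num)).add
            (continuous_abs.rpow_const fun _ => Or.inr (by norm_num)))
        have h2 := (hc.tendsto 0).mono_left (nhdsWithin_le_nhds (s := Icc 0 T))
        simpa [Real.zero_rpow] using h2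
      show Tendsto _ _ _
      beta_reduce
      rw [zero_mul]
      refine squeeze_zero_norm' ?_ h1
      filter_upwards [self_mem_nhdsWithin] with t ht
      rcases eq_or_lt_of_le ht.1 with h | h
      · subst h
        simp
      · rw [norm_mul, Real.norm_eq_abs, Real.norm_eq_abs, abs_of_pos h]
        have h3 := mul_le_mul_of_nonneg_left (hb t h) h.le
        refine h3.trans (le_of_eq ?_)
        have e1 : t * t ^ (-(1 / 2) : ℝ) = t ^ (1 / 2 : ℝ) := by
          rw [mul_comm, ← Real.rpow_add_one h.ne']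
          norm_num
        have e2 : t * t ^ (1 / 2 : ℝ) = t ^ (3 / 2 : ℝ) := by
          rw [mul_comm, ← Real.rpow_add_one h.ne']
          norm_num
        calc t * (C * (t ^ (-(1 / 2) : ℝ) + t ^ (1 / 2 : ℝ))) =
            C * (t * t ^ (-(1 / 2) : ℝ) + t * t ^ (1 / 2 : ℝ)) := by ring
          _ = _ := by rw [e1, e2]
    · have h2 : ContinuousAt (fun t : ℝ => t * Q.eval (Real.log t)) x :=
        continuousAt_id.mul (Q.continuous.continuousAt.comp (Real.continuousAt_log h.ne'))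
      exact h2.continuousWithinAt
  have h1 := intervalIntegral.integral_eq_sub_of_hasDerivAt_of_le hT.le hcont hder (poly_log_int _ hT)
  rw [h1]
  simp

/-- solving `Q + Q' = R` -/
theorem exists_antider (R : ℝ[X]) : ∃ Q : ℝ[X], Q + derivative Q = R := by
  refine ⟨∑ j ∈ Finset.range (R.natDegree + 1), (-1) ^ j * derivative^[j] R, ?_⟩
  rw [derivative_sum, ← Finset.sum_add_distrib]
  have e1 : ∀ j ∈ Finset.range (R.natDegree + 1), (-1 : ℝ[X]) ^ j * derivative^[j] R + derivative ((-1 : ℝ[X]) ^ j * derivative^[j] R) =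
      (-1 : ℝ[X]) ^ j * derivative^[j] R - (-1 : ℝ[X]) ^ (j + 1) * derivative^[j + 1] R := by
    intro j _
    have h1 : derivative ((-1 : ℝ[X]) ^ j) = 0 := by
      rcases neg_one_pow_eq_or ℝ[X] j with h | h <;> rw [h] <;> simp
    rw [derivative_mul, h1, zero_mul, zero_add, Function.iterate_succ_apply', pow_succ]
    ring
  rw [Finset.sum_congr rfl e1, Finset.sum_range_sub']
  have h2 : derivative^[R.natDegree + 1] R = 0 := iterate_derivative_eq_zero (Nat.lt_succ_self _)
  rw [h2]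
  simp

theorem degree_add_deriv (Q : ℝ[X]) : (Q + derivative Q).degree = Q.degree := by
  rcases eq_or_ne Q 0 with rfl | h
  · simp
  · exact degree_add_eq_left_of_degree_lt (degree_derivative_lt h)

theorem P_of_Q (Q : ℝ[X]) : ∃ P : ℝ[X], P.degree = Q.degree ∧
    ∀ T : ℝ, 0 < T → ∫ t in (0:ℝ)..T, P.eval (Real.log (t / (2 * Real.pi))) = T * Q.eval (Real.log T) := by
  refine ⟨taylor (Real.log (2 * Real.pi)) (Q + derivative Q), ?_, fun T hT => ?_⟩
  · rw [degree_taylor, degree_add_deriv]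
  · rw [← poly_log_ftc Q hT]
    refine intervalIntegral.integral_congr_ae (ae_of_all _ fun t ht => ?_)
    rw [uIoc_of_le hT.le] at ht
    have hpi := Real.pi_pos
    beta_reduce
    rw [taylor_eval, Real.log_div ht.1.ne' (by positivity), sub_add_cancel]

theorem Q_of_P (P : ℝ[X]) : ∃ Q : ℝ[X], Q.degree = P.degree ∧
    ∀ T : ℝ, 0 < T → ∫ t in (0:ℝ)..T, P.eval (Real.log (t / (2 * Real.pi))) = T * Q.eval (Real.log T) := by
  obtain ⟨Q, hQ⟩ := exists_antider (taylor (-Real.log (2 * Real.pi)) P)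
  refine ⟨Q, ?_, fun T hT => ?_⟩
  · rw [← degree_add_deriv Q, hQ, degree_taylor]
  · rw [← poly_log_ftc Q hT, hQ]
    refine intervalIntegral.integral_congr_ae (ae_of_all _ fun t ht => ?_)
    rw [uIoc_of_le hT.le] at ht
    have hpi := Real.pi_pos
    beta_reduce
    rw [taylor_eval, Real.log_div ht.1.ne' (by positivity), sub_eq_add_neg]

end

end Pool.Agent.H480.Q
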