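import Pool.Agent.H480.U1
import Pool.Agent.H480.K5

/-!
The recurrence at all scales, with uniform constants.
-/

open Filter Topology Set MeasureTheory Complex

set_option linter.unusedSectionVars false

namespace Pool.Agent.H480.K

noncomputable section

/-- the recurrence at all scales -/
theorem all_scales_u (r : ℕ) {C c₁ Kc : ℝ} (hC : 0 ≤ C) (hKc : 0 ≤ Kc)
    {a a' β β' h : ℝ} (hh : 0 < h) (hra : (r + 2) * h ≤ a) (hra' : (r + 2) * h ≤ a') (hβ : β < β') :
    ∃ M : ℝ, 0 ≤ M ∧ ∀ (f : ℝ → ℂ) (_ : Measurable f) (_ : ∀ u, 0 ≤ u → ‖f u‖ ≤ C * Real.exp (c₁ * u))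
    (_ : ∀ t : ℝ, 0 ≤ t → LNear f a a' r (Kc * Real.exp (β * t)) t),
    ∃ q : Fin (r + 1) → ℂ, ∑ i, ‖q i‖ = 1 ∧ ∀ m : ℕ,
      ∫ v in Icc 0 h, ‖∑ i, q i * f ((m + (i : ℕ)) * h + v)‖ ≤ M * Real.exp (β' * h * m) := by
  set c₂ : ℝ := |c₁| with hc₂
  set C0 : ℝ := max (h * C * Real.exp (c₂ * h)) (Kc * (Real.exp (-(β * h)) / h)) with hC0
  have hC00 : 0 ≤ C0 := le_max_of_le_right (by positivity)
  have hθ : Real.exp (β * h) < Real.exp (β' * h) := Real.exp_lt_exp.2 (mul_lt_mul_of_pos_right hβ hh)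
  obtain ⟨M, hM0, hrig⟩ := rigidity_u (Real.exp_pos _) hθ (Real.exp_pos (c₂ * h)).le hC00 1 r
  refine ⟨M, hM0, ?_⟩
  intro f hfm hf H
  have hf2 : ∀ u, 0 ≤ u → ‖f u‖ ≤ C * Real.exp (c₂ * u) := fun u hu => (hf u hu).trans
    (mul_le_mul_of_nonneg_left (Real.exp_le_exp.2 (mul_le_mul_of_nonneg_right (le_abs_self _) hu)) hC)
  set BB : Set (ℕ → ℂ) := {b | ∃ φ : ℝ → ℂ, Measurable φ ∧ (∀ v, ‖φ v‖ ≤ 1) ∧
    ∀ n : ℕ, b n = ∫ v in Icc 0 h, f (n * h + v) * φ v} with hBB
  have hfi : ∀ x : ℝ, 0 ≤ x → IntegrableOn (fun v => f (x + v)) (Icc 0 h) := fun x hx =>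
    loc_int hfm hf _ _ _ (by linarith)
  have hfφ : ∀ x : ℝ, 0 ≤ x → ∀ φ : ℝ → ℂ, Measurable φ → (∀ v, ‖φ v‖ ≤ 1) →
      IntegrableOn (fun v => f (x + v) * φ v) (Icc 0 h) := fun x hx φ hφ hφ1 =>
    (hfi x hx).mul_bdd (c := 1) hφ.aestronglyMeasurable (Eventually.of_forall hφ1)
  have hb : ∀ b ∈ BB, ∀ n : ℕ, ‖b n‖ ≤ C0 * Real.exp (c₂ * h) ^ n := by
    rintro b ⟨φ, hφ, hφ1, hbφ⟩ n
    rw [hbφ]
    have h1 : ‖∫ v in Icc 0 h, f (n * h + v) * φ v‖ ≤ C * Real.exp (c₂ * ((n + 1) * h)) * (volume (Icc (0:ℝ) h)).toReal := by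
      refine norm_setIntegral_le_of_norm_le_const (by simp) fun v hv => ?_
      rw [norm_mul]
      have h2 : 0 ≤ (n : ℝ) * h + v := by have := hv.1; positivity
      calc ‖f (n * h + v)‖ * ‖φ v‖ ≤ ‖f (n * h + v)‖ := mul_le_of_le_one_right (norm_nonneg _) (hφ1 v)
        _ ≤ C * Real.exp (c₂ * (n * h + v)) := hf2 _ h2
        _ ≤ _ := by
            refine mul_le_mul_of_nonneg_left (Real.exp_le_exp.2 ?_) hC
            refine mul_le_mul_of_nonneg_left ?_ (abs_nonneg _)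
            linarith [hv.2]
    refine h1.trans ?_
    have h3 : (volume (Icc (0:ℝ) h)).toReal = h := by simp [hh.le]
    rw [h3]
    have h4 : C * Real.exp (c₂ * ((n + 1) * h)) * h = h * C * Real.exp (c₂ * h) * Real.exp (c₂ * h) ^ n := by
      rw [← Real.exp_nat_mul]
      have : Real.exp (c₂ * ((n + 1) * h)) = Real.exp (c₂ * h) * Real.exp (n * (c₂ * h)) := by
        rw [← Real.exp_add]; congr 1; ring
      rw [this]; ring
    rw [h4]
    exact mul_le_mul_of_nonneg_right (le_max_left _ _) (by positivity)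
  have hrec : ∀ n, 1 ≤ n → ∃ c : Fin (r + 1) → ℂ, ∑ i, ‖c i‖ = 1 ∧ ∀ b ∈ BB, ∀ m : ℕ, n ≤ m → m ≤ n + r →
      ‖∑ i, c i * b (m + i)‖ ≤ C0 * Real.exp (β * h) ^ n := by
    intro n hn
    have hn' : (1 : ℝ) ≤ n := by exact_mod_cast hn
    have htn0 : 0 ≤ ((n : ℝ) - 1) * h := mul_nonneg (by linarith) hh.le
    obtain ⟨c, hc1, hc2⟩ := step hfm hf hh hra hra' htn0 (H _ htn0)
    refine ⟨c, hc1, ?_⟩
    rintro b ⟨φ, hφ, hφ1, hbφ⟩ m hm1 hm2
    obtain ⟨k, rfl⟩ := Nat.exists_eq_add_of_le hm1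
    have hk : k ≤ r := by omega
    have h1 := hc2 k hk
    have e1 : ∀ i : Fin (r + 1), ∀ v : ℝ, ((n : ℝ) - 1) * h + h + k * h + (i : ℕ) * h + v =
        ((n + k + (i : ℕ) : ℕ) : ℝ) * h + v := by
      intro i v; push_cast; ring
    simp only [e1] at h1
    have hII : ∀ i : Fin (r + 1), IntegrableOn (fun v => c i * (f (((n + k + (i : ℕ) : ℕ) : ℝ) * h + v) * φ v)) (Icc 0 h) :=
      fun i => (hfφ _ (by positivity) φ hφ hφ1).const_mul _
    have e2 : ∑ i, c i * b (n + k + i) = ∫ v in Icc 0 h, (∑ i, c i * f (((n + k + (i : ℕ) : ℕ) : ℝ) * h + v)) * φ v := by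
      calc ∑ i, c i * b (n + k + i) = ∑ i : Fin (r + 1), ∫ v in Icc 0 h, c i * (f (((n + k + (i : ℕ) : ℕ) : ℝ) * h + v) * φ v) := by
            refine Finset.sum_congr rfl fun i _ => ?_
            rw [hbφ, integral_const_mul]
        _ = ∫ v in Icc 0 h, ∑ i : Fin (r + 1), c i * (f (((n + k + (i : ℕ) : ℕ) : ℝ) * h + v) * φ v) :=
            (integral_finsetSum _ fun i _ => hII i).symm
        _ = _ := by
            refine integral_congr_ae (Eventually.of_forall fun v => ?_)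
            simp only
            rw [Finset.sum_mul]
            exact Finset.sum_congr rfl fun i _ => by ring
    rw [e2]
    have h5 : IntegrableOn (fun v => ‖∑ i, c i * f (((n + k + (i : ℕ) : ℕ) : ℝ) * h + v)‖) (Icc 0 h) :=
      (integrable_finsetSum _ fun i _ => (hfi _ (by positivity)).const_mul _).norm
    calc ‖∫ v in Icc 0 h, (∑ i, c i * f (((n + k + (i : ℕ) : ℕ) : ℝ) * h + v)) * φ v‖
        ≤ ∫ v in Icc 0 h, ‖(∑ i, c i * f (((n + k + (i : ℕ) : ℕ) : ℝ) * h + v)) * φ v‖ := norm_integral_le_integral_norm _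
      _ ≤ ∫ v in Icc 0 h, ‖∑ i, c i * f (((n + k + (i : ℕ) : ℕ) : ℝ) * h + v)‖ := by
          refine integral_mono_of_nonneg (Eventually.of_forall fun v => norm_nonneg _) h5 (Eventually.of_forall fun v => ?_)
          simp only [norm_mul]
          exact mul_le_of_le_one_right (norm_nonneg _) (hφ1 v)
      _ ≤ Kc * Real.exp (β * (((n : ℝ) - 1) * h)) / h := h1
      _ = Kc * (Real.exp (-(β * h)) / h) * Real.exp (β * h) ^ n := by
          rw [← Real.exp_nat_mul, mul_assoc, div_mul_eq_mul_div, ← Real.exp_add, mul_div_assoc]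
          congr 3; ring
      _ ≤ _ := mul_le_mul_of_nonneg_right (le_max_right _ _) (by positivity)
  obtain ⟨q, hq, hM⟩ := hrig BB hb hrec
  refine ⟨q, hq, fun m => ?_⟩
  set g : ℝ → ℂ := fun v => ∑ i, q i * f ((m + (i : ℕ)) * h + v) with hg
  have hgm : Measurable g := by
    refine Finset.measurable_fun_sum _ fun i _ => ?_
    exact (hfm.comp (measurable_const_add _)).const_mul _
  set φ : ℝ → ℂ := fun v => (starRingEnd ℂ) (g v) / ((‖g v‖ : ℝ) : ℂ) with hφ
  have hφm : Measurable φ := by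
    refine Measurable.div ?_ ?_
    · exact Complex.continuous_conj.measurable.comp hgm
    · exact Complex.measurable_ofReal.comp hgm.norm
  have hφ1 : ∀ v, ‖φ v‖ ≤ 1 := by
    intro v
    simp only [hφ, norm_div, RCLike.norm_conj, Complex.norm_real, norm_norm]
    exact div_self_le_one _
  have hgφ : ∀ v, g v * φ v = ((‖g v‖ : ℝ) : ℂ) := by
    intro v
    simp only [hφ]
    rcases eq_or_ne (g v) 0 with h0 | h0
    · simp [h0]
    · have h1 : ((‖g v‖ : ℝ) : ℂ) ≠ 0 := by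
        rw [Ne, Complex.ofReal_eq_zero, norm_eq_zero]; exact h0
      rw [mul_div_assoc', Complex.mul_conj, Complex.normSq_eq_norm_sq, div_eq_iff h1]
      push_cast; ring
  have hmem : (fun n : ℕ => ∫ v in Icc 0 h, f (n * h + v) * φ v) ∈ BB := ⟨φ, hφm, hφ1, fun n => rfl⟩
  have h6 := hM _ hmem m
  have e3 : ∑ i : Fin (r + 1), q i * ∫ v in Icc 0 h, f (((m + (i : ℕ) : ℕ) : ℝ) * h + v) * φ v = ∫ v in Icc 0 h, ((‖g v‖ : ℝ) : ℂ) := by
    calc ∑ i : Fin (r + 1), q i * ∫ v in Icc 0 h, f (((m + (i : ℕ) : ℕ) : ℝ) * h + v) * φ v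
        = ∑ i : Fin (r + 1), ∫ v in Icc 0 h, q i * (f (((m + (i : ℕ) : ℕ) : ℝ) * h + v) * φ v) := by
          refine Finset.sum_congr rfl fun i _ => ?_
          rw [integral_const_mul]
      _ = ∫ v in Icc 0 h, ∑ i : Fin (r + 1), q i * (f (((m + (i : ℕ) : ℕ) : ℝ) * h + v) * φ v) :=
          (integral_finsetSum _ fun i _ => (hfφ _ (by positivity) φ hφm hφ1).const_mul _).symm
      _ = _ := by
          refine integral_congr_ae (Eventually.of_forall fun v => ?_)
          simp only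
          rw [← hgφ, hg]
          simp only
          rw [Finset.sum_mul]
          refine Finset.sum_congr rfl fun i _ => ?_
          push_cast
          ring
  rw [e3, integral_complex_ofReal, Complex.norm_real, Real.norm_of_nonneg (integral_nonneg fun v => norm_nonneg _)] at h6
  rw [← Real.exp_nat_mul] at h6
  have h7 : (m : ℝ) * (β' * h) = β' * h * m := by ring
  rw [h7] at h6
  exact h6


/-- windows to a weighted integral, with a bound -/
theorem win_int_bd {H : ℝ → ℂ} (hHm : Measurable H) {b C c h M β' : ℝ} (hh : 0 < h) (hb : 0 ≤ b) (hC : 0 ≤ C)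
    (hH0 : ∀ u, u < -b → H u = 0) (hHb : ∀ u, ‖H u‖ ≤ C * Real.exp (c * |u|)) (hM : 0 ≤ M)
    (hw : ∀ m : ℕ, ∫ v in Icc 0 h, ‖H (m * h + v)‖ ≤ M * Real.exp (β' * h * m)) {σ : ℝ} (hσ : β' < σ) :
    ∫ u : ℝ, ‖H u‖ * Real.exp (-(σ * u)) ≤ C * Real.exp (|c| * b) * Real.exp (|σ| * b) * b +
      (M * Real.exp (|σ| * h)) * (1 - Real.exp (-((σ - β') * h)))⁻¹ := by
  set g : ℝ → ℝ := fun u => ‖H u‖ * Real.exp (-(σ * u)) with hg
  have hgI : Integrable g := win_int hHm hh hb hC hH0 hHb hM hw hσ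
  have hg0 : ∀ u, 0 ≤ g u := fun u => by simp only [hg]; positivity
  have hsplit : ∫ u, g u = (∫ u in Iio 0, g u) + ∫ u in Ici 0, g u := by
    rw [← integral_add_compl (measurableSet_Iio (a := (0:ℝ))) hgI]
    congr 2
    simp
  have hneg : ∫ u in Iio 0, g u ≤ C * Real.exp (|c| * b) * Real.exp (|σ| * b) * b := by
    have e1 : ∫ u in Iio 0, g u = ∫ u in Ico (-b) 0, g u := by
      refine setIntegral_eq_of_subset_of_forall_diff_eq_zero measurableSet_Iio (fun u hu => hu.2) fun u hu => ?_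
      have h1 : u < -b := by
        by_contra hcon
        push Not at hcon
        exact hu.2 ⟨hcon, hu.1⟩
      simp only [hg]
      rw [hH0 u h1]; simp
    rw [e1]
    have h2 : ‖∫ u in Ico (-b) 0, g u‖ ≤ (C * Real.exp (|c| * b) * Real.exp (|σ| * b)) * volume.real (Ico (-b) 0) := by
      refine norm_setIntegral_le_of_norm_le_const (by simp) fun u hu => ?_
      rw [Real.norm_eq_abs, abs_of_nonneg (hg0 u)]
      have h3 : |u| ≤ b := by rw [abs_le]; exact ⟨hu.1, hu.2.le.trans hb⟩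
      refine mul_le_mul ((hHb u).trans (mul_le_mul_of_nonneg_left (Real.exp_le_exp.2 ?_) hC)) (Real.exp_le_exp.2 ?_)
        (Real.exp_pos _).le (by positivity)
      · calc c * |u| ≤ |c| * |u| := mul_le_mul_of_nonneg_right (le_abs_self _) (abs_nonneg _)
          _ ≤ |c| * b := mul_le_mul_of_nonneg_left h3 (abs_nonneg _)
      · calc -(σ * u) ≤ |σ * u| := neg_le_abs _
          _ = |σ| * |u| := abs_mul _ _
          _ ≤ |σ| * b := mul_le_mul_of_nonneg_left h3 (abs_nonneg _)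
    have h4 : volume.real (Ico (-b) 0) = b := by simp [measureReal_def, hb]
    rw [h4] at h2
    exact (le_abs_self _).trans h2
  have hcov : (⋃ m : ℕ, Ico ((m:ℝ) * h) ((m:ℝ) * h + h)) = Ici 0 := by
    ext u
    simp only [mem_iUnion, mem_Ico, mem_Ici]
    constructor
    · rintro ⟨m, hm, _⟩
      exact le_trans (by positivity) hm
    · intro hu
      refine ⟨⌊u / h⌋₊, ?_, ?_⟩
      · have := Nat.floor_le (div_nonneg hu hh.le)
        rwa [le_div_iff₀ hh] at this
      · have := Nat.lt_floor_add_one (u / h)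
        rw [div_lt_iff₀ hh] at this
        linarith
  have hdisj : Pairwise (Function.onFun Disjoint fun m : ℕ => Ico ((m:ℝ) * h) ((m:ℝ) * h + h)) := by
    intro m n hmn
    rw [Function.onFun, Set.disjoint_left]
    rintro u ⟨h1, h2⟩ ⟨h3, h4⟩
    rcases lt_or_gt_of_ne hmn with h5 | h5
    · have h6 : (m:ℝ) + 1 ≤ n := by exact_mod_cast h5
      have h7 : ((m:ℝ) + 1) * h ≤ n * h := mul_le_mul_of_nonneg_right h6 hh.le
      linarith
    · have h6 : (n:ℝ) + 1 ≤ m := by exact_mod_cast h5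
      have h7 : ((n:ℝ) + 1) * h ≤ m * h := mul_le_mul_of_nonneg_right h6 hh.le
      linarith
  have hwin : ∀ m : ℕ, ∫ u in Ico ((m:ℝ) * h) ((m:ℝ) * h + h), g u ≤
      (M * Real.exp (|σ| * h)) * Real.exp (-((σ - β') * h)) ^ m := by
    intro m
    have e1 : ∫ u in Ico ((m:ℝ) * h) ((m:ℝ) * h + h), g u = ∫ v in Icc 0 h, g (m * h + v) := by
      rw [integral_Ico_eq_integral_Ioo, ← integral_Ioc_eq_integral_Ioo, integral_Icc_eq_integral_Ioc,
        ← intervalIntegral.integral_of_le hh.le, ← intervalIntegral.integral_of_le (by linarith)]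
      have h4 := intervalIntegral.integral_comp_add_left (fun u => g u) ((m:ℝ) * h) (a := 0) (b := h)
      rw [add_zero] at h4
      exact h4.symm
    rw [e1]
    have hHloc : IntegrableOn (fun v => ‖H (m * h + v)‖) (Icc 0 h) := by
      have hcont : ContinuousOn (fun v => C * Real.exp (c * |m * h + v|)) (Icc 0 h) := by fun_prop
      refine (hcont.integrableOn_Icc).mono' (hHm.comp (measurable_const_add _)).norm.aestronglyMeasurable
        (ae_of_all _ fun u => ?_)
      rw [norm_norm]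
      exact hHb _
    have hpt : ∀ v ∈ Icc 0 h, g (m * h + v) ≤ Real.exp (-(σ * (m * h)) + |σ| * h) * ‖H (m * h + v)‖ := by
      intro v hv
      simp only [hg]
      rw [mul_comm]
      refine mul_le_mul_of_nonneg_right (Real.exp_le_exp.2 ?_) (norm_nonneg (H (m * h + v)))
      have h5 : -(σ * v) ≤ |σ| * h := by
        calc -(σ * v) ≤ |σ * v| := neg_le_abs _
          _ = |σ| * v := by rw [abs_mul, abs_of_nonneg hv.1]
          _ ≤ |σ| * h := mul_le_mul_of_nonneg_left hv.2 (abs_nonneg _)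
      linarith
    calc ∫ v in Icc 0 h, g (m * h + v) ≤ ∫ v in Icc 0 h, Real.exp (-(σ * (m * h)) + |σ| * h) * ‖H (m * h + v)‖ := by
          refine integral_mono_of_nonneg (ae_of_all _ fun v => hg0 _) (hHloc.const_mul _) ?_
          exact (ae_restrict_iff' measurableSet_Icc).2 (ae_of_all _ hpt)
      _ = Real.exp (-(σ * (m * h)) + |σ| * h) * ∫ v in Icc 0 h, ‖H (m * h + v)‖ := integral_const_mul _ _
      _ ≤ Real.exp (-(σ * (m * h)) + |σ| * h) * (M * Real.exp (β' * h * m)) :=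
          mul_le_mul_of_nonneg_left (hw m) (Real.exp_pos _).le
      _ = _ := by
          rw [← Real.exp_nat_mul]
          have : Real.exp (-(σ * (m * h)) + |σ| * h) * (M * Real.exp (β' * h * m)) =
              M * (Real.exp (-(σ * (m * h)) + |σ| * h) * Real.exp (β' * h * m)) := by ring
          rw [this, mul_assoc M, ← Real.exp_add, ← Real.exp_add]
          congr 2; ring
  have hq1 : Real.exp (-((σ - β') * h)) < 1 := by
    rw [Real.exp_lt_one_iff]
    have : 0 < (σ - β') * h := mul_pos (by linarith) hh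
    linarith
  have hpos : ∫ u in Ici 0, g u ≤ (M * Real.exp (|σ| * h)) * (1 - Real.exp (-((σ - β') * h)))⁻¹ := by
    have h1 := hasSum_integral_iUnion (μ := volume) (f := g) (s := fun m : ℕ => Ico ((m:ℝ) * h) ((m:ℝ) * h + h))
      (fun m => measurableSet_Ico) hdisj hgI.integrableOn
    rw [hcov] at h1
    have h2 := (hasSum_geometric_of_lt_one (Real.exp_pos _).le hq1).mul_left (M * Real.exp (|σ| * h))
    exact hasSum_le hwin h1 h2
  rw [hsplit]
  exact add_le_add hneg hpos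

end

end Pool.Agent.H480.K
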