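import Pool.Agent.H480.U2
import Pool.Agent.H480.K8

/-!
Uniform transforms and uniform bounds on a line.
-/

open Filter Topology Set MeasureTheory Complex

set_option linter.unusedSectionVars false

namespace Pool.Agent.H480.K

open Pool.Agent.H480.G
open H313.GK
open H313.TK (Ist int_exp_abs)

noncomputable section

/-- uniform version of the theorem on transforms -/
theorem transform_u (r : ℕ) {C c₁ Kc : ℝ} (hC : 0 ≤ C) (hKc : 0 ≤ Kc)
    {a a' β β' h : ℝ} (hh : 0 < h) (hra : (r + 2) * h ≤ a) (hra' : (r + 2) * h ≤ a') (hβ : β < β')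
    {σ₀ c : ℝ} (hσ₀ : β' < σ₀) (hc : σ₀ ≤ c) :
    ∃ K : ℝ, 0 ≤ K ∧ ∀ (f : ℝ → ℂ) (_ : Measurable f) (_ : ∀ u, u < 0 → f u = 0)
    (_ : ∀ u, 0 ≤ u → ‖f u‖ ≤ C * Real.exp (c₁ * u))
    (_ : ∀ t : ℝ, 0 ≤ t → LNear f a a' r (Kc * Real.exp (β * t)) t),
    ∃ q : Fin (r + 1) → ℂ, ∑ i, ‖q i‖ = 1 ∧
      (∀ s : ℂ, β' < s.re → DifferentiableAt ℂ (Lap (Hq f q h)) s) ∧
      (∀ s : ℂ, c₁ < s.re → Lap (Hq f q h) s = Pq q h s * Lap f s) ∧
      ∀ s : ℂ, σ₀ ≤ s.re → s.re ≤ c → ‖Lap (Hq f q h) s‖ ≤ K := by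
  obtain ⟨M, hM0, hM⟩ := all_scales_u r (c₁ := c₁) hC hKc hh hra hra' hβ
  set B : ℝ → ℝ := fun σ => (C * Real.exp (|c₁| * (r * h))) * Real.exp (|(|c₁|)| * (r * h)) * Real.exp (|σ| * (r * h)) * (r * h) +
      (M * Real.exp (|σ| * h)) * (1 - Real.exp (-((σ - β') * h)))⁻¹ with hB
  have hB0 : ∀ σ, β' < σ → 0 ≤ B σ := by
    intro σ hσ
    have h1 : Real.exp (-((σ - β') * h)) < 1 := by
      rw [Real.exp_lt_one_iff]
      have : 0 < (σ - β') * h := mul_pos (by linarith) hh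
      linarith
    have h2 : 0 < 1 - Real.exp (-((σ - β') * h)) := by linarith
    simp only [hB]
    positivity
  refine ⟨B σ₀ + B c, add_nonneg (hB0 _ hσ₀) (hB0 _ (by linarith)), ?_⟩
  intro f hfm hf0 hf H
  obtain ⟨q, hq, hwin⟩ := hM f hfm hf H
  have hHm : Measurable (Hq f q h) := by
    unfold Hq
    refine Finset.measurable_fun_sum _ fun i _ => ?_
    exact (hfm.comp (measurable_add_const _)).const_mul _
  have hfall : ∀ u, ‖f u‖ ≤ C * Real.exp (|c₁| * |u|) := by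
    intro u
    rcases lt_or_ge u 0 with hu | hu
    · rw [hf0 u hu, norm_zero]; positivity
    · refine (hf u hu).trans (mul_le_mul_of_nonneg_left (Real.exp_le_exp.2 ?_) hC)
      rw [abs_of_nonneg hu]
      exact mul_le_mul_of_nonneg_right (le_abs_self _) hu
  have hHb : ∀ u, ‖Hq f q h u‖ ≤ (C * Real.exp (|c₁| * (r * h))) * Real.exp (|c₁| * |u|) := by
    intro u
    unfold Hq
    refine (norm_sum_le _ _).trans ?_
    calc ∑ i : Fin (r + 1), ‖q i * f (u + (i : ℕ) * h)‖ ≤ ∑ i : Fin (r + 1), ‖q i‖ * ((C * Real.exp (|c₁| * (r * h))) * Real.exp (|c₁| * |u|)) := by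
          refine Finset.sum_le_sum fun i _ => ?_
          rw [norm_mul]
          refine mul_le_mul_of_nonneg_left ((hfall _).trans ?_) (norm_nonneg _)
          rw [mul_assoc, ← Real.exp_add]
          refine mul_le_mul_of_nonneg_left (Real.exp_le_exp.2 ?_) hC
          rw [← mul_add]
          refine mul_le_mul_of_nonneg_left ?_ (abs_nonneg _)
          have h1 : ((i : ℕ) : ℝ) ≤ r := by exact_mod_cast Nat.lt_succ_iff.1 i.2
          have h2 : ((i : ℕ) : ℝ) * h ≤ r * h := mul_le_mul_of_nonneg_right h1 hh.le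
          have h3 : 0 ≤ ((i : ℕ) : ℝ) * h := by positivity
          calc |u + (i : ℕ) * h| ≤ |u| + |((i : ℕ) : ℝ) * h| := abs_add_le _ _
            _ = |u| + ((i : ℕ) : ℝ) * h := by rw [abs_of_nonneg h3]
            _ ≤ r * h + |u| := by linarith
      _ = _ := by rw [← Finset.sum_mul, hq, one_mul]
  have hH0 : ∀ u, u < -(r * h) → Hq f q h u = 0 := by
    intro u hu
    unfold Hq
    refine Finset.sum_eq_zero fun i _ => ?_
    have h1 : ((i : ℕ) : ℝ) ≤ r := by exact_mod_cast Nat.lt_succ_iff.1 i.2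
    have h2 : ((i : ℕ) : ℝ) * h ≤ r * h := mul_le_mul_of_nonneg_right h1 hh.le
    rw [hf0 _ (by linarith), mul_zero]
  have hw : ∀ m : ℕ, ∫ v in Icc 0 h, ‖Hq f q h (m * h + v)‖ ≤ M * Real.exp (β' * h * m) := by
    intro m
    refine le_trans (le_of_eq ?_) (hwin m)
    refine integral_congr_ae (ae_of_all _ fun v => ?_)
    simp only [Hq]
    congr 1
    refine Finset.sum_congr rfl fun i _ => ?_
    congr 2
    ring
  have hHint : ∀ σ : ℝ, β' < σ → Integrable fun u : ℝ => ‖Hq f q h u‖ * Real.exp (-(σ * u)) := fun σ hσ =>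
    win_int (b := r * h) (C := C * Real.exp (|c₁| * (r * h))) (c := |c₁|) (h := h) (M := M) (β' := β') hHm hh
      (by positivity) (by positivity) hH0 hHb hM0 hw hσ
  have hHbd : ∀ σ : ℝ, β' < σ → ∫ u : ℝ, ‖Hq f q h u‖ * Real.exp (-(σ * u)) ≤ B σ := fun σ hσ =>
    win_int_bd (b := r * h) (C := C * Real.exp (|c₁| * (r * h))) (c := |c₁|) (h := h) (M := M) (β' := β') hHm hh
      (by positivity) (by positivity) hH0 hHb hM0 hw hσ
  refine ⟨q, hq, fun s hs => lap_diff hHm hHint hs, fun s hs => lap_Hq hfm q h (f_int hfm hf0 hC hf hs),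
    fun s h1 h2 => ?_⟩
  have hc' : β' < c := by linarith
  have h3 : ‖Lap (Hq f q h) s‖ ≤ ∫ u : ℝ, (‖Hq f q h u‖ * Real.exp (-(σ₀ * u)) + ‖Hq f q h u‖ * Real.exp (-(c * u))) := by
    refine norm_integral_le_of_norm_le ((hHint _ hσ₀).add (hHint _ hc')) (ae_of_all _ fun u => ?_)
    rw [lap_norm, ← mul_add]
    refine mul_le_mul_of_nonneg_left ?_ (norm_nonneg _)
    rcases le_total 0 u with hu | hu
    · have : Real.exp (-(s.re * u)) ≤ Real.exp (-(σ₀ * u)) := Real.exp_le_exp.2 (by nlinarith)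
      linarith [Real.exp_pos (-(c * u))]
    · have : Real.exp (-(s.re * u)) ≤ Real.exp (-(c * u)) := Real.exp_le_exp.2 (by nlinarith)
      linarith [Real.exp_pos (-(σ₀ * u))]
  rw [integral_add (hHint _ hσ₀) (hHint _ hc')] at h3
  exact h3.trans (add_le_add (hHbd _ hσ₀) (hHbd _ hc'))

/-- a good line out of a finite set, uniformly in the exponential polynomial -/
theorem good_line_u (r : ℕ) {h : ℝ} (hh : 0 < h) {x y : ℝ} (hxy : x < y) :
    ∃ S : Finset ℝ, (∀ σ ∈ S, x < σ ∧ σ < y) ∧ ∃ c : ℝ, 0 < c ∧ ∀ q : Fin (r + 1) → ℂ, ∑ i, ‖q i‖ = 1 →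
      ∃ σ ∈ S, ∀ s : ℂ, s.re = σ → c ≤ ‖Pq q h s‖ := by
  classical
  have hcomp : IsCompact {v : Fin (r + 1) → ℂ | ∑ i, ‖v i‖ = 1} := by
    refine Metric.isCompact_of_isClosed_isBounded ?_ ?_
    · exact isClosed_eq (by fun_prop) continuous_const
    · refine (Metric.isBounded_closedBall (x := (0 : Fin (r + 1) → ℂ)) (r := 1)).subset fun v hv => ?_
      rw [mem_closedBall_zero_iff, pi_norm_le_iff_of_nonneg zero_le_one]
      intro i
      have hv' : ∑ i, ‖v i‖ = 1 := hv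
      rw [← hv']
      exact Finset.single_le_sum (f := fun i => ‖v i‖) (fun _ _ => norm_nonneg _) (Finset.mem_univ i)
  have key : ∀ q : Fin (r + 1) → ℂ, ∃ σ c : ℝ, ∑ i, ‖q i‖ = 1 → x < σ ∧ σ < y ∧ 0 < c ∧
      ∀ s : ℂ, s.re = σ → c ≤ ‖Pq q h s‖ := by
    intro q
    by_cases hq : ∑ i, ‖q i‖ = 1
    · obtain ⟨σ, hσ, c, hc, hlow⟩ := good_line hq hh hxy
      exact ⟨σ, c, fun _ => ⟨hσ.1, hσ.2, hc, hlow⟩⟩
    · exact ⟨0, 0, fun h => absurd h hq⟩
  choose σ c hσc using key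
  set U : (Fin (r + 1) → ℂ) → Set (Fin (r + 1) → ℂ) := fun q => {q' | ∀ s : ℂ, s.re = σ q → c q / 2 ≤ ‖Pq q' h s‖} with hU
  have hUn : ∀ q ∈ {v : Fin (r + 1) → ℂ | ∑ i, ‖v i‖ = 1}, U q ∈ 𝓝 q := by
    intro q hq
    obtain ⟨h1, h2, h3, h4⟩ := hσc q hq
    set L : ℝ := (r + 1) * Real.exp (|σ q| * (r * h)) with hL
    have hL0 : 0 < L := by positivity
    refine mem_of_superset (Metric.ball_mem_nhds q (ε := c q / 2 / L) (by positivity)) fun q' hq' s hs => ?_
    rw [Metric.mem_ball, dist_eq_norm] at hq'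
    have h5 : ‖Pq q' h s - Pq q h s‖ ≤ L * ‖q' - q‖ := by
      unfold Pq
      rw [← Finset.sum_sub_distrib]
      refine (norm_sum_le _ _).trans ?_
      calc ∑ i : Fin (r + 1), ‖q' i * cexp (s * (((i : ℕ) * h : ℝ) : ℂ)) - q i * cexp (s * (((i : ℕ) * h : ℝ) : ℂ))‖
          ≤ ∑ _i : Fin (r + 1), ‖q' - q‖ * Real.exp (|σ q| * (r * h)) := by
            refine Finset.sum_le_sum fun i _ => ?_
            rw [← sub_mul, norm_mul, Complex.norm_exp]
            refine mul_le_mul (norm_le_pi_norm (q' - q) i) (Real.exp_le_exp.2 ?_) (Real.exp_pos _).le (norm_nonneg _)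
            rw [Complex.re_mul_ofReal, hs]
            have h1 : ((i : ℕ) : ℝ) ≤ r := by exact_mod_cast Nat.lt_succ_iff.1 i.2
            have h2 : ((i : ℕ) : ℝ) * h ≤ r * h := mul_le_mul_of_nonneg_right h1 hh.le
            have h3 : 0 ≤ ((i : ℕ) : ℝ) * h := by positivity
            calc σ q * (((i : ℕ) : ℝ) * h) ≤ |σ q| * (((i : ℕ) : ℝ) * h) :=
                  mul_le_mul_of_nonneg_right (le_abs_self _) h3
              _ ≤ _ := mul_le_mul_of_nonneg_left h2 (abs_nonneg _)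
        _ = L * ‖q' - q‖ := by
            rw [Finset.sum_const, Finset.card_univ, Fintype.card_fin, nsmul_eq_mul, hL]
            push_cast
            ring
    have h6 : L * ‖q' - q‖ ≤ c q / 2 := by
      have h7 := mul_le_mul_of_nonneg_left hq'.le hL0.le
      have h8 : L * (c q / 2 / L) = c q / 2 := by field_simp
      linarith
    have h7 := h4 s hs
    have h8 := norm_sub_norm_le (Pq q h s) (Pq q' h s)
    rw [norm_sub_rev] at h8
    linarith
  obtain ⟨T, hT, hcov⟩ := hcomp.elim_nhds_subcover U hUn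
  have hmin : ∃ d : ℝ, 0 < d ∧ ∀ q ∈ T, d ≤ c q / 2 := by
    have gen : ∀ T' : Finset (Fin (r + 1) → ℂ), (∀ q ∈ T', 0 < c q / 2) → ∃ d : ℝ, 0 < d ∧ ∀ q ∈ T', d ≤ c q / 2 := by
      intro T'
      induction T' using Finset.induction_on with
      | empty => intro _; exact ⟨1, one_pos, by simp⟩
      | insert q T' _ ih =>
        intro h'
        obtain ⟨d, hd, hd2⟩ := ih fun q hq => h' q (Finset.mem_insert_of_mem hq)
        refine ⟨min d (c q / 2), lt_min hd (h' q (Finset.mem_insert_self _ _)), fun q' hq' => ?_⟩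
        rcases Finset.mem_insert.1 hq' with rfl | h1
        · exact min_le_right _ _
        · exact (min_le_left _ _).trans (hd2 q' h1)
    exact gen T fun q hq => by
      have := (hσc q (hT q hq)).2.2.1
      positivity
  obtain ⟨d, hd, hd2⟩ := hmin
  refine ⟨T.image σ, fun s hs => ?_, d, hd, fun q hq => ?_⟩
  · obtain ⟨q, hq, rfl⟩ := Finset.mem_image.1 hs
    exact ⟨(hσc q (hT q hq)).1, (hσc q (hT q hq)).2.1⟩
  · have h1 := hcov hq
    simp only [mem_iUnion] at h1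
    obtain ⟨q', hq', h2⟩ := h1
    exact ⟨σ q', Finset.mem_image_of_mem _ hq', fun s hs => (hd2 q' hq').trans (h2 s hs)⟩

/-- on `[1, A] × [1, A']` the function `S (X x y)` is within `ε` in the mean of a sum of `r` products -/
def Sep (S : ℝ → ℂ) (A A' : ℝ) (r : ℕ) (ε X : ℝ) : Prop :=
  ∃ u v : Fin r → ℝ → ℂ, (∀ i, IntegrableOn (u i) (Icc 1 A)) ∧ (∀ i, IntegrableOn (v i) (Icc 1 A')) ∧
    ∫ z in Icc 1 A ×ˢ Icc 1 A', ‖S (X * z.1 * z.2) - ∑ i, u i z.1 * v i z.2‖ ≤ ε

theorem sep_log {S : ℝ → ℂ} (hSm : Measurable S) {C c₁ : ℝ} (hS : ∀ u, 0 ≤ u → ‖S (Real.exp u)‖ ≤ C * Real.exp (c₁ * u))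
    {A A' : ℝ} (hA : 1 ≤ A) (hA' : 1 ≤ A') {r : ℕ} {ε t : ℝ} (ht : 0 ≤ t) (h : Sep S A A' r ε (Real.exp t)) :
    LNear (fun u => S (Real.exp u)) (Real.log A) (Real.log A') r ε t := by
  obtain ⟨u, v, hu, hv, hle⟩ := h
  have hA0 : 0 < A := by linarith
  have hA0' : 0 < A' := by linarith
  set X : ℝ := Real.exp t with hX
  have hX1 : 1 ≤ X := Real.one_le_exp ht
  have hX0 : 0 < X := Real.exp_pos t
  set B : ℝ := |C| * Real.exp (|c₁| * (t + Real.log A + Real.log A')) with hB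
  have hSB : ∀ x ∈ Icc 1 A, ∀ y ∈ Icc 1 A', ‖S (X * x * y)‖ ≤ B := by
    intro x hx y hy
    have hx0 : 0 < x := lt_of_lt_of_le one_pos hx.1
    have hy0 : 0 < y := lt_of_lt_of_le one_pos hy.1
    have e1 : X * x * y = Real.exp (t + Real.log x + Real.log y) := by
      rw [Real.exp_add, Real.exp_add, Real.exp_log hx0, Real.exp_log hy0]
    have h1 := Real.log_nonneg hx.1
    have h2 := Real.log_nonneg hy.1
    have h3 := Real.log_le_log hx0 hx.2
    have h4 := Real.log_le_log hy0 hy.2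
    rw [e1]
    refine (hS _ (by linarith)).trans ?_
    refine mul_le_mul (le_abs_self _) (Real.exp_le_exp.2 ?_) (Real.exp_pos _).le (abs_nonneg _)
    calc c₁ * (t + Real.log x + Real.log y) ≤ |c₁| * (t + Real.log x + Real.log y) :=
          mul_le_mul_of_nonneg_right (le_abs_self _) (by linarith)
      _ ≤ _ := mul_le_mul_of_nonneg_left (by linarith) (abs_nonneg _)
  set κ : ℝ × ℝ → ℝ := fun z => ‖S (X * z.1 * z.2) - ∑ i, u i z.1 * v i z.2‖ with hκ
  have hint : Integrable κ ((volume.restrict (Icc 1 A)).prod (volume.restrict (Icc 1 A'))) := by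
    refine Integrable.norm (Integrable.sub ?_ (integrable_finsetSum _ fun i _ => (hu i).mul_prod (hv i)))
    rw [Measure.prod_restrict]
    refine Measure.integrableOn_of_bounded (M := B) ?_ ?_ ?_
    · rw [Measure.prod_prod]
      simp
      exact ENNReal.mul_ne_top ENNReal.ofReal_ne_top ENNReal.ofReal_ne_top
    · exact (hSm.comp (by fun_prop)).aestronglyMeasurable
    · refine (ae_restrict_iff' (measurableSet_Icc.prod measurableSet_Icc)).2 (ae_of_all _ fun z hz => ?_)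
      exact hSB _ hz.1 _ hz.2
  have hyint : ∀ x ∈ Icc 1 A, IntegrableOn (fun y => κ (x, y)) (Icc 1 A') := by
    intro x hx
    have hI2 : IntegrableOn (fun y => ∑ i, u i x * v i y) (Icc 1 A') :=
      integrable_finsetSum _ fun i _ => (hv i).const_mul _
    refine Integrable.norm (Integrable.sub ?_ hI2)
    refine Measure.integrableOn_of_bounded (M := B) (by simp) ?_ ?_
    · exact (hSm.comp (by fun_prop)).aestronglyMeasurable
    · exact (ae_restrict_iff' measurableSet_Icc).2 (ae_of_all _ fun y hy => hSB _ hx _ hy)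
  have hΦint : IntegrableOn (fun x => ∫ y in Icc 1 A', κ (x, y)) (Icc 1 A) := hint.integral_prod_left
  have hfub : ∫ x in Icc 1 A, ∫ y in Icc 1 A', κ (x, y) ≤ ε := by
    refine le_trans (le_of_eq ?_) hle
    rw [Measure.volume_eq_prod, ← Measure.prod_restrict, integral_prod _ hint]
  refine ⟨fun j x => u j (Real.exp x), fun j y => v j (Real.exp y), fun x => ∫ y in Icc 1 A', κ (Real.exp x, y),
    fun j => cv_int hA' (hv j), cv_int hA hΦint, ?_, fun x hx => ?_⟩
  · exact (cv_le hA hΦint fun x _ => integral_nonneg fun y => norm_nonneg _).trans hfub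
  · have hmem : Real.exp x ∈ Icc 1 A := by
      rw [← exp_image hA]; exact mem_image_of_mem _ hx
    have h5 := cv_le hA' (hyint _ hmem) fun y _ => norm_nonneg _
    refine le_trans (le_of_eq ?_) h5
    refine integral_congr_ae (ae_of_all _ fun w => ?_)
    simp only [hκ]
    rw [Real.exp_add, Real.exp_add]

theorem LNear_scale {f : ℝ → ℂ} {a a' : ℝ} {r : ℕ} {ε t E : ℝ} (hE : 0 < E) (h : LNear f a a' r ε t) :
    LNear (fun u => f u / (E : ℂ)) a a' r (ε / E) t := by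
  obtain ⟨U, V, Φ, hV, hΦ, hle, hb⟩ := h
  refine ⟨fun j x => U j x / (E : ℂ), V, fun x => Φ x / E, hV, hΦ.div_const _, ?_, fun x hx => ?_⟩
  · rw [integral_div]
    exact div_le_div_of_nonneg_right hle hE.le
  · have h1 := div_le_div_of_nonneg_right (hb x hx) hE.le
    refine le_trans (le_of_eq ?_) h1
    rw [← integral_div]
    refine integral_congr_ae (ae_of_all _ fun w => ?_)
    simp only
    have e1 : f (t + x + w) / (E : ℂ) - ∑ j, U j x / (E : ℂ) * V j w = (f (t + x + w) - ∑ j, U j x * V j w) / (E : ℂ) := by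
      rw [sub_div, Finset.sum_div]
      congr 1
      exact Finset.sum_congr rfl fun j _ => by ring
    rw [e1, norm_div, Complex.norm_real, Real.norm_eq_abs, abs_of_pos hE]

/-- **uniform bound on one of finitely many lines** -/
theorem line_bound_u (r : ℕ) {b Kc : ℝ} (hb : 0 ≤ b) (hKc : 0 ≤ Kc) {A A' : ℝ} (hA : 1 < A) (hA' : 1 < A')
    {β β' x y : ℝ} (h1 : β < β') (h2 : β' < x) (h3 : x < y) :
    ∃ S : Finset ℝ, (∀ σ ∈ S, x < σ ∧ σ < y) ∧ ∃ K : ℝ, 0 ≤ K ∧ ∀ (g : ℕ → ℂ) (E : ℝ) (Φ : ℂ → ℂ) (c₀ : ℝ), 1 ≤ E →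
      (∀ n : ℕ, n ≠ 0 → ‖g n‖ ≤ (n : ℝ) ^ b) → (∀ X : ℝ, 1 ≤ X → Sep (SM g) A A' r (Kc * E * X ^ β) X) →
      (∀ s : ℂ, β' < s.re → DifferentiableAt ℂ Φ s) → (∀ s : ℂ, c₀ ≤ s.re → LSeries g s / s = Φ s) →
      ∃ σ ∈ S, ∀ s : ℂ, s.re = σ → ‖Φ s‖ ≤ K * E := by
  have hlA := Real.log_pos hA
  have hlA' := Real.log_pos hA'
  set h : ℝ := min (Real.log A) (Real.log A') / (r + 2) with hh
  have hh0 : 0 < h := by
    rw [hh]
    exact div_pos (lt_min hlA hlA') (by positivity)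
  have hrh : (r + 2) * h = min (Real.log A) (Real.log A') := by
    rw [hh]; field_simp
  obtain ⟨K, hK, hKb⟩ := transform_u r (C := 1) (c₁ := b + 1) (Kc := Kc) zero_le_one hKc hh0
    (hrh.le.trans (min_le_left _ _)) (hrh.le.trans (min_le_right _ _)) h1 h2 h3.le
  obtain ⟨S, hS, c, hc, hlow⟩ := good_line_u r hh0 h3
  refine ⟨S, hS, K / c, by positivity, ?_⟩
  intro g E Φ c₀ hE hg H hΦ hrel
  have hE0 : 0 < E := by linarith
  have hEc : (E : ℂ) ≠ 0 := by exact_mod_cast hE0.ne'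
  set f : ℝ → ℂ := fun u => SM g (Real.exp u) / (E : ℂ) with hf
  have hfm : Measurable f := ((SM_meas g).comp Real.measurable_exp).div_const _
  have hSb : ∀ u : ℝ, 0 ≤ u → ‖SM g (Real.exp u)‖ ≤ 1 * Real.exp ((b + 1) * u) := fun u _ => SM_bd hb hg u
  have hfb : ∀ u : ℝ, 0 ≤ u → ‖f u‖ ≤ 1 * Real.exp ((b + 1) * u) := by
    intro u hu
    simp only [hf]
    rw [norm_div, Complex.norm_real, Real.norm_eq_abs, abs_of_pos hE0]
    exact (div_le_self (norm_nonneg _) hE).trans (hSb u hu)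
  have hf0 : ∀ u : ℝ, u < 0 → f u = 0 := by
    intro u hu
    simp only [hf]
    rw [SM_zero g hu, zero_div]
  have hL : ∀ t : ℝ, 0 ≤ t → LNear f (Real.log A) (Real.log A') r (Kc * Real.exp (β * t)) t := by
    intro t ht
    have h4 := LNear_scale hE0 (sep_log (SM_meas g) hSb hA.le hA'.le ht (H _ (Real.one_le_exp ht)))
    have h5 : Kc * E * Real.exp t ^ β / E = Kc * Real.exp (β * t) := by
      rw [← Real.exp_mul, mul_comm t β]
      field_simp
    rw [h5] at h4
    exact h4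
  obtain ⟨q, hq, hdiff, hform, hbdd⟩ := hKb f hfm hf0 hfb hL
  set G : ℂ → ℂ := Lap (Hq f q h) with hG
  have hid : ∀ s : ℂ, β' < s.re → G s = Pq q h s * (Φ s / (E : ℂ)) := by
    set U : Set ℂ := {s : ℂ | β' < s.re} with hU
    have hUo : IsOpen U := isOpen_lt continuous_const Complex.continuous_re
    have hUc : IsPreconnected U := (convex_halfSpace_re_gt β').isPreconnected
    have hL1 : AnalyticOnNhd ℂ G U :=
      (DifferentiableOn.analyticOnNhd (fun s hs => (hdiff s hs).differentiableWithinAt) hUo)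
    have hR1 : AnalyticOnNhd ℂ (fun s => Pq q h s * (Φ s / (E : ℂ))) U :=
      (DifferentiableOn.analyticOnNhd (fun s hs => ((Pq_diff q h s).mul ((hΦ s hs).div_const _)).differentiableWithinAt) hUo)
    set x₀ : ℝ := max (max (b + 1) c₀) β' + 1 with hx₀
    have hx1 : b + 1 ≤ max (max (b + 1) c₀) β' := (le_max_left _ _).trans (le_max_left _ _)
    have hx2 : c₀ ≤ max (max (b + 1) c₀) β' := (le_max_right _ _).trans (le_max_left _ _)
    have hx3 : β' ≤ max (max (b + 1) c₀) β' := le_max_right _ _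
    have hmem : ((x₀ : ℝ) : ℂ) ∈ U := by
      show β' < ((x₀ : ℝ) : ℂ).re
      rw [Complex.ofReal_re]; linarith
    have hev : G =ᶠ[𝓝 ((x₀ : ℝ) : ℂ)] fun s => Pq q h s * (Φ s / (E : ℂ)) := by
      have ho : IsOpen {s : ℂ | max (max (b + 1) c₀) β' < s.re} := isOpen_lt continuous_const Complex.continuous_re
      filter_upwards [ho.mem_nhds (show max (max (b + 1) c₀) β' < ((x₀ : ℝ) : ℂ).re by rw [Complex.ofReal_re]; linarith)] with s hs
      have hs' : max (max (b + 1) c₀) β' < s.re := hs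
      have e1 := hform s (by linarith)
      have e2 : ∫ u : ℝ, SM g (Real.exp u) * cexp (-s * u) = LSeries g s / s := trans_F hb hg (s := s) (by linarith)
      have e3 := hrel s (by linarith)
      have e4 : Lap f s = (LSeries g s / s) / (E : ℂ) := by
        rw [← e2]
        unfold Lap
        rw [← integral_div]
        refine integral_congr_ae (ae_of_all _ fun u => ?_)
        simp only [hf]
        ring
      rw [e1, e4, e3]
    intro s hs
    exact hL1.eqOn_of_preconnected_of_eventuallyEq hR1 hUc hmem hev hs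
  obtain ⟨σ, hσ, hlow'⟩ := hlow q hq
  have hσ' := hS σ hσ
  refine ⟨σ, hσ, fun s hs => ?_⟩
  have e1 := hid s (by rw [hs]; linarith)
  have e2 := congrArg norm e1
  rw [norm_mul, norm_div, Complex.norm_real, Real.norm_eq_abs, abs_of_pos hE0] at e2
  have e3 := hlow' s hs
  have e4 := hbdd s (by rw [hs]; exact hσ'.1.le) (by rw [hs]; exact hσ'.2.le)
  have e5 : c * (‖Φ s‖ / E) ≤ K := by
    calc c * (‖Φ s‖ / E) ≤ ‖Pq q h s‖ * (‖Φ s‖ / E) := mul_le_mul_of_nonneg_right e3 (by positivity)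
      _ = ‖G s‖ := e2.symm
      _ ≤ K := e4
  rw [mul_div_assoc', div_le_iff₀ hE0] at e5
  rw [div_mul_eq_mul_div, le_div_iff₀ hc]
  linarith

end

end Pool.Agent.H480.K
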