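import Pool.Agent.H480.U3
import Pool.Agent.H480.G12

/-!
The mean bound with a uniform constant.
-/

open Complex MeasureTheory Filter Topology Set
open scoped FourierTransform

set_option linter.unusedSectionVars false

namespace Pool.Agent.H480.G

open H313.GK
open H313.TK (Ist int_exp_abs)

noncomputable section

/-- **mean bound from the transform to the left** -/
theorem l2_bound_u {σ c D : ℝ} (hσ : 0 < σ) (hσc : σ ≤ c) (hD : 0 ≤ D) :
    ∃ C : ℝ, 0 ≤ C ∧ ∀ (c₁ C1 : ℝ) (H : ℝ → ℂ) (G : ℂ → ℂ), c₁ < c → Measurable H → (∀ u < 0, H u = 0) →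
    0 ≤ C1 → (∀ u, ‖H u‖ ≤ C1 * Real.exp (c₁ * u)) → (∀ᵐ t : ℝ, ContinuousAt H t) →
    (∀ s : ℂ, σ ≤ s.re → s.re ≤ c → DifferentiableAt ℂ G s) →
    (∀ s : ℂ, σ ≤ s.re → s.re ≤ c → ‖G s‖ ≤ D * (1 + |s.im|) ^ (-(3 / 4) : ℝ)) →
    (∀ τ : ℝ, ∫ u : ℝ, H u * cexp (-vl c τ * u) = G (vl c τ)) →
    ∀ l L : ℝ, 0 ≤ L → ∫ u in Icc l (l + L), ‖H u‖ ≤ Real.exp (σ * (l + L)) * (C + L) := by
  have hpi := Real.pi_pos
  have hc0 : 0 < c := by linarith
  -- the constant
  have hGi : Integrable (fun τ : ℝ => D ^ 2 * (1 + ‖τ‖) ^ (-(3 / 2) : ℝ)) :=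
    (integrable_one_add_norm (E := ℝ) (μ := volume) (r := 3 / 2) (by simp; norm_num)).const_mul _
  set I0 : ℝ := ∫ τ : ℝ, D ^ 2 * (1 + ‖τ‖) ^ (-(3 / 2) : ℝ) with hI0
  have hI0n : 0 ≤ I0 := integral_nonneg fun τ => by positivity
  set C : ℝ := (1 / (2 * Real.pi)) * (Real.exp (c ^ 2) ^ 2 * I0) with hC
  have hCn : 0 ≤ C := by positivity
  refine ⟨C, hCn, ?_⟩
  intro c₁ C1 H G hc1 hHm hH0 hC1 hHb hHc hGd hGb hG
  have hone : ∀ s : ℂ, (1 + |s.im|) ^ (-(3 / 4) : ℝ) ≤ 1 := fun s =>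
    Real.rpow_le_one_of_one_le_of_nonpos (by linarith [abs_nonneg s.im]) (by norm_num)
  have hGD : ∀ s : ℂ, σ ≤ s.re → s.re ≤ c → ‖G s‖ ≤ D := fun s h1 h2 =>
    (hGb s h1 h2).trans (mul_le_of_le_one_right hD (hone s))
  -- smoothed functions
  have hsm : ∀ h : ℝ, 0 < h → h ≤ 1 → Continuous (Hs H h) ∧
      ∀ l L : ℝ, 0 ≤ L → ∫ u in Icc l (l + L), ‖Hs H h u‖ ≤ Real.exp (σ * (l + L)) * (C + L) := by
    intro h hh hh1
    set Ψ : ℂ → ℂ := fun s => KG h s * G s with hΨ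
    set B : ℝ := Real.exp (c ^ 2) * (2 / h ^ 2) * D with hB
    have hΨd : ∀ s : ℂ, σ ≤ s.re → s.re ≤ c → DifferentiableAt ℂ Ψ s := fun s h1 h2 =>
      (KG_diff h s).mul (hGd s h1 h2)
    have hre : ∀ s : ℂ, σ ≤ s.re → s.re ≤ c → |s.re| ≤ c := fun s h1 h2 => by
      rw [abs_of_nonneg (by linarith)]; exact h2
    have hΨb : ∀ s : ℂ, σ ≤ s.re → s.re ≤ c → ‖Ψ s‖ ≤ B * (1 + s.im ^ 2)⁻¹ := by
      intro s h1 h2
      simp only [hΨ]
      rw [norm_mul]
      calc ‖KG h s‖ * ‖G s‖ ≤ (Real.exp (c ^ 2) * (2 / h ^ 2) * (1 + s.im ^ 2)⁻¹) * D :=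
            mul_le_mul (KG_le hh hh1 s (hre s h1 h2)) (hGD s h1 h2) (norm_nonneg _) (by positivity)
        _ = _ := by rw [hB]; ring
    have hSB : SB Ψ σ c := ⟨hΨd, B, by positivity, hΨb⟩
    obtain ⟨B1, hlb⟩ := hSB.lb
    have hLσ := hlb σ le_rfl hσc
    have hLc := hlb c hσc le_rfl
    have heq : ∀ t, Hs H h t = H313.GK.Inv Ψ σ t := fun t => by
      rw [Hs_eq hHm hH0 hC1 hHb hc1 hG hh hh1 t, inv_shift hσc hΨd hΨb t]
    have hfun : Hs H h = H313.GK.Inv Ψ σ := funext heq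
    have hcont : Continuous (Hs H h) := by rw [hfun]; exact hLσ.inv_cont
    refine ⟨hcont, fun l L hL => ?_⟩
    obtain ⟨p1, p2⟩ := plan hLσ
    have hsq : ∫ τ : ℝ, ‖Ψ (vl σ τ)‖ ^ 2 ≤ Real.exp (c ^ 2) ^ 2 * I0 := by
      rw [hI0, ← integral_const_mul]
      refine integral_mono_of_nonneg (ae_of_all _ fun τ => by positivity) (hGi.const_mul _) (ae_of_all _ fun τ => ?_)
      simp only [hΨ]
      rw [norm_mul, mul_pow]
      have h1 := KG_le_one hh hh1 (c := c) (vl σ τ) (hre _ (by simp) (by simpa using hσc))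
      have h2 := hGb (vl σ τ) (by simp) (by simpa using hσc)
      rw [vl_im] at h2
      have h3 : ‖G (vl σ τ)‖ ^ 2 ≤ D ^ 2 * (1 + ‖τ‖) ^ (-(3 / 2) : ℝ) := by
        calc ‖G (vl σ τ)‖ ^ 2 ≤ (D * (1 + |τ|) ^ (-(3 / 4) : ℝ)) ^ 2 := pow_le_pow_left₀ (norm_nonneg _) h2 2
          _ = _ := by
              rw [mul_pow, ← Real.rpow_natCast ((1 + |τ|) ^ (-(3 / 4) : ℝ)), ← Real.rpow_mul (by positivity),
                Real.norm_eq_abs]
              norm_num
      exact mul_le_mul (pow_le_pow_left₀ (norm_nonneg _) h1 2) h3 (by positivity) (by positivity)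
    have htot : ∫ v : ℝ, ‖H313.GK.Inv Ψ σ v‖ ^ 2 * Real.exp (-(2 * σ * v)) ≤ C := by
      rw [p2, hC]
      exact mul_le_mul_of_nonneg_left hsq (by positivity)
    set M : ℝ := Real.exp (σ * (l + L)) with hM
    have hM0 : 0 < M := Real.exp_pos _
    have hpt : ∀ u ∈ Icc l (l + L), ‖Hs H h u‖ ≤ M * (‖H313.GK.Inv Ψ σ u‖ ^ 2 * Real.exp (-(2 * σ * u))) + M := by
      intro u hu
      rw [heq u]
      set x : ℝ := ‖H313.GK.Inv Ψ σ u‖ with hx
      have hx0 : 0 ≤ x := norm_nonneg _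
      have h1 : 1 ≤ M ^ 2 * Real.exp (-(2 * σ * u)) := by
        rw [hM, ← Real.exp_nat_mul, ← Real.exp_add]
        refine Real.one_le_exp ?_
        push_cast
        nlinarith [hu.2]
      have h2 : x ≤ x ^ 2 / M + M := by
        rw [div_add' _ _ _ hM0.ne', le_div_iff₀ hM0]
        nlinarith [sq_nonneg (x - M), mul_nonneg hx0 hM0.le]
      have h3 : x ^ 2 / M ≤ M * (x ^ 2 * Real.exp (-(2 * σ * u))) := by
        rw [div_le_iff₀ hM0]
        have h4 : x ^ 2 * 1 ≤ x ^ 2 * (M ^ 2 * Real.exp (-(2 * σ * u))) := mul_le_mul_of_nonneg_left h1 (by positivity)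
        nlinarith
      linarith
    have hi1 : IntegrableOn (fun u => M * (‖H313.GK.Inv Ψ σ u‖ ^ 2 * Real.exp (-(2 * σ * u))) + M) (Icc l (l + L)) :=
      (p1.const_mul M).integrableOn.add (integrableOn_const (by simp))
    calc ∫ u in Icc l (l + L), ‖Hs H h u‖ ≤ ∫ u in Icc l (l + L), (M * (‖H313.GK.Inv Ψ σ u‖ ^ 2 *
          Real.exp (-(2 * σ * u))) + M) :=
          setIntegral_mono_on hcont.norm.integrableOn_Icc hi1 measurableSet_Icc hpt
      _ = M * (∫ u in Icc l (l + L), ‖H313.GK.Inv Ψ σ u‖ ^ 2 * Real.exp (-(2 * σ * u))) + L * M := by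
          rw [integral_add (p1.const_mul M).integrableOn (integrableOn_const (by simp)), integral_const_mul,
            setIntegral_const]
          simp only [measureReal_def, Real.volume_Icc, smul_eq_mul]
          rw [ENNReal.toReal_ofReal (by linarith)]
          congr 2
          ring
      _ ≤ M * C + L * M := by
          refine add_le_add (mul_le_mul_of_nonneg_left ?_ hM0.le) le_rfl
          refine le_trans (setIntegral_le_integral p1 (ae_of_all _ fun v => ?_)) htot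
          show (0:ℝ) ≤ _
          positivity
      _ = _ := by ring
  intro l L hL
  -- the limit
  set hn : ℕ → ℝ := fun n => 1 / ((n : ℝ) + 1) with hhn
  have hn0 : ∀ n, 0 < hn n := fun n => by simp only [hhn]; positivity
  have hn1 : ∀ n, hn n ≤ 1 := fun n => by
    simp only [hhn]
    rw [div_le_one (by positivity)]
    linarith [(Nat.cast_nonneg n : (0:ℝ) ≤ n)]
  have hnt : Tendsto hn atTop (𝓝 0) := tendsto_one_div_add_atTop_nhds_zero_nat
  have hdomint := gau_dom |c₁|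
  have hbH : ∀ (h t w : ℝ), 0 < h → h ≤ 1 → ‖H (t - h * w) * ((gau w : ℝ) : ℂ)‖ ≤
      C1 * Real.exp (|c₁| * |t|) * (Real.exp (|c₁| * |w|) * gau w) := by
    intro h t w hh hh1
    have hg0 : 0 ≤ gau w := by unfold gau; positivity
    rw [norm_mul, Complex.norm_real, Real.norm_eq_abs, abs_of_nonneg hg0]
    have h1 : ‖H (t - h * w)‖ ≤ C1 * Real.exp (|c₁| * |t|) * Real.exp (|c₁| * |w|) := by
      refine (hHb _).trans ?_
      rw [mul_assoc, ← Real.exp_add]
      refine mul_le_mul_of_nonneg_left (Real.exp_le_exp.2 ?_) hC1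
      calc c₁ * (t - h * w) ≤ |c₁| * |t - h * w| := by rw [← abs_mul]; exact le_abs_self _
        _ ≤ |c₁| * (|t| + |w|) := by
            refine mul_le_mul_of_nonneg_left ?_ (abs_nonneg _)
            refine (abs_sub _ _).trans (add_le_add le_rfl ?_)
            rw [abs_mul, abs_of_pos hh]
            exact mul_le_of_le_one_left (abs_nonneg _) hh1
        _ = _ := by ring
    calc _ ≤ (C1 * Real.exp (|c₁| * |t|) * Real.exp (|c₁| * |w|)) * gau w := mul_le_mul_of_nonneg_right h1 hg0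
      _ = _ := by ring
  have hmeas : ∀ (h t : ℝ), AEStronglyMeasurable (fun w : ℝ => H (t - h * w) * ((gau w : ℝ) : ℂ)) volume := by
    intro h t
    have h1 : Measurable fun w : ℝ => H (t - h * w) := hHm.comp (by fun_prop)
    have h2 : Measurable fun w : ℝ => ((gau w : ℝ) : ℂ) := by
      unfold gau
      fun_prop
    exact (h1.mul h2).aestronglyMeasurable
  have hlim : ∀ t, ContinuousAt H t → Tendsto (fun n => Hs H (hn n) t) atTop (𝓝 (H t)) := by
    intro t ht
    have e1 : H t = ∫ w : ℝ, H t * ((gau w : ℝ) : ℂ) := by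
      rw [integral_const_mul, integral_complex_ofReal, gau_int]
      simp
    rw [e1]
    unfold Hs
    refine tendsto_integral_of_dominated_convergence
      (fun w => C1 * Real.exp (|c₁| * |t|) * (Real.exp (|c₁| * |w|) * gau w)) (fun n => hmeas _ _)
      (hdomint.const_mul _) (fun n => ae_of_all _ fun w => hbH _ _ _ (hn0 n) (hn1 n)) (ae_of_all _ fun w => ?_)
    refine Tendsto.mul_const _ ?_
    have h2 : Tendsto (fun n => t - hn n * w) atTop (𝓝 t) := by
      have := (hnt.mul_const w).const_sub t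
      simpa using this
    exact ht.tendsto.comp h2
  have hI1 : 0 ≤ ∫ w : ℝ, Real.exp (|c₁| * |w|) * gau w := integral_nonneg fun w => by unfold gau; positivity
  have hbd : ∀ n, ∀ t ∈ Icc l (l + L), ‖‖Hs H (hn n) t‖‖ ≤
      C1 * Real.exp (|c₁| * (|l| + |l + L|)) * ∫ w : ℝ, Real.exp (|c₁| * |w|) * gau w := by
    intro n t ht
    rw [norm_norm]
    unfold Hs
    refine (norm_integral_le_of_norm_le (hdomint.const_mul _) (ae_of_all _ fun w => hbH _ t w (hn0 n) (hn1 n))).trans ?_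
    rw [integral_const_mul]
    refine mul_le_mul_of_nonneg_right (mul_le_mul_of_nonneg_left (Real.exp_le_exp.2 ?_) hC1) hI1
    refine mul_le_mul_of_nonneg_left ?_ (abs_nonneg _)
    rw [abs_le]
    have := neg_abs_le l
    have := le_abs_self (l + L)
    constructor
    · linarith [abs_nonneg (l + L), ht.1]
    · linarith [abs_nonneg l, ht.2]
  have hconv : Tendsto (fun n => ∫ u in Icc l (l + L), ‖Hs H (hn n) u‖) atTop (𝓝 (∫ u in Icc l (l + L), ‖H u‖)) := by
    refine tendsto_integral_of_dominated_convergence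
      (fun _ => C1 * Real.exp (|c₁| * (|l| + |l + L|)) * ∫ w : ℝ, Real.exp (|c₁| * |w|) * gau w)
      (fun n => ((hsm _ (hn0 n) (hn1 n)).1.norm).aestronglyMeasurable) (integrableOn_const (by simp)) (fun n => ?_) ?_
    · exact (ae_restrict_iff' measurableSet_Icc).2 (ae_of_all _ (hbd n))
    · exact (ae_restrict_of_ae hHc).mono fun t ht => (hlim t ht).norm
  exact le_of_tendsto' hconv fun n => (hsm _ (hn0 n) (hn1 n)).2 l L hL

end

end Pool.Agent.H480.G
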