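import Pool.Agent.H480.U4

/-!
From bounds in a strip to the size of the summatory function in the mean, uniformly.
-/

open Complex MeasureTheory Filter Topology Set
open scoped ComplexConjugate

set_option linter.unusedSectionVars false

namespace Pool.Agent.H480.K

open Pool.Agent.H480.G
open H313.GK
open H313.TK (Ist int_exp_abs)

noncomputable section

theorem SM_ae (g : ℕ → ℂ) : ∀ᵐ u : ℝ, ContinuousAt (fun u : ℝ => SM g (Real.exp u)) u := by
  have h1 : (fun u : ℝ => SM g (Real.exp u)) = HR g (n := 0) (fun i => i.elim0) (fun i => i.elim0) := by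
    funext u
    unfold HR Ex
    rw [ell_apply]
    simp
  rw [h1]
  exact HR_ae g _ _

theorem sep_up_u {σ c D b : ℝ} (hσ : 0 < σ) (hσc : σ ≤ c) (hD : 0 ≤ D) (hb : 0 ≤ b) (hbc : b + 1 < c) {A A' : ℝ}
    (hA : 1 < A) (hA' : 1 < A') :
    ∃ K : ℝ, 0 ≤ K ∧ ∀ (g : ℕ → ℂ) (E : ℝ) (Φ : ℂ → ℂ), 1 ≤ E → (∀ n : ℕ, n ≠ 0 → ‖g n‖ ≤ (n : ℝ) ^ b) →
      (∀ s : ℂ, σ ≤ s.re → s.re ≤ c → DifferentiableAt ℂ Φ s) →
      (∀ s : ℂ, σ ≤ s.re → s.re ≤ c → ‖Φ s‖ ≤ D * E * (1 + |s.im|) ^ (-(3 / 4) : ℝ)) →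
      (∀ s : ℂ, s.re = c → LSeries g s / s = Φ s) →
      ∀ X : ℝ, 1 ≤ X → ∫ z in Icc 1 A ×ˢ Icc 1 A', ‖SM g (X * z.1 * z.2)‖ ≤ K * E * X ^ σ := by
  have hA0 : 0 < A := by linarith
  have hA0' : 0 < A' := by linarith
  have hlA : 0 ≤ Real.log A' := Real.log_nonneg hA'.le
  have hlA2 : 0 ≤ Real.log A := Real.log_nonneg hA.le
  obtain ⟨C, hC, hL2⟩ := l2_bound_u hσ hσc hD
  set K : ℝ := A' * (Real.exp (σ * (Real.log A + Real.log A')) * (C + Real.log A')) * A with hK
  have hK0 : 0 ≤ K := by positivity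
  refine ⟨K, hK0, ?_⟩
  intro g E Φ hE hg hΦ hΦb hrel X hX1
  have hE0 : 0 < E := by linarith
  have hEc : (E : ℂ) ≠ 0 := by exact_mod_cast hE0.ne'
  have hX0 : 0 < X := by linarith
  have hl0 : 0 ≤ Real.log X := Real.log_nonneg hX1
  set H : ℝ → ℂ := fun u => SM g (Real.exp u) / (E : ℂ) with hH
  have hHm : Measurable H := ((SM_meas g).comp Real.measurable_exp).div_const _
  have hHb : ∀ u : ℝ, ‖H u‖ ≤ 1 * Real.exp ((b + 1) * u) := by
    intro u
    simp only [hH]
    rw [norm_div, Complex.norm_real, Real.norm_eq_abs, abs_of_pos hE0]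
    exact (div_le_self (norm_nonneg _) hE).trans (SM_bd hb hg u)
  have hH0 : ∀ u < 0, H u = 0 := by
    intro u hu
    simp only [hH]
    rw [SM_zero g hu, zero_div]
  have hHc : ∀ᵐ u : ℝ, ContinuousAt H u := by
    filter_upwards [SM_ae g] with u hu
    exact hu.div_const _
  have key := hL2 (b + 1) 1 H (fun s => Φ s / (E : ℂ)) hbc hHm hH0 zero_le_one hHb hHc
    (fun s h1 h2 => (hΦ s h1 h2).div_const _) (fun s h1 h2 => by
      rw [norm_div, Complex.norm_real, Real.norm_eq_abs, abs_of_pos hE0, div_le_iff₀ hE0]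
      refine (hΦb s h1 h2).trans (le_of_eq ?_)
      ring) (fun τ => by
      have e2 : ∫ u : ℝ, SM g (Real.exp u) * cexp (-(vl c τ) * u) = LSeries g (vl c τ) / (vl c τ) :=
        trans_F hb hg (s := vl c τ) (by rw [vl_re]; exact hbc)
      rw [hrel _ (by rw [vl_re])] at e2
      rw [← e2, ← integral_div]
      refine integral_congr_ae (ae_of_all _ fun u => ?_)
      simp only [hH]
      ring)
  have hpt : ∀ z ∈ Icc 1 A ×ˢ Icc 1 A', ‖SM g (X * z.1 * z.2)‖ = E * ‖H ((Real.log X + Real.log z.1) + Real.log z.2)‖ := by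
    intro z hz
    have hz10 : 0 < z.1 := lt_of_lt_of_le one_pos hz.1.1
    have hz20 : 0 < z.2 := lt_of_lt_of_le one_pos hz.2.1
    simp only [hH]
    rw [Real.exp_add, Real.exp_add, Real.exp_log hX0, Real.exp_log hz10, Real.exp_log hz20, norm_div, Complex.norm_real,
      Real.norm_eq_abs, abs_of_pos hE0]
    field_simp
  rw [setIntegral_congr_fun (measurableSet_Icc.prod measurableSet_Icc) hpt, integral_const_mul]
  have hmain : ∫ z in Icc 1 A ×ˢ Icc 1 A', ‖H ((Real.log X + Real.log z.1) + Real.log z.2)‖ ≤ K * X ^ σ := by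
    by_cases hI : IntegrableOn (fun z : ℝ × ℝ => ‖H ((Real.log X + Real.log z.1) + Real.log z.2)‖)
        (Icc 1 A ×ˢ Icc 1 A') (volume.prod volume)
    · have h5 := setIntegral_prod _ hI
      rw [← Measure.volume_eq_prod] at h5
      rw [h5]
      set W : ℝ := A' * (Real.exp (σ * (Real.log X + Real.log A + Real.log A')) * (C + Real.log A')) with hW
      have hinner : ∀ x ∈ Icc 1 A, ‖∫ y in Icc 1 A', ‖H ((Real.log X + Real.log x) + Real.log y)‖‖ ≤ W := by
        intro x hx
        have hx0 : (0:ℝ) < x := lt_of_lt_of_le one_pos hx.1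
        rw [Real.norm_eq_abs, abs_of_nonneg (integral_nonneg fun _ => norm_nonneg _)]
        refine (win_le hHm hHb hA' _).trans ?_
        refine mul_le_mul_of_nonneg_left ?_ hA0'.le
        refine (key _ _ hlA).trans ?_
        refine mul_le_mul_of_nonneg_right (Real.exp_le_exp.2 ?_) (by positivity)
        refine mul_le_mul_of_nonneg_left ?_ hσ.le
        have := Real.log_le_log hx0 hx.2
        linarith
      have h6 := norm_setIntegral_le_of_norm_le_const (μ := volume) (s := Icc 1 A)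
        (f := fun x => ∫ y in Icc 1 A', ‖H ((Real.log X + Real.log x) + Real.log y)‖) (C := W)
        (by simp) hinner
      refine (le_abs_self _).trans ?_
      rw [← Real.norm_eq_abs]
      refine h6.trans ?_
      have hW0 : 0 ≤ W := by positivity
      have h7 : volume.real (Icc 1 A) ≤ A := by
        simp only [measureReal_def, Real.volume_Icc]
        rw [ENNReal.toReal_ofReal (by linarith)]
        linarith
      have hWK : W * A = K * X ^ σ := by
        rw [hW, hK, Real.rpow_def_of_pos hX0]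
        have : Real.exp (σ * (Real.log X + Real.log A + Real.log A')) =
            Real.exp (σ * (Real.log A + Real.log A')) * Real.exp (Real.log X * σ) := by
          rw [← Real.exp_add]; congr 1; ring
        rw [this]
        ring
      calc W * volume.real (Icc 1 A) ≤ W * A := mul_le_mul_of_nonneg_left h7 hW0
        _ = K * X ^ σ := hWK
    · have h5 : ∫ z in Icc 1 A ×ˢ Icc 1 A', ‖H ((Real.log X + Real.log z.1) + Real.log z.2)‖ = 0 := by
        rw [Measure.volume_eq_prod]
        exact integral_undef hI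
      rw [h5]
      positivity
  calc E * ∫ z in Icc 1 A ×ˢ Icc 1 A', ‖H ((Real.log X + Real.log z.1) + Real.log z.2)‖ ≤ E * (K * X ^ σ) :=
        mul_le_mul_of_nonneg_left hmain hE0.le
    _ = _ := by ring

end

end Pool.Agent.H480.K
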