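import Pool.Agent.H480.U5
import Pool.Graph.R_seed8.H855R2.SF.Data

/-!
Families: the Lindelöf bound on the critical line and the approximate rank of the summatory functions.
-/

open Complex MeasureTheory Filter Topology Set
open scoped ComplexConjugate

set_option linter.unusedSectionVars false

namespace Pool.Agent.H480.K

open Pool.Agent.H480.G
open H313.GK
open H855R2.SF

noncomputable section

variable {ι : Type*} {m : ℝ} {L : ι → ℂ → ℂ} {Q : ι → ℝ → ℝ} {Cd : ι → ℝ}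

/-- a family of L-functions with the Dirichlet coefficients of their powers -/
structure CFam (m : ℝ) (L : ι → ℂ → ℂ) (Cd : ι → ℝ) (a : ι → ℕ → ℕ → ℂ) : Prop where
  m0 : 0 < m
  one : ∀ i, 1 ≤ Cd i
  fam : AFam m L (fun i t => ((1 + |t|) * Cd i) ^ m)
  coef : ∀ k : ℕ, ∃ b : ℝ, 0 ≤ b ∧ ∀ i (n : ℕ), n ≠ 0 → ‖a i k n‖ ≤ (n : ℝ) ^ b
  ser : ∀ k : ℕ, ∃ c₀ : ℝ, ∀ i (s : ℂ), c₀ ≤ s.re → LSeries (a i k) s = L i s ^ k

theorem mk_eq (x t : ℝ) : (⟨x, t⟩ : ℂ) = x + t * I := by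
  apply Complex.ext <;> simp

/-- the bound to the right of the critical line -/
theorem CFam.right_bound {a : ι → ℕ → ℕ → ℂ} (H : CFam m L Cd a)
    (h : ∀ ε : ℝ, 0 < ε → ∃ B : ℝ, ∀ i (t : ℝ), ‖L i (1 / 2 + t * I)‖ ≤ B * ((1 + |t|) * Cd i) ^ ε)
    {ε : ℝ} (hε : 0 < ε) (hε1 : ε ≤ 1 / 4) :
    ∃ B : ℝ, 0 ≤ B ∧ ∀ i (s : ℂ), 1 / 2 ≤ s.re → ‖L i s‖ ≤ B * ((1 + |s.im|) * Cd i) ^ (m * ε) := by
  have hm := H.m0
  obtain ⟨B0, hB0⟩ := h (m * ε) (by positivity)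
  obtain ⟨B1, hB1⟩ := H.fam.right ε hε
  have hpos : ∀ i (t : ℝ), 0 < (1 + |t|) * Cd i := fun i t => by
    have := H.one i
    have h2 := abs_nonneg t
    positivity
  have hQ : ∀ i (t : ℝ), (((1 + |t|) * Cd i) ^ m) ^ ε = ((1 + |t|) * Cd i) ^ (m * ε) := fun i t => by
    rw [← Real.rpow_mul (hpos i t).le]
  obtain ⟨C, hC, hpl⟩ := pl H.fam (a := 1 / 2) (b := 1 + ε) (ea := ε) (eb := ε) (Ca := |B0|) (Cb := |B1|)
    (by linarith) (by norm_num) (by linarith) hε.le hε.le (abs_nonneg _) (abs_nonneg _)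
  refine ⟨max C |B1|, le_max_of_le_left hC, fun i s hs => ?_⟩
  have hx : 0 ≤ ((1 + |s.im|) * Cd i) ^ (m * ε) := Real.rpow_nonneg (hpos i s.im).le _
  rcases le_or_gt s.re (1 + ε) with h2 | h2
  · have h3 := hpl i (fun t => by
      have h4 := hB0 i t
      rw [mk_eq, hQ]
      push_cast
      exact h4.trans (mul_le_mul_of_nonneg_right (le_abs_self _) (Real.rpow_nonneg (hpos i t).le _))) (fun t => by
      have h4 := hB1 i ⟨1 + ε, t⟩ le_rfl
      exact h4.trans (mul_le_mul_of_nonneg_right (le_abs_self _) (by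
        have := (hpos i t).le
        positivity))) s hs h2
    simp only [sub_self, zero_div, zero_mul, add_zero] at h3
    rw [hQ] at h3
    exact h3.trans (mul_le_mul_of_nonneg_right (le_max_left _ _) hx)
  · have h4 := hB1 i s h2.le
    rw [hQ] at h4
    exact h4.trans (mul_le_mul_of_nonneg_right ((le_abs_self _).trans (le_max_right _ _)) hx)

/-- **from the Lindelöf bound to the size of the summatory functions** -/
theorem CFam.up {a : ι → ℕ → ℕ → ℂ} (H : CFam m L Cd a) {A A' : ℝ} (hA : 1 < A) (hA' : 1 < A')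
    (h : ∀ ε : ℝ, 0 < ε → ∃ B : ℝ, ∀ i (t : ℝ), ‖L i (1 / 2 + t * I)‖ ≤ B * ((1 + |t|) * Cd i) ^ ε)
    (k : ℕ) {η : ℝ} (hη : 0 < η) :
    ∃ K : ℝ, ∀ i (X : ℝ), 1 ≤ X →
      ∫ z in Icc 1 A ×ˢ Icc 1 A', ‖SM (a i k) (X * z.1 * z.2)‖ ≤ K * Cd i ^ η * X ^ (1 / 2 + η) := by
  have hm := H.m0
  obtain ⟨b, hb, hab⟩ := H.coef k
  obtain ⟨c₀, hc₀⟩ := H.ser k
  set ε : ℝ := min (1 / 4) (min (1 / 4) η / (m * (k + 1))) with hε
  have hε0 : 0 < ε := lt_min (by norm_num) (by positivity)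
  have hε1 : ε ≤ 1 / 4 := min_le_left _ _
  have hmk : m * ε * k ≤ min (1 / 4) η := by
    have h1 : ε ≤ min (1 / 4) η / (m * (k + 1)) := min_le_right _ _
    have h2 : 0 ≤ min (1 / 4) η := by positivity
    calc m * ε * k ≤ m * (min (1 / 4) η / (m * (k + 1))) * k := by gcongr
      _ = min (1 / 4) η * (k / (k + 1)) := by field_simp
      _ ≤ min (1 / 4) η * 1 := by
          refine mul_le_mul_of_nonneg_left ?_ h2
          rw [div_le_one (by positivity)]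
          linarith
      _ = _ := mul_one _
  obtain ⟨B, hB, hbd⟩ := H.right_bound h hε0 hε1
  set σ : ℝ := 1 / 2 + η with hσ
  set c : ℝ := max (max (b + 2) c₀) σ with hc
  have hc1 : b + 2 ≤ c := (le_max_left _ _).trans (le_max_left _ _)
  have hc2 : c₀ ≤ c := (le_max_right _ _).trans (le_max_left _ _)
  have hc3 : σ ≤ c := le_max_right _ _
  obtain ⟨K, hK, hKb⟩ := sep_up_u (σ := σ) (c := c) (D := 4 * B ^ k) (b := b) (by linarith) hc3 (by positivity) hb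
    (by linarith) hA hA'
  refine ⟨K, fun i X hX => ?_⟩
  have hC1 := H.one i
  refine hKb (a i k) (Cd i ^ η) (fun s => L i s ^ k / s) (Real.one_le_rpow hC1 hη.le) (hab i) ?_ ?_ ?_ X hX
  · intro s hs _
    have hs0 : s ≠ 0 := by
      rintro rfl
      simp at hs
      linarith
    exact (((H.fam.diff i s).pow k).div differentiableAt_id hs0)
  · intro s hs _
    have hs2 : 1 / 2 ≤ s.re := by linarith
    have h1 := hbd i s hs2
    set T : ℝ := 1 + |s.im| with hT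
    have hT1 : 1 ≤ T := by rw [hT]; linarith [abs_nonneg s.im]
    have hT0 : 0 < T := by linarith
    have hC0 : 0 < Cd i := by linarith
    have h2 : ‖L i s‖ ^ k ≤ B ^ k * (T ^ (1 / 4 : ℝ) * Cd i ^ η) := by
      calc ‖L i s‖ ^ k ≤ (B * (T * Cd i) ^ (m * ε)) ^ k := pow_le_pow_left₀ (norm_nonneg _) h1 k
        _ = B ^ k * (T ^ (m * ε * k) * Cd i ^ (m * ε * k)) := by
            rw [mul_pow, ← Real.rpow_natCast ((T * Cd i) ^ (m * ε)), ← Real.rpow_mul (by positivity),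
              Real.mul_rpow hT0.le hC0.le]
        _ ≤ _ := by
            refine mul_le_mul_of_nonneg_left ?_ (by positivity)
            refine mul_le_mul ?_ ?_ (by positivity) (by positivity)
            · exact Real.rpow_le_rpow_of_exponent_le hT1 (hmk.trans (min_le_left _ _))
            · exact Real.rpow_le_rpow_of_exponent_le hC1 (hmk.trans (min_le_right _ _))
    have h3 : T / 4 ≤ ‖s‖ := by
      have h4 := Complex.abs_im_le_norm s
      have h5 := Complex.re_le_norm s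
      rw [hT]
      linarith [abs_nonneg s.im]
    rw [norm_div, norm_pow]
    calc ‖L i s‖ ^ k / ‖s‖ ≤ (B ^ k * (T ^ (1 / 4 : ℝ) * Cd i ^ η)) / (T / 4) :=
          div_le_div₀ (by positivity) h2 (by positivity) h3
      _ = 4 * B ^ k * Cd i ^ η * T ^ (-(3 / 4) : ℝ) := by
          rw [show (1 / 4 : ℝ) = -(3 / 4) + 1 by norm_num, Real.rpow_add_one hT0.ne']
          field_simp
  · intro s hs
    rw [hc₀ i s (by rw [hs]; exact hc2)]

/-- **from finite approximate rank to the Lindelöf bound** -/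
theorem CFam.down {a : ι → ℕ → ℕ → ℂ} (H : CFam m L Cd a) {A A' : ℝ} (hA : 1 < A) (hA' : 1 < A')
    (h : ∀ η : ℝ, 0 < η → ∀ k₀ : ℕ, ∃ k ≥ k₀, ∃ (r : ℕ) (K : ℝ), ∀ i (X : ℝ), 1 ≤ X →
      Sep (SM (a i k)) A A' r (K * Cd i ^ η * X ^ (1 / 2 + η)) X) {ε : ℝ} (hε : 0 < ε) :
    ∃ B : ℝ, ∀ i (t : ℝ), ‖L i (1 / 2 + t * I)‖ ≤ B * ((1 + |t|) * Cd i) ^ ε := by
  classical
  have hm := H.m0
  set η : ℝ := min (1 / 12) (ε / (3 * m)) with hη
  have hη0 : 0 < η := lt_min (by norm_num) (by positivity)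
  have hη1 : η ≤ 1 / 12 := min_le_left _ _
  have hη2 : m * (3 * η / 2) ≤ ε / 2 := by
    have : η ≤ ε / (3 * m) := min_le_right _ _
    calc m * (3 * η / 2) ≤ m * (3 * (ε / (3 * m)) / 2) := by gcongr
      _ = ε / 2 := by field_simp
  obtain ⟨k₀, hk₀⟩ := exists_nat_gt (2 / ε)
  obtain ⟨k, hk, r, K, hsep⟩ := h η hη0 (k₀ + 1)
  have hk1 : (1:ℝ) ≤ k := by
    have : 1 ≤ k := by omega
    exact_mod_cast this
  have hk2 : 2 / ε < k := by
    have : (k₀ : ℝ) ≤ k := by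
      have : k₀ ≤ k := by omega
      exact_mod_cast this
    linarith
  have hkε : 1 / (k : ℝ) ≤ ε / 2 := by
    rw [div_lt_iff₀ hε] at hk2
    rw [div_le_iff₀ (by linarith)]
    linarith
  have hkpos : (0:ℝ) < k := by linarith
  obtain ⟨b, hb, hab⟩ := H.coef k
  obtain ⟨c₀, hc₀⟩ := H.ser k
  obtain ⟨S, hS, K', hK', hline⟩ := line_bound_u r (b := b) (Kc := |K|) hb (abs_nonneg _) hA hA'
    (β := 1 / 2 + η) (β' := 1 / 2 + 2 * η) (x := 1 / 2 + 5 * η / 2) (y := 1 / 2 + 3 * η) (by linarith) (by linarith) (by linarith)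
  obtain ⟨R, hR0, hR⟩ := H.fam.refl
  set P : ℝ := K' ^ (1 / (k:ℝ)) with hP
  have hP0 : 0 ≤ P := by positivity
  set e1 : ℝ := 1 / (m * k) with he1
  have he10 : 0 < e1 := by positivity
  -- the constants of the convexity theorem for the lines of `S`
  have hplS : ∀ σ : ℝ, ∃ C : ℝ, 0 ≤ C ∧ (σ ∈ S → ∀ i, (∀ t : ℝ, ‖L i ⟨1 / 2 - (σ - 1 / 2), t⟩‖ ≤ (R * P) * (((1 + |t|) * Cd i) ^ m) ^ ((σ - 1 / 2) + e1)) →
      (∀ t : ℝ, ‖L i ⟨1 / 2 + (σ - 1 / 2), t⟩‖ ≤ P * (((1 + |t|) * Cd i) ^ m) ^ e1) →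
      ∀ t : ℝ, ‖L i ⟨1 / 2, t⟩‖ ≤ C * (((1 + |t|) * Cd i) ^ m) ^ (e1 + (σ - 1 / 2) / 2)) := by
    intro σ
    by_cases hσ : σ ∈ S
    · obtain ⟨h1, h2⟩ := hS σ hσ
      set x : ℝ := σ - 1 / 2 with hx
      have hx0 : 0 < x := by rw [hx]; linarith
      have hx1 : x ≤ 1 / 4 := by rw [hx]; linarith
      obtain ⟨C, hC, hpl⟩ := pl H.fam (a := 1 / 2 - x) (b := 1 / 2 + x) (ea := x + e1) (eb := e1) (Ca := R * P) (Cb := P)
        (by linarith) (by linarith) (by linarith) (by positivity) (by positivity) (by positivity) hP0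
      refine ⟨C, hC, fun _ i h3 h4 t => ?_⟩
      have h5 := hpl i h3 h4 ⟨1 / 2, t⟩ (by simp; linarith) (by simp; linarith)
      have e2 : x + e1 + (e1 - (x + e1)) / (1 / 2 + x - (1 / 2 - x)) * ((⟨1 / 2, t⟩ : ℂ).re - (1 / 2 - x)) = e1 + x / 2 := by
        have : (⟨1 / 2, t⟩ : ℂ).re = 1 / 2 := rfl
        rw [this]
        have h6 : (1 / 2 + x - (1 / 2 - x)) = 2 * x := by ring
        rw [h6]
        field_simp
        ring
      rw [e2] at h5
      exact h5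
    · exact ⟨0, le_rfl, fun h => absurd h hσ⟩
  choose Cσ hCσ0 hCσ using hplS
  refine ⟨∑ σ ∈ S, Cσ σ, fun i t => ?_⟩
  have hC1 := H.one i
  have hC0 : 0 < Cd i := by linarith
  have hsep' : ∀ X : ℝ, 1 ≤ X → Sep (SM (a i k)) A A' r (|K| * Cd i ^ η * X ^ (1 / 2 + η)) X := by
    intro X hX
    obtain ⟨u, v, hu, hv, hle⟩ := hsep i X hX
    refine ⟨u, v, hu, hv, hle.trans ?_⟩
    have : K * Cd i ^ η * X ^ (1 / 2 + η) ≤ |K| * Cd i ^ η * X ^ (1 / 2 + η) := by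
      have h1 := le_abs_self K
      gcongr
    exact this
  obtain ⟨σ, hσS, hσb⟩ := hline (a i k) (Cd i ^ η) (fun s => L i s ^ k / s) (max c₀ 1) (Real.one_le_rpow hC1 hη0.le) (hab i) hsep'
    (fun s hs => by
      have hs0 : s ≠ 0 := by
        rintro rfl
        simp at hs
        linarith
      exact (((H.fam.diff i s).pow k).div differentiableAt_id hs0))
    (fun s hs => by rw [hc₀ i s ((le_max_left _ _).trans hs)])
  obtain ⟨g1, g2⟩ := hS σ hσS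
  set x : ℝ := σ - 1 / 2 with hx
  have hx0 : 0 < x := by rw [hx]; linarith
  have hx3 : x ≤ 3 * η := by rw [hx]; linarith
  have hpos : ∀ t : ℝ, 0 < (1 + |t|) * Cd i := fun t => by
    have h2 := abs_nonneg t
    positivity
  have hone : ∀ t : ℝ, 1 ≤ (1 + |t|) * Cd i := fun t => by
    nlinarith [abs_nonneg t]
  -- the bound on the line
  have hl : ∀ t : ℝ, ‖L i ⟨1 / 2 + x, t⟩‖ ≤ P * (((1 + |t|) * Cd i) ^ m) ^ e1 := by
    intro t
    set s : ℂ := ⟨1 / 2 + x, t⟩ with hs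
    have hre : s.re = σ := by rw [hs, hx]; simp
    have him : s.im = t := by rw [hs]
    have h1 := hσb s hre
    have hs0 : 0 < ‖s‖ := by
      have := Complex.re_le_norm s
      rw [hre] at this
      linarith
    rw [norm_div, norm_pow, div_le_iff₀ hs0] at h1
    have h2 : ‖s‖ ≤ 1 + |t| := by
      have h3 := Complex.norm_le_abs_re_add_abs_im s
      rw [hre, him, abs_of_nonneg (by linarith)] at h3
      linarith
    have h3 : Cd i ^ η ≤ Cd i := by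
      conv_rhs => rw [← Real.rpow_one (Cd i)]
      exact Real.rpow_le_rpow_of_exponent_le hC1 (by linarith)
    have h4 : ‖L i s‖ ^ k ≤ K' * ((1 + |t|) * Cd i) := by
      calc ‖L i s‖ ^ k ≤ K' * Cd i ^ η * ‖s‖ := h1
        _ ≤ K' * Cd i * (1 + |t|) := by gcongr
        _ = _ := by ring
    have h5 : ‖L i s‖ = (‖L i s‖ ^ k) ^ (1 / (k:ℝ)) := by
      rw [← Real.rpow_natCast, ← Real.rpow_mul (norm_nonneg _)]
      rw [mul_one_div_cancel hkpos.ne', Real.rpow_one]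
    rw [h5]
    calc (‖L i s‖ ^ k) ^ (1 / (k:ℝ)) ≤ (K' * ((1 + |t|) * Cd i)) ^ (1 / (k:ℝ)) :=
          Real.rpow_le_rpow (by positivity) h4 (by positivity)
      _ = P * ((1 + |t|) * Cd i) ^ (1 / (k:ℝ)) := Real.mul_rpow hK' (hpos t).le
      _ = P * (((1 + |t|) * Cd i) ^ m) ^ e1 := by
          rw [← Real.rpow_mul (hpos t).le, he1]
          congr 2
          field_simp
  have hlm : ∀ t : ℝ, ‖L i ⟨1 / 2 - x, t⟩‖ ≤ (R * P) * (((1 + |t|) * Cd i) ^ m) ^ (x + e1) := by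
    intro t
    have h1 := hR i x t hx0.le (by linarith)
    have hQ0 : 0 < ((1 + |t|) * Cd i) ^ m := Real.rpow_pos_of_pos (hpos t) _
    rw [Real.rpow_add hQ0]
    calc ‖L i ⟨1 / 2 - x, t⟩‖ ≤ R * (((1 + |t|) * Cd i) ^ m) ^ x * ‖L i ⟨1 / 2 + x, t⟩‖ := h1
      _ ≤ R * (((1 + |t|) * Cd i) ^ m) ^ x * (P * (((1 + |t|) * Cd i) ^ m) ^ e1) :=
          mul_le_mul_of_nonneg_left (hl t) (by positivity)
      _ = _ := by ring
  have h6 := hCσ σ hσS i hlm hl t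
  have e3 : (⟨1 / 2, t⟩ : ℂ) = 1 / 2 + t * I := by
    rw [mk_eq]; push_cast; ring
  rw [e3] at h6
  refine h6.trans ?_
  have h7 : Cσ σ ≤ ∑ σ ∈ S, Cσ σ := Finset.single_le_sum (f := Cσ) (fun σ _ => hCσ0 σ) hσS
  refine mul_le_mul h7 ?_ (by positivity) (Finset.sum_nonneg fun σ _ => hCσ0 σ)
  rw [← Real.rpow_mul (hpos t).le]
  refine Real.rpow_le_rpow_of_exponent_le (hone t) ?_
  have e4 : m * (e1 + x / 2) = 1 / k + m * (x / 2) := by
    rw [he1]
    field_simp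
  rw [e4]
  have h8 : m * (x / 2) ≤ m * (3 * η / 2) := by gcongr
  linarith

theorem CFam.tfae {a : ι → ℕ → ℕ → ℂ} (H : CFam m L Cd a) {A A' : ℝ} (hA : 1 < A) (hA' : 1 < A') : List.TFAE
    [∀ ε : ℝ, 0 < ε → ∃ B : ℝ, ∀ i (t : ℝ), ‖L i (1 / 2 + t * I)‖ ≤ B * ((1 + |t|) * Cd i) ^ ε,
     ∀ k : ℕ, ∀ η : ℝ, 0 < η → ∃ K : ℝ, ∀ i (X : ℝ), 1 ≤ X →
      ∫ z in Icc 1 A ×ˢ Icc 1 A', ‖SM (a i k) (X * z.1 * z.2)‖ ≤ K * Cd i ^ η * X ^ (1 / 2 + η),
     ∀ η : ℝ, 0 < η → ∀ k₀ : ℕ, ∃ k ≥ k₀, ∃ (r : ℕ) (K : ℝ), ∀ i (X : ℝ), 1 ≤ X →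
      Sep (SM (a i k)) A A' r (K * Cd i ^ η * X ^ (1 / 2 + η)) X] := by
  tfae_have 1 → 2 := fun h k η hη => H.up hA hA' h k hη
  tfae_have 2 → 3 := fun h η hη k₀ => by
    obtain ⟨K, hK⟩ := h k₀ η hη
    refine ⟨k₀, le_rfl, 0, K, fun i X hX => ⟨fun i => i.elim0, fun i => i.elim0, fun i => i.elim0, fun i => i.elim0, ?_⟩⟩
    simpa using hK i X hX
  tfae_have 3 → 1 := fun h ε hε => H.down hA hA' h hε
  tfae_finish

end

end Pool.Agent.H480.K
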