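import Pool.Agent.H480.N3
import Pool.Agent.H480.Q6

/-!
One pole, at the edge of absolute convergence: preparations.
-/

open Complex MeasureTheory Filter Topology Set

set_option linter.unusedSectionVars false

namespace Pool.Agent.H480.X

open Pool.Agent.H480.G
open Pool.Agent.H480.K
open Pool.Agent.H480.Q

noncomputable section

variable {r : ℕ}

/-- bound of the smoothed sum from absolute convergence -/
theorem fV_bd' {a : ℕ → ℂ} {lam κ : ℝ} (hl : 0 < lam) (hs : LSeriesSummable a κ) :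
    ∃ C : ℝ, 0 ≤ C ∧ ∀ u, ‖fV a lam u‖ ≤ C * Real.exp (κ * u) := by
  have hsn : Summable fun n : ℕ => ‖LSeries.term a κ n‖ := hs.norm
  refine ⟨Real.exp (lam * κ ^ 2 / 2) * ∑' n : ℕ, ‖LSeries.term a κ n‖, ?_, fun u => ?_⟩
  · exact mul_nonneg (by positivity) (tsum_nonneg fun n => norm_nonneg _)
  · unfold fV
    have h1 := (hsn.mul_left (Real.exp (lam * κ ^ 2 / 2))).mul_right (Real.exp (κ * u))
    refine (tsum_of_norm_bounded h1.hasSum fun n => ?_).trans (le_of_eq ?_)
    · unfold tV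
      rw [LSeries.norm_term_eq]
      split_ifs with h
      · rw [norm_zero]; simp
      · have hn : (0:ℝ) < n := by exact_mod_cast Nat.pos_of_ne_zero h
        rw [norm_mul, Complex.norm_real, Real.norm_eq_abs, abs_of_pos (gk_pos _ _), Complex.ofReal_re]
        calc ‖a n‖ * gk lam (u - Real.log n) ≤ ‖a n‖ * (Real.exp (lam * κ ^ 2 / 2) * Real.exp (κ * (u - Real.log n))) :=
              mul_le_mul_of_nonneg_left (gk_le hl κ _) (norm_nonneg _)
          _ = _ := by
              rw [Real.rpow_def_of_pos hn κ, mul_sub, Real.exp_sub, mul_comm κ (Real.log n)]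
              field_simp
    · rw [tsum_mul_right, tsum_mul_left]

/-- **multiplicity of a real exponent** -/
theorem mult_s0 {f : ℝ → ℝ} (hfm : Measurable f) {s₀ : ℝ}
    (hup : ∀ σ : ℝ, s₀ < σ → ∃ C : ℝ, 0 ≤ C ∧ ∀ u, |f u| ≤ C * Real.exp (σ * u))
    {c u₀ κ : ℝ} (hc : 0 < c) (hκ : 0 ≤ κ) (hlow : ∀ u, u₀ ≤ u → c * u ^ κ * Real.exp (s₀ * u) ≤ f u)
    {β : ℝ} (hβ : β < s₀) {ρ : Fin r → ℂ} {g : ℂ → ℂ} (hg : ∀ s : ℂ, β < s.re → DifferentiableAt ℂ g s) {c₀ : ℝ}
    (hform : ∀ s : ℂ, c₀ < s.re → g s = (∏ j, (s - ρ j)) * Lap (fun u => (f u : ℂ)) s) :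
    κ + 1 ≤ ((Finset.univ.filter fun j => ρ j = (s₀ : ℂ)).card : ℝ) := by
  classical
  set u₁ : ℝ := max u₀ 1 with hu₁
  have hu1 : 1 ≤ u₁ := le_max_right _ _
  set fp : ℝ → ℝ := fun u => if u₁ ≤ u then f u else 0 with hfp
  set fm : ℝ → ℝ := fun u => if u₁ ≤ u then 0 else f u with hfm'
  have hfpm : Measurable fp := Measurable.ite measurableSet_Ici hfm measurable_const
  have hfmm : Measurable fm := Measurable.ite measurableSet_Ici measurable_const hfm
  have hpos : ∀ u, u₁ ≤ u → 0 ≤ f u := fun u hu => by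
    have h1 := hlow u ((le_max_left _ _).trans hu)
    have h2 : 0 < u := by linarith
    exact le_trans (by positivity) h1
  -- the negative part
  have hIm : ∀ σ : ℝ, β < σ → Integrable fun u : ℝ => ‖(fm u : ℂ)‖ * Real.exp (-(σ * u)) := by
    intro σ hσ
    obtain ⟨C, hC, hfC⟩ := hup (max σ s₀ + 1) (by have := le_max_right σ s₀; linarith)
    have h3 : IntegrableOn (fun u : ℝ => C * Real.exp ((max σ s₀ + 1 - σ) * u)) (Iic u₁) :=
      (integrableOn_exp_mul_Iic (by have := le_max_left σ s₀; linarith) u₁).const_mul C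
    rw [← integrableOn_iff_integrable_of_support_subset (s := Iic u₁)]
    · refine h3.mono' ?_ ((ae_restrict_iff' measurableSet_Iic).2 (ae_of_all _ fun u hu => ?_))
      · exact ((Complex.measurable_ofReal.comp hfmm).norm.mul (by fun_prop)).aestronglyMeasurable
      · rw [Real.norm_eq_abs, abs_of_nonneg (by positivity), Complex.norm_real, Real.norm_eq_abs]
        have h4 : |fm u| ≤ C * Real.exp ((max σ s₀ + 1) * u) := by
          simp only [hfm']
          split_ifs
          · rw [abs_zero]; positivity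
          · exact hfC u
        calc |fm u| * Real.exp (-(σ * u)) ≤ C * Real.exp ((max σ s₀ + 1) * u) * Real.exp (-(σ * u)) :=
              mul_le_mul_of_nonneg_right h4 (Real.exp_pos _).le
          _ = _ := by rw [mul_assoc, ← Real.exp_add]; congr 2; ring
    · intro u hu
      rw [Function.mem_support] at hu
      by_contra hcon
      apply hu
      have h5 : u₁ ≤ u := (not_le.1 hcon).le
      simp only [hfm']
      rw [if_pos h5]
      simp
  have hmd : ∀ s : ℂ, β < s.re → DifferentiableAt ℂ (Lap fun u => (fm u : ℂ)) s := fun s hs =>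
    lap_diff (Complex.measurable_ofReal.comp hfmm) hIm hs
  -- the positive part
  have hIp : ∀ σ : ℝ, s₀ < σ → Integrable fun u : ℝ => ‖(fp u : ℂ)‖ * Real.exp (-(σ * u)) := by
    intro σ hσ
    obtain ⟨C, hC, hfC⟩ := hup ((s₀ + σ) / 2) (by linarith)
    refine f_int (Complex.measurable_ofReal.comp hfpm) (fun u hu => ?_) hC (c₁ := (s₀ + σ) / 2) (fun u hu => ?_) (by linarith)
    · show ((fp u : ℝ) : ℂ) = 0
      simp only [hfp]
      rw [if_neg (by linarith)]
      simp
    · show ‖((fp u : ℝ) : ℂ)‖ ≤ _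
      rw [Complex.norm_real, Real.norm_eq_abs]
      simp only [hfp]
      split_ifs
      · exact hfC u
      · rw [abs_zero]; positivity
  have hsplit : ∀ s : ℂ, s₀ < s.re → Lap (fun u => (f u : ℂ)) s = Lap (fun u => (fp u : ℂ)) s + Lap (fun u => (fm u : ℂ)) s := by
    intro s hs
    have i1 : Integrable fun u : ℝ => ((fp u : ℝ) : ℂ) * cexp (-s * u) :=
      lap_int (s := s) (Complex.measurable_ofReal.comp hfpm) (hIp s.re hs)
    have i2 : Integrable fun u : ℝ => ((fm u : ℝ) : ℂ) * cexp (-s * u) :=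
      lap_int (s := s) (Complex.measurable_ofReal.comp hfmm) (hIm s.re (hβ.trans hs))
    unfold Lap
    rw [← integral_add i1 i2]
    refine integral_congr_ae (ae_of_all _ fun u => ?_)
    simp only [hfp, hfm']
    split_ifs <;> simp
  -- normalisation
  set f' : ℝ → ℝ := fun u => fp u * Real.exp (-((s₀ - 1) * u)) with hf'
  have hlapf' : ∀ s : ℂ, Lap (fun u => (f' u : ℂ)) s = Lap (fun u => (fp u : ℂ)) (s + ((s₀ - 1 : ℝ) : ℂ)) := by
    intro s
    unfold Lap
    refine integral_congr_ae (ae_of_all _ fun u => ?_)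
    simp only [hf']
    push_cast
    rw [mul_assoc, ← Complex.exp_add]
    congr 2
    ring
  have hcard := mult_one (r := r) (f := f') (hfpm.mul (by fun_prop)) (fun u hu => by
      simp only [hf', hfp]
      rw [if_neg (by linarith), zero_mul]) (fun u => by
      simp only [hf', hfp]
      split_ifs with h
      · exact mul_nonneg (hpos u h) (Real.exp_pos _).le
      · simp) (fun σ hσ => by
      obtain ⟨C, hC, hfC⟩ := hup (σ + (s₀ - 1)) (by linarith)
      refine ⟨C, hC, fun u hu => ?_⟩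
      simp only [hf']
      have h4 : fp u ≤ C * Real.exp ((σ + (s₀ - 1)) * u) := by
        simp only [hfp]
        split_ifs
        · exact (le_abs_self _).trans (hfC u)
        · positivity
      calc fp u * Real.exp (-((s₀ - 1) * u)) ≤ C * Real.exp ((σ + (s₀ - 1)) * u) * Real.exp (-((s₀ - 1) * u)) :=
            mul_le_mul_of_nonneg_right h4 (Real.exp_pos _).le
        _ = _ := by rw [mul_assoc, ← Real.exp_add]; congr 2; ring)
    (c := c) (u₀ := u₁) (κ := κ) hc hκ (fun u hu => by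
      simp only [hf', hfp]
      rw [if_pos hu]
      have h1 := hlow u ((le_max_left _ _).trans hu)
      calc c * u ^ κ * Real.exp u = (c * u ^ κ * Real.exp (s₀ * u)) * Real.exp (-((s₀ - 1) * u)) := by
            rw [mul_assoc (c * u ^ κ), ← Real.exp_add]; congr 2; ring
        _ ≤ _ := mul_le_mul_of_nonneg_right h1 (Real.exp_pos _).le)
    (β := β - (s₀ - 1)) (by linarith) (ρ := fun j => ρ j - ((s₀ - 1 : ℝ) : ℂ))
    (g := fun s => g (s + ((s₀ - 1 : ℝ) : ℂ)) - (∏ j, (s + ((s₀ - 1 : ℝ) : ℂ) - ρ j)) *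
      Lap (fun u => (fm u : ℂ)) (s + ((s₀ - 1 : ℝ) : ℂ)))
    (fun s hs => by
      have hs' : β < (s + ((s₀ - 1 : ℝ) : ℂ)).re := by
        rw [Complex.add_re, Complex.ofReal_re]; linarith
      have d1 : DifferentiableAt ℂ (fun s : ℂ => g (s + ((s₀ - 1 : ℝ) : ℂ))) s :=
        (hg _ hs').comp s (by fun_prop)
      have d2 : DifferentiableAt ℂ (fun s : ℂ => Lap (fun u => (fm u : ℂ)) (s + ((s₀ - 1 : ℝ) : ℂ))) s :=
        DifferentiableAt.comp (g := Lap fun u => (fm u : ℂ)) (f := fun z : ℂ => z + ((s₀ - 1 : ℝ) : ℂ)) s (hmd _ hs')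
          (by fun_prop)
      exact d1.sub (DifferentiableAt.mul (by fun_prop) d2))
    (c₀ := max c₀ s₀ - (s₀ - 1)) (fun s hs => by
      have hs' : max c₀ s₀ < (s + ((s₀ - 1 : ℝ) : ℂ)).re := by
        rw [Complex.add_re, Complex.ofReal_re]; linarith
      have e1 : ∏ j, (s - (ρ j - ((s₀ - 1 : ℝ) : ℂ))) = ∏ j, (s + ((s₀ - 1 : ℝ) : ℂ) - ρ j) :=
        Finset.prod_congr rfl fun j _ => by ring
      beta_reduce
      rw [e1, hlapf', hform _ ((le_max_left _ _).trans_lt hs'), hsplit _ ((le_max_right _ _).trans_lt hs')]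
      ring)
  have e2 : (Finset.univ.filter fun j => ρ j - ((s₀ - 1 : ℝ) : ℂ) = 1) = Finset.univ.filter fun j => ρ j = (s₀ : ℂ) := by
    ext j
    simp only [Finset.mem_filter, Finset.mem_univ, true_and]
    constructor
    · intro h
      rw [sub_eq_iff_eq_add] at h
      rw [h]
      push_cast
      ring
    · intro h
      rw [h]
      push_cast
      ring
  rwa [e2] at hcard

/-- order of a pole and number of factors -/
theorem order_le {n : ℕ} {s₀ : ℂ} {g' G₁ : ℂ → ℂ} (hg' : ContinuousAt g' s₀) (hG : ContinuousAt G₁ s₀) (hG0 : G₁ s₀ ≠ 0)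
    {ρ : Fin n → ℂ} (h : ∀ᶠ s in 𝓝[≠] s₀, (s - s₀) ^ r * g' s = (∏ j, (s - ρ j)) * G₁ s) :
    r ≤ (Finset.univ.filter fun j => ρ j = s₀).card := by
  classical
  set m : ℕ := (Finset.univ.filter fun j => ρ j = s₀).card with hm
  by_contra hcon
  rw [not_le] at hcon
  set P₂ : ℂ → ℂ := fun s => ∏ j ∈ Finset.univ.filter (fun j => ¬ ρ j = s₀), (s - ρ j) with hP₂
  have hP₂c : Continuous P₂ := by simp only [hP₂]; fun_prop
  have hP₂0 : P₂ s₀ ≠ 0 := by
    simp only [hP₂]
    rw [Finset.prod_ne_zero_iff]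
    intro j hj h0
    exact (Finset.mem_filter.1 hj).2 (sub_eq_zero.1 h0).symm
  have hsplit : ∀ s : ℂ, ∏ j, (s - ρ j) = (s - s₀) ^ m * P₂ s := by
    intro s
    rw [← Finset.prod_filter_mul_prod_filter_not Finset.univ (fun j => ρ j = s₀)]
    congr 1
    rw [hm, ← Finset.prod_const]
    refine Finset.prod_congr rfl fun j hj => ?_
    rw [(Finset.mem_filter.1 hj).2]
  have h1 : ∀ᶠ s in 𝓝[≠] s₀, (s - s₀) ^ (r - m) * g' s = P₂ s * G₁ s := by
    filter_upwards [h, self_mem_nhdsWithin] with s hs hne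
    have hne' : s - s₀ ≠ 0 := sub_ne_zero.2 hne
    rw [hsplit s] at hs
    have e1 : (s - s₀) ^ r = (s - s₀) ^ m * (s - s₀) ^ (r - m) := by
      rw [← pow_add]; congr 1; omega
    rw [e1, mul_assoc, mul_assoc] at hs
    exact mul_left_cancel₀ (pow_ne_zero _ hne') hs
  have h2 : Tendsto (fun s => (s - s₀) ^ (r - m) * g' s) (𝓝[≠] s₀) (𝓝 ((s₀ - s₀) ^ (r - m) * g' s₀)) := by
    have hc : ContinuousAt (fun s => (s - s₀) ^ (r - m) * g' s) s₀ := ContinuousAt.mul (by fun_prop) hg'
    exact hc.tendsto.mono_left nhdsWithin_le_nhds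
  have h3 : Tendsto (fun s => P₂ s * G₁ s) (𝓝[≠] s₀) (𝓝 (P₂ s₀ * G₁ s₀)) := by
    have hc : ContinuousAt (fun s => P₂ s * G₁ s) s₀ := hP₂c.continuousAt.mul hG
    exact hc.tendsto.mono_left nhdsWithin_le_nhds
  have h4 := tendsto_nhds_unique (h2.congr' h1) h3
  rw [sub_self, zero_pow (by omega), zero_mul] at h4
  exact mul_ne_zero hP₂0 hG0 h4.symm

end

end Pool.Agent.H480.X
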