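import Pool.Agent.H480.X1

/-!
From the rank and the size of the smoothed sums to a pole of exact order `r` at `s₀`.
-/

open Complex MeasureTheory Filter Topology Set

set_option linter.unusedSectionVars false

namespace Pool.Agent.H480.X

open Pool.Agent.H480.G
open Pool.Agent.H480.K
open Pool.Agent.H480.Q

noncomputable section

variable {r : ℕ} {a : ℕ → ℂ} {b B lam : ℝ}

/-- the smoothed sums of real coefficients are real -/
theorem fV_real (hre : ∀ n, (a n).im = 0) (u : ℝ) : (((fV a lam u).re : ℝ) : ℂ) = fV a lam u := by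
  have h1 : ∀ n, a n = ((a n).re : ℂ) := fun n => by
    apply Complex.ext
    · simp
    · simp [hre n]
  have h2 : fV a lam u = ((∑' n : ℕ, (if n = 0 then 0 else (a n).re * gk lam (u - Real.log n)) : ℝ) : ℂ) := by
    unfold fV
    rw [Complex.ofReal_tsum]
    refine tsum_congr fun n => ?_
    unfold tV
    split_ifs with h
    · simp
    · rw [h1 n]
      push_cast
      simp
  rw [h2, Complex.ofReal_re]

/-- holomorphy of the series -/
theorem ls_diff {s₀ : ℝ} (hs : ∀ σ : ℝ, s₀ < σ → LSeriesSummable a σ) (s : ℂ) (h : s₀ < s.re) :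
    DifferentiableAt ℂ (LSeries a) s := by
  have h1 : LSeries.abscissaOfAbsConv a ≤ s₀ := LSeries.abscissaOfAbsConv_le_of_forall_lt_LSeriesSummable fun y hy => hs y hy
  exact (LSeries_hasDerivAt (h1.trans_lt (by exact_mod_cast h))).differentiableAt

/-- **from the rank and the size to a pole of order `r`** -/
theorem pole_of_rank (hB : 0 ≤ B) (ha : ∀ n : ℕ, n ≠ 0 → ‖a n‖ ≤ B * (n : ℝ) ^ b) (hre : ∀ n, (a n).im = 0) {s₀ : ℝ}
    (hs : ∀ σ : ℝ, s₀ < σ → LSeriesSummable a σ) (hl : 0 < lam) {A A' : ℝ} (hA : 1 < A) (hA' : 1 < A')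
    (H : ∀ β : ℝ, ∀ᶠ X : ℝ in atTop, NearS (VV a lam) A A' r β X)
    (hsz : r ≠ 0 → ∃ c : ℝ, 0 < c ∧ ∀ᶠ x : ℝ in atTop, c * (x ^ s₀ * Real.log x ^ (r - 1)) ≤ ‖VV a lam x‖) :
    ∃ g : ℂ → ℂ, Differentiable ℂ g ∧ (∀ s : ℂ, s₀ < s.re → g s = (s - s₀) ^ r * LSeries a s) ∧ (r ≠ 0 → g s₀ ≠ 0) ∧
      Gr ⊥ lam g := by
  classical
  have H' : ∀ β : ℝ, (⊥ : EReal) < (β : EReal) → ∀ᶠ X : ℝ in atTop, Near (VV a lam) A A' r β X := by
    intro β _
    obtain ⟨M, κ, hM, hMb⟩ := Kn_bd hB ha hl hA hA'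
    refine quot_near hB ha hl hA hA' (β := β - 1) (by linarith) ?_
    refine quot_of_sup hA hA' ?_ (β := β - 2) (by linarith) (H _)
    filter_upwards [eventually_ge_atTop 1] with X hX
    exact ⟨_, hMb X hX⟩
  obtain ⟨ρ, g, c₀, -, hg, hform, hgr⟩ := mero_of_rank hB ha hl hA hA' (δ := ⊥) bot_lt_top H'
  have hgd : Differentiable ℂ g := fun s => hg s (EReal.bot_lt_coe _)
  -- extension of the identity
  have hext : ∀ (G : ℂ → ℂ) (k : ℕ) (c₁ : ℝ), Differentiable ℂ G → (∀ s : ℂ, c₁ < s.re → G s = (s - s₀) ^ k * LSeries a s) →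
      ∀ s : ℂ, s₀ < s.re → G s = (s - s₀) ^ k * LSeries a s := by
    intro G k c₁ hG h s h2
    refine half_id (δ := s₀) (c₀ := c₁) (fun s _ => hG s) (fun s h3 => ?_) h h2
    exact DifferentiableAt.mul (by fun_prop) (ls_diff hs s h3)
  by_cases hr : r = 0
  · subst hr
    refine ⟨g, hgd, hext g 0 c₀ hgd fun s h => ?_, fun h => absurd rfl h, hgr⟩
    rw [hform s h]
    simp
  · obtain ⟨c, hc, hcx⟩ := hsz hr
    set f : ℝ → ℝ := fun u => (fV a lam u).re with hf
    have hfc : Continuous f := Complex.continuous_re.comp (fV_cont hB ha hl)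
    have hff : ∀ u, ((f u : ℝ) : ℂ) = fV a lam u := fV_real hre
    have hfn : ∀ u, |f u| = ‖fV a lam u‖ := fun u => by rw [← hff, Complex.norm_real, Real.norm_eq_abs]
    obtain ⟨u₀, hu₀⟩ : ∃ u₀ : ℝ, ∀ u, u₀ ≤ u → c * (u ^ (r - 1) * Real.exp (s₀ * u)) ≤ |f u| := by
      obtain ⟨x₀, hx₀⟩ := eventually_atTop.1 hcx
      refine ⟨max (x₀) 0, fun u hu => ?_⟩
      have h1 : x₀ ≤ Real.exp u := (le_max_left _ _).trans (hu.trans (by linarith [Real.add_one_le_exp u]))
      have h2 := hx₀ _ h1
      rw [VV_exp, Real.log_exp, ← Real.exp_mul] at h2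
      rw [hfn]
      refine le_trans (le_of_eq ?_) h2
      rw [mul_comm s₀ u]
      ring
    set u₁ : ℝ := max u₀ 1 with hu₁
    have hu1 : 1 ≤ u₁ := le_max_right _ _
    have hne : ∀ u, u₁ ≤ u → f u ≠ 0 := by
      intro u hu h0
      have h1 := hu₀ u ((le_max_left _ _).trans hu)
      rw [h0, abs_zero] at h1
      have h2 : 0 < u := by linarith
      have h3 : 0 < c * (u ^ (r - 1) * Real.exp (s₀ * u)) := by positivity
      linarith
    -- the sign
    obtain ⟨ε, hε, hεf⟩ : ∃ ε : ℝ, |ε| = 1 ∧ ∀ u, u₁ ≤ u → ε * f u = |f u| := by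
      rcases lt_or_gt_of_ne (hne u₁ le_rfl) with h | h
      · refine ⟨-1, by simp, fun u hu => ?_⟩
        have h1 : f u < 0 := by
          by_contra hcon
          rw [not_lt] at hcon
          have h2 := intermediate_value_Icc hu (f := f) hfc.continuousOn
          obtain ⟨v, hv, hv0⟩ := h2 ⟨h.le, hcon⟩
          exact hne v hv.1 hv0
        rw [abs_of_neg h1]
        ring
      · refine ⟨1, by simp, fun u hu => ?_⟩
        have h1 : 0 < f u := by
          by_contra hcon
          rw [not_lt] at hcon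
          have h2 := intermediate_value_Icc' hu (f := f) hfc.continuousOn
          obtain ⟨v, hv, hv0⟩ := h2 ⟨hcon, h.le⟩
          exact hne v hv.1 hv0
        rw [abs_of_pos h1, one_mul]
    have hεc : ε ≠ 0 := by
      intro h
      rw [h, abs_zero] at hε
      exact zero_ne_one hε
    -- the count
    have hcount : ∀ (k : ℕ) (σ : Fin k → ℂ) (G : ℂ → ℂ) (c₁ : ℝ), Differentiable ℂ G →
        (∀ s : ℂ, c₁ < s.re → G s = (∏ j, (s - σ j)) * LSeries a s) →
        ((r - 1 : ℕ) : ℝ) + 1 ≤ ((Finset.univ.filter fun j => σ j = (s₀ : ℂ)).card : ℝ) := by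
      intro k σ G c₁ hG h
      refine mult_s0 (f := fun u => ε * f u) (hfc.measurable.const_mul ε) (s₀ := s₀) (fun τ hτ => ?_)
        (c := c) (u₀ := u₁) (κ := ((r - 1 : ℕ) : ℝ)) hc (Nat.cast_nonneg _) (fun u hu => ?_) (β := s₀ - 1) (by linarith)
        (g := fun s => (ε : ℂ) * (MM lam s * G s)) (fun s _ => ?_) (c₀ := max c₁ (b + 1)) (fun s h1 => ?_)
      · obtain ⟨C, hC, hCb⟩ := fV_bd' hl (hs τ hτ)
        refine ⟨C, hC, fun u => ?_⟩
        rw [abs_mul, hε, one_mul, hfn]
        exact hCb u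
      · rw [hεf u hu, Real.rpow_natCast, mul_assoc]
        exact hu₀ u ((le_max_left _ _).trans hu)
      · exact ((MM_diff lam s).mul (hG s)).const_mul _
      · have e1 : Lap (fun u => ((ε * f u : ℝ) : ℂ)) s = (ε : ℂ) * Lap (fV a lam) s := by
          unfold Lap
          rw [← integral_const_mul]
          refine integral_congr_ae (ae_of_all _ fun u => ?_)
          beta_reduce
          rw [← hff u]
          push_cast
          ring
        beta_reduce
        rw [e1, fV_lap hB ha hl ((le_max_right _ _).trans_lt h1), h s ((le_max_left _ _).trans_lt h1)]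
        ring
    have hr1 : r - 1 + 1 = r := by omega
    have hcard := hcount r ρ g c₀ hgd hform
    have hcard' : r ≤ (Finset.univ.filter fun j => ρ j = (s₀ : ℂ)).card := by
      have : ((r : ℕ) : ℝ) ≤ ((Finset.univ.filter fun j => ρ j = (s₀ : ℂ)).card : ℝ) := by
        refine le_trans (le_of_eq ?_) hcard
        rw [← hr1]
        push_cast
        simp
      exact_mod_cast this
    have hall : ∀ j, ρ j = (s₀ : ℂ) := by
      have h1 : (Finset.univ.filter fun j => ρ j = (s₀ : ℂ)) = Finset.univ := by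
        apply Finset.eq_univ_of_card
        refine le_antisymm (Finset.card_le_univ _) ?_
        rw [Fintype.card_fin]
        exact hcard'
      intro j
      have h2 : j ∈ Finset.univ.filter fun j => ρ j = (s₀ : ℂ) := by rw [h1]; exact Finset.mem_univ _
      exact (Finset.mem_filter.1 h2).2
    have hprod : ∀ s : ℂ, ∏ j, (s - ρ j) = (s - s₀) ^ r := by
      intro s
      simp_rw [hall]
      simp
    refine ⟨g, hgd, hext g r c₀ hgd fun s h => by rw [hform s h, hprod], fun _ => ?_, hgr⟩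
    intro h0
    -- a zero at `s₀` would lower the order
    set G : ℂ → ℂ := dslope g s₀ with hG
    have hGd : Differentiable ℂ G := by
      have h1 : DifferentiableOn ℂ G univ := (differentiableOn_dslope (Filter.univ_mem)).2 hgd.differentiableOn
      exact fun s => (h1 s (mem_univ _)).differentiableAt Filter.univ_mem
    have hGe : ∀ s : ℂ, (s - s₀) * G s = g s := by
      intro s
      have h1 := sub_smul_dslope g (s₀ : ℂ) s
      rw [h0, sub_zero, smul_eq_mul] at h1
      exact h1
    have h2 := hcount (r - 1) (fun _ => (s₀ : ℂ)) G (max c₀ s₀) hGd (fun s h => by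
      have h3 : s - s₀ ≠ 0 := by
        intro h4
        have h5 : s.re = s₀ := by rw [sub_eq_zero.1 h4, Complex.ofReal_re]
        have h6 := (le_max_right c₀ s₀).trans_lt h
        linarith
      apply mul_left_cancel₀ h3
      rw [hGe, hform s ((le_max_left _ _).trans_lt h), hprod, Finset.prod_const, Finset.card_univ, Fintype.card_fin]
      rw [← mul_assoc, ← pow_succ', hr1])
    have h7 : ((Finset.univ.filter fun _ : Fin (r - 1) => (s₀ : ℂ) = (s₀ : ℂ)).card : ℝ) ≤ ((r - 1 : ℕ) : ℝ) := by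
      have := Finset.card_le_univ (Finset.univ.filter fun _ : Fin (r - 1) => (s₀ : ℂ) = (s₀ : ℂ))
      rw [Fintype.card_fin] at this
      exact_mod_cast this
    linarith

end

end Pool.Agent.H480.X
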