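import Pool.Agent.H480.X2

/-!
From a pole of exact order `r` at `s₀` to the size of the smoothed sums.
-/

open Complex MeasureTheory Filter Topology Set

set_option linter.unusedSectionVars false

namespace Pool.Agent.H480.X

open Pool.Agent.H480.G
open Pool.Agent.H480.K
open Pool.Agent.H480.Q

noncomputable section

variable {r : ℕ} {a : ℕ → ℂ} {b B lam : ℝ}

theorem VV_meas (hB : 0 ≤ B) (ha : ∀ n : ℕ, n ≠ 0 → ‖a n‖ ≤ B * (n : ℝ) ^ b) (hl : 0 < lam) : Measurable (VV a lam) := by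
  have h1 : Measurable fun x : ℝ => if x = 0 then VV a lam 0 else fV a lam (Real.log x) :=
    Measurable.ite (measurableSet_singleton 0) measurable_const ((fV_cont hB ha hl).measurable.comp Real.measurable_log)
  have h2 : VV a lam = fun x : ℝ => if x = 0 then VV a lam 0 else fV a lam (Real.log x) := by
    funext x
    split_ifs with h
    · rw [h]
    · exact VV_eq a lam h
  rw [h2]
  exact h1

theorem VV_cts (hB : 0 ≤ B) (ha : ∀ n : ℕ, n ≠ 0 → ‖a n‖ ≤ B * (n : ℝ) ^ b) (hl : 0 < lam) :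
    {x : ℝ | ¬ ContinuousAt (VV a lam) x}.Countable := by
  refine (Set.countable_singleton (0:ℝ)).mono fun x hx => ?_
  rw [mem_singleton_iff]
  by_contra h
  apply hx
  have h1 : ContinuousAt (fun x : ℝ => fV a lam (Real.log x)) x :=
    (fV_cont hB ha hl).continuousAt.comp (Real.continuousAt_log h)
  refine h1.congr ?_
  filter_upwards [isOpen_ne.mem_nhds h] with y hy
  exact (VV_eq a lam hy).symm

/-- **from a pole of order `r` to the size** -/
theorem size_of_pole (hB : 0 ≤ B) (ha : ∀ n : ℕ, n ≠ 0 → ‖a n‖ ≤ B * (n : ℝ) ^ b) {s₀ : ℝ}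
    (hs : ∀ σ : ℝ, s₀ < σ → LSeriesSummable a σ) (hl : 0 < lam) {A A' : ℝ} (hA : 1 < A) (hA' : 1 < A')
    (H : ∀ β : ℝ, ∀ᶠ X : ℝ in atTop, NearS (VV a lam) A A' (r + 1) β X) {g : ℂ → ℂ} (hg : Differentiable ℂ g)
    (hform : ∀ s : ℂ, s₀ < s.re → g s = (s - s₀) ^ (r + 1) * LSeries a s) (hg0 : g s₀ ≠ 0) :
    ∃ L : ℂ, L ≠ 0 ∧ Tendsto (fun x : ℝ => VV a lam x / ((x ^ s₀ * Real.log x ^ r : ℝ) : ℂ)) atTop (𝓝 L) := by
  classical
  have hA0 : 0 < Real.log A := Real.log_pos hA
  have hA0' : 0 < Real.log A' := Real.log_pos hA'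
  set F : ℝ → ℂ := FS (VV a lam) with hF
  have hFm : Measurable F := FS_meas (VV_meas hB ha hl)
  have hFc : ∀ᵐ u : ℝ, ContinuousAt F u := FS_cont (VV_cts hB ha hl)
  have hF0 : ∀ u, u < 0 → F u = 0 := FS_neg (VV a lam)
  have hFp : ∀ u, 0 ≤ u → F u = fV a lam u := fun u hu => by
    rw [hF, FS_pos _ hu, VV_exp]
  obtain ⟨C₁, hC₁, hF1⟩ := fV_bd' hl (hs (s₀ + 1) (by linarith))
  have hFb : ∀ u, 0 ≤ u → ‖F u‖ ≤ C₁ * Real.exp ((s₀ + 1) * u) := fun u hu => by rw [hFp u hu]; exact hF1 u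
  -- the negative part
  set fm : ℝ → ℂ := fun u => if 0 ≤ u then 0 else fV a lam u with hfm
  have hfmm : Measurable fm := Measurable.ite measurableSet_Ici measurable_const (fV_cont hB ha hl).measurable
  have hIm : ∀ σ : ℝ, s₀ - 1 < σ → Integrable fun u : ℝ => ‖fm u‖ * Real.exp (-(σ * u)) := by
    intro σ hσ
    obtain ⟨C, hC, hfC⟩ := fV_bd' hl (hs (max σ s₀ + 1) (by have := le_max_right σ s₀; linarith))
    have h3 : IntegrableOn (fun u : ℝ => C * Real.exp ((max σ s₀ + 1 - σ) * u)) (Iic 0) :=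
      (integrableOn_exp_mul_Iic (by have := le_max_left σ s₀; linarith) 0).const_mul C
    rw [← integrableOn_iff_integrable_of_support_subset (s := Iic (0:ℝ))]
    · refine h3.mono' ?_ ((ae_restrict_iff' measurableSet_Iic).2 (ae_of_all _ fun u hu => ?_))
      · exact (hfmm.norm.mul (by fun_prop)).aestronglyMeasurable
      · rw [Real.norm_eq_abs, abs_of_nonneg (by positivity)]
        have h4 : ‖fm u‖ ≤ C * Real.exp ((max σ s₀ + 1) * u) := by
          simp only [hfm]
          split_ifs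
          · rw [norm_zero]; positivity
          · exact hfC u
        calc ‖fm u‖ * Real.exp (-(σ * u)) ≤ C * Real.exp ((max σ s₀ + 1) * u) * Real.exp (-(σ * u)) :=
              mul_le_mul_of_nonneg_right h4 (Real.exp_pos _).le
          _ = _ := by rw [mul_assoc, ← Real.exp_add]; congr 2; ring
    · intro u hu
      rw [Function.mem_support] at hu
      by_contra hcon
      apply hu
      have h5 : 0 ≤ u := (not_le.1 hcon).le
      simp only [hfm]
      rw [if_pos h5]
      simp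
  have hmd : ∀ s : ℂ, s₀ - 1 < s.re → DifferentiableAt ℂ (Lap fm) s := fun s hs => lap_diff hfmm hIm hs
  have hIp : ∀ σ : ℝ, s₀ + 1 < σ → Integrable fun u : ℝ => ‖F u‖ * Real.exp (-(σ * u)) := fun σ hσ =>
    f_int hFm hF0 hC₁ hFb hσ
  have hsplit : ∀ s : ℂ, s₀ + 1 < s.re → Lap (fV a lam) s = Lap F s + Lap fm s := by
    intro s hs
    have i1 : Integrable fun u : ℝ => F u * cexp (-s * u) := lap_int (s := s) hFm (hIp s.re hs)
    have i2 : Integrable fun u : ℝ => fm u * cexp (-s * u) := lap_int (s := s) hfmm (hIm s.re (by linarith))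
    unfold Lap
    rw [← integral_add i1 i2]
    refine integral_congr_ae (ae_of_all _ fun u => ?_)
    beta_reduce
    rw [← add_mul]
    congr 1
    simp only [hfm]
    split_ifs with h
    · rw [hFp u h, add_zero]
    · rw [hF0 u (not_le.1 h), zero_add]
  -- the numerator
  set G₁ : ℂ → ℂ := fun s => MM lam s * g s - (s - s₀) ^ (r + 1) * Lap fm s with hG₁
  have hG₁d : ∀ s : ℂ, s₀ - 1 < s.re → DifferentiableAt ℂ G₁ s := by
    intro s h
    exact ((MM_diff lam s).mul (hg s)).sub (DifferentiableAt.mul (by fun_prop) (hmd s h))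
  have hG₁0 : G₁ s₀ ≠ 0 := by
    simp only [hG₁, sub_self]
    rw [zero_pow (by omega), zero_mul, sub_zero]
    exact mul_ne_zero (MM_ne hl _) hg0
  -- orders
  have horder : ∀ (n : ℕ) (ρ : Fin n → ℂ) (g' : ℂ → ℂ) (c₀ : ℝ), (∀ s : ℂ, s₀ - 1 < s.re → DifferentiableAt ℂ g' s) →
      (∀ s : ℂ, c₀ < s.re → g' s = (∏ j, (s - ρ j)) * Lap F s) →
      r + 1 ≤ (Finset.univ.filter fun j => ρ j = (s₀ : ℂ)).card := by
    intro n ρ g' c₀ hg' h
    have h1 : ∀ s : ℂ, s₀ - 1 < s.re → (s - s₀) ^ (r + 1) * g' s = (∏ j, (s - ρ j)) * G₁ s := by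
      intro s h2
      refine half_id (δ := s₀ - 1) (c₀ := max (max c₀ (s₀ + 1)) (b + 1)) (F := fun s => (s - s₀) ^ (r + 1) * g' s)
        (G := fun s => (∏ j, (s - ρ j)) * G₁ s) (fun s h3 => DifferentiableAt.mul (by fun_prop) (hg' s h3))
        (fun s h3 => DifferentiableAt.mul (by fun_prop) (hG₁d s h3)) (fun s h3 => ?_) h2
      have e1 : c₀ < s.re := (le_max_left _ _).trans_lt ((le_max_left _ _).trans_lt h3)
      have e2 : s₀ + 1 < s.re := (le_max_right _ _).trans_lt ((le_max_left _ _).trans_lt h3)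
      have e3 : b + 1 < s.re := (le_max_right _ _).trans_lt h3
      have e4 := hsplit s e2
      rw [fV_lap hB ha hl e3] at e4
      simp only [hG₁]
      rw [h s e1, hform s (by linarith)]
      have e5 : Lap F s = MM lam s * LSeries a s - Lap fm s := by rw [e4]; ring
      rw [e5]
      ring
    have hre : s₀ - 1 < ((s₀ : ℝ) : ℂ).re := by rw [Complex.ofReal_re]; linarith
    refine order_le (g' := g') (G₁ := G₁) (hg' _ hre).continuousAt (hG₁d _ hre).continuousAt hG₁0 ?_
    have ho : IsOpen {s : ℂ | s₀ - 1 < s.re} := isOpen_lt continuous_const Complex.continuous_re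
    exact eventually_nhdsWithin_of_eventually_nhds (by
      filter_upwards [ho.mem_nhds hre] with s h3
      exact h1 s h3)
  -- the expansion
  have HS : ∀ β' : ℝ, s₀ - 1 < β' → ∀ᶠ t : ℝ in atTop, SupN F (Real.log A) (Real.log A') (r + 1) (Real.exp (β' * t)) t := by
    intro β' _
    filter_upwards [Real.tendsto_exp_atTop.eventually (H β'), eventually_ge_atTop (0:ℝ)] with t h1 h2
    exact supN_of_nearSup (by linarith) (by linarith) h2 h1
  obtain ⟨ρ, c, hρ, ⟨g', hg', c₀, hg'f⟩, hexp⟩ := expansion hFm hFc hF0 hC₁ hFb hA0 hA0' HS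
  have hcard := horder (r + 1) ρ g' c₀ hg' hg'f
  have hall : ρ = fun _ => (s₀ : ℂ) := by
    have h1 : (Finset.univ.filter fun j => ρ j = (s₀ : ℂ)) = Finset.univ := by
      apply Finset.eq_univ_of_card
      refine le_antisymm (Finset.card_le_univ _) ?_
      rw [Fintype.card_fin]
      exact hcard
    funext j
    have h2 : j ∈ Finset.univ.filter fun j => ρ j = (s₀ : ℂ) := by rw [h1]; exact Finset.mem_univ _
    exact (Finset.mem_filter.1 h2).2
  subst hall
  have heb : ∀ (n : ℕ) (j : Fin n) (u : ℝ), eb (fun _ : Fin n => (s₀ : ℂ)) j u = (u : ℂ) ^ (n - 1 - (j : ℕ)) * cexp (s₀ * u) := by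
    intro n j u
    unfold eb
    rw [mu_const]
  -- the leading coefficient
  have hc0 : c 0 ≠ 0 := by
    intro h0
    have hexp' : ∀ β' : ℝ, s₀ - 1 < β' → ∃ K : ℝ, ∀ u : ℝ, 0 ≤ u →
        ‖F u - ∑ j : Fin r, c j.succ * eb (fun _ : Fin r => (s₀ : ℂ)) j u‖ ≤ K * Real.exp (β' * u) := by
      intro β' hβ'
      obtain ⟨K, -, hK⟩ := hexp β' hβ'
      refine ⟨K, fun u hu => ?_⟩
      have h1 := hK u hu
      rw [Fin.sum_univ_succ, h0, zero_mul, zero_add] at h1
      refine le_trans (le_of_eq ?_) h1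
      congr 2
      refine Finset.sum_congr rfl fun j _ => ?_
      rw [heb, heb, Fin.val_succ]
      have e1 : r - 1 - (j : ℕ) = r + 1 - 1 - ((j : ℕ) + 1) := by omega
      rw [e1]
    have HS' : ∀ β' : ℝ, s₀ - 1 < β' → ∀ᶠ t : ℝ in atTop, SupN F (Real.log A) (Real.log A') r (Real.exp (β' * t)) t := fun β' hβ' =>
      near_of_expansion (ρ := fun _ : Fin r => (s₀ : ℂ)) (c := fun j => c j.succ) hexp' hA0.le hA0'.le hβ'
    obtain ⟨ρ₂, c₂, -, ⟨g₂, hg₂, c₃, hg₂f⟩, -⟩ := expansion hFm hFc hF0 hC₁ hFb hA0 hA0' HS'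
    have h3 := horder r ρ₂ g₂ c₃ hg₂ hg₂f
    have h4 := Finset.card_le_univ (Finset.univ.filter fun j => ρ₂ j = (s₀ : ℂ))
    rw [Fintype.card_fin] at h4
    omega
  refine ⟨c 0, hc0, ?_⟩
  -- the limit, in the variable `u`
  have hlim : Tendsto (fun u : ℝ => F u / ((u : ℂ) ^ r * cexp (s₀ * u))) atTop (𝓝 (c 0)) := by
    obtain ⟨K, hK, hKb⟩ := hexp (s₀ - 1 / 2) (by linarith)
    have h1 : Tendsto (fun u : ℝ => ∑ j : Fin (r + 1), c j * ((u : ℂ) ^ (r - (j : ℕ)) / (u : ℂ) ^ r)) atTop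
        (𝓝 (∑ j : Fin (r + 1), c j * (if (j : ℕ) = 0 then 1 else 0))) := by
      refine tendsto_finsetSum _ fun j _ => Tendsto.const_mul _ ?_
      by_cases hj : (j : ℕ) = 0
      · rw [if_pos hj]
        refine tendsto_const_nhds.congr' ?_
        filter_upwards [eventually_gt_atTop (0:ℝ)] with u hu
        have hu' : (u : ℂ) ≠ 0 := by exact_mod_cast hu.ne'
        rw [hj, Nat.sub_zero, div_self (pow_ne_zero _ hu')]
      · rw [if_neg hj]
        have h2 : Tendsto (fun u : ℝ => ((u⁻¹ ^ (j : ℕ) : ℝ) : ℂ)) atTop (𝓝 ((0 : ℝ) : ℂ)) := by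
          refine (Complex.continuous_ofReal.tendsto _).comp ?_
          have := (tendsto_inv_atTop_zero (𝕜 := ℝ)).pow (j : ℕ)
          rwa [zero_pow hj] at this
        rw [Complex.ofReal_zero] at h2
        refine h2.congr' ?_
        filter_upwards [eventually_gt_atTop (0:ℝ)] with u hu
        have hu' : (u : ℂ) ≠ 0 := by exact_mod_cast hu.ne'
        have hj2 : (u : ℂ) ^ r = (u : ℂ) ^ (j : ℕ) * (u : ℂ) ^ (r - (j : ℕ)) := by
          rw [← pow_add]
          congr 1
          have := j.2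
          omega
        rw [eq_div_iff (pow_ne_zero _ hu'), hj2]
        push_cast
        rw [inv_pow, ← mul_assoc, inv_mul_cancel₀ (pow_ne_zero _ hu'), one_mul]
    have e1 : ∑ j : Fin (r + 1), c j * (if (j : ℕ) = 0 then (1:ℂ) else 0) = c 0 := by
      rw [Fin.sum_univ_succ]
      simp
    rw [e1] at h1
    have h2 : Tendsto (fun u : ℝ => F u / ((u : ℂ) ^ r * cexp (s₀ * u)) -
        ∑ j : Fin (r + 1), c j * ((u : ℂ) ^ (r - (j : ℕ)) / (u : ℂ) ^ r)) atTop (𝓝 0) := by
      rw [tendsto_zero_iff_norm_tendsto_zero]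
      have h3 : Tendsto (fun u : ℝ => K * Real.exp (-(1 / 2 * u))) atTop (𝓝 (K * 0)) := by
        refine Tendsto.const_mul _ ?_
        refine Real.tendsto_exp_neg_atTop_nhds_zero.comp ?_
        exact tendsto_id.const_mul_atTop (by norm_num)
      rw [mul_zero] at h3
      refine squeeze_zero' (Eventually.of_forall fun u => norm_nonneg _) ?_ h3
      filter_upwards [eventually_ge_atTop (1:ℝ)] with u hu
      have hu0 : 0 < u := by linarith
      have hu' : (u : ℂ) ≠ 0 := by exact_mod_cast hu0.ne'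
      have h4 := hKb u hu0.le
      have e2 : F u / ((u : ℂ) ^ r * cexp (s₀ * u)) - ∑ j : Fin (r + 1), c j * ((u : ℂ) ^ (r - (j : ℕ)) / (u : ℂ) ^ r) =
          (F u - ∑ j, c j * eb (fun _ : Fin (r + 1) => (s₀ : ℂ)) j u) / ((u : ℂ) ^ r * cexp (s₀ * u)) := by
        rw [sub_div, Finset.sum_div]
        congr 1
        refine Finset.sum_congr rfl fun j _ => ?_
        rw [heb, Nat.add_sub_cancel]
        have h5 : cexp (s₀ * u) ≠ 0 := Complex.exp_ne_zero _
        have h6 : (u : ℂ) ^ r ≠ 0 := pow_ne_zero _ hu'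
        field_simp
      rw [e2, norm_div, norm_mul, norm_pow, Complex.norm_real, Real.norm_eq_abs, abs_of_pos hu0, Complex.norm_exp]
      have e3 : (((s₀ : ℝ) : ℂ) * (u : ℂ)).re = s₀ * u := by rw [← Complex.ofReal_mul, Complex.ofReal_re]
      rw [e3, div_le_iff₀ (by positivity)]
      refine h4.trans ?_
      have h7 : 1 ≤ u ^ r := one_le_pow₀ hu
      calc K * Real.exp ((s₀ - 1 / 2) * u) = K * Real.exp (-(1 / 2 * u)) * (1 * Real.exp (s₀ * u)) := by
            rw [one_mul, mul_assoc, ← Real.exp_add]; congr 2; ring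
        _ ≤ _ := mul_le_mul_of_nonneg_left (mul_le_mul_of_nonneg_right h7 (Real.exp_pos _).le) (by positivity)
    have h8 := h2.add h1
    rw [zero_add] at h8
    refine h8.congr fun u => ?_
    ring
  have hlim2 := hlim.comp Real.tendsto_log_atTop
  refine hlim2.congr' ?_
  filter_upwards [eventually_ge_atTop (1:ℝ)] with x hx
  have hx0 : 0 < x := by linarith
  simp only [Function.comp_apply]
  rw [hFp _ (Real.log_nonneg hx), ← VV_eq a lam hx0.ne', Real.rpow_def_of_pos hx0]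
  push_cast
  rw [mul_comm (cexp _) _, mul_comm (s₀ : ℂ)]

end

end Pool.Agent.H480.X
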