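import Pool.Agent.H480.X3

/-!
The Dirichlet coefficients of Euler products with real local polynomials.
-/

open Complex MeasureTheory Filter Topology Set
open scoped ComplexConjugate

set_option linter.unusedSectionVars false

namespace Pool.Agent.H480.X

noncomputable section

/-- the completely multiplicative function with the values `β p` at the primes -/
def cmh (β : ℕ → ℂ) : ℕ →*₀ ℂ where
  toFun n := if n = 0 then 0 else n.factorization.prod fun p k => β p ^ k
  map_zero' := by simp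
  map_one' := by simp
  map_mul' m n := by
    by_cases hm : m = 0
    · simp [hm]
    by_cases hn : n = 0
    · simp [hn]
    rw [if_neg hm, if_neg hn, if_neg (mul_ne_zero hm hn), Nat.factorization_mul hm hn,
      Finsupp.prod_add_index' (by simp) (by intro a b c; rw [pow_add])]

theorem cmh_prime (β : ℕ → ℂ) {p : ℕ} (h : p.Prime) : cmh β p = β p := by
  change (if p = 0 then 0 else p.factorization.prod fun p k => β p ^ k) = β p
  rw [if_neg h.ne_zero, h.factorization]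
  simp

theorem cmh_norm (β : ℕ → ℂ) (θ : ℝ) (h : ∀ p : ℕ, p.Prime → ‖β p‖ ≤ (p : ℝ) ^ θ) (n : ℕ) (hn : n ≠ 0) :
    ‖cmh β n‖ ≤ (n : ℝ) ^ θ := by
  induction n using Nat.recOnMul with
  | zero => exact absurd rfl hn
  | one => simp
  | prime p hp => rw [cmh_prime β hp]; exact h p hp
  | mul a b iha ihb =>
    have ha : a ≠ 0 := fun h => hn (by simp [h])
    have hb : b ≠ 0 := fun h => hn (by simp [h])
    rw [map_mul, norm_mul, Nat.cast_mul, Real.mul_rpow (Nat.cast_nonneg _) (Nat.cast_nonneg _)]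
    exact mul_le_mul (iha ha) (ihb hb) (norm_nonneg _) (by positivity)

/-- the same as an arithmetic function -/
def cmf (β : ℕ → ℂ) : ArithmeticFunction ℂ :=
  ⟨fun n => if n = 0 then 0 else n.factorization.prod fun p k => β p ^ k, by simp⟩

theorem cmf_apply (β : ℕ → ℂ) (n : ℕ) : cmf β n = cmh β n := rfl

/-- `n ↦ β(n) n^(-s)` -/
def tw (β : ℕ → ℂ) (s : ℂ) : ℕ →*₀ ℂ where
  toFun n := cmh β n * (n : ℂ) ^ (-s)
  map_zero' := by simp
  map_one' := by simp
  map_mul' m n := by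
    rw [map_mul, Nat.cast_mul, Complex.natCast_mul_natCast_cpow]
    ring

theorem tw_summable (β : ℕ → ℂ) (θ : ℝ) (h : ∀ p : ℕ, p.Prime → ‖β p‖ ≤ (p : ℝ) ^ θ) (s : ℂ) (hs : θ + 1 < s.re) :
    Summable fun n => ‖tw β s n‖ := by
  have h1 : Summable fun n : ℕ => (n : ℝ) ^ (θ - s.re) := Real.summable_nat_rpow.2 (by linarith)
  refine Summable.of_nonneg_of_le (fun n => norm_nonneg _) (fun n => ?_) h1
  rcases eq_or_ne n 0 with rfl | hn
  · rw [map_zero, norm_zero]
    positivity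
  · have hn0 : (0 : ℝ) < n := by exact_mod_cast Nat.pos_of_ne_zero hn
    change ‖cmh β n * (n : ℂ) ^ (-s)‖ ≤ _
    rw [norm_mul, Complex.norm_natCast_cpow_of_pos (Nat.pos_of_ne_zero hn), Complex.neg_re]
    calc ‖cmh β n‖ * (n : ℝ) ^ (-s.re) ≤ (n : ℝ) ^ θ * (n : ℝ) ^ (-s.re) := by
          gcongr
          exact cmh_norm β θ h n hn
      _ = (n : ℝ) ^ (θ - s.re) := by rw [← Real.rpow_add hn0, sub_eq_add_neg]

theorem tw_lseries (β : ℕ → ℂ) (θ : ℝ) (h : ∀ p : ℕ, p.Prime → ‖β p‖ ≤ (p : ℝ) ^ θ) (s : ℂ) (hs : θ + 1 < s.re) :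
    LSeriesHasSum (fun n => cmf β n) s (∑' n, tw β s n) := by
  have h1 := (tw_summable β θ h s hs).of_norm.hasSum
  refine h1.congr_fun fun n => ?_
  rcases eq_or_ne n 0 with rfl | hn
  · simp
  · rw [LSeries.term_of_ne_zero hn]
    change cmh β n / _ = cmh β n * (n : ℂ) ^ (-s)
    rw [Complex.cpow_neg]
    rfl

theorem one_series (s : ℂ) : LSeriesHasSum (fun n => (1 : ArithmeticFunction ℂ) n) s 1 := by
  have e1 : (fun n => (1 : ArithmeticFunction ℂ) n) = LSeries.delta := by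
    funext n
    rw [ArithmeticFunction.one_apply]
    unfold LSeries.delta
    split_ifs <;> rfl
  rw [e1]
  unfold LSeriesHasSum
  have e2 : LSeries.term LSeries.delta s = fun n => if n = 1 then 1 else 0 := by
    funext n
    rw [LSeries.term_delta]
  rw [e2]
  exact hasSum_ite_eq 1 (1:ℂ)

theorem mul_series {f g : ArithmeticFunction ℂ} {s x y : ℂ} (hf : LSeriesHasSum (fun n => f n) s x)
    (hg : LSeriesHasSum (fun n => g n) s y) : LSeriesHasSum (fun n => (f * g) n) s (x * y) := by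
  have h1 := ArithmeticFunction.LSeriesSummable_mul hf.LSeriesSummable hg.LSeriesSummable
  have h2 := ArithmeticFunction.LSeries_mul' hf.LSeriesSummable hg.LSeriesSummable
  rw [hf.LSeries_eq, hg.LSeries_eq] at h2
  rw [← h2]
  exact h1.LSeriesHasSum

theorem prod_series {m : ℕ} {f : Fin m → ArithmeticFunction ℂ} {s : ℂ} {x : Fin m → ℂ}
    (h : ∀ j, LSeriesHasSum (fun n => f j n) s (x j)) (S : Finset (Fin m)) :
    LSeriesHasSum (fun n => (∏ j ∈ S, f j) n) s (∏ j ∈ S, x j) := by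
  classical
  induction S using Finset.induction_on with
  | empty => simpa using one_series s
  | insert j S hj ih =>
    rw [Finset.prod_insert hj, Finset.prod_insert hj]
    exact mul_series (h j) ih

theorem pow_series {f : ArithmeticFunction ℂ} {s x : ℂ} (h : LSeriesHasSum (fun n => f n) s x) (k : ℕ) :
    LSeriesHasSum (fun n => (f ^ k) n) s (x ^ k) := by
  induction k with
  | zero => simpa using one_series s
  | succ k ih =>
    rw [pow_succ, pow_succ]
    exact mul_series ih h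

/-- the coefficients of the `k`-th power of the Euler product -/
def cf {m : ℕ} (α : Fin m → ℕ → ℂ) (k : ℕ) : ArithmeticFunction ℂ := (∏ j, cmf (α j)) ^ k

theorem cf_series {m : ℕ} (α : Fin m → ℕ → ℂ) {θ : ℝ} (h : ∀ j, ∀ p : ℕ, p.Prime → ‖α j p‖ ≤ (p : ℝ) ^ θ) (k : ℕ)
    {s : ℂ} (hs : θ + 1 < s.re) :
    LSeriesHasSum (fun n => cf α k n) s ((∏' p : Nat.Primes, ∏ j, (1 - α j p * (p : ℂ) ^ (-s))⁻¹) ^ k) := by
  have hj : ∀ j, HasProd (fun p : Nat.Primes => (1 - tw (α j) s p)⁻¹) (∑' n, tw (α j) s n) := fun j =>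
    EulerProduct.eulerProduct_completely_multiplicative_hasProd (tw_summable (α j) θ (h j) s hs)
  have h1 : HasProd (fun p : Nat.Primes => ∏ j, (1 - α j p * (p : ℂ) ^ (-s))⁻¹) (∏ j, ∑' n, tw (α j) s n) := by
    refine (hasProd_prod (s := Finset.univ) fun j _ => hj j).congr_fun fun p => ?_
    refine Finset.prod_congr rfl fun j _ => ?_
    change _ = (1 - cmh (α j) p * ((p : ℕ) : ℂ) ^ (-s))⁻¹
    rw [cmh_prime _ p.2]
  rw [h1.tprod_eq]
  exact pow_series (prod_series (fun j => tw_lseries (α j) θ (h j) s hs) Finset.univ) k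

theorem mul_bd {f g : ArithmeticFunction ℂ} {a b : ℝ} (ha : 0 ≤ a) (hb : 0 ≤ b)
    (hf : ∀ n : ℕ, n ≠ 0 → ‖f n‖ ≤ (n : ℝ) ^ a) (hg : ∀ n : ℕ, n ≠ 0 → ‖g n‖ ≤ (n : ℝ) ^ b) (n : ℕ) (hn : n ≠ 0) :
    ‖(f * g) n‖ ≤ (n : ℝ) ^ (a + b + 1) := by
  have hn0 : (0:ℝ) < n := by exact_mod_cast Nat.pos_of_ne_zero hn
  rw [ArithmeticFunction.mul_apply]
  refine (norm_sum_le _ _).trans ?_
  calc ∑ x ∈ n.divisorsAntidiagonal, ‖f x.1 * g x.2‖ ≤ ∑ _x ∈ n.divisorsAntidiagonal, (n : ℝ) ^ a * (n : ℝ) ^ b := by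
        refine Finset.sum_le_sum fun x hx => ?_
        obtain ⟨h1, h2⟩ := Nat.mem_divisorsAntidiagonal.1 hx
        have hx1 : x.1 ≠ 0 := fun h => hn (by rw [← h1, h, zero_mul])
        have hx2 : x.2 ≠ 0 := fun h => hn (by rw [← h1, h, mul_zero])
        have hl1 : (x.1 : ℝ) ≤ n := by
          exact_mod_cast Nat.le_of_dvd (Nat.pos_of_ne_zero hn) ⟨x.2, h1.symm⟩
        have hl2 : (x.2 : ℝ) ≤ n := by
          exact_mod_cast Nat.le_of_dvd (Nat.pos_of_ne_zero hn) ⟨x.1, by rw [mul_comm]; exact h1.symm⟩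
        rw [norm_mul]
        exact mul_le_mul ((hf _ hx1).trans (Real.rpow_le_rpow (by positivity) hl1 ha))
          ((hg _ hx2).trans (Real.rpow_le_rpow (by positivity) hl2 hb)) (norm_nonneg _) (by positivity)
    _ = (n.divisors.card : ℝ) * ((n : ℝ) ^ a * (n : ℝ) ^ b) := by
        rw [Finset.sum_const, nsmul_eq_mul]
        congr 2
        rw [← Nat.map_div_right_divisors, Finset.card_map]
    _ ≤ (n : ℝ) * ((n : ℝ) ^ a * (n : ℝ) ^ b) := by
        refine mul_le_mul_of_nonneg_right ?_ (by positivity)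
        exact_mod_cast Nat.card_divisors_le_self n
    _ = _ := by
        rw [Real.rpow_add_one hn0.ne', Real.rpow_add hn0]
        ring

theorem one_bd (n : ℕ) (hn : n ≠ 0) : ‖(1 : ArithmeticFunction ℂ) n‖ ≤ (n : ℝ) ^ (0:ℝ) := by
  rw [ArithmeticFunction.one_apply, Real.rpow_zero]
  split_ifs <;> simp

theorem cf_bd {m : ℕ} {θ : ℝ} (hθ : 0 ≤ θ) (k : ℕ) : ∃ b : ℝ, 0 ≤ b ∧ ∀ α : Fin m → ℕ → ℂ,
    (∀ j, ∀ p : ℕ, p.Prime → ‖α j p‖ ≤ (p : ℝ) ^ θ) → ∀ n : ℕ, n ≠ 0 → ‖cf α k n‖ ≤ (n : ℝ) ^ b := by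
  classical
  have h1 : ∀ S : Finset (Fin m), ∃ b : ℝ, 0 ≤ b ∧ ∀ α : Fin m → ℕ → ℂ,
      (∀ j, ∀ p : ℕ, p.Prime → ‖α j p‖ ≤ (p : ℝ) ^ θ) → ∀ n : ℕ, n ≠ 0 → ‖(∏ j ∈ S, cmf (α j)) n‖ ≤ (n : ℝ) ^ b := by
    intro S
    induction S using Finset.induction_on with
    | empty => exact ⟨0, le_rfl, fun α _ n hn => by simpa using one_bd n hn⟩
    | insert j S hj ih =>
      obtain ⟨b, hb, hib⟩ := ih
      refine ⟨θ + b + 1, by positivity, fun α hα n hn => ?_⟩
      rw [Finset.prod_insert hj]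
      exact mul_bd hθ hb (fun n hn => cmh_norm (α j) θ (hα j) n hn) (hib α hα) n hn
  obtain ⟨b, hb, hib⟩ := h1 Finset.univ
  induction k with
  | zero => exact ⟨0, le_rfl, fun α _ n hn => by simpa [cf] using one_bd n hn⟩
  | succ k ih =>
    obtain ⟨b', hb', hib'⟩ := ih
    refine ⟨b' + b + 1, by positivity, fun α hα n hn => ?_⟩
    unfold cf
    rw [pow_succ]
    exact mul_bd hb' hb (hib' α hα) (hib α hα) n hn

theorem cmf_conj (β : ℕ → ℂ) (n : ℕ) : cmf (fun p => conj (β p)) n = conj (cmf β n) := by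
  rw [cmf_apply, cmf_apply]
  change (if n = 0 then 0 else n.factorization.prod fun p k => (conj (β p)) ^ k) =
    conj (if n = 0 then 0 else n.factorization.prod fun p k => β p ^ k)
  split_ifs with h
  · simp
  · unfold Finsupp.prod
    rw [map_prod]
    exact Finset.prod_congr rfl fun p _ => by rw [map_pow]

theorem prod_conj {m : ℕ} (α : Fin m → ℕ → ℂ) (S : Finset (Fin m)) (n : ℕ) :
    (∏ j ∈ S, cmf fun p => conj (α j p)) n = conj ((∏ j ∈ S, cmf (α j)) n) := by
  classical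
  induction S using Finset.induction_on generalizing n with
  | empty =>
    rw [Finset.prod_empty, Finset.prod_empty, ArithmeticFunction.one_apply]
    split_ifs <;> simp
  | insert j S hj ih =>
    rw [Finset.prod_insert hj, Finset.prod_insert hj, ArithmeticFunction.mul_apply, ArithmeticFunction.mul_apply, map_sum]
    refine Finset.sum_congr rfl fun x _ => ?_
    rw [map_mul, ih, cmf_conj]

/-- the coefficients of an Euler product with real local polynomials are real -/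
theorem cf_real {m : ℕ} (α : Fin m → ℕ → ℂ) {θ : ℝ} (h : ∀ j, ∀ p : ℕ, p.Prime → ‖α j p‖ ≤ (p : ℝ) ^ θ)
    {P : ℕ → Polynomial ℝ} (hP : ∀ p : ℕ, p.Prime → (P p).map (algebraMap ℝ ℂ) = ∏ j, (1 - Polynomial.C (α j p) * Polynomial.X))
    (n : ℕ) : ((∏ j, cmf (α j)) n).im = 0 := by
  rcases eq_or_ne n 0 with rfl | hn
  · simp
  have e0 : ∀ β : Fin m → ℕ → ℂ, (∏ j, cmf (β j)) = cf β 1 := fun β => by unfold cf; rw [pow_one]
  have hP' : ∀ p : ℕ, p.Prime → ∀ T : ℂ, ∏ j, (1 - α j p * T) = (P p).aeval T := by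
    intro p hp T
    have h1 := congrArg (Polynomial.eval T) (hP p hp)
    rw [Polynomial.eval_prod, Polynomial.eval_map_algebraMap] at h1
    rw [h1]
    simp
  set α' : Fin m → ℕ → ℂ := fun j p => conj (α j p) with hα'
  have h' : ∀ j, ∀ p : ℕ, p.Prime → ‖α' j p‖ ≤ (p : ℝ) ^ θ := fun j p hp => by
    simp only [hα']
    rw [Complex.norm_conj]
    exact h j p hp
  have hpr : ∀ p : ℕ, p.Prime → ∀ T : ℂ, ∏ j, (1 - α' j p * T) = ∏ j, (1 - α j p * T) := by
    intro p hp T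
    have h1 : ∏ j, (1 - α' j p * T) = conj (∏ j, (1 - α j p * conj T)) := by
      rw [map_prod]
      refine Finset.prod_congr rfl fun j _ => ?_
      rw [map_sub, map_mul, map_one, Complex.conj_conj]
    rw [h1, hP' p hp, hP' p hp, Polynomial.aeval_conj, Complex.conj_conj]
  have hs : ∀ s : ℂ, θ + 1 < s.re → LSeries (fun n => cf α' 1 n) s = LSeries (fun n => cf α 1 n) s := by
    intro s hs
    rw [(cf_series α' h' 1 hs).LSeries_eq, (cf_series α h 1 hs).LSeries_eq]
    congr 1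
    refine tprod_congr fun p => ?_
    rw [Finset.prod_inv_distrib, Finset.prod_inv_distrib, hpr p p.2]
  have hab : ∀ β : Fin m → ℕ → ℂ, (∀ j, ∀ p : ℕ, p.Prime → ‖β j p‖ ≤ (p : ℝ) ^ θ) →
      LSeries.abscissaOfAbsConv (fun n => cf β 1 n) < ⊤ := by
    intro β hβ
    have h1 := (cf_series β hβ 1 (s := ((θ + 2 : ℝ) : ℂ)) (by rw [Complex.ofReal_re]; linarith)).LSeriesSummable
    exact (h1.abscissaOfAbsConv_le).trans_lt (EReal.coe_lt_top _)
  have hev : (fun x : ℝ => LSeries (fun n => cf α' 1 n) x) =ᶠ[atTop] fun x : ℝ => LSeries (fun n => cf α 1 n) x := by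
    filter_upwards [eventually_gt_atTop (θ + 1)] with x hx
    exact hs x (by rw [Complex.ofReal_re]; exact hx)
  have h2 : cf α' 1 n = cf α 1 n := LSeries.eq_of_LSeries_eventually_eq (hab α' h') (hab α h) hev hn
  have h3 : cf α' 1 n = conj (cf α 1 n) := by
    rw [← e0, ← e0]
    exact prod_conj α Finset.univ n
  rw [e0]
  rw [h3] at h2
  exact Complex.conj_eq_iff_im.1 h2

end

end Pool.Agent.H480.X
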